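import Mathlib
import Pool.Agent.Lib.TwinAll.Stmts

/-!
MAYNARD-TAO ON ROUGH FORMS, WITHOUT BOMBIERI-VINOGRADOV (MP_c6d112_nt, MP_39b545_nt):
definitions and the statements of the modules.
-/

set_option autoImplicit false

namespace Pool.Agent.Lib.MT2

open Finset
open Pool.Agent.Lib.TwinAll (PP Rough om VV nu ee)

/-! ### Definitions -/

/-- a set of conditions `q ∣ ℓ_j(U)`: pairs (prime, index of a main form) -/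
abbrev Cond (K : ℕ) := Finset (ℕ × Fin K)

/-- all pairs `(q, j)` with `q` a prime in `(z, R]` -/
def PI (z R K : ℕ) : Cond K := PP z R ×ˢ Finset.univ

/-- the modulus of a set of conditions -/
def md {K : ℕ} (D : Cond K) : ℕ := ∏ x ∈ D, x.1

/-- the conditions `D` hold at `U` -/
def Holds {K : ℕ} (α β : Fin K → ℤ) (D : Cond K) (U : ℤ) : Prop :=
  ∀ x ∈ D, (x.1 : ℤ) ∣ α x.2 * U + β x.2

/-- no prime occurs twice in `D` -/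
def Clean {K : ℕ} (D : Cond K) : Prop := Set.InjOn Prod.fst (D : Set (ℕ × Fin K))

open Classical in
/-- the weight function with coefficients `c` -/
noncomputable def wt {K : ℕ} (z R : ℕ) (c : Cond K → ℝ) (α β : Fin K → ℤ) (U : ℤ) : ℝ :=
  ∑ D ∈ (PI z R K).powerset, c D * (if Holds α β D U then 1 else 0)

/-- its mean value in the model -/
noncomputable def wmean {K : ℕ} (z R : ℕ) (c : Cond K → ℝ) : ℝ :=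
  ∑ D ∈ (PI z R K).powerset, c D / md D

/-- the norm of the coefficients -/
noncomputable def wnorm {K : ℕ} (z R : ℕ) (c : Cond K → ℝ) : ℝ :=
  ∑ D ∈ (PI z R K).powerset, |c D| / md D

/-- admissible coefficients: bounded by `C1`, clean, of level `X`, with indices in `J` -/
structure Wt {K : ℕ} (C1 : ℝ) (X : ℕ) (J : Finset (Fin K)) (c : Cond K → ℝ) : Prop where
  bd : ∀ D, |c D| ≤ C1
  clean : ∀ D, c D ≠ 0 → Clean D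
  lev : ∀ D, c D ≠ 0 → md D ≤ X
  idx : ∀ D, c D ≠ 0 → ∀ x ∈ D, x.2 ∈ J

/-- main forms -/
structure MF {K : ℕ} (C0 z0 : ℕ) (α β : Fin K → ℤ) : Prop where
  pos : ∀ j, 0 < α j ∧ 0 < α j + β j
  bd : ∀ j, α j ≤ C0 ∧ |β j| ≤ C0
  cop : ∀ j, IsCoprime (α j) (β j)
  small : ∀ j, ∀ q : ℕ, q.Prime → q ≤ z0 → (q : ℤ) ∣ α j
  large : ∀ j, ∀ q : ℕ, q.Prime → (q : ℤ) ∣ α j → q ≤ z0
  det : ∀ i j, i ≠ j → α i * β j ≠ α j * β i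

/-- sieve forms (the main forms and the extra forms) -/
structure SF {k : ℕ} (C0 z0 : ℕ) (a : Fin k → ℤ) : Prop where
  bd : ∀ j, |a j| ≤ C0
  large : ∀ j, ∀ q : ℕ, q.Prime → (q : ℤ) ∣ a j → q ≤ z0

/-- the system (variable, forms) in the variable `n = a0 U + b0` -/
noncomputable def V1 (z0 z : ℕ) : ℝ := VV z0 z (![1] : Fin 1 → ℤ) ![0]

/-- density of the system `n`, `a_j n + Δ_j`, `Δ_j = a0 b_j - a_j b0` -/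
noncomputable def VJ {k : ℕ} (z0 z : ℕ) (a0 b0 : ℤ) (a b : Fin k → ℤ) : ℝ :=
  VV z0 z (Fin.cons 1 a : Fin (k + 1) → ℤ) (Fin.cons 0 (fun j => a0 * b j - a j * b0))

open Classical in
/-- normalised indicator of the roughness of the forms `a_j U + b_j`, given that
`a0 U + b0` is rough -/
noncomputable def nuJ {k : ℕ} (z0 z : ℕ) (a0 b0 : ℤ) (a b : Fin k → ℤ) (U : ℤ) : ℝ :=
  if ∀ j, Rough z0 z (a j * U + b j) then V1 z0 z / VJ z0 z a0 b0 a b else 0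

/-! ### Rates -/

/-- S1 with rate -/
def S1rStmt : Prop :=
  ∀ k : ℕ, ∃ s0 zs : ℕ, ∀ t z0 : ℕ, zs ≤ z0 → ∀ z : ℕ, z0 ≤ z →
    ∃ U L : Finset ℕ → ℝ, (∀ D, |U D| ≤ 1 ∧ |L D| ≤ 1) ∧
      (∀ D, D ⊆ PP z0 z → (U D ≠ 0 ∨ L D ≠ 0) → ∏ q ∈ D, q ≤ z ^ (s0 * (t + 1))) ∧
      (∀ h : ℕ → ℝ, (∀ q, 0 ≤ h q ∧ h q ≤ 1) →
        (∑ D ∈ (PP z0 z).powerset, L D * ∏ q ∈ D, h q) ≤ ∏ q ∈ PP z0 z, (1 - h q) ∧
        ∏ q ∈ PP z0 z, (1 - h q) ≤ ∑ D ∈ (PP z0 z).powerset, U D * ∏ q ∈ D, h q) ∧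
      (∀ h : ℕ → ℝ, (∀ q ∈ PP z0 z, 0 ≤ h q ∧ h q ≤ (k : ℝ) / q) →
        (∑ D ∈ (PP z0 z).powerset, U D * ∏ q ∈ D, h q) ≤
          (1 + (1 / 2) ^ t) * ∏ q ∈ PP z0 z, (1 - h q) ∧
        (1 - (1 / 2) ^ t) * ∏ q ∈ PP z0 z, (1 - h q) ≤
          ∑ D ∈ (PP z0 z).powerset, L D * ∏ q ∈ D, h q)

open Classical in
/-- the general sieve estimate with rate, in a residue class modulo a number `Q` prime to the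
sieving primes -/
def CorerStmt : Prop :=
  ∀ k : ℕ, ∃ s0 zs : ℕ, ∀ t z0 : ℕ, zs ≤ z0 → ∀ z : ℕ, z0 ≤ z →
    ∀ (bad : ℕ → ℤ → Prop),
    (∀ q ∈ PP z0 z, ∀ n m : ℤ, (q : ℤ) ∣ n - m → (bad q n ↔ bad q m)) →
    (∀ q ∈ PP z0 z, ((range q).filter (fun r : ℕ => bad q r)).card ≤ k) →
    ∀ Q : ℕ, 0 < Q → (∀ q ∈ PP z0 z, ¬ q ∣ Q) → ∀ (c u : ℤ) (H : ℕ),
      |((((Ioc u (u + H)).filter (fun n => (Q : ℤ) ∣ n - c ∧ ∀ q ∈ PP z0 z, ¬ bad q n)).card : ℝ)) -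
        (H / Q : ℝ) * ∏ q ∈ PP z0 z,
          (1 - ((((range q).filter (fun r : ℕ => bad q r)).card : ℕ) : ℝ) / q)| ≤
      (1 / 2) ^ t * ((H / Q : ℝ) * ∏ q ∈ PP z0 z,
          (1 - ((((range q).filter (fun r : ℕ => bad q r)).card : ℕ) : ℝ) / q)) +
        (z : ℝ) ^ (s0 * (t + 1))

/-- S2 with rate, in a residue class -/
def S2rStmt : Prop :=
  ∀ k : ℕ, ∃ s0 zs : ℕ, ∀ t z0 : ℕ, zs ≤ z0 → ∀ z : ℕ, z0 ≤ z →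
    ∀ a b : Fin k → ℤ, (∀ j, ∀ q ∈ PP z0 z, ¬ ((q : ℤ) ∣ a j)) →
    ∀ Q : ℕ, 0 < Q → (∀ q ∈ PP z0 z, ¬ q ∣ Q) → ∀ (c u : ℤ) (H : ℕ),
      |(∑ n ∈ (Ioc u (u + H)).filter (fun n => (Q : ℤ) ∣ n - c), nu z0 z a b n) - (H / Q : ℝ)| ≤
        (1 / 2) ^ t * (H / Q : ℝ) + (z : ℝ) ^ (s0 * (t + 1))

/-! ### The correlation constant of two primes -/

/-- S5 for `k` forms: on average over two primes in a residue class modulo a bounded number the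
correlation constant is 1; and an upper bound for the number of primes -/
def S5kStmt : Prop :=
  ∀ k : ℕ, ∃ s5 : ℕ, ∀ ε : ℝ, 0 < ε → ∃ zs : ℕ, ∀ z0 : ℕ, zs ≤ z0 → ∀ C C0 : ℕ,
    ∃ z1 : ℕ, ∀ z : ℕ, z1 ≤ z →
    ∀ a Δ : Fin k → ℤ, (∀ j, ∀ q ∈ PP z0 z, ¬ ((q : ℤ) ∣ a j)) →
    ∀ W : ℕ, 0 < W → W ≤ C0 → (∀ q ∈ PP z0 z, ¬ q ∣ W) → ∀ cl : ℤ,
    ∀ y : ℕ, z ^ s5 ≤ y → y ≤ z ^ C →
      ((((PP z y).filter (fun p : ℕ => (W : ℤ) ∣ (p : ℤ) - cl)).card : ℕ) : ℝ) ≤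
        3 * (V1 z0 z * y / W) ∧
      ∑ p ∈ (PP z y).filter (fun p : ℕ => (W : ℤ) ∣ (p : ℤ) - cl),
        ∑ p' ∈ ((PP z y).filter (fun p : ℕ => (W : ℤ) ∣ (p : ℤ) - cl)).erase p,
        |VV z0 z (![1] : Fin 1 → ℤ) ![0] *
            VV z0 z (Fin.cons 1 (Fin.append (fun j => a j * (p : ℤ)) (fun j => a j * (p' : ℤ))) :
              Fin (k + k + 1) → ℤ) (Fin.cons 0 (Fin.append Δ Δ)) /
          VV z0 z (Fin.cons 1 a : Fin (k + 1) → ℤ) (Fin.cons 0 Δ) ^ 2 - 1| ≤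
      ε * (V1 z0 z * y / W) ^ 2

/-! ### Mean values of weights -/

/-- EV2: mean value of `nu_T(m) w(φ m) w'(φ' m)` for two affine maps `φ m = μ m + ν`,
`φ' m = μ' m + ν'`; outside the set `Exc` of at most `E0` primes the conditions at `φ m` have one
root each and are incompatible with the conditions at `φ' m` at the same prime. -/
def EV2Stmt : Prop :=
  ∀ k K : ℕ, ∃ s0 zs : ℕ, ∀ t z0 : ℕ, zs ≤ z0 → ∀ (b0 E0 : ℕ) (C1 : ℝ), ∃ z1 : ℕ,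
    ∀ z : ℕ, z1 ≤ z → ∀ R X : ℕ, R ≤ z ^ b0 → X ≤ z ^ b0 →
    ∀ A B : Fin k → ℤ, (∀ j, ∀ q ∈ PP z0 z, ¬ ((q : ℤ) ∣ A j)) →
    ∀ (α β : Fin K → ℤ) (J : Finset (Fin K)) (c c' : Cond K → ℝ),
    Wt C1 X J c → Wt C1 X J c' →
    ∀ (μ ν μ' ν' : ℤ) (Exc : Finset ℕ), Exc.card ≤ E0 →
    (∀ q ∈ PP z R, q ∉ Exc → ∀ j ∈ J, ¬ ((q : ℤ) ∣ α j * μ) ∧ ¬ ((q : ℤ) ∣ α j * μ')) →
    (∀ q ∈ PP z R, ∀ j ∈ J, (¬ ((q : ℤ) ∣ α j * μ) ∨ ∀ m : ℤ, ¬ ((q : ℤ) ∣ α j * (μ * m + ν) + β j)) ∧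
      (¬ ((q : ℤ) ∣ α j * μ') ∨ ∀ m : ℤ, ¬ ((q : ℤ) ∣ α j * (μ' * m + ν') + β j))) →
    (∀ q ∈ PP z R, q ∉ Exc → ∀ i ∈ J, ∀ j ∈ J, ∀ m : ℤ,
      ¬ ((q : ℤ) ∣ α i * (μ * m + ν) + β i ∧ (q : ℤ) ∣ α j * (μ' * m + ν') + β j)) →
    ∀ (u : ℤ) (H : ℕ),
      |(∑ m ∈ Ioc u (u + H), nu z0 z A B m * wt z R c α β (μ * m + ν) *
          wt z R c' α β (μ' * m + ν')) - H * (wmean z R c * wmean z R c')| ≤
        (1 / 2) ^ t * (wnorm z R c * wnorm z R c' + 1) * H + (X : ℝ) ^ 2 * (z : ℝ) ^ (s0 * (t + 1))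

/-- EV1: mean value of `nu_T(m) w(φ m)`, one map. -/
def EV1Stmt : Prop :=
  ∀ k K : ℕ, ∃ s0 zs : ℕ, ∀ t z0 : ℕ, zs ≤ z0 → ∀ (b0 E0 : ℕ) (C1 : ℝ), ∃ z1 : ℕ,
    ∀ z : ℕ, z1 ≤ z → ∀ R X : ℕ, R ≤ z ^ b0 → X ≤ z ^ b0 →
    ∀ A B : Fin k → ℤ, (∀ j, ∀ q ∈ PP z0 z, ¬ ((q : ℤ) ∣ A j)) →
    ∀ (α β : Fin K → ℤ) (J : Finset (Fin K)) (c : Cond K → ℝ), Wt C1 X J c →
    ∀ (μ ν : ℤ) (Exc : Finset ℕ), Exc.card ≤ E0 →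
    (∀ q ∈ PP z R, q ∉ Exc → ∀ j ∈ J, ¬ ((q : ℤ) ∣ α j * μ)) →
    (∀ q ∈ PP z R, ∀ j ∈ J, ¬ ((q : ℤ) ∣ α j * μ) ∨
      ∀ m : ℤ, ¬ ((q : ℤ) ∣ α j * (μ * m + ν) + β j)) →
    ∀ (u : ℤ) (H : ℕ),
      |(∑ m ∈ Ioc u (u + H), nu z0 z A B m * wt z R c α β (μ * m + ν)) - H * wmean z R c| ≤
        (1 / 2) ^ t * (wnorm z R c + 1) * H + (X : ℝ) * (z : ℝ) ^ (s0 * (t + 1))

open Classical in
/-- DISP: dispersion over the prime `p` in a dyadic interval, the cofactor `m` outside. -/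
def DISPStmt : Prop :=
  ∀ k K : ℕ, ∃ s0 s5 : ℕ, ∀ t : ℕ, ∃ zs : ℕ, ∀ z0 : ℕ, zs ≤ z0 → ∀ (b B C0 : ℕ) (C1 : ℝ),
    ∃ z1 : ℕ, ∀ z : ℕ, z1 ≤ z → ∀ R X : ℕ, R ≤ z ^ b → X ≤ z ^ b →
    ∀ (a0 b0 : ℤ) (a d : Fin k → ℤ), 0 < a0 → a0 ≤ C0 → |b0| ≤ C0 → IsCoprime a0 b0 →
    (∀ q : ℕ, q.Prime → (q : ℤ) ∣ a0 → q ≤ z0) → SF C0 z0 a →
    ∀ (α β : Fin K → ℤ) (J : Finset (Fin K)) (c : Cond K → ℝ), MF C0 z0 α β →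
    (∀ j ∈ J, a0 * β j ≠ α j * b0) → Wt C1 X J c →
    ∀ Y M : ℕ, z ^ s5 ≤ Y → Y * M ≤ z ^ B → X ^ 2 * z ^ (s0 * (t + 1)) ≤ M →
    ∀ (cl m0 n0 n1 : ℤ), a0 ∣ cl * m0 - b0 → 2 * C0 < n0 →
      ∑ m ∈ (Ioc (0 : ℤ) M).filter (fun m => a0 ∣ m - m0), nu z0 z (![1] : Fin 1 → ℤ) ![0] m *
        (∑ p ∈ (PP Y (2 * Y)).filter (fun p : ℕ => a0 ∣ (p : ℤ) - cl ∧ n0 < p * m ∧ p * m ≤ n1),
          (wt z R c α β (((p : ℤ) * m - b0) / a0) * nuJ z0 z a0 b0 a d (((p : ℤ) * m - b0) / a0) -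
            wmean z R c)) ^ 2 ≤
      (1 / 2) ^ t * (wnorm z R c + 1) ^ 4 * (V1 z0 z * Y / a0) ^ 2 * (M / a0 : ℝ)

open Classical in
/-- MIX: the sum over the `U` for which `a0 U + b0` is rough up to `z ^ s5`. -/
def MIXStmt : Prop :=
  ∀ k K s5 : ℕ, 1 ≤ s5 → ∃ s0 zs : ℕ, ∀ t z0 : ℕ, zs ≤ z0 → ∀ (b C0 : ℕ) (C1 : ℝ),
    ∃ z1 : ℕ, ∀ z : ℕ, z1 ≤ z → ∀ R X : ℕ, R ≤ z ^ b → X ≤ z ^ b →
    ∀ (a0 b0 : ℤ) (a d : Fin k → ℤ), 0 < a0 → a0 ≤ C0 → |b0| ≤ C0 → IsCoprime a0 b0 →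
    (∀ q : ℕ, q.Prime → (q : ℤ) ∣ a0 → q ≤ z0) → SF C0 z0 a →
    ∀ (α β : Fin K → ℤ) (J : Finset (Fin K)) (c : Cond K → ℝ), MF C0 z0 α β →
    (∀ j ∈ J, a0 * β j ≠ α j * b0) → Wt C1 X J c →
    ∀ H : ℕ, X * z ^ (s0 * (t + 1)) ≤ H →
      |∑ U ∈ (Ioc (0 : ℤ) H).filter (fun U => Rough z0 (z ^ s5) (a0 * U + b0)),
        (wt z R c α β U * nuJ z0 z a0 b0 a d U - wmean z R c)| ≤
      (1 / 2) ^ t * (wnorm z R c + 1) * (V1 z0 z * H)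

open Classical in
/-- TRANS: primes `a0 U + b0` are independent of the weight and of the roughness of the other
forms. -/
def TRANSStmt : Prop :=
  ∀ k K : ℕ, ∃ s0 : ℕ, ∀ t : ℕ, ∃ zs : ℕ, ∀ z0 : ℕ, zs ≤ z0 → ∀ (b B C0 : ℕ) (C1 : ℝ),
    4 * b + s0 * (t + 1) ≤ B →
    ∃ z1 : ℕ, ∀ z : ℕ, z1 ≤ z → ∀ R X : ℕ, R ≤ z ^ b → X ≤ z ^ b →
    ∀ (a0 b0 : ℤ) (a d : Fin k → ℤ), 0 < a0 → a0 ≤ C0 → |b0| ≤ C0 → IsCoprime a0 b0 →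
    (∀ q : ℕ, q.Prime → q ≤ z0 → (q : ℤ) ∣ a0) → (∀ q : ℕ, q.Prime → (q : ℤ) ∣ a0 → q ≤ z0) →
    SF C0 z0 a →
    ∀ (α β : Fin K → ℤ) (J : Finset (Fin K)) (c : Cond K → ℝ), MF C0 z0 α β →
    (∀ j ∈ J, a0 * β j ≠ α j * b0) → Wt C1 X J c →
    ∀ H : ℕ, z ^ B ≤ H → H ≤ z ^ (B + 1) →
      |∑ U ∈ (Ioc (0 : ℤ) H).filter (fun U => Prime (a0 * U + b0)),
        (wt z R c α β U * nuJ z0 z a0 b0 a d U - wmean z R c)| ≤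
      (1 / 2) ^ t * (B + 1) * (wnorm z R c + 1) ^ 2 * (V1 z0 z * H)

/-- PNT: primes in a progression whose modulus contains all primes up to `z0`, relative to the
density of rough numbers. -/
def PNTStmt : Prop :=
  ∀ (z0 C0 B : ℕ) (ε : ℝ), 0 < ε → 2 ≤ z0 → ∃ z1 : ℕ, ∀ z : ℕ, z1 ≤ z → ∀ (a0 b0 : ℤ), 0 < a0 →
    a0 ≤ C0 → |b0| ≤ C0 → IsCoprime a0 b0 → (∀ q : ℕ, q.Prime → q ≤ z0 → (q : ℤ) ∣ a0) →
    ∀ H : ℕ, z ≤ H → H ≤ z ^ B →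
      (1 - ε) * (H / B : ℝ) * V1 z0 z ≤
        ((((Ioc (0 : ℤ) H).filter (fun U => Prime (a0 * U + b0))).card : ℕ) : ℝ)

/-! ### The weights -/

/-- independent model: `∑ λ_D λ_D' / [D, D']` over the subsets of `I` -/
noncomputable def quad {K : ℕ} (lam : Cond K → ℝ) (I : Cond K) : ℝ :=
  ∑ D ∈ I.powerset, ∑ D' ∈ I.powerset, lam D * lam D' / md (D ∪ D')

/-- diagonalisation: `λ` from `y` -/
noncomputable def lamOf {K : ℕ} (I : Cond K) (y : Cond K → ℝ) (D : Cond K) : ℝ :=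
  ∑ r ∈ I.powerset.filter (fun r => D ⊆ r), y r * (∏ x ∈ D, (-(x.1 : ℝ) / (x.1 - 1))) *
    ∏ x ∈ r \ D, (1 / ((x.1 : ℝ) - 1))

/-- Selberg's diagonalisation (independent model). -/
def DIAGStmt : Prop :=
  ∀ (K : ℕ) (I : Cond K) (y : Cond K → ℝ), (∀ x ∈ I, 2 ≤ x.1) →
    quad (lamOf I y) I = ∑ r ∈ I.powerset, y r ^ 2 * ∏ x ∈ r, (1 / ((x.1 : ℝ) - 1))

/-- the same for the conditions without a given index `i` -/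
def DIAG1Stmt : Prop :=
  ∀ (K : ℕ) (I : Cond K) (y : Cond K → ℝ) (i : Fin K), (∀ x ∈ I, 2 ≤ x.1) →
    quad (lamOf I y) (I.filter (fun x => x.2 ≠ i)) =
      ∑ r ∈ (I.filter (fun x => x.2 ≠ i)).powerset,
        (∑ s ∈ (I.filter (fun x => x.2 = i)).powerset, y (r ∪ s) * ∏ x ∈ s, (1 / ((x.1 : ℝ) - 1)))
          ^ 2 * ∏ x ∈ r, (1 / ((x.1 : ℝ) - 1))

/-- sum of `1/φ(s)` over the squarefree products `s ≤ z ^ a` of primes in `(z, z ^ b]` -/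
noncomputable def FF (z a b : ℕ) : ℝ :=
  ∑ s ∈ (PP z (z ^ b)).powerset.filter (fun s => ∏ q ∈ s, q ≤ z ^ a), ∏ q ∈ s, (1 / ((q : ℝ) - 1))

/-- one-dimensional sums -/
def FFStmt : Prop :=
  ∃ c1 c2 : ℝ, 0 < c1 ∧ c1 ≤ c2 ∧ ∀ b : ℕ, ∃ z1 : ℕ, ∀ z : ℕ, z1 ≤ z → ∀ a : ℕ, 1 ≤ a → a ≤ b →
    c1 * a ≤ FF z a b ∧ FF z a b ≤ c2 * a

/-- WGT: the weights. For every `Λ` and all large `K` there are `λ` with
`∑_i quad_i ≥ Λ b quad`, with a polynomial bound in `b` for the norm. -/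
def WGTStmt : Prop :=
  ∀ Λ : ℝ, ∃ K0 : ℕ, ∀ K : ℕ, K0 ≤ K → ∃ CK : ℕ, ∀ b1 : ℕ, ∃ b : ℕ, b1 ≤ b ∧ ∃ z1 : ℕ,
    ∀ z : ℕ, z1 ≤ z → ∃ lam : Cond K → ℝ,
      (∀ D, |lam D| ≤ (CK : ℝ) * (b : ℝ) ^ CK) ∧
      (∀ D, lam D ≠ 0 → md D ≤ z ^ b ∧ D ⊆ PI z (z ^ b) K) ∧
      (∑ D ∈ (PI z (z ^ b) K).powerset, ∑ D' ∈ (PI z (z ^ b) K).powerset,
        |lam D * lam D'| / md (D ∪ D')) ≤ (CK : ℝ) * (b : ℝ) ^ CK ∧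
      1 ≤ quad lam (PI z (z ^ b) K) ∧
      Λ * b * quad lam (PI z (z ^ b) K) ≤
        ∑ i : Fin K, quad lam ((PI z (z ^ b) K).filter (fun x => x.2 ≠ i))

/-! ### Fixed parts -/

/-- FIX: passing to a residue class `U = U0 + M V` the main forms become `h_j (α_j V + β_j)` with
admissible `α_j V + β_j` and `Ω(h_j) = G` prescribed, the extra forms `h'_e (a'_e V + b'_e)` with
bounded `h'_e` and no further prime factors up to `w`. -/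
def FIXStmt : Prop :=
  ∀ K k D : ℕ, ∃ G0 : ℕ, ∀ G : ℕ, G0 ≤ G → ∃ ws : ℕ, ∀ w : ℕ, ws ≤ w → ∃ Cw : ℕ,
    ∀ (A B : Fin K → ℤ) (a b : Fin k → ℤ),
    (∀ j, 0 < A j ∧ A j ≤ D ∧ 0 < B j ∧ B j ≤ D) →
    (∀ i j, i ≠ j → A i * B j ≠ A j * B i) → (∀ e, a e ≠ 0 ∧ |a e| ≤ D) →
    ∃ (U0 M : ℕ) (h α β : Fin K → ℤ) (h' a' b' : Fin k → ℤ), 0 < M ∧ M ≤ Cw ∧ U0 ≤ Cw ∧
      (∀ j, A j * M = h j * α j ∧ A j * U0 + B j = h j * β j ∧ 0 < h j ∧ h j ≤ Cw ∧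
        ArithmeticFunction.cardFactors (h j).toNat = G) ∧
      MF Cw w α β ∧
      (∀ e, a e * M = h' e * a' e ∧ a e * U0 + b e = h' e * b' e ∧ 0 < h' e ∧ h' e ≤ Cw ∧
        IsCoprime (a' e) (b' e) ∧ ∀ q : ℕ, q.Prime → q ≤ w → (q : ℤ) ∣ a' e) ∧
      SF Cw w a'

/-- RAM: Ramsey numbers for the pair `(x, κ x + (κ - 1) ..)`; with `κ = 1` for twins: numbers
`r_0 < ... < r_(K-1)` whose differences satisfy `κ (r_j - r_i) ∣ r_i` and have the same number of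
prime factors modulo `m`. -/
def RAMStmt : Prop :=
  ∀ K κ m : ℕ, 0 < κ → 0 < m → ∃ (r : Fin K → ℕ) (c : ℕ), (∀ i, 0 < r i) ∧
    ∀ i j, i < j → r i < r j ∧ κ * (r j - r i) ∣ r i ∧
      ArithmeticFunction.cardFactors (r j - r i) ≡ c [MOD m]

/-! ### The engine -/

open Classical in
/-- MT: two primes among `K` rough main forms, all extra forms rough. -/
def MTStmt : Prop :=
  ∃ K0 : ℕ, ∀ K k B1 : ℕ, K0 ≤ K → ∃ B zs : ℕ, B1 ≤ B ∧ ∀ z0 : ℕ, zs ≤ z0 → ∀ C0 : ℕ,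
    ∃ (δ : ℝ) (z1 : ℕ), 0 < δ ∧ ∀ z : ℕ, z1 ≤ z → ∀ (α β : Fin K → ℤ) (a d : Fin k → ℤ),
    MF C0 z0 α β → SF C0 z0 a → ∀ H : ℕ, z ^ B ≤ H → H ≤ z ^ (B + 1) →
      δ * VV z0 z (Fin.append α a) (Fin.append β d) * H ≤
        ((((Ioc (0 : ℤ) H).filter (fun U =>
          (∀ j, Rough z0 z (α j * U + β j)) ∧ (∀ j, Rough z0 z (a j * U + d j)) ∧
          ∃ i j, i < j ∧ Prime (α i * U + β i) ∧ Prime (α j * U + β j))).card : ℕ) : ℝ)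

/-! ### The three theorems -/

/-- `x = d p` with `1 ≤ d ≤ C` and `p` prime -/
def PrimeMult (C x : ℕ) : Prop := ∃ d p : ℕ, x = d * p ∧ 1 ≤ d ∧ d ≤ C ∧ p.Prime

/-- all prime factors are at most `C` or at least `N ^ (1 / C)`, and there are at most `C` of
them -/
def AlmostPrime (C N n : ℕ) : Prop :=
  ArithmeticFunction.cardFactors n ≤ C ∧ ∀ p : ℕ, p.Prime → p ∣ n → p ≤ C ∨ N ≤ p ^ C

/-- (A) every large even `N` -/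
def AStmt : Prop :=
  ∀ m r : ℕ, 0 < m → ∃ C : ℕ, ∀ N : ℕ, C ≤ N → ∀ δ ε : ℤ, (δ = 2 ∨ δ = -2) → (ε = 2 ∨ ε = -2) →
    ∃ S : Finset ℕ, (N : ℝ) / (Real.log N) ^ C ≤ (S.card : ℝ) ∧ ∀ a ∈ S, ∃ a' b b' : ℕ,
      N = a + b ∧ (a' : ℤ) = a + δ ∧ (b' : ℤ) = b + ε ∧ 0 < b ∧ 0 < b' ∧
      PrimeMult C a ∧ PrimeMult C a' ∧
      ArithmeticFunction.cardFactors a = ArithmeticFunction.cardFactors a' ∧
      ArithmeticFunction.cardFactors a ≡ r [MOD m] ∧ AlmostPrime C N b ∧ AlmostPrime C N b'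

/-- (B) a positive proportion of the even numbers, all four numbers -/
def BStmt : Prop :=
  ∀ m r : ℕ, 0 < m → ∃ C : ℕ, ∀ N : ℕ, C ≤ N → ∃ (g : ℕ) (S : Finset ℕ), g ≤ C ∧ g ≡ r [MOD m] ∧
    N ≤ C * S.card ∧ ∀ n ∈ S, n ≤ N ∧ Even n ∧ ∃ a b : ℕ, 0 < a ∧ 0 < b ∧ n = a + b ∧
      ∀ x ∈ ({a, a + 2, b, b + 2} : Finset ℕ), PrimeMult C x ∧
        ArithmeticFunction.cardFactors x = g

/-- (C) two prescribed terms of a chain of almost primes (MP_39b545_nt) -/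
def CStmt : Prop :=
  ∀ k j m r : ℕ, 0 < m → 0 < j → ∃ C : ℕ, ∀ N : ℕ, C ≤ N →
    ∃ S : Finset ℕ, (N : ℝ) / (Real.log N) ^ C ≤ (S.card : ℝ) ∧ ∀ n ∈ S, 1 ≤ n ∧ n ≤ N ∧
      PrimeMult C n ∧ PrimeMult C (2 ^ j * (n - 1) + 1) ∧
      ArithmeticFunction.cardFactors n ≡ r [MOD m] ∧
      ArithmeticFunction.cardFactors (2 ^ j * (n - 1) + 1) = ArithmeticFunction.cardFactors n + j ∧
      ∀ i < k, AlmostPrime C N (2 ^ i * (n - 1) + 1)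

end Pool.Agent.Lib.MT2

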