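import Mathlib
import Pool.Agent.Lib.MT2.Stmts
import Pool.Agent.Lib.TwinMT.S1R82
import Pool.Agent.Lib.TwinAll.S2core49

/-!
MT2: the modules S1r, Corer, S2r (sieve estimates with rate).
-/

set_option autoImplicit false

namespace Pool.Agent.Lib.MT2.R82

open Finset
open Pool.Agent.Lib.TwinAll Pool.Agent.Lib.TwinAll.T49

/-- general sieve estimate with rate -/
theorem coreR (k : ℕ) : ∃ s' zs : ℕ, ∀ t z0 : ℕ, zs ≤ z0 → ∀ z : ℕ, z0 ≤ z →
    ∀ (bad : ℕ → ℤ → Prop) [∀ q n, Decidable (bad q n)],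
    (∀ q ∈ PP z0 z, ∀ n m : ℤ, (q : ℤ) ∣ n - m → (bad q n ↔ bad q m)) →
    (∀ q ∈ PP z0 z, ((range q).filter (fun r : ℕ => bad q r)).card ≤ k) →
    ∀ (u : ℤ) (H : ℕ),
      (1 - (1 / 4) ^ t) * (H * ∏ q ∈ PP z0 z, (1 - ((((range q).filter (fun r : ℕ => bad q r)).card : ℕ) : ℝ)
        / q)) - (z : ℝ) ^ (2 * (s' + 8 * t)) ≤
      (((Ioc u (u + H)).filter (fun n => ∀ q ∈ PP z0 z, ¬ bad q n)).card : ℝ) ∧
      (((Ioc u (u + H)).filter (fun n => ∀ q ∈ PP z0 z, ¬ bad q n)).card : ℝ) ≤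
      (1 + (1 / 4) ^ t) * (H * ∏ q ∈ PP z0 z, (1 - ((((range q).filter (fun r : ℕ => bad q r)).card : ℕ) : ℝ)
        / q)) + (z : ℝ) ^ (2 * (s' + 8 * t)) := by
  classical
  obtain ⟨s', zs, hS⟩ := S1R k
  refine ⟨s', zs, fun t z0 hz0 z hz bad _ hper hk u H => ?_⟩
  obtain ⟨U, L, hUL, hsupp, hind, hdens⟩ := hS t z0 hz0 z hz
  set s : ℕ := s' + 8 * t with hs
  set ε : ℝ := (1 / 4) ^ t with hε
  set P := PP z0 z with hP
  have hPp : ∀ q ∈ P, q.Prime := fun q hq => PP_prime hq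
  set g : ℕ → ℝ := fun q => ((((range q).filter (fun r : ℕ => bad q r)).card : ℕ) : ℝ) / q with hg
  have hdens2 := hdens g (fun q hq => ⟨by positivity, by
    have : (0 : ℝ) < q := by exact_mod_cast (hPp q hq).pos
    have h2 : ((((range q).filter (fun r : ℕ => bad q r)).card : ℕ) : ℝ) ≤ k := by
      exact_mod_cast hk q hq
    exact div_le_div_of_nonneg_right h2 this.le⟩)
  -- indicator
  have hI : ∀ n : ℤ, ∏ q ∈ P, (1 - (if bad q n then (1 : ℝ) else 0)) =
      if ∀ q ∈ P, ¬ bad q n then 1 else 0 := by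
    intro n
    by_cases h : ∀ q ∈ P, ¬ bad q n
    · rw [if_pos h]
      apply Finset.prod_eq_one
      intro q hq
      rw [if_neg (h q hq), sub_zero]
    · rw [if_neg h]
      push Not at h
      obtain ⟨q, hq, hb⟩ := h
      apply Finset.prod_eq_zero hq
      rw [if_pos hb, sub_self]
  have hcard : (((Ioc u (u + H)).filter (fun n => ∀ q ∈ P, ¬ bad q n)).card : ℝ) =
      ∑ n ∈ Ioc u (u + H), ∏ q ∈ P, (1 - (if bad q n then (1 : ℝ) else 0)) := by
    rw [Finset.card_filter]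
    push_cast
    exact Finset.sum_congr rfl (fun n _ => (hI n).symm)
  -- error term
  have herr : ∀ W : Finset ℕ → ℝ, (∀ D, |W D| ≤ 1) →
      (∀ D, D ⊆ P → W D ≠ 0 → ∏ q ∈ D, q ≤ z ^ s) →
      |∑ n ∈ Ioc u (u + H), ∑ D ∈ P.powerset, W D * ∏ q ∈ D, (if bad q n then (1 : ℝ) else 0) -
        H * ∑ D ∈ P.powerset, W D * ∏ q ∈ D, g q| ≤ (z : ℝ) ^ (2 * s) := by
    intro W hW1 hW2
    rw [Finset.sum_comm, Finset.mul_sum, ← Finset.sum_sub_distrib]
    refine (Finset.abs_sum_le_sum_abs _ _).trans ?_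
    have h1 : ∀ D ∈ P.powerset, |∑ n ∈ Ioc u (u + H), W D * ∏ q ∈ D,
        (if bad q n then (1 : ℝ) else 0) - H * (W D * ∏ q ∈ D, g q)| ≤
        if ∏ q ∈ D, q ≤ z ^ s then (z : ℝ) ^ s else 0 := by
      intro D hD
      rw [mem_powerset] at hD
      rw [← Finset.mul_sum]
      have h2 : W D * ∑ n ∈ Ioc u (u + H), ∏ q ∈ D, (if bad q n then (1 : ℝ) else 0) -
          H * (W D * ∏ q ∈ D, g q) = W D * (∑ n ∈ Ioc u (u + H), ∏ q ∈ D,
            (if bad q n then (1 : ℝ) else 0) - H * ∏ q ∈ D, g q) := by ring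
      rw [h2, abs_mul]
      by_cases h3 : W D = 0
      · rw [h3, abs_zero, zero_mul]
        split_ifs
        · positivity
        · exact le_rfl
      · have h4 := hW2 D hD h3
        rw [if_pos h4]
        have h5 := count_any D (fun q hq => hPp q (hD hq)) bad (fun q hq => hper q (hD hq)) u H
        have h6 : ((∏ q ∈ D, q : ℕ) : ℝ) ≤ (z : ℝ) ^ s := by exact_mod_cast h4
        calc |W D| * |∑ n ∈ Ioc u (u + H), ∏ q ∈ D,
            (if bad q n then (1 : ℝ) else 0) - H * ∏ q ∈ D, g q|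
            ≤ 1 * ((∏ q ∈ D, q : ℕ) : ℝ) :=
              mul_le_mul (hW1 D) h5 (abs_nonneg _) zero_le_one
          _ ≤ (z : ℝ) ^ s := by rw [one_mul]; exact h6
    refine (Finset.sum_le_sum h1).trans ?_
    rw [← Finset.sum_filter, Finset.sum_const, nsmul_eq_mul]
    have h7 := card_sets_le P hPp (z ^ s)
    have h8 : (((P.powerset.filter (fun D => ∏ q ∈ D, q ≤ z ^ s)).card : ℕ) : ℝ) ≤ (z : ℝ) ^ s := by
      exact_mod_cast h7
    calc _ ≤ (z : ℝ) ^ s * (z : ℝ) ^ s := mul_le_mul_of_nonneg_right h8 (by positivity)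
      _ = (z : ℝ) ^ (2 * s) := by rw [← pow_add, two_mul]
  have hH : (0 : ℝ) ≤ (H : ℝ) := Nat.cast_nonneg _
  have hind1 : ∀ n : ℤ, _ := fun n => hind (fun q => if bad q n then (1 : ℝ) else 0)
    (fun q => by split_ifs <;> norm_num)
  rw [hcard]
  constructor
  · have h1 := herr L (fun D => (hUL D).2) (fun D hD h => hsupp D hD (Or.inr h))
    have h2 : ∑ n ∈ Ioc u (u + H), ∑ D ∈ P.powerset, L D * ∏ q ∈ D,
        (if bad q n then (1 : ℝ) else 0) ≤
        ∑ n ∈ Ioc u (u + H), ∏ q ∈ P, (1 - (if bad q n then (1 : ℝ) else 0)) :=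
      Finset.sum_le_sum (fun n _ => (hind1 n).1)
    have h3 := mul_le_mul_of_nonneg_left hdens2.2 hH
    have h4 := (abs_le.1 h1).1
    have h5 : (1 - ε) * (H * ∏ q ∈ P, (1 - g q)) = H * ((1 - ε) * ∏ q ∈ P, (1 - g q)) := by ring
    change (1 - ε) * (H * ∏ q ∈ P, (1 - g q)) - (z : ℝ) ^ (2 * s) ≤ _
    rw [h5]
    linarith
  · have h1 := herr U (fun D => (hUL D).1) (fun D hD h => hsupp D hD (Or.inl h))
    have h2 : ∑ n ∈ Ioc u (u + H), ∏ q ∈ P, (1 - (if bad q n then (1 : ℝ) else 0)) ≤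
        ∑ n ∈ Ioc u (u + H), ∑ D ∈ P.powerset, U D * ∏ q ∈ D,
        (if bad q n then (1 : ℝ) else 0) :=
      Finset.sum_le_sum (fun n _ => (hind1 n).2)
    have h3 := mul_le_mul_of_nonneg_left hdens2.1 hH
    have h4 := (abs_le.1 h1).2
    have h5 : (1 + ε) * (H * ∏ q ∈ P, (1 - g q)) = H * ((1 + ε) * ∏ q ∈ P, (1 - g q)) := by ring
    change _ ≤ (1 + ε) * (H * ∏ q ∈ P, (1 - g q)) + (z : ℝ) ^ (2 * s)
    rw [h5]
    linarith


/-- substitution `n = c + Q m` -/
theorem class_card (P : ℤ → Prop) (Q : ℕ) (hQ : 0 < Q) (c u : ℤ) (H : ℕ) [DecidablePred P]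
    [DecidablePred (fun n : ℤ => (Q : ℤ) ∣ n - c ∧ P n)]
    [DecidablePred (fun m : ℤ => P (c + Q * m))] :
    ∃ (v : ℤ) (H' : ℕ), ((Ioc u (u + H)).filter (fun n => (Q : ℤ) ∣ n - c ∧ P n)).card =
      ((Ioc v (v + H')).filter (fun m => P (c + Q * m))).card ∧
      |(H' : ℝ) - (H / Q : ℝ)| ≤ 1 := by
  have hQ' : (0 : ℤ) < Q := by exact_mod_cast hQ
  have hQR : (0 : ℝ) < Q := by exact_mod_cast hQ
  set v : ℤ := (u - c) / Q with hv
  set w : ℤ := (u + H - c) / Q with hw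
  have hvw : v ≤ w := Int.ediv_le_ediv hQ' (by omega)
  refine ⟨v, (w - v).toNat, ?_, ?_⟩
  · have e1 : v + (((w - v).toNat : ℕ) : ℤ) = w := by
      rw [Int.toNat_of_nonneg (by omega)]
      ring
    rw [e1]
    symm
    apply Finset.card_bij (fun m _ => c + Q * m)
    · intro m hm
      rw [mem_filter, mem_Ioc] at hm ⊢
      obtain ⟨⟨h1, h2⟩, h3⟩ := hm
      have h4 : u - c < Q * m := by
        rw [hv] at h1
        have := (Int.ediv_lt_iff_lt_mul hQ').1 h1
        linarith [mul_comm m (Q : ℤ)]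
      have h5 : Q * m ≤ u + H - c := by
        rw [hw] at h2
        have := (Int.le_ediv_iff_mul_le hQ').1 h2
        linarith [mul_comm m (Q : ℤ)]
      refine ⟨⟨by linarith, by linarith⟩, ⟨m, by ring⟩, h3⟩
    · intro m _ m' _ h
      have h1 : (Q : ℤ) * m = Q * m' := by linarith
      exact mul_left_cancel₀ hQ'.ne' h1
    · intro n hn
      rw [mem_filter, mem_Ioc] at hn
      obtain ⟨⟨h1, h2⟩, ⟨m, hm⟩, h3⟩ := hn
      have e2 : n = c + Q * m := by linarith
      refine ⟨m, ?_, e2.symm⟩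
      rw [mem_filter, mem_Ioc]
      refine ⟨⟨?_, ?_⟩, by rw [← e2]; exact h3⟩
      · rw [hv, Int.ediv_lt_iff_lt_mul hQ']
        linarith [mul_comm m (Q : ℤ)]
      · rw [hw, Int.le_ediv_iff_mul_le hQ']
        linarith [mul_comm m (Q : ℤ)]
  · have e1 : (((w - v).toNat : ℕ) : ℝ) = (w : ℝ) - v := by
      have : (((w - v).toNat : ℕ) : ℤ) = w - v := Int.toNat_of_nonneg (by omega)
      have h2 : ((((w - v).toNat : ℕ) : ℤ) : ℝ) = ((w - v : ℤ) : ℝ) := by rw [this]
      push_cast at h2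
      exact h2
    rw [e1]
    have a1 := Int.emod_add_mul_ediv (u - c) Q
    have a2 := Int.emod_add_mul_ediv (u + H - c) Q
    have b1 := Int.emod_nonneg (u - c) hQ'.ne'
    have b2 := Int.emod_nonneg (u + H - c) hQ'.ne'
    have b3 := Int.emod_lt_of_pos (u - c) hQ'
    have b4 := Int.emod_lt_of_pos (u + H - c) hQ'
    rw [← hv] at a1
    rw [← hw] at a2
    have c1 : (Q : ℤ) * (w - v) ≤ H + Q := by linarith
    have c2 : (H : ℤ) - Q ≤ Q * (w - v) := by linarith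
    have c1' : (Q : ℝ) * ((w : ℝ) - v) ≤ H + Q := by exact_mod_cast c1
    have c2' : (H : ℝ) - Q ≤ Q * ((w : ℝ) - v) := by exact_mod_cast c2
    rw [abs_le]
    constructor
    · have : (H : ℝ) / Q ≤ (w : ℝ) - v + 1 := by
        rw [div_le_iff₀ hQR]
        linarith
      linarith
    · have : (w : ℝ) - v - 1 ≤ (H : ℝ) / Q := by
        rw [le_div_iff₀ hQR]
        linarith
      linarith

/-- the number of bad classes does not change under `m ↦ c + Q m` -/
theorem card_class (q Q : ℕ) (hq : q.Prime) (hQ : ¬ q ∣ Q) (c : ℤ) (B : ℤ → Prop)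
    (hper : ∀ n m : ℤ, (q : ℤ) ∣ n - m → (B n ↔ B m))
    [DecidablePred (fun r : ℕ => B r)] [DecidablePred (fun r : ℕ => B (c + Q * r))] :
    ((range q).filter (fun r : ℕ => B (c + Q * r))).card =
      ((range q).filter (fun r : ℕ => B r)).card := by
  classical
  have hq0 : (0 : ℤ) < q := by exact_mod_cast hq.pos
  have hcop : IsCoprime (q : ℤ) Q := by
    rw [Nat.isCoprime_iff_coprime]
    exact (Nat.Prime.coprime_iff_not_dvd hq).2 hQ
  have hmod : ∀ x : ℤ, (((x % q).toNat : ℕ) : ℤ) = x % q := fun x =>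
    Int.toNat_of_nonneg (Int.emod_nonneg x hq0.ne')
  have hdm : ∀ x : ℤ, (q : ℤ) ∣ x % q - x := fun x => by
    refine ⟨-(x / q), ?_⟩
    have := Int.emod_add_mul_ediv x q
    linarith
  refine Finset.card_bij (fun r _ => ((c + Q * r : ℤ) % q).toNat) ?_ ?_ ?_
  · intro r hr
    rw [mem_filter, mem_range] at hr ⊢
    constructor
    · have h1 := Int.emod_lt_of_pos (c + Q * r) hq0
      have h2 := hmod (c + Q * r)
      omega
    · rw [hmod]
      exact (hper _ _ (hdm _)).2 hr.2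
  · intro r hr r' hr' h
    rw [mem_filter, mem_range] at hr hr'
    have h1 : (c + Q * (r : ℤ)) % q = (c + Q * (r' : ℤ)) % q := by
      rw [← hmod, ← hmod (c + Q * (r' : ℤ)), h]
    have h2 : (q : ℤ) ∣ (Q : ℤ) * ((r : ℤ) - r') := by
      have h3 := Int.ModEq.dvd (show (c + Q * (r' : ℤ)) ≡ (c + Q * (r : ℤ)) [ZMOD q] from h1.symm)
      have e : (c + Q * (r : ℤ)) - (c + Q * (r' : ℤ)) = (Q : ℤ) * ((r : ℤ) - r') := by ring
      rwa [e] at h3
    have h3 : (q : ℤ) ∣ (r : ℤ) - r' := hcop.dvd_of_dvd_mul_left h2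
    obtain ⟨m, hm⟩ := h3
    have h4 : m < 1 := by
      by_contra hcon
      have : (q : ℤ) * 1 ≤ q * m := mul_le_mul_of_nonneg_left (by omega) hq0.le
      omega
    have h5 : -1 < m := by
      by_contra hcon
      have : (q : ℤ) * m ≤ q * (-1) := mul_le_mul_of_nonneg_left (by omega) hq0.le
      omega
    have h6 : m = 0 := by omega
    rw [h6, mul_zero] at hm
    omega
  · intro y hy
    rw [mem_filter, mem_range] at hy
    obtain ⟨a, b, hab⟩ := hcop
    -- `b * Q ≡ 1`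
    refine ⟨((b * (y - c) : ℤ) % q).toNat, ?_, ?_⟩
    · have key : (q : ℤ) ∣ (c + Q * (((((b * (y - c) : ℤ) % q).toNat : ℕ)) : ℤ)) - y := by
        rw [hmod]
        obtain ⟨e, he⟩ := hdm (b * (y - c))
        refine ⟨Q * e - a * (y - c), ?_⟩
        have : (b * (y - c) : ℤ) % q = q * e + b * (y - c) := by linarith
        rw [this]
        linear_combination (y - c) * hab
      rw [mem_filter, mem_range]
      constructor
      · have h1 := Int.emod_lt_of_pos (b * (y - c)) hq0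
        have h2 := hmod (b * (y - c))
        omega
      · exact (hper _ _ key).2 hy.2
    · have key : (q : ℤ) ∣ (c + Q * (((((b * (y - c) : ℤ) % q).toNat : ℕ)) : ℤ)) - y := by
        rw [hmod]
        obtain ⟨e, he⟩ := hdm (b * (y - c))
        refine ⟨Q * e - a * (y - c), ?_⟩
        have : (b * (y - c) : ℤ) % q = q * e + b * (y - c) := by linarith
        rw [this]
        linear_combination (y - c) * hab
      have h2 : (c + Q * (((((b * (y - c) : ℤ) % q).toNat : ℕ)) : ℤ)) % q = y % q :=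
        (Int.modEq_iff_dvd.2 key).symm
      rw [h2, Int.emod_eq_of_lt (by omega) (by exact_mod_cast hy.1)]
      rfl

/-- S1 with rate. -/
theorem s1r_82 : S1rStmt := by
  intro k
  obtain ⟨s, zs, h⟩ := S1R k
  refine ⟨s + 8, max zs (max k 1), fun t z0 hz0 z hz => ?_⟩
  have hk : k ≤ z0 := ((le_max_left _ _).trans (le_max_right _ _)).trans hz0
  have hz1 : 1 ≤ z := (((le_max_right _ _).trans (le_max_right _ _)).trans hz0).trans hz
  obtain ⟨U, L, h1, h2, h3, h4⟩ := h t z0 ((le_max_left _ _).trans hz0) z hz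
  refine ⟨U, L, h1, fun D hD hne => (h2 D hD hne).trans ?_, h3, fun g hg => ?_⟩
  · apply Nat.pow_le_pow_right hz1
    nlinarith
  · have h5 := h4 g hg
    have hV : 0 ≤ ∏ q ∈ PP z0 z, (1 - g q) := by
      apply Finset.prod_nonneg
      intro q hq
      have h6 := (hg q hq).2
      have h7 : (0 : ℝ) < q := by exact_mod_cast (PP_prime hq).pos
      have h8 : (k : ℝ) ≤ q := by exact_mod_cast hk.trans (PP_lt hq).le
      have h9 : (k : ℝ) / q ≤ 1 := (div_le_one h7).2 h8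
      linarith
    have h6 : (1 / 4 : ℝ) ^ t ≤ (1 / 2 : ℝ) ^ t := pow_le_pow_left₀ (by norm_num) (by norm_num) t
    constructor
    · exact h5.1.trans (mul_le_mul_of_nonneg_right (by linarith) hV)
    · exact le_trans (mul_le_mul_of_nonneg_right (by linarith) hV) h5.2

/-- the general sieve estimate with rate in a residue class. -/
theorem corer_82 : CorerStmt := by
  classical
  intro k
  obtain ⟨s, zs, h⟩ := coreR k
  refine ⟨2 * s + 18, max zs (max k 2), fun t z0 hz0 z hz bad hper hcard Q hQ hQP c u H => ?_⟩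
  have hk : k ≤ z0 := ((le_max_left _ _).trans (le_max_right _ _)).trans hz0
  have hz2 : 2 ≤ z := (((le_max_right _ _).trans (le_max_right _ _)).trans hz0).trans hz
  have hzR : (2 : ℝ) ≤ z := by exact_mod_cast hz2
  obtain ⟨v, H', h1, h2⟩ := class_card (fun n => ∀ q ∈ PP z0 z, ¬ bad q n) Q hQ c u H
  have hcl : ∀ q ∈ PP z0 z, ((range q).filter (fun r : ℕ => bad q (c + Q * r))).card =
      ((range q).filter (fun r : ℕ => bad q r)).card := fun q hq =>
    card_class q Q (PP_prime hq) (hQP q hq) c (bad q) (hper q hq)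
  have h3 := h t z0 ((le_max_left _ _).trans hz0) z hz (fun q m => bad q (c + Q * m))
    (by
      intro q hq n m hnm
      apply hper q hq
      have e : (c + Q * n) - (c + Q * m) = (Q : ℤ) * (n - m) := by ring
      rw [e]
      exact dvd_mul_of_dvd_right hnm _)
    (by
      intro q hq
      rw [hcl q hq]
      exact hcard q hq) v H'
  have hprod : ∏ q ∈ PP z0 z, (1 - ((((range q).filter (fun r : ℕ => bad q (c + Q * r))).card : ℕ)
      : ℝ) / q) = ∏ q ∈ PP z0 z, (1 - ((((range q).filter (fun r : ℕ => bad q r)).card : ℕ) : ℝ)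
      / q) := Finset.prod_congr rfl (fun q hq => by rw [hcl q hq])
  rw [hprod] at h3
  set V : ℝ := ∏ q ∈ PP z0 z, (1 - ((((range q).filter (fun r : ℕ => bad q r)).card : ℕ) : ℝ)
      / q) with hVd
  have hV : 0 ≤ V := by
    apply Finset.prod_nonneg
    intro q hq
    have h6 : ((((range q).filter (fun r : ℕ => bad q r)).card : ℕ) : ℝ) ≤ k := by
      exact_mod_cast hcard q hq
    have h7 : (0 : ℝ) < q := by exact_mod_cast (PP_prime hq).pos
    have h8 : (k : ℝ) ≤ q := by exact_mod_cast hk.trans (PP_lt hq).le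
    have h9 : ((((range q).filter (fun r : ℕ => bad q r)).card : ℕ) : ℝ) / q ≤ 1 :=
      (div_le_one h7).2 (h6.trans h8)
    linarith
  have hV1 : V ≤ 1 := by
    apply Finset.prod_le_one
    · intro q hq
      have h6 : ((((range q).filter (fun r : ℕ => bad q r)).card : ℕ) : ℝ) ≤ k := by
        exact_mod_cast hcard q hq
      have h7 : (0 : ℝ) < q := by exact_mod_cast (PP_prime hq).pos
      have h8 : (k : ℝ) ≤ q := by exact_mod_cast hk.trans (PP_lt hq).le
      have h9 : ((((range q).filter (fun r : ℕ => bad q r)).card : ℕ) : ℝ) / q ≤ 1 :=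
        (div_le_one h7).2 (h6.trans h8)
      linarith
    · intro q _
      have : 0 ≤ ((((range q).filter (fun r : ℕ => bad q r)).card : ℕ) : ℝ) / q := by positivity
      linarith
  have h1' : (((Ioc u (u + H)).filter (fun n => (Q : ℤ) ∣ n - c ∧ ∀ q ∈ PP z0 z, ¬ bad q n)).card :
      ℝ) = (((Ioc v (v + H')).filter (fun m => ∀ q ∈ PP z0 z, ¬ bad q (c + Q * m))).card : ℝ) := by
    exact_mod_cast h1
  have hgoal : |((((Ioc u (u + H)).filter (fun n => (Q : ℤ) ∣ n - c ∧ ∀ q ∈ PP z0 z,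
      ¬ bad q n)).card : ℝ)) - (H / Q : ℝ) * V| ≤
      (1 / 2) ^ t * ((H / Q : ℝ) * V) + (z : ℝ) ^ ((2 * s + 18) * (t + 1)) := by
    rw [h1']
    set N : ℝ := (((Ioc v (v + H')).filter (fun m => ∀ q ∈ PP z0 z, ¬ bad q (c + Q * m))).card : ℝ)
      with hN
    have h6 : (1 / 4 : ℝ) ^ t ≤ (1 / 2 : ℝ) ^ t := pow_le_pow_left₀ (by norm_num) (by norm_num) t
    have h7 : (1 / 4 : ℝ) ^ t ≤ 1 := pow_le_one₀ (by norm_num) (by norm_num)
    have h70 : (0 : ℝ) ≤ (1 / 4 : ℝ) ^ t := by positivity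
    have hE : (z : ℝ) ^ (2 * (s + 8 * t)) + 2 ≤ (z : ℝ) ^ ((2 * s + 18) * (t + 1)) := by
      have e1 : (z : ℝ) ^ (2 * (s + 8 * t)) * (z : ℝ) ^ 2 ≤ (z : ℝ) ^ ((2 * s + 18) * (t + 1)) := by
        rw [← pow_add]
        apply pow_le_pow_right₀ (by linarith)
        nlinarith
      have e2 : (1 : ℝ) ≤ (z : ℝ) ^ (2 * (s + 8 * t)) := one_le_pow₀ (by linarith)
      have e3 : (4 : ℝ) ≤ (z : ℝ) ^ 2 := by nlinarith
      have e4 := mul_le_mul_of_nonneg_left e3 (zero_le_one.trans e2)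
      linarith
    have hHQ : (0 : ℝ) ≤ (H : ℝ) / Q := by positivity
    have h8 := abs_le.1 h2
    have hH'1 : (H' : ℝ) * V ≤ (H / Q : ℝ) * V + 1 := by nlinarith
    have hH'2 : (H / Q : ℝ) * V - 1 ≤ (H' : ℝ) * V := by nlinarith
    have hx : 0 ≤ (H / Q : ℝ) * V := mul_nonneg hHQ hV
    have hx' : 0 ≤ (H' : ℝ) * V := mul_nonneg (Nat.cast_nonneg _) hV
    rw [abs_le]
    have b1 := mul_le_mul_of_nonneg_right h6 hx
    constructor
    · have a1 := h3.1
      have a2 := mul_le_mul_of_nonneg_left hH'2 (sub_nonneg.2 h7)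
      have a3 : (1 - (1 / 4 : ℝ) ^ t) * ((H / Q : ℝ) * V - 1) =
        (H / Q : ℝ) * V - (1 / 4 : ℝ) ^ t * ((H / Q : ℝ) * V) - 1 + (1 / 4 : ℝ) ^ t := by ring
      rw [a3] at a2
      linarith
    · have a1 := h3.2
      have a2 := mul_le_mul_of_nonneg_left hH'1 (add_nonneg zero_le_one h70)
      have a3 : (1 + (1 / 4 : ℝ) ^ t) * ((H / Q : ℝ) * V + 1) =
        (H / Q : ℝ) * V + (1 / 4 : ℝ) ^ t * ((H / Q : ℝ) * V) + 1 + (1 / 4 : ℝ) ^ t := by ring
      rw [a3] at a2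
      linarith
  refine le_of_eq_of_le ?_ (hgoal.trans_eq ?_) <;> congr!

/-- S2 with rate. -/
theorem s2r_82 : S2rStmt := by
  classical
  intro k
  obtain ⟨s, zs, h⟩ := corer_82 k
  refine ⟨s + k, max zs (max k 1), fun t z0 hz0 z hz a b ha Q hQ hQP c u H => ?_⟩
  have hk : k ≤ z0 := ((le_max_left _ _).trans (le_max_right _ _)).trans hz0
  have hz1 : 1 ≤ z := (((le_max_right _ _).trans (le_max_right _ _)).trans hz0).trans hz
  have hzR : (1 : ℝ) ≤ z := by exact_mod_cast hz1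
  have h1 := h t z0 ((le_max_left _ _).trans hz0) z hz (fun q n => ∃ j, (q : ℤ) ∣ a j * n + b j)
    (by
      intro q _ n m hnm
      have : ∀ j, ((q : ℤ) ∣ a j * n + b j ↔ (q : ℤ) ∣ a j * m + b j) := by
        intro j
        have h2 : a j * n + b j = a j * m + b j + a j * (n - m) := by ring
        rw [h2]
        exact dvd_add_left (dvd_mul_of_dvd_right hnm _)
      exact exists_congr this)
    (by
      intro q hq
      refine le_trans (le_of_eq ?_) (om_le a b (PP_prime hq) (fun j => ha j q hq))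
      unfold om
      congr!) Q hQ hQP c u H
  have hV : VV z0 z a b = ∏ q ∈ PP z0 z, (1 - ((((range q).filter
      (fun r : ℕ => ∃ j, (q : ℤ) ∣ a j * r + b j)).card : ℕ) : ℝ) / q) := by
    unfold VV om
    congr!
  have hVp := VV_pos hk a b ha
  have hVi := VV_inv_le hk (hz) a b ha
  have hsum : ∑ n ∈ (Ioc u (u + H)).filter (fun n => (Q : ℤ) ∣ n - c), nu z0 z a b n =
      (VV z0 z a b)⁻¹ * (((Ioc u (u + H)).filter (fun n => (Q : ℤ) ∣ n - c ∧ ∀ q ∈ PP z0 z,
        ¬ ∃ j, (q : ℤ) ∣ a j * n + b j)).card : ℝ) := by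
    rw [← Finset.filter_filter, Finset.card_filter]
    push_cast
    rw [Finset.mul_sum]
    apply Finset.sum_congr rfl
    intro n _
    have h3 : (∀ j, Rough z0 z (a j * n + b j)) ↔
        ∀ q ∈ PP z0 z, ¬ ∃ j, (q : ℤ) ∣ a j * n + b j := by
      constructor
      · rintro h q hq ⟨j, hj⟩
        exact h j q hq hj
      · intro h j q hq hj
        exact h q hq ⟨j, hj⟩
    unfold nu
    by_cases h4 : ∀ j, Rough z0 z (a j * n + b j)
    · rw [if_pos h4, if_pos (h3.1 h4), mul_one]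
    · rw [if_neg h4, if_neg (fun h => h4 (h3.2 h)), mul_zero]
  have h1' : |((((Ioc u (u + H)).filter (fun n => (Q : ℤ) ∣ n - c ∧ ∀ q ∈ PP z0 z,
        ¬ ∃ j, (q : ℤ) ∣ a j * n + b j)).card : ℝ)) - (H / Q : ℝ) * VV z0 z a b| ≤
      (1 / 2) ^ t * ((H / Q : ℝ) * VV z0 z a b) + (z : ℝ) ^ (s * (t + 1)) := by
    rw [hV]
    refine le_of_eq_of_le ?_ (h1.trans_eq ?_) <;> congr!
  rw [hsum]
  set W := VV z0 z a b with hW
  set N : ℝ := (((Ioc u (u + H)).filter (fun n => (Q : ℤ) ∣ n - c ∧ ∀ q ∈ PP z0 z,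
        ¬ ∃ j, (q : ℤ) ∣ a j * n + b j)).card : ℝ) with hN
  have hWi : 0 < W⁻¹ := inv_pos.2 hVp
  have hWW : W⁻¹ * W = 1 := inv_mul_cancel₀ hVp.ne'
  have e1 : W⁻¹ * N - (H / Q : ℝ) = W⁻¹ * (N - (H / Q : ℝ) * W) := by
    linear_combination (H / Q : ℝ) * hWW
  rw [e1, abs_mul, abs_of_pos hWi]
  have e2 := mul_le_mul_of_nonneg_left h1' hWi.le
  have e3 : W⁻¹ * ((1 / 2) ^ t * ((H / Q : ℝ) * W) + (z : ℝ) ^ (s * (t + 1))) =
      (1 / 2) ^ t * (H / Q : ℝ) + W⁻¹ * (z : ℝ) ^ (s * (t + 1)) := by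
    linear_combination (1 / 2) ^ t * (H / Q : ℝ) * hWW
  rw [e3] at e2
  refine e2.trans (add_le_add_right ?_ _)
  calc W⁻¹ * (z : ℝ) ^ (s * (t + 1)) ≤ (z : ℝ) ^ k * (z : ℝ) ^ (s * (t + 1)) :=
        mul_le_mul_of_nonneg_right hVi (by positivity)
    _ = (z : ℝ) ^ (k + s * (t + 1)) := by rw [pow_add]
    _ ≤ (z : ℝ) ^ ((s + k) * (t + 1)) := by
        apply pow_le_pow_right₀ hzR
        nlinarith

end Pool.Agent.Lib.MT2.R82
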