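import Pool.Agent.Lib.MT2.Stmts2

/-!
THEOREM (A): every large number `N` is a sum `a + b` with `a`, `a ± 2` bounded multiples of primes
with the same prescribed number of prime factors modulo `m`, and `b`, `b ± 2` almost primes.
-/

set_option autoImplicit false

namespace Pool.Agent.Lib.MT2.T52

open Finset
open Pool.Agent.Lib.TwinAll (PP Rough om VV nu ee)
open ArithmeticFunction (cardFactors)

/-! ### Elementary lemmas -/

lemma omega_le {z E t : ℕ} (hz : 2 ≤ z) (ht : 0 < t) (h : ∀ q : ℕ, q.Prime → q ∣ t → z ≤ q)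
    (hle : t ≤ z ^ E) : cardFactors t ≤ E := by
  rw [ArithmeticFunction.cardFactors_apply]
  have h1 : z ^ t.primeFactorsList.length ≤ t.primeFactorsList.prod := by
    apply List.pow_card_le_prod
    intro x hx
    exact h x (Nat.prime_of_mem_primeFactorsList hx) (Nat.dvd_of_mem_primeFactorsList hx)
  rw [Nat.prod_primeFactorsList ht.ne'] at h1
  exact (Nat.pow_le_pow_iff_right (by omega)).mp (h1.trans hle)

lemma omega_le_self {n : ℕ} (hn : 0 < n) : cardFactors n ≤ n :=
  omega_le (z := 2) le_rfl hn (fun _ hq _ => hq.two_le) Nat.lt_two_pow_self.le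

/-- a scale for a length -/
lemma exists_z (B Z : ℕ) : ∃ H0 : ℕ, ∀ H : ℕ, H0 ≤ H → ∃ z : ℕ, Z ≤ z ∧ z ^ B ≤ H ∧
    H ≤ z ^ (B + 1) := by
  classical
  obtain ⟨P, hP⟩ : ∃ P : ℕ, P = 2 ^ B := ⟨_, rfl⟩
  set Z' := Z + P + 2 with hZ'
  refine ⟨Z' ^ (B + 1) + 1, ?_⟩
  intro H hH
  have hex : ∃ z : ℕ, H ≤ z ^ (B + 1) := ⟨H, Nat.le_self_pow (by omega) H⟩
  set z := Nat.find hex with hz
  have h1 : H ≤ z ^ (B + 1) := Nat.find_spec hex
  have h2 : Z' < z := by
    by_contra hcon
    have h3 : z ^ (B + 1) ≤ Z' ^ (B + 1) := Nat.pow_le_pow_left (by omega) _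
    omega
  have h3 : (z - 1) ^ (B + 1) < H := by
    have := Nat.find_min hex (m := z - 1) (by omega)
    omega
  refine ⟨z, by omega, ?_, h1⟩
  have h4 : z ^ B ≤ (z - 1) ^ (B + 1) := by
    calc z ^ B ≤ (2 * (z - 1)) ^ B := Nat.pow_le_pow_left (by omega) _
      _ = P * (z - 1) ^ B := by rw [mul_pow, hP]
      _ ≤ (z - 1) * (z - 1) ^ B := Nat.mul_le_mul_right _ (by omega)
      _ = (z - 1) ^ (B + 1) := by rw [pow_succ, mul_comm]
  omega

/-- almost primes from rough values -/
lemma almost {C Cw w z N E : ℕ} (hz : 2 ≤ z) (hNz : N ≤ z ^ C) (hC : Cw + E ≤ C) {x : ℕ}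
    (hx : 0 < x) (hxE : x ≤ z ^ E) {h' a' b' V : ℤ} (hxe : (x : ℤ) = h' * (a' * V + b'))
    (hh : 0 < h') (hhC : h' ≤ Cw) (hcop : IsCoprime a' b')
    (hsm : ∀ q : ℕ, q.Prime → q ≤ w → (q : ℤ) ∣ a') (hrough : Rough w z (a' * V + b')) :
    AlmostPrime C N x := by
  set t : ℤ := a' * V + b' with ht
  have ht0 : 0 < t := by
    by_contra hcon
    have h1 : h' * t ≤ 0 := mul_nonpos_of_nonneg_of_nonpos hh.le (not_lt.mp hcon)
    have h2 : (0 : ℤ) < x := by exact_mod_cast hx
    omega
  -- primes dividing `t` are larger than `z`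
  have hbig : ∀ q : ℕ, q.Prime → (q : ℤ) ∣ t → z ≤ q := by
    intro q hq hqt
    by_contra hcon
    push Not at hcon
    by_cases hqw : q ≤ w
    · have h1 := hsm q hq hqw
      have h2 : (q : ℤ) ∣ b' := by
        have h3 : b' = t - a' * V := by rw [ht]; ring
        rw [h3]
        exact dvd_sub hqt (h1.mul_right V)
      have h4 := hcop.isUnit_of_dvd' h1 h2
      rw [Int.isUnit_iff] at h4
      have := hq.two_le
      omega
    · refine hrough q ?_ hqt
      unfold PP
      rw [mem_filter, mem_Ioc]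
      exact ⟨⟨by omega, by omega⟩, hq⟩
  set hn := h'.toNat with hhn
  set tn := t.toNat with htn
  have e1 : (hn : ℤ) = h' := Int.toNat_of_nonneg hh.le
  have e2 : (tn : ℤ) = t := Int.toNat_of_nonneg ht0.le
  have e3 : x = hn * tn := by
    have : (x : ℤ) = (hn : ℤ) * tn := by rw [e1, e2]; exact hxe
    exact_mod_cast this
  have hhn0 : 0 < hn := by
    have : (0 : ℤ) < hn := by rw [e1]; exact hh
    exact_mod_cast this
  have htn0 : 0 < tn := by
    have : (0 : ℤ) < tn := by rw [e2]; exact ht0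
    exact_mod_cast this
  have hhnC : hn ≤ Cw := by
    have : (hn : ℤ) ≤ Cw := by rw [e1]; exact hhC
    exact_mod_cast this
  constructor
  · rw [e3, ArithmeticFunction.cardFactors_mul hhn0.ne' htn0.ne']
    have h1 : cardFactors hn ≤ Cw := (omega_le_self hhn0).trans hhnC
    have h2 : cardFactors tn ≤ E := by
      refine omega_le hz htn0 ?_ ?_
      · intro q hq hqt
        apply hbig q hq
        rw [← e2]
        exact_mod_cast hqt
      · calc tn ≤ hn * tn := Nat.le_mul_of_pos_left _ hhn0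
          _ = x := e3.symm
          _ ≤ z ^ E := hxE
    omega
  · intro q hq hqx
    rw [e3] at hqx
    rcases (Nat.Prime.dvd_mul hq).mp hqx with h1 | h1
    · left
      have := Nat.le_of_dvd hhn0 h1
      omega
    · right
      have h2 : z ≤ q := by
        apply hbig q hq
        rw [← e2]
        exact_mod_cast h1
      exact hNz.trans (Nat.pow_le_pow_left h2 C)

/-- bounded multiples of primes from prime values -/
lemma primeMult {C Cw G w z : ℕ} (hCw : Cw ≤ C) {x d : ℕ} {h α β V s : ℤ} (hd : 0 < d)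
    (hdz : d ≤ z) (hs : (d : ℤ) * x = s) (hse : s = h * (α * V + β)) (hh : 0 < h)
    (hhC : h ≤ Cw) (hG : cardFactors h.toNat = G) (hcop : IsCoprime α β)
    (hsm : ∀ q : ℕ, q.Prime → q ≤ w → (q : ℤ) ∣ α) (hpos : 0 < α * V + β)
    (hrough : Rough w z (α * V + β)) (hp : Prime (α * V + β)) :
    PrimeMult C x ∧ cardFactors d + cardFactors x = G + 1 := by
  set t : ℤ := α * V + β with ht
  set p := t.toNat with hpdef
  have e2 : (p : ℤ) = t := Int.toNat_of_nonneg hpos.le
  have hpp : p.Prime := by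
    rw [Nat.prime_iff_prime_int, e2]
    exact hp
  have hpz : z < p := by
    by_contra hcon
    push Not at hcon
    by_cases hqw : p ≤ w
    · have h1 := hsm p hpp hqw
      have h2 : (p : ℤ) ∣ β := by
        have h3 : β = t - α * V := by rw [ht]; ring
        rw [h3]
        exact dvd_sub (by rw [e2]) (h1.mul_right V)
      have h4 := hcop.isUnit_of_dvd' h1 h2
      rw [Int.isUnit_iff] at h4
      have := hpp.two_le
      omega
    · refine hrough p ?_ (by rw [e2])
      unfold PP
      rw [mem_filter, mem_Ioc]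
      exact ⟨⟨by omega, by omega⟩, hpp⟩
  set hn := h.toNat with hhn
  have e1 : (hn : ℤ) = h := Int.toNat_of_nonneg hh.le
  have hhn0 : 0 < hn := by
    have : (0 : ℤ) < hn := by rw [e1]; exact hh
    exact_mod_cast this
  have hhnC : hn ≤ Cw := by
    have : (hn : ℤ) ≤ Cw := by rw [e1]; exact hhC
    exact_mod_cast this
  have e3 : d * x = hn * p := by
    have : ((d : ℤ) * x) = (hn : ℤ) * p := by rw [hs, hse, e1, e2]
    exact_mod_cast this
  have hx0 : 0 < x := by
    rcases Nat.eq_zero_or_pos x with h0 | h0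
    · rw [h0, mul_zero] at e3
      have := Nat.mul_pos hhn0 hpp.pos
      omega
    · exact h0
  have hpx : p ∣ x := by
    have h1 : p ∣ d * x := by rw [e3]; exact Dvd.intro_left hn rfl
    rcases (Nat.Prime.dvd_mul hpp).mp h1 with h2 | h2
    · have := Nat.le_of_dvd hd h2
      omega
    · exact h2
  obtain ⟨y, hy⟩ := hpx
  have hdy : d * y = hn := by
    have h1 : (d * y) * p = hn * p := by
      rw [← e3, hy]
      ring
    exact Nat.eq_of_mul_eq_mul_right hpp.pos h1
  have hy0 : 0 < y := by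
    rcases Nat.eq_zero_or_pos y with h0 | h0
    · rw [h0, mul_zero] at hdy
      omega
    · exact h0
  have hyle : y ≤ hn := by
    rw [← hdy]
    exact Nat.le_mul_of_pos_left _ hd
  refine ⟨⟨y, p, by rw [hy, mul_comm], hy0, by omega, hpp⟩, ?_⟩
  rw [← ArithmeticFunction.cardFactors_mul hd.ne' hx0.ne', e3,
    ArithmeticFunction.cardFactors_mul hhn0.ne' hpp.ne_zero, hG,
    ArithmeticFunction.cardFactors_apply_prime hpp]

/-! ### The forms -/

/-- the differences -/
def dd {K : ℕ} (r : Fin K → ℕ) (i j : Fin K) : ℕ := if i < j then r j - r i else 1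

/-- a common multiple -/
def LL {K : ℕ} (r : Fin K → ℕ) : ℕ := ∏ x : Fin K × Fin K, dd r x.1 x.2

/-- base point -/
def rho (pos : Bool) {K : ℕ} (r : Fin K → ℕ) (i j : Fin K) : ℕ := if pos then r i else r j

/-- the first summand -/
def av (pos : Bool) {K : ℕ} (r : Fin K → ℕ) (i j : Fin K) (U : ℕ) : ℕ :=
  LL r / dd r i j * U + 2 * (rho pos r i j / dd r i j)

section forms

variable {K : ℕ} {r : Fin K → ℕ} (hr : ∀ i j, i < j → r i < r j ∧ (r j - r i) ∣ r i)

include hr

lemma dd_pos (i j : Fin K) : 0 < dd r i j := by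
  unfold dd
  split_ifs with h
  · have := (hr i j h).1
    omega
  · exact one_pos

lemma LL_pos : 0 < LL r := Finset.prod_pos fun x _ => dd_pos hr x.1 x.2

omit hr in
lemma dd_dvd_LL (i j : Fin K) : dd r i j ∣ LL r :=
  Finset.dvd_prod_of_mem (fun x : Fin K × Fin K => dd r x.1 x.2) (mem_univ (i, j))

lemma dd_dvd_r (i j : Fin K) : dd r i j ∣ r i ∧ dd r i j ∣ r j ∨ ¬ i < j := by
  by_cases h : i < j
  · left
    have h1 := hr i j h
    have h2 : dd r i j = r j - r i := by unfold dd; rw [if_pos h]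
    rw [h2]
    refine ⟨h1.2, ?_⟩
    have h3 : r j = r i + (r j - r i) := by omega
    rw [h3]
    have h4 : r i + (r j - r i) - r i = r j - r i := by omega
    rw [h4]
    exact dvd_add h1.2 dvd_rfl
  · right
    exact h

lemma dd_dvd_rho (pos : Bool) (i j : Fin K) : dd r i j ∣ rho pos r i j := by
  by_cases h : i < j
  · rcases dd_dvd_r hr i j with h1 | h1
    · unfold rho
      split_ifs
      · exact h1.1
      · exact h1.2
    · exact absurd h h1
  · have h2 : dd r i j = 1 := by unfold dd; rw [if_neg h]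
    rw [h2]
    exact one_dvd _

lemma dd_mul_av (pos : Bool) (i j : Fin K) (U : ℕ) :
    dd r i j * av pos r i j U = LL r * U + 2 * rho pos r i j := by
  unfold av
  obtain ⟨x, hx⟩ := dd_dvd_LL i j
  obtain ⟨y, hy⟩ := dd_dvd_rho hr pos i j
  have hd := dd_pos hr i j
  rw [hx, hy, Nat.mul_div_cancel_left _ hd, Nat.mul_div_cancel_left _ hd]
  ring

lemma av_not (pos : Bool) {i j : Fin K} (hij : i < j) (U : ℕ) :
    (av (!pos) r i j U : ℤ) = av pos r i j U + (if pos then 2 else -2) := by
  have hd := dd_pos hr i j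
  have h0 := hr i j hij
  have h2 : dd r i j = r j - r i := by unfold dd; rw [if_pos hij]
  have h1 := dd_mul_av hr pos i j U
  have h1' := dd_mul_av hr (!pos) i j U
  have h3 : (dd r i j : ℤ) * (av (!pos) r i j U) =
      dd r i j * (av pos r i j U + (if pos then 2 else -2)) := by
    have e1 : ((dd r i j : ℤ) * (av (!pos) r i j U)) = (LL r * U + 2 * rho (!pos) r i j : ℕ) := by
      rw [← h1']; push_cast; ring
    have e2 : ((dd r i j : ℤ) * (av pos r i j U)) = (LL r * U + 2 * rho pos r i j : ℕ) := by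
      rw [← h1]; push_cast; ring
    have e3 : (dd r i j : ℤ) = r j - r i := by
      rw [h2]; push_cast [h0.1.le]; ring
    rw [mul_add, e1, e2]
    rw [e3]
    cases pos
    · simp only [rho, Bool.not_false, if_true]
      push_cast
      simp
      ring
    · simp only [rho, Bool.not_true, if_true]
      push_cast
      try simp
      ring
  have hd' : (dd r i j : ℤ) ≠ 0 := by exact_mod_cast hd.ne'
  exact mul_left_cancel₀ hd' h3

omit hr in
lemma av_le (pos : Bool) (i j : Fin K) (U : ℕ) :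
    av pos r i j U ≤ LL r * U + 2 * ∑ i, r i := by
  unfold av
  have h1 : rho pos r i j / dd r i j ≤ ∑ i, r i := by
    refine (Nat.div_le_self _ _).trans ?_
    unfold rho
    split_ifs
    · exact Finset.single_le_sum (f := r) (fun _ _ => Nat.zero_le _) (mem_univ i)
    · exact Finset.single_le_sum (f := r) (fun _ _ => Nat.zero_le _) (mem_univ j)
  have h2 : LL r / dd r i j ≤ LL r := Nat.div_le_self _ _
  have h3 := Nat.mul_le_mul_right U h2
  omega

lemma av_inj (pos : Bool) (i j : Fin K) {U U' : ℕ} (h : av pos r i j U = av pos r i j U') :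
    U = U' := by
  unfold av at h
  have h1 : 0 < LL r / dd r i j :=
    Nat.div_pos (Nat.le_of_dvd (LL_pos hr) (dd_dvd_LL i j)) (dd_pos hr i j)
  have h2 : LL r / dd r i j * U = LL r / dd r i j * U' := by omega
  exact Nat.eq_of_mul_eq_mul_left h1 h2

end forms

/-- the property of a summand in (A) -/
def PA (C N m r : ℕ) (δ ε : ℤ) (a : ℕ) : Prop :=
  ∃ a' b b' : ℕ,
      N = a + b ∧ (a' : ℤ) = a + δ ∧ (b' : ℤ) = b + ε ∧ 0 < b ∧ 0 < b' ∧
      PrimeMult C a ∧ PrimeMult C a' ∧
      ArithmeticFunction.cardFactors a = ArithmeticFunction.cardFactors a' ∧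
      ArithmeticFunction.cardFactors a ≡ r [MOD m] ∧ AlmostPrime C N b ∧ AlmostPrime C N b'

/-- one value -/
lemma pointwise {K : ℕ} {r : Fin K → ℕ} (hr : ∀ i j, i < j → r i < r j ∧ (r j - r i) ∣ r i)
    {C Cw G w z N E m c r0 M U0 : ℕ} (hcm : ∀ i j, i < j → cardFactors (r j - r i) ≡ c [MOD m])
    (hG : G + 1 ≡ r0 + c [MOD m]) (hz : 2 ≤ z) (hLz : LL r ≤ z) (hNz : N ≤ z ^ C)
    (hC : Cw + E ≤ C) (hNE : N + 2 ≤ z ^ E)
    {pos : Bool} {ε : ℤ} (hε : ε = 2 ∨ ε = -2)
    {α β h : Fin K → ℤ}
    (hmain : ∀ j, (LL r : ℤ) * M = h j * α j ∧ (LL r : ℤ) * U0 + 2 * (r j : ℤ) = h j * β j ∧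
      0 < h j ∧ h j ≤ Cw ∧ cardFactors (h j).toNat = G)
    {C0 : ℕ} (hMF : MF C0 w α β) {i j : Fin K} (hij : i < j)
    {ae be he : Bool → ℤ}
    (hext : ∀ s : Bool, -((LL r / dd r i j : ℕ) : ℤ) * M = he s * ae s ∧
      -((LL r / dd r i j : ℕ) : ℤ) * U0 + ((N : ℤ) - 2 * ((rho pos r i j / dd r i j : ℕ) : ℤ) +
        (if s then ε else 0)) = he s * be s ∧
      0 < he s ∧ he s ≤ Cw ∧ IsCoprime (ae s) (be s) ∧
      ∀ q : ℕ, q.Prime → q ≤ w → (q : ℤ) ∣ ae s)
    {V : ℤ} (hV : 0 < V) (hrα : ∀ j, Rough w z (α j * V + β j))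
    (hre : ∀ s, Rough w z (ae s * V + be s))
    (hpi : Prime (α i * V + β i)) (hpj : Prime (α j * V + β j))
    (hsize : av pos r i j (U0 + M * V.toNat) + 3 ≤ N) :
    PA C N m r0 (if pos then 2 else -2) ε (av pos r i j (U0 + M * V.toNat)) := by
  set v := V.toNat with hv
  have hvV : (v : ℤ) = V := Int.toNat_of_nonneg hV.le
  set U := U0 + M * v with hU
  have hUc : (U : ℤ) = U0 + M * V := by rw [hU]; push_cast; rw [hvV]
  set a := av pos r i j U with ha
  have hd := dd_pos hr i j
  have hdL : dd r i j ≤ LL r := Nat.le_of_dvd (LL_pos hr) (dd_dvd_LL i j)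
  have hdz : dd r i j ≤ z := hdL.trans hLz
  have hddeq : dd r i j = r j - r i := by unfold dd; rw [if_pos hij]
  have hCw : Cw ≤ C := by omega
  -- values of the main forms
  have hval : ∀ j', (LL r : ℤ) * U + 2 * r j' = h j' * (α j' * V + β j') := by
    intro j'
    obtain ⟨e1, e2, _⟩ := hmain j'
    rw [hUc]
    linear_combination V * e1 + e2
  have hposV : ∀ j', 0 < α j' * V + β j' := by
    intro j'
    obtain ⟨h1, h2⟩ := hMF.pos j'
    nlinarith
  have hsmall := hMF.small
  have hcop := hMF.cop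
  -- general prime multiple
  have key : ∀ b : Bool, PrimeMult C (av b r i j U) ∧
      cardFactors (dd r i j) + cardFactors (av b r i j U) = G + 1 := by
    intro b
    have h1 := dd_mul_av hr b i j U
    cases b with
    | false =>
      obtain ⟨_, _, h3, h4, h5⟩ := hmain j
      refine primeMult (w := w) (z := z) hCw hd hdz (s := (LL r : ℤ) * U + 2 * r j)
        (α := α j) (β := β j) (V := V) (h := h j) ?_ (hval j) h3 h4 h5 (hcop j) ?_ (hposV j)
        (hrα j) hpj
      · have : ((dd r i j : ℤ) * (av false r i j U : ℕ)) = ((LL r * U + 2 * rho false r i j : ℕ) : ℤ) := by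
          rw [← h1]; push_cast; ring
        rw [this]
        simp [rho]
      · intro q hq hqw
        exact hsmall j q hq hqw
    | true =>
      obtain ⟨_, _, h3, h4, h5⟩ := hmain i
      refine primeMult (w := w) (z := z) hCw hd hdz (s := (LL r : ℤ) * U + 2 * r i)
        (α := α i) (β := β i) (V := V) (h := h i) ?_ (hval i) h3 h4 h5 (hcop i) ?_ (hposV i)
        (hrα i) hpi
      · have : ((dd r i j : ℤ) * (av true r i j U : ℕ)) = ((LL r * U + 2 * rho true r i j : ℕ) : ℤ) := by
          rw [← h1]; push_cast; ring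
        rw [this]
        simp [rho]
      · intro q hq hqw
        exact hsmall i q hq hqw
  have hk1 := key pos
  have hk2 := key (!pos)
  -- the second summand
  set b := N - a with hb
  have hba : N = a + b := by omega
  have hb3 : 3 ≤ b := by omega
  have hbs : ∀ s : Bool, (b : ℤ) + (if s then ε else 0) = he s * (ae s * V + be s) := by
    intro s
    obtain ⟨e1, e2, _⟩ := hext s
    have e3 : (b : ℤ) = N - a := by rw [hba]; push_cast; ring
    have e4 : (a : ℤ) = ((LL r / dd r i j : ℕ) : ℤ) * U +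
        2 * ((rho pos r i j / dd r i j : ℕ) : ℤ) := by
      rw [ha]; unfold av; push_cast; ring
    rw [e3, e4, hUc]
    linear_combination V * e1 + e2
  have hεb : ∀ s : Bool, -2 ≤ (if s then ε else 0) ∧ (if s then ε else 0) ≤ (2 : ℤ) := by
    intro s
    cases s
    · simp
    · simp only [if_true]
      rcases hε with h1 | h1 <;> omega
  have hAP : ∀ s : Bool, AlmostPrime C N ((b : ℤ) + (if s then ε else 0)).toNat := by
    intro s
    obtain ⟨_, _, h3, h4, h5, h6⟩ := hext s
    have h7 := hεb s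
    have h8 : 0 < (b : ℤ) + (if s then ε else 0) := by omega
    have h9 : ((((b : ℤ) + (if s then ε else 0)).toNat : ℕ) : ℤ) =
        (b : ℤ) + (if s then ε else 0) := Int.toNat_of_nonneg h8.le
    refine almost (w := w) hz hNz hC (x := ((b : ℤ) + (if s then ε else 0)).toNat) ?_ ?_
      (h' := he s) (a' := ae s) (b' := be s) (V := V) ?_ h3 h4 h5 h6 (hre s)
    · omega
    · refine le_trans ?_ hNE
      omega
    · rw [h9]
      exact hbs s
  have hb1 := hAP false
  have hb2 := hAP true
  simp only [Bool.false_eq_true, if_false, add_zero, if_true] at hb1 hb2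
  rw [Int.toNat_natCast] at hb1
  have hε2 := hεb true
  simp only [if_true] at hε2
  refine ⟨av (!pos) r i j U, b, ((b : ℤ) + ε).toNat, hba, av_not hr pos hij U, ?_, by omega,
    by omega, hk1.1, hk2.1, ?_, ?_, hb1, hb2⟩
  · exact Int.toNat_of_nonneg (by omega)
  · have h1 : cardFactors (dd r i j) + cardFactors a = G + 1 := hk1.2
    have h2 := hk2.2
    show cardFactors a = _
    omega
  · show cardFactors a ≡ r0 [MOD m]
    have h1 := hcm i j hij
    rw [← hddeq] at h1
    have h2 : cardFactors a + c ≡ r0 + c [MOD m] := by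
      calc cardFactors a + c ≡ cardFactors a + cardFactors (dd r i j) [MOD m] :=
            (Nat.ModEq.refl _).add h1.symm
        _ = G + 1 := by rw [add_comm]; exact hk1.2
        _ ≡ r0 + c [MOD m] := hG
    exact Nat.ModEq.add_right_cancel' c h2

open Classical in
theorem a_52 (hMT : MTStmt) (hFIX : FIXStmt) (hRAM : RAMStmt) (hVV : VVlowStmt) : AStmt := by
  intro m r0 hm
  obtain ⟨K, hMT⟩ := hMT
  obtain ⟨r, c, hr0, hrr⟩ := hRAM K 1 m one_pos hm
  have hr : ∀ i j, i < j → r i < r j ∧ (r j - r i) ∣ r i := by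
    intro i j hij
    obtain ⟨h1, h2, _⟩ := hrr i j hij
    rw [one_mul] at h2
    exact ⟨h1, h2⟩
  have hcm : ∀ i j, i < j → cardFactors (r j - r i) ≡ c [MOD m] := fun i j hij =>
    (hrr i j hij).2.2
  have hL0 := LL_pos hr
  set L := LL r with hLdef
  set Rs := ∑ i, r i with hRs
  set k := Fintype.card ((Fin K × Fin K) × Bool) with hk
  let e : Fin k ≃ (Fin K × Fin K) × Bool := (Fintype.equivFin _).symm
  obtain ⟨G0, hFIX⟩ := hFIX K k (L + 2 * Rs)
  set G := m * G0 + (m - 1) + r0 + c with hGdef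
  have hGG : G0 ≤ G := by
    have : G0 ≤ m * G0 := Nat.le_mul_of_pos_left _ hm
    omega
  have hG1 : G + 1 ≡ r0 + c [MOD m] := by
    have h1 : G + 1 = m * (G0 + 1) + (r0 + c) := by
      rw [hGdef]
      have : m - 1 + 1 = m := by omega
      ring_nf
      omega
    rw [h1]
    unfold Nat.ModEq
    rw [Nat.mul_add_mod]
  obtain ⟨ws, hFIX⟩ := hFIX G hGG
  obtain ⟨B, zs, hB1, hMT⟩ := hMT K k 1 le_rfl
  obtain ⟨Cv, zv, hVV⟩ := hVV (K + k)
  set w := max ws (max zs zv) with hw
  obtain ⟨Cw, hFIX⟩ := hFIX w (le_max_left _ _)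
  obtain ⟨δ0, z1, hδ0, hMT⟩ := hMT w ((le_max_left _ _).trans (le_max_right _ _)) Cw
  obtain ⟨z2, hVV⟩ := hVV w ((le_max_right _ _).trans (le_max_right _ _))
  obtain ⟨H0, hH0⟩ := exists_z B (z1 + z2 + 8 * L * Cw + L + w + 3)
  obtain ⟨N2, hN2⟩ := exists_nat_ge (Real.exp (8 * L * Cw * (K * K) / δ0 + 1))
  set C := 8 * L * Cw * (H0 + 1) + 8 * (L * Cw + 2 * Rs) + 100 + N2 + Cw + (B + 3) + Cv + 1
    with hC
  refine ⟨C, ?_⟩
  intro N hN δ ε hδ hε
  -- the sign
  obtain ⟨pos, hpos⟩ : ∃ pos : Bool, δ = (if pos then 2 else -2) := by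
    rcases hδ with h | h
    · exact ⟨true, by simp [h]⟩
    · exact ⟨false, by simp [h]⟩
  -- the forms
  obtain ⟨U0, M, h, α, β, h', a', b', hM0, hMC, hU0, hmain, hMF, hext, hSF⟩ := hFIX
    (fun _ => (L : ℤ)) (fun j => 2 * (r j : ℤ))
    (fun x => -((L / dd r (e x).1.1 (e x).1.2 : ℕ) : ℤ))
    (fun x => (N : ℤ) - 2 * ((rho pos r (e x).1.1 (e x).1.2 / dd r (e x).1.1 (e x).1.2 : ℕ) : ℤ) +
      (if (e x).2 then ε else 0))
    (by
      intro j
      have h1 : r j ≤ Rs := Finset.single_le_sum (f := r) (fun _ _ => Nat.zero_le _) (mem_univ j)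
      have h2 := hr0 j
      refine ⟨by exact_mod_cast hL0, ?_, by positivity, ?_⟩
      · push_cast; omega
      · push_cast; omega)
    (by
      intro i j hij heq
      have hL' : (L : ℤ) ≠ 0 := by exact_mod_cast hL0.ne'
      have h1 := mul_left_cancel₀ hL' heq
      have h2 : r j = r i := by omega
      rcases lt_or_gt_of_ne hij with h3 | h3
      · have := (hr i j h3).1; omega
      · have := (hr j i h3).1; omega)
    (by
      intro x
      have h1 : 0 < L / dd r (e x).1.1 (e x).1.2 :=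
        Nat.div_pos (Nat.le_of_dvd hL0 (dd_dvd_LL _ _)) (dd_pos hr _ _)
      have h2 : L / dd r (e x).1.1 (e x).1.2 ≤ L := Nat.div_le_self _ _
      constructor
      · rw [neg_ne_zero]
        exact_mod_cast h1.ne'
      · rw [abs_neg, abs_of_nonneg (by positivity)]
        push_cast
        have : ((L / dd r (e x).1.1 (e x).1.2 : ℕ) : ℤ) ≤ L := by exact_mod_cast h2
        have h3 : (0 : ℤ) ≤ 2 * (Rs : ℤ) := by positivity
        push_cast at this h3 ⊢
        linarith)
  -- scales
  have hLM : 0 < 4 * L * M := by positivity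
  set H := N / (4 * L * M) with hH
  have hHN : 4 * L * M * H ≤ N := Nat.mul_div_le N _
  have hNH : N < 4 * L * M * (H + 1) := by
    have := Nat.lt_mul_div_succ N hLM
    exact this
  have hLMC : L * M ≤ L * Cw := Nat.mul_le_mul_left _ hMC
  have hHH : H0 ≤ H := by
    by_contra hcon
    push Not at hcon
    have h1 : N < 4 * L * M * (H0 + 1) := by
      refine lt_of_lt_of_le hNH ?_
      apply Nat.mul_le_mul_left
      omega
    have h2 : 4 * L * M * (H0 + 1) ≤ 8 * L * Cw * (H0 + 1) := by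
      apply Nat.mul_le_mul_right
      nlinarith
    omega
  obtain ⟨z, hzZ, hzB, hzB1⟩ := hH0 H hHH
  have hz2 : 2 ≤ z := by omega
  have hLz : L ≤ z := by omega
  have hH1 : 1 ≤ H := le_trans (Nat.one_le_pow _ _ (by omega)) hzB
  have hNz2 : N ≤ z ^ (B + 2) := by
    have h1 : 4 * L * M * (H + 1) ≤ 8 * L * Cw * H := by
      have h2 : H + 1 ≤ 2 * H := by omega
      calc 4 * L * M * (H + 1) ≤ 4 * L * M * (2 * H) := Nat.mul_le_mul_left _ h2
        _ = 8 * (L * M) * H := by ring
        _ ≤ 8 * (L * Cw) * H := by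
            apply Nat.mul_le_mul_right
            exact Nat.mul_le_mul_left _ hLMC
        _ = 8 * L * Cw * H := by ring
    calc N ≤ 8 * L * Cw * H := by omega
      _ ≤ z * z ^ (B + 1) := Nat.mul_le_mul (by omega) hzB1
      _ = z ^ (B + 2) := by rw [pow_succ z (B + 1)]; ring
  have hNz : N ≤ z ^ C := hNz2.trans (Nat.pow_le_pow_right (by omega) (by omega))
  have hN100 : 100 ≤ N := by omega
  have hNE : N + 2 ≤ z ^ (B + 3) := by
    calc N + 2 ≤ 2 * N := by omega
      _ ≤ z * z ^ (B + 2) := Nat.mul_le_mul hz2 hNz2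
      _ = z ^ (B + 3) := by rw [pow_succ z (B + 2)]; ring
  have hCE : Cw + (B + 3) ≤ C := by omega
  -- the count
  have hcount := hMT z (by omega) α β a' b' hMF hSF H hzB hzB1
  have hVVz := hVV z (by omega) (Fin.append α a') (Fin.append β b') (by
    intro j q hq hdvd
    have hqp : q.Prime := (mem_filter.1 hq).2
    have hqw : w < q := (mem_Ioc.1 (mem_filter.1 hq).1).1
    revert hdvd
    refine Fin.addCases (fun i => ?_) (fun i => ?_) j
    · rw [Fin.append_left]
      intro hdvd
      have := hMF.large i q hqp hdvd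
      omega
    · rw [Fin.append_right]
      intro hdvd
      have := hSF.large i q hqp hdvd
      omega)
  set Good := (Ioc (0 : ℤ) H).filter (fun U =>
    (∀ j, Rough w z (α j * U + β j)) ∧ (∀ j, Rough w z (a' j * U + b' j)) ∧
    ∃ i j, i < j ∧ Prime (α i * U + β i) ∧ Prime (α j * U + β j)) with hGood
  set S := (range (N + 1)).filter (PA C N m r0 δ ε) with hS
  -- every good value gives an element of `S`
  have hmem : ∀ V ∈ Good, ∀ i j, i < j → Prime (α i * V + β i) → Prime (α j * V + β j) →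
      av pos r i j (U0 + M * V.toNat) ∈ S := by
    intro V hVG i j hij hpi hpj
    rw [hGood, mem_filter, mem_Ioc] at hVG
    obtain ⟨⟨hV0, hVH⟩, hR1, hR2, _⟩ := hVG
    have hvH : V.toNat ≤ H := by omega
    have hsize : av pos r i j (U0 + M * V.toNat) + 3 ≤ N := by
      have h1 : av pos r i j (U0 + M * V.toNat) ≤ L * (U0 + M * V.toNat) + 2 * Rs :=
        av_le (r := r) pos i j (U0 + M * V.toNat)
      have h2 : L * (U0 + M * V.toNat) ≤ L * Cw + L * M * H := by
        calc L * (U0 + M * V.toNat) ≤ L * (Cw + M * H) := by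
              apply Nat.mul_le_mul_left
              exact Nat.add_le_add hU0 (Nat.mul_le_mul_left _ hvH)
          _ = L * Cw + L * M * H := by ring
      have h3 : 4 * (L * M * H) ≤ N := by
        calc 4 * (L * M * H) = 4 * L * M * H := by ring
          _ ≤ N := hHN
      have h4 : 8 * (L * Cw + 2 * Rs) + 100 ≤ N := by omega
      omega
    rw [hS, mem_filter, mem_range]
    refine ⟨by omega, ?_⟩
    rw [hpos]
    refine pointwise hr hcm hG1 hz2 hLz hNz hCE hNE hε hmain hMF hij
      (ae := fun s => a' (e.symm ((i, j), s))) (be := fun s => b' (e.symm ((i, j), s)))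
      (he := fun s => h' (e.symm ((i, j), s))) ?_ hV0 hR1 (fun s => hR2 _) hpi hpj hsize
    intro s
    have h1 := hext (e.symm ((i, j), s))
    simp only [Equiv.apply_symm_apply] at h1
    obtain ⟨e1, e2, e3, e4, e5, e6⟩ := h1
    exact ⟨e1, e2, e3, e4, e5, e6⟩
  -- counting
  have hcard : Good.card ≤ K * K * S.card := by
    have hsub : Good ⊆ (univ : Finset (Fin K × Fin K)).biUnion (fun x =>
        Good.filter (fun V => x.1 < x.2 ∧ Prime (α x.1 * V + β x.1) ∧
          Prime (α x.2 * V + β x.2))) := by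
      intro V hVG
      have h1 := hVG
      rw [hGood, mem_filter] at h1
      obtain ⟨_, _, _, i, j, hij, hpi, hpj⟩ := h1
      rw [mem_biUnion]
      exact ⟨(i, j), mem_univ _, mem_filter.2 ⟨hVG, hij, hpi, hpj⟩⟩
    refine (card_le_card hsub).trans (card_biUnion_le.trans ?_)
    have hone : ∀ x ∈ (univ : Finset (Fin K × Fin K)), (Good.filter (fun V => x.1 < x.2 ∧
        Prime (α x.1 * V + β x.1) ∧ Prime (α x.2 * V + β x.2))).card ≤ S.card := by
      intro x _
      apply card_le_card_of_injOn (fun V => av pos r x.1 x.2 (U0 + M * V.toNat))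
      · intro V hV
        rw [mem_coe, mem_filter] at hV
        exact hmem V hV.1 x.1 x.2 hV.2.1 hV.2.2.1 hV.2.2.2
      · intro V hV V' hV' heq
        rw [mem_coe, mem_filter, hGood, mem_filter, mem_Ioc] at hV hV'
        have h1 := av_inj hr pos x.1 x.2 heq
        have h2 : M * V.toNat = M * V'.toNat := by omega
        have h3 := Nat.eq_of_mul_eq_mul_left hM0 h2
        have h4 := hV.1.1.1
        have h5 := hV'.1.1.1
        omega
    refine (sum_le_sum hone).trans ?_
    rw [sum_const, card_univ, Fintype.card_prod, Fintype.card_fin, smul_eq_mul]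
  refine ⟨S, ?_, fun a ha => (mem_filter.1 ha).2⟩
  -- final inequality
  have hNr : (100 : ℝ) ≤ N := by exact_mod_cast hN100
  have hN0 : (0 : ℝ) < N := by linarith
  have hLr : (0 : ℝ) < L := by exact_mod_cast hL0
  have hCw1 : 1 ≤ Cw := by omega
  have hCwr : (1 : ℝ) ≤ Cw := by exact_mod_cast hCw1
  have hzN : z ≤ N := by
    calc z = z ^ 1 := (pow_one z).symm
      _ ≤ z ^ B := Nat.pow_le_pow_right (by omega) hB1
      _ ≤ H := hzB
      _ ≤ N := Nat.div_le_self _ _
  have hlogz0 : 0 < Real.log z := Real.log_pos (by exact_mod_cast (by omega : 1 < z))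
  have hlogzN : Real.log z ≤ Real.log N :=
    Real.log_le_log (by exact_mod_cast (by omega : 0 < z)) (by exact_mod_cast hzN)
  have hXN : 8 * L * Cw * (K * K) / δ0 + 1 ≤ Real.log N := by
    rw [Real.le_log_iff_exp_le hN0]
    refine hN2.trans ?_
    exact_mod_cast (by omega : N2 ≤ N)
  have hX0 : 0 ≤ 8 * (L : ℝ) * Cw * (K * K) / δ0 := by positivity
  have hlogN1 : 1 ≤ Real.log N := by linarith
  have hlogN0 : 0 < Real.log N := by linarith
  have hHr : (N : ℝ) / (8 * L * Cw) ≤ H := by
    have h1 : (N : ℝ) < 4 * L * M * (H + 1) := by exact_mod_cast hNH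
    have h2 : ((H : ℝ) + 1) ≤ 2 * H := by
      have : (1 : ℝ) ≤ H := by exact_mod_cast hH1
      linarith
    have hMr : (M : ℝ) ≤ Cw := by exact_mod_cast hMC
    rw [div_le_iff₀ (by positivity)]
    calc (N : ℝ) ≤ 4 * L * M * (H + 1) := h1.le
      _ ≤ 4 * L * Cw * (2 * H) := by
          apply mul_le_mul _ h2 (by positivity) (by positivity)
          exact mul_le_mul_of_nonneg_left hMr (by positivity)
      _ = H * (8 * L * Cw) := by ring
  have hcardr : (Good.card : ℝ) ≤ K * K * S.card := by exact_mod_cast hcard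
  have hlow : δ0 * (1 / (Real.log N) ^ Cv) * (N / (8 * L * Cw)) ≤ K * K * S.card := by
    refine le_trans ?_ hcardr
    refine le_trans ?_ hcount
    apply mul_le_mul _ hHr (by positivity)
    · apply mul_nonneg hδ0.le
      refine le_trans ?_ hVVz
      positivity
    · apply mul_le_mul_of_nonneg_left _ hδ0.le
      refine le_trans ?_ hVVz
      apply one_div_le_one_div_of_le (pow_pos hlogz0 _)
      exact pow_le_pow_left₀ hlogz0.le hlogzN _
  rcases Nat.eq_zero_or_pos K with hK | hK
  · exfalso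
    have h1 : (K : ℝ) = 0 := by exact_mod_cast hK
    rw [h1] at hlow
    have h2 : 0 < δ0 * (1 / (Real.log N) ^ Cv) * ((N : ℝ) / (8 * L * Cw)) := by positivity
    linarith
  have hKr : (1 : ℝ) ≤ K := by exact_mod_cast hK
  have hstep : (N : ℝ) / (Real.log N) ^ (Cv + 1) ≤ S.card := by
    have h1 : (8 * L * Cw * (K * K) : ℝ) ≤ δ0 * Real.log N := by
      have h2 : 8 * (L : ℝ) * Cw * (K * K) / δ0 ≤ Real.log N := by linarith
      rw [div_le_iff₀ hδ0] at h2
      linarith
    have h3 : δ0 * (1 / (Real.log N) ^ Cv) * (N / (8 * L * Cw)) =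
        (δ0 * N) / ((8 * L * Cw) * (Real.log N) ^ Cv) := by
      field_simp
    rw [h3, div_le_iff₀ (by positivity)] at hlow
    rw [div_le_iff₀ (by positivity), pow_succ]
    have h4 : δ0 * N ≤ S.card * (Real.log N) ^ Cv * (8 * L * Cw * (K * K)) := by
      calc δ0 * N ≤ K * K * S.card * ((8 * L * Cw) * (Real.log N) ^ Cv) := hlow
        _ = _ := by ring
    have h5 : δ0 * N ≤ S.card * (Real.log N) ^ Cv * (δ0 * Real.log N) :=
      h4.trans (mul_le_mul_of_nonneg_left h1
        (mul_nonneg (Nat.cast_nonneg _) (pow_nonneg hlogN0.le _)))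
    have h6 : δ0 * N ≤ δ0 * (S.card * ((Real.log N) ^ Cv * Real.log N)) := by
      calc δ0 * N ≤ S.card * (Real.log N) ^ Cv * (δ0 * Real.log N) := h5
        _ = _ := by ring
    exact le_of_mul_le_mul_left h6 hδ0
  refine le_trans ?_ hstep
  apply div_le_div_of_nonneg_left hN0.le (pow_pos hlogN0 _)
  exact pow_le_pow_right₀ hlogN1 (by omega)

end Pool.Agent.Lib.MT2.T52
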