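import Mathlib
import Pool.Agent.Lib.MT2.Stmts
import Pool.Agent.Lib.TwinAll.Aff81

/-!
MAYNARD-TAO ON ROUGH FORMS: theorem (B) from the engine MT, the fixed parts FIX, the Ramsey
numbers RAM and the fourth moment of the pair correlations S3 (helper19).
-/

set_option autoImplicit false

namespace Pool.Agent.Lib.MT2.T19

open Finset
open scoped Pointwise
open Pool.Agent.Lib.TwinAll (PP Rough om VV nu ee)

/-- number of pairs of `T` with difference `t` -/
def rr (T : Finset ℤ) (t : ℤ) : ℕ := (T.filter (fun n => n + t ∈ T)).card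

theorem energy_eq (T : Finset ℤ) (H : ℕ) (hT : T ⊆ Ioc (0 : ℤ) H) :
    T.addEnergy T = ∑ t ∈ Ioo (-(H : ℤ)) H, rr T t ^ 2 := by
  unfold Finset.addEnergy
  rw [card_eq_sum_card_fiberwise (f := fun x => x.1.1 - x.1.2) (t := Ioo (-(H : ℤ)) H)]
  · apply sum_congr rfl
    intro t _
    unfold rr
    rw [sq, ← card_product]
    refine Finset.card_bij (fun x _ => (x.1.2, x.2.1)) ?_ ?_ ?_
    · rintro ⟨⟨a1, a2⟩, b1, b2⟩ h
      simp only [mem_filter, mem_product] at h ⊢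
      obtain ⟨⟨⟨⟨h1, h2⟩, h3, h4⟩, h5⟩, h6⟩ := h
      refine ⟨⟨h2, ?_⟩, h3, ?_⟩
      · rw [show a2 + t = a1 by linarith]; exact h1
      · rw [show b1 + t = b2 by linarith]; exact h4
    · rintro ⟨⟨a1, a2⟩, b1, b2⟩ h ⟨⟨a1', a2'⟩, b1', b2'⟩ h' he
      simp only [mem_filter, mem_product] at h h'
      obtain ⟨⟨_, h5⟩, h6⟩ := h
      obtain ⟨⟨_, h5'⟩, h6'⟩ := h'
      simp only [Prod.mk.injEq] at he ⊢
      obtain ⟨e1, e2⟩ := he
      subst e1
      subst e2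
      refine ⟨⟨by linarith, rfl⟩, rfl, by linarith⟩
    · rintro ⟨y, z⟩ h
      simp only [mem_filter, mem_product] at h
      refine ⟨((y + t, y), z, z + t), ?_, rfl⟩
      simp only [mem_filter, mem_product]
      exact ⟨⟨⟨⟨h.1.2, h.1.1⟩, h.2.1, h.2.2⟩, by ring⟩, by ring⟩
  · rintro ⟨⟨a1, a2⟩, b1, b2⟩ h
    simp only [coe_filter, mem_product, Set.mem_ofPred_eq] at h
    obtain ⟨⟨⟨h1, h2⟩, _⟩, _⟩ := h
    have e1 := mem_Ioc.1 (hT h1)
    have e2 := mem_Ioc.1 (hT h2)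
    simp only [coe_Ioo, Set.mem_Ioo]
    constructor <;> linarith [e1.1, e1.2, e2.1, e2.2]

theorem card_sum_lower (T : Finset ℤ) (H : ℕ) (hT : T ⊆ Ioc (0 : ℤ) H) (V : ℝ) (hV : 0 < V)
    (f : ℤ → ℝ) (hf0 : ∀ n, 0 ≤ f n) (hf : ∀ n ∈ T, V⁻¹ ≤ f n)
    (h4 : ∑ t ∈ Ioo (-(H : ℤ)) H,
        (∑ n ∈ (Ioc (0 : ℤ) (0 + H)).filter (fun n => n + t ∈ Ioc (0 : ℤ) (0 + H)),
          f n * f (n + t)) ^ 4 ≤ 4 * (H : ℝ) ^ 5) :
    (T.card : ℝ) ^ 4 ≤ 3 * V ^ 4 * (H : ℝ) ^ 3 * ((T + T).card : ℝ) := by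
  have hH0 : (0 : ℝ) ≤ H := Nat.cast_nonneg H
  -- pointwise
  have hr : ∀ t : ℤ, (rr T t : ℝ) ≤ V ^ 2 *
      ∑ n ∈ (Ioc (0 : ℤ) (0 + H)).filter (fun n => n + t ∈ Ioc (0 : ℤ) (0 + H)),
          f n * f (n + t) := by
    intro t
    unfold rr
    rw [card_eq_sum_ones, Nat.cast_sum, mul_sum]
    calc ∑ n ∈ T.filter (fun n => n + t ∈ T), ((1 : ℕ) : ℝ)
        ≤ ∑ n ∈ T.filter (fun n => n + t ∈ T), V ^ 2 * (f n * f (n + t)) := by
          apply sum_le_sum
          intro n hn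
          rw [mem_filter] at hn
          have h1 := hf n hn.1
          have h2 := hf (n + t) hn.2
          have h3 : V⁻¹ * V⁻¹ ≤ f n * f (n + t) :=
            mul_le_mul h1 h2 (inv_pos.2 hV).le (hf0 n)
          have h5 : V ^ 2 * (V⁻¹ * V⁻¹) = 1 := by field_simp
          have h6 : V ^ 2 * (V⁻¹ * V⁻¹) ≤ V ^ 2 * (f n * f (n + t)) :=
            mul_le_mul_of_nonneg_left h3 (by positivity)
          rw [h5] at h6
          simpa using h6
      _ ≤ _ := by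
          apply sum_le_sum_of_subset_of_nonneg
          · intro n hn
            rw [mem_filter] at hn ⊢
            rw [zero_add]
            exact ⟨hT hn.1, hT hn.2⟩
          · intro n _ _
            have := hf0 n
            have := hf0 (n + t)
            positivity
  have hE : ((T.addEnergy T : ℕ) : ℝ) ≤ 3 * V ^ 4 * (H : ℝ) ^ 3 := by
    rw [energy_eq T H hT]
    push_cast
    set R : ℤ → ℝ := fun t =>
      ∑ n ∈ (Ioc (0 : ℤ) (0 + H)).filter (fun n => n + t ∈ Ioc (0 : ℤ) (0 + H)),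
          f n * f (n + t) with hR
    have hR0 : ∀ t, 0 ≤ R t := by
      intro t
      apply sum_nonneg
      intro n _
      exact mul_nonneg (hf0 _) (hf0 _)
    have h1 : ∑ t ∈ Ioo (-(H : ℤ)) H, ((rr T t : ℕ) : ℝ) ^ 2 ≤
        V ^ 4 * ∑ t ∈ Ioo (-(H : ℤ)) H, R t ^ 2 := by
      rw [mul_sum]
      apply sum_le_sum
      intro t _
      calc ((rr T t : ℕ) : ℝ) ^ 2 ≤ (V ^ 2 * R t) ^ 2 :=
            pow_le_pow_left₀ (Nat.cast_nonneg _) (hr t) 2
        _ = V ^ 4 * R t ^ 2 := by ring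
    have h2 : (∑ t ∈ Ioo (-(H : ℤ)) H, R t ^ 2) ^ 2 ≤
        (2 * H) * ∑ t ∈ Ioo (-(H : ℤ)) H, R t ^ 4 := by
      have h := sum_mul_sq_le_sq_mul_sq (Ioo (-(H : ℤ)) H) (fun _ => (1 : ℝ)) (fun t => R t ^ 2)
      simp only [one_mul, one_pow] at h
      refine h.trans ?_
      have e1 : ∀ t, (R t ^ 2) ^ 2 = R t ^ 4 := fun t => by ring
      simp only [e1]
      apply mul_le_mul_of_nonneg_right
      · rw [sum_const, nsmul_eq_mul, mul_one, Int.card_Ioo]
        have : ((((H : ℤ) - -(H : ℤ) - 1).toNat : ℕ) : ℝ) ≤ ((2 * H : ℕ) : ℝ) := by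
          apply Nat.cast_le.2
          omega
        push_cast at this ⊢
        exact this
      · apply sum_nonneg
        intro t _
        have := hR0 t
        positivity
    have h3 : (∑ t ∈ Ioo (-(H : ℤ)) H, R t ^ 2) ^ 2 ≤ (3 * (H : ℝ) ^ 3) ^ 2 := by
      calc (∑ t ∈ Ioo (-(H : ℤ)) H, R t ^ 2) ^ 2
          ≤ (2 * H) * ∑ t ∈ Ioo (-(H : ℤ)) H, R t ^ 4 := h2
        _ ≤ (2 * H) * (4 * (H : ℝ) ^ 5) := by
            apply mul_le_mul_of_nonneg_left h4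
            positivity
        _ = 8 * (H : ℝ) ^ 6 := by ring
        _ ≤ (3 * (H : ℝ) ^ 3) ^ 2 := by nlinarith [pow_nonneg hH0 6]
    have h5 : ∑ t ∈ Ioo (-(H : ℤ)) H, R t ^ 2 ≤ 3 * (H : ℝ) ^ 3 :=
      le_of_sq_le_sq h3 (by positivity) 
    calc _ ≤ V ^ 4 * ∑ t ∈ Ioo (-(H : ℤ)) H, R t ^ 2 := h1
      _ ≤ V ^ 4 * (3 * (H : ℝ) ^ 3) := mul_le_mul_of_nonneg_left h5 (by positivity)
      _ = _ := by ring
  have hc := Finset.le_card_add_mul_addEnergy T T
  have hc' : ((T.card : ℝ)) ^ 2 * (T.card : ℝ) ^ 2 ≤ ((T + T).card : ℝ) * (T.addEnergy T : ℝ) := by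
    exact_mod_cast hc
  calc (T.card : ℝ) ^ 4 = (T.card : ℝ) ^ 2 * (T.card : ℝ) ^ 2 := by ring
    _ ≤ ((T + T).card : ℝ) * (T.addEnergy T : ℝ) := hc'
    _ ≤ ((T + T).card : ℝ) * (3 * V ^ 4 * (H : ℝ) ^ 3) :=
        mul_le_mul_of_nonneg_left hE (Nat.cast_nonneg _)
    _ = _ := by ring


/-- choice of `z` -/
theorem exists_z (B : ℕ) (hB : 0 < B) (z1 : ℕ) : ∃ H1 : ℕ, ∀ H : ℕ, H1 ≤ H →
    ∃ z : ℕ, z1 ≤ z ∧ z ^ B ≤ H ∧ H ≤ z ^ (B + 1) := by
  refine ⟨(z1 + 2 ^ B) ^ B, fun H hH => ?_⟩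
  have h0 : (z1 + 2 ^ B) ≤ H := by
    calc z1 + 2 ^ B = (z1 + 2 ^ B) ^ 1 := (pow_one _).symm
      _ ≤ (z1 + 2 ^ B) ^ B := Nat.pow_le_pow_right (by positivity) hB
      _ ≤ H := hH
  set z := Nat.findGreatest (fun z => z ^ B ≤ H) H with hz
  have h1 : z1 + 2 ^ B ≤ z := Nat.le_findGreatest h0 hH
  have h2 : z ^ B ≤ H := Nat.findGreatest_spec (P := fun z => z ^ B ≤ H) h0 hH
  refine ⟨z, (Nat.le_add_right _ _).trans h1, h2, ?_⟩
  have h3 : H < (z + 1) ^ B := by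
    by_contra hc
    push Not at hc
    have h4 : z + 1 ≤ H := by
      calc z + 1 = (z + 1) ^ 1 := (pow_one _).symm
        _ ≤ (z + 1) ^ B := Nat.pow_le_pow_right (by positivity) hB
        _ ≤ H := hc
    have := Nat.le_findGreatest (P := fun z => z ^ B ≤ H) h4 hc
    omega
  have hz2 : 2 ^ B ≤ z := (Nat.le_add_left _ _).trans h1
  have hz1 : 1 ≤ z := Nat.one_le_two_pow.trans hz2
  calc H ≤ (z + 1) ^ B := h3.le
    _ ≤ (2 * z) ^ B := Nat.pow_le_pow_left (by omega) B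
    _ = 2 ^ B * z ^ B := mul_pow _ _ _
    _ ≤ z * z ^ B := Nat.mul_le_mul_right _ hz2
    _ = z ^ (B + 1) := by ring

/-- appending no forms does not change the density -/
theorem VV_append0 {K : ℕ} (z0 z : ℕ) (α β : Fin K → ℤ) (a d : Fin 0 → ℤ) :
    VV z0 z (Fin.append α a) (Fin.append β d) = VV z0 z α β := by
  unfold VV
  apply prod_congr rfl
  intro q _
  have : om (Fin.append α a) (Fin.append β d) q = om α β q := by
    apply Pool.Agent.Lib.TwinAll.A81.om_congr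
    intro n
    constructor
    · rintro ⟨j, hj⟩
      refine ⟨j, ?_⟩
      have e1 : Fin.append α a j = α j := Fin.append_left α a j
      have e2 : Fin.append β d j = β j := Fin.append_left β d j
      rw [e1, e2] at hj
      exact hj
    · rintro ⟨j, hj⟩
      refine ⟨j, ?_⟩
      have e1 : Fin.append α a j = α j := Fin.append_left α a j
      have e2 : Fin.append β d j = β j := Fin.append_left β d j
      rw [e1, e2]
      exact hj
  rw [this]

/-- a prime value of a rough main form is larger than `z` -/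
theorem prime_large {z0 z : ℕ} {α β V : ℤ} (hcop : IsCoprime α β)
    (hsmall : ∀ q : ℕ, q.Prime → q ≤ z0 → (q : ℤ) ∣ α) (hR : Rough z0 z (α * V + β))
    (hp : Prime (α * V + β)) (hpos : 0 < α * V + β) :
    ∃ P : ℕ, P.Prime ∧ (P : ℤ) = α * V + β ∧ z < P := by
  refine ⟨(α * V + β).natAbs, Int.prime_iff_natAbs_prime.1 hp, ?_, ?_⟩
  · rw [Int.natCast_natAbs, abs_of_pos hpos]
  · have hP : (α * V + β).natAbs.Prime := Int.prime_iff_natAbs_prime.1 hp
    have hE : (((α * V + β).natAbs : ℕ) : ℤ) = α * V + β := by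
      rw [Int.natCast_natAbs, abs_of_pos hpos]
    generalize (α * V + β).natAbs = P at hP hE
    by_contra hc
    push Not at hc
    by_cases h0 : P ≤ z0
    · have h1 := hsmall P hP h0
      have h2 : (P : ℤ) ∣ β := by
        have h3 : (P : ℤ) ∣ α * V + β := ⟨1, by rw [mul_one, hE]⟩
        exact (Int.dvd_add_right (h1.mul_right V)).1 h3
      have h4 : (P : ℤ) ∣ 1 := by
        obtain ⟨x, y, hxy⟩ := hcop
        rw [← hxy]
        exact dvd_add (h1.mul_left x) (h2.mul_left y)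
      have h5 := Int.natCast_dvd_natCast.1 (by simpa using h4 : (P : ℤ) ∣ ((1 : ℕ) : ℤ))
      exact hP.one_lt.ne' (Nat.dvd_one.1 h5)
    · push Not at h0
      exact hR P (by unfold PP; rw [mem_filter, mem_Ioc]; exact ⟨⟨h0, hc⟩, hP⟩)
        ⟨1, by rw [mul_one, hE]⟩

/-- one value: `a = e P` -/
theorem one_value {d L U0 M ri V h α β : ℤ} {P : ℕ} (hd : 0 < d) (hLM : L * M = h * α)
    (hLU : L * U0 + 2 * ri = h * β) (hP : P.Prime) (hPV : (P : ℤ) = α * V + β) (hdP : d < P)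
    (hdL : d ∣ L) (hdr : d ∣ ri) : d ∣ h ∧ L * (U0 + M * V) + 2 * ri = h * P := by
  have e : L * (U0 + M * V) + 2 * ri = h * P := by
    rw [hPV]
    linear_combination V * hLM + hLU
  refine ⟨?_, e⟩
  have h1 : d ∣ h * P := by
    rw [← e]
    exact dvd_add (hdL.mul_right _) (hdr.mul_left _)
  have h2 : IsCoprime d (P : ℤ) := by
    rw [Int.isCoprime_iff_gcd_eq_one, Int.gcd_comm]
    have h3 : ¬ ((P : ℤ) ∣ d) := fun h => by
      have := Int.le_of_dvd hd h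
      omega
    have hPp : Prime (P : ℤ) := Nat.prime_iff_prime_int.1 hP
    exact Int.isCoprime_iff_gcd_eq_one.1 ((Prime.coprime_iff_not_dvd hPp).2 h3)
  exact h2.dvd_of_dvd_mul_right h1

theorem omega_div {h d e : ℕ} (hd : 0 < d) (he : 0 < e) (hh : h = d * e) :
    ArithmeticFunction.cardFactors h =
      ArithmeticFunction.cardFactors d + ArithmeticFunction.cardFactors e := by
  rw [hh, ArithmeticFunction.cardFactors_mul hd.ne' he.ne']


/-- the two numbers `a`, `a + 2` -/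
theorem pair_system {K Cw z0 z G : ℕ} {L U0 M : ℤ} {r h α β : Fin K → ℤ} (hMF : MF Cw z0 α β)
    (hLM : ∀ j, L * M = h j * α j) (hLU : ∀ j, L * U0 + 2 * r j = h j * β j)
    (hh : ∀ j, 0 < h j ∧ h j ≤ Cw ∧ ArithmeticFunction.cardFactors (h j).toNat = G)
    (i j : Fin K) (d : ℕ) (hd : 0 < d) (hdz : d ≤ z) (hrd : r j = r i + d) (hdL : (d : ℤ) ∣ L)
    (hdr : (d : ℤ) ∣ r i) (T : Finset ℤ) (hT0 : T.Nonempty)
    (hT : ∀ V ∈ T, 0 < V ∧ (∀ l, Rough z0 z (α l * V + β l)) ∧ Prime (α i * V + β i) ∧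
      Prime (α j * V + β j)) :
    ∃ ei ej : ℕ, 0 < ei ∧ 0 < ej ∧ ei ≤ Cw ∧ ej ≤ Cw ∧ h i = d * ei ∧
      ArithmeticFunction.cardFactors ei + ArithmeticFunction.cardFactors d = G ∧
      ArithmeticFunction.cardFactors ej + ArithmeticFunction.cardFactors d = G ∧
      ∀ V ∈ T, ∃ P Q : ℕ, P.Prime ∧ Q.Prime ∧ (P : ℤ) = α i * V + β i ∧ ei * P + 2 = ej * Q := by
  have hd' : (0 : ℤ) < d := by exact_mod_cast hd
  have hdrj : (d : ℤ) ∣ r j := by rw [hrd]; exact dvd_add hdr dvd_rfl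
  have key : ∀ V ∈ T, ∃ P Q : ℕ, P.Prime ∧ Q.Prime ∧ (P : ℤ) = α i * V + β i ∧
      (d : ℤ) ∣ h i ∧ (d : ℤ) ∣ h j ∧ L * (U0 + M * V) + 2 * r i = h i * P ∧
      L * (U0 + M * V) + 2 * r j = h j * Q := by
    intro V hV
    obtain ⟨hV0, hR, hp, hq⟩ := hT V hV
    have hpos : ∀ l, 0 < α l * V + β l := by
      intro l
      have h1 := (hMF.pos l).1
      have h2 := (hMF.pos l).2
      nlinarith
    obtain ⟨P, hP, hPV, hPz⟩ := prime_large (hMF.cop i) (hMF.small i) (hR i) hp (hpos i)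
    obtain ⟨Q, hQ, hQV, hQz⟩ := prime_large (hMF.cop j) (hMF.small j) (hR j) hq (hpos j)
    obtain ⟨h1, h2⟩ := one_value (V := V) hd' (hLM i) (hLU i) hP hPV
      (by exact_mod_cast lt_of_le_of_lt hdz hPz) hdL hdr
    obtain ⟨h3, h4⟩ := one_value (V := V) hd' (hLM j) (hLU j) hQ hQV
      (by exact_mod_cast lt_of_le_of_lt hdz hQz) hdL hdrj
    exact ⟨P, Q, hP, hQ, hPV, h1, h3, h2, h4⟩
  obtain ⟨V0, hV0⟩ := hT0
  obtain ⟨_, _, _, _, _, hdi, hdj, _, _⟩ := key V0 hV0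
  have quot : ∀ l, (d : ℤ) ∣ h l → ∃ e : ℕ, 0 < e ∧ e ≤ Cw ∧ h l = d * e ∧
      ArithmeticFunction.cardFactors e + ArithmeticFunction.cardFactors d = G := by
    rintro l ⟨x, hx⟩
    obtain ⟨h1, h2, h3⟩ := hh l
    have hx0 : 0 < x := by
      rw [hx] at h1
      exact (mul_pos_iff_of_pos_left hd').1 h1
    obtain ⟨e, rfl⟩ := Int.eq_ofNat_of_zero_le hx0.le
    have he : 0 < e := by exact_mod_cast hx0
    refine ⟨e, he, ?_, hx, ?_⟩
    · have h4 : (e : ℤ) ≤ Cw := by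
        calc (e : ℤ) = 1 * e := (one_mul _).symm
          _ ≤ d * e := mul_le_mul_of_nonneg_right (by omega) (by omega)
          _ = h l := hx.symm
          _ ≤ Cw := h2
      exact_mod_cast h4
    · have h5 : (h l).toNat = d * e := by
        rw [hx]
        rw [← Nat.cast_mul, Int.toNat_natCast]
      rw [← h3, omega_div hd he h5]
      ring
  obtain ⟨ei, hei, heiC, hi, hGi⟩ := quot i hdi
  obtain ⟨ej, hej, hejC, hj, hGj⟩ := quot j hdj
  refine ⟨ei, ej, hei, hej, heiC, hejC, hi, hGi, hGj, fun V hV => ?_⟩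
  obtain ⟨P, Q, hP, hQ, hPV, _, _, h1, h2⟩ := key V hV
  refine ⟨P, Q, hP, hQ, hPV, ?_⟩
  have h3 : (d : ℤ) * (ei * P + 2) = d * (ej * Q) := by
    rw [hi] at h1
    rw [hj] at h2
    linear_combination h2 - h1 - 2 * hrd
  have h4 := mul_left_cancel₀ hd'.ne' h3
  exact_mod_cast h4

/-- numbers of the form `e P` -/
theorem good_value {C e P g : ℕ} (he : 0 < e) (heC : e ≤ C) (hP : P.Prime)
    (hg : ArithmeticFunction.cardFactors e + 1 = g) :
    PrimeMult C (e * P) ∧ ArithmeticFunction.cardFactors (e * P) = g := by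
  refine ⟨⟨e, P, rfl, he, heC, hP⟩, ?_⟩
  rw [ArithmeticFunction.cardFactors_mul he.ne' hP.ne_zero,
    ArithmeticFunction.cardFactors_apply_prime hP, hg]

/-- from the set `T` of the `V` to the set of the sums -/
theorem sums_of {C ei ej g H N : ℕ} {αi βi : ℤ} (hei : 0 < ei) (hej : 0 < ej) (heiC : ei ≤ C)
    (hejC : ej ≤ C) (hgi : ArithmeticFunction.cardFactors ei + 1 = g)
    (hgj : ArithmeticFunction.cardFactors ej + 1 = g) (hα : 0 < αi) (hαC : αi ≤ C)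
    (hβC : |βi| ≤ C) (h2α : (2 : ℤ) ∣ αi) (T : Finset ℤ) (hTH : T ⊆ Ioc (0 : ℤ) H) (hH : 0 < H)
    (hT : ∀ V ∈ T, ∃ P Q : ℕ, P.Prime ∧ Q.Prime ∧ (P : ℤ) = αi * V + βi ∧ ei * P + 2 = ej * Q)
    (hN : 4 * C ^ 2 * H ≤ N) :
    ∃ S : Finset ℕ, S.card = (T + T).card ∧ ∀ n ∈ S, n ≤ N ∧ Even n ∧ ∃ a b : ℕ, 0 < a ∧ 0 < b ∧
      n = a + b ∧ ∀ x ∈ ({a, a + 2, b, b + 2} : Finset ℕ), PrimeMult C x ∧
        ArithmeticFunction.cardFactors x = g := by
  have hval : ∀ s ∈ T + T, ∃ V ∈ T, ∃ W ∈ T, ∃ P Q P' Q' : ℕ, s = V + W ∧ P.Prime ∧ Q.Prime ∧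
      P'.Prime ∧ Q'.Prime ∧ ei * P + 2 = ej * Q ∧ ei * P' + 2 = ej * Q' ∧
      (ei : ℤ) * (αi * s + 2 * βi) = ((ei * P + ei * P' : ℕ) : ℤ) := by
    intro s hs
    obtain ⟨V, hV, W, hW, rfl⟩ := mem_add.1 hs
    obtain ⟨P, Q, hP, hQ, hPV, hPQ⟩ := hT V hV
    obtain ⟨P', Q', hP', hQ', hPW, hPQ'⟩ := hT W hW
    refine ⟨V, hV, W, hW, P, Q, P', Q', rfl, hP, hQ, hP', hQ', hPQ, hPQ', ?_⟩
    push_cast
    rw [hPV, hPW]
    ring
  refine ⟨(T + T).image (fun s => ((ei : ℤ) * (αi * s + 2 * βi)).toNat), ?_, ?_⟩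
  · apply card_image_of_injOn
    intro s hs s' hs' he
    simp only at he
    obtain ⟨_, _, _, _, P, Q, P', Q', _, _, _, _, _, _, _, h1⟩ := hval s hs
    obtain ⟨_, _, _, _, P1, Q1, P1', Q1', _, _, _, _, _, _, _, h2⟩ := hval s' hs'
    rw [h1, h2] at he
    rw [Int.toNat_natCast, Int.toNat_natCast] at he
    rw [he, ← h2] at h1
    have h3 := mul_left_cancel₀ (by exact_mod_cast hei.ne' : (ei : ℤ) ≠ 0) h1
    have h4 : αi * s = αi * s' := by linarith
    exact mul_left_cancel₀ hα.ne' h4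
  · intro n hn
    obtain ⟨s, hs, rfl⟩ := mem_image.1 hn
    obtain ⟨V, hV, W, hW, P, Q, P', Q', hsVW, hP, hQ, hP', hQ', hPQ, hPQ', h1⟩ := hval s hs
    have hn' : ((ei : ℤ) * (αi * s + 2 * βi)).toNat = ei * P + ei * P' := by
      rw [h1, Int.toNat_natCast]
    rw [hn']
    refine ⟨?_, ?_, ei * P, ei * P', Nat.mul_pos hei hP.pos, Nat.mul_pos hei hP'.pos, rfl, ?_⟩
    · have hV' := mem_Ioc.1 (hTH hV)
      have hW' := mem_Ioc.1 (hTH hW)
      have hs2 : s ≤ 2 * H := by rw [hsVW]; linarith [hV'.2, hW'.2]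
      have hs0 : 0 ≤ s := by rw [hsVW]; linarith [hV'.1, hW'.1]
      have h2 : αi * s + 2 * βi ≤ 4 * C * H := by
        have e1 : αi * s ≤ C * (2 * H) := mul_le_mul hαC hs2 hs0 (by positivity)
        have e2 : βi ≤ C := le_trans (le_abs_self _) hβC
        have e3 : (C : ℤ) ≤ C * H := by
          have : (1 : ℤ) ≤ H := by exact_mod_cast hH
          nlinarith [Int.natCast_nonneg C]
        linarith
      have h3 : (ei : ℤ) * (αi * s + 2 * βi) ≤ C * (4 * C * H) := by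
        have e4 : (ei : ℤ) ≤ C := by exact_mod_cast heiC
        calc (ei : ℤ) * (αi * s + 2 * βi) ≤ ei * (4 * C * H) :=
              mul_le_mul_of_nonneg_left h2 (by positivity)
          _ ≤ C * (4 * C * H) := mul_le_mul_of_nonneg_right e4 (by positivity)
      rw [h1] at h3
      have h4 : ei * P + ei * P' ≤ C * (4 * C * H) := by exact_mod_cast h3
      calc ei * P + ei * P' ≤ C * (4 * C * H) := h4
        _ = 4 * C ^ 2 * H := by ring
        _ ≤ N := hN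
    · have h2 : (2 : ℤ) ∣ ((ei * P + ei * P' : ℕ) : ℤ) := by
        rw [← h1]
        exact ((h2α.mul_right s).add (dvd_mul_right 2 βi)).mul_left _
      exact even_iff_two_dvd.2 (by exact_mod_cast h2)
    · intro x hx
      simp only [mem_insert, mem_singleton] at hx
      rcases hx with rfl | rfl | rfl | rfl
      · exact good_value hei heiC hP hgi
      · rw [hPQ]; exact good_value hej hejC hQ hgj
      · exact good_value hei heiC hP' hgi
      · rw [hPQ']; exact good_value hej hejC hQ' hgj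


open Classical in
/-- pigeonhole for the pair of primes -/
theorem pigeon {K : ℕ} (hK : 0 < K) (F : Finset ℤ) (p : Fin K → ℤ → Prop) (X : ℝ)
    (hX : 0 < X) (hF : ∀ U ∈ F, ∃ i j, i < j ∧ p i U ∧ p j U) (h : X ≤ (F.card : ℝ)) :
    ∃ i j : Fin K, i < j ∧ ∃ T : Finset ℤ, T ⊆ F ∧ (∀ U ∈ T, p i U ∧ p j U) ∧
      X / (K : ℝ) ^ 2 ≤ (T.card : ℝ) := by
  by_contra hc
  push Not at hc
  have hKr : (0 : ℝ) < K := by exact_mod_cast hK
  have h1 : F ⊆ (univ.filter (fun x : Fin K × Fin K => x.1 < x.2)).biUnion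
        (fun x => F.filter (fun U => p x.1 U ∧ p x.2 U)) := by
    intro U hU
    obtain ⟨i, j, hij, hi, hj⟩ := hF U hU
    rw [mem_biUnion]
    exact ⟨(i, j), by rw [mem_filter]; exact ⟨mem_univ _, hij⟩, by
      rw [mem_filter]; exact ⟨hU, hi, hj⟩⟩
  have h2 : (F.card : ℝ) ≤
      ∑ x ∈ univ.filter (fun x : Fin K × Fin K => x.1 < x.2),
        ((F.filter (fun U => p x.1 U ∧ p x.2 U)).card : ℝ) := by
    rw [← Nat.cast_sum]
    exact Nat.cast_le.2 ((card_le_card h1).trans card_biUnion_le)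
  rcases (univ.filter (fun x : Fin K × Fin K => x.1 < x.2)).eq_empty_or_nonempty with he | hne
  · rw [he, sum_empty] at h2
    linarith
  · have h3 : ∑ x ∈ univ.filter (fun x : Fin K × Fin K => x.1 < x.2),
        ((F.filter (fun U => p x.1 U ∧ p x.2 U)).card : ℝ) <
        ∑ x ∈ univ.filter (fun x : Fin K × Fin K => x.1 < x.2), X / (K : ℝ) ^ 2 := by
      apply sum_lt_sum_of_nonempty hne
      intro x hx
      rw [mem_filter] at hx
      exact hc x.1 x.2 hx.2 _ (filter_subset _ _) (fun U hU => (mem_filter.1 hU).2)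
    have h4 : ∑ x ∈ univ.filter (fun x : Fin K × Fin K => x.1 < x.2), X / (K : ℝ) ^ 2 ≤ X := by
      rw [sum_const, nsmul_eq_mul]
      have h5 : ((univ.filter (fun x : Fin K × Fin K => x.1 < x.2)).card : ℝ) ≤ (K : ℝ) ^ 2 := by
        have h6 : (univ.filter (fun x : Fin K × Fin K => x.1 < x.2)).card ≤ K ^ 2 := by
          refine (card_filter_le _ _).trans ?_
          rw [card_univ, Fintype.card_prod, Fintype.card_fin, sq]
        exact_mod_cast h6
      calc _ ≤ (K : ℝ) ^ 2 * (X / (K : ℝ) ^ 2) := mul_le_mul_of_nonneg_right h5 (by positivity)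
        _ = X := by field_simp
    linarith

theorem b_19 (hMT : MTStmt) (hFIX : FIXStmt) (hRAM : RAMStmt)
    (hS3 : Pool.Agent.Lib.TwinAll.S3Stmt) : BStmt := by
  classical
  intro m rho hm
  obtain ⟨K0, hMT⟩ := hMT
  set K := K0 + 1 with hKdef
  have hK : 0 < K := Nat.succ_pos _
  obtain ⟨r, c, hr0, hr⟩ := hRAM K 1 m one_pos hm
  obtain ⟨s, zs, hS3⟩ := hS3 K 1 one_pos
  obtain ⟨B, zs', hBs, hMT⟩ := hMT K 0 (s + 1) (by omega)
  -- the forms
  set L : ℕ := ∏ x ∈ univ.filter (fun x : Fin K × Fin K => x.1 < x.2), (r x.2 - r x.1) with hL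
  have hLpos : 0 < L := by
    apply prod_pos
    intro x hx
    rw [mem_filter] at hx
    have := (hr x.1 x.2 hx.2).1
    omega
  have hLdvd : ∀ i j : Fin K, i < j → (r j - r i) ∣ L := by
    intro i j hij
    exact dvd_prod_of_mem (fun x : Fin K × Fin K => r x.2 - r x.1)
      (show (i, j) ∈ univ.filter (fun x : Fin K × Fin K => x.1 < x.2) by
        rw [mem_filter]; exact ⟨mem_univ _, hij⟩)
  have hrinj : ∀ i j : Fin K, i ≠ j → r i ≠ r j := by
    intro i j hij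
    rcases lt_or_gt_of_ne hij with h | h
    · exact (hr i j h).1.ne
    · exact (hr j i h).1.ne'
  set D : ℕ := L + 2 * ∑ i, r i with hD
  obtain ⟨G0, hFIX⟩ := hFIX K 0 D
  set G : ℕ := m * (G0 + 1) + rho + c - 1 with hG
  have hmG : G0 + 1 ≤ m * (G0 + 1) := Nat.le_mul_of_pos_left _ hm
  obtain ⟨ws, hFIX⟩ := hFIX G (by omega)
  set w : ℕ := ws + zs + zs' + K + 2 with hw
  obtain ⟨Cw, hFIX⟩ := hFIX w (by omega)
  obtain ⟨U0, M, h, α, β, h', a', b', hM0, hMC, hU0, hj, hMF, _, hSF⟩ :=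
    hFIX (fun _ => (L : ℤ)) (fun j => 2 * (r j : ℤ)) (fun e => e.elim0) (fun e => e.elim0)
      (by
        intro j
        have h1 : r j ≤ ∑ i, r i := single_le_sum (fun _ _ => Nat.zero_le _) (mem_univ j)
        have h2 := hr0 j
        refine ⟨by exact_mod_cast hLpos, ?_, by positivity, ?_⟩
        · exact_mod_cast (by omega : L ≤ D)
        · exact_mod_cast (by omega : 2 * r j ≤ D))
      (by
        intro i j hij
        have h1 := hrinj i j hij
        intro he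
        have h2 : (L : ℤ) ≠ 0 := by exact_mod_cast hLpos.ne'
        have h3 := mul_left_cancel₀ h2 he
        apply h1
        have h4 : (r i : ℤ) = r j := by linarith
        exact_mod_cast h4)
      (fun e => e.elim0)
  obtain ⟨δ, z1, hδ, hMT⟩ := hMT w (by omega) Cw
  obtain ⟨z2, hS3⟩ := hS3 w (by omega) (B + 1)
  have hB : 0 < B := by omega
  obtain ⟨H1, hH1⟩ := exists_z B hB (z1 + z2 + Cw + L + 2)
  -- constants
  obtain ⟨A, hA⟩ := exists_nat_gt (3 * ((K : ℝ) ^ 2 / δ) ^ 4)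
  have hLM : ∀ j, (L : ℤ) * (M : ℤ) = h j * α j := fun j => (hj j).1
  have hLU : ∀ j, (L : ℤ) * (U0 : ℤ) + 2 * (r j : ℤ) = h j * β j := fun j => (hj j).2.1
  have hhj : ∀ j, 0 < h j ∧ h j ≤ Cw ∧ ArithmeticFunction.cardFactors (h j).toNat = G :=
    fun j => (hj j).2.2
  have hCw : 0 < Cw := by
    have := hhj ⟨0, hK⟩
    have h1 := this.1.trans_le this.2.1
    exact_mod_cast h1
  refine ⟨4 * Cw ^ 2 * (H1 + 1) + 8 * Cw ^ 2 * A + Cw + G + 1, fun N hN => ?_⟩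
  set H : ℕ := N / (4 * Cw ^ 2) with hH
  have hC4 : 0 < 4 * Cw ^ 2 := by positivity
  have hHH1 : H1 + 1 ≤ H := by
    rw [hH, Nat.le_div_iff_mul_le hC4]
    calc (H1 + 1) * (4 * Cw ^ 2) = 4 * Cw ^ 2 * (H1 + 1) := by ring
      _ ≤ N := by omega
  have hHN : 4 * Cw ^ 2 * H ≤ N := by rw [hH]; exact Nat.mul_div_le _ _
  have hNH : N < 4 * Cw ^ 2 * (H + 1) := by
    rw [hH]; exact Nat.lt_mul_div_succ _ hC4
  obtain ⟨z, hz, hzB, hzB'⟩ := hH1 H (by omega)
  have hHpos : 0 < H := by omega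
  have hHr : (0 : ℝ) < H := by exact_mod_cast hHpos
  have hKr : (0 : ℝ) < K := by exact_mod_cast hK
  have hmain := hMT z (by omega) α β a' b' hMF hSF H hzB hzB'
  rw [VV_append0] at hmain
  have hαq : ∀ j, ∀ q ∈ PP w z, ¬ ((q : ℤ) ∣ α j) := by
    intro j q hq hd
    unfold PP at hq
    rw [mem_filter, mem_Ioc] at hq
    have := hMF.large j q hq.2 hd
    omega
  have hV : 0 < VV w z α β := Pool.Agent.Lib.TwinAll.A81.VV_pos (by omega) hαq
  set V := VV w z α β with hVdef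
  obtain ⟨i, j, hij, T, hTF, hTp, hcard'⟩ := pigeon hK _
    (fun i U => Prime (α i * U + β i)) (δ * V * H) (by positivity)
    (fun U hU => (mem_filter.1 hU).2.2.2) hmain
  have hTI : ∀ U ∈ T, U ∈ Ioc (0 : ℤ) H ∧ ∀ j, Rough w z (α j * U + β j) := fun U hU =>
    ⟨(mem_filter.1 (hTF hU)).1, (mem_filter.1 (hTF hU)).2.1⟩
  clear hTF
  have hTsub : T ⊆ Ioc (0 : ℤ) H := fun U hU => (hTI U hU).1
  have hTpos : (0 : ℝ) < T.card := lt_of_lt_of_le (by positivity) hcard'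
  have hTne : T.Nonempty := card_pos.1 (by exact_mod_cast hTpos)
  obtain ⟨hrij, hdvd, hmod⟩ := hr i j hij
  have hd : 0 < r j - r i := by omega
  obtain ⟨ei, ej, hei, hej, heiC, hejC, hidi, hGi, hGj, hval⟩ :=
    pair_system (r := fun j => (r j : ℤ)) (z := z) hMF hLM hLU hhj i j (r j - r i) hd
      (by
        have := Nat.le_of_dvd hLpos (hLdvd i j hij)
        omega)
      (by push_cast [Nat.cast_sub hrij.le]; ring)
      (by exact_mod_cast hLdvd i j hij)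
      (by
        have : (r j - r i) ∣ r i := by simpa using hdvd
        exact_mod_cast this)
      T hTne
      (by
        intro V hV
        exact ⟨(mem_Ioc.1 (hTI V hV).1).1, (hTI V hV).2, hTp V hV⟩)
  obtain ⟨S, hScard, hS⟩ := sums_of (C := Cw) (g := ArithmeticFunction.cardFactors ei + 1) (H := H)
    (N := N) hei hej heiC hejC rfl (by omega) (hMF.pos i).1 (hMF.bd i).1 (hMF.bd i).2
    (by simpa using hMF.small i 2 Nat.prime_two (by omega)) T hTsub hHpos hval hHN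
  -- the energy
  have h4 := (hS3 z (by omega) α β
    (by
      intro j
      have hz1 : 1 ≤ z := by omega
      have hle : (Cw : ℤ) ≤ (z : ℤ) ^ (B + 1) := by
        have h1 : z ^ 1 ≤ z ^ (B + 1) := Nat.pow_le_pow_right hz1 (by omega)
        rw [pow_one] at h1
        have h2 : Cw ≤ z ^ (B + 1) := le_trans (by omega) h1
        exact_mod_cast h2
      refine ⟨?_, ?_, hαq j⟩
      · rw [abs_of_pos (hMF.pos j).1]
        exact (hMF.bd j).1.trans hle
      · exact (hMF.bd j).2.trans hle)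
    0 H (by rw [abs_zero]; positivity)
    (le_trans (Nat.pow_le_pow_right (by omega) (by omega)) hzB) hzB').2
  have hlow := card_sum_lower T H hTsub V hV (nu w z α β)
    (Pool.Agent.Lib.TwinAll.A81.nu_nonneg w z α β)
    (by
      intro n hn
      unfold nu
      rw [if_pos (hTI n hn).2])
    h4
  -- conclusion
  have hfin : (H : ℝ) ≤ A * (S.card : ℝ) := by
    rw [hScard]
    have e1 : (δ * V * H / (K : ℝ) ^ 2) ^ 4 ≤ (T.card : ℝ) ^ 4 :=
      pow_le_pow_left₀ (by positivity) hcard' 4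
    have e2 := e1.trans hlow
    have e3 : (δ * V * H / (K : ℝ) ^ 2) ^ 4 = (V ^ 4 * (H : ℝ) ^ 3) * ((δ / (K : ℝ) ^ 2) ^ 4 * H) := by
      field_simp
    have e4 : 3 * V ^ 4 * (H : ℝ) ^ 3 * ((T + T).card : ℝ) =
        (V ^ 4 * (H : ℝ) ^ 3) * (3 * ((T + T).card : ℝ)) := by ring
    rw [e3, e4] at e2
    have e5 := le_of_mul_le_mul_left e2 (by positivity)
    have e6 : (H : ℝ) = ((K : ℝ) ^ 2 / δ) ^ 4 * ((δ / (K : ℝ) ^ 2) ^ 4 * H) := by
      field_simp
    rw [e6]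
    calc ((K : ℝ) ^ 2 / δ) ^ 4 * ((δ / (K : ℝ) ^ 2) ^ 4 * H)
        ≤ ((K : ℝ) ^ 2 / δ) ^ 4 * (3 * ((T + T).card : ℝ)) :=
          mul_le_mul_of_nonneg_left e5 (by positivity)
      _ = 3 * ((K : ℝ) ^ 2 / δ) ^ 4 * ((T + T).card : ℝ) := by ring
      _ ≤ A * ((T + T).card : ℝ) := mul_le_mul_of_nonneg_right hA.le (Nat.cast_nonneg _)
  have hfinN : H ≤ A * S.card := by exact_mod_cast hfin
  refine ⟨ArithmeticFunction.cardFactors ei + 1, S, ?_, ?_, ?_, ?_⟩
  · omega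
  · -- the residue
    have h1 : ArithmeticFunction.cardFactors ei + 1 + ArithmeticFunction.cardFactors (r j - r i) =
        m * (G0 + 1) + (rho + c) := by omega
    have h2 : m * (G0 + 1) + (rho + c) ≡ rho + c [MOD m] := by
      simp [Nat.ModEq]
    have h3 : ArithmeticFunction.cardFactors ei + 1 +
        ArithmeticFunction.cardFactors (r j - r i) ≡ rho + c [MOD m] := by rw [h1]; exact h2
    exact Nat.ModEq.add_right_cancel hmod h3
  · calc N ≤ 4 * Cw ^ 2 * (H + 1) := hNH.le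
      _ ≤ 4 * Cw ^ 2 * (2 * H) := Nat.mul_le_mul_left _ (by omega)
      _ = 8 * Cw ^ 2 * H := by ring
      _ ≤ 8 * Cw ^ 2 * (A * S.card) := Nat.mul_le_mul_left _ hfinN
      _ = (8 * Cw ^ 2 * A) * S.card := by ring
      _ ≤ (4 * Cw ^ 2 * (H1 + 1) + 8 * Cw ^ 2 * A + Cw + G + 1) * S.card :=
          Nat.mul_le_mul_right _ (by omega)
  · intro n hn
    obtain ⟨h1, h2, a, b, ha, hb, hab, hx⟩ := hS n hn
    refine ⟨h1, h2, a, b, ha, hb, hab, fun x hx' => ?_⟩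
    obtain ⟨⟨d, p, h3, h4, h5, h6⟩, h7⟩ := hx x hx'
    exact ⟨⟨d, p, h3, h4, by omega, h6⟩, h7⟩

end Pool.Agent.Lib.MT2.T19
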