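import Pool.Agent.Lib.MT2.DispC42

/-!
MT2, module DISP (helper42): dispersion over the prime `p`.
-/

set_option autoImplicit false

namespace Pool.Agent.Lib.MT2

open Finset
open Pool.Agent.Lib.TwinAll

/-- the sup norm of one factor -/
theorem Ctx.sup {k K : ℕ} {z0 z C0 : ℕ} {a0 b0 : ℤ} {a : Fin k → ℤ} {α β : Fin K → ℤ}
    {J : Finset (Fin K)} (hC : Ctx z0 z C0 a0 b0 a α β J) {R X B : ℕ} {C1 : ℝ} (hC1 : 0 ≤ C1)
    {c : Cond K → ℝ} {d : Fin k → ℤ} (hW : Wt C1 X J c) {U : ℤ} (hU1 : 1 ≤ U)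
    (hU2 : C0 * U + C0 ≤ (z : ℤ) ^ B) :
    |wt z R c α β U * nuJ z0 z a0 b0 a d U - wmean z R c| ≤
      (wnorm z R c + 1) * ((C1 * 2 ^ (K * B) + 1) * (z : ℝ) ^ (k + 1)) := by
  have hwn := wnorm_nonneg z R c
  have hz2 : 2 ≤ z := by have := hC.zbig; omega
  have hz1 : (1 : ℝ) ≤ z := by exact_mod_cast (by omega : 1 ≤ z)
  have hzk : (1 : ℝ) ≤ (z : ℝ) ^ (k + 1) := one_le_pow₀ hz1
  have h1 : |wt z R c α β U| ≤ C1 * 2 ^ (K * B) := by
    refine wt_sup hz2 C1 hC1 c hW.bd α β U (fun j => ?_)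
    have e1 := (hC.mf.pos j).1
    have e2 := (hC.mf.pos j).2
    have e3 : α j ≤ α j * U := by nlinarith
    have e4 : 0 < α j * U + β j := by linarith
    refine ⟨ne_of_gt e4, ?_⟩
    rw [abs_of_pos e4]
    have e5 : α j * U ≤ C0 * U := mul_le_mul_of_nonneg_right (hC.mf.bd j).1 (by linarith)
    have e6 : β j ≤ C0 := (le_abs_self _).trans (hC.mf.bd j).2
    linarith
  have h2 : |nuJ z0 z a0 b0 a d U| ≤ (z : ℝ) ^ (k + 1) := by
    classical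
    obtain ⟨g1, g2⟩ := hC.VJ_ok d
    have hz01 : 1 ≤ z0 := by have := hC.z0k; omega
    have hV := V1_pos' (z := z) hz01
    have hV1 : V1 z0 z ≤ 1 := VV_le_one _ _ _ _
    unfold nuJ
    split_ifs
    · rw [abs_of_nonneg (by positivity), div_eq_mul_inv]
      calc V1 z0 z * (VJ z0 z a0 b0 a d)⁻¹ ≤ 1 * (z : ℝ) ^ (k + 1) :=
            mul_le_mul hV1 g2 (by positivity) (by norm_num)
        _ = _ := one_mul _
    · rw [abs_zero]; positivity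
  have h3 := wmean_le z R c
  have h4 : 0 ≤ C1 * 2 ^ (K * B) := by positivity
  calc |wt z R c α β U * nuJ z0 z a0 b0 a d U - wmean z R c|
      ≤ |wt z R c α β U * nuJ z0 z a0 b0 a d U| + |wmean z R c| := abs_sub _ _
    _ ≤ (C1 * 2 ^ (K * B)) * (z : ℝ) ^ (k + 1) + wnorm z R c := by
        rw [abs_mul]
        exact add_le_add (mul_le_mul h1 h2 (abs_nonneg _) h4) h3
    _ ≤ 1 * ((C1 * 2 ^ (K * B)) * (z : ℝ) ^ (k + 1)) + wnorm z R c * (z : ℝ) ^ (k + 1) := by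
        have := mul_le_mul_of_nonneg_left hzk hwn
        linarith
    _ ≤ _ := by
        have e1 : 0 ≤ wnorm z R c * ((C1 * 2 ^ (K * B)) * (z : ℝ) ^ (k + 1)) := by positivity
        have e2 : 0 ≤ (z : ℝ) ^ (k + 1) := by positivity
        nlinarith

theorem card_PP_dyadic (Y : ℕ) : (PP Y (2 * Y)).card ≤ Y := by
  unfold PP
  refine (Finset.card_filter_le _ _).trans ?_
  rw [Nat.card_Ioc]; omega

/-- the final numerical inequality -/
theorem final_ineq (t : ℕ) (A m L E w2 η ε Sg N0 : ℝ) (hm : 0 ≤ m)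
    (hw2 : 0 ≤ w2) (hη : η = (1 / 2) ^ (t + 11)) (hε : ε = (1 / 2) ^ (t + 7))
    (hL : L ≤ 2 * m) (hL0 : 0 ≤ L) (hE : E ≤ 3 * η * m) (hE0 : 0 ≤ E)
    (hSg : Sg ≤ ε * (2 * A) ^ 2) (hN : N0 ≤ (6 * A) ^ 2) :
    w2 * (Sg * (L + E) + N0 * (4 * E)) ≤ (1 / 2) ^ (t + 1) * w2 * A ^ 2 * m := by
  have hη1 : η ≤ 1 := by rw [hη]; exact pow_le_one₀ (by norm_num) (by norm_num)
  have hη0 : 0 ≤ η := by rw [hη]; positivity
  have hT : (0 : ℝ) ≤ (1 / 2) ^ t := by positivity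
  have hη' : η = (1 / 2) ^ t / 2048 := by rw [hη, pow_add]; norm_num; ring
  have hε' : ε = (1 / 2) ^ t / 128 := by rw [hε, pow_add]; norm_num; ring
  have h1 : Sg * (L + E) ≤ (ε * (2 * A) ^ 2) * (5 * m) := by
    have e1 : L + E ≤ 5 * m := by nlinarith
    have e2 : 0 ≤ L + E := by linarith
    have e3 : 0 ≤ ε * (2 * A) ^ 2 := by rw [hε]; positivity
    exact mul_le_mul hSg e1 e2 e3
  have h2 : N0 * (4 * E) ≤ (6 * A) ^ 2 * (4 * (3 * η * m)) :=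
    mul_le_mul hN (by linarith) (by linarith) (by positivity)
  have h3 : (ε * (2 * A) ^ 2) * (5 * m) + (6 * A) ^ 2 * (4 * (3 * η * m)) ≤
      (1 / 2) ^ (t + 1) * A ^ 2 * m := by
    have h4 : 0 ≤ (1 / 2 : ℝ) ^ t * A ^ 2 * m := by positivity
    have h5 : (ε * (2 * A) ^ 2) * (5 * m) + (6 * A) ^ 2 * (4 * (3 * η * m)) =
        (20 / 128 + 432 / 2048) * ((1 / 2 : ℝ) ^ t * A ^ 2 * m) := by
      rw [hη', hε']; ring
    have h6 : (1 / 2 : ℝ) ^ (t + 1) * A ^ 2 * m = 1 / 2 * ((1 / 2 : ℝ) ^ t * A ^ 2 * m) := by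
      rw [pow_succ (1 / 2 : ℝ) t]; ring
    rw [h5, h6]
    exact mul_le_mul_of_nonneg_right (by norm_num) h4
  calc w2 * (Sg * (L + E) + N0 * (4 * E)) ≤ w2 * ((1 / 2) ^ (t + 1) * A ^ 2 * m) :=
        mul_le_mul_of_nonneg_left (by linarith) hw2
    _ = _ := by ring

theorem disp_42 (hEV2 : EV2Stmt) (hEV1 : EV1Stmt) (hS2 : S2rStmt) (hS5 : S5kStmt) :
    DISPStmt := by
  classical
  intro k K
  obtain ⟨s2, zs2, h2⟩ := hEV2 (k + k + 1) K
  obtain ⟨s1, zs1, h1⟩ := hEV1 (k + 1) K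
  obtain ⟨s3, zs3, h3⟩ := hS2 1
  obtain ⟨s5, h5⟩ := hS5 k
  obtain ⟨s, hs⟩ : ∃ s, s = max s2 (max s1 s3) := ⟨_, rfl⟩
  have hs2 : s2 ≤ s := by rw [hs]; exact le_max_left _ _
  have hs1 : s1 ≤ s := by rw [hs]; exact (le_max_left _ _).trans (le_max_right _ _)
  have hs3 : s3 ≤ s := by rw [hs]; exact (le_max_right _ _).trans (le_max_right _ _)
  refine ⟨12 * s + 1, max s5 (2 * k + 7), fun t => ?_⟩
  obtain ⟨zs5, h5⟩ := h5 ((1 / 2) ^ (t + 7)) (by positivity)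
  refine ⟨max (max zs2 zs1) (max (max zs3 zs5) (2 * k + 1)), fun z0 hz0 b B C0 C1 => ?_⟩
  simp only [max_le_iff] at hz0
  obtain ⟨⟨hzs2, hzs1⟩, ⟨hzs3, hzs5⟩, hz0k⟩ := hz0
  obtain ⟨w2, hw2⟩ := h2 (t + 11) z0 hzs2 b (2 + K * K * (B + 1)) C1
  obtain ⟨w1, hw1⟩ := h1 (t + 11) z0 hzs1 b 1 C1
  obtain ⟨w5, hw5⟩ := h5 z0 hzs5 (B + 1) C0
  obtain ⟨Z, hZ⟩ : ∃ Z : ℕ, (2 : ℝ) ^ (t + 1) * (C0 : ℝ) ^ 3 *
    (C1 * 2 ^ (K * (B + 1)) + 1) ^ 2 ≤ Z := exists_nat_ge _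
  refine ⟨max (max (max w2 w1) (max w5 z0)) (max (8 * C0 ^ 3 + C0 ^ 2 + 4 * C0 + 2)
    (max Z (2 ^ (t + 11) * C0))), ?_⟩
  intro z hz R X hR hX a0 b0 a d ha0 ha0C hb0 hcop hsm hSF α β J c hMF hdet hW Y M hY hYM hXM
    cl m0 n0 n1 hcl hn0
  simp only [max_le_iff] at hz
  obtain ⟨⟨⟨hzw2, hzw1⟩, hzw5, hzz0⟩, hzC, hzZ, hzt⟩ := hz
  have hC1 : 0 ≤ C1 := (abs_nonneg _).trans (hW.bd ∅)
  have hV := V1_pos' (z := z) (by omega : 1 ≤ z0)
  have hwn := wnorm_nonneg z R c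
  have ha0R : (0 : ℝ) < a0 := by exact_mod_cast ha0
  -- the trivial case
  rcases Nat.eq_zero_or_pos X with hX0 | hX1
  · have hc0 : ∀ D ∈ (PI z R K).powerset, c D = 0 := by
      intro D hD
      by_contra hcD
      have e1 := hW.lev D hcD
      rw [hX0] at e1
      have e2 : 0 < md D := by
        unfold md
        refine Finset.prod_pos (fun x hx => ?_)
        have := (Finset.mem_powerset.1 hD) hx
        unfold PI at this
        rw [Finset.mem_product] at this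
        exact (PP_prime this.1).pos
      omega
    have hwt : ∀ U, wt z R c α β U = 0 := by
      intro U
      unfold wt
      refine Finset.sum_eq_zero (fun D hD => ?_)
      rw [hc0 D hD, zero_mul]
    have hwm : wmean z R c = 0 := by
      unfold wmean
      refine Finset.sum_eq_zero (fun D hD => ?_)
      rw [hc0 D hD, zero_div]
    have hz : ∑ m ∈ (Ioc (0 : ℤ) M).filter (fun m => a0 ∣ m - m0),
        nu z0 z (![1] : Fin 1 → ℤ) ![0] m *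
        (∑ p ∈ (PP Y (2 * Y)).filter (fun p : ℕ => a0 ∣ (p : ℤ) - cl ∧ n0 < p * m ∧ p * m ≤ n1),
          (wt z R c α β (((p : ℤ) * m - b0) / a0) * nuJ z0 z a0 b0 a d (((p : ℤ) * m - b0) / a0) -
            wmean z R c)) ^ 2 = 0 := by
      refine Finset.sum_eq_zero (fun m _ => ?_)
      rw [Finset.sum_eq_zero (fun p _ => by rw [hwt, hwm]; ring)]
      ring
    rw [hz]
    positivity
  -- the context
  have hC : Ctx z0 z C0 a0 b0 a α β J :=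
    ⟨hz0k, hzz0, by omega, ha0, ha0C, hb0, hsm, hSF, hMF, hdet⟩
  have hz2 : 2 ≤ z := by omega
  have hz1 : 1 ≤ z := by omega
  have hz0R : (0 : ℝ) < z := by exact_mod_cast (by omega : 0 < z)
  have hC0 : 1 ≤ C0 := by
    have : (1 : ℤ) ≤ C0 := by linarith
    exact_mod_cast this
  have mono : ∀ s' : ℕ, s' ≤ s → (z : ℝ) ^ (s' * (t + 11 + 1)) ≤ (z : ℝ) ^ (s * (t + 11 + 1)) := by
    intro s' hs'
    exact pow_le_pow_right₀ (by exact_mod_cast hz1) (Nat.mul_le_mul_right _ hs')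
  have g2 : Ev2At (k + k + 1) K s (t + 11) z0 b (2 + K * K * (B + 1)) C1 z := by
    intro R X hR hX A B hAB α β J c c' hc hc' μ ν μ' ν' Exc hE c1 c2 c3 u H
    refine (hw2 z hzw2 R X hR hX A B hAB α β J c c' hc hc' μ ν μ' ν' Exc hE c1 c2 c3 u H).trans ?_
    have := mul_le_mul_of_nonneg_left (mono s2 hs2) (by positivity : (0 : ℝ) ≤ (X : ℝ) ^ 2)
    linarith
  have g1 : Ev1At (k + 1) K s (t + 11) z0 b 1 C1 z := by
    intro R X hR hX A B hAB α β J c hc μ ν Exc hE c1 c2 u H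
    refine (hw1 z hzw1 R X hR hX A B hAB α β J c hc μ ν Exc hE c1 c2 u H).trans ?_
    have := mul_le_mul_of_nonneg_left (mono s1 hs1) (by positivity : (0 : ℝ) ≤ (X : ℝ))
    linarith
  have g3 : S2At s (t + 11) z0 z := by
    intro a b hab u H
    have g := h3 (t + 11) z0 hzs3 z hzz0 a b hab 1 one_pos (by
      intro q hq hd
      have := (PP_prime hq).two_le
      have := Nat.dvd_one.1 hd
      omega) 0 u H
    have e : (Ioc u (u + H)).filter (fun n => ((1 : ℕ) : ℤ) ∣ n - 0) = Ioc u (u + H) := by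
      refine Finset.filter_true_of_mem (fun n _ => ?_)
      simp
    rw [e] at g
    have e2 : ((H : ℝ) / ((1 : ℕ) : ℝ)) = H := by simp
    rw [e2] at g
    refine g.trans ?_
    have := mono s3 hs3
    linarith
  -- sizes
  have hM1 : z ^ ((12 * s + 1) * (t + 1)) ≤ M := by
    refine le_trans ?_ hXM
    calc z ^ ((12 * s + 1) * (t + 1)) = 1 * z ^ ((12 * s + 1) * (t + 1)) := (one_mul _).symm
      _ ≤ X ^ 2 * z ^ ((12 * s + 1) * (t + 1)) :=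
          Nat.mul_le_mul_right _ (Nat.one_le_pow _ _ hX1)
  have hzM : z ≤ M := by
    calc z = z ^ 1 := (pow_one z).symm
      _ ≤ z ^ ((12 * s + 1) * (t + 1)) := Nat.pow_le_pow_right hz1 (by nlinarith)
      _ ≤ M := hM1
  have hM0 : 1 ≤ M := hz1.trans hzM
  have hYB : Y ≤ z ^ B := by
    calc Y = Y * 1 := (mul_one _).symm
      _ ≤ Y * M := Nat.mul_le_mul_left _ hM0
      _ ≤ z ^ B := hYM
  have hYs5 : z ^ s5 ≤ Y := (Nat.pow_le_pow_right hz1 (le_max_left _ _)).trans hY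
  have hYk : z ^ (2 * k + 7) ≤ Y := (Nat.pow_le_pow_right hz1 (le_max_right _ _)).trans hY
  have hzY : z ≤ Y := by
    calc z = z ^ 1 := (pow_one z).symm
      _ ≤ z ^ (2 * k + 7) := Nat.pow_le_pow_right hz1 (by omega)
      _ ≤ Y := hYk
  have hY0 : (0 : ℝ) < Y := by exact_mod_cast (by omega : 0 < Y)
  have hM0R : (0 : ℝ) < M := by exact_mod_cast (by omega : 0 < M)
  -- the primes
  obtain ⟨Ps, hPs⟩ : ∃ Ps : Finset ℕ,
      Ps = (PP Y (2 * Y)).filter (fun p : ℕ => a0 ∣ (p : ℤ) - cl) := ⟨_, rfl⟩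
  obtain ⟨Ms, hMs⟩ : ∃ Ms : Finset ℤ,
      Ms = (Ioc (0 : ℤ) M).filter (fun m => a0 ∣ m - m0) := ⟨_, rfl⟩
  obtain ⟨F, hF⟩ : ∃ F : ℕ → ℤ → ℝ, F = fun (p : ℕ) (m : ℤ) =>
      wt z R c α β (((p : ℤ) * m - b0) / a0) * nuJ z0 z a0 b0 a d (((p : ℤ) * m - b0) / a0) -
            wmean z R c := ⟨_, rfl⟩
  obtain ⟨n, hn⟩ : ∃ n : ℤ → ℝ, n = fun m => nu z0 z (![1] : Fin 1 → ℤ) ![0] m := ⟨_, rfl⟩
  have hLHS : ∑ m ∈ (Ioc (0 : ℤ) M).filter (fun m => a0 ∣ m - m0),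
        nu z0 z (![1] : Fin 1 → ℤ) ![0] m *
        (∑ p ∈ (PP Y (2 * Y)).filter (fun p : ℕ => a0 ∣ (p : ℤ) - cl ∧ n0 < p * m ∧ p * m ≤ n1),
          (wt z R c α β (((p : ℤ) * m - b0) / a0) * nuJ z0 z a0 b0 a d (((p : ℤ) * m - b0) / a0) -
            wmean z R c)) ^ 2 =
      ∑ p ∈ Ps, ∑ p' ∈ Ps, ∑ m ∈ Ms.filter (fun m => (n0 < p * m ∧ p * m ≤ n1) ∧
        (n0 < p' * m ∧ p' * m ≤ n1)), n m * F p m * F p' m := by
    rw [← sq_expand Ms Ps n F (fun p m => n0 < p * m ∧ p * m ≤ n1), hMs, hn, hF, hPs]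
    refine Finset.sum_congr rfl (fun m _ => ?_)
    rw [Finset.filter_filter]
  rw [hLHS]
  have hPsP : ∀ p ∈ Ps, p.Prime ∧ z < p ∧ p ≤ 2 * Y ∧ a0 ∣ (p : ℤ) - cl := by
    intro p hp
    rw [hPs, Finset.mem_filter] at hp
    have e1 := PP_lt hp.1
    exact ⟨PP_prime hp.1, by omega, PP_le hp.1, hp.2⟩
  have hdvd : ∀ p ∈ Ps, a0 ∣ p * m0 - b0 := by
    intro p hp
    have e : (p : ℤ) * m0 - b0 = ((p : ℤ) - cl) * m0 + (cl * m0 - b0) := by ring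
    rw [e]
    exact dvd_add (Dvd.dvd.mul_right (hPsP p hp).2.2.2 _) hcl
  -- off-diagonal terms
  obtain ⟨L0, hL0⟩ : ∃ L0 : ℝ, L0 = (M : ℝ) / a0 + 1 := ⟨_, rfl⟩
  obtain ⟨E0, hE0⟩ : ∃ E0 : ℝ, E0 = (1 / 2) ^ (t + 11) * L0 +
    (X : ℝ) ^ 2 * (z : ℝ) ^ (s * (t + 11 + 1)) := ⟨_, rfl⟩
  have hL00 : 0 ≤ L0 := by rw [hL0]; positivity
  have hE00 : 0 ≤ E0 := by rw [hE0]; positivity
  have off : ∀ p ∈ Ps, ∀ p' ∈ Ps, p ≠ p' →
      ∑ m ∈ Ms.filter (fun m => (n0 < p * m ∧ p * m ≤ n1) ∧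
        (n0 < p' * m ∧ p' * m ≤ n1)), n m * F p m * F p' m ≤
      (wnorm z R c + 1) ^ 2 * (|SS2 z0 z a0 b0 a d p p' - 1| * (L0 + E0) + 4 * E0) := by
    intro p hp p' hp' hne
    obtain ⟨p1, p2, p3, -⟩ := hPsP p hp
    obtain ⟨p1', p2', p3', -⟩ := hPsP p' hp'
    obtain ⟨u, hu⟩ := hdvd p hp
    obtain ⟨u', hu'⟩ := hdvd p' hp'
    obtain ⟨v, L, hL, hI⟩ := range_pair a0 m0 n0 n1 M p p' ha0 p1.pos p1'.pos
    rw [hMs, ← hI, sum_image_aff a0 m0 ha0]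
    have hb : 2 * C0 ^ 3 * (p + p') ≤ z ^ (B + 1) := by
      calc 2 * C0 ^ 3 * (p + p') ≤ 2 * C0 ^ 3 * (4 * Y) := Nat.mul_le_mul_left _ (by omega)
        _ = (8 * C0 ^ 3) * Y := by ring
        _ ≤ z * z ^ B := Nat.mul_le_mul (by omega) hYB
        _ = z ^ (B + 1) := by ring
    have g := off_pair (d := d) hC hR hX hX1 hW g2 g1 g3 p1 p2 p1' p2' hne hb hu.symm hu'.symm v L
    have e : ∀ x : ℤ, n (m0 + a0 * x) * F p (m0 + a0 * x) * F p' (m0 + a0 * x) =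
        nu z0 z (![1] : Fin 1 → ℤ) ![0] (m0 + a0 * x) *
        (wt z R c α β (p * x + u) * nuJ z0 z a0 b0 a d (p * x + u) - wmean z R c) *
        (wt z R c α β (p' * x + u') * nuJ z0 z a0 b0 a d (p' * x + u') - wmean z R c) := by
      intro x
      have e1 : ((p : ℤ) * (m0 + a0 * x) - b0) / a0 = p * x + u := by
        have : (p : ℤ) * (m0 + a0 * x) - b0 = a0 * (p * x + u) := by linear_combination hu
        rw [this, Int.mul_ediv_cancel_left _ (ne_of_gt ha0)]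
      have e2 : ((p' : ℤ) * (m0 + a0 * x) - b0) / a0 = p' * x + u' := by
        have : (p' : ℤ) * (m0 + a0 * x) - b0 = a0 * (p' * x + u') := by linear_combination hu'
        rw [this, Int.mul_ediv_cancel_left _ (ne_of_gt ha0)]
      rw [hn, hF]
      simp only [e1, e2]
    rw [Finset.sum_congr rfl (fun x _ => e x)]
    refine (le_abs_self _).trans (g.trans ?_)
    have hLL : (L : ℝ) ≤ L0 := by rw [hL0]; exact hL
    have hEE : (1 / 2) ^ (t + 11) * (L : ℝ) + (X : ℝ) ^ 2 * (z : ℝ) ^ (s * (t + 11 + 1)) ≤ E0 := by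
      rw [hE0]
      have := mul_le_mul_of_nonneg_left hLL (by positivity : (0 : ℝ) ≤ (1 / 2) ^ (t + 11))
      linarith
    refine mul_le_mul_of_nonneg_left ?_ (by positivity)
    have e3 := mul_le_mul_of_nonneg_left (add_le_add hLL hEE)
      (abs_nonneg (SS2 z0 z a0 b0 a d p p' - 1))
    linarith
  -- diagonal terms
  obtain ⟨Sw, hSw⟩ : ∃ Sw : ℝ, Sw = C1 * 2 ^ (K * (B + 1)) + 1 := ⟨_, rfl⟩
  have hSw0 : 0 ≤ Sw := by rw [hSw]; positivity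
  have diag : ∀ p ∈ Ps,
      ∑ m ∈ Ms.filter (fun m => (n0 < p * m ∧ p * m ≤ n1) ∧
        (n0 < p * m ∧ p * m ≤ n1)), n m * F p m * F p m ≤
      (wnorm z R c + 1) ^ 2 * (M * (Sw ^ 2 * (z : ℝ) ^ (2 * k + 3))) := by
    intro p hp
    obtain ⟨p1, p2, p3, -⟩ := hPsP p hp
    obtain ⟨u, hu⟩ := hdvd p hp
    have h6 : ∀ m ∈ Ms.filter (fun m => (n0 < p * m ∧ p * m ≤ n1) ∧
        (n0 < p * m ∧ p * m ≤ n1)), n m * F p m * F p m ≤
        (wnorm z R c + 1) ^ 2 * (Sw ^ 2 * (z : ℝ) ^ (2 * k + 3)) := by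
      intro m hm
      rw [hMs, Finset.mem_filter, Finset.mem_filter, Finset.mem_Ioc] at hm
      obtain ⟨⟨⟨m1, m2⟩, m3⟩, ⟨m4, -⟩, -⟩ := hm
      have e1 : a0 ∣ p * m - b0 := by
        have e : (p : ℤ) * m - b0 = p * (m - m0) + (p * m0 - b0) := by ring
        rw [e]
        exact dvd_add (Dvd.dvd.mul_left m3 _) (hdvd p hp)
      obtain ⟨U, hU⟩ := e1
      have e2 : ((p : ℤ) * m - b0) / a0 = U := by
        rw [hU, Int.mul_ediv_cancel_left _ (ne_of_gt ha0)]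
      have e3 := abs_le.1 hb0
      have e4 : 0 < a0 * U := by rw [← hU]; linarith
      have e5 : 1 ≤ U := by
        have := pos_of_mul_pos_right e4 ha0.le
        omega
      have e6 : U ≤ a0 * U := by nlinarith
      have e7 : (p : ℤ) * m ≤ 2 * (z : ℤ) ^ B := by
        have e8 : (p : ℤ) * m ≤ (2 * Y : ℤ) * M :=
          mul_le_mul (by exact_mod_cast p3) m2 (by linarith) (by positivity)
        have e9 : ((Y : ℤ) * M) ≤ (z : ℤ) ^ B := by exact_mod_cast hYM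
        linarith
      have e8 : (C0 : ℤ) * U + C0 ≤ (z : ℤ) ^ (B + 1) := by
        have e9 : U ≤ 2 * (z : ℤ) ^ B + C0 := by linarith [e3.1]
        have e10 : (C0 : ℤ) * U ≤ C0 * (2 * (z : ℤ) ^ B + C0) :=
          mul_le_mul_of_nonneg_left e9 (by positivity)
        have e11 : (1 : ℤ) ≤ (z : ℤ) ^ B := one_le_pow₀ (by exact_mod_cast hz1)
        have e12 : (C0 : ℤ) ^ 2 + 4 * C0 ≤ z := by
          have : C0 ^ 2 + 4 * C0 ≤ z := by omega
          exact_mod_cast this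
        have e13 : (0 : ℤ) ≤ C0 := by positivity
        have e14 : (C0 : ℤ) * (2 * (z : ℤ) ^ B + C0) + C0 ≤
            ((C0 : ℤ) ^ 2 + 4 * C0) * (z : ℤ) ^ B := by nlinarith
        calc (C0 : ℤ) * U + C0 ≤ ((C0 : ℤ) ^ 2 + 4 * C0) * (z : ℤ) ^ B := by linarith
          _ ≤ z * (z : ℤ) ^ B := mul_le_mul_of_nonneg_right e12 (by positivity)
          _ = (z : ℤ) ^ (B + 1) := by ring
      have e9 := hC.sup (R := R) (d := d) hC1 hW e5 e8
      have e10 : |F p m| ≤ (wnorm z R c + 1) * (Sw * (z : ℝ) ^ (k + 1)) := by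
        rw [hF, hSw]
        simp only [e2]
        exact e9
      have e11 : 0 ≤ n m ∧ n m ≤ z := by
        rw [hn]
        have a1 : ∀ j : Fin 1, ∀ q ∈ PP z0 z, ¬ ((q : ℤ) ∣ (![1] : Fin 1 → ℤ) j) := by
          intro j q hq
          fin_cases j
          exact not_dvd_one q hq
        refine ⟨nu_nonneg (by omega) _ _ a1 m, ?_⟩
        have e12 := (nu_le (by omega) _ _ a1 m).trans
          (VV_inv_le (z0 := z0) (z := z) (k := 1) (by omega) hzz0 ![1] ![0] a1)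
        simpa using e12
      have e12 : F p m * F p m ≤ ((wnorm z R c + 1) * (Sw * (z : ℝ) ^ (k + 1))) ^ 2 := by
        rw [← pow_two, ← sq_abs]
        exact pow_le_pow_left₀ (abs_nonneg _) e10 2
      calc n m * F p m * F p m = n m * (F p m * F p m) := by ring
        _ ≤ z * ((wnorm z R c + 1) * (Sw * (z : ℝ) ^ (k + 1))) ^ 2 :=
            mul_le_mul e11.2 e12 (mul_self_nonneg _) hz0R.le
        _ = _ := by ring
    refine (Finset.sum_le_sum h6).trans ?_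
    rw [Finset.sum_const, nsmul_eq_mul]
    have h7 : ((Ms.filter (fun m => (n0 < p * m ∧ p * m ≤ n1) ∧
        (n0 < p * m ∧ p * m ≤ n1))).card : ℝ) ≤ M := by
      have h8 : (Ms.filter (fun m => (n0 < p * m ∧ p * m ≤ n1) ∧
        (n0 < p * m ∧ p * m ≤ n1))).card ≤ M := by
        refine (Finset.card_filter_le _ _).trans ?_
        rw [hMs]
        refine (Finset.card_filter_le _ _).trans ?_
        rw [Int.card_Ioc]; simp
      exact_mod_cast h8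
    have h8 : 0 ≤ (wnorm z R c + 1) ^ 2 * (Sw ^ 2 * (z : ℝ) ^ (2 * k + 3)) := by positivity
    calc _ ≤ (M : ℝ) * ((wnorm z R c + 1) ^ 2 * (Sw ^ 2 * (z : ℝ) ^ (2 * k + 3))) :=
          mul_le_mul_of_nonneg_right h7 h8
      _ = _ := by ring
  -- S5
  lift a0 to ℕ using ha0.le with W
  have hW0 : 0 < W := by exact_mod_cast ha0
  have hWC : W ≤ C0 := by exact_mod_cast ha0C
  have hWR : (0 : ℝ) < W := by exact_mod_cast hW0
  obtain ⟨s5a, s5b⟩ := hw5 z hzw5 a (fun j => (W : ℤ) * d j - a j * b0)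
    (fun j => not_dvd_of_coprime (coprime_of_small (hSF.large j))) W hW0 hWC (by
      intro q hq hd
      have := not_dvd_of_coprime hC.copa0 q hq
      exact this (by exact_mod_cast hd)) cl (2 * Y) (hYs5.trans (by omega)) (by
      calc 2 * Y ≤ z * z ^ B := Nat.mul_le_mul hz2 hYB
        _ = z ^ (B + 1) := by ring)
  obtain ⟨Qs, hQs⟩ : ∃ Qs : Finset ℕ,
      Qs = (PP z (2 * Y)).filter (fun p : ℕ => (W : ℤ) ∣ (p : ℤ) - cl) := ⟨_, rfl⟩
  rw [← hQs] at s5a s5b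
  have hPQ : Ps ⊆ Qs := by
    rw [hPs, hQs]
    exact Finset.filter_subset_filter _ (PP_anti hzY)
  obtain ⟨A, hA⟩ : ∃ A : ℝ, A = V1 z0 z * Y / W := ⟨_, rfl⟩
  have hA0 : 0 ≤ A := by rw [hA]; positivity
  have hcard : (Ps.card : ℝ) ≤ 6 * A := by
    have e1 : (Ps.card : ℝ) ≤ Qs.card := by exact_mod_cast Finset.card_le_card hPQ
    refine (e1.trans s5a).trans (le_of_eq ?_)
    rw [hA]; push_cast; ring
  obtain ⟨Sg, hSg⟩ : ∃ Sg : ℝ, Sg = ∑ p ∈ Ps, ∑ p' ∈ Ps.erase p,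
    |SS2 z0 z (W : ℤ) b0 a d p p' - 1| := ⟨_, rfl⟩
  have hSgle : Sg ≤ (1 / 2) ^ (t + 7) * (2 * A) ^ 2 := by
    have e1 : Sg ≤ ∑ p ∈ Qs, ∑ p' ∈ Qs.erase p, |SS2 z0 z (W : ℤ) b0 a d p p' - 1| := by
      rw [hSg]
      calc ∑ p ∈ Ps, ∑ p' ∈ Ps.erase p, |SS2 z0 z (W : ℤ) b0 a d p p' - 1|
          ≤ ∑ p ∈ Ps, ∑ p' ∈ Qs.erase p, |SS2 z0 z (W : ℤ) b0 a d p p' - 1| :=
            Finset.sum_le_sum (fun p _ => Finset.sum_le_sum_of_subset_of_nonneg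
              (Finset.erase_subset_erase _ hPQ) (fun _ _ _ => abs_nonneg _))
        _ ≤ _ := Finset.sum_le_sum_of_subset_of_nonneg hPQ
            (fun _ _ _ => Finset.sum_nonneg (fun _ _ => abs_nonneg _))
    refine (e1.trans s5b).trans (le_of_eq ?_)
    rw [hA]; push_cast; ring
  -- summation
  have hsum : ∑ p ∈ Ps, ∑ p' ∈ Ps, ∑ m ∈ Ms.filter (fun m => (n0 < p * m ∧ p * m ≤ n1) ∧
        (n0 < p' * m ∧ p' * m ≤ n1)), n m * F p m * F p' m ≤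
      (Ps.card : ℝ) * ((wnorm z R c + 1) ^ 2 * (M * (Sw ^ 2 * (z : ℝ) ^ (2 * k + 3)))) +
      (wnorm z R c + 1) ^ 2 * (Sg * (L0 + E0) + (Ps.card : ℝ) ^ 2 * (4 * E0)) := by
    have e1 : ∀ p ∈ Ps, ∑ p' ∈ Ps, ∑ m ∈ Ms.filter (fun m => (n0 < p * m ∧ p * m ≤ n1) ∧
        (n0 < p' * m ∧ p' * m ≤ n1)), n m * F p m * F p' m ≤
        (wnorm z R c + 1) ^ 2 * (M * (Sw ^ 2 * (z : ℝ) ^ (2 * k + 3))) +
        (wnorm z R c + 1) ^ 2 * ((∑ p' ∈ Ps.erase p, |SS2 z0 z (W : ℤ) b0 a d p p' - 1|) *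
          (L0 + E0) + (Ps.card : ℝ) * (4 * E0)) := by
      intro p hp
      rw [← Finset.add_sum_erase _ _ hp]
      refine add_le_add (diag p hp) ?_
      have e2 : ∀ p' ∈ Ps.erase p, ∑ m ∈ Ms.filter (fun m => (n0 < p * m ∧ p * m ≤ n1) ∧
          (n0 < p' * m ∧ p' * m ≤ n1)), n m * F p m * F p' m ≤
          (wnorm z R c + 1) ^ 2 * (|SS2 z0 z (W : ℤ) b0 a d p p' - 1| * (L0 + E0) + 4 * E0) := by
        intro p' hp'
        rw [Finset.mem_erase] at hp'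
        exact off p hp p' hp'.2 (Ne.symm hp'.1)
      refine (Finset.sum_le_sum e2).trans ?_
      rw [← Finset.mul_sum, Finset.sum_add_distrib, ← Finset.sum_mul, Finset.sum_const,
        nsmul_eq_mul]
      refine mul_le_mul_of_nonneg_left ?_ (by positivity)
      have e3 : ((Ps.erase p).card : ℝ) ≤ Ps.card := by
        exact_mod_cast Finset.card_le_card (Finset.erase_subset _ _)
      have e4 := mul_le_mul_of_nonneg_right e3 (by linarith : (0 : ℝ) ≤ 4 * E0)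
      linarith
    refine (Finset.sum_le_sum e1).trans (le_of_eq ?_)
    rw [Finset.sum_add_distrib, Finset.sum_const, nsmul_eq_mul, ← Finset.mul_sum,
      Finset.sum_add_distrib, ← Finset.sum_mul, ← hSg, Finset.sum_const, nsmul_eq_mul]
    ring
  refine hsum.trans ?_
  have hLle : L0 ≤ 2 * ((M : ℝ) / W) := by
    rw [hL0]
    have e1 : (1 : ℝ) ≤ (M : ℝ) / W := by
      rw [le_div_iff₀ hWR]
      have : W ≤ M := hWC.trans ((by
        have : C0 ≤ 8 * C0 ^ 3 + C0 ^ 2 + 4 * C0 + 2 := by nlinarith [Nat.zero_le (C0 ^ 3)]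
        exact this.trans hzC : C0 ≤ z).trans hzM)
      have : (W : ℝ) ≤ M := by exact_mod_cast this
      linarith
    push_cast
    linarith
  have hEle : E0 ≤ 3 * (1 / 2) ^ (t + 11) * ((M : ℝ) / W) := by
    have e1 : (X : ℝ) ^ 2 * (z : ℝ) ^ (s * (t + 11 + 1)) ≤ (1 / 2) ^ (t + 11) * ((M : ℝ) / W) := by
      have e2 : X ^ 2 * z ^ (s * (t + 11 + 1)) * (2 ^ (t + 11) * C0) ≤ M := by
        calc X ^ 2 * z ^ (s * (t + 11 + 1)) * (2 ^ (t + 11) * C0)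
            ≤ X ^ 2 * z ^ (s * (t + 11 + 1)) * z := Nat.mul_le_mul_left _ hzt
          _ = X ^ 2 * z ^ (s * (t + 11 + 1) + 1) := by ring
          _ ≤ X ^ 2 * z ^ ((12 * s + 1) * (t + 1)) := by
              refine Nat.mul_le_mul_left _ (Nat.pow_le_pow_right hz1 ?_)
              nlinarith [Nat.zero_le (s * t)]
          _ ≤ M := hXM
      have e3 : (X : ℝ) ^ 2 * (z : ℝ) ^ (s * (t + 11 + 1)) * (2 ^ (t + 11) * (W : ℝ)) ≤ M := by
        have e4 : (X : ℝ) ^ 2 * (z : ℝ) ^ (s * (t + 11 + 1)) * (2 ^ (t + 11) * (C0 : ℝ)) ≤ M := by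
          exact_mod_cast e2
        refine le_trans ?_ e4
        have : (W : ℝ) ≤ C0 := by exact_mod_cast hWC
        gcongr
      have e5 : (1 / 2 : ℝ) ^ (t + 11) * ((M : ℝ) / W) = M / (2 ^ (t + 11) * W) := by
        rw [one_div, inv_pow]
        field_simp
      rw [e5, le_div_iff₀ (by positivity)]
      exact e3
    rw [hE0]
    have e2 := mul_le_mul_of_nonneg_left hLle (by positivity : (0 : ℝ) ≤ (1 / 2) ^ (t + 11))
    linarith
  have hoff := final_ineq t A ((M : ℝ) / W) L0 E0 ((wnorm z R c + 1) ^ 2) _ _ Sg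
    ((Ps.card : ℝ) ^ 2) (by positivity) (by positivity) rfl rfl hLle hL00 hEle hE00 hSgle
    (pow_le_pow_left₀ (by positivity) hcard 2)
  -- the diagonal
  have hdiag : (Ps.card : ℝ) * ((wnorm z R c + 1) ^ 2 *
      (M * (Sw ^ 2 * (z : ℝ) ^ (2 * k + 3)))) ≤
      (1 / 2) ^ (t + 1) * (wnorm z R c + 1) ^ 2 * A ^ 2 * ((M : ℝ) / W) := by
    have e1 : (Ps.card : ℝ) ≤ Y := by
      have : Ps.card ≤ Y := by
        rw [hPs]
        exact (Finset.card_filter_le _ _).trans (card_PP_dyadic Y)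
      exact_mod_cast this
    have e2 : 1 ≤ V1 z0 z * (z : ℝ) := by
      have := VV_ge (z0 := z0) (z := z) (k := 1) (by omega) hzz0 ![1] ![0] (by
        intro j q hq
        fin_cases j
        exact not_dvd_one q hq)
      unfold V1
      simpa using this
    have e3 : (2 : ℝ) ^ (t + 1) * (C0 : ℝ) ^ 3 * Sw ^ 2 ≤ z := by
      rw [hSw]
      exact hZ.trans (by exact_mod_cast hzZ)
    have e4 : (z : ℝ) ^ (2 * k + 7) ≤ Y := by exact_mod_cast hYk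
    have hWC' : (W : ℝ) ≤ C0 := by exact_mod_cast hWC
    have hC0R : (1 : ℝ) ≤ C0 := by exact_mod_cast hC0
    -- Y Sw^2 z^(2k+3) 2^(t+1) W^3 ≤ (V1 Y)^2
    have e5 : (Y : ℝ) * (Sw ^ 2 * (z : ℝ) ^ (2 * k + 3)) * (2 ^ (t + 1) * (W : ℝ) ^ 3) ≤
        (V1 z0 z * Y) ^ 2 := by
      have e6 : (W : ℝ) ^ 3 ≤ (C0 : ℝ) ^ 3 := pow_le_pow_left₀ hWR.le hWC' 3
      have e7 : Sw ^ 2 * (2 ^ (t + 1) * (W : ℝ) ^ 3) ≤ z := by
        refine le_trans ?_ e3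
        have : Sw ^ 2 * (2 ^ (t + 1) * (W : ℝ) ^ 3) ≤ Sw ^ 2 * (2 ^ (t + 1) * (C0 : ℝ) ^ 3) := by
          gcongr
        linarith
      have e8 : (1 : ℝ) ≤ (V1 z0 z * z) ^ 2 := one_le_pow₀ e2
      calc (Y : ℝ) * (Sw ^ 2 * (z : ℝ) ^ (2 * k + 3)) * (2 ^ (t + 1) * (W : ℝ) ^ 3)
          = (Y : ℝ) * (z : ℝ) ^ (2 * k + 3) * (Sw ^ 2 * (2 ^ (t + 1) * (W : ℝ) ^ 3)) := by ring
        _ ≤ (Y : ℝ) * (z : ℝ) ^ (2 * k + 3) * z :=
            mul_le_mul_of_nonneg_left e7 (by positivity)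
        _ = (Y : ℝ) * (z : ℝ) ^ (2 * k + 4) * 1 := by ring
        _ ≤ (Y : ℝ) * (z : ℝ) ^ (2 * k + 4) * (V1 z0 z * z) ^ 2 :=
            mul_le_mul_of_nonneg_left e8 (by positivity)
        _ = (V1 z0 z ^ 2 * Y) * (z : ℝ) ^ (2 * k + 6) := by ring
        _ ≤ (V1 z0 z ^ 2 * Y) * (z : ℝ) ^ (2 * k + 7) := by
            refine mul_le_mul_of_nonneg_left ?_ (by positivity)
            exact pow_le_pow_right₀ (by exact_mod_cast hz1) (by omega)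
        _ ≤ (V1 z0 z ^ 2 * Y) * Y := mul_le_mul_of_nonneg_left e4 (by positivity)
        _ = _ := by ring
    have e6 : (Y : ℝ) * (Sw ^ 2 * (z : ℝ) ^ (2 * k + 3)) ≤
        (1 / 2) ^ (t + 1) * A ^ 2 * (1 / W) := by
      have e7 : (1 / 2 : ℝ) ^ (t + 1) * A ^ 2 * (1 / W) =
          (V1 z0 z * Y) ^ 2 / (2 ^ (t + 1) * (W : ℝ) ^ 3) := by
        rw [hA, one_div, inv_pow]
        field_simp
      rw [e7, le_div_iff₀ (by positivity)]
      exact e5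
    calc (Ps.card : ℝ) * ((wnorm z R c + 1) ^ 2 * (M * (Sw ^ 2 * (z : ℝ) ^ (2 * k + 3))))
        ≤ (Y : ℝ) * ((wnorm z R c + 1) ^ 2 * (M * (Sw ^ 2 * (z : ℝ) ^ (2 * k + 3)))) :=
          mul_le_mul_of_nonneg_right e1 (by positivity)
      _ = ((wnorm z R c + 1) ^ 2 * M) * ((Y : ℝ) * (Sw ^ 2 * (z : ℝ) ^ (2 * k + 3))) := by ring
      _ ≤ ((wnorm z R c + 1) ^ 2 * M) * ((1 / 2) ^ (t + 1) * A ^ 2 * (1 / W)) :=
          mul_le_mul_of_nonneg_left e6 (by positivity)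
      _ = _ := by ring
  have hfin : (1 / 2 : ℝ) ^ (t + 1) * (wnorm z R c + 1) ^ 2 * A ^ 2 * ((M : ℝ) / W) +
      (1 / 2 : ℝ) ^ (t + 1) * (wnorm z R c + 1) ^ 2 * A ^ 2 * ((M : ℝ) / W) ≤
      (1 / 2) ^ t * (wnorm z R c + 1) ^ 4 * A ^ 2 * ((M : ℝ) / W) := by
    have e1 : (wnorm z R c + 1) ^ 2 ≤ (wnorm z R c + 1) ^ 4 :=
      pow_le_pow_right₀ (by linarith) (by norm_num)
    have e2 : (1 / 2 : ℝ) ^ (t + 1) * (wnorm z R c + 1) ^ 2 * A ^ 2 * ((M : ℝ) / W) +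
        (1 / 2 : ℝ) ^ (t + 1) * (wnorm z R c + 1) ^ 2 * A ^ 2 * ((M : ℝ) / W) =
        (1 / 2) ^ t * (wnorm z R c + 1) ^ 2 * A ^ 2 * ((M : ℝ) / W) := by
      rw [pow_succ]; ring
    rw [e2]
    gcongr
  have e1 : (V1 z0 z * (Y : ℝ) / (((W : ℕ) : ℤ) : ℝ)) = A := by
    rw [hA]; push_cast; ring
  have e2 : ((M : ℝ) / (((W : ℕ) : ℤ) : ℝ)) = (M : ℝ) / W := by push_cast; ring
  rw [e1, e2]
  linarith

end Pool.Agent.Lib.MT2
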