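import Mathlib
import Pool.Agent.Lib.MT2.Stmts
import Pool.Agent.Lib.TwinAll.Basic94
import Pool.Agent.Lib.TwinAll.L125

/-!
MAYNARD-TAO ON ROUGH FORMS, helper62: EV2 and EV1, finite sums over sets of conditions.
-/

set_option autoImplicit false

namespace Pool.Agent.Lib.MT2.T62

open Finset
open Pool.Agent.Lib.TwinAll (PP Rough om VV nu SS mem_PP PP_prime PP_lt PP_le)

/-! ### Sums over subsets -/

theorem forced {ι : Type*} [DecidableEq ι] (P : Finset ι) (g : ι → ℝ) (hg : ∀ i ∈ P, 0 ≤ g i)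
    (i0 : ι) (h0 : i0 ∈ P) :
    ∑ y ∈ P.powerset, (if i0 ∈ y then ∏ i ∈ y, g i else 0) ≤ g i0 * ∏ i ∈ P, (1 + g i) := by
  have hP : P = insert i0 (P.erase i0) := (Finset.insert_erase h0).symm
  have hne : i0 ∉ P.erase i0 := Finset.notMem_erase i0 P
  have e : ∑ y ∈ P.powerset, (if i0 ∈ y then ∏ i ∈ y, g i else 0) =
      g i0 * ∏ i ∈ P.erase i0, (1 + g i) := by
    conv_lhs => rw [hP]
    rw [Finset.sum_powerset_insert hne, Finset.sum_eq_zero, zero_add, Finset.prod_one_add,
      Finset.mul_sum]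
    · refine Finset.sum_congr rfl fun y hy => ?_
      rw [if_pos (Finset.mem_insert_self _ _), Finset.prod_insert]
      exact fun h => hne (Finset.mem_powerset.1 hy h)
    · intro y hy
      rw [if_neg]
      exact fun h => hne (Finset.mem_powerset.1 hy h)
  rw [e]
  refine mul_le_mul_of_nonneg_left ?_ (hg i0 h0)
  rw [← Finset.mul_prod_erase P (fun i => 1 + g i) h0]
  refine le_mul_of_one_le_left (Finset.prod_nonneg fun i hi => ?_) (by linarith [hg i0 h0])
  linarith [hg i (Finset.mem_of_mem_erase hi)]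

theorem prod_le_exp {ι : Type*} (P : Finset ι) (g : ι → ℝ) (hg : ∀ i ∈ P, 0 ≤ g i) :
    ∏ i ∈ P, (1 + g i) ≤ Real.exp (∑ i ∈ P, g i) := by
  rw [Real.exp_sum]
  refine Finset.prod_le_prod (fun i hi => by linarith [hg i hi]) fun i _ => ?_
  rw [add_comm]
  exact Real.add_one_le_exp _

theorem one_le_prod {ι : Type*} [DecidableEq ι] (P : Finset ι) (g : ι → ℝ)
    (hg : ∀ i ∈ P, 0 ≤ g i) : 1 ≤ ∏ i ∈ P, (1 + g i) := by
  induction P using Finset.induction_on with
  | empty => simp
  | insert a s ha ih =>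
    rw [Finset.prod_insert ha]
    have h1 := ih fun i hi => hg i (Finset.mem_insert_of_mem hi)
    have h2 := hg a (Finset.mem_insert_self _ _)
    nlinarith

/-- the primes occurring in two sets of conditions -/
def un {K : ℕ} (D D' : Cond K) : Finset ℕ := D.image Prod.fst ∪ D'.image Prod.fst

theorem fib {K : ℕ} (P : Finset ℕ) (f : Finset ℕ → ℝ) (hf : ∀ y, 0 ≤ f y) :
    ∑ D ∈ (P ×ˢ (Finset.univ : Finset (Fin K))).powerset,
      ∑ D' ∈ (P ×ˢ (Finset.univ : Finset (Fin K))).powerset, f (un D D') ≤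
      ∑ y ∈ P.powerset, ((4 : ℝ) ^ K) ^ y.card * f y := by
  rw [← Finset.sum_product']
  rw [← Finset.sum_fiberwise_of_maps_to (t := P.powerset)
    (g := fun p : Cond K × Cond K => un p.1 p.2)]
  · refine Finset.sum_le_sum fun y _ => ?_
    rw [Finset.sum_congr rfl (g := fun _ => f y) fun p hp => by rw [(Finset.mem_filter.1 hp).2],
      Finset.sum_const, nsmul_eq_mul]
    refine mul_le_mul_of_nonneg_right ?_ (hf y)
    have hsub : (((P ×ˢ (Finset.univ : Finset (Fin K))).powerset ×ˢ
        (P ×ˢ (Finset.univ : Finset (Fin K))).powerset).filter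
          (fun p : Cond K × Cond K => un p.1 p.2 = y)) ⊆
        (y ×ˢ (Finset.univ : Finset (Fin K))).powerset ×ˢ
          (y ×ˢ (Finset.univ : Finset (Fin K))).powerset := by
      rintro ⟨D, D'⟩ hp
      obtain ⟨-, hp⟩ := Finset.mem_filter.1 hp
      change un D D' = y at hp
      rw [Finset.mem_product, Finset.mem_powerset, Finset.mem_powerset]
      constructor
      · intro x hx
        rw [Finset.mem_product]
        refine ⟨?_, Finset.mem_univ _⟩
        rw [← hp]
        exact Finset.mem_union_left _ (Finset.mem_image_of_mem _ hx)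
      · intro x hx
        rw [Finset.mem_product]
        refine ⟨?_, Finset.mem_univ _⟩
        rw [← hp]
        exact Finset.mem_union_right _ (Finset.mem_image_of_mem _ hx)
    have h1 := Finset.card_le_card hsub
    rw [Finset.card_product, Finset.card_powerset, Finset.card_product, Finset.card_univ,
      Fintype.card_fin] at h1
    have h2 : 2 ^ (y.card * K) * 2 ^ (y.card * K) = (4 ^ K) ^ y.card := by
      rw [← pow_mul, mul_comm K, ← mul_pow]
      norm_num
    rw [h2] at h1
    exact_mod_cast h1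
  · rintro ⟨D, D'⟩ hp
    rw [Finset.mem_product, Finset.mem_powerset, Finset.mem_powerset] at hp
    rw [Finset.mem_powerset]
    intro q hq
    rcases Finset.mem_union.1 hq with h | h
    · obtain ⟨x, hx, rfl⟩ := Finset.mem_image.1 h
      exact (Finset.mem_product.1 (hp.1 hx)).1
    · obtain ⟨x, hx, rfl⟩ := Finset.mem_image.1 h
      exact (Finset.mem_product.1 (hp.2 hx)).1

/-! ### The size of the sums -/

theorem SS_le {z b R : ℕ} (hz : 2 ≤ z) (hR : R ≤ z ^ b) : SS z R ≤ b + 20 := by
  rcases Nat.eq_zero_or_pos b with hb | hb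
  · subst hb
    rw [pow_zero] at hR
    have h : SS z R = 0 := by
      unfold SS
      have : PP z R = ∅ := by
        ext q
        rw [mem_PP]
        constructor
        · rintro ⟨⟨h1, h2⟩, -⟩; omega
        · intro h; simp at h
      rw [this, Finset.sum_empty]
    rw [h]
    positivity
  · have h1 : SS z R ≤ SS z (z ^ b) := TwinAll.SS_mono hR
    have h2 := TwinAll.L1Aux.SS_bound z 1 b hz le_rfl hb
    rw [pow_one] at h2
    have h3 := (abs_le.1 h2).2
    have h4 : Real.log ((b : ℝ) / ((1 : ℕ) : ℝ)) ≤ b := by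
      rw [Nat.cast_one, div_one]
      exact Real.log_le_self (Nat.cast_nonneg b)
    have h5 : (10 : ℝ) / (((1 : ℕ) : ℝ) * Real.log z) ≤ 20 := by
      rw [Nat.cast_one, one_mul]
      have h6 : Real.log 2 ≤ Real.log z :=
        Real.log_le_log (by norm_num) (by exact_mod_cast hz)
      have h7 := Real.log_two_gt_d9
      rw [div_le_iff₀ (by linarith)]
      linarith
    linarith

/-- the constant -/
noncomputable def EE (K b : ℕ) : ℝ := Real.exp (4 ^ K * (b + 20))

theorem one_le_EE (K b : ℕ) : 1 ≤ EE K b := Real.one_le_exp (by positivity)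

theorem prodP_le {K z b R : ℕ} (hz : 2 ≤ z) (hR : R ≤ z ^ b) :
    ∏ q ∈ PP z R, (1 + (4 : ℝ) ^ K / q) ≤ EE K b := by
  refine (prod_le_exp _ _ fun q _ => by positivity).trans (Real.exp_le_exp.2 ?_)
  have h1 : ∑ q ∈ PP z R, (4 : ℝ) ^ K / q = 4 ^ K * SS z R := by
    unfold SS
    rw [Finset.mul_sum]
    exact Finset.sum_congr rfl fun q _ => by ring
  rw [h1]
  exact mul_le_mul_of_nonneg_left (SS_le hz hR) (by positivity)

theorem prodPI_le {K z b R : ℕ} (hz : 2 ≤ z) (hR : R ≤ z ^ b) :
    ∏ x ∈ PI z R K, (1 + 1 / (x.1 : ℝ)) ≤ EE K b := by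
  refine (prod_le_exp _ _ fun q _ => by positivity).trans (Real.exp_le_exp.2 ?_)
  have h1 : ∑ x ∈ PI z R K, 1 / (x.1 : ℝ) = K * SS z R := by
    unfold PI SS
    rw [Finset.sum_product, Finset.mul_sum]
    refine Finset.sum_congr rfl fun q _ => ?_
    show ∑ _y : Fin K, 1 / (q : ℝ) = _
    rw [Finset.sum_const, Finset.card_univ, Fintype.card_fin, nsmul_eq_mul]
  rw [h1]
  have h2 : (K : ℝ) ≤ 4 ^ K := by exact_mod_cast (Nat.lt_pow_self (by norm_num : 1 < 4)).le
  exact mul_le_mul h2 (SS_le hz hR) (TwinAll.SS_nonneg _ _) (by positivity)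

theorem sum_inv_sq (z R : ℕ) (hz : 1 ≤ z) : ∑ q ∈ PP z R, 1 / (q : ℝ) ^ 2 ≤ 1 / (z : ℝ) := by
  have h1 : ∀ n : ℕ, ∑ q ∈ Finset.Ioc z (z + n), 1 / (q : ℝ) ^ 2 ≤
      1 / (z : ℝ) - 1 / ((z + n : ℕ) : ℝ) := by
    intro n
    induction n with
    | zero => simp
    | succ n ih =>
      have h2 : Finset.Ioc z (z + (n + 1)) = insert (z + (n + 1)) (Finset.Ioc z (z + n)) := by
        ext q
        simp only [Finset.mem_Ioc, Finset.mem_insert]
        omega
      rw [h2, Finset.sum_insert (by simp)]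
      have hz0 : (0 : ℝ) < z := by exact_mod_cast hz
      have h3 : (1 : ℝ) / ((z + (n + 1) : ℕ) : ℝ) ^ 2 ≤
          1 / ((z + n : ℕ) : ℝ) - 1 / ((z + (n + 1) : ℕ) : ℝ) := by
        have e : ((z + (n + 1) : ℕ) : ℝ) = ((z + n : ℕ) : ℝ) + 1 := by push_cast; ring
        have hp : (0 : ℝ) < ((z + n : ℕ) : ℝ) := by push_cast; positivity
        rw [e, div_sub_div _ _ hp.ne' (by positivity), div_le_div_iff₀ (by positivity)
          (by positivity)]
        nlinarith
      linarith
  rcases le_or_gt z R with h | h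
  · have h2 : PP z R ⊆ Finset.Ioc z (z + (R - z)) := by
      intro q hq
      have h3 := mem_PP.1 hq
      rw [Finset.mem_Ioc]
      omega
    have h3 := (Finset.sum_le_sum_of_subset_of_nonneg h2
      (f := fun q : ℕ => 1 / (q : ℝ) ^ 2) fun q _ _ => by positivity).trans (h1 (R - z))
    have h4 : (0 : ℝ) ≤ 1 / ((z + (R - z) : ℕ) : ℝ) := by positivity
    linarith
  · have h2 : PP z R = ∅ := by
      ext q
      rw [mem_PP]
      constructor
      · rintro ⟨⟨h3, h4⟩, -⟩; omega
      · intro h; simp at h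
    rw [h2, Finset.sum_empty]
    positivity

/-- the number of sets of conditions of level `X` -/
theorem card_level {K z b R X : ℕ} (hz : 2 ≤ z) (hX : X ≤ z ^ b) :
    ((PI z R K).powerset.filter (fun D => md D ≤ X)).card ≤ X * 2 ^ (b * K) := by
  classical
  have hpr : ∀ D ∈ (PI z R K).powerset.filter (fun D => md D ≤ X), ∀ x ∈ D,
      x.1.Prime ∧ z < x.1 := by
    intro D hD x hx
    rw [Finset.mem_filter, Finset.mem_powerset] at hD
    have h1 := (Finset.mem_product.1 (hD.1 hx)).1
    exact ⟨PP_prime h1, PP_lt h1⟩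
  have hmd : ∀ D ∈ (PI z R K).powerset.filter (fun D => md D ≤ X), md D ∈ Finset.Icc 1 X := by
    intro D hD
    rw [Finset.mem_Icc]
    refine ⟨Nat.one_le_iff_ne_zero.2 (Finset.prod_ne_zero_iff.2 fun x hx =>
      (hpr D hD x hx).1.ne_zero), (Finset.mem_filter.1 hD).2⟩
  rw [Finset.card_eq_sum_card_fiberwise hmd]
  have hfib : ∀ n ∈ Finset.Icc 1 X, (((PI z R K).powerset.filter (fun D => md D ≤ X)).filter
      (fun D => md D = n)).card ≤ 2 ^ (b * K) := by
    intro n hn
    rw [Finset.mem_Icc] at hn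
    obtain ⟨P, hP⟩ : ∃ P, P = n.primeFactors.filter (fun q => z < q) := ⟨_, rfl⟩
    have hcard : P.card ≤ b := by
      have h1 : z ^ P.card ≤ ∏ q ∈ P, q := by
        refine Finset.pow_card_le_prod _ _ _ fun q hq => ?_
        rw [hP] at hq
        exact (Finset.mem_filter.1 hq).2.le
      have h2 : ∏ q ∈ P, q ∣ n := by
        have h3 : ∏ q ∈ P, q ∣ ∏ q ∈ n.primeFactors, q := by
          refine Finset.prod_dvd_prod_of_subset _ _ _ ?_
          rw [hP]
          exact Finset.filter_subset _ _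
        exact h3.trans (Nat.prod_primeFactors_dvd n)
      have h3 := Nat.le_of_dvd (by omega) h2
      have h4 : z ^ P.card ≤ z ^ b := h1.trans (h3.trans (hn.2.trans hX))
      exact (Nat.pow_le_pow_iff_right (by omega)).1 h4
    have hsub : (((PI z R K).powerset.filter (fun D => md D ≤ X)).filter (fun D => md D = n)) ⊆
        (P ×ˢ (Finset.univ : Finset (Fin K))).powerset := by
      intro D hD
      obtain ⟨hD1, hD2⟩ := Finset.mem_filter.1 hD
      rw [Finset.mem_powerset]
      intro x hx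
      rw [Finset.mem_product]
      refine ⟨?_, Finset.mem_univ _⟩
      rw [hP, Finset.mem_filter, Nat.mem_primeFactors]
      refine ⟨⟨(hpr D hD1 x hx).1, ?_, by omega⟩, (hpr D hD1 x hx).2⟩
      rw [← hD2]
      exact Finset.dvd_prod_of_mem (fun x : ℕ × Fin K => x.1) hx
    refine (Finset.card_le_card hsub).trans ?_
    rw [Finset.card_powerset, Finset.card_product, Finset.card_univ, Fintype.card_fin]
    exact Nat.pow_le_pow_right (by norm_num) (Nat.mul_le_mul_right _ hcard)
  refine (Finset.sum_le_sum hfib).trans ?_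
  rw [Finset.sum_const, Nat.card_Icc, smul_eq_mul]
  exact Nat.mul_le_mul_right _ (by omega)

end Pool.Agent.Lib.MT2.T62
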