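import Mathlib
import Pool.Agent.Lib.MT2.EVa62

/-!
MAYNARD-TAO ON ROUGH FORMS, helper62: EV2 and EV1, the residue class of a pair of sets of
conditions.
-/

set_option autoImplicit false

namespace Pool.Agent.Lib.MT2.T62

open Finset
open Pool.Agent.Lib.TwinAll (PP Rough om VV nu SS mem_PP PP_prime PP_lt PP_le)

/-- both sets of conditions hold, at the images of `m` under two affine maps -/
def Both {K : ℕ} (α β : Fin K → ℤ) (μ ν μ' ν' : ℤ) (D D' : Cond K) (m : ℤ) : Prop :=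
  Holds α β D (μ * m + ν) ∧ Holds α β D' (μ' * m + ν')

/-- the modulus of a pair -/
def QQ {K : ℕ} (D D' : Cond K) : ℕ := ∏ q ∈ un D D', q

theorem mem_un_left {K : ℕ} {D D' : Cond K} {x : ℕ × Fin K} (h : x ∈ D) : x.1 ∈ un D D' :=
  Finset.mem_union_left _ (Finset.mem_image_of_mem _ h)

theorem mem_un_right {K : ℕ} {D D' : Cond K} {x : ℕ × Fin K} (h : x ∈ D') : x.1 ∈ un D D' :=
  Finset.mem_union_right _ (Finset.mem_image_of_mem _ h)

theorem un_sub {K z R : ℕ} {D D' : Cond K} (hD : D ⊆ PI z R K) (hD' : D' ⊆ PI z R K) :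
    un D D' ⊆ PP z R := by
  intro q hq
  rcases Finset.mem_union.1 hq with h | h
  · obtain ⟨x, hx, rfl⟩ := Finset.mem_image.1 h
    exact (Finset.mem_product.1 (hD hx)).1
  · obtain ⟨x, hx, rfl⟩ := Finset.mem_image.1 h
    exact (Finset.mem_product.1 (hD' hx)).1

theorem coprime_primes {P : Finset ℕ} (hP : ∀ q ∈ P, q.Prime) :
    (P : Set ℕ).Pairwise (Function.onFun IsCoprime fun q : ℕ => (q : ℤ)) := by
  intro a ha b hb hab
  exact Nat.isCoprime_iff_coprime.2 ((Nat.coprime_primes (hP a ha) (hP b hb)).2 hab)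

theorem both_class {K z R : ℕ} {α β : Fin K → ℤ} {J J' : Finset (Fin K)} {μ ν μ' ν' : ℤ}
    {D D' : Cond K} (hD : D ⊆ PI z R K) (hD' : D' ⊆ PI z R K) (hJ : ∀ x ∈ D, x.2 ∈ J)
    (hJ' : ∀ x ∈ D', x.2 ∈ J')
    (h2 : ∀ q ∈ PP z R, ∀ j ∈ J,
      ¬ ((q : ℤ) ∣ α j * μ) ∨ ∀ m : ℤ, ¬ ((q : ℤ) ∣ α j * (μ * m + ν) + β j))
    (h2' : ∀ q ∈ PP z R, ∀ j ∈ J',
      ¬ ((q : ℤ) ∣ α j * μ') ∨ ∀ m : ℤ, ¬ ((q : ℤ) ∣ α j * (μ' * m + ν') + β j))
    (m0 : ℤ) (h0 : Both α β μ ν μ' ν' D D' m0) (m : ℤ) :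
    Both α β μ ν μ' ν' D D' m ↔ ((QQ D D' : ℕ) : ℤ) ∣ m - m0 := by
  have hpr : ∀ q ∈ un D D', q.Prime := fun q hq => PP_prime (un_sub hD hD' hq)
  have key : ∀ (q : ℕ) (j : Fin K) (a b c : ℤ), q.Prime → ¬ ((q : ℤ) ∣ α j * a) →
      (q : ℤ) ∣ α j * (a * b + c) + β j → ∀ m : ℤ,
      ((q : ℤ) ∣ α j * (a * m + c) + β j ↔ (q : ℤ) ∣ m - b) := by
    intro q j a b c hq hna hb m
    have e : α j * (a * m + c) + β j = (α j * a) * (m - b) + (α j * (a * b + c) + β j) := by ring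
    rw [e, dvd_add_left hb]
    constructor
    · intro h
      exact ((Nat.prime_iff_prime_int.1 hq).dvd_or_dvd h).resolve_left hna
    · intro h
      exact Dvd.dvd.mul_left h _
  constructor
  · intro h
    unfold QQ
    push_cast
    refine Finset.prod_dvd_of_coprime (coprime_primes hpr) fun q hq => ?_
    rcases Finset.mem_union.1 hq with h1 | h1
    · obtain ⟨x, hx, rfl⟩ := Finset.mem_image.1 h1
      have h3 := h2 x.1 (Finset.mem_product.1 (hD hx)).1 x.2 (hJ x hx)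
      have h4 : (x.1 : ℤ) ∣ α x.2 * (μ * m0 + ν) + β x.2 := h0.1 x hx
      have h5 := h3.resolve_right fun h6 => h6 m0 h4
      exact (key x.1 x.2 μ m0 ν (hpr _ hq) h5 h4 m).1 (h.1 x hx)
    · obtain ⟨x, hx, rfl⟩ := Finset.mem_image.1 h1
      have h3 := h2' x.1 (Finset.mem_product.1 (hD' hx)).1 x.2 (hJ' x hx)
      have h4 : (x.1 : ℤ) ∣ α x.2 * (μ' * m0 + ν') + β x.2 := h0.2 x hx
      have h5 := h3.resolve_right fun h6 => h6 m0 h4
      exact (key x.1 x.2 μ' m0 ν' (hpr _ hq) h5 h4 m).1 (h.2 x hx)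
  · intro h
    have hdv : ∀ q ∈ un D D', (q : ℤ) ∣ m - m0 := by
      intro q hq
      refine Dvd.dvd.trans ?_ h
      exact_mod_cast Finset.dvd_prod_of_mem (fun q : ℕ => q) hq
    constructor
    · intro x hx
      have h4 : (x.1 : ℤ) ∣ α x.2 * (μ * m0 + ν) + β x.2 := h0.1 x hx
      have e : α x.2 * (μ * m + ν) + β x.2 =
        (α x.2 * μ) * (m - m0) + (α x.2 * (μ * m0 + ν) + β x.2) := by ring
      show (x.1 : ℤ) ∣ α x.2 * (μ * m + ν) + β x.2
      rw [e]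
      exact dvd_add (Dvd.dvd.mul_left (hdv _ (mem_un_left hx)) _) h4
    · intro x hx
      have h4 : (x.1 : ℤ) ∣ α x.2 * (μ' * m0 + ν') + β x.2 := h0.2 x hx
      have e : α x.2 * (μ' * m + ν') + β x.2 =
        (α x.2 * μ') * (m - m0) + (α x.2 * (μ' * m0 + ν') + β x.2) := by ring
      show (x.1 : ℤ) ∣ α x.2 * (μ' * m + ν') + β x.2
      rw [e]
      exact dvd_add (Dvd.dvd.mul_left (hdv _ (mem_un_right hx)) _) h4

/-- Chinese remainder theorem -/
theorem crt (P : Finset ℕ) (hP : ∀ q ∈ P, q.Prime) (r : ℕ → ℤ) :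
    ∃ m : ℤ, ∀ q ∈ P, (q : ℤ) ∣ m - r q := by
  induction P using Finset.induction_on with
  | empty => exact ⟨0, fun q hq => absurd hq (Finset.notMem_empty q)⟩
  | insert a s ha ih =>
    obtain ⟨m, hm⟩ := ih fun q hq => hP q (Finset.mem_insert_of_mem hq)
    have hcop : IsCoprime ((∏ q ∈ s, q : ℕ) : ℤ) (a : ℤ) := by
      refine Nat.isCoprime_iff_coprime.2 (Nat.Coprime.prod_left fun q hq => ?_)
      refine (Nat.coprime_primes (hP q (Finset.mem_insert_of_mem hq))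
        (hP a (Finset.mem_insert_self _ _))).2 ?_
      rintro rfl
      exact ha hq
    obtain ⟨x, y, hxy⟩ := hcop
    refine ⟨m + ((∏ q ∈ s, q : ℕ) : ℤ) * (x * (r a - m)), fun q hq => ?_⟩
    rcases Finset.mem_insert.1 hq with rfl | hq
    · refine ⟨y * (m - r q), ?_⟩
      linear_combination (r q - m) * hxy
    · have h1 : (q : ℤ) ∣ ((∏ q ∈ s, q : ℕ) : ℤ) := by
        exact_mod_cast Finset.dvd_prod_of_mem (fun q : ℕ => q) hq
      have e : m + ((∏ q ∈ s, q : ℕ) : ℤ) * (x * (r a - m)) - r q =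
        (m - r q) + ((∏ q ∈ s, q : ℕ) : ℤ) * (x * (r a - m)) := by ring
      rw [e]
      exact dvd_add (hm q hq) (Dvd.dvd.mul_right h1 _)

theorem solve {q : ℕ} (hq : q.Prime) (a b : ℤ) (h : ¬ ((q : ℤ) ∣ a)) :
    ∃ r : ℤ, (q : ℤ) ∣ a * r + b := by
  have h1 : IsCoprime a (q : ℤ) := ((Nat.prime_iff_prime_int.1 hq).coprime_iff_not_dvd.2 h).symm
  obtain ⟨x, y, hxy⟩ := h1
  refine ⟨-b * x, b * y, ?_⟩
  linear_combination -b * hxy

/-- Disjoint clean sets of conditions with one root each are compatible. -/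
theorem both_exists {K z R : ℕ} {α β : Fin K → ℤ} {μ ν μ' ν' : ℤ}
    {D D' : Cond K} (hD : D ⊆ PI z R K) (hD' : D' ⊆ PI z R K) (hc : Clean D) (hc' : Clean D')
    (h1 : ∀ x ∈ D, ¬ ((x.1 : ℤ) ∣ α x.2 * μ)) (h1' : ∀ x ∈ D', ¬ ((x.1 : ℤ) ∣ α x.2 * μ'))
    (hdis : Disjoint (D.image Prod.fst) (D'.image Prod.fst)) :
    ∃ m0, Both α β μ ν μ' ν' D D' m0 := by
  have hr : ∀ q ∈ un D D', ∃ r : ℤ, (∀ x ∈ D, x.1 = q →
      (q : ℤ) ∣ α x.2 * (μ * r + ν) + β x.2) ∧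
      (∀ x ∈ D', x.1 = q → (q : ℤ) ∣ α x.2 * (μ' * r + ν') + β x.2) := by
    intro q hq
    have hpr : q.Prime := PP_prime (un_sub hD hD' hq)
    rcases Finset.mem_union.1 hq with h | h
    · obtain ⟨x, hx, rfl⟩ := Finset.mem_image.1 h
      obtain ⟨r, hr⟩ := solve hpr (α x.2 * μ) (α x.2 * ν + β x.2) (h1 x hx)
      refine ⟨r, fun y hy hyx => ?_, fun y hy hyx => ?_⟩
      · have : y = x := hc hy hx hyx
        subst this
        have e : α y.2 * (μ * r + ν) + β y.2 = α y.2 * μ * r + (α y.2 * ν + β y.2) := by ring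
        rw [e]
        exact hr
      · exact absurd (Finset.mem_image.2 ⟨y, hy, hyx⟩) (Finset.disjoint_left.1 hdis h)
    · obtain ⟨x, hx, rfl⟩ := Finset.mem_image.1 h
      obtain ⟨r, hr⟩ := solve hpr (α x.2 * μ') (α x.2 * ν' + β x.2) (h1' x hx)
      refine ⟨r, fun y hy hyx => ?_, fun y hy hyx => ?_⟩
      · exact absurd h (Finset.disjoint_left.1 hdis (Finset.mem_image.2 ⟨y, hy, hyx⟩))
      · have : y = x := hc' hy hx hyx
        subst this
        have e : α y.2 * (μ' * r + ν') + β y.2 = α y.2 * μ' * r + (α y.2 * ν' + β y.2) := by ring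
        rw [e]
        exact hr
  choose! r hr hr' using hr
  obtain ⟨m, hm⟩ := crt (un D D') (fun q hq => PP_prime (un_sub hD hD' hq)) r
  refine ⟨m, fun x hx => ?_, fun x hx => ?_⟩
  · have h3 := hr x.1 (mem_un_left hx) x hx rfl
    have h4 := hm x.1 (mem_un_left hx)
    have e : α x.2 * (μ * m + ν) + β x.2 =
      (α x.2 * μ) * (m - r x.1) + (α x.2 * (μ * r x.1 + ν) + β x.2) := by ring
    show (x.1 : ℤ) ∣ α x.2 * (μ * m + ν) + β x.2
    rw [e]
    exact dvd_add (Dvd.dvd.mul_left h4 _) h3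
  · have h3 := hr' x.1 (mem_un_right hx) x hx rfl
    have h4 := hm x.1 (mem_un_right hx)
    have e : α x.2 * (μ' * m + ν') + β x.2 =
      (α x.2 * μ') * (m - r x.1) + (α x.2 * (μ' * r x.1 + ν') + β x.2) := by ring
    show (x.1 : ℤ) ∣ α x.2 * (μ' * m + ν') + β x.2
    rw [e]
    exact dvd_add (Dvd.dvd.mul_left h4 _) h3

/-! ### Moduli -/

theorem md_image {K : ℕ} {D : Cond K} (hc : Clean D) : md D = ∏ q ∈ D.image Prod.fst, q := by
  unfold md
  rw [Finset.prod_image]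
  exact hc

theorem QQ_disjoint {K : ℕ} {D D' : Cond K} (hc : Clean D) (hc' : Clean D')
    (hdis : Disjoint (D.image Prod.fst) (D'.image Prod.fst)) : QQ D D' = md D * md D' := by
  rw [md_image hc, md_image hc']
  exact Finset.prod_union hdis

theorem QQ_pos {K z R : ℕ} {D D' : Cond K} (hD : D ⊆ PI z R K) (hD' : D' ⊆ PI z R K) :
    0 < QQ D D' := Finset.prod_pos fun q hq => (PP_prime (un_sub hD hD' hq)).pos

theorem md_pos {K z R : ℕ} {D : Cond K} (hD : D ⊆ PI z R K) : 0 < md D :=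
  Finset.prod_pos fun x hx => (PP_prime (Finset.mem_product.1 (hD hx)).1).pos

theorem QQ_le {K z R : ℕ} {D D' : Cond K} (hD : D ⊆ PI z R K) (hD' : D' ⊆ PI z R K)
    (hc : Clean D) (hc' : Clean D') : QQ D D' ≤ md D * md D' := by
  rw [md_image hc, md_image hc', ← Finset.prod_union_inter]
  refine Nat.le_mul_of_pos_right _ (Finset.prod_pos fun q hq => ?_)
  refine (PP_prime (un_sub hD hD' ?_)).pos
  exact Finset.mem_union_left _ (Finset.mem_inter.1 hq).1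

theorem QQ_ndvd {K z0 z R : ℕ} {D D' : Cond K} (hD : D ⊆ PI z R K) (hD' : D' ⊆ PI z R K) :
    ∀ q ∈ PP z0 z, ¬ q ∣ QQ D D' := by
  intro q hq h
  obtain ⟨a, ha, hqa⟩ := (Nat.prime_iff.1 (PP_prime hq)).exists_mem_finset_dvd h
  have h1 := un_sub hD hD' ha
  have h2 := (Nat.prime_dvd_prime_iff_eq (PP_prime hq) (PP_prime h1)).1 hqa
  have h3 := PP_lt h1
  have h4 := PP_le hq
  omega

end Pool.Agent.Lib.MT2.T62
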