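import Mathlib
import Pool.Agent.Lib.MT2.EVb62

/-!
MAYNARD-TAO ON ROUGH FORMS, helper62: EV2 and EV1, assembly.
-/

set_option autoImplicit false

namespace Pool.Agent.Lib.MT2.T62

open Finset
open Pool.Agent.Lib.TwinAll (PP Rough om VV nu SS mem_PP PP_prime PP_lt PP_le)

open Classical in
/-- the sum of `nu` over the `m` for which both sets of conditions hold -/
noncomputable def Sp {k K : ℕ} (z0 z : ℕ) (A B : Fin k → ℤ) (α β : Fin K → ℤ)
    (μ ν μ' ν' u : ℤ) (H : ℕ) (D D' : Cond K) : ℝ :=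
  ∑ m ∈ Ioc u (u + H), nu z0 z A B m * (if Both α β μ ν μ' ν' D D' m then 1 else 0)

theorem expand {k K : ℕ} (z0 z R : ℕ) (A B : Fin k → ℤ) (α β : Fin K → ℤ) (c c' : Cond K → ℝ)
    (μ ν μ' ν' u : ℤ) (H : ℕ) :
    (∑ m ∈ Ioc u (u + H), nu z0 z A B m * wt z R c α β (μ * m + ν) *
      wt z R c' α β (μ' * m + ν')) - H * (wmean z R c * wmean z R c') =
    ∑ D ∈ (PI z R K).powerset, ∑ D' ∈ (PI z R K).powerset, c D * c' D' *
      (Sp z0 z A B α β μ ν μ' ν' u H D D' - H / ((md D : ℝ) * md D')) := by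
  classical
  have h1 : ∀ m : ℤ, nu z0 z A B m * wt z R c α β (μ * m + ν) * wt z R c' α β (μ' * m + ν') =
      ∑ D ∈ (PI z R K).powerset, ∑ D' ∈ (PI z R K).powerset, c D * c' D' *
        (nu z0 z A B m * (if Both α β μ ν μ' ν' D D' m then 1 else 0)) := by
    intro m
    unfold wt
    rw [mul_assoc, Finset.sum_mul_sum, Finset.mul_sum]
    refine Finset.sum_congr rfl fun D _ => ?_
    rw [Finset.mul_sum]
    refine Finset.sum_congr rfl fun D' _ => ?_
    by_cases hD : Holds α β D (μ * m + ν)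
    · by_cases hD' : Holds α β D' (μ' * m + ν')
      · rw [if_pos hD, if_pos hD', if_pos (show Both α β μ ν μ' ν' D D' m from ⟨hD, hD'⟩)]
        ring
      · rw [if_neg hD', if_neg (fun h : Both α β μ ν μ' ν' D D' m => hD' h.2)]
        ring
    · rw [if_neg hD, if_neg (fun h : Both α β μ ν μ' ν' D D' m => hD h.1)]
      ring
  have h2 : ∑ m ∈ Ioc u (u + H), nu z0 z A B m * wt z R c α β (μ * m + ν) *
      wt z R c' α β (μ' * m + ν') = ∑ D ∈ (PI z R K).powerset, ∑ D' ∈ (PI z R K).powerset,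
      c D * c' D' * Sp z0 z A B α β μ ν μ' ν' u H D D' := by
    rw [Finset.sum_congr rfl fun m _ => h1 m, Finset.sum_comm]
    refine Finset.sum_congr rfl fun D _ => ?_
    rw [Finset.sum_comm]
    refine Finset.sum_congr rfl fun D' _ => ?_
    unfold Sp
    rw [Finset.mul_sum]
  have h3 : (H : ℝ) * (wmean z R c * wmean z R c') = ∑ D ∈ (PI z R K).powerset,
      ∑ D' ∈ (PI z R K).powerset, c D * c' D' * (H / ((md D : ℝ) * md D')) := by
    unfold wmean
    rw [Finset.sum_mul_sum, Finset.mul_sum]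
    refine Finset.sum_congr rfl fun D _ => ?_
    rw [Finset.mul_sum]
    refine Finset.sum_congr rfl fun D' _ => ?_
    rw [div_mul_div_comm]
    ring
  rw [h2, h3, ← Finset.sum_sub_distrib]
  refine Finset.sum_congr rfl fun D _ => ?_
  rw [← Finset.sum_sub_distrib]
  refine Finset.sum_congr rfl fun D' _ => ?_
  ring

/-- The error of one pair. -/
theorem pair_bound {k K z0 z R t s0 : ℕ} (hS : ∀ Q : ℕ, 0 < Q → (∀ q ∈ PP z0 z, ¬ q ∣ Q) →
      ∀ (A B : Fin k → ℤ), (∀ j, ∀ q ∈ PP z0 z, ¬ ((q : ℤ) ∣ A j)) → ∀ (c u : ℤ) (H : ℕ),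
      |(∑ n ∈ (Ioc u (u + H)).filter (fun n => (Q : ℤ) ∣ n - c), nu z0 z A B n) - (H / Q : ℝ)| ≤
        (1 / 2) ^ t * (H / Q : ℝ) + (z : ℝ) ^ (s0 * (t + 1)))
    {A B : Fin k → ℤ} (hA : ∀ j, ∀ q ∈ PP z0 z, ¬ ((q : ℤ) ∣ A j))
    {α β : Fin K → ℤ} {J J' : Finset (Fin K)} {μ ν μ' ν' : ℤ}
    {D D' : Cond K} (hD : D ⊆ PI z R K) (hD' : D' ⊆ PI z R K) (hJ : ∀ x ∈ D, x.2 ∈ J)
    (hJ' : ∀ x ∈ D', x.2 ∈ J') (hc : Clean D) (hc' : Clean D') (Exc : Finset ℕ)
    (h1 : ∀ q ∈ PP z R, q ∉ Exc → ∀ j ∈ J, ¬ ((q : ℤ) ∣ α j * μ))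
    (h1' : ∀ q ∈ PP z R, q ∉ Exc → ∀ j ∈ J', ¬ ((q : ℤ) ∣ α j * μ'))
    (h2 : ∀ q ∈ PP z R, ∀ j ∈ J,
      ¬ ((q : ℤ) ∣ α j * μ) ∨ ∀ m : ℤ, ¬ ((q : ℤ) ∣ α j * (μ * m + ν) + β j))
    (h2' : ∀ q ∈ PP z R, ∀ j ∈ J',
      ¬ ((q : ℤ) ∣ α j * μ') ∨ ∀ m : ℤ, ¬ ((q : ℤ) ∣ α j * (μ' * m + ν') + β j))
    (h3 : ∀ q ∈ PP z R, q ∉ Exc → ∀ i ∈ J, ∀ j ∈ J', ∀ m : ℤ,
      ¬ ((q : ℤ) ∣ α i * (μ * m + ν) + β i ∧ (q : ℤ) ∣ α j * (μ' * m + ν') + β j))
    (u : ℤ) (H : ℕ) :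
    |Sp z0 z A B α β μ ν μ' ν' u H D D' - H / ((md D : ℝ) * md D')| ≤
      (1 / 2) ^ t * (H / ((md D : ℝ) * md D')) + (z : ℝ) ^ (s0 * (t + 1)) +
      (∑ q ∈ Exc ∩ PP z R, if q ∈ un D D' then 3 * (H : ℝ) / QQ D D' else 0) +
      ∑ q ∈ PP z R, if q ∈ D.image Prod.fst ∧ q ∈ D'.image Prod.fst then
        (H : ℝ) / ((md D : ℝ) * md D') else 0 := by
  classical
  have hQ : 0 < QQ D D' := QQ_pos hD hD'
  have hQr : (0 : ℝ) < QQ D D' := by exact_mod_cast hQ
  have hm : (0 : ℝ) < md D := by exact_mod_cast md_pos hD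
  have hm' : (0 : ℝ) < md D' := by exact_mod_cast md_pos hD'
  have hH : (0 : ℝ) ≤ H := Nat.cast_nonneg H
  have hle : (H : ℝ) / ((md D : ℝ) * md D') ≤ H / QQ D D' := by
    refine div_le_div_of_nonneg_left hH hQr ?_
    exact_mod_cast QQ_le hD hD' hc hc'
  have hH1 : (0 : ℝ) ≤ H / ((md D : ℝ) * md D') := by positivity
  have hH2 : (0 : ℝ) ≤ H / (QQ D D' : ℝ) := by positivity
  have hzs : (0 : ℝ) ≤ (z : ℝ) ^ (s0 * (t + 1)) := by positivity
  have ht0 : (0 : ℝ) ≤ (1 / 2) ^ t := by positivity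
  have ht1 : (1 / 2 : ℝ) ^ t ≤ 1 := pow_le_one₀ (by norm_num) (by norm_num)
  have hE0 : 0 ≤ ∑ q ∈ Exc ∩ PP z R, if q ∈ un D D' then 3 * (H : ℝ) / QQ D D' else 0 := by
    refine Finset.sum_nonneg fun q _ => ?_
    split_ifs
    · positivity
    · exact le_rfl
  have hC0 : 0 ≤ ∑ q ∈ PP z R, if q ∈ D.image Prod.fst ∧ q ∈ D'.image Prod.fst then
      (H : ℝ) / ((md D : ℝ) * md D') else 0 := by
    refine Finset.sum_nonneg fun q _ => ?_
    split_ifs
    · positivity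
    · exact le_rfl
  -- the value of the sum
  have hval : (∀ m, ¬ Both α β μ ν μ' ν' D D' m) ∧ Sp z0 z A B α β μ ν μ' ν' u H D D' = 0 ∨
      |Sp z0 z A B α β μ ν μ' ν' u H D D' - (H / QQ D D' : ℝ)| ≤
        (1 / 2) ^ t * (H / QQ D D' : ℝ) + (z : ℝ) ^ (s0 * (t + 1)) := by
    by_cases hex : ∃ m0, Both α β μ ν μ' ν' D D' m0
    · right
      obtain ⟨m0, hm0⟩ := hex
      have h4 := hS (QQ D D') hQ (QQ_ndvd hD hD') A B hA m0 u H
      have h5 : Sp z0 z A B α β μ ν μ' ν' u H D D' =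
          ∑ n ∈ (Ioc u (u + H)).filter (fun n => ((QQ D D' : ℕ) : ℤ) ∣ n - m0),
            nu z0 z A B n := by
        unfold Sp
        rw [Finset.sum_filter]
        refine Finset.sum_congr rfl fun m _ => ?_
        by_cases hb : Both α β μ ν μ' ν' D D' m
        · rw [if_pos hb, if_pos ((both_class hD hD' hJ hJ' h2 h2' m0 hm0 m).1 hb), mul_one]
        · rw [if_neg hb, if_neg fun h => hb ((both_class hD hD' hJ hJ' h2 h2' m0 hm0 m).2 h),
            mul_zero]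
      rw [h5]
      exact h4
    · left
      have h6 : ∀ m, ¬ Both α β μ ν μ' ν' D D' m := fun m hm => hex ⟨m, hm⟩
      refine ⟨h6, ?_⟩
      unfold Sp
      refine Finset.sum_eq_zero fun m _ => ?_
      rw [if_neg (h6 m), mul_zero]
  by_cases hexc : ∃ q0 ∈ Exc ∩ PP z R, q0 ∈ un D D'
  · obtain ⟨q0, hq0, hq0u⟩ := hexc
    have hE1 : 3 * (H : ℝ) / QQ D D' ≤
        ∑ q ∈ Exc ∩ PP z R, if q ∈ un D D' then 3 * (H : ℝ) / QQ D D' else 0 := by
      have h4 := Finset.single_le_sum (f := fun q => if q ∈ un D D' then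
        3 * (H : ℝ) / QQ D D' else 0) (fun q _ => by
          show (0 : ℝ) ≤ if q ∈ un D D' then 3 * (H : ℝ) / QQ D D' else 0
          split_ifs
          · positivity
          · exact le_rfl) hq0
      simp only [if_pos hq0u] at h4
      exact h4
    obtain ⟨Es, hEs⟩ : ∃ Es, Es = ∑ q ∈ Exc ∩ PP z R,
      if q ∈ un D D' then 3 * (H : ℝ) / QQ D D' else 0 := ⟨_, rfl⟩
    rw [← hEs] at hE1 ⊢
    have hE2 : 3 * (H : ℝ) / QQ D D' = 3 * (H / QQ D D') := by ring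
    rw [hE2] at hE1
    rcases hval with ⟨-, h4⟩ | h4
    · rw [h4, zero_sub, abs_neg, abs_of_nonneg hH1]
      have := mul_nonneg ht0 hH1
      linarith
    · have h5 := abs_le.1 h4
      have h6 : (1 / 2 : ℝ) ^ t * (H / QQ D D') ≤ H / QQ D D' := mul_le_of_le_one_left hH2 ht1
      have := mul_nonneg ht0 hH1
      rw [abs_le]
      constructor <;> linarith [h5.1, h5.2]
  · push Not at hexc
    have hne : ∀ q ∈ un D D', q ∉ Exc := fun q hq hqE =>
      hexc q (Finset.mem_inter.2 ⟨hqE, un_sub hD hD' hq⟩) hq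
    by_cases hdis : Disjoint (D.image Prod.fst) (D'.image Prod.fst)
    · have hex := both_exists (α := α) (β := β) (μ := μ) (ν := ν) (μ' := μ') (ν' := ν') hD hD'
        hc hc' (fun x hx => h1 x.1 (Finset.mem_product.1 (hD hx)).1 (hne _ (mem_un_left hx)) x.2
          (hJ x hx)) (fun x hx => h1' x.1 (Finset.mem_product.1 (hD' hx)).1
            (hne _ (mem_un_right hx)) x.2 (hJ' x hx)) hdis
      rcases hval with ⟨h4, -⟩ | h4
      · obtain ⟨m0, hm0⟩ := hex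
        exact absurd hm0 (h4 m0)
      · have h5 : (QQ D D' : ℝ) = (md D : ℝ) * md D' := by
          exact_mod_cast QQ_disjoint hc hc' hdis
        rw [h5] at h4
        linarith
    · rw [Finset.not_disjoint_iff] at hdis
      obtain ⟨q0, hq0, hq0'⟩ := hdis
      have hq0u : q0 ∈ un D D' := Finset.mem_union_left _ hq0
      have hS0 : Sp z0 z A B α β μ ν μ' ν' u H D D' = 0 := by
        unfold Sp
        refine Finset.sum_eq_zero fun m _ => ?_
        rw [if_neg, mul_zero]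
        intro hb
        obtain ⟨x, hx, hxq⟩ := Finset.mem_image.1 hq0
        obtain ⟨x', hx', hxq'⟩ := Finset.mem_image.1 hq0'
        refine h3 q0 (un_sub hD hD' hq0u) (hne q0 hq0u) x.2 (hJ x hx) x'.2 (hJ' x' hx') m ⟨?_, ?_⟩
        · have := hb.1 x hx
          rw [hxq] at this
          exact this
        · have := hb.2 x' hx'
          rw [hxq'] at this
          exact this
      have hC1 : (H : ℝ) / ((md D : ℝ) * md D') ≤ ∑ q ∈ PP z R,
          if q ∈ D.image Prod.fst ∧ q ∈ D'.image Prod.fst then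
            (H : ℝ) / ((md D : ℝ) * md D') else 0 := by
        have h4 := Finset.single_le_sum (f := fun q =>
          if q ∈ D.image Prod.fst ∧ q ∈ D'.image Prod.fst then
            (H : ℝ) / ((md D : ℝ) * md D') else 0) (fun q _ => by
            show (0 : ℝ) ≤ if q ∈ D.image Prod.fst ∧ q ∈ D'.image Prod.fst then
              (H : ℝ) / ((md D : ℝ) * md D') else 0
            split_ifs
            · positivity
            · exact le_rfl) (un_sub hD hD' hq0u)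
        simp only [if_pos (And.intro hq0 hq0')] at h4
        exact h4
      rw [hS0, zero_sub, abs_neg, abs_of_nonneg hH1]
      have := mul_nonneg ht0 hH1
      linarith

/-! ### Sums of the errors -/

theorem sum_exc {K z b R : ℕ} (hz : 2 ≤ z) (hR : R ≤ z ^ b) (q0 : ℕ) (hq0 : q0 ∈ PP z R) :
    ∑ D ∈ (PI z R K).powerset, ∑ D' ∈ (PI z R K).powerset,
      (if q0 ∈ un D D' then 1 / (QQ D D' : ℝ) else 0) ≤ 4 ^ K * EE K b / z := by
  have h1 := fib (K := K) (PP z R) (fun y => if q0 ∈ y then 1 / ((∏ q ∈ y, q : ℕ) : ℝ) else 0)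
    (fun y => by
      show (0 : ℝ) ≤ if q0 ∈ y then 1 / ((∏ q ∈ y, q : ℕ) : ℝ) else 0
      split_ifs
      · positivity
      · exact le_rfl)
  refine le_trans (le_of_eq ?_) (h1.trans ?_)
  · rfl
  have h2 : ∑ y ∈ (PP z R).powerset, ((4 : ℝ) ^ K) ^ y.card *
      (if q0 ∈ y then 1 / ((∏ q ∈ y, q : ℕ) : ℝ) else 0) =
      ∑ y ∈ (PP z R).powerset, (if q0 ∈ y then ∏ q ∈ y, ((4 : ℝ) ^ K / q) else 0) := by
    refine Finset.sum_congr rfl fun y _ => ?_
    split_ifs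
    · rw [Finset.prod_div_distrib, Finset.prod_const]
      push_cast
      ring
    · ring
  rw [h2]
  refine (forced (PP z R) (fun q : ℕ => (4 : ℝ) ^ K / q) (fun q _ => by positivity) q0
    hq0).trans ?_
  have h3 := prodP_le (K := K) hz hR
  have hz0 : (0 : ℝ) < z := by exact_mod_cast (by omega : 0 < z)
  have h4 : (z : ℝ) ≤ q0 := by exact_mod_cast (PP_lt hq0).le
  have h5 : (4 : ℝ) ^ K / q0 ≤ 4 ^ K / z := div_le_div_of_nonneg_left (by positivity) hz0 h4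
  calc (4 : ℝ) ^ K / q0 * ∏ q ∈ PP z R, (1 + (4 : ℝ) ^ K / q) ≤ 4 ^ K / z * EE K b :=
        mul_le_mul h5 h3 (Finset.prod_nonneg fun q _ => by positivity) (by positivity)
    _ = _ := by ring

theorem sum_one {K z b R : ℕ} (hz : 2 ≤ z) (hR : R ≤ z ^ b) (q0 : ℕ) (hq0 : q0 ∈ PP z R) :
    ∑ D ∈ (PI z R K).powerset, (if q0 ∈ D.image Prod.fst then 1 / (md D : ℝ) else 0) ≤
      K * EE K b / q0 := by
  classical
  have h1 : ∀ D ∈ (PI z R K).powerset, (if q0 ∈ D.image Prod.fst then 1 / (md D : ℝ) else 0) ≤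
      ∑ j : Fin K, if (q0, j) ∈ D then ∏ x ∈ D, (1 / (x.1 : ℝ)) else 0 := by
    intro D _
    have e : (1 : ℝ) / (md D : ℝ) = ∏ x ∈ D, (1 / (x.1 : ℝ)) := by
      unfold md
      push_cast
      rw [Finset.prod_div_distrib, Finset.prod_const_one]
    have hnn : ∀ j ∈ (Finset.univ : Finset (Fin K)),
        (0 : ℝ) ≤ if (q0, j) ∈ D then ∏ x ∈ D, (1 / (x.1 : ℝ)) else 0 := by
      intro j _
      split_ifs
      · positivity
      · exact le_rfl
    split_ifs with h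
    · obtain ⟨⟨q, j⟩, hx, rfl⟩ := Finset.mem_image.1 h
      have h2 := Finset.single_le_sum hnn (Finset.mem_univ j)
      simp only [if_pos hx] at h2
      rw [e]
      exact h2
    · exact Finset.sum_nonneg hnn
  refine (Finset.sum_le_sum h1).trans ?_
  rw [Finset.sum_comm]
  have h2 : ∀ j ∈ (Finset.univ : Finset (Fin K)), ∑ D ∈ (PI z R K).powerset,
      (if (q0, j) ∈ D then ∏ x ∈ D, (1 / (x.1 : ℝ)) else 0) ≤ EE K b / q0 := by
    intro j _
    refine (forced (PI z R K) (fun x => 1 / (x.1 : ℝ)) (fun x _ => by positivity) (q0, j)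
      (Finset.mem_product.2 ⟨hq0, Finset.mem_univ _⟩)).trans ?_
    have h3 := prodPI_le (K := K) hz hR
    have h4 : (0 : ℝ) ≤ 1 / (q0 : ℝ) := by positivity
    calc (1 / (q0 : ℝ)) * ∏ x ∈ PI z R K, (1 + 1 / (x.1 : ℝ)) ≤ (1 / (q0 : ℝ)) * EE K b :=
          mul_le_mul_of_nonneg_left h3 h4
      _ = _ := by ring
  refine (Finset.sum_le_sum h2).trans ?_
  rw [Finset.sum_const, Finset.card_univ, Fintype.card_fin, nsmul_eq_mul]
  exact le_of_eq (by ring)

theorem sum_com {K z b R : ℕ} (hz : 2 ≤ z) (hR : R ≤ z ^ b) :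
    ∑ D ∈ (PI z R K).powerset, ∑ D' ∈ (PI z R K).powerset, ∑ q ∈ PP z R,
      (if q ∈ D.image Prod.fst ∧ q ∈ D'.image Prod.fst then
        1 / ((md D : ℝ) * md D') else 0) ≤ (K * EE K b) ^ 2 / z := by
  classical
  have h1 : ∑ D ∈ (PI z R K).powerset, ∑ D' ∈ (PI z R K).powerset, ∑ q ∈ PP z R,
      (if q ∈ D.image Prod.fst ∧ q ∈ D'.image Prod.fst then
        1 / ((md D : ℝ) * md D') else 0) =
      ∑ q ∈ PP z R, (∑ D ∈ (PI z R K).powerset,
        (if q ∈ D.image Prod.fst then 1 / (md D : ℝ) else 0)) ^ 2 := by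
    have e1 : ∀ D ∈ (PI z R K).powerset, ∑ D' ∈ (PI z R K).powerset, ∑ q ∈ PP z R,
        (if q ∈ D.image Prod.fst ∧ q ∈ D'.image Prod.fst then
          1 / ((md D : ℝ) * md D') else 0) =
        ∑ q ∈ PP z R, ∑ D' ∈ (PI z R K).powerset,
          (if q ∈ D.image Prod.fst ∧ q ∈ D'.image Prod.fst then
            1 / ((md D : ℝ) * md D') else 0) := fun D _ => Finset.sum_comm
    rw [Finset.sum_congr rfl e1, Finset.sum_comm]
    refine Finset.sum_congr rfl fun q _ => ?_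
    rw [sq, Finset.sum_mul_sum]
    refine Finset.sum_congr rfl fun D _ => Finset.sum_congr rfl fun D' _ => ?_
    by_cases h : q ∈ D.image Prod.fst <;> by_cases h' : q ∈ D'.image Prod.fst
    · rw [if_pos ⟨h, h'⟩, if_pos h, if_pos h', div_mul_div_comm, one_mul]
    · rw [if_neg fun h'' => h' h''.2, if_neg h', mul_zero]
    · rw [if_neg fun h'' => h h''.1, if_neg h, zero_mul]
    · rw [if_neg fun h'' => h h''.1, if_neg h, zero_mul]
  rw [h1]
  have h2 : ∀ q ∈ PP z R, (∑ D ∈ (PI z R K).powerset,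
      (if q ∈ D.image Prod.fst then 1 / (md D : ℝ) else 0)) ^ 2 ≤
      (K * EE K b) ^ 2 * (1 / (q : ℝ) ^ 2) := by
    intro q hq
    have h3 := sum_one (K := K) hz hR q hq
    have h4 : 0 ≤ ∑ D ∈ (PI z R K).powerset,
        (if q ∈ D.image Prod.fst then 1 / (md D : ℝ) else 0) := by
      refine Finset.sum_nonneg fun D _ => ?_
      split_ifs
      · positivity
      · exact le_rfl
    refine (pow_le_pow_left₀ h4 h3 2).trans (le_of_eq ?_)
    rw [div_pow]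
    ring
  refine (Finset.sum_le_sum h2).trans ?_
  rw [← Finset.mul_sum]
  refine (mul_le_mul_of_nonneg_left (sum_inv_sq z R (by omega)) (by positivity)).trans
    (le_of_eq (by ring))

/-- number of pairs of sets of conditions with nonzero coefficients -/
theorem sum_cc {K z b R X X' : ℕ} {C1 : ℝ} (hz : 2 ≤ z) (hX : X ≤ z ^ b) (hX' : X' ≤ z ^ b)
    {J J' : Finset (Fin K)} {c c' : Cond K → ℝ} (hc : Wt C1 X J c) (hc' : Wt C1 X' J' c') :
    ∑ D ∈ (PI z R K).powerset, ∑ D' ∈ (PI z R K).powerset, |c D| * |c' D'| ≤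
      C1 ^ 2 * 4 ^ (b * K) * (X * X') := by
  classical
  have hC : 0 ≤ C1 := (abs_nonneg _).trans (hc.bd ∅)
  have key : ∀ (Y : ℕ) (I : Finset (Fin K)) (d : Cond K → ℝ), Y ≤ z ^ b → Wt C1 Y I d →
      ∑ D ∈ (PI z R K).powerset, |d D| ≤ C1 * (2 ^ (b * K) * Y) := by
    intro Y I d hY hd
    have h1 : ∑ D ∈ (PI z R K).powerset, |d D| ≤
        ∑ D ∈ (PI z R K).powerset, if md D ≤ Y then C1 else 0 := by
      refine Finset.sum_le_sum fun D _ => ?_
      by_cases h : d D = 0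
      · rw [h, abs_zero]
        split_ifs
        · exact hC
        · exact le_rfl
      · rw [if_pos (hd.lev D h)]
        exact hd.bd D
    refine h1.trans ?_
    rw [← Finset.sum_filter, Finset.sum_const, nsmul_eq_mul]
    have h2 : ((((PI z R K).powerset.filter (fun D => md D ≤ Y)).card : ℕ) : ℝ) ≤
        (Y : ℝ) * 2 ^ (b * K) := by exact_mod_cast card_level hz hY
    calc _ ≤ (Y : ℝ) * 2 ^ (b * K) * C1 := mul_le_mul_of_nonneg_right h2 hC
      _ = _ := by ring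
  rw [← Finset.sum_mul_sum]
  have h3 := key X J c hX hc
  have h4 := key X' J' c' hX' hc'
  refine (mul_le_mul h3 h4 (Finset.sum_nonneg fun _ _ => abs_nonneg _) (by positivity)).trans
    (le_of_eq ?_)
  have h5 : (4 : ℝ) ^ (b * K) = 2 ^ (b * K) * 2 ^ (b * K) := by
    rw [← mul_pow]; norm_num
  rw [h5]
  ring

/-- The constant in the size of `z`. -/
noncomputable def Cst (K b E0 t : ℕ) (C1 : ℝ) : ℝ :=
  C1 ^ 2 * 4 ^ (b * K) + 2 ^ t * (C1 ^ 2 * (3 * E0 * (4 ^ K * EE K b) + (K * EE K b) ^ 2))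

theorem core {k K z0 z R t s0 b E0 X X' : ℕ} {C1 : ℝ}
    (hS : ∀ Q : ℕ, 0 < Q → (∀ q ∈ PP z0 z, ¬ q ∣ Q) →
      ∀ (A B : Fin k → ℤ), (∀ j, ∀ q ∈ PP z0 z, ¬ ((q : ℤ) ∣ A j)) → ∀ (c u : ℤ) (H : ℕ),
      |(∑ n ∈ (Ioc u (u + H)).filter (fun n => (Q : ℤ) ∣ n - c), nu z0 z A B n) - (H / Q : ℝ)| ≤
        (1 / 2) ^ t * (H / Q : ℝ) + (z : ℝ) ^ (s0 * (t + 1)))
    (hz : 2 ≤ z) (hzC : Cst K b E0 t C1 ≤ z) (hR : R ≤ z ^ b) (hX : X ≤ z ^ b) (hX' : X' ≤ z ^ b)
    {A B : Fin k → ℤ} (hA : ∀ j, ∀ q ∈ PP z0 z, ¬ ((q : ℤ) ∣ A j))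
    {α β : Fin K → ℤ} {J J' : Finset (Fin K)} {c c' : Cond K → ℝ} (hc : Wt C1 X J c)
    (hc' : Wt C1 X' J' c') {μ ν μ' ν' : ℤ} (Exc : Finset ℕ) (hE : Exc.card ≤ E0)
    (h1 : ∀ q ∈ PP z R, q ∉ Exc → ∀ j ∈ J, ¬ ((q : ℤ) ∣ α j * μ))
    (h1' : ∀ q ∈ PP z R, q ∉ Exc → ∀ j ∈ J', ¬ ((q : ℤ) ∣ α j * μ'))
    (h2 : ∀ q ∈ PP z R, ∀ j ∈ J,
      ¬ ((q : ℤ) ∣ α j * μ) ∨ ∀ m : ℤ, ¬ ((q : ℤ) ∣ α j * (μ * m + ν) + β j))
    (h2' : ∀ q ∈ PP z R, ∀ j ∈ J',
      ¬ ((q : ℤ) ∣ α j * μ') ∨ ∀ m : ℤ, ¬ ((q : ℤ) ∣ α j * (μ' * m + ν') + β j))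
    (h3 : ∀ q ∈ PP z R, q ∉ Exc → ∀ i ∈ J, ∀ j ∈ J', ∀ m : ℤ,
      ¬ ((q : ℤ) ∣ α i * (μ * m + ν) + β i ∧ (q : ℤ) ∣ α j * (μ' * m + ν') + β j))
    (u : ℤ) (H : ℕ) :
    |(∑ m ∈ Ioc u (u + H), nu z0 z A B m * wt z R c α β (μ * m + ν) *
      wt z R c' α β (μ' * m + ν')) - H * (wmean z R c * wmean z R c')| ≤
      (1 / 2) ^ t * (wnorm z R c * wnorm z R c' + 1) * H +
        (X : ℝ) * X' * (z : ℝ) ^ ((s0 + 1) * (t + 1)) := by
  classical
  have hC : 0 ≤ C1 := (abs_nonneg _).trans (hc.bd ∅)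
  have hz0 : (0 : ℝ) < z := by exact_mod_cast (by omega : 0 < z)
  have hz1 : (1 : ℝ) ≤ z := by exact_mod_cast (by omega : 1 ≤ z)
  have hH : (0 : ℝ) ≤ H := Nat.cast_nonneg H
  rw [expand]
  have hstep : |∑ D ∈ (PI z R K).powerset, ∑ D' ∈ (PI z R K).powerset, c D * c' D' *
      (Sp z0 z A B α β μ ν μ' ν' u H D D' - H / ((md D : ℝ) * md D'))| ≤
      ∑ D ∈ (PI z R K).powerset, ∑ D' ∈ (PI z R K).powerset,
        ((1 / 2) ^ t * H * (|c D| / md D * (|c' D'| / md D')) +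
          (z : ℝ) ^ (s0 * (t + 1)) * (|c D| * |c' D'|) +
          3 * H * C1 ^ 2 * (∑ q ∈ Exc ∩ PP z R, if q ∈ un D D' then 1 / (QQ D D' : ℝ) else 0) +
          H * C1 ^ 2 * ∑ q ∈ PP z R, if q ∈ D.image Prod.fst ∧ q ∈ D'.image Prod.fst then
            1 / ((md D : ℝ) * md D') else 0) := by
    refine (Finset.abs_sum_le_sum_abs _ _).trans (Finset.sum_le_sum fun D hD => ?_)
    refine (Finset.abs_sum_le_sum_abs _ _).trans (Finset.sum_le_sum fun D' hD' => ?_)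
    rw [Finset.mem_powerset] at hD hD'
    have hE0 : 0 ≤ ∑ q ∈ Exc ∩ PP z R, if q ∈ un D D' then 1 / (QQ D D' : ℝ) else 0 := by
      refine Finset.sum_nonneg fun q _ => ?_
      split_ifs
      · positivity
      · exact le_rfl
    have hC0 : 0 ≤ ∑ q ∈ PP z R, if q ∈ D.image Prod.fst ∧ q ∈ D'.image Prod.fst then
        1 / ((md D : ℝ) * md D') else 0 := by
      refine Finset.sum_nonneg fun q _ => ?_
      split_ifs
      · positivity
      · exact le_rfl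
    by_cases hD0 : c D = 0
    · rw [hD0, zero_mul, zero_mul, abs_zero]
      positivity
    by_cases hD0' : c' D' = 0
    · rw [hD0', mul_zero, zero_mul, abs_zero]
      positivity
    have hp := pair_bound (B := B) hS hA hD hD' (hc.idx D hD0) (hc'.idx D' hD0') (hc.clean D hD0)
      (hc'.clean D' hD0') Exc h1 h1' h2 h2' h3 u H
    have hcc : |c D| * |c' D'| ≤ C1 ^ 2 := by
      rw [sq]
      exact mul_le_mul (hc.bd D) (hc'.bd D') (abs_nonneg _) hC
    have hcc0 : 0 ≤ |c D| * |c' D'| := by positivity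
    rw [abs_mul, abs_mul]
    have e1 : (∑ q ∈ Exc ∩ PP z R, if q ∈ un D D' then 3 * (H : ℝ) / QQ D D' else 0) =
        3 * H * ∑ q ∈ Exc ∩ PP z R, if q ∈ un D D' then 1 / (QQ D D' : ℝ) else 0 := by
      rw [Finset.mul_sum]
      refine Finset.sum_congr rfl fun q _ => ?_
      split_ifs
      · ring
      · ring
    have e2 : (∑ q ∈ PP z R, if q ∈ D.image Prod.fst ∧ q ∈ D'.image Prod.fst then
        (H : ℝ) / ((md D : ℝ) * md D') else 0) =
        H * ∑ q ∈ PP z R, if q ∈ D.image Prod.fst ∧ q ∈ D'.image Prod.fst then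
          1 / ((md D : ℝ) * md D') else 0 := by
      rw [Finset.mul_sum]
      refine Finset.sum_congr rfl fun q _ => ?_
      split_ifs
      · ring
      · ring
    rw [e1, e2] at hp
    refine (mul_le_mul_of_nonneg_left hp hcc0).trans ?_
    rw [mul_add, mul_add, mul_add]
    refine add_le_add (add_le_add (add_le_add ?_ ?_) ?_) ?_
    · refine le_of_eq ?_
      rw [div_mul_div_comm]
      ring
    · exact le_of_eq (mul_comm _ _)
    · calc |c D| * |c' D'| * (3 * H *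
          ∑ q ∈ Exc ∩ PP z R, if q ∈ un D D' then 1 / (QQ D D' : ℝ) else 0) ≤ C1 ^ 2 * (3 * H *
          ∑ q ∈ Exc ∩ PP z R, if q ∈ un D D' then 1 / (QQ D D' : ℝ) else 0) :=
            mul_le_mul_of_nonneg_right hcc (by positivity)
        _ = _ := by ring
    · calc |c D| * |c' D'| * (H * ∑ q ∈ PP z R,
          if q ∈ D.image Prod.fst ∧ q ∈ D'.image Prod.fst then
            1 / ((md D : ℝ) * md D') else 0) ≤ C1 ^ 2 * (H * ∑ q ∈ PP z R,
          if q ∈ D.image Prod.fst ∧ q ∈ D'.image Prod.fst then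
            1 / ((md D : ℝ) * md D') else 0) :=
            mul_le_mul_of_nonneg_right hcc (by positivity)
        _ = _ := by ring
  refine hstep.trans ?_
  simp only [Finset.sum_add_distrib, ← Finset.mul_sum]
  -- the four sums
  have s1 : ∑ D ∈ (PI z R K).powerset, |c D| / md D * ∑ D' ∈ (PI z R K).powerset,
      |c' D'| / md D' = wnorm z R c * wnorm z R c' := by
    unfold wnorm
    rw [Finset.sum_mul]
  have s2 : ∑ D ∈ (PI z R K).powerset, |c D| * ∑ D' ∈ (PI z R K).powerset, |c' D'| ≤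
      C1 ^ 2 * 4 ^ (b * K) * (X * X') := by
    have := sum_cc (R := R) hz hX hX' hc hc'
    simp only [← Finset.mul_sum] at this
    exact this
  have s3 : ∑ D ∈ (PI z R K).powerset, ∑ D' ∈ (PI z R K).powerset,
      (∑ q ∈ Exc ∩ PP z R, if q ∈ un D D' then 1 / (QQ D D' : ℝ) else 0) ≤
      E0 * (4 ^ K * EE K b / z) := by
    have e1 : ∑ D ∈ (PI z R K).powerset, ∑ D' ∈ (PI z R K).powerset,
        (∑ q ∈ Exc ∩ PP z R, if q ∈ un D D' then 1 / (QQ D D' : ℝ) else 0) =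
        ∑ q ∈ Exc ∩ PP z R, ∑ D ∈ (PI z R K).powerset, ∑ D' ∈ (PI z R K).powerset,
          (if q ∈ un D D' then 1 / (QQ D D' : ℝ) else 0) := by
      have e2 : ∀ D ∈ (PI z R K).powerset, ∑ D' ∈ (PI z R K).powerset,
          (∑ q ∈ Exc ∩ PP z R, if q ∈ un D D' then 1 / (QQ D D' : ℝ) else 0) =
          ∑ q ∈ Exc ∩ PP z R, ∑ D' ∈ (PI z R K).powerset,
            (if q ∈ un D D' then 1 / (QQ D D' : ℝ) else 0) := fun D _ => Finset.sum_comm
      rw [Finset.sum_congr rfl e2, Finset.sum_comm]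
    rw [e1]
    refine (Finset.sum_le_sum fun q hq => sum_exc (K := K) hz hR q
      (Finset.mem_inter.1 hq).2).trans ?_
    rw [Finset.sum_const, nsmul_eq_mul]
    refine mul_le_mul_of_nonneg_right ?_ (by
      have := one_le_EE K b
      positivity)
    exact_mod_cast (Finset.card_le_card Finset.inter_subset_left).trans hE
  have s4 := sum_com (K := K) hz hR
  have hEE := one_le_EE K b
  have hzt : (z : ℝ) ≤ (z : ℝ) ^ (t + 1) := by
    calc (z : ℝ) = (z : ℝ) ^ 1 := (pow_one _).symm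
      _ ≤ _ := pow_le_pow_right₀ hz1 (by omega)
  have hc1 : C1 ^ 2 * 4 ^ (b * K) ≤ z := by
    refine le_trans ?_ hzC
    unfold Cst
    have : 0 ≤ 2 ^ t * (C1 ^ 2 * (3 * E0 * (4 ^ K * EE K b) + (K * EE K b) ^ 2)) := by positivity
    linarith
  have hc2 : 2 ^ t * (C1 ^ 2 * (3 * E0 * (4 ^ K * EE K b) + (K * EE K b) ^ 2)) ≤ z := by
    refine le_trans ?_ hzC
    unfold Cst
    have : 0 ≤ C1 ^ 2 * (4 : ℝ) ^ (b * K) := by positivity
    linarith
  have f2 : (z : ℝ) ^ (s0 * (t + 1)) * (∑ D ∈ (PI z R K).powerset, |c D| *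
      ∑ D' ∈ (PI z R K).powerset, |c' D'|) ≤ (X : ℝ) * X' * (z : ℝ) ^ ((s0 + 1) * (t + 1)) := by
    calc _ ≤ (z : ℝ) ^ (s0 * (t + 1)) * (C1 ^ 2 * 4 ^ (b * K) * (X * X')) :=
          mul_le_mul_of_nonneg_left s2 (by positivity)
      _ ≤ (z : ℝ) ^ (s0 * (t + 1)) * ((z : ℝ) ^ (t + 1) * (X * X')) := by
          refine mul_le_mul_of_nonneg_left (mul_le_mul_of_nonneg_right (hc1.trans hzt)
            (by positivity)) (by positivity)
      _ = _ := by ring
  have f3 : 3 * H * C1 ^ 2 * (∑ D ∈ (PI z R K).powerset, ∑ D' ∈ (PI z R K).powerset,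
      (∑ q ∈ Exc ∩ PP z R, if q ∈ un D D' then 1 / (QQ D D' : ℝ) else 0)) +
      H * C1 ^ 2 * (∑ D ∈ (PI z R K).powerset, ∑ D' ∈ (PI z R K).powerset, ∑ q ∈ PP z R,
        (if q ∈ D.image Prod.fst ∧ q ∈ D'.image Prod.fst then
          1 / ((md D : ℝ) * md D') else 0)) ≤ (1 / 2) ^ t * H := by
    have g1 := mul_le_mul_of_nonneg_left s3 (show 0 ≤ 3 * H * C1 ^ 2 by positivity)
    have g2 := mul_le_mul_of_nonneg_left s4 (show 0 ≤ H * C1 ^ 2 by positivity)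
    refine (add_le_add g1 g2).trans ?_
    have e : 3 * H * C1 ^ 2 * (E0 * (4 ^ K * EE K b / z)) + H * C1 ^ 2 * ((K * EE K b) ^ 2 / z) =
        (1 / 2) ^ t * H * (2 ^ t * (C1 ^ 2 * (3 * E0 * (4 ^ K * EE K b) + (K * EE K b) ^ 2)) / z)
        := by
      have h2t : (1 / 2 : ℝ) ^ t * 2 ^ t = 1 := by
        rw [← mul_pow]; norm_num
      calc _ = ((1 / 2 : ℝ) ^ t * 2 ^ t) * (3 * H * C1 ^ 2 * (E0 * (4 ^ K * EE K b / z)) +
            H * C1 ^ 2 * ((K * EE K b) ^ 2 / z)) := by rw [h2t, one_mul]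
        _ = _ := by ring
    rw [e]
    refine mul_le_of_le_one_right (by positivity) ?_
    rw [div_le_one hz0]
    exact hc2
  rw [s1]
  have e5 : (1 / 2 : ℝ) ^ t * (wnorm z R c * wnorm z R c' + 1) * H =
      (1 / 2) ^ t * H * (wnorm z R c * wnorm z R c') + (1 / 2) ^ t * H := by ring
  rw [e5]
  linarith

theorem ev2_62 (hS2 : S2rStmt) : EV2Stmt := by
  intro k K
  obtain ⟨s0, zs, hS⟩ := hS2 k
  refine ⟨s0 + 1, zs, fun t z0 hz0 b0 E0 C1 => ?_⟩
  refine ⟨z0 + 2 + ⌈Cst K b0 E0 t C1⌉₊, fun z hz R X hR hX A B hA α β J c c' hc hc' μ ν μ' ν' Exc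
    hE h1 h2 h3 u H => ?_⟩
  have hzC : Cst K b0 E0 t C1 ≤ z := by
    refine (Nat.le_ceil _).trans ?_
    exact_mod_cast (by omega : ⌈Cst K b0 E0 t C1⌉₊ ≤ z)
  have h := core (k := k) (K := K) (z0 := z0) (t := t) (s0 := s0) (E0 := E0) (B := B)
    (fun Q hQ hQ' A B hA c u H => hS t z0 hz0 z (by omega) A B hA Q hQ hQ' c u H)
    (by omega) hzC hR hX hX hA hc hc' Exc hE (fun q hq hq' j hj => (h1 q hq hq' j hj).1)
    (fun q hq hq' j hj => (h1 q hq hq' j hj).2) (fun q hq j hj => (h2 q hq j hj).1)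
    (fun q hq j hj => (h2 q hq j hj).2) h3 u H
  rw [sq]
  exact h

open Classical in
/-- the coefficients of the constant weight 1 -/
noncomputable def eD {K : ℕ} (D : Cond K) : ℝ := if D = ∅ then 1 else 0

theorem eD_empty {K : ℕ} : eD (∅ : Cond K) = 1 := if_pos rfl

theorem eD_ne {K : ℕ} {D : Cond K} (h : D ≠ ∅) : eD D = 0 := if_neg h

theorem ev1_62 (hS2 : S2rStmt) : EV1Stmt := by
  classical
  intro k K
  obtain ⟨s0, zs, hS⟩ := hS2 k
  refine ⟨s0 + 1, zs, fun t z0 hz0 b0 E0 C1 => ?_⟩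
  refine ⟨z0 + 2 + ⌈Cst K b0 E0 t (max C1 1)⌉₊, fun z hz R X hR hX A B hA α β J c hc μ ν Exc
    hE h1 h2 u H => ?_⟩
  have hzC : Cst K b0 E0 t (max C1 1) ≤ z := by
    refine (Nat.le_ceil _).trans ?_
    exact_mod_cast (by omega : ⌈Cst K b0 E0 t (max C1 1)⌉₊ ≤ z)
  have hc2 : Wt (max C1 1) X J c :=
    ⟨fun D => (hc.bd D).trans (le_max_left _ _), hc.clean, hc.lev, hc.idx⟩
  have hc' : Wt (max C1 1) 1 (∅ : Finset (Fin K)) eD := by
    have key : ∀ D : Cond K, eD D ≠ 0 → D = ∅ := by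
      intro D h
      by_contra h'
      exact h (eD_ne h')
    refine ⟨fun D => ?_, fun D h => ?_, fun D h => ?_, fun D h x hx => ?_⟩
    · by_cases hD : D = ∅
      · rw [hD, eD_empty, abs_one]; exact le_max_right _ _
      · rw [eD_ne hD, abs_zero]; exact le_trans (by norm_num) (le_max_right _ _)
    · rw [key D h]
      intro x hx
      simp at hx
    · rw [key D h]
      exact le_of_eq Finset.prod_empty
    · rw [key D h] at hx
      exact absurd hx (Finset.notMem_empty x)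
  have hempty : (∅ : Cond K) ∈ (PI z R K).powerset := Finset.empty_mem_powerset _
  have w1 : ∀ U, wt z R eD α β U = 1 := by
    intro U
    unfold wt
    rw [Finset.sum_eq_single_of_mem ∅ hempty]
    · rw [eD_empty, if_pos, mul_one]
      intro x hx
      exact absurd hx (Finset.notMem_empty x)
    · intro D _ hD
      rw [eD_ne hD, zero_mul]
  have w2 : wmean z R (eD (K := K)) = 1 := by
    unfold wmean
    rw [Finset.sum_eq_single_of_mem ∅ hempty]
    · rw [eD_empty]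
      simp [md]
    · intro D _ hD
      rw [eD_ne hD, zero_div]
  have w3 : wnorm z R (eD (K := K)) = 1 := by
    unfold wnorm
    rw [Finset.sum_eq_single_of_mem ∅ hempty]
    · rw [eD_empty]
      simp [md]
    · intro D _ hD
      rw [eD_ne hD, abs_zero, zero_div]
  have hzb : 1 ≤ z ^ b0 := Nat.one_le_pow _ _ (by omega)
  have h := core (k := k) (K := K) (z0 := z0) (t := t) (s0 := s0) (E0 := E0) (B := B)
    (μ := μ) (ν := ν) (μ' := 0) (ν' := 0)
    (fun Q hQ hQ' A B hA c u H => hS t z0 hz0 z (by omega) A B hA Q hQ hQ' c u H)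
    (by omega) hzC hR hX hzb hA hc2 hc' Exc hE h1
    (fun q hq hq' j hj => absurd hj (Finset.notMem_empty j)) h2
    (fun q hq j hj => absurd hj (Finset.notMem_empty j))
    (fun q hq hq' i hi j hj => absurd hj (Finset.notMem_empty j)) u H
  simp only [w1, w2, w3, mul_one, Nat.cast_one] at h
  exact h

end Pool.Agent.Lib.MT2.T62
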