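import Mathlib
import Pool.Agent.Lib.MT2.Stmts

/-!
Module FIX: passing to a residue class so that the fixed parts of the main forms have a
prescribed number of prime factors.
-/

set_option autoImplicit false

namespace Pool.Agent.Lib.MT2.Fix49

open Finset

/-- pigeonhole: a number `x ≤ F` with no form divisible by `m` -/
lemma pigeon {ι : Type*} [Fintype ι] (c d : ι → ℤ) (m : ℤ)
    (h : ∀ f, ∀ y : ℤ, 0 < y → y ≤ Fintype.card ι → ¬ m ∣ c f * y) :
    ∃ x : ℕ, x ≤ Fintype.card ι ∧ ∀ f, ¬ m ∣ c f * x + d f := by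
  by_contra hcon
  push Not at hcon
  have h1 : ∀ x : Fin (Fintype.card ι + 1), ∃ f, m ∣ c f * ((x : ℕ) : ℤ) + d f := fun x =>
    hcon x (Nat.lt_succ_iff.1 x.2)
  choose g hg using h1
  obtain ⟨x, x', hne, hgx⟩ := Fintype.exists_ne_map_eq_of_card_lt g (by simp)
  have key : ∀ x x' : Fin (Fintype.card ι + 1), x < x' → g x = g x' → False := by
    intro x x' hlt hgx
    have hd : m ∣ c (g x) * (((x' : ℕ) : ℤ) - ((x : ℕ) : ℤ)) := by
      have h2 := hg x'
      rw [← hgx] at h2
      have h3 := dvd_sub h2 (hg x)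
      have h4 : c (g x) * ((x' : ℕ) : ℤ) + d (g x) - (c (g x) * ((x : ℕ) : ℤ) + d (g x)) =
        c (g x) * (((x' : ℕ) : ℤ) - ((x : ℕ) : ℤ)) := by ring
      rwa [h4] at h3
    have hlt' : (x : ℕ) < x' := hlt
    have := x'.2
    exact h (g x) _ (by omega) (by omega) hd
  rcases lt_or_gt_of_ne hne with h2 | h2
  · exact key x x' h2 hgx
  · exact key x' x h2 hgx.symm

lemma crt (w : ℕ) (r n : ℕ → ℕ) :
    ∃ U : ℕ, ∀ q : ℕ, q.Prime → q ≤ w → U ≡ r q [MOD q ^ n q] := by
  have hp : Set.Pairwise (((range (w + 1)).filter Nat.Prime : Finset ℕ) : Set ℕ)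
      (Function.onFun Nat.Coprime (fun q => q ^ n q)) := by
    intro q hq q' hq' hne
    have hq1 := (mem_filter.1 (mem_coe.1 hq)).2
    have hq2 := (mem_filter.1 (mem_coe.1 hq')).2
    exact Nat.Coprime.pow _ _ ((Nat.coprime_primes hq1 hq2).2 hne)
  have h := Nat.chineseRemainderOfFinset r (fun q => q ^ n q) ((range (w + 1)).filter Nat.Prime)
    (fun q hq => pow_ne_zero _ (Nat.Prime.ne_zero (mem_filter.1 hq).2)) hp
  exact ⟨h.1, fun q hq hw => h.2 q (mem_filter.2 ⟨mem_range.2 (by omega), hq⟩)⟩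

lemma fac_lt {q E x : ℕ} (hq : q.Prime) (hx : ¬ q ^ E ∣ x) : x.factorization q < E := by
  have hx0 : x ≠ 0 := fun h => hx (h ▸ dvd_zero _)
  by_contra hcon
  exact hx ((hq.pow_dvd_iff_le_factorization hx0).2 (not_lt.1 hcon))

lemma fac_eq {q E x y : ℕ} (hq : q.Prime) (hx : ¬ q ^ E ∣ x) (hxy : x ≡ y [MOD q ^ E]) :
    x.factorization q = y.factorization q := by
  have hy : ¬ q ^ E ∣ y := fun h => hx ((hxy.dvd_iff dvd_rfl).2 h)
  have hx0 : x ≠ 0 := fun h => hx (h ▸ dvd_zero _)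
  have hy0 : y ≠ 0 := fun h => hy (h ▸ dvd_zero _)
  have h1 : ∀ n, n ≤ E → (q ^ n ∣ x ↔ q ^ n ∣ y) := fun n hn =>
    hxy.dvd_iff (pow_dvd_pow q hn)
  have hxE := fac_lt hq hx
  have hyE := fac_lt hq hy
  apply le_antisymm
  · exact (hq.pow_dvd_iff_le_factorization hy0).1 ((h1 _ hxE.le).1
      ((hq.pow_dvd_iff_le_factorization hx0).2 le_rfl))
  · exact (hq.pow_dvd_iff_le_factorization hx0).1 ((h1 _ hyE.le).2
      ((hq.pow_dvd_iff_le_factorization hy0).2 le_rfl))

lemma card_gcd (w x y : ℕ) (hx : x ≠ 0) (hy : y ≠ 0)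
    (h1 : ∀ q : ℕ, q.Prime → q ≤ w → y.factorization q ≤ x.factorization q)
    (h2 : ∀ q : ℕ, q.Prime → w < q → ¬ q ∣ x) :
    ArithmeticFunction.cardFactors (Nat.gcd x y) =
      ∑ q ∈ (range (w + 1)).filter Nat.Prime, y.factorization q := by
  rw [ArithmeticFunction.cardFactors_eq_sum_factorization, Finsupp.sum]
  have hf : (Nat.gcd x y).factorization = x.factorization ⊓ y.factorization :=
    Nat.factorization_gcd hx hy
  have hsub : (Nat.gcd x y).factorization.support ⊆ (range (w + 1)).filter Nat.Prime := by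
    intro q hq
    rw [Nat.support_factorization, Nat.mem_primeFactors] at hq
    rw [mem_filter, mem_range]
    refine ⟨?_, hq.1⟩
    by_contra hcon
    exact h2 q hq.1 (by omega) (hq.2.1.trans (Nat.gcd_dvd_left x y))
  rw [sum_subset hsub]
  · apply sum_congr rfl
    intro q hq
    rw [mem_filter, mem_range] at hq
    rw [hf, Finsupp.inf_apply]
    exact min_eq_right (h1 q hq.2 (by omega))
  · intro q _ hq
    exact Finsupp.notMem_support_iff.1 hq

/-- a positive integer `y ≤ F` times a bounded nonzero coefficient is not divisible by `m` -/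
lemma not_dvd_small {m c y D F : ℤ} (hc : c ≠ 0) (hcD : |c| ≤ D) (hy : 0 < y) (hyF : y ≤ F)
    (hm : D * F < m) : ¬ m ∣ c * y := by
  intro h
  have h0 : c * y ≠ 0 := mul_ne_zero hc hy.ne'
  have h1 : m ≤ |c * y| := Int.le_of_dvd (abs_pos.2 h0) ((dvd_abs _ _).2 h)
  rw [abs_mul, abs_of_pos hy] at h1
  have h2 : |c| * y ≤ D * F := mul_le_mul hcD hyF hy.le ((abs_nonneg c).trans hcD)
  omega

lemma gen_step {K k : ℕ} (A B : Fin K → ℕ) (a b : Fin k → ℤ) (D : ℕ)
    (hA : ∀ i, 0 < A i ∧ A i ≤ D) (ha : ∀ e, a e ≠ 0 ∧ |a e| ≤ D) (m : ℕ)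
    (hm : D * (K + k) < m) :
    ∃ r : ℕ, ∀ U : ℕ, U ≡ r [MOD m] →
      (∀ i, ¬ m ∣ A i * U + B i) ∧ ∀ f, ¬ ((m : ℤ) ∣ a f * U + b f) := by
  have hmz : (D : ℤ) * ((Fintype.card (Fin K ⊕ Fin k) : ℕ) : ℤ) < (m : ℤ) := by
    rw [Fintype.card_sum, Fintype.card_fin, Fintype.card_fin]
    exact_mod_cast hm
  obtain ⟨r, -, hr⟩ := pigeon (Sum.elim (fun i => (A i : ℤ)) a)
    (Sum.elim (fun i => (B i : ℤ)) b) (m : ℤ) (by
      rintro (i | f) y hy hy2
      · refine not_dvd_small (c := (A i : ℤ)) (D := D) ?_ ?_ hy hy2 hmz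
        · have := (hA i).1
          positivity
        · rw [abs_of_nonneg (by positivity)]
          exact_mod_cast (hA i).2
      · exact not_dvd_small (ha f).1 (ha f).2 hy hy2 hmz)
  refine ⟨r, fun U hU => ⟨fun i hd => ?_, fun f hd => ?_⟩⟩
  · have h1 := hr (Sum.inl i)
    apply h1
    simp only [Sum.elim_inl]
    have h2 : A i * U + B i ≡ A i * r + B i [MOD m] := (hU.mul_left _).add_right _
    have h3 := (h2.dvd_iff dvd_rfl).1 hd
    exact_mod_cast h3
  · have h1 := hr (Sum.inr f)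
    apply h1
    simp only [Sum.elim_inr]
    have h2 : (m : ℤ) ∣ (r : ℤ) - U := Nat.modEq_iff_dvd.1 hU
    have h3 : a f * (r : ℤ) + b f = (a f * U + b f) + a f * ((r : ℤ) - U) := by ring
    rw [h3]
    exact dvd_add hd (Dvd.dvd.mul_left h2 _)

/-- at an auxiliary prime: exact valuation `e` for the form `j`, nothing for the others -/
lemma aux_step {K k : ℕ} (A B : Fin K → ℕ) (a b : Fin k → ℤ) (D : ℕ)
    (hA : ∀ i, 0 < A i ∧ A i ≤ D) (hB : ∀ i, B i ≤ D) (ha : ∀ e, a e ≠ 0 ∧ |a e| ≤ D)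
    (hdet : ∀ i j, i ≠ j → A i * B j ≠ A j * B i)
    (p : ℕ) (hp : p.Prime) (hpD : D * (k + 1) < p) (hpD2 : D * D < p) (j : Fin K) (e : ℕ)
    (he : 1 ≤ e) :
    ∃ r : ℕ, ∀ U : ℕ, U ≡ r [MOD p ^ (e + 1)] →
      (A j * U + B j).factorization p = e ∧ (∀ i, i ≠ j → ¬ p ∣ A i * U + B i) ∧
        ∀ f, ¬ ((p : ℤ) ^ (e + 1) ∣ a f * U + b f) := by
  have hDp : D < p := by nlinarith [Nat.zero_le (D * k)]
  have hcop : IsCoprime ((A j : ℤ)) ((p : ℤ) ^ e) := by
    apply IsCoprime.pow_right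
    rw [Nat.isCoprime_iff_coprime]
    rw [Nat.coprime_comm]
    exact (Nat.Prime.coprime_iff_not_dvd hp).2 (fun hd => by
      have := Nat.le_of_dvd (hA j).1 hd
      have := (hA j).2
      omega)
  obtain ⟨u, v, huv⟩ := hcop
  have hpe : (0 : ℤ) < (p : ℤ) ^ e := by
    have := hp.pos
    positivity
  obtain ⟨r0, hr0⟩ : ∃ r0 : ℕ, (p : ℤ) ^ e ∣ (A j : ℤ) * r0 + B j := by
    refine ⟨((-u * B j) % ((p : ℤ) ^ e)).toNat, ?_⟩
    rw [Int.toNat_of_nonneg (Int.emod_nonneg _ hpe.ne')]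
    have h1 : (p : ℤ) ^ e ∣ (-u * B j) % ((p : ℤ) ^ e) - (-u * B j) :=
      Int.emod_emod_of_dvd _ dvd_rfl |> Int.ModEq.dvd |> fun h => by
        rw [dvd_sub_comm]; exact h
    have h2 : (A j : ℤ) * ((-u * B j) % ((p : ℤ) ^ e)) + B j =
        (A j : ℤ) * ((-u * B j) % ((p : ℤ) ^ e) - (-u * B j)) + B j * (v * (p : ℤ) ^ e) := by
      have h3 : (v * (p : ℤ) ^ e) = 1 - u * A j := by linarith
      rw [h3]; ring
    rw [h2]
    exact dvd_add (Dvd.dvd.mul_left h1 _) (Dvd.dvd.mul_left (Dvd.intro_left _ rfl) _)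
  have hsm : ((D : ℤ) * ((Fintype.card (Option (Fin k)) : ℕ) : ℤ)) < (p : ℤ) := by
    rw [Fintype.card_option, Fintype.card_fin]
    exact_mod_cast hpD
  have hAj : ((A j : ℤ)) ≠ 0 ∧ |((A j : ℤ))| ≤ (D : ℤ) := by
    constructor
    · have := (hA j).1
      positivity
    · rw [abs_of_nonneg (by positivity)]
      exact_mod_cast (hA j).2
  have hgen : ∀ c y : ℤ, c ≠ 0 → |c| ≤ D → 0 < y →
      y ≤ ((Fintype.card (Option (Fin k)) : ℕ) : ℤ) → ¬ (p : ℤ) ^ (e + 1) ∣ c * (p : ℤ) ^ e * y := by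
    intro c y hc hcD hy hy2 hd
    have h1 : c * (p : ℤ) ^ e * y = (p : ℤ) ^ e * (c * y) := by ring
    rw [h1, pow_succ] at hd
    exact not_dvd_small hc hcD hy hy2 hsm ((mul_dvd_mul_iff_left hpe.ne').1 hd)
  obtain ⟨x, -, hx⟩ := pigeon
    (fun o : Option (Fin k) => Option.elim o ((A j : ℤ) * (p : ℤ) ^ e) (fun f => a f * (p : ℤ) ^ e))
    (fun o : Option (Fin k) => Option.elim o ((A j : ℤ) * r0 + B j) (fun f => a f * r0 + b f))
    ((p : ℤ) ^ (e + 1)) (by
      rintro (_ | f) y hy hy2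
      · exact hgen _ y hAj.1 hAj.2 hy hy2
      · exact hgen _ y (ha f).1 (ha f).2 hy hy2)
  refine ⟨r0 + p ^ e * x, fun U hU => ?_⟩
  have hUz : (p : ℤ) ^ (e + 1) ∣ ((r0 : ℤ) + (p : ℤ) ^ e * x) - U := by
    have := Nat.modEq_iff_dvd.1 hU
    push_cast at this
    exact this
  have hmain : (p : ℤ) ^ e ∣ (A j : ℤ) * U + B j ∧ ¬ (p : ℤ) ^ (e + 1) ∣ (A j : ℤ) * U + B j := by
    have h3 : (A j : ℤ) * U + B j = ((A j : ℤ) * (p : ℤ) ^ e * x + ((A j : ℤ) * r0 + B j)) -
        A j * (((r0 : ℤ) + (p : ℤ) ^ e * x) - U) := by ring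
    constructor
    · rw [h3]
      refine dvd_sub (dvd_add ?_ hr0) (Dvd.dvd.mul_left ((pow_dvd_pow _ (by omega)).trans hUz) _)
      exact ⟨(A j : ℤ) * x, by ring⟩
    · intro hd
      rw [h3] at hd
      exact hx none ((dvd_sub_left (Dvd.dvd.mul_left hUz _)).1 hd)
  have hmN : p ^ e ∣ A j * U + B j ∧ ¬ p ^ (e + 1) ∣ A j * U + B j := by
    constructor
    · exact_mod_cast hmain.1
    · intro hd
      exact hmain.2 (by exact_mod_cast hd)
  have hN0 : A j * U + B j ≠ 0 := fun h => hmN.2 (h ▸ dvd_zero _)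
  refine ⟨?_, ?_, ?_⟩
  · have h1 := fac_lt hp hmN.2
    have h2 := (hp.pow_dvd_iff_le_factorization hN0).1 hmN.1
    omega
  · intro i hij hd
    have h1 : (p : ℤ) ∣ (A j : ℤ) * U + B j := by
      have : p ∣ A j * U + B j := (dvd_pow_self p (by omega)).trans hmN.1
      exact_mod_cast this
    have h2 : (p : ℤ) ∣ (A i : ℤ) * U + B i := by exact_mod_cast hd
    have h3 : (p : ℤ) ∣ (A i : ℤ) * B j - A j * B i := by
      have h4 : (A i : ℤ) * B j - A j * B i =
        A i * ((A j : ℤ) * U + B j) - A j * ((A i : ℤ) * U + B i) := by ring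
      rw [h4]
      exact dvd_sub (Dvd.dvd.mul_left h1 _) (Dvd.dvd.mul_left h2 _)
    have h5 : (A i : ℤ) * B j - A j * B i ≠ 0 := by
      intro h0
      exact hdet i j hij (by exact_mod_cast (sub_eq_zero.1 h0))
    have h6 : (p : ℤ) ≤ |(A i : ℤ) * B j - A j * B i| :=
      Int.le_of_dvd (abs_pos.2 h5) ((dvd_abs _ _).2 h3)
    have h7 : A i * B j ≤ D * D := Nat.mul_le_mul (hA i).2 (hB j)
    have h8 : A j * B i ≤ D * D := Nat.mul_le_mul (hA j).2 (hB i)
    have h9 : |(A i : ℤ) * B j - A j * B i| ≤ D * D := by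
      rw [abs_le]
      constructor
      · have : (A j : ℤ) * B i ≤ D * D := by exact_mod_cast h8
        have : (0 : ℤ) ≤ (A i : ℤ) * B j := by positivity
        linarith
      · have : (A i : ℤ) * B j ≤ D * D := by exact_mod_cast h7
        have : (0 : ℤ) ≤ (A j : ℤ) * B i := by positivity
        linarith
    have h10 : (D : ℤ) * D < p := by exact_mod_cast hpD2
    linarith
  · intro f hd
    have h3 : a f * (U : ℤ) + b f = (a f * (p : ℤ) ^ e * x + (a f * r0 + b f)) -
        a f * (((r0 : ℤ) + (p : ℤ) ^ e * x) - U) := by ring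
    rw [h3] at hd
    exact hx (some f) ((dvd_sub_left (Dvd.dvd.mul_left hUz _)).1 hd)

/-- the residue class -/
lemma core (K k D G w : ℕ) (π : Fin K → ℕ)
    (hG : (D * (K + k) + 1) * ((D + 1) * (D + (K + k) + 2) + 1) + 1 ≤ G)
    (hπ : ∀ j, (π j).Prime ∧ (D + 1) * (D + (K + k) + 2) < π j) (hinj : Function.Injective π)
    (hq1w : (D + 1) * (D + (K + k) + 2) ≤ w) (hπw : ∀ j, π j ≤ w)
    (A B : Fin K → ℕ) (a b : Fin k → ℤ)
    (hA : ∀ i, 0 < A i ∧ A i ≤ D) (hB : ∀ i, 0 < B i ∧ B i ≤ D) (ha : ∀ e, a e ≠ 0 ∧ |a e| ≤ D)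
    (hdet : ∀ i j, i ≠ j → A i * B j ≠ A j * B i) :
    ∃ U0 : ℕ, U0 < w.factorial ^ (D * (K + k) + 1 + G + 1) ∧
      (∀ q : ℕ, q.Prime → q ≤ w →
        (∀ f, ¬ ((q : ℤ) ^ (D * (K + k) + 1 + G + 1) ∣ a f * U0 + b f)) ∧
        ∀ i, (A i * U0 + B i).factorization q < D * (K + k) + 1 + G + 1) ∧
      ∀ j, ∑ q ∈ (range (w + 1)).filter Nat.Prime, (A j * U0 + B j).factorization q = G := by
  classical
  set E := D * (K + k) + 1 with hE
  set q1 := (D + 1) * (D + (K + k) + 2) with hq1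
  have hq1a : D * (K + k) < q1 := by rw [hq1]; nlinarith [Nat.zero_le (D * D)]
  have hq1b : D * (k + 1) < q1 := by rw [hq1]; nlinarith [Nat.zero_le (D * D), Nat.zero_le (D * K)]
  have hq1c : D * D < q1 := by
    rw [hq1]; nlinarith [Nat.zero_le (D * K), Nat.zero_le (D * k)]
  have hBD : ∀ i, B i ≤ D := fun i => (hB i).2
  -- small primes
  have hs : ∀ q : ℕ, ∃ r : ℕ, q.Prime → ∀ U : ℕ, U ≡ r [MOD q ^ E] →
      (∀ i, ¬ q ^ E ∣ A i * U + B i) ∧ ∀ f, ¬ (((q ^ E : ℕ) : ℤ) ∣ a f * U + b f) := by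
    intro q
    by_cases hq : q.Prime
    · have hm : D * (K + k) < q ^ E := by
        calc D * (K + k) < E := by omega
          _ < 2 ^ E := Nat.lt_two_pow_self
          _ ≤ q ^ E := Nat.pow_le_pow_left hq.two_le _
      obtain ⟨r, hr⟩ := gen_step A B a b D hA ha (q ^ E) hm
      exact ⟨r, fun _ => hr⟩
    · exact ⟨0, fun h => absurd h hq⟩
  choose rs hrs using hs
  obtain ⟨U1, hU1⟩ := crt w rs (fun _ => E)
  have hU1' : ∀ q : ℕ, q.Prime → q ≤ w →
      (∀ i, ¬ q ^ E ∣ A i * U1 + B i) ∧ ∀ f, ¬ (((q ^ E : ℕ) : ℤ) ∣ a f * U1 + b f) :=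
    fun q hq hqw => hrs q hq U1 (hU1 q hq hqw)
  set g : Fin K → ℕ := fun j =>
    ∑ q ∈ (range (q1 + 1)).filter Nat.Prime, (A j * U1 + B j).factorization q with hg
  have hgle : ∀ j, g j + 1 ≤ G := by
    intro j
    have h1 : g j ≤ ∑ q ∈ (range (q1 + 1)).filter Nat.Prime, E := by
      apply sum_le_sum
      intro q hq
      rw [mem_filter, mem_range] at hq
      exact (fac_lt hq.2 ((hU1' q hq.2 (by omega)).1 j)).le
    rw [sum_const, smul_eq_mul] at h1
    have h2 : ((range (q1 + 1)).filter Nat.Prime).card ≤ q1 + 1 :=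
      (card_filter_le _ _).trans (by rw [card_range])
    have h3 : ((range (q1 + 1)).filter Nat.Prime).card * E ≤ (q1 + 1) * E :=
      Nat.mul_le_mul_right _ h2
    have h4 : (q1 + 1) * E = E * (q1 + 1) := Nat.mul_comm _ _
    omega
  -- prescribed valuations
  set v : Fin K → ℕ → ℕ := fun j q =>
    if q ≤ q1 then (A j * U1 + B j).factorization q else if q = π j then G - g j else 0 with hv
  have hstep : ∀ q : ℕ, ∃ r n : ℕ, n ≤ E + G + 1 ∧ (q.Prime → q ≤ w → ∀ U : ℕ,
      U ≡ r [MOD q ^ n] →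
        (∀ f, ¬ ((q : ℤ) ^ (E + G + 1) ∣ a f * U + b f)) ∧
        ∀ i, (A i * U + B i).factorization q = v i q) := by
    intro q
    by_cases hq : q.Prime
    swap
    · exact ⟨0, 0, Nat.zero_le _, fun h => absurd h hq⟩
    by_cases hqq : q ≤ q1
    · refine ⟨U1, E, by omega, fun _ hqw U hU => ⟨fun f hd => ?_, fun i => ?_⟩⟩
      · have h1 := (hU1' q hq hqw).2 f
        apply h1
        have h2 : (q : ℤ) ^ E ∣ a f * U + b f := (pow_dvd_pow _ (by omega)).trans hd
        have h3 : ((q ^ E : ℕ) : ℤ) ∣ (U1 : ℤ) - U := Nat.modEq_iff_dvd.1 hU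
        have h4 : a f * (U1 : ℤ) + b f = (a f * U + b f) + a f * ((U1 : ℤ) - U) := by ring
        rw [h4]
        refine dvd_add ?_ (Dvd.dvd.mul_left h3 _)
        exact_mod_cast h2
      · simp only [hv]
        rw [if_pos hqq]
        exact (fac_eq hq ((hU1' q hq hqw).1 i) ((hU.symm.mul_left _).add_right _)).symm
    · by_cases hex : ∃ j, q = π j
      · obtain ⟨j, hj⟩ := hex
        have hlt := (hπ j).2
        obtain ⟨r, hr⟩ := aux_step A B a b D hA hBD ha hdet q hq
          (by omega) (by omega) j (G - g j) (by have := hgle j; omega)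
        refine ⟨r, G - g j + 1, by omega, fun _ hqw U hU => ⟨fun f hd => ?_, fun i => ?_⟩⟩
        · exact (hr U hU).2.2 f ((pow_dvd_pow _ (by omega)).trans hd)
        · simp only [hv]
          rw [if_neg hqq]
          by_cases hij : i = j
          · rw [hij, if_pos hj]
            exact (hr U hU).1
          · rw [if_neg (fun h => hij (hinj (h.symm.trans hj)))]
            exact Nat.factorization_eq_zero_of_not_dvd ((hr U hU).2.1 i hij)
      · push Not at hex
        obtain ⟨r, hr⟩ := gen_step A B a b D hA ha q (by omega)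
        refine ⟨r, 1, by omega, fun _ hqw U hU => ⟨fun f hd => ?_, fun i => ?_⟩⟩
        · rw [pow_one] at hU
          exact (hr U hU).2 f ((dvd_pow_self _ (by omega)).trans hd)
        · rw [pow_one] at hU
          simp only [hv]
          rw [if_neg hqq, if_neg (hex i)]
          exact Nat.factorization_eq_zero_of_not_dvd ((hr U hU).1 i)
  choose r n hn hrn using hstep
  obtain ⟨U2, hU2⟩ := crt w r n
  set M := w.factorial ^ (E + G + 1) with hM
  have hMpos : 0 < M := pow_pos (Nat.factorial_pos _) _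
  have hU0 : ∀ q : ℕ, q.Prime → q ≤ w → (U2 % M) ≡ r q [MOD q ^ n q] := by
    intro q hq hqw
    have h1 : q ^ n q ∣ M := (pow_dvd_pow q (hn q)).trans
      (pow_dvd_pow_of_dvd (Nat.dvd_factorial hq.pos hqw) _)
    exact ((Nat.mod_modEq U2 M).of_dvd h1).trans (hU2 q hq hqw)
  refine ⟨U2 % M, Nat.mod_lt _ hMpos, ?_, ?_⟩
  · intro q hq hqw
    have h1 := hrn q hq hqw _ (hU0 q hq hqw)
    refine ⟨h1.1, fun i => ?_⟩
    rw [h1.2 i]
    simp only [hv]
    split_ifs with h2 h3
    · have := fac_lt hq ((hU1' q hq hqw).1 i)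
      omega
    · omega
    · omega
  · intro j
    have h1 : ∑ q ∈ (range (w + 1)).filter Nat.Prime, (A j * (U2 % M) + B j).factorization q =
        ∑ q ∈ (range (w + 1)).filter Nat.Prime, v j q := by
      apply sum_congr rfl
      intro q hq
      rw [mem_filter, mem_range] at hq
      exact (hrn q hq.2 (by omega) _ (hU0 q hq.2 (by omega))).2 j
    rw [h1]
    have h2 : (range (w + 1)).filter Nat.Prime =
        (range (q1 + 1)).filter Nat.Prime ∪ (Ioc q1 w).filter Nat.Prime := by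
      ext q
      simp only [mem_filter, mem_range, mem_union, mem_Ioc]
      constructor
      · rintro ⟨h3, h4⟩
        by_cases h5 : q ≤ q1
        · left; exact ⟨by omega, h4⟩
        · right; exact ⟨⟨by omega, by omega⟩, h4⟩
      · rintro (⟨h3, h4⟩ | ⟨⟨h3, h5⟩, h4⟩)
        · exact ⟨by omega, h4⟩
        · exact ⟨by omega, h4⟩
    have hdisj : Disjoint ((range (q1 + 1)).filter Nat.Prime) ((Ioc q1 w).filter Nat.Prime) := by
      rw [disjoint_left]
      intro q hq hq'
      rw [mem_filter, mem_range] at hq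
      rw [mem_filter, mem_Ioc] at hq'
      omega
    rw [h2, sum_union hdisj]
    have h3 : ∑ q ∈ (range (q1 + 1)).filter Nat.Prime, v j q = g j := by
      simp only [hg]
      apply sum_congr rfl
      intro q hq
      rw [mem_filter, mem_range] at hq
      simp only [hv]
      rw [if_pos (by omega)]
    have h4 : ∑ q ∈ (Ioc q1 w).filter Nat.Prime, v j q = G - g j := by
      rw [sum_eq_single (π j)]
      · simp only [hv]
        rw [if_neg (by have := (hπ j).2; omega)]
        simp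
      · intro q hq hne
        rw [mem_filter, mem_Ioc] at hq
        simp only [hv]
        rw [if_neg (by omega), if_neg hne]
      · intro hq
        exfalso
        apply hq
        rw [mem_filter, mem_Ioc]
        exact ⟨⟨(hπ j).2, hπw j⟩, (hπ j).1⟩
    rw [h3, h4]
    have := hgle j
    omega

theorem fix_49 : FIXStmt := by
  classical
  intro K k D
  refine ⟨(D * (K + k) + 1) * ((D + 1) * (D + (K + k) + 2) + 1) + 1, fun G hG => ?_⟩
  have hπ0 : ∃ π : Fin K → ℕ, (∀ j, (π j).Prime ∧ (D + 1) * (D + (K + k) + 2) < π j) ∧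
      Function.Injective π := by
    refine ⟨fun j => Nat.nth Nat.Prime ((D + 1) * (D + (K + k) + 2) + (j : ℕ)), fun j =>
      ⟨Nat.prime_nth_prime _, ?_⟩, fun i j h => Fin.ext ?_⟩
    · have := Nat.add_two_le_nth_prime ((D + 1) * (D + (K + k) + 2) + (j : ℕ))
      beta_reduce
      omega
    · have := Nat.nth_injective Nat.infinite_setOfPred_prime h
      omega
  obtain ⟨π, hπ, hinj⟩ := hπ0
  refine ⟨(D + 1) * (D + (K + k) + 2) + ∑ j, π j, fun w hw => ?_⟩
  have hπw : ∀ j, π j ≤ w := fun j =>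
    (single_le_sum (fun i _ => Nat.zero_le (π i)) (mem_univ j)).trans (by omega)
  have hq1w : (D + 1) * (D + (K + k) + 2) ≤ w := by omega
  have hDw : D ≤ w := le_trans (by nlinarith [Nat.zero_le (D * D), Nat.zero_le (D * (K + k))]) hq1w
  set E' := D * (K + k) + 1 + G + 1 with hE'
  set M := w.factorial ^ E' with hM
  have hMpos : 0 < M := pow_pos (Nat.factorial_pos _) _
  refine ⟨D * M + D + M + 1, fun A B a b hA hdet ha => ?_⟩
  lift A to Fin K → ℕ using fun i => (hA i).1.le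
  lift B to Fin K → ℕ using fun i => (hA i).2.2.1.le
  simp only [] at hA hdet
  have hA1 : ∀ i, 0 < A i ∧ A i ≤ D := fun i =>
    ⟨by exact_mod_cast (hA i).1, by exact_mod_cast (hA i).2.1⟩
  have hB1 : ∀ i, 0 < B i ∧ B i ≤ D := fun i =>
    ⟨by exact_mod_cast (hA i).2.2.1, by exact_mod_cast (hA i).2.2.2⟩
  have hdet1 : ∀ i j, i ≠ j → A i * B j ≠ A j * B i := by
    intro i j hij h
    exact hdet i j hij (by exact_mod_cast h)
  obtain ⟨U0, hU0, hval, hsum⟩ := core K k D G w π hG hπ hinj hq1w hπw A B a b hA1 hB1 ha hdet1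
  rw [← hE', ← hM] at hU0
  rw [← hE'] at hval
  have hqM : ∀ q : ℕ, q.Prime → q ≤ w → q ^ E' ∣ M := fun q hq hqw =>
    pow_dvd_pow_of_dvd (Nat.dvd_factorial hq.pos hqw) _
  have hMq : ∀ q : ℕ, q.Prime → q ∣ M → q ≤ w := fun q hq hd =>
    (hq.dvd_factorial).1 (hq.dvd_of_dvd_pow hd)
  have hAMpos : ∀ j, 0 < A j * M := fun j => Nat.mul_pos (hA1 j).1 hMpos
  have hNpos : ∀ j, 0 < A j * U0 + B j := fun j => by have := (hB1 j).1; omega
  set h : Fin K → ℕ := fun j => Nat.gcd (A j * M) (A j * U0 + B j) with hh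
  have hhpos : ∀ j, 0 < h j := fun j => Nat.gcd_pos_of_pos_left _ (hAMpos j)
  set α : Fin K → ℕ := fun j => A j * M / h j with hα
  set β : Fin K → ℕ := fun j => (A j * U0 + B j) / h j with hβ
  have h1 : ∀ j, h j * α j = A j * M := fun j => Nat.mul_div_cancel' (Nat.gcd_dvd_left _ _)
  have h2 : ∀ j, h j * β j = A j * U0 + B j := fun j =>
    Nat.mul_div_cancel' (Nat.gcd_dvd_right _ _)
  have hαpos : ∀ j, 0 < α j := fun j => Nat.pos_of_ne_zero (fun h0 => by
    have h3 := h1 j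
    rw [h0, mul_zero] at h3
    exact (hAMpos j).ne h3)
  have hβpos : ∀ j, 0 < β j := fun j => Nat.pos_of_ne_zero (fun h0 => by
    have h3 := h2 j
    rw [h0, mul_zero] at h3
    exact (hNpos j).ne h3)
  set h' : Fin k → ℤ := fun e => (Int.gcd (a e * M) (a e * U0 + b e) : ℤ) with hh'
  have haM : ∀ e, a e * (M : ℤ) ≠ 0 := fun e =>
    mul_ne_zero (ha e).1 (by exact_mod_cast hMpos.ne')
  have hh'pos : ∀ e, 0 < h' e := fun e => by
    have : 0 < Int.gcd (a e * M) (a e * U0 + b e) := Int.gcd_pos_of_ne_zero_left _ (haM e)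
    exact Int.natCast_pos.2 this
  set a' : Fin k → ℤ := fun e => a e * M / h' e with ha'
  set b' : Fin k → ℤ := fun e => (a e * U0 + b e) / h' e with hb'
  have h1' : ∀ e, h' e * a' e = a e * M := fun e => Int.mul_ediv_cancel' (Int.gcd_dvd_left ..)
  have h2' : ∀ e, h' e * b' e = a e * U0 + b e := fun e =>
    Int.mul_ediv_cancel' (Int.gcd_dvd_right ..)
  have haMle : ∀ e, |a e * (M : ℤ)| ≤ D * M := by
    intro e
    rw [abs_mul, abs_of_nonneg (by positivity : (0 : ℤ) ≤ M)]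
    exact mul_le_mul_of_nonneg_right (ha e).2 (by positivity)
  have hAM : ∀ j, A j * M ≤ D * M := fun j => Nat.mul_le_mul_right _ (hA1 j).2
  have hAU : ∀ j, A j * U0 + B j ≤ D * M + D := fun j =>
    Nat.add_le_add (Nat.mul_le_mul (hA1 j).2 hU0.le) (hB1 j).2
  have hle1 : ∀ j, h j ≤ D * M := fun j =>
    (Nat.le_of_dvd (hAMpos j) (Nat.gcd_dvd_left _ _)).trans (hAM j)
  have hle2 : ∀ j, α j ≤ D * M := fun j =>
    (Nat.le_of_dvd (hAMpos j) (Dvd.intro_left _ (h1 j))).trans (hAM j)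
  have hle3 : ∀ j, β j ≤ D * M + D := fun j =>
    (Nat.le_of_dvd (hNpos j) (Dvd.intro_left _ (h2 j))).trans (hAU j)
  have hbig : ∀ (q : ℕ) (j : Fin K), q.Prime → q ∣ A j * M → q ≤ w := by
    intro q j hq hd
    rcases (hq.dvd_mul).1 hd with h3 | h3
    · exact ((Nat.le_of_dvd (hA1 j).1 h3).trans (hA1 j).2).trans hDw
    · exact hMq q hq h3
  refine ⟨U0, M, fun j => (h j : ℤ), fun j => (α j : ℤ), fun j => (β j : ℤ), h', a', b', hMpos,
    by omega, by omega, ?_, ?_, ?_, ?_⟩
  · intro j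
    beta_reduce
    refine ⟨by exact_mod_cast (h1 j).symm, by exact_mod_cast (h2 j).symm,
      by exact_mod_cast hhpos j, ?_, ?_⟩
    · have := hle1 j
      have h3 : h j ≤ D * M + D + M + 1 := by omega
      exact_mod_cast h3
    · simp only [Int.toNat_natCast]
      rw [hh]
      simp only []
      rw [card_gcd w (A j * M) (A j * U0 + B j) (hAMpos j).ne' (hNpos j).ne' ?_ ?_]
      · exact hsum j
      · intro q hq hqw
        have h3 := ((hval q hq hqw).2 j).le
        have h4 : q ^ E' ∣ A j * M := (hqM q hq hqw).mul_left _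
        have h5 := (hq.pow_dvd_iff_le_factorization (hAMpos j).ne').1 h4
        omega
      · intro q hq hqw hd
        have := hbig q j hq hd
        omega
  · refine ⟨?_, ?_, ?_, ?_, ?_, ?_⟩
    · intro j
      have := hαpos j
      have := hβpos j
      constructor
      · exact_mod_cast hαpos j
      · have h3 : 0 < α j + β j := by omega
        exact_mod_cast h3
    · intro j
      have h3 := hle2 j
      have h4 := hle3 j
      constructor
      · have : α j ≤ D * M + D + M + 1 := by omega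
        exact_mod_cast this
      · rw [abs_of_nonneg (by positivity)]
        have : β j ≤ D * M + D + M + 1 := by omega
        exact_mod_cast this
    · intro j
      rw [Nat.isCoprime_iff_coprime]
      exact Nat.coprime_div_gcd_div_gcd (hhpos j)
    · intro j q hq hqw
      have h3 : q ∣ α j := by
        by_contra hcon
        have h4 : Nat.Coprime (q ^ E') (α j) :=
          Nat.Coprime.pow_left _ ((Nat.Prime.coprime_iff_not_dvd hq).2 hcon)
        have h5 : q ^ E' ∣ h j * α j := by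
          rw [h1 j]
          exact (hqM q hq hqw).mul_left _
        have h6 : q ^ E' ∣ A j * U0 + B j :=
          (h4.dvd_of_dvd_mul_right h5).trans (Nat.gcd_dvd_right _ _)
        have h7 := (hq.pow_dvd_iff_le_factorization (hNpos j).ne').1 h6
        have h8 := (hval q hq hqw).2 j
        omega
      exact_mod_cast h3
    · intro j q hq hd
      have h3 : q ∣ α j := by exact_mod_cast hd
      exact hbig q j hq (by rw [← h1 j]; exact h3.mul_left _)
    · intro i j hij h0
      have h3 : (h i : ℤ) * h j * ((α i : ℤ) * β j - α j * β i) =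
          M * ((A i : ℤ) * B j - A j * B i) := by
        have e1 : (h i : ℤ) * α i = A i * M := by exact_mod_cast h1 i
        have e2 : (h j : ℤ) * α j = A j * M := by exact_mod_cast h1 j
        have e3 : (h i : ℤ) * β i = A i * U0 + B i := by exact_mod_cast h2 i
        have e4 : (h j : ℤ) * β j = A j * U0 + B j := by exact_mod_cast h2 j
        calc (h i : ℤ) * h j * ((α i : ℤ) * β j - α j * β i) =
            ((h i : ℤ) * α i) * (h j * β j) - (h j * α j) * (h i * β i) := by ring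
          _ = M * ((A i : ℤ) * B j - A j * B i) := by rw [e1, e2, e3, e4]; ring
      have h4 : (α i : ℤ) * β j - α j * β i = 0 := by
        linarith
      rw [h4, mul_zero] at h3
      have h5 : (A i : ℤ) * B j - A j * B i = 0 := by
        rcases mul_eq_zero.1 h3.symm with h6 | h6
        · exact absurd h6 (by exact_mod_cast hMpos.ne')
        · exact h6
      exact hdet1 i j hij (by exact_mod_cast (sub_eq_zero.1 h5))
  · intro e
    refine ⟨(h1' e).symm, (h2' e).symm, hh'pos e, ?_, ?_, ?_⟩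
    · have h3 : h' e ≤ |a e * (M : ℤ)| :=
        Int.le_of_dvd (abs_pos.2 (haM e)) ((dvd_abs _ _).2 (Int.gcd_dvd_left ..))
      have h4 := haMle e
      push_cast
      have : (0 : ℤ) ≤ (M : ℤ) := by positivity
      have : (0 : ℤ) ≤ (D : ℤ) := by positivity
      linarith
    · rw [Int.isCoprime_iff_gcd_eq_one]
      exact Int.gcd_ediv_gcd_ediv_gcd (Int.natCast_pos.1 (hh'pos e))
    · intro q hq hqw
      by_contra hcon
      have hqp : Prime (q : ℤ) := Nat.prime_iff_prime_int.1 hq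
      have h4 : IsCoprime ((q : ℤ) ^ E') (a' e) :=
        IsCoprime.pow_left ((Prime.coprime_iff_not_dvd hqp).2 hcon)
      have h5 : (q : ℤ) ^ E' ∣ h' e * a' e := by
        rw [h1' e]
        have : ((q ^ E' : ℕ) : ℤ) ∣ (M : ℤ) := by exact_mod_cast hqM q hq hqw
        push_cast at this
        exact this.mul_left _
      have h6 : (q : ℤ) ^ E' ∣ a e * U0 + b e :=
        (h4.dvd_of_dvd_mul_right h5).trans (Int.gcd_dvd_right ..)
      exact (hval q hq hqw).1 e h6
  · refine ⟨?_, ?_⟩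
    · intro e
      have h3 : |a' e| ≤ |a e * (M : ℤ)| := by
        rw [← h1' e, abs_mul]
        have : 1 ≤ |h' e| := by
          rw [abs_of_pos (hh'pos e)]
          exact hh'pos e
        nlinarith [abs_nonneg (a' e)]
      have h4 := haMle e
      push_cast
      have : (0 : ℤ) ≤ (M : ℤ) := by positivity
      have : (0 : ℤ) ≤ (D : ℤ) := by positivity
      linarith
    · intro e q hq hd
      have hqp : Prime (q : ℤ) := Nat.prime_iff_prime_int.1 hq
      have h3 : (q : ℤ) ∣ a e * (M : ℤ) := by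
        rw [← h1' e]
        exact hd.mul_left _
      rcases hqp.dvd_or_dvd h3 with h4 | h4
      · have h5 : (q : ℤ) ≤ |a e| := Int.le_of_dvd (abs_pos.2 (ha e).1) ((dvd_abs _ _).2 h4)
        have h6 : (q : ℤ) ≤ D := h5.trans (ha e).2
        have h7 : q ≤ D := by exact_mod_cast h6
        exact h7.trans hDw
      · exact hMq q hq (by exact_mod_cast h4)

end Pool.Agent.Lib.MT2.Fix49
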