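import Mathlib
import Pool.Agent.Lib.MT2.Stmts

/-!
MAYNARD-TAO ON ROUGH FORMS: auxiliary statements (shared small modules).
-/

set_option autoImplicit false

namespace Pool.Agent.Lib.MT2

open Finset
open Pool.Agent.Lib.TwinAll (PP Rough om VV nu ee)

/-- VVA: the density does not change if for every sieving prime the union of the root sets is
mapped by an affine bijection modulo `q`. -/
def VVAStmt : Prop :=
  ∀ (z0 z k k' : ℕ) (a b : Fin k → ℤ) (a' b' : Fin k' → ℤ),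
    (∀ q ∈ PP z0 z, ∃ μ ν : ℤ, ¬ ((q : ℤ) ∣ μ) ∧ ∀ n : ℤ,
      (∃ j, (q : ℤ) ∣ a j * n + b j) ↔ ∃ j, (q : ℤ) ∣ a' j * (μ * n + ν) + b' j) →
    VV z0 z a b = VV z0 z a' b'

/-- VVlow: lower bound for the densities (any `k` forms), and Mertens for `V1`. -/
def VVlowStmt : Prop :=
  ∀ k : ℕ, ∃ C zs : ℕ, ∀ z0 : ℕ, zs ≤ z0 → ∃ z1 : ℕ, ∀ z : ℕ, z1 ≤ z → ∀ a b : Fin k → ℤ,
    (∀ j, ∀ q ∈ PP z0 z, ¬ ((q : ℤ) ∣ a j)) → 1 / (Real.log z) ^ C ≤ VV z0 z a b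

/-- MERT: for a modulus `a0` containing exactly the primes up to `z0` (at least these),
`V1 φ(a0)/a0 ≤ 1/log z`. -/
def MERTStmt : Prop :=
  ∀ (z0 z a0 : ℕ), 2 ≤ z0 → z0 ≤ z → 0 < a0 → (∀ q : ℕ, q.Prime → q ≤ z0 → q ∣ a0) →
    V1 z0 z * (a0.totient / a0 : ℝ) ≤ 1 / Real.log z

/-- NPR: a nonzero integer below `z ^ E` has fewer than `E` prime factors above `z`. -/
def NPRStmt : Prop :=
  ∀ (z E : ℕ) (n : ℤ), 2 ≤ z → n ≠ 0 → |n| < (z : ℤ) ^ E → ∀ S : Finset ℕ,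
    (∀ q ∈ S, q.Prime ∧ z < q ∧ (q : ℤ) ∣ n) → S.card < E

/-- HC: for main forms only clean sets of conditions occur. -/
def HCStmt : Prop :=
  ∀ (K C0 z0 z R : ℕ) (α β : Fin K → ℤ), MF C0 z0 α β → 2 * C0 ^ 2 + 2 ≤ z → z0 ≤ z →
    ∀ (D : Cond K) (U : ℤ), D ⊆ PI z R K → Holds α β D U → Clean D

/-- WB: pointwise bound for a weight. -/
def WBStmt : Prop :=
  ∀ (K B C0 : ℕ), ∃ z1 : ℕ, ∀ z : ℕ, z1 ≤ z → ∀ (z0 R : ℕ) (C1 : ℝ) (c : Cond K → ℝ)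
    (α β : Fin K → ℤ), MF C0 z0 α β → (∀ D, |c D| ≤ C1) → ∀ U : ℤ, 1 ≤ U → U ≤ (z : ℤ) ^ B →
      |wt z R c α β U| ≤ C1 * 2 ^ (K * (B + 1))

open Classical in
/-- the coefficients of the square of `∑ λ_D [D holds]`, conditions with indices in `J` -/
noncomputable def cOf {K : ℕ} (lam : Cond K → ℝ) (J : Finset (Fin K)) (D : Cond K) : ℝ :=
  if Clean D ∧ ∀ x ∈ D, x.2 ∈ J then
    ∑ D1 ∈ D.powerset, ∑ D2 ∈ D.powerset.filter (fun D2 => D1 ∪ D2 = D), lam D1 * lam D2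
  else 0

/-- SQR: squares as weights. -/
def SQRStmt : Prop :=
  ∀ (K b : ℕ) (L : ℝ), ∃ (C1 : ℝ) (z1 : ℕ), ∀ z : ℕ, z1 ≤ z → ∀ lam : Cond K → ℝ,
    (∀ D, |lam D| ≤ L) → (∀ D, lam D ≠ 0 → md D ≤ z ^ b ∧ D ⊆ PI z (z ^ b) K) →
    (∀ J : Finset (Fin K), Wt C1 (z ^ (2 * b)) J (cOf lam J) ∧
      |wmean z (z ^ b) (cOf lam J) - quad lam ((PI z (z ^ b) K).filter (fun x => x.2 ∈ J))| ≤
        C1 / z ∧
      wnorm z (z ^ b) (cOf lam J) ≤ ∑ D ∈ (PI z (z ^ b) K).powerset,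
        ∑ D' ∈ (PI z (z ^ b) K).powerset, |lam D * lam D'| / md (D ∪ D')) ∧
    ∀ (C0 z0 : ℕ) (α β : Fin K → ℤ), MF C0 z0 α β → 2 * C0 ^ 2 + 2 ≤ z → z0 ≤ z →
      ∀ U : ℤ, 0 ≤ wt z (z ^ b) (cOf lam Finset.univ) α β U ∧
        ∀ i : Fin K, (∀ q ∈ PP z (z ^ b), ¬ ((q : ℤ) ∣ α i * U + β i)) →
          wt z (z ^ b) (cOf lam Finset.univ) α β U =
            wt z (z ^ b) (cOf lam (Finset.univ.erase i)) α β U

end Pool.Agent.Lib.MT2
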