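import Mathlib
import Pool.Agent.Lib.MT2.Stmts2
import Pool.Agent.Lib.TwinAll.Aff81
import Pool.Agent.Lib.TwinAll.S5x82

/-!
MT2, modules VVA and VVlow.
-/

set_option autoImplicit false

namespace Pool.Agent.Lib.MT2

open Finset
open Pool.Agent.Lib.TwinAll (PP Rough om VV nu ee)

/-- VVA -/
theorem vva_39 : VVAStmt := by
  intro z0 z k k' a b a' b' h
  apply TwinAll.A81.VV_congr
  intro q hq
  obtain ⟨μ, ν, hμ, hn⟩ := h q hq
  rw [← TwinAll.A81.om_affine a' b' (TwinAll.A81.mem_PP.1 hq).2.2 hμ ν]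
  apply TwinAll.A81.om_congr
  intro n
  rw [hn n]
  have : ∀ j, a' j * (μ * n + ν) + b' j = a' j * μ * n + (a' j * ν + b' j) := fun j => by ring
  simp_rw [this]

/-- VVlow -/
theorem vvlow_39 : VVlowStmt := by
  intro k
  obtain ⟨K, hK, hKb⟩ := TwinAll.prod_le82 (2 * k)
  refine ⟨2 * k + 1, 2 * k + 3, fun z0 hz0 => ?_⟩
  refine ⟨⌈Real.exp (K + 1)⌉₊, fun z hz a b hab => ?_⟩
  have hz2 : Real.exp (K + 1) ≤ (z : ℝ) := (Nat.le_ceil _).trans (by exact_mod_cast hz)
  have hlog : K + 1 ≤ Real.log z := by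
    rw [← Real.log_exp (K + 1)]
    exact Real.log_le_log (Real.exp_pos _) hz2
  have hl1 : 1 ≤ Real.log z := by linarith
  rcases le_total z0 z with h | h
  · have hinv : (VV z0 z a b)⁻¹ ≤ ∏ q ∈ PP z0 z, (1 + ((2 * k : ℕ) : ℝ) / (q : ℝ)) := by
      unfold VV
      rw [← Finset.prod_inv_distrib]
      apply Finset.prod_le_prod
      · intro q hq
        have hq1 := (TwinAll.A81.mem_PP.1 hq)
        have hq0 : (0 : ℝ) < q := by exact_mod_cast hq1.2.2.pos
        have h1 : (om a b q : ℝ) ≤ q := by exact_mod_cast TwinAll.A81.om_le_self _ _ q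
        rw [inv_nonneg, sub_nonneg, div_le_one hq0]
        exact h1
      · intro q hq
        have hq1 := (TwinAll.A81.mem_PP.1 hq)
        have hq0 : (0 : ℝ) < q := by exact_mod_cast hq1.2.2.pos
        have hq12 : (2 * k : ℝ) ≤ q := by
          have : 2 * k ≤ q := by omega
          exact_mod_cast this
        have h1 : (om a b q : ℝ) ≤ k := by
          exact_mod_cast TwinAll.A81.om_le hq1.2.2 (fun j => hab j q hq)
        have h2 : (om a b q : ℝ) / q ≤ k / q := div_le_div_of_nonneg_right h1 hq0.le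
        have h3 : (k : ℝ) / q ≤ 1 / 2 := by
          rw [div_le_div_iff₀ hq0 (by norm_num)]
          linarith
        have h0 : (0 : ℝ) ≤ (k : ℝ) / q := by positivity
        have h5 : (1 - (om a b q : ℝ) / q)⁻¹ ≤ (1 - (k : ℝ) / (q : ℝ))⁻¹ :=
          inv_anti₀ (by linarith) (by linarith)
        refine h5.trans ?_
        have h6 : ((2 * k : ℕ) : ℝ) / (q : ℝ) = 2 * ((k : ℝ) / q) := by push_cast; ring
        rw [h6, inv_le_iff_one_le_mul₀ (by linarith)]
        nlinarith
    have h7 := hKb z0 z (by omega) h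
    have hpos : 0 < VV z0 z a b := TwinAll.A81.VV_pos (by omega) hab
    have h8 : (VV z0 z a b)⁻¹ ≤ Real.log z ^ (2 * k + 1) := by
      calc (VV z0 z a b)⁻¹ ≤ K * Real.log z ^ (2 * k) := hinv.trans h7
        _ ≤ Real.log z * Real.log z ^ (2 * k) :=
            mul_le_mul_of_nonneg_right (by linarith) (by positivity)
        _ = Real.log z ^ (2 * k + 1) := by ring
    rw [div_le_iff₀ (by positivity)]
    calc (1 : ℝ) = VV z0 z a b * (VV z0 z a b)⁻¹ := (mul_inv_cancel₀ hpos.ne').symm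
      _ ≤ VV z0 z a b * Real.log z ^ (2 * k + 1) := mul_le_mul_of_nonneg_left h8 hpos.le
  · have hP : PP z0 z = ∅ := by
      unfold PP
      rw [Finset.Ioc_eq_empty_of_le h]
      rfl
    have h1 : VV z0 z a b = 1 := by
      unfold VV
      rw [hP, Finset.prod_empty]
    rw [h1, div_le_one (by positivity)]
    exact one_le_pow₀ hl1

end Pool.Agent.Lib.MT2
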