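import Mathlib
import Pool.Agent.Lib.MT2.EVc62
import Pool.Agent.Lib.MT2.Rates82
import Pool.Agent.Lib.MT2.VV39

/-!
MAYNARD-TAO ON ROUGH FORMS, helper62: MIX.
-/

set_option autoImplicit false

namespace Pool.Agent.Lib.MT2.T62

open Finset
open Pool.Agent.Lib.TwinAll (PP Rough om VV nu SS mem_PP PP_prime PP_lt PP_le)

open Classical in
/-- number of bad classes -/
noncomputable def nb (bad : ℕ → ℤ → Prop) (q : ℕ) : ℕ :=
  ((range q).filter (fun r : ℕ => bad q r)).card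

/-- the density without the primes dividing `Q` -/
noncomputable def VQ (z0 z Q : ℕ) (bad : ℕ → ℤ → Prop) : ℝ :=
  ∏ q ∈ (PP z0 z).filter (fun q => ¬ q ∣ Q), (1 - (nb bad q : ℝ) / q)

theorem nb_fac {z0 z k : ℕ} (hk : k ≤ z0) {bad : ℕ → ℤ → Prop}
    (hcard : ∀ q ∈ PP z0 z, nb bad q ≤ k) (q : ℕ) (hq : q ∈ PP z0 z) :
    0 ≤ 1 - (nb bad q : ℝ) / q ∧ 1 - (nb bad q : ℝ) / q ≤ 1 := by
  have h6 : (nb bad q : ℝ) ≤ k := by exact_mod_cast hcard q hq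
  have h7 : (0 : ℝ) < q := by exact_mod_cast (PP_prime hq).pos
  have h8 : (k : ℝ) ≤ q := by exact_mod_cast hk.trans (PP_lt hq).le
  have h9 : (nb bad q : ℝ) / q ≤ 1 := (div_le_one h7).2 (h6.trans h8)
  have h10 : 0 ≤ (nb bad q : ℝ) / q := by positivity
  constructor <;> linarith

theorem VQ_nonneg {z0 z k Q : ℕ} (hk : k ≤ z0) {bad : ℕ → ℤ → Prop}
    (hcard : ∀ q ∈ PP z0 z, nb bad q ≤ k) : 0 ≤ VQ z0 z Q bad :=
  Finset.prod_nonneg fun q hq => (nb_fac hk hcard q (Finset.mem_filter.1 hq).1).1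

theorem VQ_le_one {z0 z k Q : ℕ} (hk : k ≤ z0) {bad : ℕ → ℤ → Prop}
    (hcard : ∀ q ∈ PP z0 z, nb bad q ≤ k) : VQ z0 z Q bad ≤ 1 :=
  Finset.prod_le_one (fun q hq => (nb_fac hk hcard q (Finset.mem_filter.1 hq).1).1)
    fun q hq => (nb_fac hk hcard q (Finset.mem_filter.1 hq).1).2

open Classical in
/-- the sieve estimate in a residue class modulo any `Q`, if the conditions at the primes dividing
`Q` hold automatically -/
theorem corerQ (k : ℕ) : ∃ s zs : ℕ, k ≤ zs ∧ ∀ t z0 : ℕ, zs ≤ z0 → ∀ z : ℕ, z0 ≤ z →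
    ∀ (bad : ℕ → ℤ → Prop),
    (∀ q ∈ PP z0 z, ∀ n m : ℤ, (q : ℤ) ∣ n - m → (bad q n ↔ bad q m)) →
    (∀ q ∈ PP z0 z, nb bad q ≤ k) →
    ∀ Q : ℕ, 0 < Q → ∀ c : ℤ, (∀ q ∈ PP z0 z, q ∣ Q → ∀ n : ℤ, (Q : ℤ) ∣ n - c → ¬ bad q n) →
    ∀ (u : ℤ) (H : ℕ),
      |((((Ioc u (u + H)).filter (fun n => (Q : ℤ) ∣ n - c ∧ ∀ q ∈ PP z0 z, ¬ bad q n)).card : ℝ)) -
        (H / Q : ℝ) * VQ z0 z Q bad| ≤
      (1 / 2) ^ t * ((H / Q : ℝ) * VQ z0 z Q bad) + ((z : ℝ) ^ (s * (t + 1)) + 2) := by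
  obtain ⟨s, zs, h⟩ := R82.corer_82 k
  refine ⟨s, max zs k, le_max_right _ _, fun t z0 hz0 z hz bad hper hcard Q hQ c haut u H => ?_⟩
  have hk : k ≤ z0 := (le_max_right _ _).trans hz0
  obtain ⟨v, H', h1, h2⟩ := R82.class_card (fun n => ∀ q ∈ PP z0 z, ¬ bad q n) Q hQ c u H
  obtain ⟨bad', hbad'⟩ : ∃ bad' : ℕ → ℤ → Prop, bad' = fun q m => ¬ q ∣ Q ∧ bad q (c + Q * m) :=
    ⟨_, rfl⟩
  have hnb1 : ∀ q ∈ PP z0 z, q ∣ Q → nb bad' q = 0 := by
    intro q _ hqQ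
    unfold nb
    rw [Finset.card_eq_zero, Finset.filter_eq_empty_iff]
    intro r _ hr
    rw [hbad'] at hr
    exact hr.1 hqQ
  have hnb2 : ∀ q ∈ PP z0 z, ¬ q ∣ Q → nb bad' q = nb bad q := by
    intro q hq hqQ
    have h3 := R82.card_class q Q (PP_prime hq) hqQ c (bad q) (hper q hq)
    unfold nb
    rw [← h3]
    congr 1
    ext r
    rw [Finset.mem_filter, Finset.mem_filter, hbad']
    constructor
    · rintro ⟨h4, h5, h6⟩
      exact ⟨h4, h6⟩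
    · rintro ⟨h4, h5⟩
      exact ⟨h4, hqQ, h5⟩
  have h3 := h t z0 ((le_max_left _ _).trans hz0) z hz bad'
    (by
      intro q hq n m hnm
      rw [hbad']
      have e : (c + Q * n) - (c + Q * m) = (Q : ℤ) * (n - m) := by ring
      have := hper q hq (c + Q * n) (c + Q * m) (by rw [e]; exact Dvd.dvd.mul_left hnm _)
      show (¬ q ∣ Q ∧ bad q (c + Q * n)) ↔ (¬ q ∣ Q ∧ bad q (c + Q * m))
      rw [this])
    (by
      intro q hq
      by_cases hqQ : q ∣ Q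
      · have := hnb1 q hq hqQ
        unfold nb at this
        rw [show ((range q).filter (fun r : ℕ => bad' q r)).card = 0 from this]
        exact Nat.zero_le _
      · have := hnb2 q hq hqQ
        have h4 := hcard q hq
        rw [← this] at h4
        exact h4) 1 one_pos
    (fun q hq h4 => (PP_prime hq).one_lt.ne' (Nat.dvd_one.1 h4)) 0 v H'
  have hprod : ∏ q ∈ PP z0 z, (1 - ((((range q).filter (fun r : ℕ => bad' q r)).card : ℕ) : ℝ) /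
      q) = VQ z0 z Q bad := by
    unfold VQ
    rw [Finset.prod_filter]
    refine Finset.prod_congr rfl fun q hq => ?_
    by_cases hqQ : q ∣ Q
    · rw [if_neg (not_not.2 hqQ)]
      have := hnb1 q hq hqQ
      unfold nb at this
      rw [this]
      simp
    · rw [if_pos hqQ]
      have := hnb2 q hq hqQ
      rw [← this]
      rfl
  have hcount : ((((Ioc v (v + H')).filter (fun n => ((1 : ℕ) : ℤ) ∣ n - 0 ∧
      ∀ q ∈ PP z0 z, ¬ bad' q n)).card : ℕ) : ℝ) =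
      ((((Ioc u (u + H)).filter (fun n => (Q : ℤ) ∣ n - c ∧ ∀ q ∈ PP z0 z, ¬ bad q n)).card : ℕ)
        : ℝ) := by
    rw [h1]
    congr 2
    ext m
    rw [Finset.mem_filter, Finset.mem_filter]
    constructor
    · rintro ⟨h4, -, h5⟩
      refine ⟨h4, fun q hq hb => ?_⟩
      by_cases hqQ : q ∣ Q
      · exact haut q hq hqQ (c + Q * m) ⟨m, by ring⟩ hb
      · refine h5 q hq ?_
        rw [hbad']
        exact ⟨hqQ, hb⟩
    · rintro ⟨h4, h5⟩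
      refine ⟨h4, ⟨m - 0, by push_cast; ring⟩, fun q hq hb => ?_⟩
      rw [hbad'] at hb
      exact h5 q hq hb.2
  have h4 : |((((Ioc u (u + H)).filter (fun n => (Q : ℤ) ∣ n - c ∧
      ∀ q ∈ PP z0 z, ¬ bad q n)).card : ℕ) : ℝ) - H' * VQ z0 z Q bad| ≤
      (1 / 2) ^ t * (H' * VQ z0 z Q bad) + (z : ℝ) ^ (s * (t + 1)) := by
    rw [← hcount, ← hprod]
    refine le_of_eq_of_le ?_ (h3.trans_eq ?_)
    · congr 2
      push_cast
      rw [div_one]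
    · push_cast
      rw [div_one]
  obtain ⟨N, hN⟩ : ∃ N : ℝ, N = ((((Ioc u (u + H)).filter (fun n => (Q : ℤ) ∣ n - c ∧
      ∀ q ∈ PP z0 z, ¬ bad q n)).card : ℕ) : ℝ) := ⟨_, rfl⟩
  rw [← hN] at h4 ⊢
  have hV0 := VQ_nonneg (Q := Q) hk hcard
  have hV1 := VQ_le_one (Q := Q) hk hcard
  obtain ⟨V, hV⟩ : ∃ V : ℝ, V = VQ z0 z Q bad := ⟨_, rfl⟩
  rw [← hV] at h4 hV0 hV1 ⊢
  have h5 := abs_le.1 h2
  have h6 := abs_le.1 h4
  have ht0 : (0 : ℝ) ≤ (1 / 2) ^ t := by positivity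
  have ht1 : (1 / 2 : ℝ) ^ t ≤ 1 := pow_le_one₀ (by norm_num) (by norm_num)
  have a1 : (H' : ℝ) * V ≤ (H / Q : ℝ) * V + 1 := by nlinarith
  have a2 : (H / Q : ℝ) * V - 1 ≤ (H' : ℝ) * V := by nlinarith
  have a3 : (1 / 2 : ℝ) ^ t * (H' * V) ≤ (1 / 2) ^ t * ((H / Q : ℝ) * V) + 1 := by
    have := mul_le_mul_of_nonneg_left a1 ht0
    linarith
  rw [abs_le]
  constructor <;> linarith [h6.1, h6.2]

/-! ### Densities -/

theorem prod_PP_split {x y w : ℕ} (h1 : x ≤ y) (h2 : y ≤ w) (f : ℕ → ℝ) :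
    ∏ q ∈ PP x w, f q = (∏ q ∈ PP x y, f q) * ∏ q ∈ PP y w, f q := by
  rw [TwinAll.PP_union h1 h2, Finset.prod_union TwinAll.PP_disjoint]

theorem V1_split {x y w : ℕ} (h1 : x ≤ y) (h2 : y ≤ w) : V1 x w = V1 x y * V1 y w :=
  prod_PP_split h1 h2 _

theorem VQ_one (z0 z : ℕ) (bad : ℕ → ℤ → Prop) :
    VQ z0 z 1 bad = ∏ q ∈ PP z0 z, (1 - (nb bad q : ℝ) / q) := by
  unfold VQ
  rw [Finset.filter_true_of_mem]
  intro q hq h
  exact (PP_prime hq).one_lt.ne' (Nat.dvd_one.1 h)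

/-- removing few large primes changes little -/
theorem VQ_compare {z0 z z' k Q b : ℕ} (hk : k ≤ z0) (hz : 1 ≤ z) {bad : ℕ → ℤ → Prop}
    (hcard : ∀ q ∈ PP z0 z', nb bad q ≤ k) (h1 : ∀ q ∈ PP z0 z', z < q → nb bad q ≤ 1)
    (hQ : ∀ q ∈ PP z0 z', q ∣ Q → z < q)
    (hb : ((PP z0 z').filter (fun q => q ∣ Q)).card ≤ b) :
    VQ z0 z' 1 bad ≤ VQ z0 z' Q bad ∧
      VQ z0 z' Q bad * (1 - (b : ℝ) / z) ≤ VQ z0 z' 1 bad := by
  have h0 := VQ_nonneg (Q := Q) hk hcard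
  have e : VQ z0 z' 1 bad = VQ z0 z' Q bad *
      ∏ q ∈ (PP z0 z').filter (fun q => q ∣ Q), (1 - (nb bad q : ℝ) / q) := by
    rw [VQ_one]
    unfold VQ
    rw [mul_comm]
    exact (Finset.prod_filter_mul_prod_filter_not _ _ _).symm
  have hz0 : (0 : ℝ) < z := by exact_mod_cast hz
  rw [e]
  constructor
  · refine mul_le_of_le_one_right h0 (Finset.prod_le_one (fun q hq => ?_) fun q hq => ?_)
    · exact (nb_fac hk hcard q (Finset.mem_filter.1 hq).1).1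
    · exact (nb_fac hk hcard q (Finset.mem_filter.1 hq).1).2
  · refine mul_le_mul_of_nonneg_left ?_ h0
    have hz1 : (1 : ℝ) / z ≤ 1 := by
      rw [div_le_one hz0]
      exact_mod_cast hz
    have h2 : ∏ q ∈ (PP z0 z').filter (fun q => q ∣ Q), (1 - 1 / (z : ℝ)) ≤
        ∏ q ∈ (PP z0 z').filter (fun q => q ∣ Q), (1 - (nb bad q : ℝ) / q) := by
      refine Finset.prod_le_prod (fun q _ => by linarith) fun q hq => ?_
      obtain ⟨hq1, hq2⟩ := Finset.mem_filter.1 hq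
      have hzq := hQ q hq1 hq2
      have h3 : (nb bad q : ℝ) ≤ 1 := by exact_mod_cast h1 q hq1 hzq
      have h4 : (nb bad q : ℝ) / q ≤ 1 / z := by
        have h5 : (z : ℝ) ≤ q := by exact_mod_cast hzq.le
        exact div_le_div₀ zero_le_one h3 hz0 h5
      linarith
    refine le_trans ?_ h2
    rw [Finset.prod_const]
    have h6 := one_add_mul_le_pow (show (-2 : ℝ) ≤ -(1 / (z : ℝ)) by linarith)
      ((PP z0 z').filter (fun q => q ∣ Q)).card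
    rw [← sub_eq_add_neg] at h6
    refine le_trans ?_ h6
    have h7 : (((PP z0 z').filter (fun q => q ∣ Q)).card : ℝ) ≤ b := by exact_mod_cast hb
    have h8 : (((PP z0 z').filter (fun q => q ∣ Q)).card : ℝ) * (1 / z) ≤ b * (1 / z) :=
      mul_le_mul_of_nonneg_right h7 (by positivity)
    have h9 : (b : ℝ) * (1 / z) = b / z := by ring
    linarith

/-- the bad conditions -/
def badJ {k : ℕ} (z : ℕ) (a0 b0 : ℤ) (a d : Fin k → ℤ) (q : ℕ) (U : ℤ) : Prop :=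
  (q : ℤ) ∣ a0 * U + b0 ∨ (q ≤ z ∧ ∃ j, (q : ℤ) ∣ a j * U + d j)

theorem badJ_per {k : ℕ} (z : ℕ) (a0 b0 : ℤ) (a d : Fin k → ℤ) (q : ℕ) (n m : ℤ)
    (h : (q : ℤ) ∣ n - m) : badJ z a0 b0 a d q n ↔ badJ z a0 b0 a d q m := by
  have key : ∀ x y : ℤ, ((q : ℤ) ∣ x * n + y ↔ (q : ℤ) ∣ x * m + y) := by
    intro x y
    have e : x * n + y = x * (n - m) + (x * m + y) := by ring
    rw [e]
    exact dvd_add_right (Dvd.dvd.mul_left h _)
  unfold badJ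
  rw [key a0 b0]
  have e : (∃ j, (q : ℤ) ∣ a j * n + d j) ↔ ∃ j, (q : ℤ) ∣ a j * m + d j :=
    exists_congr fun j => key (a j) (d j)
  rw [e]

theorem nb_small {k z q : ℕ} (hq : q ≤ z) (a0 b0 : ℤ) (a d : Fin k → ℤ) :
    nb (badJ z a0 b0 a d) q =
      om (Fin.cons a0 a : Fin (k + 1) → ℤ) (Fin.cons b0 d : Fin (k + 1) → ℤ) q := by
  classical
  unfold nb om
  congr 1
  ext r
  rw [Finset.mem_filter, Finset.mem_filter]
  unfold badJ
  constructor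
  · rintro ⟨h1, h2 | ⟨-, j, h2⟩⟩
    · exact ⟨h1, 0, h2⟩
    · exact ⟨h1, j.succ, h2⟩
  · rintro ⟨h1, j, h2⟩
    refine ⟨h1, ?_⟩
    revert h2
    refine Fin.cases ?_ (fun j => ?_) j
    · intro h2
      exact Or.inl h2
    · intro h2
      exact Or.inr ⟨hq, j, h2⟩

theorem nb_large {k z q : ℕ} (hq : z < q) (a0 b0 : ℤ) (a d : Fin k → ℤ) :
    nb (badJ z a0 b0 a d) q = om (![a0] : Fin 1 → ℤ) ![b0] q := by
  classical
  unfold nb om
  congr 1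
  ext r
  rw [Finset.mem_filter, Finset.mem_filter]
  unfold badJ
  constructor
  · rintro ⟨h1, h2 | ⟨h2, -⟩⟩
    · exact ⟨h1, 0, h2⟩
    · omega
  · rintro ⟨h1, j, h2⟩
    refine ⟨h1, Or.inl ?_⟩
    rw [Fin.fin_one_eq_zero j] at h2
    exact h2

/-- bad conditions, only for the form `a0 U + b0` -/
def badN (a0 b0 : ℤ) (q : ℕ) (U : ℤ) : Prop := (q : ℤ) ∣ a0 * U + b0

theorem badN_per (a0 b0 : ℤ) (q : ℕ) (n m : ℤ)
    (h : (q : ℤ) ∣ n - m) : badN a0 b0 q n ↔ badN a0 b0 q m := by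
  have e : a0 * n + b0 = a0 * (n - m) + (a0 * m + b0) := by ring
  unfold badN
  rw [e]
  exact dvd_add_right (Dvd.dvd.mul_left h _)

theorem nb_badN {q : ℕ} (a0 b0 : ℤ) : nb (badN a0 b0) q = om (![a0] : Fin 1 → ℤ) ![b0] q := by
  classical
  unfold nb om
  congr 1
  ext r
  rw [Finset.mem_filter, Finset.mem_filter]
  unfold badN
  constructor
  · rintro ⟨h1, h2⟩
    exact ⟨h1, 0, h2⟩
  · rintro ⟨h1, j, h2⟩
    rw [Fin.fin_one_eq_zero j] at h2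
    exact ⟨h1, h2⟩

theorem VV_one {z0 z : ℕ} {a0 : ℤ} (b0 : ℤ) (h : ∀ q ∈ PP z0 z, ¬ ((q : ℤ) ∣ a0)) :
    VV z0 z (![a0] : Fin 1 → ℤ) ![b0] = V1 z0 z := by
  unfold V1
  refine vva_39 z0 z 1 1 _ _ _ _ fun q hq => ⟨a0, b0, h q hq, fun n => ?_⟩
  simp

theorem VV_cons {k z0 z : ℕ} {a0 : ℤ} (b0 : ℤ) (h : ∀ q ∈ PP z0 z, ¬ ((q : ℤ) ∣ a0))
    (a d : Fin k → ℤ) :
    VV z0 z (Fin.cons a0 a : Fin (k + 1) → ℤ) (Fin.cons b0 d : Fin (k + 1) → ℤ) =
      VJ z0 z a0 b0 a d := by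
  unfold VJ
  refine vva_39 z0 z (k + 1) (k + 1) _ _ _ _ fun q hq => ⟨a0, b0, h q hq, fun n => ?_⟩
  have hp := Nat.prime_iff_prime_int.1 (PP_prime hq)
  have key : ∀ j : Fin k, ((q : ℤ) ∣ a j * n + d j ↔
      (q : ℤ) ∣ a j * (a0 * n + b0) + (a0 * d j - a j * b0)) := by
    intro j
    have e : a j * (a0 * n + b0) + (a0 * d j - a j * b0) = a0 * (a j * n + d j) := by ring
    rw [e]
    constructor
    · intro h1
      exact Dvd.dvd.mul_left h1 _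
    · intro h1
      exact (hp.dvd_or_dvd h1).resolve_left (h q hq)
  rw [Fin.exists_fin_succ, Fin.exists_fin_succ]
  simp only [Fin.cons_zero, Fin.cons_succ, one_mul, add_zero]
  rw [exists_congr key]

theorem VQ_badJ {k z0 z z' : ℕ} (h1 : z0 ≤ z) (h2 : z ≤ z') {a0 : ℤ} (b0 : ℤ)
    (h : ∀ q ∈ PP z0 z', ¬ ((q : ℤ) ∣ a0)) (a d : Fin k → ℤ) :
    VQ z0 z' 1 (badJ z a0 b0 a d) = VJ z0 z a0 b0 a d * V1 z z' := by
  rw [VQ_one, prod_PP_split h1 h2, ← VV_cons b0 (fun q hq => h q (TwinAll.PP_mono h2 hq)),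
    ← VV_one b0 (fun q hq => h q (TwinAll.PP_anti h1 hq))]
  congr 1
  · unfold VV
    exact Finset.prod_congr rfl fun q hq => by rw [nb_small (PP_le hq)]
  · unfold VV
    exact Finset.prod_congr rfl fun q hq => by rw [nb_large (PP_lt hq)]

theorem VQ_badN {z0 z : ℕ} {a0 : ℤ} (b0 : ℤ) (h : ∀ q ∈ PP z0 z, ¬ ((q : ℤ) ∣ a0)) :
    VQ z0 z 1 (badN a0 b0) = V1 z0 z := by
  rw [VQ_one, ← VV_one b0 h]
  unfold VV
  exact Finset.prod_congr rfl fun q hq => by rw [nb_badN]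

/-! ### One set of conditions -/

theorem sum_abs_c {K z b R X : ℕ} {C1 : ℝ} (hz : 2 ≤ z) (hX : X ≤ z ^ b)
    {J : Finset (Fin K)} {c : Cond K → ℝ} (hc : Wt C1 X J c) :
    ∑ D ∈ (PI z R K).powerset, |c D| ≤ C1 * (2 ^ (b * K) * X) := by
  classical
  have hC : 0 ≤ C1 := (abs_nonneg _).trans (hc.bd ∅)
  have h1 : ∑ D ∈ (PI z R K).powerset, |c D| ≤
      ∑ D ∈ (PI z R K).powerset, if md D ≤ X then C1 else 0 := by
    refine Finset.sum_le_sum fun D _ => ?_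
    by_cases h : c D = 0
    · rw [h, abs_zero]
      split_ifs
      · exact hC
      · exact le_rfl
    · rw [if_pos (hc.lev D h)]
      exact hc.bd D
  refine h1.trans ?_
  rw [← Finset.sum_filter, Finset.sum_const, nsmul_eq_mul]
  have h2 : ((((PI z R K).powerset.filter (fun D => md D ≤ X)).card : ℕ) : ℝ) ≤
      (X : ℝ) * 2 ^ (b * K) := by exact_mod_cast card_level hz hX
  calc _ ≤ (X : ℝ) * 2 ^ (b * K) * C1 := mul_le_mul_of_nonneg_right h2 hC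
    _ = _ := by ring

/-- a set of conditions is a residue class -/
theorem holds_class {K z0 z R : ℕ} {α β : Fin K → ℤ} {D : Cond K} (hD : D ⊆ PI z R K)
    (hc : Clean D) (hz : z0 ≤ z) (hα : ∀ j, ∀ q : ℕ, q.Prime → (q : ℤ) ∣ α j → q ≤ z0) :
    ∃ ρ : ℤ, ∀ U : ℤ, Holds α β D U ↔ ((md D : ℕ) : ℤ) ∣ U - ρ := by
  have hempty : (∅ : Cond K) ⊆ PI z R K := Finset.empty_subset _
  have hce : Clean (∅ : Cond K) := by
    intro x hx
    simp at hx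
  have h1 : ∀ q ∈ PP z R, ∀ j : Fin K, ¬ ((q : ℤ) ∣ α j * 1) := by
    intro q hq j h
    rw [mul_one] at h
    have h2 := hα j q (PP_prime hq) h
    have h3 := PP_lt hq
    omega
  obtain ⟨ρ, hρ⟩ := both_exists (α := α) (β := β) (μ := 1) (ν := 0) (μ' := 1) (ν' := 0) hD hempty
    hc hce (fun x hx => h1 x.1 (Finset.mem_product.1 (hD hx)).1 x.2)
    (fun x hx => absurd hx (Finset.notMem_empty x)) (by simp)
  have hQ : QQ D ∅ = md D := by
    rw [QQ_disjoint hc hce (by simp)]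
    simp [md]
  refine ⟨ρ, fun U => ?_⟩
  have h2 := both_class (J := Finset.univ) (J' := Finset.univ) hD hempty
    (fun x _ => Finset.mem_univ _) (fun x _ => Finset.mem_univ _)
    (fun q hq j _ => Or.inl (h1 q hq j)) (fun q hq j _ => Or.inl (h1 q hq j)) ρ hρ U
  rw [hQ] at h2
  rw [← h2]
  unfold Both
  rw [one_mul, add_zero]
  constructor
  · intro h
    exact ⟨h, fun x hx => absurd hx (Finset.notMem_empty x)⟩
  · intro h
    exact h.1

/-- at the primes of `D` the number `a0 U + b0` is automatically not divisible -/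
theorem auto_ok {k K z0 z R C0 : ℕ} {α β : Fin K → ℤ} {D : Cond K} (hD : D ⊆ PI z R K)
    (hMF : MF C0 z0 α β) {a0 b0 : ℤ} (ha0 : 0 < a0) (ha0C : a0 ≤ C0) (hb0 : |b0| ≤ C0)
    (a d : Fin k → ℤ) {J : Finset (Fin K)} (hJ : ∀ x ∈ D, x.2 ∈ J)
    (hdet : ∀ j ∈ J, a0 * β j ≠ α j * b0) (hz : 2 * C0 ^ 2 + 2 ≤ z) {U : ℤ}
    (hU : Holds α β D U) {q : ℕ} (hq : q.Prime) (hqD : q ∣ md D) :
    z < q ∧ ¬ badJ z a0 b0 a d q U := by
  unfold md at hqD
  obtain ⟨x, hx, hqx⟩ := (Nat.prime_iff.1 hq).exists_mem_finset_dvd hqD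
  have h1 := (Finset.mem_product.1 (hD hx)).1
  have h2 : q = x.1 := (Nat.prime_dvd_prime_iff_eq hq (PP_prime h1)).1 hqx
  have hzq : z < q := by
    rw [h2]
    exact PP_lt h1
  refine ⟨hzq, ?_⟩
  rintro (h3 | ⟨h3, -⟩)
  · have h4 : (q : ℤ) ∣ α x.2 * U + β x.2 := by
      rw [h2]
      exact hU x hx
    have h5 : (q : ℤ) ∣ a0 * β x.2 - α x.2 * b0 := by
      have e : a0 * β x.2 - α x.2 * b0 = a0 * (α x.2 * U + β x.2) - α x.2 * (a0 * U + b0) := by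
        ring
      rw [e]
      exact dvd_sub (Dvd.dvd.mul_left h4 _) (Dvd.dvd.mul_left h3 _)
    have h6 : a0 * β x.2 - α x.2 * b0 ≠ 0 := sub_ne_zero.2 (hdet x.2 (hJ x hx))
    have h7 := Int.le_of_dvd (abs_pos.2 h6) ((dvd_abs _ _).2 h5)
    have hα0 := (hMF.pos x.2).1
    obtain ⟨hα1, hβ1⟩ := hMF.bd x.2
    have hC0 : (0 : ℤ) ≤ C0 := Int.natCast_nonneg _
    have h8 : |a0 * β x.2 - α x.2 * b0| ≤ 2 * (C0 : ℤ) ^ 2 := by
      have g1 : |a0 * β x.2| ≤ (C0 : ℤ) * C0 := by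
        rw [abs_mul, abs_of_pos ha0]
        exact mul_le_mul ha0C hβ1 (abs_nonneg _) hC0
      have g2 : |α x.2 * b0| ≤ (C0 : ℤ) * C0 := by
        rw [abs_mul, abs_of_pos hα0]
        exact mul_le_mul hα1 hb0 (abs_nonneg _) hC0
      have g3 := abs_sub (a0 * β x.2) (α x.2 * b0)
      nlinarith
    have h9 : (q : ℤ) ≤ 2 * (C0 : ℤ) ^ 2 := h7.trans h8
    have h10 : q ≤ 2 * C0 ^ 2 := by exact_mod_cast h9
    omega
  · omega

theorem not_badJ_iff {k z0 z z' : ℕ} (h : z ≤ z') (a0 b0 : ℤ) (a d : Fin k → ℤ) (U : ℤ) :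
    (Rough z0 z' (a0 * U + b0) ∧ ∀ j, Rough z0 z (a j * U + d j)) ↔
      ∀ q ∈ PP z0 z', ¬ badJ z a0 b0 a d q U := by
  constructor
  · rintro ⟨h1, h2⟩ q hq (h3 | ⟨h3, j, h4⟩)
    · exact h1 q hq h3
    · exact h2 j q (mem_PP.2 ⟨⟨PP_lt hq, h3⟩, PP_prime hq⟩) h4
  · intro h1
    refine ⟨fun q hq h2 => h1 q hq (Or.inl h2), fun j q hq h2 => ?_⟩
    exact h1 q (TwinAll.PP_mono h hq) (Or.inr ⟨PP_le hq, j, h2⟩)

open Classical in
/-- the sum of `nuJ` over the `U` for which `D` holds -/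
noncomputable def SD {k K : ℕ} (z0 z z' : ℕ) (a0 b0 : ℤ) (a d : Fin k → ℤ) (α β : Fin K → ℤ)
    (H : ℕ) (D : Cond K) : ℝ :=
  ∑ U ∈ (Ioc (0 : ℤ) H).filter (fun U => Rough z0 z' (a0 * U + b0)),
    nuJ z0 z a0 b0 a d U * (if Holds α β D U then 1 else 0)

open Classical in
/-- the sieve hypothesis at one level and one precision -/
def Cor (k z0 z t : ℕ) (E : ℝ) : Prop :=
  ∀ (bad : ℕ → ℤ → Prop),
    (∀ q ∈ PP z0 z, ∀ n m : ℤ, (q : ℤ) ∣ n - m → (bad q n ↔ bad q m)) →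
    (∀ q ∈ PP z0 z, nb bad q ≤ k) →
    ∀ Q : ℕ, 0 < Q → ∀ c : ℤ, (∀ q ∈ PP z0 z, q ∣ Q → ∀ n : ℤ, (Q : ℤ) ∣ n - c → ¬ bad q n) →
    ∀ (u : ℤ) (H : ℕ),
      |((((Ioc u (u + H)).filter (fun n => (Q : ℤ) ∣ n - c ∧ ∀ q ∈ PP z0 z, ¬ bad q n)).card : ℝ)) -
        (H / Q : ℝ) * VQ z0 z Q bad| ≤
      (1 / 2) ^ t * ((H / Q : ℝ) * VQ z0 z Q bad) + E

theorem SD_bound {k K z0 z z' R t b C0 X H : ℕ} {C1 E : ℝ} (hk : k + 1 ≤ z0) (hz0 : z0 ≤ z)
    (hz' : z ≤ z') (hz2 : 2 * C0 ^ 2 + 2 ≤ z) (hbz : 2 * b ≤ z) (hE : 0 ≤ E)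
    (hcor : Cor (k + 1) z0 z' t E) (hX : X ≤ z ^ b)
    {a0 b0 : ℤ} {a d : Fin k → ℤ} (ha0 : 0 < a0) (ha0C : a0 ≤ C0) (hb0 : |b0| ≤ C0)
    (ha0l : ∀ q : ℕ, q.Prime → (q : ℤ) ∣ a0 → q ≤ z0) (hSF : SF C0 z0 a)
    {α β : Fin K → ℤ} {J : Finset (Fin K)} {c : Cond K → ℝ} (hMF : MF C0 z0 α β)
    (hdet : ∀ j ∈ J, a0 * β j ≠ α j * b0) (hc : Wt C1 X J c) {D : Cond K}
    (hD : D ⊆ PI z R K) (hcD : c D ≠ 0) :
    |SD z0 z z' a0 b0 a d α β H D - V1 z0 z' * (H / md D)| ≤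
      V1 z0 z' * (H / md D) * (2 * (1 / 2) ^ t + 2 * b / z) + (z : ℝ) ^ (k + 1) * E := by
  classical
  obtain ⟨ρ, hρ⟩ := holds_class (β := β) hD (hc.clean D hcD) hz0 hMF.large
  have hQ : 0 < md D := md_pos hD
  have hQR : (0 : ℝ) < md D := by exact_mod_cast hQ
  have hzpos : (0 : ℝ) < z := by exact_mod_cast (by omega : 0 < z)
  have ha0n : ∀ q ∈ PP z0 z', ¬ ((q : ℤ) ∣ a0) := by
    intro q hq h
    have h1 := ha0l q (PP_prime hq) h
    have h2 := PP_lt hq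
    omega
  have han : ∀ j, ∀ q ∈ PP z0 z', ¬ ((q : ℤ) ∣ a j) := by
    intro j q hq h
    have h1 := hSF.large j q (PP_prime hq) h
    have h2 := PP_lt hq
    omega
  have hcons : ∀ j : Fin (k + 1), ∀ q ∈ PP z0 z,
      ¬ ((q : ℤ) ∣ (Fin.cons a0 a : Fin (k + 1) → ℤ) j) := by
    intro j q hq
    refine Fin.cases ?_ (fun j => ?_) j
    · exact ha0n q (TwinAll.PP_mono hz' hq)
    · exact han j q (TwinAll.PP_mono hz' hq)
  have hone : ∀ q ∈ PP z0 z', z < q → nb (badJ z a0 b0 a d) q ≤ 1 := by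
    intro q hq hzq
    rw [nb_large hzq]
    refine TwinAll.om_le _ _ (PP_prime hq) fun j => ?_
    rw [Fin.fin_one_eq_zero j]
    exact ha0n q hq
  have hcard : ∀ q ∈ PP z0 z', nb (badJ z a0 b0 a d) q ≤ k + 1 := by
    intro q hq
    rcases le_or_gt q z with h | h
    · rw [nb_small h]
      exact TwinAll.om_le _ _ (PP_prime hq) fun j => hcons j q
        (mem_PP.2 ⟨⟨PP_lt hq, h⟩, PP_prime hq⟩)
    · exact (hone q hq h).trans (by omega)
  have hauto : ∀ q ∈ PP z0 z', q ∣ md D → ∀ n : ℤ, ((md D : ℕ) : ℤ) ∣ n - ρ →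
      ¬ badJ z a0 b0 a d q n := by
    intro q hq hqD n hn
    exact (auto_ok hD hMF ha0 ha0C hb0 a d (hc.idx D hcD) hdet hz2 ((hρ n).2 hn)
      (PP_prime hq) hqD).2
  have hcnt := hcor (badJ z a0 b0 a d) (fun q _ n m h => badJ_per z a0 b0 a d q n m h) hcard
    (md D) hQ ρ hauto 0 H
  -- comparison of the densities
  have hmem : ∀ q : ℕ, q.Prime → q ∣ md D → ∃ x ∈ D, q = x.1 := by
    intro q hq hqD
    obtain ⟨x, hx, hqx⟩ := (Nat.prime_iff.1 hq).exists_mem_finset_dvd hqD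
    exact ⟨x, hx, (Nat.prime_dvd_prime_iff_eq hq
      (PP_prime (Finset.mem_product.1 (hD hx)).1)).1 hqx⟩
  have hcmp := VQ_compare (Q := md D) (b := b) (z := z) hk (by omega) hcard hone
    (fun q hq hqD => by
      obtain ⟨x, hx, rfl⟩ := hmem q (PP_prime hq) hqD
      exact PP_lt (Finset.mem_product.1 (hD hx)).1)
    (by
      have h1 : (PP z0 z').filter (fun q => q ∣ md D) ⊆ D.image Prod.fst := by
        intro q hq
        obtain ⟨hq1, hq2⟩ := Finset.mem_filter.1 hq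
        obtain ⟨x, hx, rfl⟩ := hmem q (PP_prime hq1) hq2
        exact Finset.mem_image_of_mem _ hx
      refine ((Finset.card_le_card h1).trans Finset.card_image_le).trans ?_
      have h2 : z ^ D.card ≤ ∏ x ∈ D, x.1 :=
        Finset.pow_card_le_prod _ _ _ fun x hx => (PP_lt (Finset.mem_product.1 (hD hx)).1).le
      have h3 : z ^ D.card ≤ z ^ b := h2.trans ((hc.lev D hcD).trans hX)
      exact (Nat.pow_le_pow_iff_right (by omega)).1 h3)
  -- the value of SD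
  obtain ⟨N, hN⟩ : ∃ N : ℝ, N = ((((Ioc (0 : ℤ) (0 + H)).filter (fun n =>
      ((md D : ℕ) : ℤ) ∣ n - ρ ∧ ∀ q ∈ PP z0 z', ¬ badJ z a0 b0 a d q n)).card : ℕ) : ℝ) :=
    ⟨_, rfl⟩
  have hSD : SD z0 z z' a0 b0 a d α β H D = V1 z0 z / VJ z0 z a0 b0 a d * N := by
    rw [hN, Finset.card_filter, zero_add]
    push_cast
    rw [Finset.mul_sum]
    unfold SD
    rw [Finset.sum_filter]
    refine Finset.sum_congr rfl fun U _ => ?_
    unfold nuJ
    by_cases h1 : Rough z0 z' (a0 * U + b0)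
    · rw [if_pos h1]
      by_cases h2 : ∀ j, Rough z0 z (a j * U + d j)
      · rw [if_pos h2]
        have h3 := (not_badJ_iff hz' a0 b0 a d U).1 ⟨h1, h2⟩
        by_cases h4 : Holds α β D U
        · rw [if_pos h4, if_pos ⟨(hρ U).1 h4, h3⟩]
        · rw [if_neg h4, if_neg fun h5 => h4 ((hρ U).2 h5.1)]
      · rw [if_neg h2, zero_mul, if_neg fun h5 => h2 ((not_badJ_iff hz' a0 b0 a d U).2 h5.2).2,
          mul_zero]
    · rw [if_neg h1, if_neg fun h5 => h1 ((not_badJ_iff hz' a0 b0 a d U).2 h5.2).1, mul_zero]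
  rw [← hN] at hcnt
  have hVJ : VJ z0 z a0 b0 a d = VV z0 z (Fin.cons a0 a : Fin (k + 1) → ℤ)
      (Fin.cons b0 d : Fin (k + 1) → ℤ) :=
    (VV_cons b0 (fun q hq => ha0n q (TwinAll.PP_mono hz' hq)) a d).symm
  have hVJpos : 0 < VJ z0 z a0 b0 a d := by
    rw [hVJ]
    exact TwinAll.VV_pos hk _ _ hcons
  have hVJinv : (VJ z0 z a0 b0 a d)⁻¹ ≤ (z : ℝ) ^ (k + 1) := by
    rw [hVJ]
    exact TwinAll.VV_inv_le hk hz0 _ _ hcons
  have hV1pos : 0 < V1 z0 z := by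
    unfold V1
    refine TwinAll.VV_pos (by omega) _ _ fun j q hq => ?_
    rw [Fin.fin_one_eq_zero j]
    exact TwinAll.not_dvd_one q hq
  have hV1le : V1 z0 z ≤ 1 := TwinAll.VV_le_one _ _ _ _
  have hVbad := VQ_badJ hz0 hz' b0 ha0n a d
  rw [V1_split hz0 hz', hSD]
  obtain ⟨W, hW⟩ : ∃ W, W = V1 z z' := ⟨_, rfl⟩
  obtain ⟨V, hV⟩ : ∃ V, V = VQ z0 z' (md D) (badJ z a0 b0 a d) := ⟨_, rfl⟩
  obtain ⟨F, hF⟩ : ∃ F, F = V1 z0 z / VJ z0 z a0 b0 a d := ⟨_, rfl⟩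
  have hF0 : 0 ≤ F := by rw [hF]; positivity
  have hFle : F ≤ (z : ℝ) ^ (k + 1) := by
    rw [hF, div_eq_mul_inv]
    calc V1 z0 z * (VJ z0 z a0 b0 a d)⁻¹ ≤ 1 * (VJ z0 z a0 b0 a d)⁻¹ :=
          mul_le_mul_of_nonneg_right hV1le (inv_nonneg.2 hVJpos.le)
      _ ≤ _ := by rw [one_mul]; exact hVJinv
  have hFV : F * (VJ z0 z a0 b0 a d * W) = V1 z0 z * W := by
    rw [hF]
    field_simp
  rw [← hW] at hVbad ⊢
  rw [← hV] at hcmp hcnt
  rw [← hF]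
  rw [hVbad] at hcmp
  obtain ⟨M, hM⟩ : ∃ M, M = VJ z0 z a0 b0 a d * W := ⟨_, rfl⟩
  rw [← hM] at hcmp hFV
  rw [← hFV]
  obtain ⟨h, hh⟩ : ∃ h : ℝ, h = (H : ℝ) / md D := ⟨_, rfl⟩
  have hh0 : 0 ≤ h := by rw [hh]; positivity
  rw [← hh] at hcnt ⊢
  have hbz' : (b : ℝ) / z ≤ 1 / 2 := by
    rw [div_le_div_iff₀ hzpos (by norm_num)]
    have : (2 : ℝ) * b ≤ z := by exact_mod_cast hbz
    linarith
  have hV0 : 0 ≤ V := by rw [hV]; exact VQ_nonneg hk hcard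
  have hbz0 : (0 : ℝ) ≤ (b : ℝ) / z := by positivity
  have c1 : V ≤ 2 * M := by nlinarith [hcmp.2]
  have c2 : V - M ≤ 2 * ((b : ℝ) / z) * M := by
    have g1 := hcmp.2
    have g2 : V * ((b : ℝ) / z) ≤ 2 * M * ((b : ℝ) / z) := mul_le_mul_of_nonneg_right c1 hbz0
    nlinarith
  have c3 : |N - h * M| ≤ h * M * (2 * (1 / 2) ^ t + 2 * b / z) + E := by
    have g1 := abs_le.1 hcnt
    have ht0 : (0 : ℝ) ≤ (1 / 2) ^ t := by positivity
    have g2 : (1 / 2 : ℝ) ^ t * (h * V) ≤ (1 / 2) ^ t * (h * (2 * M)) :=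
      mul_le_mul_of_nonneg_left (mul_le_mul_of_nonneg_left c1 hh0) ht0
    have g3 : h * (V - M) ≤ h * (2 * ((b : ℝ) / z) * M) := mul_le_mul_of_nonneg_left c2 hh0
    have g4 : 0 ≤ h * (V - M) := mul_nonneg hh0 (sub_nonneg.2 hcmp.1)
    have e1 : h * M * (2 * (1 / 2) ^ t + 2 * b / z) =
        (1 / 2) ^ t * (h * (2 * M)) + h * (2 * ((b : ℝ) / z) * M) := by ring
    rw [e1, abs_le]
    constructor <;> nlinarith [g1.1, g1.2]
  have e2 : F * N - F * M * h = F * (N - h * M) := by ring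
  rw [e2, abs_mul, abs_of_nonneg hF0]
  calc F * |N - h * M| ≤ F * (h * M * (2 * (1 / 2) ^ t + 2 * b / z) + E) :=
        mul_le_mul_of_nonneg_left c3 hF0
    _ = F * M * h * (2 * (1 / 2) ^ t + 2 * b / z) + F * E := by ring
    _ ≤ F * M * h * (2 * (1 / 2) ^ t + 2 * b / z) + (z : ℝ) ^ (k + 1) * E := by
        have := mul_le_mul_of_nonneg_right hFle hE
        linarith

open Classical in
theorem N_bound {k z0 z' t H : ℕ} {E : ℝ} (hcor : Cor (k + 1) z0 z' t E)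
    {a0 b0 : ℤ} (ha0l : ∀ q : ℕ, q.Prime → (q : ℤ) ∣ a0 → q ≤ z0) :
    |((((Ioc (0 : ℤ) H).filter (fun U => Rough z0 z' (a0 * U + b0))).card : ℕ) : ℝ) -
      V1 z0 z' * H| ≤ (1 / 2) ^ t * (V1 z0 z' * H) + E := by
  have ha0n : ∀ q ∈ PP z0 z', ¬ ((q : ℤ) ∣ a0) := by
    intro q hq h
    have h1 := ha0l q (PP_prime hq) h
    have h2 := PP_lt hq
    omega
  have h1 := hcor (badN a0 b0) (fun q _ n m h => badN_per a0 b0 q n m h)
    (fun q hq => by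
      rw [nb_badN]
      refine (TwinAll.om_le _ _ (PP_prime hq) fun j => ?_).trans (by omega)
      rw [Fin.fin_one_eq_zero j]
      exact ha0n q hq) 1 one_pos 0
    (fun q hq h => absurd (Nat.dvd_one.1 h) (PP_prime hq).one_lt.ne') 0 H
  rw [VQ_badN b0 ha0n] at h1
  have e : (((Ioc (0 : ℤ) (0 + H)).filter (fun n => ((1 : ℕ) : ℤ) ∣ n - 0 ∧
      ∀ q ∈ PP z0 z', ¬ badN a0 b0 q n))) =
      (Ioc (0 : ℤ) H).filter (fun U => Rough z0 z' (a0 * U + b0)) := by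
    ext U
    rw [Finset.mem_filter, Finset.mem_filter, zero_add]
    constructor
    · rintro ⟨h2, -, h3⟩
      exact ⟨h2, h3⟩
    · rintro ⟨h2, h3⟩
      exact ⟨h2, ⟨U - 0, by push_cast; ring⟩, h3⟩
  rw [e, Nat.cast_one, div_one, mul_comm (H : ℝ)] at h1
  exact h1

theorem mix_62 : MIXStmt := by
  classical
  intro k K s5 hs5
  obtain ⟨s, zs, hzs, hcor⟩ := corerQ (k + 1)
  refine ⟨k + 3 + 4 * s5 * s, zs, fun t z0 hz0 b C0 C1 => ?_⟩
  refine ⟨z0 + 2 * C0 ^ 2 + 2 + 16 * b * 2 ^ t + ⌈12 * C1 * 2 ^ (b * K) * 2 ^ t⌉₊,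
    fun z hz R X hR hX a0 b0 a d ha0 ha0C hb0 hcop ha0l hSF α β J c hMF hdet hc H hH => ?_⟩
  have hz0z : z0 ≤ z := by omega
  have hz2 : 2 ≤ z := by omega
  have hzC : 2 * C0 ^ 2 + 2 ≤ z := by omega
  have hbt : 16 * b * 2 ^ t ≤ z := by omega
  have h2t : 1 ≤ 2 ^ t := Nat.one_le_two_pow
  have hbz : 2 * b ≤ z := by nlinarith
  have hzpos : (0 : ℝ) < z := by exact_mod_cast (by omega : 0 < z)
  have hz1 : (1 : ℝ) ≤ z := by exact_mod_cast (by omega : 1 ≤ z)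
  have hzz' : z ≤ z ^ s5 := by
    calc z = z ^ 1 := (pow_one z).symm
      _ ≤ z ^ s5 := Nat.pow_le_pow_right (by omega) hs5
  have hC : 0 ≤ C1 := (abs_nonneg _).trans (hc.bd ∅)
  obtain ⟨E, hEdef⟩ : ∃ E : ℝ, E = ((z ^ s5 : ℕ) : ℝ) ^ (s * (t + 3 + 1)) + 2 := ⟨_, rfl⟩
  have hE0 : 0 ≤ E := by rw [hEdef]; positivity
  have hCor : Cor (k + 1) z0 (z ^ s5) (t + 3) E := by
    rw [hEdef]
    exact hcor (t + 3) z0 hz0 (z ^ s5) (hz0z.trans hzz')
  have hNb := N_bound (H := H) (b0 := b0) hCor ha0l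
  obtain ⟨N, hN⟩ : ∃ N : ℝ, N = ((((Ioc (0 : ℤ) H).filter
    (fun U => Rough z0 (z ^ s5) (a0 * U + b0))).card : ℕ) : ℝ) := ⟨_, rfl⟩
  rw [← hN] at hNb
  obtain ⟨V', hV'⟩ : ∃ V', V' = V1 z0 (z ^ s5) := ⟨_, rfl⟩
  have hV1pos : 0 < V1 z0 z := by
    unfold V1
    refine TwinAll.VV_pos (by omega) _ _ fun j q hq => ?_
    rw [Fin.fin_one_eq_zero j]
    exact TwinAll.not_dvd_one q hq
  have hV1z : 1 ≤ V1 z0 z * z := by
    have h1 := TwinAll.VV_ge (k := 1) (z0 := z0) (z := z) (by omega) hz0z (![1] : Fin 1 → ℤ) ![0]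
      fun j q hq => by
        rw [Fin.fin_one_eq_zero j]
        exact TwinAll.not_dvd_one q hq
    rw [pow_one] at h1
    exact h1
  have hV'0 : 0 ≤ V' := by
    rw [hV']
    unfold V1
    refine (TwinAll.VV_pos (by omega) _ _ fun j q hq => ?_).le
    rw [Fin.fin_one_eq_zero j]
    exact TwinAll.not_dvd_one q hq
  have hV'le : V' ≤ V1 z0 z := by
    rw [hV', V1_split hz0z hzz']
    exact mul_le_of_le_one_right hV1pos.le (TwinAll.VV_le_one _ _ _ _)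
  -- expansion
  have hexp : ∑ U ∈ (Ioc (0 : ℤ) H).filter (fun U => Rough z0 (z ^ s5) (a0 * U + b0)),
      (wt z R c α β U * nuJ z0 z a0 b0 a d U - wmean z R c) =
      ∑ D ∈ (PI z R K).powerset, c D * (SD z0 z (z ^ s5) a0 b0 a d α β H D - N / md D) := by
    rw [Finset.sum_sub_distrib, Finset.sum_const, nsmul_eq_mul, ← hN]
    have e1 : ∑ U ∈ (Ioc (0 : ℤ) H).filter (fun U => Rough z0 (z ^ s5) (a0 * U + b0)),
        wt z R c α β U * nuJ z0 z a0 b0 a d U =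
        ∑ D ∈ (PI z R K).powerset, c D * SD z0 z (z ^ s5) a0 b0 a d α β H D := by
      unfold wt SD
      rw [Finset.sum_congr rfl fun U _ => Finset.sum_mul _ _ _, Finset.sum_comm]
      refine Finset.sum_congr rfl fun D _ => ?_
      rw [Finset.mul_sum]
      exact Finset.sum_congr rfl fun U _ => by ring
    have e2 : N * wmean z R c = ∑ D ∈ (PI z R K).powerset, c D * (N / md D) := by
      unfold wmean
      rw [Finset.mul_sum]
      exact Finset.sum_congr rfl fun D _ => by ring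
    rw [e1, e2, ← Finset.sum_sub_distrib]
    exact Finset.sum_congr rfl fun D _ => by ring
  rw [hexp]
  obtain ⟨r, hr⟩ : ∃ r : ℝ, r = 3 * (1 / 2) ^ (t + 3) + 2 * b / z := ⟨_, rfl⟩
  have hterm : ∀ D ∈ (PI z R K).powerset,
      |c D * (SD z0 z (z ^ s5) a0 b0 a d α β H D - N / md D)| ≤
        |c D| / md D * (V' * H * r) + |c D| * (2 * (z : ℝ) ^ (k + 1) * E) := by
    intro D hD
    rw [Finset.mem_powerset] at hD
    rw [abs_mul]
    by_cases hcD : c D = 0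
    · rw [hcD]
      simp
    have h1 := SD_bound (d := d) (H := H) (hzs.trans hz0) hz0z hzz' hzC hbz hE0 hCor hX ha0 ha0C hb0 ha0l hSF
      hMF hdet hc hD hcD
    rw [← hV'] at h1 hNb
    have hm : (1 : ℝ) ≤ md D := by exact_mod_cast md_pos hD
    have hm0 : (0 : ℝ) < md D := by linarith
    have h2 : |V' * (H / md D) - N / md D| ≤
        V' * (H / md D) * (1 / 2) ^ (t + 3) + E := by
      have e1 : V' * (H / md D) - N / md D = (V' * H - N) / md D := by ring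
      rw [e1, abs_div, abs_of_pos hm0, abs_sub_comm]
      calc |N - V' * H| / md D ≤ ((1 / 2) ^ (t + 3) * (V' * H) + E) / md D :=
            div_le_div_of_nonneg_right hNb hm0.le
        _ = V' * (H / md D) * (1 / 2) ^ (t + 3) + E / md D := by ring
        _ ≤ V' * (H / md D) * (1 / 2) ^ (t + 3) + E := by
            have := div_le_self hE0 hm
            linarith
    have h3 : |SD z0 z (z ^ s5) a0 b0 a d α β H D - N / md D| ≤
        V' * (H / md D) * r + 2 * (z : ℝ) ^ (k + 1) * E := by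
      have h4 := abs_sub_le (SD z0 z (z ^ s5) a0 b0 a d α β H D) (V' * (H / md D)) (N / md D)
      have h5 : E ≤ (z : ℝ) ^ (k + 1) * E :=
        le_mul_of_one_le_left hE0 (one_le_pow₀ hz1)
      have e2 : V' * (H / md D) * r = V' * (H / md D) * (2 * (1 / 2) ^ (t + 3) + 2 * b / z) +
          V' * (H / md D) * (1 / 2) ^ (t + 3) := by
        rw [hr]; ring
      rw [e2]
      linarith
    calc |c D| * |SD z0 z (z ^ s5) a0 b0 a d α β H D - N / md D| ≤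
          |c D| * (V' * (H / md D) * r + 2 * (z : ℝ) ^ (k + 1) * E) :=
          mul_le_mul_of_nonneg_left h3 (abs_nonneg _)
      _ = _ := by ring
  refine (Finset.abs_sum_le_sum_abs _ _).trans ((Finset.sum_le_sum hterm).trans ?_)
  rw [Finset.sum_add_distrib, ← Finset.sum_mul, ← Finset.sum_mul]
  have hw : ∑ D ∈ (PI z R K).powerset, |c D| / md D = wnorm z R c := rfl
  rw [hw]
  have hw0 : 0 ≤ wnorm z R c := Finset.sum_nonneg fun D _ => by positivity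
  have hsum := sum_abs_c (R := R) hz2 hX hc
  have hH0 : (0 : ℝ) ≤ H := Nat.cast_nonneg H
  have hr1 : r ≤ (1 / 2) ^ t := by
    rw [hr, pow_add]
    have h1 : 2 * (b : ℝ) / z ≤ 1 / 8 * (1 / 2) ^ t := by
      have h2 : (16 * b * 2 ^ t : ℝ) ≤ z := by exact_mod_cast hbt
      have h3 : (1 / 2 : ℝ) ^ t = (2 ^ t)⁻¹ := by
        rw [one_div, inv_pow]
      have h4 : (0 : ℝ) < 2 ^ t := by positivity
      rw [h3, div_le_iff₀ hzpos]
      have h5 : 1 / 8 * ((2 : ℝ) ^ t)⁻¹ * (16 * b * 2 ^ t) ≤ 1 / 8 * ((2 : ℝ) ^ t)⁻¹ * z :=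
        mul_le_mul_of_nonneg_left h2 (by positivity)
      have h6 : 1 / 8 * ((2 : ℝ) ^ t)⁻¹ * (16 * b * 2 ^ t) = 2 * b := by
        field_simp
        ring
      linarith
    have h7 : (0 : ℝ) < (1 / 2) ^ t := by positivity
    have h8 : (1 / 2 : ℝ) ^ 3 = 1 / 8 := by norm_num
    rw [h8]
    linarith
  have hr0 : 0 ≤ r := by rw [hr]; positivity
  have hfirst : wnorm z R c * (V' * H * r) ≤ (1 / 2) ^ t * wnorm z R c * (V1 z0 z * H) := by
    have h1 : V' * H * r ≤ V1 z0 z * H * (1 / 2) ^ t :=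
      mul_le_mul (mul_le_mul_of_nonneg_right hV'le hH0) hr1 hr0 (by positivity)
    calc _ ≤ wnorm z R c * (V1 z0 z * H * (1 / 2) ^ t) := mul_le_mul_of_nonneg_left h1 hw0
      _ = _ := by ring
  -- the remainder
  have hEle : E ≤ 3 * (z : ℝ) ^ (s5 * (s * (t + 3 + 1))) := by
    rw [hEdef]
    push_cast
    rw [← pow_mul]
    have : (1 : ℝ) ≤ (z : ℝ) ^ (s5 * (s * (t + 3 + 1))) := one_le_pow₀ hz1
    linarith
  have hsecond : (∑ D ∈ (PI z R K).powerset, |c D|) * (2 * (z : ℝ) ^ (k + 1) * E) ≤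
      (1 / 2) ^ t * (V1 z0 z * H) := by
    have hHr : (X : ℝ) * (z : ℝ) ^ ((k + 3 + 4 * s5 * s) * (t + 1)) ≤ H := by exact_mod_cast hH
    have h1 : 12 * C1 * 2 ^ (b * K) * 2 ^ t ≤ z := by
      refine (Nat.le_ceil _).trans ?_
      exact_mod_cast (by omega : ⌈12 * C1 * 2 ^ (b * K) * 2 ^ t⌉₊ ≤ z)
    have h2 : (∑ D ∈ (PI z R K).powerset, |c D|) * (2 * (z : ℝ) ^ (k + 1) * E) ≤
        (C1 * (2 ^ (b * K) * X)) * (2 * (z : ℝ) ^ (k + 1) *
          (3 * (z : ℝ) ^ (s5 * (s * (t + 3 + 1))))) :=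
      mul_le_mul hsum (mul_le_mul_of_nonneg_left hEle (by positivity)) (by positivity)
        (by positivity)
    refine h2.trans ?_
    have hhalf : (1 / 2 : ℝ) ^ t * 2 ^ t = 1 := by
      rw [← mul_pow]; norm_num
    have h3 : (C1 * (2 ^ (b * K) * X)) * (2 * (z : ℝ) ^ (k + 1) *
        (3 * (z : ℝ) ^ (s5 * (s * (t + 3 + 1))))) = (1 / 2) ^ t *
        ((6 * C1 * 2 ^ (b * K) * 2 ^ t) * (X * ((z : ℝ) ^ (k + 1) *
          (z : ℝ) ^ (s5 * (s * (t + 3 + 1)))))) := by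
      calc _ = ((1 / 2 : ℝ) ^ t * 2 ^ t) * ((C1 * (2 ^ (b * K) * X)) * (2 * (z : ℝ) ^ (k + 1) *
          (3 * (z : ℝ) ^ (s5 * (s * (t + 3 + 1)))))) := by rw [hhalf, one_mul]
        _ = _ := by ring
    rw [h3]
    refine mul_le_mul_of_nonneg_left ?_ (by positivity)
    have h4 : 6 * C1 * 2 ^ (b * K) * 2 ^ t ≤ (z : ℝ) := by
      have : 0 ≤ 6 * C1 * 2 ^ (b * K) * (2 : ℝ) ^ t := by positivity
      linarith
    calc (6 * C1 * 2 ^ (b * K) * 2 ^ t) * (X * ((z : ℝ) ^ (k + 1) *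
          (z : ℝ) ^ (s5 * (s * (t + 3 + 1))))) ≤ z * (X * ((z : ℝ) ^ (k + 1) *
          (z : ℝ) ^ (s5 * (s * (t + 3 + 1))))) := mul_le_mul_of_nonneg_right h4 (by positivity)
      _ ≤ (V1 z0 z * z) * (z * (X * ((z : ℝ) ^ (k + 1) *
          (z : ℝ) ^ (s5 * (s * (t + 3 + 1)))))) := le_mul_of_one_le_left (by positivity) hV1z
      _ = V1 z0 z * (X * (z : ℝ) ^ (k + 3 + s5 * (s * (t + 3 + 1)))) := by ring
      _ ≤ V1 z0 z * (X * (z : ℝ) ^ ((k + 3 + 4 * s5 * s) * (t + 1))) := by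
          refine mul_le_mul_of_nonneg_left (mul_le_mul_of_nonneg_left
            (pow_le_pow_right₀ hz1 ?_) (Nat.cast_nonneg X)) hV1pos.le
          have e1 : (k + 3 + 4 * s5 * s) * (t + 1) = (k + 3) + s5 * (s * (t + 3 + 1)) +
              ((k + 3) * t + 3 * (s5 * s * t)) := by ring
          rw [e1]
          exact Nat.le_add_right _ _
      _ ≤ V1 z0 z * H := mul_le_mul_of_nonneg_left hHr hV1pos.le
  have e : (1 / 2 : ℝ) ^ t * (wnorm z R c + 1) * (V1 z0 z * H) =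
      (1 / 2) ^ t * wnorm z R c * (V1 z0 z * H) + (1 / 2) ^ t * (V1 z0 z * H) := by ring
  rw [e]
  exact add_le_add hfirst hsecond

end Pool.Agent.Lib.MT2.T62
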