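import Mathlib
import Pool.Agent.Lib.MT2.Stmts2

/-!
MAYNARD-TAO ON ROUGH FORMS: the engine with its weight (for the almost all theorem (D)).
-/

set_option autoImplicit false

namespace Pool.Agent.Lib.MT2

open Finset
open Pool.Agent.Lib.TwinAll (PP Rough om VV nu ee)

/-- WGT2: as WGT, with the lower bound for every index. -/
def WGT2Stmt : Prop :=
  ∀ Λ : ℝ, ∃ K0 : ℕ, ∀ K : ℕ, K0 ≤ K → ∃ CK : ℕ, ∀ b1 : ℕ, ∃ b : ℕ, b1 ≤ b ∧ ∃ z1 : ℕ,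
    ∀ z : ℕ, z1 ≤ z → ∃ lam : Cond K → ℝ,
      (∀ D, |lam D| ≤ (CK : ℝ) * (b : ℝ) ^ CK) ∧
      (∀ D, lam D ≠ 0 → md D ≤ z ^ b ∧ D ⊆ PI z (z ^ b) K) ∧
      (∑ D ∈ (PI z (z ^ b) K).powerset, ∑ D' ∈ (PI z (z ^ b) K).powerset,
        |lam D * lam D'| / md (D ∪ D')) ≤ (CK : ℝ) * (b : ℝ) ^ CK ∧
      1 ≤ quad lam (PI z (z ^ b) K) ∧
      ∀ i : Fin K, Λ * b * quad lam (PI z (z ^ b) K) ≤
        K * quad lam ((PI z (z ^ b) K).filter (fun x => x.2 ≠ i))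

open Classical in
/-- MTC: the engine with its weight `c`: `∑ nu w K 1[two primes] ≥ H wmean`, for all
`H ∈ [z ^ (9 b), z ^ (9 b + 1)]`, `b` arbitrarily large for fixed `K`, norm polynomial in `b`. -/
def MTCStmt : Prop :=
  ∃ K0 : ℕ, ∀ K k : ℕ, K0 ≤ K → ∃ CK : ℕ, ∀ b1 : ℕ, ∃ b zs : ℕ, b1 ≤ b ∧
    ∀ z0 : ℕ, zs ≤ z0 → ∀ C0 : ℕ, ∃ (C1 : ℝ) (z1 : ℕ), 1 ≤ C1 ∧ ∀ z : ℕ, z1 ≤ z →
    ∃ c : Cond K → ℝ, Wt C1 (z ^ (2 * b)) Finset.univ c ∧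
      wnorm z (z ^ b) c ≤ (CK : ℝ) * (b : ℝ) ^ CK ∧ 1 / 2 ≤ wmean z (z ^ b) c ∧
      ∀ (α β : Fin K → ℤ) (a d : Fin k → ℤ), MF C0 z0 α β → SF C0 z0 a →
        (∀ U : ℤ, 0 ≤ wt z (z ^ b) c α β U) ∧
        ∀ H : ℕ, z ^ (9 * b) ≤ H → H ≤ z ^ (9 * b + 1) →
          H * wmean z (z ^ b) c ≤
            ∑ U ∈ (Ioc (0 : ℤ) H).filter (fun U =>
              ∃ i j, i < j ∧ Prime (α i * U + β i) ∧ Prime (α j * U + β j)),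
              nu z0 z (Fin.append α a) (Fin.append β d) U * wt z (z ^ b) c α β U * K

end Pool.Agent.Lib.MT2
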