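import Mathlib
import Pool.Agent.Lib.MT2.Stmts
import Pool.Agent.Lib.MT2.Stmts2
import Pool.Agent.Lib.MT2.StmtsE
import Pool.Agent.Lib.TwinAll.Basic94

/-!
MAYNARD-TAO ON ROUGH FORMS: the engine (MTC, MT) from the modules.
-/

set_option autoImplicit false

namespace Pool.Agent.Lib.MT2.T2

open Finset
open Pool.Agent.Lib.TwinAll
open Pool.Agent.Lib.MT2

variable {K k : ℕ}

theorem int_prime_of_mem {z0 z q : ℕ} (hq : q ∈ PP z0 z) : Prime (q : ℤ) :=
  Nat.prime_iff_prime_int.1 (PP_prime hq)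

/-- the density in the variable `n = α_i U + β_i` -/
theorem VJ_eq (hV : VVAStmt) (z0 z : ℕ) (α β : Fin K → ℤ) (a d : Fin k → ℤ) (i : Fin K)
    (h : ∀ q ∈ PP z0 z, ¬ ((q : ℤ) ∣ α i)) :
    VJ z0 z (α i) (β i) (Fin.append α a) (Fin.append β d) =
      VV z0 z (Fin.append α a) (Fin.append β d) := by
  unfold VJ
  symm
  apply hV
  intro q hq
  refine ⟨α i, β i, h q hq, fun n => ?_⟩
  have key : ∀ j : Fin (K + k),
      Fin.append α a j * (α i * n + β i) + (α i * Fin.append β d j - Fin.append α a j * β i) =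
        α i * (Fin.append α a j * n + Fin.append β d j) := fun j => by ring
  constructor
  · rintro ⟨j, hj⟩
    refine ⟨j.succ, ?_⟩
    rw [Fin.cons_succ, Fin.cons_succ, key]
    exact dvd_mul_of_dvd_right hj _
  · rintro ⟨j, hj⟩
    induction j using Fin.cases with
    | zero =>
      refine ⟨Fin.castAdd k i, ?_⟩
      rw [Fin.cons_zero, Fin.cons_zero, one_mul, add_zero] at hj
      rw [Fin.append_left, Fin.append_left]
      exact hj
    | succ j =>
      refine ⟨j, ?_⟩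
      rw [Fin.cons_succ, Fin.cons_succ, key] at hj
      exact ((int_prime_of_mem hq).dvd_or_dvd hj).resolve_left (h q hq)

theorem nuJ_eq (hV : VVAStmt) (z0 z : ℕ) (α β : Fin K → ℤ) (a d : Fin k → ℤ) (i : Fin K)
    (h : ∀ q ∈ PP z0 z, ¬ ((q : ℤ) ∣ α i)) (U : ℤ) :
    nuJ z0 z (α i) (β i) (Fin.append α a) (Fin.append β d) U =
      V1 z0 z * nu z0 z (Fin.append α a) (Fin.append β d) U := by
  unfold nuJ nu
  rw [VJ_eq hV z0 z α β a d i h]
  by_cases hr : ∀ j, Rough z0 z (Fin.append α a j * U + Fin.append β d j)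
  · rw [if_pos hr, if_pos hr, div_eq_mul_inv]
  · rw [if_neg hr, if_neg hr, mul_zero]

/-- growth: choice of the precision -/
theorem choose_t (s K CK : ℕ) (hs : 1 ≤ s) : ∃ b2 : ℕ, ∀ b : ℕ, b2 ≤ b → ∃ t : ℕ,
    s * (t + 1) ≤ b ∧
    (K : ℝ) * ((1 / 2 : ℝ) ^ t * ((9 * b : ℕ) + 1 : ℝ) * ((CK : ℝ) * (b : ℝ) ^ CK + 1) ^ 2) ≤
      1 / 16 := by
  have hlim : Filter.Tendsto (fun n : ℕ => (n : ℝ) ^ (2 * CK + 1) * (1 / 2 : ℝ) ^ n)
      Filter.atTop (nhds 0) := tendsto_pow_const_mul_const_pow_of_abs_lt_one _ (by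
        rw [abs_of_pos (by norm_num)]; norm_num)
  have hS : (0 : ℝ) < s := by exact_mod_cast hs
  obtain ⟨c, hc⟩ : ∃ c : ℝ, c = 4 * ((K : ℝ) + 1) * (10 * s) * (((CK : ℝ) + 1) * (s : ℝ) ^ CK) ^ 2 :=
    ⟨_, rfl⟩
  have hc0 : 0 < c := by rw [hc]; positivity
  have h1 := hlim.eventually_lt_const (show (0 : ℝ) < 1 / (16 * c) by positivity)
  obtain ⟨n0, hn0⟩ := Filter.eventually_atTop.1 h1
  refine ⟨s * (n0 + 2), fun b hb => ⟨b / s - 1, ?_, ?_⟩⟩
  · have h2 : 1 ≤ b / s := by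
      rw [Nat.one_le_div_iff (by omega)]
      nlinarith
    rw [Nat.sub_add_cancel h2]
    exact Nat.mul_div_le b s
  · obtain ⟨n, hn⟩ : ∃ n : ℕ, n = b / s := ⟨_, rfl⟩
    have hn1 : n0 + 2 ≤ n := by
      rw [hn, Nat.le_div_iff_mul_le (by omega), mul_comm]
      exact hb
    have hbn : b ≤ s * (n + 1) := by
      rw [hn]
      have := Nat.lt_mul_div_succ b (show 0 < s by omega)
      omega
    have hbn' : (b : ℝ) ≤ s * (n + 1) := by exact_mod_cast hbn
    have h3 := hn0 (n + 1) (by omega)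
    rw [← hn]
    have hn1' : (1 : ℝ) ≤ (n : ℝ) + 1 := by
      have : (0 : ℝ) ≤ n := Nat.cast_nonneg n
      linarith
    have hpow : (1 / 2 : ℝ) ^ (n - 1) = 4 * (1 / 2 : ℝ) ^ (n + 1) := by
      obtain ⟨m, rfl⟩ : ∃ m, n = m + 1 := ⟨n - 1, by omega⟩
      rw [Nat.add_sub_cancel]
      ring
    have hs1 : (1 : ℝ) ≤ s := by exact_mod_cast hs
    have hx1 : (1 : ℝ) ≤ s * ((n : ℝ) + 1) := by nlinarith
    have e1 : ((9 * b : ℕ) + 1 : ℝ) ≤ 10 * s * ((n : ℝ) + 1) := by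
      push_cast
      linarith
    have e2 : (CK : ℝ) * (b : ℝ) ^ CK + 1 ≤ ((CK : ℝ) + 1) * (s : ℝ) ^ CK * ((n : ℝ) + 1) ^ CK := by
      have h4 : (b : ℝ) ^ CK ≤ (s * ((n : ℝ) + 1)) ^ CK :=
        pow_le_pow_left₀ (Nat.cast_nonneg b) hbn' CK
      have h5 : (1 : ℝ) ≤ (s * ((n : ℝ) + 1)) ^ CK := one_le_pow₀ hx1
      have h6 : (0 : ℝ) ≤ CK := Nat.cast_nonneg CK
      calc (CK : ℝ) * (b : ℝ) ^ CK + 1 ≤ CK * (s * ((n : ℝ) + 1)) ^ CK + (s * ((n : ℝ) + 1)) ^ CK := by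
            have := mul_le_mul_of_nonneg_left h4 h6
            linarith
        _ = _ := by rw [mul_pow]; ring
    have e3 : (0 : ℝ) ≤ (CK : ℝ) * (b : ℝ) ^ CK + 1 := by positivity
    have e4 : ((CK : ℝ) * (b : ℝ) ^ CK + 1) ^ 2 ≤
        (((CK : ℝ) + 1) * (s : ℝ) ^ CK * ((n : ℝ) + 1) ^ CK) ^ 2 := pow_le_pow_left₀ e3 e2 2
    calc (K : ℝ) * ((1 / 2 : ℝ) ^ (n - 1) * ((9 * b : ℕ) + 1 : ℝ) *
          ((CK : ℝ) * (b : ℝ) ^ CK + 1) ^ 2)
        ≤ ((K : ℝ) + 1) * ((1 / 2 : ℝ) ^ (n - 1) * (10 * s * ((n : ℝ) + 1)) *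
          (((CK : ℝ) + 1) * (s : ℝ) ^ CK * ((n : ℝ) + 1) ^ CK) ^ 2) := by
          apply mul_le_mul (by linarith) _ (by positivity) (by positivity)
          apply mul_le_mul _ e4 (by positivity) (by positivity)
          exact mul_le_mul_of_nonneg_left e1 (by positivity)
      _ = c * (((n : ℝ) + 1) ^ (2 * CK + 1) * (1 / 2 : ℝ) ^ (n + 1)) := by
          rw [hpow, hc]
          have : ((n : ℝ) + 1) ^ (2 * CK + 1) = (((n : ℝ) + 1) ^ CK) ^ 2 * ((n : ℝ) + 1) := by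
            rw [pow_succ, mul_comm 2 CK, pow_mul]
          rw [this]
          ring
      _ ≤ c * (1 / (16 * c)) := by
          apply mul_le_mul_of_nonneg_left _ hc0.le
          have h7 := h3.le
          push_cast at h7
          exact h7
      _ = 1 / 16 := by field_simp

/-- coefficients of the sieve forms are prime to the sieving primes -/
theorem ndvd_main {C0 z0 z : ℕ} {α β : Fin K → ℤ} (hM : MF C0 z0 α β) (j : Fin K) :
    ∀ q ∈ PP z0 z, ¬ ((q : ℤ) ∣ α j) := by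
  intro q hq hd
  have h1 := hM.large j q (PP_prime hq) hd
  have h2 := PP_lt hq
  omega

theorem ndvd_append {C0 z0 z : ℕ} {α β : Fin K → ℤ} {a : Fin k → ℤ} (hM : MF C0 z0 α β)
    (hS : SF C0 z0 a) (j : Fin (K + k)) : ∀ q ∈ PP z0 z, ¬ ((q : ℤ) ∣ Fin.append α a j) := by
  intro q hq
  induction j using Fin.addCases with
  | left j => rw [Fin.append_left]; exact ndvd_main hM j q hq
  | right j =>
    rw [Fin.append_right]
    intro hd
    have h1 := hS.large j q (PP_prime hq) hd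
    have h2 := PP_lt hq
    omega

theorem SF_append {C0 z0 : ℕ} {α β : Fin K → ℤ} {a : Fin k → ℤ} (hM : MF C0 z0 α β)
    (hS : SF C0 z0 a) : SF C0 z0 (Fin.append α a) := by
  constructor
  · intro j
    induction j using Fin.addCases with
    | left j =>
      rw [Fin.append_left, abs_of_pos (hM.pos j).1]
      exact (hM.bd j).1
    | right j => rw [Fin.append_right]; exact hS.bd j
  · intro j q hq hd
    induction j using Fin.addCases with
    | left j => rw [Fin.append_left] at hd; exact hM.large j q hq hd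
    | right j => rw [Fin.append_right] at hd; exact hS.large j q hq hd

theorem ell_ge {C0 z0 : ℕ} {α β : Fin K → ℤ} (hM : MF C0 z0 α β) (j : Fin K) (U : ℤ)
    (hU : 1 ≤ U) : U ≤ α j * U + β j := by
  obtain ⟨h1, h2⟩ := hM.pos j
  nlinarith

theorem V1_pos {z0 z : ℕ} (h : 1 ≤ z0) : 0 < V1 z0 z :=
  VV_pos h _ _ (fun j q hq => by
    have := not_dvd_one (z0 := z0) (z := z) q hq
    fin_cases j
    exact this)

theorem V1_inv_le {z0 z : ℕ} (h : 1 ≤ z0) (hz : z0 ≤ z) : (V1 z0 z)⁻¹ ≤ z := by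
  have h1 := VV_inv_le h hz (![1] : Fin 1 → ℤ) ![0] (fun j q hq => by
    have := not_dvd_one (z0 := z0) (z := z) q hq
    fin_cases j
    exact this)
  rwa [pow_one] at h1

open Classical in
/-- one index: from the clean sum to the full weight -/
theorem prime_sum (hV : VVAStmt) {C0 z0 z R H : ℕ} {α β : Fin K → ℤ} {a d : Fin k → ℤ}
    (hM : MF C0 z0 α β) (hS : SF C0 z0 a) (hz : z0 ≤ z) (hKk : K + k ≤ z0) (hK1 : 1 ≤ z0)
    (c ci : Cond K → ℝ) (i : Fin K) (W : ℝ) (hW : 0 ≤ W)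
    (hw0 : ∀ U : ℤ, 0 ≤ wt z R c α β U)
    (hwi : ∀ U : ℤ, (∀ q ∈ PP z R, ¬ ((q : ℤ) ∣ α i * U + β i)) →
      wt z R c α β U = wt z R ci α β U)
    (hWB : ∀ U : ℤ, 1 ≤ U → U ≤ H → |wt z R ci α β U| ≤ W) :
    ∑ U ∈ (Ioc (0 : ℤ) H).filter (fun U => Prime (α i * U + β i)),
      wt z R ci α β U * nuJ z0 z (α i) (β i) (Fin.append α a) (Fin.append β d) U ≤
    V1 z0 z * (∑ U ∈ (Ioc (0 : ℤ) H).filter (fun U => Prime (α i * U + β i)),
      nu z0 z (Fin.append α a) (Fin.append β d) U * wt z R c α β U) +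
      R * (W * (z : ℝ) ^ (K + k)) := by
  have hV1 : 0 < V1 z0 z := V1_pos hK1
  have hV11 : V1 z0 z ≤ 1 := VV_le_one _ _ _ _
  have hnd := ndvd_append (z := z) hM hS
  have hnu0 := nu_nonneg (z := z) hKk (Fin.append α a) (Fin.append β d) hnd
  have hnule : ∀ U : ℤ, nu z0 z (Fin.append α a) (Fin.append β d) U ≤ (z : ℝ) ^ (K + k) :=
    fun U => (nu_le hKk _ _ hnd U).trans (VV_inv_le hKk hz _ _ hnd)
  have hterm : ∀ U ∈ (Ioc (0 : ℤ) H).filter (fun U => Prime (α i * U + β i)),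
      wt z R ci α β U * nuJ z0 z (α i) (β i) (Fin.append α a) (Fin.append β d) U ≤
      V1 z0 z * (nu z0 z (Fin.append α a) (Fin.append β d) U * wt z R c α β U) +
        (if U ≤ (R : ℤ) then W * (z : ℝ) ^ (K + k) else 0) := by
    intro U hU
    rw [mem_filter, mem_Ioc] at hU
    obtain ⟨⟨hU1, hU2⟩, hp⟩ := hU
    rw [nuJ_eq hV z0 z α β a d i (ndvd_main hM i)]
    have hge := ell_ge hM i U (by omega)
    by_cases hR : U ≤ (R : ℤ)
    · rw [if_pos hR]
      have h1 : wt z R ci α β U * (V1 z0 z * nu z0 z (Fin.append α a) (Fin.append β d) U) ≤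
          W * (z : ℝ) ^ (K + k) := by
        have h2 : wt z R ci α β U ≤ W := (le_abs_self _).trans (hWB U (by omega) hU2)
        have h3 : V1 z0 z * nu z0 z (Fin.append α a) (Fin.append β d) U ≤ 1 * (z : ℝ) ^ (K + k) :=
          mul_le_mul hV11 (hnule U) (hnu0 U) zero_le_one
        rw [one_mul] at h3
        calc _ ≤ W * (V1 z0 z * nu z0 z (Fin.append α a) (Fin.append β d) U) :=
              mul_le_mul_of_nonneg_right h2 (mul_nonneg hV1.le (hnu0 U))
          _ ≤ _ := mul_le_mul_of_nonneg_left h3 hW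
      have h4 : 0 ≤ V1 z0 z * (nu z0 z (Fin.append α a) (Fin.append β d) U * wt z R c α β U) :=
        mul_nonneg hV1.le (mul_nonneg (hnu0 U) (hw0 U))
      linarith
    · rw [if_neg hR, add_zero]
      have h1 : ∀ q ∈ PP z R, ¬ ((q : ℤ) ∣ α i * U + β i) := by
        intro q hq hd
        have h2 := int_prime_of_mem hq
        have h3 : Associated (q : ℤ) (α i * U + β i) := h2.associated_of_dvd hp hd
        have h4 : (q : ℤ).natAbs = (α i * U + β i).natAbs := Int.associated_iff_natAbs.1 h3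
        have h5 := PP_le hq
        push Not at hR
        omega
      rw [hwi U h1]
      exact le_of_eq (by ring)
  refine (Finset.sum_le_sum hterm).trans ?_
  rw [Finset.sum_add_distrib, ← Finset.mul_sum]
  refine add_le_add le_rfl ?_
  rw [← Finset.sum_filter, Finset.sum_const, nsmul_eq_mul]
  apply mul_le_mul_of_nonneg_right _ (mul_nonneg hW (by positivity))
  have h1 : (((Ioc (0 : ℤ) H).filter (fun U => Prime (α i * U + β i))).filter
      (fun U => U ≤ (R : ℤ))).card ≤ (Ioc (0 : ℤ) R).card := by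
    apply Finset.card_le_card
    intro U hU
    rw [mem_filter, mem_filter, mem_Ioc] at hU
    rw [mem_Ioc]
    exact ⟨hU.1.1.1, hU.2⟩
  have h2 : (Ioc (0 : ℤ) (R : ℤ)).card = R := by simp
  rw [h2] at h1
  exact_mod_cast h1

open Classical in
/-- the number of primes among the forms -/
theorem two_primes {H : ℕ} (α β : Fin K → ℤ) (f : ℤ → ℝ) (hf : ∀ U, 0 ≤ f U) :
    (∑ i : Fin K, ∑ U ∈ (Ioc (0 : ℤ) H).filter (fun U => Prime (α i * U + β i)), f U) -
      ∑ U ∈ Ioc (0 : ℤ) H, f U ≤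
    ∑ U ∈ (Ioc (0 : ℤ) H).filter (fun U =>
      ∃ i j, i < j ∧ Prime (α i * U + β i) ∧ Prime (α j * U + β j)), f U * K := by
  have h1 : ∑ i : Fin K, ∑ U ∈ (Ioc (0 : ℤ) H).filter (fun U => Prime (α i * U + β i)), f U =
      ∑ U ∈ Ioc (0 : ℤ) H, f U *
        ((Finset.univ.filter (fun i : Fin K => Prime (α i * U + β i))).card : ℝ) := by
    simp_rw [Finset.sum_filter]
    rw [Finset.sum_comm]
    apply Finset.sum_congr rfl
    intro U _
    rw [← Finset.sum_filter, Finset.sum_const, nsmul_eq_mul, mul_comm]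
  rw [h1, ← Finset.sum_sub_distrib, Finset.sum_filter]
  apply Finset.sum_le_sum
  intro U _
  have hK : ((Finset.univ.filter (fun i : Fin K => Prime (α i * U + β i))).card : ℝ) ≤ K := by
    have := Finset.card_filter_le (Finset.univ : Finset (Fin K)) (fun i => Prime (α i * U + β i))
    rw [Finset.card_univ, Fintype.card_fin] at this
    exact_mod_cast this
  split_ifs with h
  · have := mul_le_mul_of_nonneg_left hK (hf U)
    have := hf U
    linarith
  · have h2 : (Finset.univ.filter (fun i : Fin K => Prime (α i * U + β i))).card ≤ 1 := by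
      rw [Finset.card_le_one]
      intro i hi j hj
      rw [mem_filter] at hi hj
      by_contra hne
      rcases lt_or_gt_of_ne hne with h3 | h3
      · exact h ⟨i, j, h3, hi.2, hj.2⟩
      · exact h ⟨j, i, h3, hj.2, hi.2⟩
    have h3 : ((Finset.univ.filter (fun i : Fin K => Prime (α i * U + β i))).card : ℝ) ≤ 1 := by
      exact_mod_cast h2
    have := mul_le_mul_of_nonneg_left h3 (hf U)
    linarith

/-- the final inequality in real numbers -/
theorem final_real (K : ℕ) (hK : 1 ≤ K) (b : ℕ) (hb : 1 ≤ b) (V H q m c1z E T : ℝ) (hV : 0 < V)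
    (hH : 0 ≤ H) (hq : 1 ≤ q) (hc : 0 ≤ c1z) (hcK : K * c1z ≤ 1 / 16) (hm : |m - q| ≤ c1z)
    (mi qi S P pi : Fin K → ℝ) (hmi : ∀ i, |mi i - qi i| ≤ c1z)
    (hqi : ∀ i, 40 * b * q ≤ K * qi i)
    (hE : K * E ≤ 1 / 16 * H) (hT : T ≤ H * m + 1 / 8 * H)
    (hpi : ∀ i, (1 - 1 / 8) * (H / ((9 * b + 1 : ℕ) : ℝ)) * V ≤ pi i)
    (h1 : ∀ i, P i ≤ V * S i + V * E)
    (h2 : ∀ i, mi i * pi i - E * V ≤ P i) :
    H * m ≤ (∑ i, S i) - T := by
  have hKr : (1 : ℝ) ≤ K := by exact_mod_cast hK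
  have hbr : (1 : ℝ) ≤ b := by exact_mod_cast hb
  have hb9 : (0 : ℝ) < ((9 * b + 1 : ℕ) : ℝ) := by positivity
  have hS : ∀ i, (7 / 8) * (H / ((9 * b + 1 : ℕ) : ℝ)) * (qi i - c1z) - 2 * E ≤ S i := by
    intro i
    have a1 := abs_le.1 (hmi i)
    have a2 : 0 < K * qi i := lt_of_lt_of_le (by positivity) (hqi i)
    have a3 : (1 : ℝ) / 16 ≤ K * qi i := by
      have : (1 : ℝ) ≤ 40 * b * q := by nlinarith
      linarith [hqi i]
    have a4 : c1z ≤ qi i := by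
      have : K * c1z ≤ K * qi i := hcK.trans a3
      exact le_of_mul_le_mul_left this (by linarith)
    have a5 : 0 ≤ qi i - c1z := by linarith
    have a6 : qi i - c1z ≤ mi i := by linarith [a1.1]
    have a7 : 0 ≤ (7 / 8) * (H / ((9 * b + 1 : ℕ) : ℝ)) * V := by positivity
    have a8 : (7 / 8) * (H / ((9 * b + 1 : ℕ) : ℝ)) * V ≤ pi i := by
      have := hpi i
      norm_num at this ⊢
      linarith
    have a9 : (qi i - c1z) * ((7 / 8) * (H / ((9 * b + 1 : ℕ) : ℝ)) * V) ≤ mi i * pi i :=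
      mul_le_mul a6 a8 a7 (by linarith)
    have a10 := h1 i
    have a11 := h2 i
    have a12 : V * ((7 / 8) * (H / ((9 * b + 1 : ℕ) : ℝ)) * (qi i - c1z) - 2 * E) ≤ V * S i := by
      nlinarith
    exact le_of_mul_le_mul_left a12 hV
  have hsum : ∑ i : Fin K, ((7 / 8) * (H / ((9 * b + 1 : ℕ) : ℝ)) * (qi i - c1z) - 2 * E) ≤
      ∑ i, S i := Finset.sum_le_sum (fun i _ => hS i)
  have hsq : 40 * b * q ≤ ∑ i : Fin K, qi i := by
    have h3 : ∑ i : Fin K, 40 * (b : ℝ) * q ≤ ∑ i : Fin K, K * qi i :=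
      Finset.sum_le_sum (fun i _ => hqi i)
    rw [Finset.sum_const, Finset.card_univ, Fintype.card_fin, nsmul_eq_mul, ← Finset.mul_sum] at h3
    exact le_of_mul_le_mul_left h3 (by linarith)
  have hexp : ∑ i : Fin K, ((7 / 8) * (H / ((9 * b + 1 : ℕ) : ℝ)) * (qi i - c1z) - 2 * E) =
      (7 / 8) * (H / ((9 * b + 1 : ℕ) : ℝ)) * ((∑ i : Fin K, qi i) - K * c1z) - 2 * (K * E) := by
    rw [Finset.sum_sub_distrib, ← Finset.mul_sum, Finset.sum_sub_distrib, Finset.sum_const,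
      Finset.sum_const, Finset.card_univ, Fintype.card_fin, nsmul_eq_mul, nsmul_eq_mul]
    ring
  rw [hexp] at hsum
  have hHb : 0 ≤ H / ((9 * b + 1 : ℕ) : ℝ) := by positivity
  have hfrac : 35 / 10 * H ≤ (7 / 8) * (H / ((9 * b + 1 : ℕ) : ℝ)) * (40 * b) := by
    have : H / ((9 * b + 1 : ℕ) : ℝ) * (10 * b) ≥ H := by
      rw [ge_iff_le, div_mul_eq_mul_div, le_div_iff₀ hb9]
      push_cast
      nlinarith
    nlinarith
  have hmain : 35 / 10 * H * q - (7 / 8) * H * (1 / 16) ≤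
      (7 / 8) * (H / ((9 * b + 1 : ℕ) : ℝ)) * ((∑ i : Fin K, qi i) - K * c1z) := by
    have b1 : (7 / 8) * (H / ((9 * b + 1 : ℕ) : ℝ)) * (40 * b * q) ≤
        (7 / 8) * (H / ((9 * b + 1 : ℕ) : ℝ)) * (∑ i : Fin K, qi i) :=
      mul_le_mul_of_nonneg_left hsq (by positivity)
    have b2 : 35 / 10 * H * q ≤ (7 / 8) * (H / ((9 * b + 1 : ℕ) : ℝ)) * (40 * b * q) := by
      have := mul_le_mul_of_nonneg_right hfrac (show 0 ≤ q by linarith)
      linarith
    have b3 : (7 / 8) * (H / ((9 * b + 1 : ℕ) : ℝ)) * (K * c1z) ≤ (7 / 8) * H * (1 / 16) := by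
      have c1 : H / ((9 * b + 1 : ℕ) : ℝ) ≤ H := by
        apply div_le_self hH
        push_cast
        nlinarith
      have c2 : 0 ≤ K * c1z := by positivity
      have c3 : H / ((9 * b + 1 : ℕ) : ℝ) * (K * c1z) ≤ H * (1 / 16) :=
        mul_le_mul c1 hcK c2 hH
      linarith
    nlinarith
  have hm1 := abs_le.1 hm
  have hc16 : c1z ≤ 1 / 16 := by
    have : 1 * c1z ≤ K * c1z := mul_le_mul_of_nonneg_right hKr hc
    linarith
  have hm2 : H * m ≤ H * (q + 1 / 16) := mul_le_mul_of_nonneg_left (by linarith) hH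
  have hq2 : H * 1 ≤ H * q := mul_le_mul_of_nonneg_left hq hH
  nlinarith

theorem mtc_2 (hW : WGT2Stmt) (hQ : SQRStmt) (hE : EV1Stmt) (hT : TRANSStmt) (hP : PNTStmt)
    (hV : VVAStmt) (hWB : WBStmt) : MTCStmt := by
  classical
  obtain ⟨K0, hK0⟩ := hW 40
  refine ⟨max K0 1, fun K k hK => ?_⟩
  have hK1 : 1 ≤ K := le_trans (le_max_right _ _) hK
  obtain ⟨CK, hCK⟩ := hK0 K (le_trans (le_max_left _ _) hK)
  refine ⟨CK, fun b1 => ?_⟩
  obtain ⟨sT, hsT⟩ := hT (K + k) K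
  obtain ⟨sE, zsE, hsE⟩ := hE (K + k) K
  obtain ⟨b2, hb2⟩ := choose_t (max sT sE + 1) K CK (by omega)
  obtain ⟨b, hb, zW, hzW⟩ := hCK (max (max b1 b2) (K + k + 3))
  have hbb1 : b1 ≤ b := by omega
  have hbb2 : b2 ≤ b := by omega
  have hbk : K + k + 3 ≤ b := by omega
  obtain ⟨t, ht, htt⟩ := hb2 b hbb2
  obtain ⟨zsT, hzsT⟩ := hsT t
  refine ⟨b, max (max zsT zsE) (K + k + 2), hbb1, fun z0 hz0 C0 => ?_⟩
  have hz0T : zsT ≤ z0 := by omega
  have hz0E : zsE ≤ z0 := by omega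
  have hz0k : K + k + 2 ≤ z0 := by omega
  obtain ⟨NN, hNN⟩ : ∃ NN : ℝ, NN = (CK : ℝ) * (b : ℝ) ^ CK := ⟨_, rfl⟩
  have hNN0 : 0 ≤ NN := by rw [hNN]; positivity
  obtain ⟨C1', zQ, hzQ⟩ := hQ K b NN
  obtain ⟨C1, hC1⟩ : ∃ C1 : ℝ, C1 = max C1' 1 := ⟨_, rfl⟩
  have hC11 : 1 ≤ C1 := by rw [hC1]; exact le_max_right _ _
  have hC12 : C1' ≤ C1 := by rw [hC1]; exact le_max_left _ _
  have htT : 4 * (2 * b) + sT * (t + 1) ≤ 9 * b := by
    have : sT * (t + 1) ≤ (max sT sE + 1) * (t + 1) := Nat.mul_le_mul_right _ (by omega)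
    omega
  have htE : sE * (t + 1) ≤ b := by
    have : sE * (t + 1) ≤ (max sT sE + 1) * (t + 1) := Nat.mul_le_mul_right _ (by omega)
    omega
  obtain ⟨zT, hzT⟩ := hzsT z0 hz0T (2 * b) (9 * b) C0 C1 htT
  obtain ⟨zE, hzE⟩ := hsE t z0 hz0E (2 * b) 0 C1
  obtain ⟨zP, hzP⟩ := hP z0 C0 (9 * b + 1) (1 / 8) (by norm_num) (by omega)
  obtain ⟨zB, hzB⟩ := hWB K (9 * b + 1) C0
  obtain ⟨W, hWW⟩ : ∃ W : ℝ, W = C1 * 2 ^ (K * (9 * b + 1 + 1)) := ⟨_, rfl⟩
  have hW0 : 1 ≤ W := by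
    rw [hWW]
    have : (1 : ℝ) ≤ 2 ^ (K * (9 * b + 1 + 1)) := one_le_pow₀ (by norm_num)
    nlinarith
  refine ⟨C1, max (max (max zW zQ) (max zT zE)) (max (max zP zB) (max (max z0 (2 * C0 ^ 2 + 2))
    (max 16 (Nat.ceil (16 * K * W))))), hC11, fun z hz => ?_⟩
  simp only [max_le_iff] at hz
  obtain ⟨⟨⟨zW', zQ'⟩, zT', zE'⟩, ⟨zP', zB'⟩, ⟨zz0, zC0⟩, z16, zc⟩ := hz
  have hz16KW : 16 * K * W ≤ (z : ℝ) := (Nat.le_ceil _).trans (by exact_mod_cast zc)
  have hzpos : (0 : ℝ) < z := by exact_mod_cast (by omega : 0 < z)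
  have hz1r : (1 : ℝ) ≤ z := by exact_mod_cast (by omega : 1 ≤ z)
  obtain ⟨lam, hl1, hl2, hl3, hl4, hl5⟩ := hzW z zW'
  rw [← hNN] at hl3
  obtain ⟨hq1, hq2⟩ := hzQ z zQ' lam (fun D => by rw [hNN]; exact hl1 D) hl2
  have hWt : ∀ J : Finset (Fin K), Wt C1 (z ^ (2 * b)) J (cOf lam J) := by
    intro J
    obtain ⟨h1, -, -⟩ := hq1 J
    exact ⟨fun D => (h1.bd D).trans hC12, h1.clean, h1.lev, h1.idx⟩
  have hnorm : ∀ J : Finset (Fin K), wnorm z (z ^ b) (cOf lam J) ≤ NN :=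
    fun J => ((hq1 J).2.2).trans hl3
  have hmean : ∀ J : Finset (Fin K), |wmean z (z ^ b) (cOf lam J) -
      quad lam ((PI z (z ^ b) K).filter (fun x => x.2 ∈ J))| ≤ C1 / z := by
    intro J
    exact ((hq1 J).2.1).trans (div_le_div_of_nonneg_right hC12 hzpos.le)
  have hKr : (1 : ℝ) ≤ K := by exact_mod_cast hK1
  have hC1W : C1 ≤ W := by
    rw [hWW]
    have : (1 : ℝ) ≤ 2 ^ (K * (9 * b + 1 + 1)) := one_le_pow₀ (by norm_num)
    nlinarith
  have hKc : (K : ℝ) * (C1 / z) ≤ 1 / 16 := by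
    rw [← mul_div_assoc, div_le_iff₀ hzpos]
    have : (K : ℝ) * C1 ≤ K * W := mul_le_mul_of_nonneg_left hC1W (by linarith)
    linarith
  have hc0 : 0 ≤ C1 / (z : ℝ) := by positivity
  have hquniv : (PI z (z ^ b) K).filter (fun x => x.2 ∈ (Finset.univ : Finset (Fin K))) =
      PI z (z ^ b) K := by
    apply Finset.filter_true_of_mem
    intro x _
    exact Finset.mem_univ _
  have hmu := hmean Finset.univ
  rw [hquniv] at hmu
  have hqi : ∀ i : Fin K, (PI z (z ^ b) K).filter (fun x => x.2 ∈ (Finset.univ.erase i)) =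
      (PI z (z ^ b) K).filter (fun x => x.2 ≠ i) := by
    intro i
    apply Finset.filter_congr
    intro x _
    simp
  have hmi : ∀ i : Fin K, |wmean z (z ^ b) (cOf lam (Finset.univ.erase i)) -
      quad lam ((PI z (z ^ b) K).filter (fun x => x.2 ≠ i))| ≤ C1 / z := by
    intro i
    have := hmean (Finset.univ.erase i)
    rwa [hqi i] at this
  refine ⟨cOf lam Finset.univ, hWt _, by rw [← hNN]; exact hnorm _, ?_, fun α β a d hM hS => ?_⟩
  · have h1 := (abs_le.1 hmu).1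
    have h2 : (1 : ℝ) * (C1 / z) ≤ K * (C1 / z) := mul_le_mul_of_nonneg_right hKr hc0
    linarith
  obtain hq3 := hq2 C0 z0 α β hM zC0 zz0
  refine ⟨fun U => (hq3 U).1, fun H hH1 hH2 => ?_⟩
  have hHr : (z : ℝ) ^ (9 * b) ≤ H := by exact_mod_cast hH1
  have hH0 : (0 : ℝ) ≤ H := Nat.cast_nonneg H
  have hV1 : 0 < V1 z0 z := V1_pos (by omega)
  have hVinv : (V1 z0 z)⁻¹ ≤ z := V1_inv_le (by omega) zz0
  have hnd := ndvd_append (z := z) hM hS
  have hnu0 := nu_nonneg (z := z) (show K + k ≤ z0 by omega) (Fin.append α a) (Fin.append β d) hnd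
  -- EV1
  have hRX : z ^ b ≤ z ^ (2 * b) := Nat.pow_le_pow_right (by omega) (by omega)
  have hev := hzE z zE' (z ^ b) (z ^ (2 * b)) hRX le_rfl (Fin.append α a) (Fin.append β d) hnd
    α β Finset.univ (cOf lam Finset.univ) (hWt _) 1 0 ∅ (by simp)
    (fun q hq _ j _ hd => by
      rw [mul_one] at hd
      have h1 := hM.large j q (PP_prime hq) hd
      have h2 := PP_lt hq
      omega)
    (fun q hq j _ => Or.inl (fun hd => by
      rw [mul_one] at hd
      have h1 := hM.large j q (PP_prime hq) hd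
      have h2 := PP_lt hq
      omega)) 0 H
  have htt1 : (1 / 2 : ℝ) ^ t * (NN + 1) ≤ 1 / 16 := by
    have h0 : (0 : ℝ) < (1 / 2 : ℝ) ^ t := by positivity
    have e1 : (NN + 1) ≤ (((9 * b : ℕ) : ℝ) + 1) * (NN + 1) ^ 2 := by
      have e2 : (1 : ℝ) ≤ ((9 * b : ℕ) : ℝ) + 1 := by
        have : (0 : ℝ) ≤ ((9 * b : ℕ) : ℝ) := Nat.cast_nonneg _
        linarith
      have e3 : NN + 1 ≤ (NN + 1) ^ 2 := by nlinarith
      nlinarith
    have e4 : (1 / 2 : ℝ) ^ t * (NN + 1) ≤ K * ((1 / 2 : ℝ) ^ t * (((9 * b : ℕ) : ℝ) + 1) *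
        (NN + 1) ^ 2) := by
      have e5 : (1 / 2 : ℝ) ^ t * (NN + 1) ≤ (1 / 2 : ℝ) ^ t * (((9 * b : ℕ) : ℝ) + 1) *
          (NN + 1) ^ 2 := by
        rw [mul_assoc]
        exact mul_le_mul_of_nonneg_left e1 h0.le
      have e6 : 0 ≤ (1 / 2 : ℝ) ^ t * (((9 * b : ℕ) : ℝ) + 1) * (NN + 1) ^ 2 := by positivity
      nlinarith
    rw [← hNN] at htt
    exact e4.trans htt
  have hT' : ∑ U ∈ Ioc (0 : ℤ) H, nu z0 z (Fin.append α a) (Fin.append β d) U *
      wt z (z ^ b) (cOf lam Finset.univ) α β U ≤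
      H * wmean z (z ^ b) (cOf lam Finset.univ) + 1 / 8 * H := by
    have h1 := (abs_le.1 hev).2
    simp only [one_mul, add_zero, zero_add] at h1
    have h2 : (1 / 2 : ℝ) ^ t * (wnorm z (z ^ b) (cOf lam Finset.univ) + 1) * H ≤ 1 / 16 * H := by
      apply mul_le_mul_of_nonneg_right _ hH0
      refine le_trans ?_ htt1
      apply mul_le_mul_of_nonneg_left _ (by positivity)
      linarith [hnorm Finset.univ]
    have h3 : (((z ^ (2 * b) : ℕ)) : ℝ) * (z : ℝ) ^ (sE * (t + 1)) ≤ 1 / 16 * H := by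
      push_cast
      rw [← pow_add]
      have h4 : (z : ℝ) ^ (2 * b + sE * (t + 1)) * z ≤ (z : ℝ) ^ (9 * b) := by
        rw [← pow_succ]
        exact pow_le_pow_right₀ hz1r (by omega)
      have h5 : (16 : ℝ) ≤ z := by exact_mod_cast z16
      have h6 : 0 ≤ (z : ℝ) ^ (2 * b + sE * (t + 1)) := by positivity
      nlinarith
    linarith
  -- primes
  have hTR : ∀ i : Fin K,
      wmean z (z ^ b) (cOf lam (Finset.univ.erase i)) *
        ((((Ioc (0 : ℤ) H).filter (fun U => Prime (α i * U + β i))).card : ℕ) : ℝ) -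
        (1 / (16 * K) * H) * V1 z0 z ≤
      ∑ U ∈ (Ioc (0 : ℤ) H).filter (fun U => Prime (α i * U + β i)),
        wt z (z ^ b) (cOf lam (Finset.univ.erase i)) α β U *
          nuJ z0 z (α i) (β i) (Fin.append α a) (Fin.append β d) U := by
    intro i
    have h1 := hzT z zT' (z ^ b) (z ^ (2 * b)) hRX le_rfl (α i) (β i) (Fin.append α a)
      (Fin.append β d) (hM.pos i).1 (hM.bd i).1 (hM.bd i).2 (hM.cop i) (hM.small i) (hM.large i)
      (SF_append hM hS) α β (Finset.univ.erase i) (cOf lam (Finset.univ.erase i)) hM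
      (fun j hj => hM.det i j (fun h => (Finset.ne_of_mem_erase hj) h.symm)) (hWt _) H hH1 hH2
    have h2 := (abs_le.1 h1).1
    rw [Finset.sum_sub_distrib, Finset.sum_const, nsmul_eq_mul] at h2
    have h3 : (1 / 2 : ℝ) ^ t * (((9 * b : ℕ) : ℝ) + 1) *
        (wnorm z (z ^ b) (cOf lam (Finset.univ.erase i)) + 1) ^ 2 * (V1 z0 z * H) ≤
        (1 / (16 * K) * H) * V1 z0 z := by
      have hn0 : 0 ≤ wnorm z (z ^ b) (cOf lam (Finset.univ.erase i)) :=
        Finset.sum_nonneg (fun D _ => by positivity)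
      have h4 : (wnorm z (z ^ b) (cOf lam (Finset.univ.erase i)) + 1) ^ 2 ≤ (NN + 1) ^ 2 :=
        pow_le_pow_left₀ (by linarith) (by linarith [hnorm (Finset.univ.erase i)]) 2
      have h5 : (1 / 2 : ℝ) ^ t * (((9 * b : ℕ) : ℝ) + 1) *
          (wnorm z (z ^ b) (cOf lam (Finset.univ.erase i)) + 1) ^ 2 ≤ 1 / (16 * K) := by
        rw [le_div_iff₀ (by positivity)]
        have h6 := mul_le_mul_of_nonneg_left h4
          (show 0 ≤ (1 / 2 : ℝ) ^ t * (((9 * b : ℕ) : ℝ) + 1) by positivity)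
        rw [← hNN] at htt
        have h7 : (K : ℝ) * ((1 / 2 : ℝ) ^ t * (((9 * b : ℕ) : ℝ) + 1) *
          (wnorm z (z ^ b) (cOf lam (Finset.univ.erase i)) + 1) ^ 2) ≤ 1 / 16 :=
          (mul_le_mul_of_nonneg_left h6 (by linarith)).trans htt
        linarith
      have h8 := mul_le_mul_of_nonneg_right h5 (show 0 ≤ V1 z0 z * (H : ℝ) by positivity)
      linarith
    linarith
  have hPS : ∀ i : Fin K,
      ∑ U ∈ (Ioc (0 : ℤ) H).filter (fun U => Prime (α i * U + β i)),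
        wt z (z ^ b) (cOf lam (Finset.univ.erase i)) α β U *
          nuJ z0 z (α i) (β i) (Fin.append α a) (Fin.append β d) U ≤
      V1 z0 z * (∑ U ∈ (Ioc (0 : ℤ) H).filter (fun U => Prime (α i * U + β i)),
        nu z0 z (Fin.append α a) (Fin.append β d) U *
          wt z (z ^ b) (cOf lam Finset.univ) α β U) + V1 z0 z * (1 / (16 * K) * H) := by
    intro i
    have h1 := prime_sum hV (R := z ^ b) (H := H) hM hS zz0 (show K + k ≤ z0 by omega) (by omega)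
      (cOf lam Finset.univ) (cOf lam (Finset.univ.erase i)) i (d := d) W (by linarith)
      (fun U => (hq3 U).1) (fun U hU => (hq3 U).2 i hU)
      (fun U hU1 hU2 => by
        have h2 := hzB z zB' z0 (z ^ b) C1 (cOf lam (Finset.univ.erase i)) α β hM
          (hWt (Finset.univ.erase i)).bd U hU1 (hU2.trans (by exact_mod_cast hH2))
        rw [hWW]
        exact h2)
    refine h1.trans (add_le_add le_rfl ?_)
    have h3 : (((z ^ b : ℕ)) : ℝ) * (W * (z : ℝ) ^ (K + k)) * (16 * K) * z ≤ H := by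
      push_cast
      have h4 : (z : ℝ) ^ b * (z : ℝ) ^ (K + k) * z * z ≤ (z : ℝ) ^ (9 * b) := by
        rw [← pow_add, ← pow_succ, ← pow_succ]
        exact pow_le_pow_right₀ hz1r (by omega)
      have h5 : 0 ≤ (z : ℝ) ^ b * (z : ℝ) ^ (K + k) * z := by positivity
      calc (z : ℝ) ^ b * (W * (z : ℝ) ^ (K + k)) * (16 * K) * z
          = ((z : ℝ) ^ b * (z : ℝ) ^ (K + k) * z) * (16 * K * W) := by ring
        _ ≤ ((z : ℝ) ^ b * (z : ℝ) ^ (K + k) * z) * z := mul_le_mul_of_nonneg_left hz16KW h5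
        _ ≤ _ := h4.trans hHr
    have h6 : 1 ≤ V1 z0 z * z := by
      have := mul_le_mul_of_nonneg_left hVinv hV1.le
      rwa [mul_inv_cancel₀ hV1.ne'] at this
    have hKpos : (0 : ℝ) < 16 * K := by positivity
    have h7 : (((z ^ b : ℕ)) : ℝ) * (W * (z : ℝ) ^ (K + k)) * (16 * K) ≤ V1 z0 z * H := by
      have h8 : 0 ≤ (((z ^ b : ℕ)) : ℝ) * (W * (z : ℝ) ^ (K + k)) * (16 * K) := by positivity
      calc (((z ^ b : ℕ)) : ℝ) * (W * (z : ℝ) ^ (K + k)) * (16 * K)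
          ≤ (((z ^ b : ℕ)) : ℝ) * (W * (z : ℝ) ^ (K + k)) * (16 * K) * (V1 z0 z * z) :=
            le_mul_of_one_le_right h8 h6
        _ = V1 z0 z * ((((z ^ b : ℕ)) : ℝ) * (W * (z : ℝ) ^ (K + k)) * (16 * K) * z) := by ring
        _ ≤ V1 z0 z * H := mul_le_mul_of_nonneg_left h3 hV1.le
    have h9 : V1 z0 z * (1 / (16 * K) * H) = V1 z0 z * H / (16 * K) := by ring
    rw [h9, le_div_iff₀ hKpos]
    exact h7
  have hpi : ∀ i : Fin K, (1 - 1 / 8) * ((H : ℝ) / ((9 * b + 1 : ℕ) : ℝ)) * V1 z0 z ≤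
      ((((Ioc (0 : ℤ) H).filter (fun U => Prime (α i * U + β i))).card : ℕ) : ℝ) := by
    intro i
    refine hzP z zP' (α i) (β i) (hM.pos i).1 (hM.bd i).1 (hM.bd i).2 (hM.cop i) (hM.small i) H
      ?_ hH2
    calc z = z ^ 1 := (pow_one z).symm
      _ ≤ z ^ (9 * b) := Nat.pow_le_pow_right (by omega) (by omega)
      _ ≤ H := hH1
  have hfin := final_real K hK1 b (by omega) (V1 z0 z) H (quad lam (PI z (z ^ b) K))
    (wmean z (z ^ b) (cOf lam Finset.univ)) (C1 / z) (1 / (16 * K) * H)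
    (∑ U ∈ Ioc (0 : ℤ) H, nu z0 z (Fin.append α a) (Fin.append β d) U *
      wt z (z ^ b) (cOf lam Finset.univ) α β U) hV1 hH0 hl4 hc0 hKc hmu
    (fun i => wmean z (z ^ b) (cOf lam (Finset.univ.erase i)))
    (fun i => quad lam ((PI z (z ^ b) K).filter (fun x => x.2 ≠ i)))
    (fun i => ∑ U ∈ (Ioc (0 : ℤ) H).filter (fun U => Prime (α i * U + β i)),
        nu z0 z (Fin.append α a) (Fin.append β d) U *
          wt z (z ^ b) (cOf lam Finset.univ) α β U)
    (fun i => ∑ U ∈ (Ioc (0 : ℤ) H).filter (fun U => Prime (α i * U + β i)),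
        wt z (z ^ b) (cOf lam (Finset.univ.erase i)) α β U *
          nuJ z0 z (α i) (β i) (Fin.append α a) (Fin.append β d) U)
    (fun i => ((((Ioc (0 : ℤ) H).filter (fun U => Prime (α i * U + β i))).card : ℕ) : ℝ))
    hmi hl5 (by
      have : (K : ℝ) ≠ 0 := by positivity
      apply le_of_eq
      field_simp) hT' hpi hPS hTR
  refine hfin.trans ?_
  exact two_primes α β (fun U => nu z0 z (Fin.append α a) (Fin.append β d) U *
    wt z (z ^ b) (cOf lam Finset.univ) α β U) (fun U => mul_nonneg (hnu0 U) ((hq3 U).1))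

end Pool.Agent.Lib.MT2.T2
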