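import Mathlib
import Pool.Agent.Lib.MT2.MT_2

/-!
MAYNARD-TAO ON ROUGH FORMS: MT from MTC.
-/

set_option autoImplicit false

namespace Pool.Agent.Lib.MT2.T2

open Finset
open Pool.Agent.Lib.TwinAll
open Pool.Agent.Lib.MT2

theorem mt_2 (hC : MTCStmt) (hWB : WBStmt) : MTStmt := by
  classical
  obtain ⟨K0, hK0⟩ := hC
  refine ⟨max K0 1, fun K k B1 hK => ?_⟩
  have hK1 : 1 ≤ K := le_trans (le_max_right _ _) hK
  obtain ⟨CK, hCK⟩ := hK0 K k (le_trans (le_max_left _ _) hK)
  obtain ⟨b, zs, hb, hzs⟩ := hCK (max B1 1)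
  refine ⟨9 * b, max zs (K + k), by omega, fun z0 hz0 C0 => ?_⟩
  have hz0k : K + k ≤ z0 := le_trans (le_max_right _ _) hz0
  obtain ⟨C1, zC, hC11, hzC⟩ := hzs z0 (le_trans (le_max_left _ _) hz0) C0
  obtain ⟨zB, hzB⟩ := hWB K (9 * b + 1) C0
  obtain ⟨W, hW⟩ : ∃ W : ℝ, W = C1 * 2 ^ (K * (9 * b + 1 + 1)) := ⟨_, rfl⟩
  have hW1 : 0 < W := by rw [hW]; positivity
  have hKr : (0 : ℝ) < K := by exact_mod_cast hK1
  refine ⟨1 / (2 * (W * K)), max (max zC zB) z0, by positivity, fun z hz => ?_⟩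
  simp only [max_le_iff] at hz
  obtain ⟨⟨zC', zB'⟩, zz0⟩ := hz
  obtain ⟨c, hc1, -, hc3, hc4⟩ := hzC z zC'
  intro α β a d hM hS H hH1 hH2
  obtain ⟨hw0, hmain⟩ := hc4 α β a d hM hS
  have h1 := hmain H hH1 hH2
  have hnd := ndvd_append (z := z) hM hS
  have hVV : 0 < VV z0 z (Fin.append α a) (Fin.append β d) := VV_pos hz0k _ _ hnd
  set S1 := (Ioc (0 : ℤ) H).filter (fun U =>
    ∃ i j, i < j ∧ Prime (α i * U + β i) ∧ Prime (α j * U + β j)) with hS1
  set S2 := (Ioc (0 : ℤ) H).filter (fun U =>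
    (∀ j, Rough z0 z (α j * U + β j)) ∧ (∀ j, Rough z0 z (a j * U + d j)) ∧
      ∃ i j, i < j ∧ Prime (α i * U + β i) ∧ Prime (α j * U + β j)) with hS2
  have h2 : ∑ U ∈ S1, nu z0 z (Fin.append α a) (Fin.append β d) U * wt z (z ^ b) c α β U * K ≤
      ∑ U ∈ S2, (VV z0 z (Fin.append α a) (Fin.append β d))⁻¹ * W * K := by
    have hsub : S2 ⊆ S1 := by
      intro U hU
      rw [hS2, mem_filter] at hU
      rw [hS1, mem_filter]
      exact ⟨hU.1, hU.2.2.2⟩
    rw [← Finset.sum_sdiff hsub]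
    have h3 : ∑ U ∈ S1 \ S2,
        nu z0 z (Fin.append α a) (Fin.append β d) U * wt z (z ^ b) c α β U * K = 0 := by
      apply Finset.sum_eq_zero
      intro U hU
      rw [mem_sdiff] at hU
      have h4 : nu z0 z (Fin.append α a) (Fin.append β d) U = 0 := by
        unfold nu
        rw [if_neg]
        intro h5
        apply hU.2
        have h6 := hU.1
        rw [hS1, mem_filter] at h6
        rw [hS2, mem_filter]
        refine ⟨h6.1, fun j => ?_, fun j => ?_, h6.2⟩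
        · have := h5 (Fin.castAdd k j)
          rwa [Fin.append_left, Fin.append_left] at this
        · have := h5 (Fin.natAdd K j)
          rwa [Fin.append_right, Fin.append_right] at this
      rw [h4, zero_mul, zero_mul]
    rw [h3, zero_add]
    apply Finset.sum_le_sum
    intro U hU
    rw [hS2, mem_filter, mem_Ioc] at hU
    have h5 := nu_le (z := z) hz0k (Fin.append α a) (Fin.append β d) hnd U
    have h6 : wt z (z ^ b) c α β U ≤ W := by
      rw [hW]
      refine (le_abs_self _).trans (hzB z zB' z0 (z ^ b) C1 c α β hM hc1.bd U (by omega) ?_)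
      exact hU.1.2.trans (by exact_mod_cast hH2)
    apply mul_le_mul_of_nonneg_right _ hKr.le
    exact mul_le_mul h5 h6 (hw0 U) (inv_pos.2 hVV).le
  rw [Finset.sum_const, nsmul_eq_mul] at h2
  have hH0 : (0 : ℝ) ≤ H := Nat.cast_nonneg H
  have h3 : (H : ℝ) * (1 / 2) ≤ H * wmean z (z ^ b) c := mul_le_mul_of_nonneg_left hc3 hH0
  have h4 : (H : ℝ) * (1 / 2) ≤ (S2.card : ℝ) *
      ((VV z0 z (Fin.append α a) (Fin.append β d))⁻¹ * W * K) := h3.trans (h1.trans h2)
  have h5 : (1 / (2 * (W * K))) * VV z0 z (Fin.append α a) (Fin.append β d) * H =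
      (VV z0 z (Fin.append α a) (Fin.append β d) / (W * K)) * (H * (1 / 2)) := by
    field_simp
  rw [h5]
  calc (VV z0 z (Fin.append α a) (Fin.append β d) / (W * K)) * (H * (1 / 2))
      ≤ (VV z0 z (Fin.append α a) (Fin.append β d) / (W * K)) * ((S2.card : ℝ) *
      ((VV z0 z (Fin.append α a) (Fin.append β d))⁻¹ * W * K)) :=
        mul_le_mul_of_nonneg_left h4 (by positivity)
    _ = (S2.card : ℝ) := by
        have := hVV.ne'
        field_simp

end Pool.Agent.Lib.MT2.T2
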