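import Pool.Agent.Lib.MT2.Stmts
import Pool.Agent.Lib.TwinAll.W2_64
import Pool.Agent.Lib.TwinAll.L3b88

/-!
MAYNARD-TAO ON ROUGH FORMS, module PNT: the number of primes in a progression whose modulus
contains all primes up to `z0`, relative to the density of the rough numbers.
-/

set_option autoImplicit false

open Filter Topology

namespace Pool.Agent.Lib.MT2.T33

open Finset
open Pool.Agent.Lib.TwinAll

theorem V1_le (z0 z a : ℕ) (ha : 0 < a) (hz : z0 ≤ z) (h2 : 2 ≤ z)
    (hd : ∀ q : ℕ, q.Prime → q ≤ z0 → q ∣ a) :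
    Pool.Agent.Lib.MT2.V1 z0 z ≤ ((a : ℝ) / a.totient) / Real.log z := by
  classical
  have hφ : 0 < a.totient := Nat.totient_pos.2 ha
  have har : (0 : ℝ) < a := by exact_mod_cast ha
  have hφr : (0 : ℝ) < a.totient := by exact_mod_cast hφ
  have h1 : Pool.Agent.Lib.MT2.V1 z0 z = ∏ q ∈ PP z0 z, (1 - 1 / (q : ℝ)) := by
    unfold Pool.Agent.Lib.MT2.V1 VV
    apply Finset.prod_congr rfl
    intro q hq
    rw [M88.mem_PP] at hq
    rw [M88.om_one hq.2.pos, Nat.cast_one]
  have hfac : ∀ q : ℕ, q.Prime → 0 < 1 - 1 / (q : ℝ) ∧ 1 - 1 / (q : ℝ) ≤ 1 := by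
    intro q hq
    have h3 : (1 : ℝ) < q := by exact_mod_cast hq.one_lt
    constructor
    · rw [sub_pos, div_lt_one (by linarith)]
      exact h3
    · have : (0 : ℝ) < 1 / (q : ℝ) := by positivity
      linarith
  -- splitting the product
  have hsplit : ∏ q ∈ PP 1 z, (1 - 1 / (q : ℝ)) =
      (∏ q ∈ PP 1 z0, (1 - 1 / (q : ℝ))) * ∏ q ∈ PP z0 z, (1 - 1 / (q : ℝ)) := by
    rw [← Finset.prod_union]
    · apply Finset.prod_congr _ (fun _ _ => rfl)
      ext q
      simp only [Finset.mem_union, M88.mem_PP]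
      constructor
      · rintro ⟨⟨h3, h4⟩, h5⟩
        rcases le_or_gt q z0 with h6 | h6
        · exact Or.inl ⟨⟨h3, h6⟩, h5⟩
        · exact Or.inr ⟨⟨h6, h4⟩, h5⟩
      · rintro (⟨⟨h3, h4⟩, h5⟩ | ⟨⟨h3, h4⟩, h5⟩)
        · exact ⟨⟨h3, by omega⟩, h5⟩
        · exact ⟨⟨h5.one_lt, h4⟩, h5⟩
    · rw [Finset.disjoint_left]
      intro q hq hq'
      rw [M88.mem_PP] at hq hq'
      omega
  have htot : ((a.totient : ℝ) / a) ≤ ∏ q ∈ PP 1 z0, (1 - 1 / (q : ℝ)) := by
    have h3 := Nat.totient_eq_mul_prod_factors a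
    have h4 : (a.totient : ℝ) = a * ∏ p ∈ a.primeFactors, (1 - ((p : ℝ))⁻¹) := by
      have h5 : ((a.totient : ℚ) : ℝ) = ((a * ∏ p ∈ a.primeFactors, (1 - ((p : ℚ))⁻¹) : ℚ) : ℝ) := by
        rw [h3]
      push_cast at h5
      exact h5
    have h5 : (a.totient : ℝ) / a = ∏ p ∈ a.primeFactors, (1 - 1 / (p : ℝ)) := by
      rw [h4, mul_div_cancel_left₀ _ har.ne']
      apply Finset.prod_congr rfl
      intro p _
      rw [one_div]
    rw [h5]
    apply Finset.prod_le_prod_of_subset_of_le_one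
    · intro q hq
      rw [M88.mem_PP] at hq
      rw [Nat.mem_primeFactors]
      exact ⟨hq.2, hd q hq.2 hq.1.2, ha.ne'⟩
    · intro q hq
      exact (hfac q (Nat.prime_of_mem_primeFactors hq)).1.le
    · intro q hq _
      exact (hfac q (Nat.prime_of_mem_primeFactors hq)).2
  have hup := M88.V1_upper z h2
  rw [hsplit] at hup
  have hpos : 0 < ∏ q ∈ PP z0 z, (1 - 1 / (q : ℝ)) := by
    apply Finset.prod_pos
    intro q hq
    rw [M88.mem_PP] at hq
    exact (hfac q hq.2).1
  have h6 : ((a.totient : ℝ) / a) * ∏ q ∈ PP z0 z, (1 - 1 / (q : ℝ)) ≤ 1 / Real.log z :=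
    le_trans (mul_le_mul_of_nonneg_right htot hpos.le) hup
  rw [h1]
  have h7 : ∏ q ∈ PP z0 z, (1 - 1 / (q : ℝ)) =
      ((a : ℝ) / a.totient) * (((a.totient : ℝ) / a) * ∏ q ∈ PP z0 z, (1 - 1 / (q : ℝ))) := by
    field_simp
  rw [h7]
  calc ((a : ℝ) / a.totient) * (((a.totient : ℝ) / a) * ∏ q ∈ PP z0 z, (1 - 1 / (q : ℝ)))
      ≤ ((a : ℝ) / a.totient) * (1 / Real.log z) :=
        mul_le_mul_of_nonneg_left h6 (by positivity)
    _ = _ := by ring

open Classical in
/-- counting the primes `a U + b`, `1 ≤ U ≤ H` -/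
theorem count_ge (a : ℕ) (ha : 0 < a) (b0 : ℤ) (C0 : ℕ) (hb : |b0| ≤ C0) (c : ℕ)
    (hc : (a : ℤ) ∣ c - b0) (H : ℕ) :
    w2f a c (a * H) ≤
      ((Ioc (0 : ℤ) H).filter (fun U => Prime ((a : ℤ) * U + b0))).card + 2 * C0 := by
  have hsub : (Finset.Ioc 0 (a * H)).filter (fun p : ℕ => p.Prime ∧ p ≡ c [MOD a]) ⊆
      (((Ioc (0 : ℤ) H).filter (fun U => Prime ((a : ℤ) * U + b0))).image
        (fun U : ℤ => ((a : ℤ) * U + b0).toNat) ∪ Finset.Ioc 0 C0) ∪
        Finset.Ioc (a * H - C0) (a * H) := by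
    intro p hp
    rw [Finset.mem_filter, Finset.mem_Ioc] at hp
    obtain ⟨⟨hp0, hp1⟩, hpp, hpc⟩ := hp
    rw [Finset.mem_union, Finset.mem_union, Finset.mem_Ioc, Finset.mem_Ioc]
    rcases le_or_gt p C0 with h1 | h1
    · exact Or.inl (Or.inr ⟨hp0, h1⟩)
    rcases le_or_gt p (a * H - C0) with h2 | h2
    · refine Or.inl (Or.inl ?_)
      rw [Finset.mem_image]
      have h3 : (a : ℤ) ∣ p - b0 := by
        have h4 : (a : ℤ) ∣ p - c := by
          have h5 : (c : ℤ) ≡ p [ZMOD a] := by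
            rw [← Int.natCast_modEq_iff] at hpc
            exact hpc.symm
          exact h5.dvd
        have h6 : (p : ℤ) - b0 = (p - c) + (c - b0) := by ring
        rw [h6]
        exact dvd_add h4 hc
      obtain ⟨U, hU⟩ := h3
      have haz : (0 : ℤ) < a := by exact_mod_cast ha
      have hab := abs_le.1 hb
      have h1z : (C0 : ℤ) < p := by exact_mod_cast h1
      have h2z : (p : ℤ) + C0 ≤ (a : ℤ) * H := by
        have h4 : p + C0 ≤ a * H := by omega
        exact_mod_cast h4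
      refine ⟨U, ?_, ?_⟩
      · rw [Finset.mem_filter, Finset.mem_Ioc]
        refine ⟨⟨?_, ?_⟩, ?_⟩
        · have h4 : 0 < (a : ℤ) * U := by rw [← hU]; linarith
          exact (mul_pos_iff_of_pos_left haz).1 h4
        · have h4 : (a : ℤ) * U ≤ a * H := by rw [← hU]; linarith
          exact le_of_mul_le_mul_left h4 haz
        · have h4 : (a : ℤ) * U + b0 = p := by rw [← hU]; ring
          rw [h4]
          exact Nat.prime_iff_prime_int.1 hpp
      · have h4 : (a : ℤ) * U + b0 = p := by rw [← hU]; ring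
        show ((a : ℤ) * U + b0).toNat = p
        rw [h4, Int.toNat_natCast]
    · exact Or.inr ⟨h2, hp1⟩
  have h1 := Finset.card_le_card hsub
  have h2 := Finset.card_union_le (((Ioc (0 : ℤ) H).filter (fun U => Prime ((a : ℤ) * U + b0))).image
        (fun U : ℤ => ((a : ℤ) * U + b0).toNat) ∪ Finset.Ioc 0 C0) (Finset.Ioc (a * H - C0) (a * H))
  have h3 := Finset.card_union_le (((Ioc (0 : ℤ) H).filter
    (fun U => Prime ((a : ℤ) * U + b0))).image
        (fun U : ℤ => ((a : ℤ) * U + b0).toNat)) (Finset.Ioc 0 C0)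
  have h4 : (((Ioc (0 : ℤ) H).filter (fun U => Prime ((a : ℤ) * U + b0))).image
        (fun U : ℤ => ((a : ℤ) * U + b0).toNat)).card ≤
      ((Ioc (0 : ℤ) H).filter (fun U => Prime ((a : ℤ) * U + b0))).card := Finset.card_image_le
  rw [Nat.card_Ioc] at h2 h3
  unfold w2f
  omega

theorem ev_count (C0 : ℕ) (ε : ℝ) (hε : 0 < ε) (a c : ℕ) (ha : 0 < a) (hc : Nat.Coprime c a) :
    ∀ᶠ y : ℕ in atTop, (1 - ε) * ((a : ℝ) / a.totient) ≤
      (Real.log y / y) * ((w2f a c (a * y) : ℝ) - 2 * C0) := by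
  have hφ : 0 < a.totient := Nat.totient_pos.2 ha
  have har : (0 : ℝ) < a := by exact_mod_cast ha
  have hφr : (0 : ℝ) < a.totient := by exact_mod_cast hφ
  have h1 := w2_tendsto a c ha hc a 1 one_pos
  have h2 : Tendsto (fun y : ℕ => (Real.log y / y) * (2 * C0 : ℝ)) atTop (𝓝 0) := by
    have h3 : Tendsto (fun x : ℝ => Real.log x / x) atTop (𝓝 0) := by
      have := Real.isLittleO_log_id_atTop.tendsto_div_nhds_zero
      simpa using this
    have h4 := (h3.comp tendsto_natCast_atTop_atTop).mul_const (2 * C0 : ℝ)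
    rw [zero_mul] at h4
    exact h4
  have h3 := h1.sub h2
  rw [sub_zero, Nat.cast_one, div_one] at h3
  have h4 : (1 - ε) * ((a : ℝ) / a.totient) < (a : ℝ) / a.totient := by
    have : 0 < (a : ℝ) / a.totient := by positivity
    nlinarith
  filter_upwards [h3.eventually_const_lt h4] with y hy
  rw [Nat.div_one] at hy
  rw [mul_sub]
  exact hy.le

theorem pnt_33 : PNTStmt := by
  classical
  intro z0 C0 B ε hε hz0
  have hev : ∀ᶠ y : ℕ in atTop, ∀ a ∈ Finset.range (C0 + 1), ∀ c ∈ Finset.range (C0 + 1),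
      0 < a → Nat.Coprime c a → (1 - ε) * ((a : ℝ) / a.totient) ≤
      (Real.log y / y) * ((w2f a c (a * y) : ℝ) - 2 * C0) := by
    rw [Filter.eventually_all_finset]
    intro a _
    rw [Filter.eventually_all_finset]
    intro c _
    by_cases h1 : 0 < a
    · by_cases h2 : Nat.Coprime c a
      · filter_upwards [ev_count C0 ε hε a c h1 h2] with y hy _ _
        exact hy
      · exact Filter.Eventually.of_forall fun y _ h => absurd h h2
    · exact Filter.Eventually.of_forall fun y h => absurd h h1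
  obtain ⟨Y, hY⟩ := Filter.eventually_atTop.1 hev
  refine ⟨max Y (max z0 2), ?_⟩
  intro z hz a0 b0 ha0 haC hbC hcop hdiv H hzH hHB
  have hzY : Y ≤ z := le_trans (le_max_left _ _) hz
  have hzz0 : z0 ≤ z := le_trans (le_trans (le_max_left _ _) (le_max_right _ _)) hz
  have hz2 : 2 ≤ z := le_trans (le_trans (le_max_right _ _) (le_max_right _ _)) hz
  obtain ⟨a, rfl⟩ : ∃ a : ℕ, a0 = a := ⟨a0.toNat, (Int.toNat_of_nonneg ha0.le).symm⟩
  have ha : 0 < a := by exact_mod_cast ha0
  have haC' : a ≤ C0 := by exact_mod_cast haC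
  -- the residue class
  set c : ℕ := (b0 % a).toNat with hcdef
  have hcz : (c : ℤ) = b0 % a := Int.toNat_of_nonneg (Int.emod_nonneg _ ha0.ne')
  have hclt : c < a := by
    have : (c : ℤ) < a := by rw [hcz]; exact Int.emod_lt_of_pos _ ha0
    exact_mod_cast this
  have hcd : (a : ℤ) ∣ c - b0 := by
    rw [hcz]
    exact ⟨-(b0 / a), by have := Int.emod_add_mul_ediv b0 a; linarith⟩
  have hcc : Nat.Coprime c a := by
    rw [← Nat.isCoprime_iff_coprime]
    obtain ⟨k, hk⟩ := hcd
    have h1 : (c : ℤ) = b0 + a * k := by linarith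
    rw [h1]
    exact IsCoprime.add_mul_left_left hcop.symm k
  have hmain := hY H (le_trans hzY hzH) a (Finset.mem_range.2 (by omega)) c
    (Finset.mem_range.2 (by omega)) ha hcc
  have hcount := count_ge a ha b0 C0 hbC c hcd H
  have hdn : ∀ q : ℕ, q.Prime → q ≤ z0 → q ∣ a := by
    intro q hq hq2
    exact_mod_cast hdiv q hq hq2
  have hV := V1_le z0 z a ha hzz0 hz2 hdn
  -- numbers
  have hH2 : 2 ≤ H := le_trans hz2 hzH
  have hB : 0 < B := by
    rcases Nat.eq_zero_or_pos B with rfl | hB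
    · rw [pow_zero] at hHB
      omega
    · exact hB
  have hBr : (0 : ℝ) < B := by exact_mod_cast hB
  have hHr : (0 : ℝ) < H := by
    have : 0 < H := by omega
    exact_mod_cast this
  have hlz : 0 < Real.log z := Real.log_pos (by exact_mod_cast (by omega : 1 < z))
  have hlH : 0 < Real.log H := Real.log_pos (by exact_mod_cast (by omega : 1 < H))
  have hlHB : Real.log H ≤ B * Real.log z := by
    rw [← Real.log_pow]
    apply Real.log_le_log hHr
    exact_mod_cast hHB
  have hφ : 0 < a.totient := Nat.totient_pos.2 ha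
  have har : (0 : ℝ) < a := by exact_mod_cast ha
  have hφr : (0 : ℝ) < a.totient := by exact_mod_cast hφ
  have hcr : ((w2f a c (a * H) : ℝ) - 2 * C0) ≤
      ((((Ioc (0 : ℤ) H).filter (fun U => Prime ((a : ℤ) * U + b0))).card : ℕ) : ℝ) := by
    have h1 : ((w2f a c (a * H) : ℕ) : ℝ) ≤
      ((((Ioc (0 : ℤ) H).filter (fun U => Prime ((a : ℤ) * U + b0))).card + 2 * C0 : ℕ) : ℝ) := by
      exact_mod_cast hcount
    push_cast at h1
    linarith
  have hVpos : 0 ≤ Pool.Agent.Lib.MT2.V1 z0 z := by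
    have := M88.V1_pos z0 z
    exact this.le
  rcases le_or_gt 1 ε with h1 | h1
  · have h2 : (1 - ε) * (H / B : ℝ) * Pool.Agent.Lib.MT2.V1 z0 z ≤ 0 := by
      apply mul_nonpos_of_nonpos_of_nonneg _ hVpos
      apply mul_nonpos_of_nonpos_of_nonneg (by linarith) (by positivity)
    refine le_trans h2 ?_
    positivity
  · have h2 : (1 - ε) * ((a : ℝ) / a.totient) * (H / Real.log H) ≤
        ((w2f a c (a * H) : ℝ) - 2 * C0) := by
      have h3 : 0 < (H : ℝ) / Real.log H := by positivity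
      have h4 := mul_le_mul_of_nonneg_right hmain h3.le
      refine le_trans h4 (le_of_eq ?_)
      field_simp
    have h5 : (1 - ε) * (H / B : ℝ) * Pool.Agent.Lib.MT2.V1 z0 z ≤
        (1 - ε) * ((a : ℝ) / a.totient) * (H / Real.log H) := by
      have h6 : (1 - ε) * (H / B : ℝ) * Pool.Agent.Lib.MT2.V1 z0 z ≤
          (1 - ε) * (H / B : ℝ) * (((a : ℝ) / a.totient) / Real.log z) := by
        apply mul_le_mul_of_nonneg_left hV
        apply mul_nonneg (by linarith) (by positivity)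
      refine le_trans h6 ?_
      have h7 : (1 - ε) * (H / B : ℝ) * (((a : ℝ) / a.totient) / Real.log z) =
          (1 - ε) * ((a : ℝ) / a.totient) * (H / (B * Real.log z)) := by
        field_simp
      rw [h7]
      apply mul_le_mul_of_nonneg_left
      · exact div_le_div_of_nonneg_left hHr.le hlH hlHB
      · apply mul_nonneg (by linarith) (by positivity)
    refine le_trans (le_trans h5 (le_trans h2 hcr)) (le_of_eq ?_)
    congr 1

end Pool.Agent.Lib.MT2.T33
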