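import Mathlib
import Pool.Agent.Lib.MT2.Stmts
import Pool.Agent.Lib.MP_39b545_nt.TwoRes19

/-!
RAM: Ramsey numbers for the pair of forms.
-/

set_option autoImplicit false

namespace Pool.Agent.Lib.MT2

open Finset
open ArithmeticFunction (cardFactors)
open Pool.Agent.Lib.MP_39b545_nt.TwoRes19 (S S_mono S_dvd)

/-- RAM -/
theorem ram_33 : RAMStmt := by
  intro K κ m hκ hm
  have : NeZero m := ⟨hm.ne'⟩
  obtain ⟨N, hN⟩ := CodegDens.ramsey (ZMod m) 2 K
  obtain ⟨J, hJ, -, hJc⟩ := hN (fun s => ((cardFactors (S κ (s 1) - S κ (s 0)) : ℕ) : ZMod m)) (by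
    intro s s' h
    rw [h 0 (by omega), h 1 (by omega)])
  obtain ⟨n, hn⟩ : ∃ n, n = J K + 1 := ⟨_, rfl⟩
  have hSm := S_mono κ hκ
  have hJn : ∀ a ≤ K, J a < n := by
    intro a ha
    have := hJ.monotone ha
    omega
  have hSn : ∀ a ≤ K, S κ (J a) < S κ n := fun a ha => hSm (hJn a ha)
  refine ⟨fun i => S κ n - S κ (J (K - 1 - i)), cardFactors (S κ (J 1) - S κ (J 0)), ?_, ?_⟩
  · intro i
    have := hSn (K - 1 - i) (by omega)
    show 0 < S κ n - S κ (J (K - 1 - i))
    omega
  · intro i j hij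
    have hij' : (i : ℕ) < j := hij
    have hj := j.isLt
    obtain ⟨a, ha⟩ : ∃ a, a = K - 1 - (j : ℕ) := ⟨_, rfl⟩
    obtain ⟨b, hb⟩ : ∃ b, b = K - 1 - (i : ℕ) := ⟨_, rfl⟩
    have hab : a < b := by omega
    have hbK : b < K := by omega
    have h1 : S κ (J a) < S κ (J b) := hSm (hJ hab)
    have h2 := hSn b hbK.le
    have h3 := hSn a (by omega)
    have e : (S κ n - S κ (J a)) - (S κ n - S κ (J b)) = S κ (J b) - S κ (J a) := by omega
    simp only [← ha, ← hb]
    rw [e]
    refine ⟨by omega, S_dvd κ hκ (hJ hab) (hJn b hbK.le).le, ?_⟩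
    have h4 := hJc (fun i => if i = 0 then a else b + (i - 1)) id (by
      intro i j hij
      have hj : j ≠ 0 := by omega
      simp only [if_neg hj]
      split_ifs <;> omega) (by
      intro i hi
      show (if i = 0 then a else b + (i - 1)) < K
      split_ifs <;> omega) strictMono_id (by
      intro i hi
      show i < K
      omega)
    have h5 : ((cardFactors (S κ (J b) - S κ (J a)) : ℕ) : ZMod m) =
        ((cardFactors (S κ (J 1) - S κ (J 0)) : ℕ) : ZMod m) := by
      simpa using h4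
    exact (ZMod.natCast_eq_natCast_iff _ _ _).1 h5

end Pool.Agent.Lib.MT2
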