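import Mathlib
import Pool.Agent.Lib.TwinAll.Corr98
import Pool.Agent.Lib.MT2.Stmts

/-!
Module S5k: the correlation constant of two primes for `k` forms is 1 on average, in a residue
class (`theorem s5k_98 : CorerStmt → S5kStmt`).
-/

set_option autoImplicit false

namespace Pool.Agent.Lib.MT2
namespace T98

open Finset
open Pool.Agent.Lib.TwinAll (PP Rough om VV nu ee)
open Pool.Agent.Lib.TwinAll.Corr98

/-! ### number of roots -/

theorem img_append {α : Type*} [DecidableEq α] {m n : ℕ} (f : Fin (m + n) → α) :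
    univ.image f = univ.image (fun i => f (Fin.castAdd n i)) ∪
      univ.image (fun j => f (Fin.natAdd m j)) := by
  ext x
  simp only [Finset.mem_image, Finset.mem_univ, true_and, Finset.mem_union]
  constructor
  · rintro ⟨i, rfl⟩
    induction i using Fin.addCases with
    | left i => exact Or.inl ⟨i, rfl⟩
    | right i => exact Or.inr ⟨i, rfl⟩
  · rintro (⟨i, rfl⟩ | ⟨i, rfl⟩)
    · exact ⟨_, rfl⟩
    · exact ⟨_, rfl⟩

theorem img_cons {α : Type*} [DecidableEq α] {n : ℕ} (f : Fin (n + 1) → α) :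
    univ.image f = insert (f 0) (univ.image (fun i : Fin n => f i.succ)) := by
  ext x
  simp only [Finset.mem_image, Finset.mem_univ, true_and, Finset.mem_insert]
  constructor
  · rintro ⟨i, rfl⟩
    induction i using Fin.cases with
    | zero => exact Or.inl rfl
    | succ i => exact Or.inr ⟨i, rfl⟩
  · rintro (rfl | ⟨i, rfl⟩)
    · exact ⟨_, rfl⟩
    · exact ⟨_, rfl⟩

theorem card_insert_zero {α : Type*} [DecidableEq α] [Zero α] (s : Finset α) :
    (insert 0 s).card = 1 + (s.erase 0).card := by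
  rw [← Finset.card_erase_add_one (Finset.mem_insert_self 0 s), Finset.erase_insert_eq_erase,
    add_comm]

section roots

variable {k : ℕ} (a Δ : Fin k → ℤ) (q : ℕ) [hq : Fact q.Prime]

/-- the nonzero roots -/
noncomputable def RR : Finset (ZMod q) :=
  (univ.image (fun j : Fin k => -(Δ j : ZMod q) / (a j : ZMod q))).erase 0

theorem card_RR_le : (RR a Δ q).card ≤ k := by
  unfold RR
  refine (Finset.card_le_card (Finset.erase_subset _ _)).trans ?_
  exact Finset.card_image_le.trans (by simp)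

theorem ndvd_one : ¬ ((q : ℤ) ∣ 1) := by
  intro h
  have := hq.out.one_lt
  have h2 : (q : ℤ) ≤ 1 := Int.le_of_dvd one_pos h
  omega

theorem om_cons (ha : ∀ j, ¬ ((q : ℤ) ∣ a j)) :
    om (Fin.cons 1 a : Fin (k + 1) → ℤ) (Fin.cons 0 Δ) q = 1 + (RR a Δ q).card := by
  rw [om_eq _ _ q (by
    intro j
    induction j using Fin.cases with
    | zero => simpa using ndvd_one q
    | succ j => simpa using ha j)]
  rw [img_cons]
  simp only [Fin.cons_zero, Fin.cons_succ, Int.cast_zero, neg_zero, Int.cast_one, zero_div]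
  rw [card_insert_zero]
  rfl

theorem ndvd_cast {a : ℤ} (ha : ¬ ((q : ℤ) ∣ a)) : (a : ZMod q) ≠ 0 := fun h =>
  ha ((ZMod.intCast_zmod_eq_zero_iff_dvd _ _).1 h)

/-- the condition of coincidence -/
def EE (p p' : ℤ) (x : Fin k × Fin k) : Prop :=
  ¬ ((q : ℤ) ∣ Δ x.1) ∧ (q : ℤ) ∣ Δ x.1 * a x.2 * p' - Δ x.2 * a x.1 * p

theorem om_big (ha : ∀ j, ¬ ((q : ℤ) ∣ a j)) (p p' : ℤ) (hp : ¬ ((q : ℤ) ∣ p))
    (hp' : ¬ ((q : ℤ) ∣ p')) :
    1 + (RR a Δ q).card ≤ om (Fin.cons 1 (Fin.append (fun j => a j * p) (fun j => a j * p')) :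
        Fin (k + k + 1) → ℤ) (Fin.cons 0 (Fin.append Δ Δ)) q ∧
    om (Fin.cons 1 (Fin.append (fun j => a j * p) (fun j => a j * p')) :
        Fin (k + k + 1) → ℤ) (Fin.cons 0 (Fin.append Δ Δ)) q ≤ 1 + 2 * (RR a Δ q).card ∧
    ((¬ ∃ x, EE a Δ q p p' x) →
      om (Fin.cons 1 (Fin.append (fun j => a j * p) (fun j => a j * p')) :
        Fin (k + k + 1) → ℤ) (Fin.cons 0 (Fin.append Δ Δ)) q = 1 + 2 * (RR a Δ q).card) := by
  classical
  have hqi : Prime (q : ℤ) := Nat.prime_iff_prime_int.1 hq.out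
  have hpc : (p : ZMod q) ≠ 0 := ndvd_cast q hp
  have hpc' : (p' : ZMod q) ≠ 0 := ndvd_cast q hp'
  set P : Finset (ZMod q) := (RR a Δ q).image (fun x => x / (p : ZMod q)) with hP
  set P' : Finset (ZMod q) := (RR a Δ q).image (fun x => x / (p' : ZMod q)) with hP'
  have hPc : P.card = (RR a Δ q).card := by
    rw [hP]
    apply Finset.card_image_of_injective
    intro x y h
    exact (div_left_inj' hpc).1 h
  have hPc' : P'.card = (RR a Δ q).card := by
    rw [hP']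
    apply Finset.card_image_of_injective
    intro x y h
    exact (div_left_inj' hpc').1 h
  have hom : om (Fin.cons 1 (Fin.append (fun j => a j * p) (fun j => a j * p')) :
        Fin (k + k + 1) → ℤ) (Fin.cons 0 (Fin.append Δ Δ)) q = 1 + (P ∪ P').card := by
    rw [om_eq _ _ q (by
      intro j
      induction j using Fin.cases with
      | zero => simpa using ndvd_one q
      | succ j =>
        rw [Fin.cons_succ]
        induction j using Fin.addCases with
        | left i =>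
          rw [Fin.append_left]
          intro h
          rcases hqi.dvd_or_dvd h with h | h
          · exact ha i h
          · exact hp h
        | right i =>
          rw [Fin.append_right]
          intro h
          rcases hqi.dvd_or_dvd h with h | h
          · exact ha i h
          · exact hp' h)]
    rw [img_cons, img_append]
    simp only [Fin.cons_zero, Fin.cons_succ, Int.cast_zero, neg_zero, Int.cast_one, zero_div,
      Fin.append_left, Fin.append_right]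
    rw [card_insert_zero]
    congr 2
    ext x
    simp only [hP, hP', RR, Finset.mem_erase, Finset.mem_union, Finset.mem_image,
      Finset.mem_univ, true_and, Int.cast_mul]
    constructor
    · rintro ⟨hx, ⟨i, rfl⟩ | ⟨i, rfl⟩⟩
      · refine Or.inl ⟨-(Δ i : ZMod q) / (a i : ZMod q), ⟨?_, i, rfl⟩, by rw [div_div]⟩
        intro h
        apply hx
        rw [← div_div, h, zero_div]
      · refine Or.inr ⟨-(Δ i : ZMod q) / (a i : ZMod q), ⟨?_, i, rfl⟩, by rw [div_div]⟩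
        intro h
        apply hx
        rw [← div_div, h, zero_div]
    · rintro (⟨x, ⟨hx, i, rfl⟩, rfl⟩ | ⟨x, ⟨hx, i, rfl⟩, rfl⟩)
      · exact ⟨div_ne_zero hx hpc, Or.inl ⟨i, by rw [div_div]⟩⟩
      · exact ⟨div_ne_zero hx hpc', Or.inr ⟨i, by rw [div_div]⟩⟩
  rw [hom]
  refine ⟨?_, ?_, ?_⟩
  · rw [← hPc]
    have := Finset.card_le_card (Finset.subset_union_left (s₁ := P) (s₂ := P'))
    omega
  · have := Finset.card_union_le P P'
    omega
  · intro hne
    have hdis : Disjoint P P' := by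
      rw [Finset.disjoint_left]
      intro x hx hx'
      apply hne
      simp only [hP, hP', RR, Finset.mem_erase, Finset.mem_image,
        Finset.mem_univ, true_and] at hx hx'
      obtain ⟨u, ⟨hu0, i, hi⟩, hux⟩ := hx
      obtain ⟨v, ⟨hv0, j, hj⟩, hvx⟩ := hx'
      refine ⟨(i, j), ?_, ?_⟩
      · intro h
        apply hu0
        have h2 : (Δ i : ZMod q) = 0 := (ZMod.intCast_zmod_eq_zero_iff_dvd _ _).2 h
        rw [← hi, h2, neg_zero, zero_div]
      · rw [← ZMod.intCast_zmod_eq_zero_iff_dvd]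
        have hai := ndvd_cast q (ha i)
        have haj := ndvd_cast q (ha j)
        have h3 : u / (p : ZMod q) = v / (p' : ZMod q) := by rw [hux, hvx]
        rw [← hi, ← hj, div_div, div_div, div_eq_div_iff (mul_ne_zero hai hpc)
          (mul_ne_zero haj hpc')] at h3
        push_cast
        linear_combination -h3
    rw [Finset.card_union_of_disjoint hdis, hPc, hPc']
    ring

end roots

/-! ### the Euler factors -/

theorem factor_bounds (q r k w : ℝ) (hk : 4 * (k + 1) ≤ q) (hr0 : 0 ≤ r) (hr : r ≤ k)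
    (h3 : 1 + r ≤ w) (h5 : w ≤ 1 + 2 * r) :
    1 - 4 * k ^ 2 / q ^ 2 ≤ (1 - 1 / q) * (1 - w / q) / (1 - (1 + r) / q) ^ 2 ∧
    (1 - 1 / q) * (1 - w / q) / (1 - (1 + r) / q) ^ 2 ≤ 1 + 2 * k / q ∧
    (w = 1 + 2 * r → (1 - 1 / q) * (1 - w / q) / (1 - (1 + r) / q) ^ 2 ≤ 1) := by
  have hq0 : (0 : ℝ) < q := by linarith
  set u : ℝ := q - 1 - r with hu
  have hu2 : q / 2 ≤ u := by rw [hu]; linarith
  have hu0 : 0 < u := by linarith
  have e : (1 - 1 / q) * (1 - w / q) / (1 - (1 + r) / q) ^ 2 = (u + r) * (q - w) / u ^ 2 := by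
    have h1 : (1 - (1 + r) / q) = u / q := by rw [hu]; field_simp; ring
    have h2 : (1 - 1 / q) = (u + r) / q := by rw [hu]; field_simp; ring
    rw [h1, h2]
    field_simp
  rw [e]
  have hur : 0 ≤ u + r := by linarith
  have hw1 : u - r ≤ q - w := by rw [hu]; linarith
  have hw2 : q - w ≤ u := by rw [hu]; linarith
  refine ⟨?_, ?_, ?_⟩
  · rw [le_div_iff₀ (by positivity)]
    have h1 : (u + r) * (u - r) ≤ (u + r) * (q - w) := mul_le_mul_of_nonneg_left hw1 hur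
    have h2 : (1 - 4 * k ^ 2 / q ^ 2) * u ^ 2 = u ^ 2 - 4 * k ^ 2 * u ^ 2 / q ^ 2 := by
      field_simp
    rw [h2]
    have h3 : r ^ 2 ≤ 4 * k ^ 2 * u ^ 2 / q ^ 2 := by
      rw [le_div_iff₀ (by positivity)]
      have h4 : r * q ≤ 2 * k * u := by nlinarith
      have h5 : 0 ≤ r * q := by positivity
      nlinarith
    nlinarith
  · rw [div_le_iff₀ (by positivity)]
    have h1 : (u + r) * (q - w) ≤ (u + r) * u := mul_le_mul_of_nonneg_left hw2 hur
    have h2 : (1 + 2 * k / q) * u ^ 2 = u ^ 2 + 2 * k * u ^ 2 / q := by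
      field_simp
    rw [h2]
    have h3 : r * u ≤ 2 * k * u ^ 2 / q := by
      rw [le_div_iff₀ hq0]
      have h4 : r * q ≤ 2 * k * u := by nlinarith
      nlinarith
    nlinarith
  · intro hw
    rw [div_le_one (by positivity)]
    have h1 : q - w = u - r := by rw [hu, hw]; ring
    rw [h1]
    nlinarith

/-- the correlation constant -/
noncomputable def ck (z0 z : ℕ) {k : ℕ} (a Δ : Fin k → ℤ) (p p' : ℕ) : ℝ :=
  VV z0 z (![1] : Fin 1 → ℤ) ![0] *
    VV z0 z (Fin.cons 1 (Fin.append (fun j => a j * (p : ℤ)) (fun j => a j * (p' : ℤ))) :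
      Fin (k + k + 1) → ℤ) (Fin.cons 0 (Fin.append Δ Δ)) /
  VV z0 z (Fin.cons 1 a : Fin (k + 1) → ℤ) (Fin.cons 0 Δ) ^ 2

section cbound

variable {k z0 z : ℕ} {a Δ : Fin k → ℤ} (ha : ∀ j, ∀ q ∈ PP z0 z, ¬ ((q : ℤ) ∣ a j))
  (hz0 : 4 * (k + 1) ≤ z0)

theorem ck_eq {p p' : ℕ} :
    ck z0 z a Δ p p' = ∏ q ∈ PP z0 z, ((1 - 1 / (q : ℝ)) *
      (1 - (om (Fin.cons 1 (Fin.append (fun j => a j * (p : ℤ)) (fun j => a j * (p' : ℤ))) :
      Fin (k + k + 1) → ℤ) (Fin.cons 0 (Fin.append Δ Δ)) q : ℝ) / q) /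
        (1 - (om (Fin.cons 1 a : Fin (k + 1) → ℤ) (Fin.cons 0 Δ) q : ℝ) / (q : ℝ)) ^ 2) := by
  unfold ck
  rw [Finset.prod_div_distrib, Finset.prod_mul_distrib, Finset.prod_pow]
  congr 1
  congr 1
  unfold VV
  apply Finset.prod_congr rfl
  intro q hq
  rw [om1 hq]
  norm_num

open Classical in
include ha hz0 in
theorem ck_bound {p p' : ℕ} (hpp : p.Prime) (hzp : z < p) (hpp' : p'.Prime) (hzp' : z < p') :
    |ck z0 z a Δ p p' - 1| ≤ 4 * (k : ℝ) ^ 2 / z0 +
      ∑ D ∈ (PP z0 z).powerset.erase ∅,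
        if (∀ q ∈ D, ∃ x, EE a Δ q p p' x) then ∏ q ∈ D, (2 * k / (q : ℝ)) else 0 := by
  have hz00 : 0 < z0 := by omega
  have hz00' : (0 : ℝ) < z0 := by exact_mod_cast hz00
  rw [ck_eq]
  set t : ℕ → ℝ := fun q => ((1 - 1 / (q : ℝ)) *
      (1 - (om (Fin.cons 1 (Fin.append (fun j => a j * (p : ℤ)) (fun j => a j * (p' : ℤ))) :
      Fin (k + k + 1) → ℤ) (Fin.cons 0 (Fin.append Δ Δ)) q : ℝ) / q) /
        (1 - (om (Fin.cons 1 a : Fin (k + 1) → ℤ) (Fin.cons 0 Δ) q : ℝ) / (q : ℝ)) ^ 2) with ht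
  have hq10 : ∀ q ∈ PP z0 z, 4 * ((k : ℝ) + 1) ≤ q := by
    intro q hq
    have := (mem_PP.1 hq).1.1
    exact_mod_cast (by omega : 4 * (k + 1) ≤ q)
  have hk0 : (0 : ℝ) ≤ k := Nat.cast_nonneg k
  have hq0 : ∀ q ∈ PP z0 z, (0 : ℝ) < q := by
    intro q hq
    have := hq10 q hq
    linarith
  have hq1 : ∀ q ∈ PP z0 z, 4 * (k : ℝ) ^ 2 / (q : ℝ) ^ 2 ≤ 1 := by
    intro q hq
    have := hq10 q hq
    have h0 := hq0 q hq
    rw [div_le_one (by positivity)]
    nlinarith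
  have hfb : ∀ q ∈ PP z0 z, 1 - 4 * (k : ℝ) ^ 2 / (q : ℝ) ^ 2 ≤ t q ∧ t q ≤ 1 + 2 * k / (q : ℝ) ∧
      ((¬ ∃ x, EE a Δ q p p' x) → t q ≤ 1) := by
    intro q hq
    have : Fact q.Prime := ⟨(mem_PP.1 hq).2⟩
    have hqa : ∀ j, ¬ ((q : ℤ) ∣ a j) := fun j => ha j q hq
    have h3 := om_cons a Δ q hqa
    have h5 := om_big a Δ q hqa p p' (q_ndvd_p hq hpp hzp) (q_ndvd_p hq hpp' hzp')
    have hr := card_RR_le a Δ q
    simp only [ht]
    rw [h3]
    push_cast
    have hb := factor_bounds q ((RR a Δ q).card : ℝ) k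
      (om (Fin.cons 1 (Fin.append (fun j => a j * (p : ℤ)) (fun j => a j * (p' : ℤ))) :
      Fin (k + k + 1) → ℤ) (Fin.cons 0 (Fin.append Δ Δ)) q : ℝ) (hq10 q hq) (Nat.cast_nonneg _)
      (by exact_mod_cast hr)
      (by exact_mod_cast h5.1) (by exact_mod_cast h5.2.1)
    refine ⟨hb.1, hb.2.1, fun h => hb.2.2 ?_⟩
    exact_mod_cast h5.2.2 h
  have hlow : 1 - 4 * (k : ℝ) ^ 2 / (z0 : ℝ) ≤ ∏ q ∈ PP z0 z, t q := by
    calc 1 - 4 * (k : ℝ) ^ 2 / (z0 : ℝ) ≤ 1 - ∑ q ∈ PP z0 z, 4 * (k : ℝ) ^ 2 / (q : ℝ) ^ 2 := by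
          have h1 := sum_inv_sq z0 z hz00
          have h2 : ∑ q ∈ PP z0 z, 4 * (k : ℝ) ^ 2 / (q : ℝ) ^ 2 =
              4 * (k : ℝ) ^ 2 * ∑ q ∈ PP z0 z, 1 / (q : ℝ) ^ 2 := by
            rw [Finset.mul_sum]
            apply Finset.sum_congr rfl
            intro q _
            ring
          rw [h2]
          have h3 : 4 * (k : ℝ) ^ 2 / (z0 : ℝ) = 4 * (k : ℝ) ^ 2 * (1 / z0) := by ring
          rw [h3]
          have h4 := mul_le_mul_of_nonneg_left h1 (show 0 ≤ 4 * (k : ℝ) ^ 2 by positivity)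
          linarith
      _ ≤ ∏ q ∈ PP z0 z, (1 - 4 * (k : ℝ) ^ 2 / (q : ℝ) ^ 2) := by
          apply prod_ge
          intro q hq
          exact ⟨by positivity, hq1 q hq⟩
      _ ≤ ∏ q ∈ PP z0 z, t q := by
          apply Finset.prod_le_prod
          · intro q hq
            have := hq1 q hq
            linarith
          · intro q hq
            exact (hfb q hq).1
  have hup : ∏ q ∈ PP z0 z, t q ≤ 1 + ∑ D ∈ (PP z0 z).powerset.erase ∅,
        if (∀ q ∈ D, ∃ x, EE a Δ q p p' x) then ∏ q ∈ D, (2 * k / (q : ℝ)) else 0 := by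
    calc ∏ q ∈ PP z0 z, t q
        ≤ ∏ q ∈ PP z0 z, (1 + if (∃ x, EE a Δ q p p' x) then 2 * k / (q : ℝ) else 0) := by
          apply Finset.prod_le_prod
          · intro q hq
            linarith [(hfb q hq).1, hq1 q hq]
          · intro q hq
            split_ifs with h
            · exact (hfb q hq).2.1
            · have := (hfb q hq).2.2 h
              linarith
      _ = ∑ D ∈ (PP z0 z).powerset, ∏ q ∈ D,
            (if (∃ x, EE a Δ q p p' x) then 2 * k / (q : ℝ) else 0) := by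
          rw [Finset.prod_one_add]
      _ = 1 + ∑ D ∈ (PP z0 z).powerset.erase ∅, ∏ q ∈ D,
            (if (∃ x, EE a Δ q p p' x) then 2 * k / (q : ℝ) else 0) := by
          rw [← Finset.add_sum_erase _ _ (Finset.empty_mem_powerset (PP z0 z))]
          simp
      _ = 1 + ∑ D ∈ (PP z0 z).powerset.erase ∅,
        if (∀ q ∈ D, ∃ x, EE a Δ q p p' x) then ∏ q ∈ D, (2 * k / (q : ℝ)) else 0 := by
          congr 1
          apply Finset.sum_congr rfl
          intro D _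
          split_ifs with h
          · apply Finset.prod_congr rfl
            intro q hq
            rw [if_pos (h q hq)]
          · push Not at h
            obtain ⟨q, hq, hq2⟩ := h
            apply Finset.prod_eq_zero hq
            rw [if_neg]
            rintro ⟨i, hi⟩
            exact hq2 i hi
  have hs0 : 0 ≤ ∑ D ∈ (PP z0 z).powerset.erase ∅,
        if (∀ q ∈ D, ∃ x, EE a Δ q p p' x) then ∏ q ∈ D, (2 * k / (q : ℝ)) else 0 := by
    apply Finset.sum_nonneg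
    intro D _
    split_ifs
    · apply Finset.prod_nonneg
      intro q _
      positivity
    · exact le_refl _
  have h16 : 0 ≤ 4 * (k : ℝ) ^ 2 / (z0 : ℝ) := by positivity
  rw [abs_le]
  constructor <;> linarith

end cbound

/-! ### counting pairs of primes -/

open Classical in
theorem card_cover {k z0 z : ℕ} {a Δ : Fin k → ℤ} (ha : ∀ j, ∀ q ∈ PP z0 z, ¬ ((q : ℤ) ∣ a j))
    (D : Finset ℕ) (hD : D ⊆ PP z0 z) (S : Finset ℕ) (p : ℕ) (M : ℝ)
    (hM0 : 0 ≤ M)
    (hM : ∀ c : ℤ, ((S.filter (fun n : ℕ => ((∏ q ∈ D, q : ℕ) : ℤ) ∣ (n : ℤ) - c)).card : ℝ) ≤ M) :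
    ((S.filter (fun p' : ℕ => ∀ q ∈ D, ∃ x, EE a Δ q p p' x)).card : ℝ) ≤
      ((k : ℝ) ^ 2) ^ D.card * M := by
  set F : ({x // x ∈ D} → Fin k × Fin k) → Finset ℕ := fun φ =>
    S.filter (fun p' : ℕ => ∀ q : {x // x ∈ D}, EE a Δ (q : ℕ) p p' (φ q)) with hF
  have hcov : S.filter (fun p' : ℕ => ∀ q ∈ D, ∃ x, EE a Δ q p p' x) ⊆
      Finset.univ.biUnion F := by
    intro n hn
    rw [Finset.mem_filter] at hn
    have h1 : ∀ q : {x // x ∈ D}, ∃ x, EE a Δ (q : ℕ) p n x := fun q => hn.2 q q.2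
    choose φ hφ using h1
    rw [Finset.mem_biUnion]
    refine ⟨φ, Finset.mem_univ _, ?_⟩
    rw [hF, Finset.mem_filter]
    exact ⟨hn.1, hφ⟩
  have hFM : ∀ φ, ((F φ).card : ℝ) ≤ M := by
    intro φ
    by_cases hne : (F φ).Nonempty
    · obtain ⟨n0, hn0⟩ := hne
      refine le_trans ?_ (hM n0)
      have hsub : F φ ⊆ S.filter (fun n : ℕ => ((∏ q ∈ D, q : ℕ) : ℤ) ∣ (n : ℤ) - n0) := by
        intro n hn
        rw [hF, Finset.mem_filter] at hn hn0
        rw [Finset.mem_filter]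
        refine ⟨hn.1, ?_⟩
        rw [Int.natCast_dvd]
        apply Finset.prod_primes_dvd
        · intro q hq
          exact (mem_PP.1 (hD hq)).2.prime
        · intro q hq
          rw [← Int.natCast_dvd]
          have hq' := hD hq
          have hqp := (mem_PP.1 hq').2
          have hqi : Prime (q : ℤ) := Nat.prime_iff_prime_int.1 hqp
          have h1 := hn.2 ⟨q, hq⟩
          have h2 := hn0.2 ⟨q, hq⟩
          generalize φ ⟨q, hq⟩ = x at h1 h2
          have h3 := dvd_sub h1.2 h2.2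
          have h4 : (q : ℤ) ∣ (Δ x.1 * a x.2) * ((n : ℤ) - n0) := by
            have e : (Δ x.1 * a x.2) * ((n : ℤ) - n0) =
              (Δ x.1 * a x.2 * (n : ℤ) - Δ x.2 * a x.1 * p) -
                (Δ x.1 * a x.2 * (n0 : ℤ) - Δ x.2 * a x.1 * p) := by ring
            rw [e]
            exact h3
          rcases hqi.dvd_or_dvd h4 with h5 | h5
          · rcases hqi.dvd_or_dvd h5 with h6 | h6
            · exact absurd h6 h1.1
            · exact absurd h6 (ha _ q hq')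
          · exact h5
      exact_mod_cast Finset.card_le_card hsub
    · rw [Finset.not_nonempty_iff_eq_empty.1 hne]
      simpa using hM0
  calc ((S.filter (fun p' : ℕ => ∀ q ∈ D, ∃ x, EE a Δ q p p' x)).card : ℝ)
      ≤ ((Finset.univ.biUnion F).card : ℝ) := by exact_mod_cast Finset.card_le_card hcov
    _ ≤ ∑ φ, ((F φ).card : ℝ) := by exact_mod_cast Finset.card_biUnion_le
    _ ≤ ∑ _φ : ({x // x ∈ D} → Fin k × Fin k), M := Finset.sum_le_sum (fun φ _ => hFM φ)
    _ = ((k : ℝ) ^ 2) ^ D.card * M := by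
        rw [Finset.sum_const, nsmul_eq_mul, Finset.card_univ, Fintype.card_fun,
          Fintype.card_prod, Fintype.card_fin, Fintype.card_coe]
        push_cast
        ring

/-! ### the main bound -/

theorem main_bound {k z0 z : ℕ} {a Δ : Fin k → ℤ} (ha : ∀ j, ∀ q ∈ PP z0 z, ¬ ((q : ℤ) ∣ a j))
    (hz0 : 4 * k ^ 3 + 4 * (k + 1) ≤ z0) (hz : 1 ≤ z) (y : ℕ) (S : Finset ℕ) (hS : S ⊆ PP z y)
    (Y : ℝ)
    (hs : ∀ D, D ⊆ PP z0 z → ∏ q ∈ D, q ≤ z → ∀ c : ℤ,
      ((S.filter (fun n : ℕ => ((∏ q ∈ D, q : ℕ) : ℤ) ∣ (n : ℤ) - c)).card : ℝ) ≤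
        Y * ∏ q ∈ D, (1 / ((q : ℝ) - 1))) :
    ∑ p ∈ S, ∑ p' ∈ S.erase p, |ck z0 z a Δ p p' - 1| ≤
      Y ^ 2 * ((4 * (k : ℝ) ^ 2 + 8 * (k : ℝ) ^ 3) / z0) +
        (y : ℝ) ^ 2 / √z * Real.exp (3 * (2 * (k : ℝ) ^ 3)) +
        y * Real.exp (2 * (k : ℝ) ^ 3 * (1 + Real.log z)) := by
  classical
  have hk0 : (0 : ℝ) ≤ k := Nat.cast_nonneg k
  have hz0' : 4 * (k + 1) ≤ z0 := by
    have : 0 ≤ 4 * k ^ 3 := Nat.zero_le _
    omega
  have hz00 : 4 * (k : ℝ) ^ 3 + 4 * ((k : ℝ) + 1) ≤ z0 := by exact_mod_cast hz0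
  have hk3 : (0 : ℝ) ≤ (k : ℝ) ^ 3 := by positivity
  have hz04 : (4 : ℝ) ≤ z0 := by linarith
  have hz0p : (0 : ℝ) < z0 := by linarith
  have hzr : (1 : ℝ) ≤ z := by exact_mod_cast hz
  have hsz : 0 < √(z : ℝ) := Real.sqrt_pos.2 (by linarith)
  have hPY : (S.card : ℝ) ≤ Y := by
    have h := hs ∅ (Finset.empty_subset _) (by simpa using hz) 0
    simpa using h
  have hY0 : 0 ≤ Y := le_trans (by positivity) hPY
  have hPy : (S.card : ℝ) ≤ y := by
    have h1 : S.card ≤ y := by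
      calc _ ≤ (PP z y).card := Finset.card_le_card hS
        _ ≤ (Finset.Ioc z y).card := Finset.card_filter_le _ _
        _ = y - z := Nat.card_Ioc z y
        _ ≤ y := Nat.sub_le _ _
    exact_mod_cast h1
  have hq24 : ∀ q ∈ PP z0 z, (4 : ℝ) ≤ q := by
    intro q hq
    have h1 := (mem_PP.1 hq).1.1
    have h2 : (z0 : ℝ) < q := by exact_mod_cast h1
    linarith
  set B : Finset ℕ → ℝ := fun D => Y ^ 2 * ∏ q ∈ D, (4 * (k : ℝ) ^ 3 / (q : ℝ) ^ 2) +
    (y : ℝ) ^ 2 / √z * ∏ q ∈ D, (2 * (k : ℝ) ^ 3 / ((q : ℝ) * √q)) +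
      y * ∏ q ∈ D, (2 * (k : ℝ) ^ 3 / (q : ℝ)) with hB
  have hTD : ∀ D ∈ (PP z0 z).powerset.erase ∅, ∑ p ∈ S,
      ((S.filter (fun p' : ℕ => ∀ q ∈ D, ∃ x, EE a Δ q p p' x)).card : ℝ) *
        ∏ q ∈ D, (2 * k / (q : ℝ)) ≤ B D := by
    intro D hD
    have hDs : D ⊆ PP z0 z := Finset.mem_powerset.1 (Finset.mem_erase.1 hD).2
    have hqD : ∀ q ∈ D, (4 : ℝ) ≤ q := fun q hq => hq24 q (hDs hq)
    have hA1 : 0 ≤ ∏ q ∈ D, (4 * (k : ℝ) ^ 3 / (q : ℝ) ^ 2) :=
      Finset.prod_nonneg fun q _ => by positivity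
    have hA2 : 0 ≤ ∏ q ∈ D, (2 * (k : ℝ) ^ 3 / ((q : ℝ) * √q)) :=
      Finset.prod_nonneg fun q _ => by positivity
    have hA3 : 0 ≤ ∏ q ∈ D, (2 * (k : ℝ) ^ 3 / (q : ℝ)) :=
      Finset.prod_nonneg fun q _ => by positivity
    have hA4 : 0 ≤ ∏ q ∈ D, (2 * k / (q : ℝ)) := Finset.prod_nonneg fun q _ => by positivity
    by_cases hDz : ∏ q ∈ D, q ≤ z
    · have hM0 : 0 ≤ Y * ∏ q ∈ D, (1 / ((q : ℝ) - 1)) := by
        apply mul_nonneg hY0
        apply Finset.prod_nonneg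
        intro q hq
        have := hqD q hq
        apply div_nonneg (by norm_num)
        linarith
      have h1 : ∀ p ∈ S,
          ((S.filter (fun p' : ℕ => ∀ q ∈ D, ∃ x, EE a Δ q p p' x)).card : ℝ) *
            ∏ q ∈ D, (2 * k / (q : ℝ)) ≤ Y * ∏ q ∈ D, (4 * (k : ℝ) ^ 3 / (q : ℝ) ^ 2) := by
        intro p _
        have h2 := card_cover (Δ := Δ) ha D hDs S p _ hM0 (hs D hDs hDz)
        calc _ ≤ (((k : ℝ) ^ 2) ^ D.card * (Y * ∏ q ∈ D, (1 / ((q : ℝ) - 1)))) *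
              ∏ q ∈ D, (2 * k / (q : ℝ)) :=
              mul_le_mul_of_nonneg_right h2 hA4
          _ = Y * ∏ q ∈ D, ((k : ℝ) ^ 2 * (1 / ((q : ℝ) - 1)) * (2 * k / (q : ℝ))) := by
              rw [Finset.prod_mul_distrib, Finset.prod_mul_distrib, Finset.prod_const]
              ring
          _ ≤ Y * ∏ q ∈ D, (4 * (k : ℝ) ^ 3 / (q : ℝ) ^ 2) := by
              apply mul_le_mul_of_nonneg_left _ hY0
              apply Finset.prod_le_prod
              · intro q hq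
                have := hqD q hq
                have h3 : 0 < (q : ℝ) - 1 := by linarith
                positivity
              · intro q hq
                have := hqD q hq
                have h3 : 0 < (q : ℝ) - 1 := by linarith
                have h4 : 0 < (q : ℝ) := by linarith
                rw [show (k : ℝ) ^ 2 * (1 / ((q : ℝ) - 1)) * (2 * k / (q : ℝ)) =
                  2 * (k : ℝ) ^ 3 / (((q : ℝ) - 1) * q) by
                  field_simp]
                rw [div_le_div_iff₀ (by positivity) (by positivity)]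
                have h5 : (q : ℝ) ^ 2 ≤ 2 * (((q : ℝ) - 1) * q) := by nlinarith
                calc 2 * (k : ℝ) ^ 3 * (q : ℝ) ^ 2
                    ≤ 2 * (k : ℝ) ^ 3 * (2 * (((q : ℝ) - 1) * q)) :=
                      mul_le_mul_of_nonneg_left h5 (by positivity)
                  _ = 4 * (k : ℝ) ^ 3 * (((q : ℝ) - 1) * q) := by ring
      calc _ ≤ ∑ _p ∈ S, Y * ∏ q ∈ D, (4 * (k : ℝ) ^ 3 / (q : ℝ) ^ 2) := Finset.sum_le_sum h1
        _ = S.card * (Y * ∏ q ∈ D, (4 * (k : ℝ) ^ 3 / (q : ℝ) ^ 2)) := by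
            rw [Finset.sum_const, nsmul_eq_mul]
        _ ≤ Y * (Y * ∏ q ∈ D, (4 * (k : ℝ) ^ 3 / (q : ℝ) ^ 2)) :=
            mul_le_mul_of_nonneg_right hPY (by positivity)
        _ = Y ^ 2 * ∏ q ∈ D, (4 * (k : ℝ) ^ 3 / (q : ℝ) ^ 2) := by ring
        _ ≤ B D := by
            rw [hB]
            have h5 : 0 ≤ (y : ℝ) ^ 2 / √z * ∏ q ∈ D, (2 * (k : ℝ) ^ 3 / ((q : ℝ) * √q)) := by
              positivity
            have h6 : 0 ≤ (y : ℝ) * ∏ q ∈ D, (2 * (k : ℝ) ^ 3 / (q : ℝ)) := by positivity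
            simp only
            linarith
    · push Not at hDz
      have hd0 : 0 < ∏ q ∈ D, q := by omega
      have hd0' : (0 : ℝ) < ((∏ q ∈ D, q : ℕ) : ℝ) := by exact_mod_cast hd0
      have hM : ∀ c : ℤ, ((S.filter
          (fun n : ℕ => ((∏ q ∈ D, q : ℕ) : ℤ) ∣ (n : ℤ) - c)).card : ℝ) ≤
          (y : ℝ) / ((∏ q ∈ D, q : ℕ) : ℝ) + 1 := by
        intro c
        apply card_triv S y _ _ hd0
        intro n hn
        have := mem_PP.1 (hS hn)
        exact ⟨this.2.pos, this.1.2⟩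
      have h1 : ∀ p ∈ S,
          ((S.filter (fun p' : ℕ => ∀ q ∈ D, ∃ x, EE a Δ q p p' x)).card : ℝ) *
            ∏ q ∈ D, (2 * k / (q : ℝ)) ≤ y * ∏ q ∈ D, (2 * (k : ℝ) ^ 3 / (q : ℝ) ^ 2) +
              ∏ q ∈ D, (2 * (k : ℝ) ^ 3 / (q : ℝ)) := by
        intro p _
        have h2 := card_cover (Δ := Δ) ha D hDs S p _ (by positivity) hM
        calc _ ≤ (((k : ℝ) ^ 2) ^ D.card * ((y : ℝ) / ((∏ q ∈ D, q : ℕ) : ℝ) + 1)) *
                ∏ q ∈ D, (2 * k / (q : ℝ)) := mul_le_mul_of_nonneg_right h2 hA4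
          _ = y * ((∏ q ∈ D, ((k : ℝ) ^ 2 * (2 * k / (q : ℝ)))) * (∏ q ∈ D, (q : ℝ))⁻¹) +
              ∏ q ∈ D, ((k : ℝ) ^ 2 * (2 * k / (q : ℝ))) := by
              rw [Finset.prod_mul_distrib, Finset.prod_const]
              push_cast
              ring
          _ = _ := by
              rw [← Finset.prod_inv_distrib, ← Finset.prod_mul_distrib]
              congr 1
              · congr 1
                apply Finset.prod_congr rfl
                intro q hq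
                have := hqD q hq
                have h4 : (q : ℝ) ≠ 0 := by linarith
                field_simp
              · apply Finset.prod_congr rfl
                intro q hq
                ring
      have hsq : ∏ q ∈ D, (2 * (k : ℝ) ^ 3 / (q : ℝ) ^ 2) ≤
          1 / √z * ∏ q ∈ D, (2 * (k : ℝ) ^ 3 / ((q : ℝ) * √q)) := by
        have h2 : ∏ q ∈ D, (2 * (k : ℝ) ^ 3 / (q : ℝ) ^ 2) =
            (∏ q ∈ D, √(q : ℝ))⁻¹ * ∏ q ∈ D, (2 * (k : ℝ) ^ 3 / ((q : ℝ) * √q)) := by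
          rw [← Finset.prod_inv_distrib, ← Finset.prod_mul_distrib]
          apply Finset.prod_congr rfl
          intro q hq
          have := hqD q hq
          have h4 : (q : ℝ) ≠ 0 := by linarith
          have h5 : √(q : ℝ) ≠ 0 := (Real.sqrt_pos.2 (by linarith)).ne'
          have h6 : √(q : ℝ) * √(q : ℝ) = q := Real.mul_self_sqrt (by linarith)
          rw [eq_comm, ← div_eq_inv_mul, div_div, mul_assoc, h6, sq]
        rw [h2]
        apply mul_le_mul_of_nonneg_right _ hA2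
        rw [one_div]
        apply inv_anti₀ hsz
        rw [Real.sqrt_le_iff]
        refine ⟨Finset.prod_nonneg fun q _ => Real.sqrt_nonneg _, ?_⟩
        rw [← Finset.prod_pow]
        have h3 : ∏ q ∈ D, √(q : ℝ) ^ 2 = ((∏ q ∈ D, q : ℕ) : ℝ) := by
          push_cast
          apply Finset.prod_congr rfl
          intro q _
          exact Real.sq_sqrt (by positivity)
        rw [h3]
        exact_mod_cast hDz.le
      calc _ ≤ ∑ _p ∈ S, ((y : ℝ) * ∏ q ∈ D, (2 * (k : ℝ) ^ 3 / (q : ℝ) ^ 2) +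
              ∏ q ∈ D, (2 * (k : ℝ) ^ 3 / (q : ℝ))) := Finset.sum_le_sum h1
        _ = (S.card : ℝ) * ((y : ℝ) * ∏ q ∈ D, (2 * (k : ℝ) ^ 3 / (q : ℝ) ^ 2) +
              ∏ q ∈ D, (2 * (k : ℝ) ^ 3 / (q : ℝ))) := by
            rw [Finset.sum_const, nsmul_eq_mul]
        _ ≤ (y : ℝ) * ((y : ℝ) * (1 / √z * ∏ q ∈ D, (2 * (k : ℝ) ^ 3 / ((q : ℝ) * √q))) +
              ∏ q ∈ D, (2 * (k : ℝ) ^ 3 / (q : ℝ))) := by
            apply mul_le_mul hPy _ _ (by positivity)
            · have := mul_le_mul_of_nonneg_left hsq (Nat.cast_nonneg (α := ℝ) y)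
              linarith
            · have h7 : 0 ≤ ∏ q ∈ D, (2 * (k : ℝ) ^ 3 / (q : ℝ) ^ 2) :=
                Finset.prod_nonneg fun q _ => by positivity
              positivity
        _ = (y : ℝ) ^ 2 / √z * ∏ q ∈ D, (2 * (k : ℝ) ^ 3 / ((q : ℝ) * √q)) +
              y * ∏ q ∈ D, (2 * (k : ℝ) ^ 3 / (q : ℝ)) := by ring
        _ ≤ B D := by
            rw [hB]
            have h5 : 0 ≤ Y ^ 2 * ∏ q ∈ D, (4 * (k : ℝ) ^ 3 / (q : ℝ) ^ 2) := by positivity
            simp only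
            linarith
  -- the sum of the bounds
  have hsum : ∑ D ∈ (PP z0 z).powerset.erase ∅, B D ≤ Y ^ 2 * (8 * (k : ℝ) ^ 3 / z0) +
      (y : ℝ) ^ 2 / √z * Real.exp (3 * (2 * (k : ℝ) ^ 3)) +
        y * Real.exp (2 * (k : ℝ) ^ 3 * (1 + Real.log z)) := by
    have e1 : ∑ D ∈ (PP z0 z).powerset.erase ∅, ∏ q ∈ D, (4 * (k : ℝ) ^ 3 / (q : ℝ) ^ 2) ≤
        8 * (k : ℝ) ^ 3 / (z0 : ℝ) := by
      have h1 : ∑ q ∈ PP z0 z, 4 * (k : ℝ) ^ 3 / (q : ℝ) ^ 2 ≤ 4 * (k : ℝ) ^ 3 / (z0 : ℝ) := by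
        have h2 := sum_inv_sq z0 z (by omega)
        have h3 : ∑ q ∈ PP z0 z, 4 * (k : ℝ) ^ 3 / (q : ℝ) ^ 2 =
            4 * (k : ℝ) ^ 3 * ∑ q ∈ PP z0 z, 1 / (q : ℝ) ^ 2 := by
          rw [Finset.mul_sum]
          apply Finset.sum_congr rfl
          intro q _
          ring
        rw [h3, show 4 * (k : ℝ) ^ 3 / (z0 : ℝ) = 4 * (k : ℝ) ^ 3 * (1 / z0) by ring]
        exact mul_le_mul_of_nonneg_left h2 (by positivity)
      have h2 := sum_prod_le (PP z0 z) (fun q => 4 * (k : ℝ) ^ 3 / (q : ℝ) ^ 2)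
        (fun q _ => by positivity) _ h1
      rw [← Finset.add_sum_erase _ _ (Finset.empty_mem_powerset (PP z0 z)),
        Finset.prod_empty] at h2
      have h3 := exp_sub_one_le (4 * (k : ℝ) ^ 3 / (z0 : ℝ)) (by positivity) (by
        rw [div_le_one (by linarith)]
        linarith)
      have h4 : 2 * (4 * (k : ℝ) ^ 3 / (z0 : ℝ)) = 8 * (k : ℝ) ^ 3 / z0 := by ring
      linarith
    have e2 : ∑ D ∈ (PP z0 z).powerset.erase ∅, ∏ q ∈ D, (2 * (k : ℝ) ^ 3 / ((q : ℝ) * √q)) ≤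
        Real.exp (3 * (2 * (k : ℝ) ^ 3)) := by
      have h1 : ∑ q ∈ PP z0 z, 2 * (k : ℝ) ^ 3 / ((q : ℝ) * √q) ≤ 3 * (2 * (k : ℝ) ^ 3) := by
        have h2 := sum_sqrt z0 z
        have h3 : ∑ q ∈ PP z0 z, 2 * (k : ℝ) ^ 3 / ((q : ℝ) * √q) =
            2 * (k : ℝ) ^ 3 * ∑ q ∈ PP z0 z, 1 / ((q : ℝ) * √q) := by
          rw [Finset.mul_sum]
          apply Finset.sum_congr rfl
          intro q _
          ring
        rw [h3]
        have h4 := mul_le_mul_of_nonneg_left h2 (show 0 ≤ 2 * (k : ℝ) ^ 3 by positivity)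
        linarith
      have h2 := sum_prod_le (PP z0 z) (fun q => 2 * (k : ℝ) ^ 3 / ((q : ℝ) * √q))
        (fun q _ => by positivity) _ h1
      refine le_trans ?_ h2
      apply Finset.sum_le_sum_of_subset_of_nonneg (Finset.erase_subset _ _)
      intro D _ _
      exact Finset.prod_nonneg fun q _ => by positivity
    have e3 : ∑ D ∈ (PP z0 z).powerset.erase ∅, ∏ q ∈ D, (2 * (k : ℝ) ^ 3 / (q : ℝ)) ≤
        Real.exp (2 * (k : ℝ) ^ 3 * (1 + Real.log z)) := by
      have h1 : ∑ q ∈ PP z0 z, 2 * (k : ℝ) ^ 3 / (q : ℝ) ≤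
          2 * (k : ℝ) ^ 3 * (1 + Real.log z) := by
        have h2 := sum_inv z0 z
        have h3 : ∑ q ∈ PP z0 z, 2 * (k : ℝ) ^ 3 / (q : ℝ) =
            2 * (k : ℝ) ^ 3 * ∑ q ∈ PP z0 z, 1 / (q : ℝ) := by
          rw [Finset.mul_sum]
          apply Finset.sum_congr rfl
          intro q _
          ring
        rw [h3]
        exact mul_le_mul_of_nonneg_left h2 (by positivity)
      have h2 := sum_prod_le (PP z0 z) (fun q => 2 * (k : ℝ) ^ 3 / (q : ℝ))
        (fun q _ => by positivity) _ h1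
      refine le_trans ?_ h2
      apply Finset.sum_le_sum_of_subset_of_nonneg (Finset.erase_subset _ _)
      intro D _ _
      exact Finset.prod_nonneg fun q _ => by positivity
    simp only [hB]
    rw [Finset.sum_add_distrib, Finset.sum_add_distrib, ← Finset.mul_sum, ← Finset.mul_sum,
      ← Finset.mul_sum]
    have f1 := mul_le_mul_of_nonneg_left e1 (sq_nonneg Y)
    have f2 := mul_le_mul_of_nonneg_left e2 (show 0 ≤ (y : ℝ) ^ 2 / √z by positivity)
    have f3 := mul_le_mul_of_nonneg_left e3 (Nat.cast_nonneg (α := ℝ) y)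
    linarith
  -- assembly
  have hcc : ∀ p ∈ S, ∀ p' ∈ S, |ck z0 z a Δ p p' - 1| ≤ 4 * (k : ℝ) ^ 2 / z0 +
      ∑ D ∈ (PP z0 z).powerset.erase ∅,
        if (∀ q ∈ D, ∃ x, EE a Δ q p p' x) then ∏ q ∈ D, (2 * k / (q : ℝ)) else 0 := by
    intro p hp p' hp'
    have h1 := mem_PP.1 (hS hp)
    have h2 := mem_PP.1 (hS hp')
    convert ck_bound ha hz0' (Δ := Δ) h1.2 h1.1.1 h2.2 h2.1.1 using 1
  calc ∑ p ∈ S, ∑ p' ∈ S.erase p, |ck z0 z a Δ p p' - 1|
      ≤ ∑ p ∈ S, ∑ p' ∈ S, |ck z0 z a Δ p p' - 1| := by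
        apply Finset.sum_le_sum
        intro p _
        apply Finset.sum_le_sum_of_subset_of_nonneg (Finset.erase_subset _ _)
        intro _ _ _
        exact abs_nonneg _
    _ ≤ ∑ p ∈ S, ∑ p' ∈ S, (4 * (k : ℝ) ^ 2 / z0 +
          ∑ D ∈ (PP z0 z).powerset.erase ∅,
          if (∀ q ∈ D, ∃ x, EE a Δ q p p' x) then ∏ q ∈ D, (2 * k / (q : ℝ)) else 0) :=
        Finset.sum_le_sum fun p hp => Finset.sum_le_sum fun p' hp' => hcc p hp p' hp'
    _ = (S.card : ℝ) ^ 2 * (4 * (k : ℝ) ^ 2 / z0) + ∑ D ∈ (PP z0 z).powerset.erase ∅, ∑ p ∈ S,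
          ((S.filter (fun p' : ℕ => ∀ q ∈ D, ∃ x, EE a Δ q p p' x)).card : ℝ) *
          ∏ q ∈ D, (2 * k / (q : ℝ)) := by
        simp_rw [Finset.sum_add_distrib, Finset.sum_const, nsmul_eq_mul]
        congr 1
        · ring
        · rw [Finset.sum_congr rfl (fun p _ => Finset.sum_comm), Finset.sum_comm]
          apply Finset.sum_congr rfl
          intro D _
          apply Finset.sum_congr rfl
          intro p _
          rw [← Finset.sum_filter, Finset.sum_const, nsmul_eq_mul]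
    _ ≤ Y ^ 2 * (4 * (k : ℝ) ^ 2 / z0) + ∑ D ∈ (PP z0 z).powerset.erase ∅, B D := by
        apply add_le_add
        · apply mul_le_mul_of_nonneg_right _ (by positivity)
          exact pow_le_pow_left₀ (by positivity) hPY 2
        · exact Finset.sum_le_sum hTD
    _ ≤ _ := by
        have h16 : Y ^ 2 * ((4 * (k : ℝ) ^ 2 + 8 * (k : ℝ) ^ 3) / (z0 : ℝ)) =
          Y ^ 2 * (4 * (k : ℝ) ^ 2 / z0) + Y ^ 2 * (8 * (k : ℝ) ^ 3 / z0) := by ring
        rw [h16]
        linarith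

/-! ### lower bound for the density -/

theorem V_ge (z0 z : ℕ) (hz0 : 10 ≤ z0) (hz : z0 ≤ z) :
    Real.exp (-10) / Real.log z ^ 2 ≤ VV z0 z (![1] : Fin 1 → ℤ) ![0] := by
  have hz0r : (10 : ℝ) ≤ z0 := by exact_mod_cast hz0
  have hzr : (z0 : ℝ) ≤ z := by exact_mod_cast hz
  have hl0 : 2 ≤ Real.log z0 := by
    have h1 : Real.exp 2 ≤ 10 := by
      have h := Real.exp_one_lt_d9
      have h2 : Real.exp 2 = Real.exp 1 * Real.exp 1 := by rw [← Real.exp_add]; norm_num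
      rw [h2]
      nlinarith [Real.exp_pos 1]
    rw [Real.le_log_iff_exp_le (by linarith)]
    linarith
  have hlz : Real.log z0 ≤ Real.log z := Real.log_le_log (by linarith) hzr
  have hb := Pool.Agent.Lib.MP_973905_nt.PrimeSum.range_bound (z0 : ℝ) (z : ℝ) (by linarith) hzr
  have hPS : Pool.Agent.Lib.MP_973905_nt.PS (z0 : ℝ) (z : ℝ) = PP z0 z := by
    unfold Pool.Agent.Lib.MP_973905_nt.PS PP
    rw [Nat.floor_natCast, Nat.floor_natCast]
  rw [hPS] at hb
  have h10 : 10 / Real.log z0 ≤ 5 := by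
    rw [div_le_iff₀ (by linarith)]
    linarith
  have h1 := (abs_le.1 hb).2
  have hlogle : Real.log (Real.log z / Real.log z0) ≤ Real.log (Real.log z) := by
    apply Real.log_le_log (div_pos (by linarith) (by linarith))
    exact div_le_self (by linarith) (by linarith)
  have hS : ∑ q ∈ PP z0 z, (1 : ℝ) / q ≤ Real.log (Real.log z) + 5 := by linarith
  rw [V_eq]
  calc Real.exp (-10) / Real.log z ^ 2 = Real.exp (-10 - 2 * Real.log (Real.log z)) := by
        rw [Real.exp_sub]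
        congr 1
        rw [show 2 * Real.log (Real.log z) = ((2 : ℕ) : ℝ) * Real.log (Real.log z) by norm_num,
          ← Real.log_pow, Real.exp_log (pow_pos (by linarith) 2)]
    _ ≤ Real.exp (-(2 * ∑ q ∈ PP z0 z, (1 : ℝ) / q)) := by
        apply Real.exp_le_exp.2
        linarith
    _ = ∏ q ∈ PP z0 z, Real.exp (-(2 * (1 / (q : ℝ)))) := by
        rw [← Real.exp_sum, Finset.sum_neg_distrib, Finset.mul_sum]
    _ ≤ ∏ q ∈ PP z0 z, (1 - 1 / (q : ℝ)) := by
        apply Finset.prod_le_prod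
        · intro q _
          positivity
        · intro q hq
          have h1 := (mem_PP.1 hq).2.two_le
          have h2 : (2 : ℝ) ≤ q := by exact_mod_cast h1
          set x : ℝ := 1 / (q : ℝ) with hx
          have hx0 : 0 < x := by positivity
          have hx1 : x ≤ 1 / 2 := by
            rw [hx]
            apply one_div_le_one_div_of_le (by norm_num) h2
          have h3 := Real.add_one_le_exp (2 * x)
          rw [Real.exp_neg]
          rw [inv_le_comm₀ (Real.exp_pos _) (by linarith)]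
          refine le_trans ?_ h3
          rw [inv_le_iff_one_le_mul₀ (by linarith)]
          nlinarith

theorem V_le_one (z0 z : ℕ) : VV z0 z (![1] : Fin 1 → ℤ) ![0] ≤ 1 := by
  rw [V_eq]
  apply Finset.prod_le_one
  · intro q hq
    have h1 := (mem_PP.1 hq).2.two_le
    have h2 : (2 : ℝ) ≤ q := by exact_mod_cast h1
    have : 1 / (q : ℝ) ≤ 1 := by
      rw [div_le_one (by linarith)]
      linarith
    linarith
  · intro q hq
    have : 0 ≤ 1 / (q : ℝ) := by positivity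
    linarith

/-! ### the sieve in a residue class -/

theorem count_le (hC : CorerStmt) : ∃ s0 zs : ℕ, ∀ z0 : ℕ, zs ≤ z0 → ∀ z : ℕ, z0 ≤ z →
    ∀ W : ℕ, 0 < W → (∀ q ∈ PP z0 z, ¬ q ∣ W) → ∀ (cl : ℤ) (y : ℕ) (D : Finset ℕ),
    D ⊆ PP z0 z → ∀ c : ℤ,
      (((((PP z y).filter (fun p : ℕ => (W : ℤ) ∣ (p : ℤ) - cl)).filter
        (fun n : ℕ => ((∏ q ∈ D, q : ℕ) : ℤ) ∣ (n : ℤ) - c)).card : ℕ) : ℝ) ≤
      (3 / 2) * (((y : ℝ) / (((∏ q ∈ D, q : ℕ) : ℝ) * W) + 2) *
        ∏ q ∈ PP z0 z, (if q ∈ D then 1 else 1 - 1 / (q : ℝ))) + (z : ℝ) ^ (s0 * 2) := by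
  classical
  obtain ⟨s0, zs, hC⟩ := hC 1
  refine ⟨s0, zs, ?_⟩
  intro z0 hz0 z hz W hW hqW cl y D hD c
  set d : ℕ := ∏ q ∈ D, q with hd
  have hd0 : 0 < d := Finset.prod_pos fun q hq => (mem_PP.1 (hD hq)).2.pos
  set T := ((PP z y).filter (fun p : ℕ => (W : ℤ) ∣ (p : ℤ) - cl)).filter
        (fun n : ℕ => (d : ℤ) ∣ (n : ℤ) - c) with hT
  have hPi0 : 0 ≤ ∏ q ∈ PP z0 z, (if q ∈ D then (1 : ℝ) else 1 - 1 / (q : ℝ)) := by
    apply Finset.prod_nonneg
    intro q hq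
    split_ifs
    · norm_num
    · have h1 := (mem_PP.1 hq).2.two_le
      have h2 : (2 : ℝ) ≤ q := by exact_mod_cast h1
      have : 1 / (q : ℝ) ≤ 1 := by
        rw [div_le_one (by linarith)]
        linarith
      linarith
  by_cases hne : T.Nonempty
  swap
  · rw [Finset.not_nonempty_iff_eq_empty.1 hne]
    simp only [Finset.card_empty, Nat.cast_zero]
    positivity
  obtain ⟨n0, hn0⟩ := hne
  set M : ℕ := d * W with hM
  have hM0 : 0 < M := Nat.mul_pos hd0 hW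
  have hM0' : (0 : ℤ) < M := by exact_mod_cast hM0
  have hcop : IsCoprime (d : ℤ) (W : ℤ) := by
    rw [Nat.isCoprime_iff_coprime, hd]
    apply Nat.Coprime.prod_left
    intro q hq
    exact ((mem_PP.1 (hD hq)).2.coprime_iff_not_dvd).2 (hqW q (hD hq))
  have hqM : ∀ q ∈ PP z0 z, q ∉ D → ¬ ((q : ℤ) ∣ (M : ℤ)) := by
    intro q hq hqD h
    have hqp := (mem_PP.1 hq).2
    rw [Int.natCast_dvd_natCast, hM, hqp.dvd_mul] at h
    rcases h with h | h
    · rw [hd, hqp.prime.dvd_finsetProd_iff] at h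
      obtain ⟨r, hr, hqr⟩ := h
      rw [(Nat.prime_dvd_prime_iff_eq hqp (mem_PP.1 (hD hr)).2).1 hqr] at hqD
      exact hqD hr
    · exact hqW q hq h
  obtain ⟨bad, hbad⟩ : ∃ bad : ℕ → ℤ → Prop, bad = fun q m => q ∉ D ∧ (q : ℤ) ∣ (M : ℤ) * m + n0 :=
    ⟨_, rfl⟩
  have hbadp : ∀ q ∈ PP z0 z, ∀ n m : ℤ, (q : ℤ) ∣ n - m → (bad q n ↔ bad q m) := by
    intro q _ n m h
    have h1 : (q : ℤ) ∣ ((M : ℤ) * n + n0) - ((M : ℤ) * m + n0) := by
      have e : ((M : ℤ) * n + n0) - ((M : ℤ) * m + n0) = (M : ℤ) * (n - m) := by ring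
      rw [e]
      exact Dvd.dvd.mul_left h _
    have h2 := (Int.dvd_iff_dvd_of_dvd_sub h1)
    rw [hbad]
    show (q ∉ D ∧ _) ↔ (q ∉ D ∧ _)
    rw [h2]
  have hroots : ∀ q ∈ PP z0 z, ∀ inst : DecidablePred (fun r : ℕ => bad q (r : ℤ)),
      (@Finset.filter ℕ (fun r : ℕ => bad q (r : ℤ)) inst (range q)).card =
        if q ∈ D then 0 else 1 := by
    subst hbad
    intro q hq inst
    have : Fact q.Prime := ⟨(mem_PP.1 hq).2⟩
    split_ifs with hqD
    · rw [Finset.card_eq_zero, Finset.filter_eq_empty_iff]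
      intro r _ h
      exact h.1 hqD
    · have h1 : om (![(M : ℤ)] : Fin 1 → ℤ) ![(n0 : ℤ)] q = 1 := by
        rw [om_eq _ _ q (by
          intro j
          fin_cases j
          exact hqM q hq hqD)]
        rw [Finset.univ_unique, Finset.image_singleton, Finset.card_singleton]
      rw [← h1]
      unfold om
      congr 1
      apply Finset.filter_congr
      intro r _
      constructor
      · rintro ⟨_, h⟩
        exact ⟨0, h⟩
      · rintro ⟨j, h⟩
        refine ⟨hqD, ?_⟩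
        fin_cases j
        exact h
  have hkey := hC 1 z0 hz0 z hz bad hbadp (by
    intro q hq
    rw [hroots q hq]
    split_ifs <;> omega) 1 one_pos (by
    intro q hq h
    have h1 := (mem_PP.1 hq).2.one_lt
    have h2 := Nat.le_of_dvd one_pos h
    omega) 0 ((-(n0 : ℤ)) / M) (y / M + 2)
  have hprod : ∏ q ∈ PP z0 z,
      (1 - ((((range q).filter (fun r : ℕ => bad q r)).card : ℕ) : ℝ) / q) =
      ∏ q ∈ PP z0 z, (if q ∈ D then (1 : ℝ) else 1 - 1 / (q : ℝ)) := by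
    apply Finset.prod_congr rfl
    intro q hq
    rw [hroots q hq]
    split_ifs
    · simp
    · simp
  rw [hprod] at hkey
  set Pi0 := ∏ q ∈ PP z0 z, (if q ∈ D then (1 : ℝ) else 1 - 1 / (q : ℝ)) with hPi
  set u : ℤ := (-(n0 : ℤ)) / M with hu
  have hcard : ∀ s : Finset ℤ, (∀ m : ℤ, m ∈ s ↔ (m ∈ Ioc u (u + ((y / M + 2 : ℕ) : ℤ)) ∧
      ((1 : ℕ) : ℤ) ∣ m - 0 ∧ ∀ q ∈ PP z0 z, ¬ bad q m)) → T.card ≤ s.card := by
    intro s hs
    apply Finset.card_le_card_of_injOn (fun n : ℕ => ((n : ℤ) - n0) / M)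
    · intro n hn
      rw [Finset.mem_coe, hT, Finset.mem_filter, Finset.mem_filter] at hn
      have hn0' := hn0
      rw [hT, Finset.mem_filter, Finset.mem_filter] at hn0'
      have hMd : (M : ℤ) ∣ (n : ℤ) - n0 := by
        rw [hM]
        push_cast
        apply hcop.mul_dvd
        · have := dvd_sub hn.2 hn0'.2
          rwa [sub_sub_sub_cancel_right] at this
        · have := dvd_sub hn.1.2 hn0'.1.2
          rwa [sub_sub_sub_cancel_right] at this
      have hm : (M : ℤ) * (((n : ℤ) - n0) / M) = (n : ℤ) - n0 := Int.mul_ediv_cancel' hMd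
      obtain ⟨⟨hzn, hny⟩, hnp⟩ := mem_PP.1 hn.1.1
      rw [Finset.mem_coe, hs, Finset.mem_Ioc]
      refine ⟨⟨?_, ?_⟩, ?_, ?_⟩
      · have h1 : (M : ℤ) * u ≤ -(n0 : ℤ) := Int.mul_ediv_self_le hM0'.ne'
        have h2 : (M : ℤ) * u < (M : ℤ) * (((n : ℤ) - n0) / M) := by
          rw [hm]
          have h3 : (0 : ℤ) < n := by exact_mod_cast hnp.pos
          linarith
        exact lt_of_mul_lt_mul_left h2 hM0'.le
      · have h1 : -(n0 : ℤ) < (M : ℤ) * u + M := Int.lt_mul_ediv_self_add hM0'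
        have h2 : (y : ℤ) < (M : ℤ) * ((y / M : ℕ) : ℤ) + M := by
          have h3 := Nat.lt_mul_div_succ y hM0
          rw [Nat.mul_succ] at h3
          exact_mod_cast h3
        have h3 : (n : ℤ) ≤ y := by exact_mod_cast hny
        have h4 : (M : ℤ) * (((n : ℤ) - n0) / M) < (M : ℤ) * (u + ((y / M + 2 : ℕ) : ℤ)) := by
          rw [hm]
          push_cast
          push_cast at h2
          nlinarith
        exact (lt_of_mul_lt_mul_left h4 hM0'.le).le
      · simp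
      · intro q hq hb
        rw [hbad] at hb
        have h1 := hb.2
        simp only at h1
        rw [hm, sub_add_cancel] at h1
        exact q_ndvd_p hq hnp hzn h1
    · intro n hn m hm' h
      rw [Finset.mem_coe, hT, Finset.mem_filter, Finset.mem_filter] at hn hm'
      have hn0' := hn0
      rw [hT, Finset.mem_filter, Finset.mem_filter] at hn0'
      have hMd : ∀ n : ℕ, (d : ℤ) ∣ (n : ℤ) - c → (W : ℤ) ∣ (n : ℤ) - cl →
          (M : ℤ) * (((n : ℤ) - n0) / M) = (n : ℤ) - n0 := by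
        intro n h1 h2
        apply Int.mul_ediv_cancel'
        rw [hM]
        push_cast
        apply hcop.mul_dvd
        · have := dvd_sub h1 hn0'.2
          rwa [sub_sub_sub_cancel_right] at this
        · have := dvd_sub h2 hn0'.1.2
          rwa [sub_sub_sub_cancel_right] at this
      have h1 := hMd n hn.2 hn.1.2
      have h2 := hMd m hm'.2 hm'.1.2
      simp only at h
      rw [h, h2] at h1
      have : (n : ℤ) = m := by linarith
      exact_mod_cast this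
  have hH : (((y / M + 2 : ℕ) : ℕ) : ℝ) ≤ (y : ℝ) / ((d : ℝ) * W) + 2 := by
    have h1 : ((y / M : ℕ) : ℝ) ≤ (y : ℝ) / (M : ℝ) := Nat.cast_div_le
    rw [hM] at h1
    push_cast at h1 ⊢
    rw [hM]
    linarith
  have hk2 := (abs_le.1 hkey).2
  have hHP := mul_le_mul_of_nonneg_right hH hPi0
  have hcard' := hcard _ (fun m => Finset.mem_filter.trans (Iff.rfl))
  have hcard'' : (T.card : ℝ) ≤ _ := Nat.cast_le.2 hcard'
  have e1 : ((y / M + 2 : ℕ) : ℝ) / ((1 : ℕ) : ℝ) = ((y / M + 2 : ℕ) : ℝ) := by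
    rw [Nat.cast_one, div_one]
  rw [e1, pow_one] at hk2
  calc (T.card : ℝ) ≤ _ := hcard''
    _ ≤ (((y / M + 2 : ℕ) : ℕ) : ℝ) * Pi0 + (1 / 2 * ((((y / M + 2 : ℕ) : ℕ) : ℝ) * Pi0) +
          (z : ℝ) ^ (s0 * (1 + 1))) := by
        linarith
    _ ≤ _ := by
        have e : s0 * (1 + 1) = s0 * 2 := by ring
        rw [e]
        linarith

theorem prod_split (z0 z : ℕ) (D : Finset ℕ) (hD : D ⊆ PP z0 z) :
    ∏ q ∈ PP z0 z, (if q ∈ D then (1 : ℝ) else 1 - 1 / (q : ℝ)) =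
      VV z0 z (![1] : Fin 1 → ℤ) ![0] * ∏ q ∈ D, ((q : ℝ) / ((q : ℝ) - 1)) := by
  classical
  rw [V_eq]
  have h1 : ∏ q ∈ D, ((q : ℝ) / ((q : ℝ) - 1)) =
      ∏ q ∈ PP z0 z, (if q ∈ D then ((q : ℝ) / ((q : ℝ) - 1)) else 1) := by
    rw [Finset.prod_ite_mem, Finset.inter_eq_right.2 hD]
  rw [h1, ← Finset.prod_mul_distrib]
  apply Finset.prod_congr rfl
  intro q hq
  have h2 := (mem_PP.1 hq).2.two_le
  have h3 : (2 : ℝ) ≤ q := by exact_mod_cast h2
  split_ifs
  · have h4 : (q : ℝ) ≠ 0 := by linarith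
    have h5 : (q : ℝ) - 1 ≠ 0 := by linarith
    field_simp
  · rw [mul_one]

theorem ev_log_four (K ε : ℝ) (hε : 0 < ε) :
    ∃ n0 : ℕ, ∀ n : ℕ, n0 ≤ n → K * Real.log n ^ 4 ≤ ε * √n := by
  have h := (Real.isLittleO_pow_log_id_atTop (n := 8)).bound
    (show 0 < (ε / (|K| + 1)) ^ 2 by positivity)
  have h2 := tendsto_natCast_atTop_atTop (R := ℝ) |>.eventually h
  obtain ⟨n0, hn0⟩ := Filter.eventually_atTop.1 h2
  refine ⟨n0, fun n hn => ?_⟩
  have h3 := hn0 n hn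
  simp only [id, Real.norm_eq_abs, Nat.abs_cast] at h3
  rw [abs_of_nonneg (by positivity)] at h3
  have h4 : Real.log n ^ 4 ≤ ε / (|K| + 1) * √n := by
    rw [← pow_le_pow_iff_left₀ (by positivity) (by positivity) (show (2 : ℕ) ≠ 0 by norm_num)]
    rw [mul_pow, Real.sq_sqrt (by positivity), ← pow_mul]
    exact h3
  calc K * Real.log n ^ 4 ≤ (|K| + 1) * Real.log n ^ 4 := by
        apply mul_le_mul_of_nonneg_right _ (by positivity)
        linarith [le_abs_self K]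
    _ ≤ (|K| + 1) * (ε / (|K| + 1) * √n) := mul_le_mul_of_nonneg_left h4 (by positivity)
    _ = ε * √n := by field_simp

theorem s5k_98 (hCor : CorerStmt) : S5kStmt := by
  classical
  intro k
  obtain ⟨s0, zs0, hcount⟩ := count_le hCor
  refine ⟨2 * s0 + 2 * k ^ 3 + 6, ?_⟩
  intro ε hε
  obtain ⟨n1, hn1⟩ := exists_nat_ge ((9 * (4 * (k : ℝ) ^ 2 + 8 * (k : ℝ) ^ 3)) / (ε / 2))
  refine ⟨max (max zs0 (4 * k ^ 3 + 4 * (k + 1) + 10)) n1, ?_⟩
  intro z0 hz0 C C0
  have hz0a : zs0 ≤ z0 := le_trans (le_trans (le_max_left _ _) (le_max_left _ _)) hz0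
  have hz0b : 4 * k ^ 3 + 4 * (k + 1) + 10 ≤ z0 :=
    le_trans (le_trans (le_max_right _ _) (le_max_left _ _)) hz0
  have hz0c : n1 ≤ z0 := le_trans (le_max_right _ _) hz0
  set K1 : ℝ := Real.exp (3 * (2 * (k : ℝ) ^ 3)) + Real.exp (2 * (k : ℝ) ^ 3) with hK1
  have hK10 : 0 < K1 := by positivity
  obtain ⟨n2, hn2⟩ := ev_log_four (K1 * (C0 : ℝ) ^ 2 * Real.exp 20) (ε / 2) (by positivity)
  obtain ⟨n3, hn3⟩ := ev_log_sq (Real.exp 10) 1 one_pos
  refine ⟨max (max (max z0 C0) n2) n3, ?_⟩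
  intro z hz a Δ ha W hW hWC hqW cl y hy1 hy2
  have hza : z0 ≤ z :=
    le_trans (le_trans (le_trans (le_max_left _ _) (le_max_left _ _)) (le_max_left _ _)) hz
  have hzC : C0 ≤ z :=
    le_trans (le_trans (le_trans (le_max_right _ _) (le_max_left _ _)) (le_max_left _ _)) hz
  have hzb : n2 ≤ z := le_trans (le_trans (le_max_right _ _) (le_max_left _ _)) hz
  have hzc : n3 ≤ z := le_trans (le_max_right _ _) hz
  have hz10 : 10 ≤ z := by omega
  have hzr : (10 : ℝ) ≤ z := by exact_mod_cast hz10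
  have hz0r : (10 : ℝ) ≤ z0 := by exact_mod_cast (by omega : 10 ≤ z0)
  have hWr : (1 : ℝ) ≤ W := by exact_mod_cast hW
  have hWC' : (W : ℝ) ≤ C0 := by exact_mod_cast hWC
  have hWz : (W : ℝ) ≤ z := by exact_mod_cast (hWC.trans hzC)
  have hy1' : (z : ℝ) ^ (2 * s0 + 2 * k ^ 3 + 6) ≤ y := by exact_mod_cast hy1
  have hpz : ∀ m n : ℕ, m ≤ n → (z : ℝ) ^ m ≤ (z : ℝ) ^ n := fun m n h =>
    pow_le_pow_right₀ (by linarith) h
  have hy0 : (0 : ℝ) < y := lt_of_lt_of_le (by positivity) hy1'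
  have hlz : 0 < Real.log z := Real.log_pos (by linarith)
  change (((((PP z y).filter (fun p : ℕ => (W : ℤ) ∣ (p : ℤ) - cl)).card : ℕ) : ℝ) ≤
        3 * (VV z0 z (![1] : Fin 1 → ℤ) ![0] * y / W) ∧
      ∑ p ∈ (PP z y).filter (fun p : ℕ => (W : ℤ) ∣ (p : ℤ) - cl),
        ∑ p' ∈ ((PP z y).filter (fun p : ℕ => (W : ℤ) ∣ (p : ℤ) - cl)).erase p,
        |ck z0 z a Δ p p' - 1| ≤ ε * (VV z0 z (![1] : Fin 1 → ℤ) ![0] * y / W) ^ 2)
  set V := VV z0 z (![1] : Fin 1 → ℤ) ![0] with hV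
  have hV0 : 0 < V := V_pos
  have hV1 : V ≤ 1 := V_le_one z0 z
  have hVge : Real.exp (-10) / Real.log z ^ 2 ≤ V := V_ge z0 z (by omega) hza
  set S := (PP z y).filter (fun p : ℕ => (W : ℤ) ∣ (p : ℤ) - cl) with hS
  set Y0 : ℝ := V * y / W with hY0
  have hY0p : 0 < Y0 := by positivity
  -- `1 / z ≤ V`
  have hVz : 1 ≤ V * z := by
    have h1 := hn3 z hzc
    rw [one_mul] at h1
    have h2 : Real.exp (-10) / Real.log z ^ 2 * z ≤ V * z :=
      mul_le_mul_of_nonneg_right hVge (by linarith)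
    refine le_trans ?_ h2
    rw [div_mul_eq_mul_div, le_div_iff₀ (by positivity), one_mul]
    have h3 : Real.exp (-10) * (Real.exp 10 * Real.log z ^ 2) = Real.log z ^ 2 := by
      rw [← mul_assoc, ← Real.exp_add]
      norm_num
    rw [← h3]
    exact mul_le_mul_of_nonneg_left h1 (Real.exp_pos _).le
  have hs : ∀ D, D ⊆ PP z0 z → ∏ q ∈ D, q ≤ z → ∀ c : ℤ,
      ((S.filter (fun n : ℕ => ((∏ q ∈ D, q : ℕ) : ℤ) ∣ (n : ℤ) - c)).card : ℝ) ≤
        (3 * Y0) * ∏ q ∈ D, (1 / ((q : ℝ) - 1)) := by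
    intro D hD hDz c
    have h1 := hcount z0 hz0a z hza W hW hqW cl y D hD c
    refine le_trans h1 ?_
    have hd0 : 0 < ∏ q ∈ D, q := Finset.prod_pos fun q hq => (mem_PP.1 (hD hq)).2.pos
    have hd0' : (0 : ℝ) < ((∏ q ∈ D, q : ℕ) : ℝ) := by exact_mod_cast hd0
    have hq2 : ∀ q ∈ D, (2 : ℝ) ≤ q := by
      intro q hq
      exact_mod_cast (mem_PP.1 (hD hq)).2.two_le
    set E := ∏ q ∈ D, (1 / ((q : ℝ) - 1)) with hE
    have hE0 : 0 < E := by
      apply Finset.prod_pos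
      intro q hq
      have := hq2 q hq
      apply div_pos one_pos
      linarith
    have hEz : 1 ≤ E * z := by
      have h2 : 1 ≤ E * ((∏ q ∈ D, q : ℕ) : ℝ) := by
        push_cast
        rw [hE, ← Finset.prod_mul_distrib]
        have h9 : ∏ _q ∈ D, (1 : ℝ) ≤ ∏ q ∈ D, (1 / ((q : ℝ) - 1) * (q : ℝ)) := by
          apply Finset.prod_le_prod
          · intro _ _
            norm_num
          · intro q hq
            have := hq2 q hq
            rw [div_mul_eq_mul_div, one_mul, one_le_div (by linarith)]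
            linarith
        rwa [Finset.prod_const_one] at h9
      have h3 : ((∏ q ∈ D, q : ℕ) : ℝ) ≤ z := by exact_mod_cast hDz
      exact le_trans h2 (mul_le_mul_of_nonneg_left h3 hE0.le)
    set P0 := ∏ q ∈ PP z0 z, (if q ∈ D then (1 : ℝ) else 1 - 1 / (q : ℝ)) with hP0
    have hP1 : P0 ≤ 1 := by
      apply Finset.prod_le_one
      · intro q hq
        split_ifs
        · norm_num
        · have h1 := (mem_PP.1 hq).2.two_le
          have h2 : (2 : ℝ) ≤ q := by exact_mod_cast h1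
          have : 1 / (q : ℝ) ≤ 1 := by
            rw [div_le_one (by linarith)]
            linarith
          linarith
      · intro q _
        split_ifs
        · exact le_refl _
        · have : 0 ≤ 1 / (q : ℝ) := by positivity
          linarith
    have hmain : (y : ℝ) / (((∏ q ∈ D, q : ℕ) : ℝ) * W) * P0 = Y0 * E := by
      rw [hP0, prod_split z0 z D hD, ← hV, hY0]
      have h2 : ∏ q ∈ D, ((q : ℝ) / ((q : ℝ) - 1)) = ((∏ q ∈ D, q : ℕ) : ℝ) * E := by
        push_cast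
        rw [hE, ← Finset.prod_mul_distrib]
        apply Finset.prod_congr rfl
        intro q _
        ring
      rw [h2]
      field_simp
    have herr : 3 + (z : ℝ) ^ (s0 * 2) ≤ (3 / 2) * (Y0 * E) := by
      have h2 : (y : ℝ) ≤ (Y0 * E) * (z : ℝ) ^ 3 := by
        have e : (Y0 * E) * (z : ℝ) ^ 3 = y * ((V * z) * (E * z) * (z / W)) := by
          rw [hY0]
          field_simp
        rw [e]
        have h3 : 1 ≤ (z : ℝ) / W := by rwa [one_le_div (by linarith)]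
        have h4 : 1 ≤ (V * z) * (E * z) * (z / W) := by
          have h5 : 1 ≤ (V * z) * (E * z) := by nlinarith
          nlinarith
        nlinarith
      have h3 : (z : ℝ) ^ (s0 * 2 + 1) * (z : ℝ) ^ 3 ≤ y := by
        rw [← pow_add]
        refine le_trans (hpz _ _ ?_) hy1'
        have : 0 ≤ 2 * k ^ 3 := Nat.zero_le _
        omega
      have h4 : (z : ℝ) ^ (s0 * 2 + 1) ≤ Y0 * E :=
        le_of_mul_le_mul_right (h3.trans h2) (by positivity)
      have h5 : 1 ≤ (z : ℝ) ^ (s0 * 2) := one_le_pow₀ (by linarith)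
      rw [pow_succ] at h4
      nlinarith
    have h5 : (3 / 2) * (((y : ℝ) / (((∏ q ∈ D, q : ℕ) : ℝ) * W) + 2) * P0) =
        (3 / 2) * (Y0 * E) + 3 * P0 := by
      rw [← hmain]
      ring
    rw [h5]
    linarith
  refine ⟨?_, ?_⟩
  · have h := hs ∅ (Finset.empty_subset _) (by simpa using (by omega : 1 ≤ z)) 0
    simpa using h
  have hmain := main_bound (Δ := Δ) ha (by omega) (by omega) y S (Finset.filter_subset _ _)
    (3 * Y0) hs
  refine hmain.trans ?_
  -- first term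
  have hfirst : (3 * Y0) ^ 2 * ((4 * (k : ℝ) ^ 2 + 8 * (k : ℝ) ^ 3) / z0) ≤ ε / 2 * Y0 ^ 2 := by
    have h3 : (9 * (4 * (k : ℝ) ^ 2 + 8 * (k : ℝ) ^ 3)) / (ε / 2) ≤ z0 :=
      hn1.trans (by exact_mod_cast hz0c)
    rw [div_le_iff₀ (by positivity)] at h3
    have h4 : (9 * (4 * (k : ℝ) ^ 2 + 8 * (k : ℝ) ^ 3)) / z0 ≤ ε / 2 := by
      rw [div_le_iff₀ (by linarith)]
      linarith
    calc (3 * Y0) ^ 2 * ((4 * (k : ℝ) ^ 2 + 8 * (k : ℝ) ^ 3) / z0)
        = (9 * (4 * (k : ℝ) ^ 2 + 8 * (k : ℝ) ^ 3)) / z0 * Y0 ^ 2 := by ring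
      _ ≤ ε / 2 * Y0 ^ 2 := mul_le_mul_of_nonneg_right h4 (by positivity)
  -- second term
  have hsz : 0 < √(z : ℝ) := Real.sqrt_pos.2 (by linarith)
  have hsz1 : √(z : ℝ) ≤ z := by
    rw [Real.sqrt_le_iff]
    constructor
    · linarith
    · nlinarith
  have hexp : Real.exp (2 * (k : ℝ) ^ 3 * (1 + Real.log z)) =
      Real.exp (2 * (k : ℝ) ^ 3) * (z : ℝ) ^ (2 * k ^ 3) := by
    rw [mul_add, mul_one, Real.exp_add]
    congr 1
    rw [show (2 * (k : ℝ) ^ 3) * Real.log z = ((2 * k ^ 3 : ℕ) : ℝ) * Real.log z by push_cast; ring,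
      ← Real.log_pow, Real.exp_log (by positivity)]
  have hzk : (z : ℝ) ^ (2 * k ^ 3) ≤ y / √z := by
    rw [le_div_iff₀ hsz]
    calc (z : ℝ) ^ (2 * k ^ 3) * √z ≤ (z : ℝ) ^ (2 * k ^ 3) * z :=
          mul_le_mul_of_nonneg_left hsz1 (by positivity)
      _ = (z : ℝ) ^ (2 * k ^ 3 + 1) := by ring
      _ ≤ y := le_trans (hpz _ _ (by omega)) hy1'
  have hsecond : (y : ℝ) ^ 2 / √z * Real.exp (3 * (2 * (k : ℝ) ^ 3)) +
      y * Real.exp (2 * (k : ℝ) ^ 3 * (1 + Real.log z)) ≤ ε / 2 * Y0 ^ 2 := by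
    have h1 : (y : ℝ) ^ 2 / √z * Real.exp (3 * (2 * (k : ℝ) ^ 3)) +
        y * Real.exp (2 * (k : ℝ) ^ 3 * (1 + Real.log z)) ≤ (y : ℝ) ^ 2 * (K1 / √z) := by
      rw [hexp]
      have h6 : Real.exp (2 * (k : ℝ) ^ 3) * (z : ℝ) ^ (2 * k ^ 3) ≤
          Real.exp (2 * (k : ℝ) ^ 3) * (y / √z) :=
        mul_le_mul_of_nonneg_left hzk (by positivity)
      have h7 := mul_le_mul_of_nonneg_left h6 hy0.le
      have e : (y : ℝ) ^ 2 * (K1 / √z) = (y : ℝ) ^ 2 / √z * Real.exp (3 * (2 * (k : ℝ) ^ 3)) +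
          y * (Real.exp (2 * (k : ℝ) ^ 3) * (y / √z)) := by
        rw [hK1]
        ring
      rw [e]
      linarith
    refine h1.trans ?_
    have h2 := hn2 z hzb
    have h3 : K1 / √z ≤ ε / 2 * (V / W) ^ 2 := by
      rw [div_le_iff₀ hsz]
      have hVW : Real.exp (-10) / Real.log z ^ 2 / C0 ≤ V / W := by
        have hC0 : (0 : ℝ) < C0 := by linarith
        calc Real.exp (-10) / Real.log z ^ 2 / C0 ≤ V / C0 :=
              div_le_div_of_nonneg_right hVge hC0.le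
          _ ≤ V / W := div_le_div_of_nonneg_left hV0.le (by linarith) hWC'
      have hC0 : (0 : ℝ) < C0 := by linarith
      have h4 : (Real.exp (-10) / Real.log z ^ 2 / C0) ^ 2 ≤ (V / W) ^ 2 :=
        pow_le_pow_left₀ (by positivity) hVW 2
      have h5 : K1 ≤ ε / 2 * (Real.exp (-10) / Real.log z ^ 2 / C0) ^ 2 * √z := by
        have e1 : (Real.exp (-10) / Real.log z ^ 2 / C0) ^ 2 =
            (Real.exp 20 * Real.log z ^ 4 * (C0 : ℝ) ^ 2)⁻¹ := by
          have e2 : Real.exp (-10) ^ 2 = (Real.exp 20)⁻¹ := by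
            rw [← Real.exp_nat_mul, ← Real.exp_neg]
            norm_num
          rw [div_pow, div_pow, e2, mul_inv, mul_inv]
          field_simp
        rw [e1]
        have hpos : 0 < Real.exp 20 * Real.log z ^ 4 * (C0 : ℝ) ^ 2 := by positivity
        have e3 : ε / 2 * (Real.exp 20 * Real.log z ^ 4 * (C0 : ℝ) ^ 2)⁻¹ * √z =
            (ε / 2 * √z) / (Real.exp 20 * Real.log z ^ 4 * (C0 : ℝ) ^ 2) := by
          field_simp
        rw [e3, le_div_iff₀ hpos]
        refine le_trans (le_of_eq ?_) h2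
        ring
      refine h5.trans ?_
      apply mul_le_mul_of_nonneg_right _ hsz.le
      exact mul_le_mul_of_nonneg_left h4 (by positivity)
    calc (y : ℝ) ^ 2 * (K1 / √z) ≤ (y : ℝ) ^ 2 * (ε / 2 * (V / W) ^ 2) :=
          mul_le_mul_of_nonneg_left h3 (by positivity)
      _ = ε / 2 * Y0 ^ 2 := by rw [hY0]; ring
  linarith

end T98
end Pool.Agent.Lib.MT2
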