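import Mathlib
import Pool.Agent.Lib.MT2.Stmts2
import Pool.Agent.Lib.MP_973905_nt.PrimeSum

/-!
MT2, module SQR: squares as weights.
-/

set_option autoImplicit false

namespace Pool.Agent.Lib.MT2

open Finset
open Pool.Agent.Lib.TwinAll (PP Rough om VV nu ee)

namespace T95

/-! ### Elementary facts on `PI` and `md` -/

lemma mem_PP {a b q : ℕ} : q ∈ PP a b ↔ a < q ∧ q ≤ b ∧ q.Prime := by
  unfold PP
  rw [Finset.mem_filter, Finset.mem_Ioc]
  tauto

lemma mem_PI {z R K : ℕ} {x : ℕ × Fin K} : x ∈ PI z R K ↔ z < x.1 ∧ x.1 ≤ R ∧ x.1.Prime := by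
  unfold PI
  rw [Finset.mem_product, mem_PP]
  simp

lemma md_pos {z R K : ℕ} {D : Cond K} (hD : D ⊆ PI z R K) : 0 < md D := by
  unfold md
  exact Finset.prod_pos (fun x hx => (mem_PI.1 (hD hx)).2.2.pos)

lemma md_ge {z R K : ℕ} {D : Cond K} (hD : D ⊆ PI z R K) : z ^ D.card ≤ md D := by
  unfold md
  exact Finset.pow_card_le_prod D _ z (fun x hx => (mem_PI.1 (hD hx)).1.le)

lemma md_union {z R K : ℕ} {D D' : Cond K} (hD : D ⊆ PI z R K) (_hD' : D' ⊆ PI z R K) :
    md (D ∪ D') ≤ md D * md D' := by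
  have h1 : md (D ∪ D') * md (D ∩ D') = md D * md D' := Finset.prod_union_inter
  have h2 : 0 < md (D ∩ D') := md_pos (Finset.inter_subset_left.trans hD)
  calc md (D ∪ D') = md (D ∪ D') * 1 := (mul_one _).symm
    _ ≤ md (D ∪ D') * md (D ∩ D') := Nat.mul_le_mul_left _ h2
    _ = md D * md D' := h1

lemma card_le {z b R K : ℕ} (hz : 2 ≤ z) {D : Cond K} (hD : D ⊆ PI z R K) (h : md D ≤ z ^ b) :
    D.card ≤ b := by
  have h1 := (md_ge hD).trans h
  exact (Nat.pow_le_pow_iff_right (by omega)).1 h1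

/-! ### Rearranging the sum over pairs -/

lemma sum_union {K : ℕ} (I : Cond K) (f : Cond K → Cond K → ℝ) (g : Cond K → ℝ) :
    ∑ D ∈ I.powerset, g D * ∑ D1 ∈ D.powerset,
        ∑ D2 ∈ D.powerset.filter (fun D2 => D1 ∪ D2 = D), f D1 D2 =
      ∑ D1 ∈ I.powerset, ∑ D2 ∈ I.powerset, g (D1 ∪ D2) * f D1 D2 := by
  rw [← Finset.sum_product' I.powerset I.powerset (fun D1 D2 => g (D1 ∪ D2) * f D1 D2)]
  rw [← Finset.sum_fiberwise_of_maps_to (s := I.powerset ×ˢ I.powerset) (t := I.powerset)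
    (g := fun p => p.1 ∪ p.2)]
  · refine Finset.sum_congr rfl (fun D hD => ?_)
    rw [Finset.mem_powerset] at hD
    rw [Finset.mul_sum]
    rw [Finset.sum_congr rfl (fun D1 _ => Finset.mul_sum _ _ _)]
    rw [Finset.sum_sigma' D.powerset (fun D1 => D.powerset.filter (fun D2 => D1 ∪ D2 = D))
      (fun D1 D2 => g D * f D1 D2)]
    refine Finset.sum_bij' (fun p _ => (p.1, p.2)) (fun p _ => ⟨p.1, p.2⟩) ?_ ?_ ?_ ?_ ?_
    · rintro ⟨D1, D2⟩ hp
      simp only [Finset.mem_sigma, Finset.mem_powerset, Finset.mem_filter] at hp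
      simp only [Finset.mem_filter, Finset.mem_product, Finset.mem_powerset]
      exact ⟨⟨hp.1.trans hD, hp.2.1.trans hD⟩, hp.2.2⟩
    · rintro ⟨D1, D2⟩ hp
      simp only [Finset.mem_filter, Finset.mem_product, Finset.mem_powerset] at hp
      simp only [Finset.mem_sigma, Finset.mem_powerset, Finset.mem_filter]
      refine ⟨?_, ?_, hp.2⟩
      · rw [← hp.2]; exact Finset.subset_union_left
      · rw [← hp.2]; exact Finset.subset_union_right
    · rintro ⟨D1, D2⟩ _; rfl
    · rintro ⟨D1, D2⟩ _; rfl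
    · rintro ⟨D1, D2⟩ hp
      simp only [Finset.mem_sigma, Finset.mem_powerset, Finset.mem_filter] at hp
      simp only
      rw [hp.2.2]
  · rintro ⟨D1, D2⟩ hp
    simp only [Finset.mem_product, Finset.mem_powerset] at hp ⊢
    exact Finset.union_subset hp.1 hp.2

/-- the sum over pairs with given union -/
noncomputable def pr {K : ℕ} (lam : Cond K → ℝ) (D : Cond K) : ℝ :=
  ∑ D1 ∈ D.powerset, ∑ D2 ∈ D.powerset.filter (fun D2 => D1 ∪ D2 = D), |lam D1 * lam D2|

lemma pr_nonneg {K : ℕ} (lam : Cond K → ℝ) (D : Cond K) : 0 ≤ pr lam D :=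
  Finset.sum_nonneg (fun _ _ => Finset.sum_nonneg (fun _ _ => abs_nonneg _))

lemma abs_sum_le {K : ℕ} (lam : Cond K → ℝ) (D : Cond K) :
    |∑ D1 ∈ D.powerset, ∑ D2 ∈ D.powerset.filter (fun D2 => D1 ∪ D2 = D), lam D1 * lam D2| ≤
      pr lam D := by
  refine (Finset.abs_sum_le_sum_abs _ _).trans ?_
  exact Finset.sum_le_sum (fun D1 _ => Finset.abs_sum_le_sum_abs _ _)

lemma abs_cOf_le {K : ℕ} (lam : Cond K → ℝ) (J : Finset (Fin K)) (D : Cond K) :
    |cOf lam J D| ≤ pr lam D := by
  unfold cOf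
  split_ifs with h
  · exact abs_sum_le lam D
  · rw [abs_zero]; exact pr_nonneg _ _

lemma pr_le {K : ℕ} (lam : Cond K → ℝ) (L : ℝ) (hL : ∀ D, |lam D| ≤ L) (D : Cond K) :
    pr lam D ≤ L ^ 2 * 4 ^ D.card := by
  have hL0 : 0 ≤ L := (abs_nonneg _).trans (hL ∅)
  have h1 : ∀ D1 D2 : Cond K, |lam D1 * lam D2| ≤ L ^ 2 := by
    intro D1 D2
    rw [abs_mul, sq]
    exact mul_le_mul (hL D1) (hL D2) (abs_nonneg _) hL0
  unfold pr
  calc ∑ D1 ∈ D.powerset, ∑ D2 ∈ D.powerset.filter (fun D2 => D1 ∪ D2 = D), |lam D1 * lam D2|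
      ≤ ∑ D1 ∈ D.powerset, ∑ D2 ∈ D.powerset, |lam D1 * lam D2| := by
        refine Finset.sum_le_sum (fun D1 _ => ?_)
        exact Finset.sum_le_sum_of_subset_of_nonneg (Finset.filter_subset _ _)
          (fun _ _ _ => abs_nonneg _)
    _ ≤ ∑ D1 ∈ D.powerset, ∑ D2 ∈ D.powerset, L ^ 2 :=
        Finset.sum_le_sum (fun D1 _ => Finset.sum_le_sum (fun D2 _ => h1 D1 D2))
    _ = L ^ 2 * 4 ^ D.card := by
        simp only [Finset.sum_const, Finset.card_powerset, nsmul_eq_mul]
        push_cast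
        rw [show (4 : ℝ) = 2 * 2 by norm_num, mul_pow]
        ring

/-- a nonzero coefficient comes from a pair of nonzero `lam`'s -/
lemma exists_pair {K : ℕ} (lam : Cond K → ℝ) (D : Cond K) (h : pr lam D ≠ 0) :
    ∃ D1 D2, D1 ∪ D2 = D ∧ lam D1 ≠ 0 ∧ lam D2 ≠ 0 := by
  by_contra hcon
  push Not at hcon
  apply h
  unfold pr
  refine Finset.sum_eq_zero (fun D1 _ => Finset.sum_eq_zero (fun D2 hD2 => ?_))
  rw [Finset.mem_filter] at hD2
  by_cases h1 : lam D1 = 0
  · rw [h1]; simp
  · rw [hcon D1 D2 hD2.2 h1]; simp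

/-! ### The sum over unclean sets -/

lemma SS_le (z b : ℕ) (hz : 2 ≤ z) : ∑ q ∈ PP z (z ^ b), (1 : ℝ) / q ≤ b + 15 := by
  rcases Nat.eq_zero_or_pos b with hb | hb
  · subst hb
    rw [pow_zero]
    have : PP z 1 = ∅ := by
      apply Finset.eq_empty_of_forall_notMem
      intro q hq
      have := mem_PP.1 hq
      omega
    rw [this]
    simp
  · have hle : z ≤ z ^ b := Nat.le_self_pow (by omega) z
    have h := MP_973905_nt.PrimeSum.range_bound ((z : ℕ) : ℝ) ((z ^ b : ℕ) : ℝ)
      (by exact_mod_cast hz) (by exact_mod_cast hle)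
    have hlz : 0 < Real.log z := Real.log_pos (by exact_mod_cast hz)
    have e2 : Real.log ((z ^ b : ℕ) : ℝ) = b * Real.log z := by
      push_cast
      rw [Real.log_pow]
    have e3 : MP_973905_nt.PS ((z : ℕ) : ℝ) ((z ^ b : ℕ) : ℝ) = PP z (z ^ b) := by
      unfold MP_973905_nt.PS PP
      rw [Nat.floor_natCast, Nat.floor_natCast]
    rw [e3, e2, mul_div_assoc, div_self hlz.ne', mul_one] at h
    have h2 := (abs_le.1 h).2
    have h3 : 10 / Real.log z ≤ 15 := by
      rw [div_le_iff₀ hlz]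
      have h4 : Real.log 2 ≤ Real.log z := Real.log_le_log (by norm_num) (by exact_mod_cast hz)
      have := Real.log_two_gt_d9
      linarith
    have h5 : Real.log (b : ℝ) ≤ b := by
      have := Real.log_le_sub_one_of_pos (show (0 : ℝ) < b by exact_mod_cast hb)
      linarith
    linarith

lemma prod_PI_le (z b K : ℕ) (hz : 2 ≤ z) :
    ∏ w ∈ PI z (z ^ b) K, (1 + 4 / (w.1 : ℝ)) ≤ Real.exp (4 * K * (b + 15)) := by
  calc ∏ w ∈ PI z (z ^ b) K, (1 + 4 / (w.1 : ℝ))
      ≤ ∏ w ∈ PI z (z ^ b) K, Real.exp (4 * (1 / (w.1 : ℝ))) := by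
        apply Finset.prod_le_prod
        · intro w _; positivity
        · intro w _
          have := Real.add_one_le_exp (4 * (1 / (w.1 : ℝ)))
          rw [mul_one_div] at this ⊢
          linarith
    _ = Real.exp (∑ w ∈ PI z (z ^ b) K, 4 * (1 / (w.1 : ℝ))) := (Real.exp_sum _ _).symm
    _ ≤ Real.exp (4 * K * (b + 15)) := by
        apply Real.exp_le_exp.2
        unfold PI
        rw [Finset.sum_product]
        simp only [Finset.sum_const, Finset.card_univ, Fintype.card_fin, nsmul_eq_mul]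
        rw [← Finset.mul_sum, ← Finset.mul_sum]
        have h1 := SS_le z b hz
        have hK : (0 : ℝ) ≤ K := Nat.cast_nonneg K
        nlinarith

/-- sum over the sets containing two given elements -/
lemma sum_two_mem {ι : Type*} [DecidableEq ι] (I : Finset ι) (h : ι → ℝ) (h0 : ∀ x, 0 ≤ h x)
    (x y : ι) (hx : x ∈ I) (hy : y ∈ I) (hxy : x ≠ y) :
    ∑ D ∈ I.powerset.filter (fun D => x ∈ D ∧ y ∈ D), ∏ w ∈ D, h w ≤
      h x * h y * ∏ w ∈ I, (1 + h w) := by
  have h1 : ∑ D ∈ I.powerset.filter (fun D => x ∈ D ∧ y ∈ D), ∏ w ∈ D, h w =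
      ∑ D ∈ ((I.erase x).erase y).powerset, h x * h y * ∏ w ∈ D, h w := by
    refine Finset.sum_bij' (fun D _ => (D.erase x).erase y) (fun D _ => insert x (insert y D))
      ?_ ?_ ?_ ?_ ?_
    · intro D hD
      rw [Finset.mem_filter, Finset.mem_powerset] at hD
      rw [Finset.mem_powerset]
      exact Finset.erase_subset_erase _ (Finset.erase_subset_erase _ hD.1)
    · intro D hD
      rw [Finset.mem_powerset] at hD
      rw [Finset.mem_filter, Finset.mem_powerset]
      refine ⟨?_, Finset.mem_insert_self _ _,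
        Finset.mem_insert_of_mem (Finset.mem_insert_self _ _)⟩
      refine Finset.insert_subset hx (Finset.insert_subset hy ?_)
      exact hD.trans ((Finset.erase_subset _ _).trans (Finset.erase_subset _ _))
    · intro D hD
      rw [Finset.mem_filter] at hD
      rw [Finset.insert_erase (Finset.mem_erase.2 ⟨hxy.symm, hD.2.2⟩), Finset.insert_erase hD.2.1]
    · intro D hD
      rw [Finset.mem_powerset] at hD
      have hxD : x ∉ D := fun hh => (Finset.mem_erase.1 (Finset.mem_erase.1 (hD hh)).2).1 rfl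
      have hyD : y ∉ D := fun hh => (Finset.mem_erase.1 (hD hh)).1 rfl
      have hxD' : x ∉ insert y D := by
        rw [Finset.mem_insert]; push Not; exact ⟨hxy, hxD⟩
      rw [Finset.erase_insert hxD', Finset.erase_insert hyD]
    · intro D hD
      rw [Finset.mem_filter] at hD
      have hyD : y ∈ D.erase x := Finset.mem_erase.2 ⟨hxy.symm, hD.2.2⟩
      rw [← Finset.mul_prod_erase D _ hD.2.1, ← Finset.mul_prod_erase (D.erase x) _ hyD]
      ring
  rw [h1, ← Finset.mul_sum]
  refine mul_le_mul_of_nonneg_left ?_ (mul_nonneg (h0 x) (h0 y))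
  rw [Finset.prod_one_add]
  refine Finset.sum_le_sum_of_subset_of_nonneg ?_ (fun D _ _ => Finset.prod_nonneg (fun w _ => h0 w))
  exact Finset.powerset_mono.2 ((Finset.erase_subset _ _).trans (Finset.erase_subset _ _))

lemma sum_inv_sq (z N : ℕ) (hz : 1 ≤ z) : ∑ q ∈ PP z N, (1 : ℝ) / (q : ℝ) ^ 2 ≤ 1 / z := by
  have h1 : ∀ M : ℕ, ∑ q ∈ Finset.Ioc z (z + M), (1 : ℝ) / (q : ℝ) ^ 2 ≤ 1 / z - 1 / ((z + M : ℕ) : ℝ) := by
    intro M
    have hz0 : (0 : ℝ) < z := by exact_mod_cast hz
    induction M with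
    | zero => simp
    | succ M ih =>
      rw [← Nat.add_assoc, Finset.sum_Ioc_succ_top (by omega)]
      have h2 : (1 : ℝ) / ((z + M + 1 : ℕ) : ℝ) ^ 2 ≤
          1 / ((z + M : ℕ) : ℝ) - 1 / ((z + M + 1 : ℕ) : ℝ) := by
        have hm : (0 : ℝ) < ((z + M : ℕ) : ℝ) := by exact_mod_cast (by omega : 0 < z + M)
        have e : ((z + M + 1 : ℕ) : ℝ) = ((z + M : ℕ) : ℝ) + 1 := by push_cast; ring
        rw [e]
        rw [div_sub_div _ _ hm.ne' (by positivity), div_le_div_iff₀ (by positivity) (by positivity)]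
        nlinarith
      linarith
  by_cases hN : N ≤ z
  · have : PP z N = ∅ := by
      apply Finset.eq_empty_of_forall_notMem
      intro q hq
      have := mem_PP.1 hq
      omega
    rw [this]
    simp
  · obtain ⟨M, rfl⟩ : ∃ M, N = z + M := ⟨N - z, by omega⟩
    have h2 := h1 M
    have h3 : ∑ q ∈ PP z (z + M), (1 : ℝ) / (q : ℝ) ^ 2 ≤
        ∑ q ∈ Finset.Ioc z (z + M), (1 : ℝ) / (q : ℝ) ^ 2 :=
      Finset.sum_le_sum_of_subset_of_nonneg (Finset.filter_subset _ _) (fun _ _ _ => by positivity)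
    have h4 : (0 : ℝ) ≤ 1 / ((z + M : ℕ) : ℝ) := by positivity
    linarith

open Classical in
/-- the sum over unclean sets -/
lemma sum_unclean (z b K : ℕ) (hz : 2 ≤ z) :
    ∑ D ∈ (PI z (z ^ b) K).powerset.filter (fun D => ¬ Clean D), ∏ w ∈ D, (4 / (w.1 : ℝ)) ≤
      16 * K ^ 2 * Real.exp (4 * K * (b + 15)) / z := by
  set I := PI z (z ^ b) K with hI
  set h : ℕ × Fin K → ℝ := fun w => 4 / (w.1 : ℝ) with hh
  have h0 : ∀ x, 0 ≤ h x := fun x => by simp only [hh]; positivity
  have hE := prod_PI_le z b K hz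
  set E := Real.exp (4 * K * (b + 15)) with hEdef
  have hE0 : 0 < E := Real.exp_pos _
  set P := (I ×ˢ I).filter (fun p => p.1.1 = p.2.1 ∧ p.1 ≠ p.2) with hP
  have hex : ∀ D ∈ I.powerset.filter (fun D => ¬ Clean D), ∃ p ∈ P, p.1 ∈ D ∧ p.2 ∈ D := by
    intro D hD
    rw [Finset.mem_filter, Finset.mem_powerset] at hD
    obtain ⟨hDI, hc⟩ := hD
    unfold Clean Set.InjOn at hc
    push Not at hc
    obtain ⟨x, hx, y, hy, hxy, hne⟩ := hc
    refine ⟨(x, y), ?_, hx, hy⟩
    rw [hP, Finset.mem_filter, Finset.mem_product]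
    exact ⟨⟨hDI hx, hDI hy⟩, hxy, hne⟩
  have hg0 : ∀ D : Cond K, 0 ≤ ∏ w ∈ D, h w := fun D => Finset.prod_nonneg (fun w _ => h0 w)
  calc ∑ D ∈ I.powerset.filter (fun D => ¬ Clean D), ∏ w ∈ D, h w
      ≤ ∑ D ∈ I.powerset.filter (fun D => ¬ Clean D), ∑ p ∈ P,
          (if p.1 ∈ D ∧ p.2 ∈ D then ∏ w ∈ D, h w else 0) := by
        refine Finset.sum_le_sum (fun D hD => ?_)
        obtain ⟨p, hp, hpD⟩ := hex D hD
        have h1 := Finset.single_le_sum (f := fun p : (ℕ × Fin K) × (ℕ × Fin K) =>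
          (if p.1 ∈ D ∧ p.2 ∈ D then ∏ w ∈ D, h w else 0))
          (fun p _ => by split_ifs; exacts [hg0 D, le_rfl]) hp
        simp only [if_pos hpD] at h1
        exact h1
    _ ≤ ∑ D ∈ I.powerset, ∑ p ∈ P, (if p.1 ∈ D ∧ p.2 ∈ D then ∏ w ∈ D, h w else 0) := by
        refine Finset.sum_le_sum_of_subset_of_nonneg (Finset.filter_subset _ _) (fun D _ _ => ?_)
        exact Finset.sum_nonneg (fun p _ => by split_ifs; exacts [hg0 D, le_rfl])
    _ = ∑ p ∈ P, ∑ D ∈ I.powerset.filter (fun D => p.1 ∈ D ∧ p.2 ∈ D), ∏ w ∈ D, h w := by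
        rw [Finset.sum_comm]
        refine Finset.sum_congr rfl (fun p _ => ?_)
        rw [Finset.sum_filter]
    _ ≤ ∑ p ∈ P, 16 / (p.1.1 : ℝ) ^ 2 * E := by
        refine Finset.sum_le_sum (fun p hp => ?_)
        rw [hP, Finset.mem_filter, Finset.mem_product] at hp
        refine (sum_two_mem I h h0 p.1 p.2 hp.1.1 hp.1.2 hp.2.2).trans ?_
        have e1 : h p.1 * h p.2 = 16 / (p.1.1 : ℝ) ^ 2 := by
          simp only [hh]
          rw [← hp.2.1, div_mul_div_comm, sq]
          norm_num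
        rw [e1]
        exact mul_le_mul_of_nonneg_left hE (by positivity)
    _ = E * 16 * ∑ p ∈ P, (1 : ℝ) / (p.1.1 : ℝ) ^ 2 := by
        rw [Finset.mul_sum]
        refine Finset.sum_congr rfl (fun p _ => ?_)
        ring
    _ ≤ E * 16 * ((K : ℝ) ^ 2 * (1 / z)) := by
        refine mul_le_mul_of_nonneg_left ?_ (by positivity)
        have hcard : ∀ x ∈ I, ((I.filter (fun y => x.1 = y.1 ∧ x ≠ y)).card : ℝ) ≤ K := by
          intro x _
          have h1 : I.filter (fun y => x.1 = y.1 ∧ x ≠ y) ⊆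
              (Finset.univ : Finset (Fin K)).image (fun j => (x.1, j)) := by
            intro y hy
            rw [Finset.mem_filter] at hy
            rw [Finset.mem_image]
            exact ⟨y.2, Finset.mem_univ _, by rw [hy.2.1]⟩
          have h2 := (Finset.card_le_card h1).trans Finset.card_image_le
          rw [Finset.card_univ, Fintype.card_fin] at h2
          exact_mod_cast h2
        calc ∑ p ∈ P, (1 : ℝ) / (p.1.1 : ℝ) ^ 2
            = ∑ x ∈ I, ((I.filter (fun y => x.1 = y.1 ∧ x ≠ y)).card : ℝ) *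
                (1 / (x.1 : ℝ) ^ 2) := by
              rw [hP, Finset.sum_filter, Finset.sum_product]
              refine Finset.sum_congr rfl (fun x _ => ?_)
              simp only
              rw [← Finset.sum_filter, Finset.sum_const, nsmul_eq_mul]
          _ ≤ ∑ x ∈ I, (K : ℝ) * (1 / (x.1 : ℝ) ^ 2) := by
              refine Finset.sum_le_sum (fun x hx => ?_)
              exact mul_le_mul_of_nonneg_right (hcard x hx) (by positivity)
          _ = (K : ℝ) ^ 2 * ∑ q ∈ PP z (z ^ b), (1 : ℝ) / (q : ℝ) ^ 2 := by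
              rw [hI]
              unfold PI
              rw [Finset.sum_product, Finset.mul_sum]
              refine Finset.sum_congr rfl (fun q _ => ?_)
              simp only [Finset.sum_const, Finset.card_univ, Fintype.card_fin, nsmul_eq_mul]
              ring
          _ ≤ (K : ℝ) ^ 2 * (1 / z) :=
              mul_le_mul_of_nonneg_left (sum_inv_sq z (z ^ b) (by omega)) (by positivity)
    _ = 16 * K ^ 2 * E / z := by ring

/-! ### HC -/

theorem hc : HCStmt := by
  intro K C0 z0 z R α β hMF hz _ D U hD hH x hx y hy hxy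
  by_contra hne
  have h2 : x.2 ≠ y.2 := fun h => hne (Prod.ext hxy h)
  have hq := mem_PI.1 (hD hx)
  have h3 := hH x hx
  have h4 := hH y hy
  rw [← hxy] at h4
  have h5 : (x.1 : ℤ) ∣ α x.2 * β y.2 - α y.2 * β x.2 := by
    have e : α x.2 * β y.2 - α y.2 * β x.2 =
        α x.2 * (α y.2 * U + β y.2) - α y.2 * (α x.2 * U + β x.2) := by ring
    rw [e]
    exact dvd_sub (Dvd.dvd.mul_left h4 _) (Dvd.dvd.mul_left h3 _)
  have h6 : α x.2 * β y.2 - α y.2 * β x.2 ≠ 0 := sub_ne_zero.2 (hMF.det _ _ h2)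
  have h7 : |α x.2 * β y.2 - α y.2 * β x.2| ≤ 2 * (C0 : ℤ) ^ 2 := by
    have a1 : ∀ j, |α j| ≤ (C0 : ℤ) := by
      intro j; rw [abs_of_pos (hMF.pos j).1]; exact (hMF.bd j).1
    have a2 : ∀ j, |β j| ≤ (C0 : ℤ) := fun j => (hMF.bd j).2
    have c0 : (0 : ℤ) ≤ C0 := Int.natCast_nonneg C0
    calc |α x.2 * β y.2 - α y.2 * β x.2| ≤ |α x.2 * β y.2| + |α y.2 * β x.2| := abs_sub _ _
      _ = |α x.2| * |β y.2| + |α y.2| * |β x.2| := by rw [abs_mul, abs_mul]
      _ ≤ C0 * C0 + C0 * C0 := by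
          exact add_le_add (mul_le_mul (a1 _) (a2 _) (abs_nonneg _) c0)
            (mul_le_mul (a1 _) (a2 _) (abs_nonneg _) c0)
      _ = 2 * (C0 : ℤ) ^ 2 := by ring
  have h8 : (x.1 : ℤ) ≤ |α x.2 * β y.2 - α y.2 * β x.2| :=
    Int.le_of_dvd (abs_pos.2 h6) ((dvd_abs _ _).2 h5)
  have h9 : (2 * C0 ^ 2 + 2 : ℤ) ≤ (z : ℤ) := by exact_mod_cast hz
  have h10 : (z : ℤ) < x.1 := by exact_mod_cast hq.1
  linarith

/-! ### The theorem -/

open Classical in
lemma cOf_eq {K : ℕ} (lam : Cond K → ℝ) (J : Finset (Fin K)) (D : Cond K) :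
    cOf lam J D = (if Clean D ∧ ∀ x ∈ D, x.2 ∈ J then (1 : ℝ) else 0) *
      ∑ D1 ∈ D.powerset, ∑ D2 ∈ D.powerset.filter (fun D2 => D1 ∪ D2 = D), lam D1 * lam D2 := by
  unfold cOf
  split_ifs
  · rw [one_mul]
  · rw [zero_mul]

open Classical in
lemma quad_eq {K : ℕ} (lam : Cond K → ℝ) (I : Cond K) (J : Finset (Fin K)) :
    quad lam (I.filter (fun x => x.2 ∈ J)) = ∑ D ∈ I.powerset, ∑ D' ∈ I.powerset,
      (if ∀ x ∈ D ∪ D', x.2 ∈ J then (1 : ℝ) else 0) / md (D ∪ D') * (lam D * lam D') := by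
  have hp : (I.filter (fun x => x.2 ∈ J)).powerset =
      I.powerset.filter (fun D => ∀ x ∈ D, x.2 ∈ J) := by
    ext D
    simp only [Finset.mem_powerset, Finset.mem_filter, Finset.subset_iff]
    exact ⟨fun h => ⟨fun x hx => (h hx).1, fun x hx => (h hx).2⟩, fun h x hx => ⟨h.1 hx, h.2 x hx⟩⟩
  unfold quad
  rw [hp, Finset.sum_filter]
  refine Finset.sum_congr rfl (fun D _ => ?_)
  by_cases hD : ∀ x ∈ D, x.2 ∈ J
  · rw [if_pos hD, Finset.sum_filter]
    refine Finset.sum_congr rfl (fun D' _ => ?_)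
    by_cases hD' : ∀ x ∈ D', x.2 ∈ J
    · rw [if_pos hD', if_pos]
      · ring
      · intro x hx
        rcases Finset.mem_union.1 hx with h | h
        · exact hD x h
        · exact hD' x h
    · rw [if_neg hD', if_neg]
      · ring
      · intro hh
        exact hD' (fun x hx => hh x (Finset.mem_union_right _ hx))
  · rw [if_neg hD]
    symm
    refine Finset.sum_eq_zero (fun D' _ => ?_)
    rw [if_neg]
    · ring
    · intro hh
      exact hD (fun x hx => hh x (Finset.mem_union_left _ hx))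

open Classical in
theorem sqr : SQRStmt := by
  intro K b L
  refine ⟨max (L ^ 2 * 4 ^ (2 * b)) (L ^ 2 * (16 * K ^ 2 * Real.exp (4 * K * (b + 15)))), 2,
    fun z hz lam hL hlam => ⟨fun J => ⟨?_, ?_, ?_⟩, ?_⟩⟩
  · -- admissibility
    have hpr : ∀ D, pr lam D ≠ 0 → md D ≤ z ^ (2 * b) ∧ D.card ≤ 2 * b := by
      intro D hD
      obtain ⟨D1, D2, hu, h1, h2⟩ := exists_pair lam D hD
      have a1 := hlam D1 h1
      have a2 := hlam D2 h2
      constructor
      · rw [← hu]
        refine (md_union a1.2 a2.2).trans ?_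
        rw [two_mul, pow_add]
        exact Nat.mul_le_mul a1.1 a2.1
      · rw [← hu]
        refine (Finset.card_union_le _ _).trans ?_
        rw [two_mul]
        exact add_le_add (card_le hz a1.2 a1.1) (card_le hz a2.2 a2.1)
    have hc : ∀ D, cOf lam J D ≠ 0 → pr lam D ≠ 0 := by
      intro D hD h
      have h1 := abs_cOf_le lam J D
      rw [h] at h1
      exact hD (abs_nonpos_iff.1 h1)
    refine ⟨fun D => ?_, fun D hD => ?_, fun D hD => (hpr D (hc D hD)).1, fun D hD => ?_⟩
    · by_cases h : pr lam D = 0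
      · have h1 := abs_cOf_le lam J D
        rw [h] at h1
        refine h1.trans ?_
        exact (by positivity : (0 : ℝ) ≤ L ^ 2 * 4 ^ (2 * b)).trans (le_max_left _ _)
      · refine (abs_cOf_le lam J D).trans ((pr_le lam L hL D).trans ?_)
        refine le_trans ?_ (le_max_left _ _)
        refine mul_le_mul_of_nonneg_left ?_ (sq_nonneg L)
        exact pow_le_pow_right₀ (by norm_num) (hpr D h).2
    · by_contra hcl
      apply hD
      unfold cOf
      rw [if_neg (fun hh => hcl hh.1)]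
    · by_contra hcl
      apply hD
      unfold cOf
      rw [if_neg (fun hh => hcl hh.2)]
  · -- the mean value
    have e1 : wmean z (z ^ b) (cOf lam J) = ∑ D ∈ (PI z (z ^ b) K).powerset,
        ∑ D' ∈ (PI z (z ^ b) K).powerset,
        ((if Clean (D ∪ D') ∧ ∀ x ∈ D ∪ D', x.2 ∈ J then (1 : ℝ) else 0) / md (D ∪ D')) *
          (lam D * lam D') := by
      rw [← sum_union (PI z (z ^ b) K) (fun D D' => lam D * lam D')
        (fun D => (if Clean D ∧ ∀ x ∈ D, x.2 ∈ J then (1 : ℝ) else 0) / md D)]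
      unfold wmean
      refine Finset.sum_congr rfl (fun D _ => ?_)
      rw [cOf_eq]
      ring
    rw [e1, quad_eq, ← Finset.sum_sub_distrib]
    rw [Finset.sum_congr rfl (fun D _ => (Finset.sum_sub_distrib _ _).symm)]
    calc |∑ D ∈ (PI z (z ^ b) K).powerset, ∑ D' ∈ (PI z (z ^ b) K).powerset,
          (((if Clean (D ∪ D') ∧ ∀ x ∈ D ∪ D', x.2 ∈ J then (1 : ℝ) else 0) / md (D ∪ D')) *
            (lam D * lam D') -
          (if ∀ x ∈ D ∪ D', x.2 ∈ J then (1 : ℝ) else 0) / md (D ∪ D') * (lam D * lam D'))|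
        ≤ ∑ D ∈ (PI z (z ^ b) K).powerset, ∑ D' ∈ (PI z (z ^ b) K).powerset,
          ((if ¬ Clean (D ∪ D') then (1 : ℝ) else 0) / md (D ∪ D')) * |lam D * lam D'| := by
          refine (Finset.abs_sum_le_sum_abs _ _).trans (Finset.sum_le_sum (fun D _ => ?_))
          refine (Finset.abs_sum_le_sum_abs _ _).trans (Finset.sum_le_sum (fun D' _ => ?_))
          have hm : (0 : ℝ) ≤ md (D ∪ D') := Nat.cast_nonneg _
          rw [← sub_mul, abs_mul, ← sub_div, abs_div, abs_of_nonneg hm]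
          refine mul_le_mul_of_nonneg_right ?_ (abs_nonneg _)
          refine div_le_div_of_nonneg_right ?_ hm
          by_cases h1 : Clean (D ∪ D')
          · by_cases h2 : ∀ x ∈ D ∪ D', x.2 ∈ J
            · rw [if_pos ⟨h1, h2⟩, if_pos h2, if_neg (not_not.2 h1)]; norm_num
            · rw [if_neg (fun hh => h2 hh.2), if_neg h2, if_neg (not_not.2 h1)]; norm_num
          · rw [if_neg (fun hh => h1 hh.1), if_pos h1]
            split_ifs <;> norm_num
      _ = ∑ D ∈ (PI z (z ^ b) K).powerset, ((if ¬ Clean D then (1 : ℝ) else 0) / md D) *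
            pr lam D := by
          rw [← sum_union (PI z (z ^ b) K) (fun D D' => |lam D * lam D'|)
            (fun D => (if ¬ Clean D then (1 : ℝ) else 0) / md D)]
          rfl
      _ ≤ ∑ D ∈ (PI z (z ^ b) K).powerset, (if ¬ Clean D then
            L ^ 2 * ∏ w ∈ D, (4 / (w.1 : ℝ)) else 0) := by
          refine Finset.sum_le_sum (fun D hD => ?_)
          split_ifs with h1
          · simp
          · have h2 := pr_le lam L hL D
            calc (1 : ℝ) / md D * pr lam D ≤ 1 / md D * (L ^ 2 * 4 ^ D.card) :=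
                  mul_le_mul_of_nonneg_left h2 (by positivity)
              _ = L ^ 2 * ∏ w ∈ D, (4 / (w.1 : ℝ)) := by
                  rw [Finset.prod_div_distrib, Finset.prod_const]
                  unfold md
                  push_cast
                  ring
      _ = L ^ 2 * ∑ D ∈ (PI z (z ^ b) K).powerset.filter (fun D => ¬ Clean D),
            ∏ w ∈ D, (4 / (w.1 : ℝ)) := by
          rw [Finset.mul_sum, Finset.sum_filter]
      _ ≤ L ^ 2 * (16 * K ^ 2 * Real.exp (4 * K * (b + 15)) / z) :=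
          mul_le_mul_of_nonneg_left (sum_unclean z b K hz) (sq_nonneg L)
      _ = L ^ 2 * (16 * K ^ 2 * Real.exp (4 * K * (b + 15))) / z := by ring
      _ ≤ max (L ^ 2 * 4 ^ (2 * b)) (L ^ 2 * (16 * K ^ 2 * Real.exp (4 * K * (b + 15)))) / z :=
          div_le_div_of_nonneg_right (le_max_right _ _) (Nat.cast_nonneg _)
  · -- the norm
    unfold wnorm
    calc ∑ D ∈ (PI z (z ^ b) K).powerset, |cOf lam J D| / md D
        ≤ ∑ D ∈ (PI z (z ^ b) K).powerset, (1 / (md D : ℝ)) * pr lam D := by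
          refine Finset.sum_le_sum (fun D _ => ?_)
          rw [one_div_mul_eq_div]
          exact div_le_div_of_nonneg_right (abs_cOf_le lam J D) (Nat.cast_nonneg _)
      _ = ∑ D ∈ (PI z (z ^ b) K).powerset, ∑ D' ∈ (PI z (z ^ b) K).powerset,
            1 / (md (D ∪ D') : ℝ) * |lam D * lam D'| := by
          rw [← sum_union (PI z (z ^ b) K) (fun D D' => |lam D * lam D'|)
            (fun D => 1 / (md D : ℝ))]
          rfl
      _ = ∑ D ∈ (PI z (z ^ b) K).powerset, ∑ D' ∈ (PI z (z ^ b) K).powerset,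
            |lam D * lam D'| / md (D ∪ D') := by
          refine Finset.sum_congr rfl (fun D _ => Finset.sum_congr rfl (fun D' _ => ?_))
          rw [one_div_mul_eq_div]
  · -- values
    intro C0 z0 α β hMF hz2 hz0 U
    constructor
    · have e1 : wt z (z ^ b) (cOf lam Finset.univ) α β U =
          (∑ D ∈ (PI z (z ^ b) K).powerset, lam D * (if Holds α β D U then 1 else 0)) ^ 2 := by
        have e2 : wt z (z ^ b) (cOf lam Finset.univ) α β U = ∑ D ∈ (PI z (z ^ b) K).powerset,
            ∑ D' ∈ (PI z (z ^ b) K).powerset,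
            ((if Clean (D ∪ D') ∧ ∀ x ∈ D ∪ D', x.2 ∈ (Finset.univ : Finset (Fin K))
              then (1 : ℝ) else 0) * (if Holds α β (D ∪ D') U then 1 else 0)) *
              (lam D * lam D') := by
          rw [← sum_union (PI z (z ^ b) K) (fun D D' => lam D * lam D')
            (fun D => (if Clean D ∧ ∀ x ∈ D, x.2 ∈ (Finset.univ : Finset (Fin K))
              then (1 : ℝ) else 0) * (if Holds α β D U then 1 else 0))]
          unfold wt
          refine Finset.sum_congr rfl (fun D _ => ?_)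
          rw [cOf_eq]
          ring
        rw [e2, sq, Finset.sum_mul_sum]
        refine Finset.sum_congr rfl (fun D hD => Finset.sum_congr rfl (fun D' hD' => ?_))
        rw [Finset.mem_powerset] at hD hD'
        have hu : Holds α β (D ∪ D') U ↔ Holds α β D U ∧ Holds α β D' U := by
          unfold Holds
          constructor
          · intro h
            exact ⟨fun x hx => h x (Finset.mem_union_left _ hx),
              fun x hx => h x (Finset.mem_union_right _ hx)⟩
          · rintro ⟨h1, h2⟩ x hx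
            rcases Finset.mem_union.1 hx with h | h
            · exact h1 x h
            · exact h2 x h
        by_cases h1 : Holds α β D U
        · by_cases h2 : Holds α β D' U
          · have h3 : Clean (D ∪ D') := hc K C0 z0 z (z ^ b) α β hMF hz2 hz0 (D ∪ D') U
              (Finset.union_subset hD hD') (hu.2 ⟨h1, h2⟩)
            rw [if_pos h1, if_pos h2, if_pos (hu.2 ⟨h1, h2⟩),
              if_pos ⟨h3, fun x _ => Finset.mem_univ _⟩]
            ring
          · rw [if_neg h2, if_neg (fun hh => h2 (hu.1 hh).2)]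
            ring
        · rw [if_neg h1, if_neg (fun hh => h1 (hu.1 hh).1)]
          ring
      rw [e1]
      exact sq_nonneg _
    · intro i hi
      unfold wt
      refine Finset.sum_congr rfl (fun D hD => ?_)
      rw [Finset.mem_powerset] at hD
      by_cases h1 : Holds α β D U
      · congr 1
        unfold cOf
        have h2 : (Clean D ∧ ∀ x ∈ D, x.2 ∈ (Finset.univ : Finset (Fin K))) ↔
            (Clean D ∧ ∀ x ∈ D, x.2 ∈ (Finset.univ : Finset (Fin K)).erase i) := by
          constructor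
          · rintro ⟨a1, _⟩
            refine ⟨a1, fun x hx => Finset.mem_erase.2 ⟨?_, Finset.mem_univ _⟩⟩
            intro hxi
            have h3 := h1 x hx
            rw [hxi] at h3
            refine hi x.1 ?_ h3
            exact mem_PP.2 (mem_PI.1 (hD hx))
          · rintro ⟨a1, _⟩
            exact ⟨a1, fun x _ => Finset.mem_univ _⟩
        by_cases h3 : Clean D ∧ ∀ x ∈ D, x.2 ∈ (Finset.univ : Finset (Fin K)).erase i
        · rw [if_pos (h2.2 h3), if_pos h3]
        · rw [if_neg (fun hh => h3 (h2.1 hh)), if_neg h3]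
      · rw [if_neg h1]
        ring

end T95

end Pool.Agent.Lib.MT2
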