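import Mathlib
import Pool.Agent.Lib.MT2.Stmts2
import Pool.Agent.Lib.TwinAll.Aff81

/-!
Module TRANS: primes `a0 U + b0` are independent of the weight and of the roughness of the other
forms. Ramaré's identity, dyadic blocks, Cauchy-Schwarz, the dispersion estimate (DISP) and MIX.
-/

set_option autoImplicit false

namespace Pool.Agent.Lib.MT2.Trans49

open Finset
open Pool.Agent.Lib.TwinAll (PP Rough om VV nu ee)

lemma mem_PP {x y p : ℕ} : p ∈ PP x y ↔ x < p ∧ p ≤ y ∧ p.Prime := by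
  unfold PP
  rw [mem_filter, mem_Ioc, and_assoc]

/-! ### Ramaré's identity -/

open Classical in
/-- the number of primes of `(x, y]` dividing `n` -/
noncomputable def os (x y : ℕ) (n : ℤ) : ℕ := ((PP x y).filter (fun p : ℕ => (p : ℤ) ∣ n)).card

/-- Ramaré's weight -/
noncomputable def cc (x y : ℕ) (m : ℤ) : ℝ := 1 / (1 + (os x y m : ℝ))

lemma cc_nonneg (x y : ℕ) (m : ℤ) : 0 ≤ cc x y m := by unfold cc; positivity

lemma cc_le_one (x y : ℕ) (m : ℤ) : cc x y m ≤ 1 := by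
  unfold cc
  rw [div_le_one (by positivity)]
  have : (0 : ℝ) ≤ os x y m := by positivity
  linarith

lemma os_mul {x y p : ℕ} {m : ℤ} (hp : p ∈ PP x y) (hpm : ¬ (p : ℤ) ∣ m) :
    os x y (p * m) = os x y m + 1 := by
  classical
  unfold os
  have h1 : (PP x y).filter (fun q : ℕ => (q : ℤ) ∣ p * m) =
      insert p ((PP x y).filter (fun q : ℕ => (q : ℤ) ∣ m)) := by
    ext q
    rw [mem_insert, mem_filter, mem_filter]
    constructor
    · rintro ⟨hq, hd⟩
      rcases (Nat.prime_iff_prime_int.1 (mem_PP.1 hq).2.2).dvd_or_dvd hd with h | h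
      · left
        have : q ∣ p := by exact_mod_cast h
        exact (Nat.prime_dvd_prime_iff_eq (mem_PP.1 hq).2.2 (mem_PP.1 hp).2.2).1 this
      · exact Or.inr ⟨hq, h⟩
    · rintro (rfl | ⟨hq, hd⟩)
      · exact ⟨hp, dvd_mul_right _ _⟩
      · exact ⟨hq, hd.mul_left _⟩
  rw [h1, card_insert_of_notMem]
  rw [mem_filter]
  exact fun h => hpm h.2

lemma prime_iff {z' Y : ℕ} {n : ℤ} (hz : z' ≤ Y) (hn : (Y : ℤ) < n) (hn2 : n ≤ (Y : ℤ) ^ 2)
    (hr : ∀ q : ℕ, q.Prime → q ≤ z' → ¬ (q : ℤ) ∣ n) : Prime n ↔ os z' Y n = 0 := by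
  classical
  have hn0 : 0 ≤ n := by omega
  lift n to ℕ using hn0
  have hn' : Y < n := by exact_mod_cast hn
  have hn2' : n ≤ Y ^ 2 := by exact_mod_cast hn2
  rw [← Nat.prime_iff_prime_int]
  unfold os
  rw [card_eq_zero, filter_eq_empty_iff]
  constructor
  · intro h q hq hd
    have h1 : q ∣ n := by exact_mod_cast hd
    have h2 := (Nat.prime_dvd_prime_iff_eq (mem_PP.1 hq).2.2 h).1 h1
    have := (mem_PP.1 hq).2.1
    omega
  · intro h
    by_contra hcon
    have hn1 : n ≠ 1 := by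
      rintro rfl
      have : Y = 0 := by omega
      rw [this] at hn2'
      norm_num at hn2'
    have h1 := Nat.minFac_sq_le_self (by omega) hcon
    have h2 := Nat.minFac_prime hn1
    have h3 : n.minFac ≤ Y := by
      by_contra h4
      have : Y ^ 2 < n.minFac ^ 2 := Nat.pow_lt_pow_left (by omega) (by norm_num)
      omega
    have h4 : z' < n.minFac := by
      by_contra h5
      exact hr _ h2 (by omega) (by exact_mod_cast Nat.minFac_dvd n)
    exact h (mem_PP.2 ⟨h4, h3, h2⟩) (by exact_mod_cast Nat.minFac_dvd n)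

open Classical in
lemma key_pt {z' Y : ℕ} {n : ℤ} (hz : z' ≤ Y) (hn : (Y : ℤ) < n) (hn2 : n ≤ (Y : ℤ) ^ 2)
    (hr : ∀ q : ℕ, q.Prime → q ≤ z' → ¬ (q : ℤ) ∣ n) :
    |(if Prime n then (1 : ℝ) else 0) - 1 +
        ∑ p ∈ (PP z' Y).filter (fun p : ℕ => (p : ℤ) ∣ n), cc z' Y (n / p)| ≤
      ((((PP z' Y).filter (fun p : ℕ => (p : ℤ) ^ 2 ∣ n)).card : ℕ) : ℝ) := by
  have h1 : (if Prime n then (1 : ℝ) else 0) - 1 =
      - ∑ p ∈ (PP z' Y).filter (fun p : ℕ => (p : ℤ) ∣ n), 1 / (os z' Y n : ℝ) := by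
    rw [sum_const, nsmul_eq_mul]
    have h2 : ((((PP z' Y).filter (fun p : ℕ => (p : ℤ) ∣ n)).card : ℕ) : ℝ) = os z' Y n := rfl
    rw [h2]
    by_cases h : Prime n
    · rw [if_pos h, (prime_iff hz hn hn2 hr).1 h]
      norm_num
    · rw [if_neg h]
      have h3 : os z' Y n ≠ 0 := fun h4 => h ((prime_iff hz hn hn2 hr).2 h4)
      have h4 : (os z' Y n : ℝ) ≠ 0 := by exact_mod_cast h3
      field_simp
      norm_num
  rw [h1, neg_add_eq_sub, ← sum_sub_distrib]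
  calc |∑ p ∈ (PP z' Y).filter (fun p : ℕ => (p : ℤ) ∣ n), (cc z' Y (n / p) - 1 / (os z' Y n : ℝ))|
      ≤ ∑ p ∈ (PP z' Y).filter (fun p : ℕ => (p : ℤ) ∣ n),
        |cc z' Y (n / p) - 1 / (os z' Y n : ℝ)| := abs_sum_le_sum_abs _ _
    _ ≤ ∑ p ∈ (PP z' Y).filter (fun p : ℕ => (p : ℤ) ∣ n),
        (if (p : ℤ) ^ 2 ∣ n then (1 : ℝ) else 0) := by
        apply sum_le_sum
        intro p hp
        rw [mem_filter] at hp
        have hp0 : (p : ℤ) ≠ 0 := by exact_mod_cast (mem_PP.1 hp.1).2.2.ne_zero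
        obtain ⟨m, hm⟩ := hp.2
        have hdiv : n / p = m := by rw [hm]; exact Int.mul_ediv_cancel_left _ hp0
        have hos : 0 < os z' Y n := by
          unfold os
          exact card_pos.2 ⟨p, mem_filter.2 hp⟩
        by_cases hsq : (p : ℤ) ^ 2 ∣ n
        · rw [if_pos hsq, abs_le]
          have h2 := cc_nonneg z' Y (n / p)
          have h3 := cc_le_one z' Y (n / p)
          have h4 : (0 : ℝ) ≤ 1 / (os z' Y n : ℝ) := by positivity
          have h5 : 1 / (os z' Y n : ℝ) ≤ 1 := by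
            rw [div_le_one (by exact_mod_cast hos)]
            exact_mod_cast hos
          constructor <;> linarith
        · rw [if_neg hsq]
          have hpm : ¬ (p : ℤ) ∣ m := by
            rintro ⟨m', hm'⟩
            exact hsq ⟨m', by rw [hm, hm']; ring⟩
          have h2 := os_mul hp.1 hpm
          rw [← hm] at h2
          rw [hdiv, h2]
          unfold cc
          push_cast
          rw [add_comm (1 : ℝ)]
          simp
    _ ≤ _ := by
        rw [← sum_filter, sum_const, nsmul_eq_mul, mul_one]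
        have : (((PP z' Y).filter (fun p : ℕ => (p : ℤ) ∣ n)).filter
          (fun p : ℕ => (p : ℤ) ^ 2 ∣ n)).card ≤
            ((PP z' Y).filter (fun p : ℕ => (p : ℤ) ^ 2 ∣ n)).card := by
          apply card_le_card
          intro p hp
          rw [mem_filter, mem_filter] at hp
          exact mem_filter.2 ⟨hp.1.1, hp.2⟩
        exact_mod_cast this

/-! ### Counting -/

/-- integers of `(0, H]` whose differences are divisible by `m` -/
lemma card_class {H m : ℕ} (hm : 0 < m) (S : Finset ℤ) (hS : S ⊆ Ioc (0 : ℤ) H)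
    (hd : ∀ U ∈ S, ∀ V ∈ S, (m : ℤ) ∣ U - V) : S.card ≤ H / m + 1 := by
  have h1 : S.card ≤ (range (H / m + 1)).card := by
    apply card_le_card_of_injOn (fun U : ℤ => (U / m).toNat)
    · intro U hU
      have hU1 := mem_Ioc.1 (hS hU)
      have h2 : U / (m : ℤ) ≤ (H : ℤ) / m := Int.ediv_le_ediv (by exact_mod_cast hm) hU1.2
      have h3 : 0 ≤ U / (m : ℤ) := Int.ediv_nonneg hU1.1.le (by positivity)
      rw [mem_coe, mem_range]
      have h4 : ((H / m : ℕ) : ℤ) = (H : ℤ) / m := by push_cast; rfl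
      show (U / (m : ℤ)).toNat < H / m + 1
      omega
    · intro U hU V hV huv
      have hU1 := mem_Ioc.1 (hS hU)
      have hV1 := mem_Ioc.1 (hS hV)
      have h2 : (U / (m : ℤ)).toNat = (V / (m : ℤ)).toNat := huv
      have h3 : 0 ≤ U / (m : ℤ) := Int.ediv_nonneg hU1.1.le (by positivity)
      have h4 : 0 ≤ V / (m : ℤ) := Int.ediv_nonneg hV1.1.le (by positivity)
      have h5 : U / (m : ℤ) = V / (m : ℤ) := by omega
      have h6 : U % (m : ℤ) = V % (m : ℤ) :=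
        (Int.emod_emod_of_dvd U (dvd_refl (m : ℤ))).symm.trans (by
          have := Int.emod_emod_of_dvd U (dvd_refl (m : ℤ))
          rw [this]
          exact (Int.emod_eq_emod_iff_emod_sub_eq_zero).2 (Int.emod_eq_zero_of_dvd (hd U hU V hV)))
      calc U = (m : ℤ) * (U / m) + U % m := (Int.mul_ediv_add_emod U m).symm
        _ = (m : ℤ) * (V / m) + V % m := by rw [h5, h6]
        _ = V := Int.mul_ediv_add_emod V m
  rwa [card_range] at h1

lemma sum_inv_sq {z' Y : ℕ} (hz : 0 < z') :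
    ∑ p ∈ PP z' Y, 1 / ((p : ℝ) ^ 2) ≤ 1 / (z' : ℝ) := by
  rcases le_total z' Y with h | h
  · calc ∑ p ∈ PP z' Y, 1 / ((p : ℝ) ^ 2) ≤ ∑ p ∈ Ioc z' Y, ((p : ℝ) ^ 2)⁻¹ := by
          simp_rw [one_div]
          exact sum_le_sum_of_subset_of_nonneg (filter_subset _ _) (fun _ _ _ => by positivity)
      _ ≤ (z' : ℝ)⁻¹ - (Y : ℝ)⁻¹ := sum_Ioc_inv_sq_le_sub hz.ne' h
      _ ≤ 1 / (z' : ℝ) := by
          rw [one_div]
          have : (0 : ℝ) ≤ (Y : ℝ)⁻¹ := by positivity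
          linarith
  · have : PP z' Y = ∅ := by
      unfold PP
      rw [Ioc_eq_empty (by omega), filter_empty]
    rw [this, sum_empty]
    positivity

open Classical in
lemma card_small {H Y C0 : ℕ} {a0 b0 : ℤ} (ha0 : 0 < a0) (hb0 : |b0| ≤ C0) :
    (((Ioc (0 : ℤ) H).filter (fun U => ¬ (Y : ℤ) < a0 * U + b0)).card : ℝ) ≤ Y + C0 := by
  have h1 : ((Ioc (0 : ℤ) H).filter (fun U => ¬ (Y : ℤ) < a0 * U + b0)).card ≤
      (Ioc (0 : ℤ) ((Y + C0 : ℕ) : ℤ)).card := by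
    apply card_le_card
    intro U hU
    rw [mem_filter, mem_Ioc] at hU
    rw [mem_Ioc]
    refine ⟨hU.1.1, ?_⟩
    have h2 : U ≤ a0 * U := by nlinarith [hU.1.1]
    have h3 := (abs_le.1 hb0).1
    push_cast
    have h4 := not_lt.1 hU.2
    linarith
  rw [Int.card_Ioc] at h1
  have h2 : ((((Y + C0 : ℕ) : ℤ) - 0).toNat) = Y + C0 := by
    rw [sub_zero]
    exact Int.toNat_natCast _
  rw [h2] at h1
  exact_mod_cast h1

open Classical in
lemma card_sq {H p : ℕ} {a0 b0 : ℤ} (hp : p.Prime) (hpa : ¬ (p : ℤ) ∣ a0) :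
    (((Ioc (0 : ℤ) H).filter (fun U => (p : ℤ) ^ 2 ∣ a0 * U + b0)).card : ℝ) ≤
      H * (1 / (p : ℝ) ^ 2) + 1 := by
  have hp2 : 0 < p ^ 2 := pow_pos hp.pos 2
  have h1 := card_class (H := H) (m := p ^ 2) hp2
    ((Ioc (0 : ℤ) H).filter (fun U => (p : ℤ) ^ 2 ∣ a0 * U + b0)) (filter_subset _ _) (by
      intro U hU V hV
      rw [mem_filter] at hU hV
      have h2 : (p : ℤ) ^ 2 ∣ a0 * (U - V) := by
        have := dvd_sub hU.2 hV.2
        have h3 : a0 * U + b0 - (a0 * V + b0) = a0 * (U - V) := by ring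
        rwa [h3] at this
      have hcop : IsCoprime ((p : ℤ) ^ 2) a0 :=
        IsCoprime.pow_left ((Prime.coprime_iff_not_dvd (Nat.prime_iff_prime_int.1 hp)).2 hpa)
      push_cast
      exact hcop.dvd_of_dvd_mul_left h2)
  have h2 : ((H / p ^ 2 : ℕ) : ℝ) ≤ (H : ℝ) / ((p ^ 2 : ℕ) : ℝ) := Nat.cast_div_le
  have h3 : (((Ioc (0 : ℤ) H).filter (fun U => (p : ℤ) ^ 2 ∣ a0 * U + b0)).card : ℝ) ≤
      ((H / p ^ 2 : ℕ) : ℝ) + 1 := by exact_mod_cast h1
  have h4 : (H : ℝ) * (1 / (p : ℝ) ^ 2) = (H : ℝ) / ((p ^ 2 : ℕ) : ℝ) := by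
    push_cast
    rw [mul_one_div]
  rw [h4]
  linarith

open Classical in
/-- the sum over primes in terms of the sum over rough numbers and the sum over products -/
lemma prime_sum (z0 z' Y H C0 : ℕ) (a0 b0 : ℤ) (F : ℤ → ℝ) (G : ℝ)
    (ha0 : 0 < a0) (hb0 : |b0| ≤ C0) (hzz : z0 ≤ z') (hzY : z' ≤ Y) (hz' : 0 < z')
    (hcop : IsCoprime a0 b0) (hsm : ∀ q : ℕ, q.Prime → q ≤ z0 → (q : ℤ) ∣ a0)
    (hlg : ∀ q : ℕ, q.Prime → (q : ℤ) ∣ a0 → q ≤ z0) (hmax : a0 * H + b0 ≤ (Y : ℤ) ^ 2)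
    (hG : 0 ≤ G) (hF : ∀ U ∈ Ioc (0 : ℤ) H, |F U| ≤ G) :
    |∑ U ∈ (Ioc (0 : ℤ) H).filter (fun U => Prime (a0 * U + b0)), F U| ≤
      |∑ U ∈ (Ioc (0 : ℤ) H).filter (fun U => Rough z0 z' (a0 * U + b0)), F U| +
      |∑ p ∈ PP z' Y, ∑ U ∈ (Ioc (0 : ℤ) H).filter (fun U => (Rough z0 z' (a0 * U + b0) ∧
        (Y : ℤ) < a0 * U + b0) ∧ (p : ℤ) ∣ a0 * U + b0), cc z' Y ((a0 * U + b0) / p) * F U| +
      G * (2 * (Y + C0) + (H * (1 / (z' : ℝ)) + Y)) := by
  set I := Ioc (0 : ℤ) H with hI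
  set n : ℤ → ℤ := fun U => a0 * U + b0 with hn
  set P' : ℤ → ℝ := fun U => if Prime (n U) then 1 else 0 with hP'
  set Q' : ℤ → ℝ := fun U => if Rough z0 z' (n U) then 1 else 0 with hQ'
  set L' : ℤ → ℝ := fun U => if (Y : ℤ) < n U then 1 else 0 with hL'
  set S : ℤ → ℝ := fun U => ∑ p ∈ (PP z' Y).filter (fun p : ℕ => (p : ℤ) ∣ n U),
    cc z' Y (n U / p) with hS
  have hroughall : ∀ U : ℤ, Rough z0 z' (n U) → ∀ q : ℕ, q.Prime → q ≤ z' → ¬ (q : ℤ) ∣ n U := by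
    intro U hU q hq hqz hd
    by_cases h : z0 < q
    · exact hU q (mem_PP.2 ⟨h, hqz, hq⟩) hd
    · have h1 := hsm q hq (by omega)
      have h2 : (q : ℤ) ∣ b0 := by
        have h3 : b0 = n U - a0 * U := by simp only [hn]; ring
        rw [h3]
        exact dvd_sub hd (h1.mul_right _)
      have h4 := hcop.isUnit_of_dvd' h1 h2
      exact (Nat.prime_iff_prime_int.1 hq).not_isUnit h4
  have hPL : ∀ U, P' U * L' U = Q' U * L' U * P' U := by
    intro U
    simp only [hP', hQ', hL']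
    by_cases h1 : Prime (n U)
    · by_cases h2 : (Y : ℤ) < n U
      · have h3 : Rough z0 z' (n U) := by
          intro q hq hd
          have hq1 := mem_PP.1 hq
          have h4 : (0 : ℤ) ≤ n U := by omega
          obtain ⟨m, hm⟩ := Int.eq_ofNat_of_zero_le h4
          rw [hm] at h1 hd
          have h5 : m.Prime := Nat.prime_iff_prime_int.2 h1
          have h6 : q ∣ m := by exact_mod_cast hd
          have h7 := (Nat.prime_dvd_prime_iff_eq hq1.2.2 h5).1 h6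
          have h8 : (Y : ℤ) < (m : ℤ) := by rw [← hm]; exact h2
          have h9 : Y < m := by exact_mod_cast h8
          omega
        rw [if_pos h1, if_pos h2, if_pos h3]
        norm_num
      · rw [if_neg h2]; ring
    · rw [if_neg h1]; ring
  have hid : ∀ U, P' U * F U = Q' U * F U - Q' U * L' U * S U * F U +
      P' U * (1 - L' U) * F U - Q' U * (1 - L' U) * F U +
      Q' U * L' U * (P' U - 1 + S U) * F U := by
    intro U
    linear_combination (F U) * hPL U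
  have e1 : ∑ U ∈ I.filter (fun U => Prime (a0 * U + b0)), F U = ∑ U ∈ I, P' U * F U := by
    rw [sum_filter]
    apply sum_congr rfl
    intro U _
    simp only [hP', hn]
    split_ifs <;> ring
  have e2 : ∑ U ∈ I.filter (fun U => Rough z0 z' (a0 * U + b0)), F U = ∑ U ∈ I, Q' U * F U := by
    rw [sum_filter]
    apply sum_congr rfl
    intro U _
    simp only [hQ', hn]
    split_ifs <;> ring
  have e3 : ∑ p ∈ PP z' Y, ∑ U ∈ I.filter (fun U => (Rough z0 z' (a0 * U + b0) ∧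
      (Y : ℤ) < a0 * U + b0) ∧ (p : ℤ) ∣ a0 * U + b0), cc z' Y ((a0 * U + b0) / p) * F U =
      ∑ U ∈ I, Q' U * L' U * S U * F U := by
    simp_rw [sum_filter]
    rw [sum_comm]
    apply sum_congr rfl
    intro U _
    simp only [hQ', hL', hS, hn, sum_filter]
    by_cases h1 : Rough z0 z' (a0 * U + b0)
    · by_cases h2 : (Y : ℤ) < a0 * U + b0
      · rw [if_pos h1, if_pos h2, one_mul, one_mul, sum_mul]
        apply sum_congr rfl
        intro p _
        by_cases h3 : (p : ℤ) ∣ a0 * U + b0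
        · rw [if_pos h3, if_pos ⟨⟨h1, h2⟩, h3⟩]
        · rw [if_neg h3, if_neg (fun h => h3 h.2)]; ring
      · rw [if_neg h2]
        rw [sum_eq_zero (fun p _ => if_neg (fun h => h2 h.1.2))]
        ring
    · rw [if_neg h1]
      rw [sum_eq_zero (fun p _ => if_neg (fun h => h1 h.1.1))]
      ring
  have hP01 : ∀ U, 0 ≤ P' U ∧ P' U ≤ 1 := fun U => by
    simp only [hP']; split_ifs <;> norm_num
  have hQ01 : ∀ U, 0 ≤ Q' U ∧ Q' U ≤ 1 := fun U => by
    simp only [hQ']; split_ifs <;> norm_num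
  have hL01 : ∀ U, 0 ≤ L' U ∧ L' U ≤ 1 := fun U => by
    simp only [hL']; split_ifs <;> norm_num
  have hsmall : ∑ U ∈ I, (1 - L' U) ≤ Y + C0 := by
    have h1 := card_small (H := H) (Y := Y) ha0 hb0
    refine le_trans (le_of_eq ?_) h1
    rw [card_eq_sum_ones, Nat.cast_sum, sum_filter]
    apply sum_congr rfl
    intro U _
    simp only [hL', hn]
    split_ifs <;> simp_all
  have E1 : ∀ (f : ℤ → ℝ), (∀ U, 0 ≤ f U ∧ f U ≤ 1) →
      |∑ U ∈ I, f U * (1 - L' U) * F U| ≤ G * (Y + C0) := by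
    intro f hf
    calc |∑ U ∈ I, f U * (1 - L' U) * F U| ≤ ∑ U ∈ I, |f U * (1 - L' U) * F U| :=
          abs_sum_le_sum_abs _ _
      _ ≤ ∑ U ∈ I, (1 - L' U) * G := by
          apply sum_le_sum
          intro U hU
          have h1 := hf U
          have h2 := hL01 U
          have h3 := hF U hU
          rw [abs_mul, abs_mul, abs_of_nonneg h1.1, abs_of_nonneg (by linarith : 0 ≤ 1 - L' U)]
          apply mul_le_mul _ h3 (abs_nonneg _) (by linarith)
          nlinarith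
      _ = (∑ U ∈ I, (1 - L' U)) * G := by rw [sum_mul]
      _ ≤ G * (Y + C0) := by
          rw [mul_comm]
          exact mul_le_mul_of_nonneg_left hsmall hG
  have E3 : |∑ U ∈ I, Q' U * L' U * (P' U - 1 + S U) * F U| ≤
      G * (H * (1 / (z' : ℝ)) + Y) := by
    calc |∑ U ∈ I, Q' U * L' U * (P' U - 1 + S U) * F U|
        ≤ ∑ U ∈ I, |Q' U * L' U * (P' U - 1 + S U) * F U| := abs_sum_le_sum_abs _ _
      _ ≤ ∑ U ∈ I, G * ((((PP z' Y).filter (fun p : ℕ => (p : ℤ) ^ 2 ∣ n U)).card : ℕ) : ℝ) := by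
          apply sum_le_sum
          intro U hU
          have hFU := hF U hU
          simp only [hQ', hL']
          by_cases h1 : Rough z0 z' (n U)
          · by_cases h2 : (Y : ℤ) < n U
            · rw [if_pos h1, if_pos h2, one_mul, one_mul, abs_mul, mul_comm]
              have h3 : n U ≤ (Y : ℤ) ^ 2 := by
                refine le_trans ?_ hmax
                simp only [hn]
                have := (mem_Ioc.1 hU).2
                nlinarith
              have h4 := key_pt hzY h2 h3 (hroughall U h1)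
              exact mul_le_mul hFU h4 (abs_nonneg _) hG
            · rw [if_neg h2]
              simp only [mul_zero, zero_mul, abs_zero]
              positivity
          · rw [if_neg h1]
            simp only [zero_mul, abs_zero]
            positivity
      _ = G * ∑ p ∈ PP z' Y, (((I.filter (fun U => (p : ℤ) ^ 2 ∣ a0 * U + b0)).card : ℕ) : ℝ) := by
          rw [← mul_sum]
          congr 1
          simp_rw [card_eq_sum_ones, Nat.cast_sum, sum_filter]
          rw [sum_comm]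
      _ ≤ G * ∑ p ∈ PP z' Y, (H * (1 / (p : ℝ) ^ 2) + 1) := by
          apply mul_le_mul_of_nonneg_left _ hG
          apply sum_le_sum
          intro p hp
          have hp1 := mem_PP.1 hp
          exact card_sq hp1.2.2 (fun h => by have := hlg p hp1.2.2 h; omega)
      _ ≤ G * (H * (1 / (z' : ℝ)) + Y) := by
          apply mul_le_mul_of_nonneg_left _ hG
          rw [sum_add_distrib, ← mul_sum, sum_const, nsmul_eq_mul, mul_one]
          apply add_le_add
          · exact mul_le_mul_of_nonneg_left (sum_inv_sq hz') (by positivity)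
          · have : (PP z' Y).card ≤ Y := by
              calc (PP z' Y).card ≤ (Ioc z' Y).card := card_le_card (filter_subset _ _)
                _ = Y - z' := Nat.card_Ioc _ _
                _ ≤ Y := Nat.sub_le _ _
            exact_mod_cast this
  have hsum : ∑ U ∈ I, P' U * F U = ∑ U ∈ I, Q' U * F U - ∑ U ∈ I, Q' U * L' U * S U * F U +
      ∑ U ∈ I, P' U * (1 - L' U) * F U - ∑ U ∈ I, Q' U * (1 - L' U) * F U +
      ∑ U ∈ I, Q' U * L' U * (P' U - 1 + S U) * F U := by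
    rw [← sum_sub_distrib, ← sum_add_distrib, ← sum_sub_distrib, ← sum_add_distrib]
    exact sum_congr rfl (fun U _ => hid U)
  rw [e1, e2, e3, hsum]
  have h1 := E1 P' hP01
  have h2 := E1 Q' hQ01
  have h3 := abs_le.1 h1
  have h4 := abs_le.1 h2
  have h5 := abs_le.1 E3
  have h6 := le_abs_self (∑ U ∈ I, Q' U * F U)
  have h7 := neg_abs_le (∑ U ∈ I, Q' U * F U)
  have h8 := le_abs_self (∑ U ∈ I, Q' U * L' U * S U * F U)
  have h9 := neg_abs_le (∑ U ∈ I, Q' U * L' U * S U * F U)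
  rw [abs_le]
  constructor <;> linarith

/-! ### From `U` to the cofactor `m` -/

lemma rough_mul {z0 z' p : ℕ} {m : ℤ} (hp : p.Prime) (hpz : z' < p) :
    Rough z0 z' (p * m) ↔ Rough z0 z' m := by
  constructor
  · intro h q hq hd
    exact h q hq (hd.mul_left _)
  · intro h q hq hd
    have hq1 := mem_PP.1 hq
    rcases (Nat.prime_iff_prime_int.1 hq1.2.2).dvd_or_dvd hd with h1 | h1
    · have h2 : q ∣ p := by exact_mod_cast h1
      have h3 := (Nat.prime_dvd_prime_iff_eq hq1.2.2 hp).1 h2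
      omega
    · exact h q hq h1

open Classical in
lemma inner_bij (z0 z' Y H M p : ℕ) (a0 b0 : ℤ) (F w : ℤ → ℝ) (ha0 : 0 < a0) (hp : p.Prime)
    (hpz : z' < p) (hY : |b0| < Y) (hM : ∀ m : ℤ, (p : ℤ) * m ≤ a0 * H + b0 → m ≤ M) :
    ∑ U ∈ (Ioc (0 : ℤ) H).filter (fun U => (Rough z0 z' (a0 * U + b0) ∧
        (Y : ℤ) < a0 * U + b0) ∧ (p : ℤ) ∣ a0 * U + b0), w ((a0 * U + b0) / p) * F U =
    ∑ m ∈ (Ioc (0 : ℤ) M).filter (fun m => (a0 ∣ (p : ℤ) * m - b0 ∧ Rough z0 z' m) ∧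
        ((Y : ℤ) < p * m ∧ p * m ≤ a0 * H + b0)), w m * F (((p : ℤ) * m - b0) / a0) := by
  have hp0 : (0 : ℤ) < p := by exact_mod_cast hp.pos
  have hb := abs_lt.1 hY
  apply sum_nbij' (fun U => (a0 * U + b0) / p) (fun m => ((p : ℤ) * m - b0) / a0)
  · intro U hU
    rw [mem_filter, mem_Ioc] at hU
    obtain ⟨⟨h0, h1⟩, ⟨h2, h3⟩, ⟨m, hm⟩⟩ := hU
    have hdiv : (a0 * U + b0) / p = m := by rw [hm]; exact Int.mul_ediv_cancel_left _ hp0.ne'
    rw [hdiv, mem_filter, mem_Ioc]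
    have h4 : (p : ℤ) * m ≤ a0 * H + b0 := by rw [← hm]; nlinarith
    have h5 : (Y : ℤ) < p * m := by rw [← hm]; exact h3
    have h6 : 0 < m := by
      by_contra hcon
      have : (p : ℤ) * m ≤ 0 := mul_nonpos_of_nonneg_of_nonpos hp0.le (not_lt.1 hcon)
      omega
    refine ⟨⟨h6, hM m h4⟩, ⟨⟨U, by rw [← hm]; ring⟩, ?_⟩, h5, h4⟩
    rw [hm] at h2
    exact (rough_mul hp hpz).1 h2
  · intro m hm
    rw [mem_filter, mem_Ioc] at hm
    obtain ⟨⟨h0, h1⟩, ⟨⟨U, hU⟩, h2⟩, h3, h4⟩ := hm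
    have hdiv : ((p : ℤ) * m - b0) / a0 = U := by rw [hU]; exact Int.mul_ediv_cancel_left _ ha0.ne'
    have hU' : a0 * U + b0 = p * m := by rw [← hU]; ring
    rw [hdiv, mem_filter, mem_Ioc, hU']
    refine ⟨⟨?_, ?_⟩, ⟨(rough_mul hp hpz).2 h2, h3⟩, dvd_mul_right _ _⟩
    · by_contra hcon
      have : a0 * U ≤ 0 := mul_nonpos_of_nonneg_of_nonpos ha0.le (not_lt.1 hcon)
      omega
    · have h5 : a0 * U ≤ a0 * H := by rw [← hU']  at h4; omega
      exact le_of_mul_le_mul_left h5 ha0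
  · intro U hU
    rw [mem_filter, mem_Ioc] at hU
    obtain ⟨-, -, hm⟩ := hU
    have h1 : (p : ℤ) * ((a0 * U + b0) / p) = a0 * U + b0 := Int.mul_ediv_cancel' hm
    rw [h1]
    have h2 : a0 * U + b0 - b0 = a0 * U := by ring
    rw [h2]
    exact Int.mul_ediv_cancel_left _ ha0.ne'
  · intro m hm
    rw [mem_filter, mem_Ioc] at hm
    obtain ⟨-, ⟨h1, -⟩, -⟩ := hm
    have h2 : a0 * (((p : ℤ) * m - b0) / a0) = p * m - b0 := Int.mul_ediv_cancel' h1
    rw [h2]
    have h3 : (p : ℤ) * m - b0 + b0 = p * m := by ring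
    rw [h3]
    exact Int.mul_ediv_cancel_left _ hp0.ne'
  · intro U hU
    rw [mem_filter, mem_Ioc] at hU
    obtain ⟨-, -, hm⟩ := hU
    have h1 : (p : ℤ) * ((a0 * U + b0) / p) = a0 * U + b0 := Int.mul_ediv_cancel' hm
    rw [h1]
    have h2 : a0 * U + b0 - b0 = a0 * U := by ring
    rw [h2, Int.mul_ediv_cancel_left _ ha0.ne']

open Classical in
lemma block_eq (z0 z' Y Y1 H M : ℕ) (a0 b0 : ℤ) (F w : ℤ → ℝ) (ha0 : 0 < a0)
    (hlg : ∀ q : ℕ, q.Prime → (q : ℤ) ∣ a0 → q ≤ z0) (hzz : z0 ≤ z') (hY1 : z' ≤ Y1) (hY : |b0| < Y) (m0 : ℕ → ℤ)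
    (hm0 : ∀ cl : ℕ, Nat.Coprime cl a0.toNat → a0 ∣ (cl : ℤ) * m0 cl - b0)
    (hM : ∀ m : ℤ, (Y1 : ℤ) * m ≤ a0 * H + b0 → m ≤ M) :
    ∑ p ∈ PP Y1 (2 * Y1), ∑ U ∈ (Ioc (0 : ℤ) H).filter (fun U => (Rough z0 z' (a0 * U + b0) ∧
        (Y : ℤ) < a0 * U + b0) ∧ (p : ℤ) ∣ a0 * U + b0), w ((a0 * U + b0) / p) * F U =
    ∑ cl ∈ (range a0.toNat).filter (fun cl => Nat.Coprime cl a0.toNat),
      ∑ m ∈ (Ioc (0 : ℤ) M).filter (fun m => a0 ∣ m - m0 cl),
        (if Rough z0 z' m then w m else 0) *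
          ∑ p ∈ (PP Y1 (2 * Y1)).filter (fun p : ℕ => a0 ∣ (p : ℤ) - cl ∧
            (Y : ℤ) < p * m ∧ p * m ≤ a0 * H + b0), F (((p : ℤ) * m - b0) / a0) := by
  have hA : ((a0.toNat : ℕ) : ℤ) = a0 := Int.toNat_of_nonneg ha0.le
  have hA0 : 0 < a0.toNat := by omega
  have hstep1 : ∀ p ∈ PP Y1 (2 * Y1),
      ∑ U ∈ (Ioc (0 : ℤ) H).filter (fun U => (Rough z0 z' (a0 * U + b0) ∧
        (Y : ℤ) < a0 * U + b0) ∧ (p : ℤ) ∣ a0 * U + b0), w ((a0 * U + b0) / p) * F U =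
      ∑ m ∈ (Ioc (0 : ℤ) M).filter (fun m => (a0 ∣ (p : ℤ) * m - b0 ∧ Rough z0 z' m) ∧
        ((Y : ℤ) < p * m ∧ p * m ≤ a0 * H + b0)), w m * F (((p : ℤ) * m - b0) / a0) := by
    intro p hp
    have hp1 := mem_PP.1 hp
    apply inner_bij z0 z' Y H M p a0 b0 F w ha0 hp1.2.2 (by omega) hY
    intro m hm
    by_cases h : m ≤ 0
    · exact h.trans (by positivity)
    · apply hM m
      refine le_trans ?_ hm
      have : (Y1 : ℤ) ≤ p := by exact_mod_cast hp1.1.le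
      exact mul_le_mul_of_nonneg_right this (by omega)
  rw [sum_congr rfl hstep1]
  have hmaps : ∀ p ∈ PP Y1 (2 * Y1),
      p % a0.toNat ∈ (range a0.toNat).filter (fun cl => Nat.Coprime cl a0.toNat) := by
    intro p hp
    have hp1 := mem_PP.1 hp
    rw [mem_filter, mem_range]
    refine ⟨Nat.mod_lt _ hA0, ?_⟩
    have h1 : Nat.Coprime p a0.toNat := by
      rw [Nat.Prime.coprime_iff_not_dvd hp1.2.2]
      intro hd
      have h2 : (p : ℤ) ∣ a0 := by
        rw [← hA]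
        exact_mod_cast hd
      have := hlg p hp1.2.2 h2
      omega
    unfold Nat.Coprime
    rw [← Nat.gcd_rec, Nat.gcd_comm]
    exact h1
  rw [← sum_fiberwise_of_maps_to hmaps]
  apply sum_congr rfl
  intro cl hcl
  rw [mem_filter, mem_range] at hcl
  have hclass : ∀ p : ℕ, (p % a0.toNat = cl) ↔ a0 ∣ (p : ℤ) - cl := by
    intro p
    constructor
    · intro h
      rw [← h]
      have h1 : (p : ℤ) - ((p % a0.toNat : ℕ) : ℤ) = a0 * ((p / a0.toNat : ℕ) : ℤ) := by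
        have h2 := Nat.div_add_mod p a0.toNat
        have h3 : ((a0.toNat * (p / a0.toNat) + p % a0.toNat : ℕ) : ℤ) = (p : ℤ) := by rw [h2]
        rw [Nat.cast_add, Nat.cast_mul, hA] at h3
        linarith
      rw [h1]
      exact dvd_mul_right _ _
    · intro h
      have h1 : ((cl : ℕ) : ℤ) ≡ p [ZMOD a0.toNat] := by
        rw [hA]
        exact (Int.modEq_iff_dvd).2 h
      have h2 := (Int.natCast_modEq_iff).1 h1
      have h3 : cl % a0.toNat = p % a0.toNat := h2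
      rw [Nat.mod_eq_of_lt hcl.1] at h3
      exact h3.symm
  have hm0' := hm0 cl hcl.2
  have hclcop : IsCoprime a0 (cl : ℤ) := by
    have h1 : IsCoprime ((cl : ℕ) : ℤ) ((a0.toNat : ℕ) : ℤ) := Nat.isCoprime_iff_coprime.2 hcl.2
    rw [hA] at h1
    exact h1.symm
  have hcond : ∀ p : ℕ, a0 ∣ (p : ℤ) - cl → ∀ m : ℤ, (a0 ∣ (p : ℤ) * m - b0 ↔ a0 ∣ m - m0 cl) := by
    intro p hp m
    have h1 : (p : ℤ) * m - b0 = (p - cl) * m + (cl * (m - m0 cl) + (cl * m0 cl - b0)) := by ring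
    rw [h1]
    rw [dvd_add_right (hp.mul_right m), dvd_add_left hm0']
    exact ⟨fun h => hclcop.dvd_of_dvd_mul_left h, fun h => h.mul_left _⟩
  -- swap the sums
  simp_rw [mul_sum, sum_filter]
  trans ∑ p ∈ PP Y1 (2 * Y1), ∑ m ∈ Ioc (0 : ℤ) M, (if p % a0.toNat = cl then
    (if (a0 ∣ (p : ℤ) * m - b0 ∧ Rough z0 z' m) ∧ ((Y : ℤ) < p * m ∧ p * m ≤ a0 * H + b0) then
      w m * F (((p : ℤ) * m - b0) / a0) else 0) else 0)
  · apply sum_congr rfl
    intro p _
    by_cases hp : p % a0.toNat = cl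
    · simp_rw [if_pos hp]
    · simp_rw [if_neg hp]
      exact sum_const_zero.symm
  rw [sum_comm]
  apply sum_congr rfl
  intro m _
  by_cases hm : a0 ∣ m - m0 cl
  · rw [if_pos hm]
    apply sum_congr rfl
    intro p _
    by_cases hp : p % a0.toNat = cl
    · rw [if_pos hp]
      have hp' := (hclass p).1 hp
      by_cases hr : Rough z0 z' m
      · rw [if_pos hr]
        by_cases hl : (Y : ℤ) < p * m ∧ p * m ≤ a0 * H + b0
        · rw [if_pos ⟨⟨(hcond p hp' m).2 hm, hr⟩, hl⟩, if_pos ⟨hp', hl⟩]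
        · rw [if_neg (fun h => hl h.2), if_neg (fun h => hl h.2)]
      · rw [if_neg hr, if_neg (fun h => hr h.1.2)]
        split_ifs <;> ring
    · rw [if_neg hp, if_neg (fun h => hp ((hclass p).2 h.1))]
  · rw [if_neg hm]
    apply sum_eq_zero
    intro p _
    by_cases hp : p % a0.toNat = cl
    · rw [if_pos hp, if_neg]
      exact fun h => hm ((hcond p ((hclass p).1 hp) m).1 h.1.1)
    · rw [if_neg hp]

open Classical in
/-- Cauchy-Schwarz -/
lemma cs_bound (z0 z z' : ℕ) (hzz : z ≤ z') (s : Finset ℤ) (w g : ℤ → ℝ)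
    (hw : ∀ m, |w m| ≤ 1) (hV : 0 < V1 z0 z) (A2 D2 : ℝ)
    (hA : ∑ m ∈ s, nu z0 z (![1] : Fin 1 → ℤ) ![0] m ≤ A2)
    (hD : ∑ m ∈ s, nu z0 z (![1] : Fin 1 → ℤ) ![0] m * g m ^ 2 ≤ D2) :
    |∑ m ∈ s, (if Rough z0 z' m then w m else 0) * g m| ≤ V1 z0 z * Real.sqrt (A2 * D2) := by
  have hnu : ∀ m, nu z0 z (![1] : Fin 1 → ℤ) ![0] m = if Rough z0 z m then (V1 z0 z)⁻¹ else 0 := by
    intro m
    unfold nu V1
    have h1 : (∀ j : Fin 1, Rough z0 z ((![1] : Fin 1 → ℤ) j * m + (![0] : Fin 1 → ℤ) j)) ↔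
        Rough z0 z m := by
      constructor
      · intro h
        have := h 0
        simpa using this
      · intro h j
        fin_cases j
        simpa using h
    by_cases h : Rough z0 z m
    · rw [if_pos h, if_pos (h1.2 h)]
    · rw [if_neg h, if_neg (fun h2 => h (h1.1 h2))]
  set ν := nu z0 z (![1] : Fin 1 → ℤ) ![0] with hν
  have hν0 : ∀ m, 0 ≤ ν m := by
    intro m
    rw [hnu]
    split_ifs
    · exact (inv_pos.2 hV).le
    · exact le_rfl
  have h1 : |∑ m ∈ s, (if Rough z0 z' m then w m else 0) * g m| ≤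
      V1 z0 z * ∑ m ∈ s, Real.sqrt (ν m) * (Real.sqrt (ν m) * |g m|) := by
    rw [mul_sum]
    refine (abs_sum_le_sum_abs _ _).trans (sum_le_sum ?_)
    intro m _
    rw [← mul_assoc (Real.sqrt (ν m)), Real.mul_self_sqrt (hν0 m), ← mul_assoc, abs_mul]
    apply mul_le_mul_of_nonneg_right _ (abs_nonneg _)
    by_cases h : Rough z0 z' m
    · rw [if_pos h]
      have h2 : Rough z0 z m := fun q hq => h q (by
        have := mem_PP.1 hq
        exact mem_PP.2 ⟨this.1, this.2.1.trans hzz, this.2.2⟩)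
      rw [hnu, if_pos h2, mul_inv_cancel₀ hV.ne']
      exact hw m
    · rw [if_neg h, abs_zero]
      exact mul_nonneg hV.le (hν0 m)
  refine h1.trans (mul_le_mul_of_nonneg_left ?_ hV.le)
  apply Real.le_sqrt_of_sq_le
  calc (∑ m ∈ s, Real.sqrt (ν m) * (Real.sqrt (ν m) * |g m|)) ^ 2
      ≤ (∑ m ∈ s, Real.sqrt (ν m) ^ 2) * ∑ m ∈ s, (Real.sqrt (ν m) * |g m|) ^ 2 :=
        sum_mul_sq_le_sq_mul_sq _ _ _
    _ = (∑ m ∈ s, ν m) * ∑ m ∈ s, ν m * g m ^ 2 := by
        congr 1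
        · exact sum_congr rfl (fun m _ => Real.sq_sqrt (hν0 m))
        · apply sum_congr rfl
          intro m _
          rw [mul_pow, Real.sq_sqrt (hν0 m), sq_abs]
    _ ≤ A2 * D2 := by
        apply mul_le_mul hA hD
        · exact sum_nonneg (fun m _ => mul_nonneg (hν0 m) (sq_nonneg _))
        · exact (sum_nonneg (fun m _ => hν0 m)).trans hA

lemma dyadic (z' I : ℕ) (f : ℕ → ℝ) : ∑ p ∈ PP z' (2 ^ I * z'), f p =
    ∑ i ∈ range I, ∑ p ∈ PP (2 ^ i * z') (2 * (2 ^ i * z')), f p := by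
  induction I with
  | zero =>
    rw [range_zero, sum_empty, pow_zero, one_mul]
    have : PP z' z' = ∅ := by
      unfold PP
      rw [Ioc_self, filter_empty]
    rw [this, sum_empty]
  | succ I ih =>
    rw [sum_range_succ, ← ih]
    have h1 : PP z' (2 ^ (I + 1) * z') = PP z' (2 ^ I * z') ∪ PP (2 ^ I * z') (2 * (2 ^ I * z')) := by
      ext p
      rw [mem_union, mem_PP, mem_PP, mem_PP]
      have h2 : 2 ^ (I + 1) * z' = 2 * (2 ^ I * z') := by ring
      have h3 : z' ≤ 2 ^ I * z' := Nat.le_mul_of_pos_left _ (by positivity)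
      rw [h2]
      constructor
      · rintro ⟨h4, h5, h6⟩
        by_cases h7 : p ≤ 2 ^ I * z'
        · exact Or.inl ⟨h4, h7, h6⟩
        · exact Or.inr ⟨by omega, h5, h6⟩
      · rintro (⟨h4, h5, h6⟩ | ⟨h4, h5, h6⟩)
        · exact ⟨h4, by omega, h6⟩
        · exact ⟨by omega, h5, h6⟩
    rw [h1, sum_union]
    rw [disjoint_left]
    intro p hp hp'
    rw [mem_PP] at hp hp'
    omega

lemma sqrt_bd {e W V Y M a H : ℝ} (he : 0 ≤ e) (hW : 0 ≤ W) (hV : 0 ≤ V) (hY : 0 ≤ Y)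
    (hM : 0 ≤ M) (ha : 0 < a) (hH : 0 ≤ H) (h : Y * M ≤ 2 * a * H) :
    Real.sqrt ((2 * (M / a)) * (e ^ 2 * (W + 1) ^ 4 * (V * Y / a) ^ 2 * (M / a))) ≤
      4 * e * (W + 1) ^ 2 * (V * H / a) := by
  apply Real.sqrt_le_iff.2
  constructor
  · positivity
  · have h1 : (2 * (M / a)) * (e ^ 2 * (W + 1) ^ 4 * (V * Y / a) ^ 2 * (M / a)) =
        2 * (e * (W + 1) ^ 2 * V) ^ 2 * (Y * M) ^ 2 / a ^ 4 := by
      field_simp
    have h2 : (4 * e * (W + 1) ^ 2 * (V * H / a)) ^ 2 =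
        4 * (e * (W + 1) ^ 2 * V) ^ 2 * (2 * a * H) ^ 2 / a ^ 4 := by
      field_simp
      ring
    rw [h1, h2]
    apply div_le_div_of_nonneg_right _ (by positivity)
    have h3 : (Y * M) ^ 2 ≤ (2 * a * H) ^ 2 := pow_le_pow_left₀ (by positivity) h 2
    have h4 : 0 ≤ (e * (W + 1) ^ 2 * V) ^ 2 := sq_nonneg _
    have h5 : 0 ≤ (e * (W + 1) ^ 2 * V) ^ 2 * (2 * a * H) ^ 2 := by positivity
    have h6 := mul_le_mul_of_nonneg_left h3 h4
    nlinarith

lemma wmean_le {K : ℕ} (z R : ℕ) (c : Cond K → ℝ) : |wmean z R c| ≤ wnorm z R c := by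
  unfold wmean wnorm
  refine (abs_sum_le_sum_abs _ _).trans (sum_le_sum ?_)
  intro D _
  rw [abs_div]
  have : |(md D : ℝ)| = md D := abs_of_nonneg (by positivity)
  rw [this]

lemma wnorm_nonneg {K : ℕ} (z R : ℕ) (c : Cond K → ℝ) : 0 ≤ wnorm z R c := by
  unfold wnorm
  exact sum_nonneg (fun D _ => div_nonneg (abs_nonneg _) (by positivity))

/-- logarithms are small -/
lemma log_small (C : ℕ) (A : ℝ) : ∃ z1 : ℕ, ∀ z : ℕ, z1 ≤ z → A * (Real.log z) ^ C ≤ z := by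
  have h1 := isLittleO_log_rpow_rpow_atTop (C : ℝ) (one_pos : (0 : ℝ) < 1)
  have h2 := (h1.def (c := 1 / (|A| + 1)) (by positivity)).and (Filter.eventually_ge_atTop (1 : ℝ))
  have h3 := (tendsto_natCast_atTop_atTop (R := ℝ)).eventually h2
  obtain ⟨z1, hz1⟩ := Filter.eventually_atTop.1 h3
  refine ⟨z1, fun z hz => ?_⟩
  obtain ⟨h4, h5⟩ := hz1 z hz
  have hl : 0 ≤ Real.log z := Real.log_nonneg h5
  rw [Real.rpow_natCast, Real.rpow_one, Real.norm_of_nonneg (pow_nonneg hl C),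
    Real.norm_of_nonneg (by linarith : (0 : ℝ) ≤ z)] at h4
  have h6 : (|A| + 1) * (Real.log z) ^ C ≤ z := by
    have h7 : (|A| + 1) * (1 / (|A| + 1) * (z : ℝ)) = z := by
      have : (|A| + 1) ≠ 0 := by positivity
      field_simp
    calc (|A| + 1) * (Real.log z) ^ C ≤ (|A| + 1) * (1 / (|A| + 1) * (z : ℝ)) :=
          mul_le_mul_of_nonneg_left h4 (by positivity)
      _ = z := h7
  refine le_trans ?_ h6
  apply mul_le_mul_of_nonneg_right _ (pow_nonneg hl C)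
  linarith [le_abs_self A]

/-- pointwise bound -/
lemma F_bound {k K z0 z R CV E : ℕ} {C1 : ℝ} {a0 b0 : ℤ} {a d : Fin k → ℤ}
    {α β : Fin K → ℤ} {c : Cond K → ℝ} {U : ℤ}
    (hwt : |wt z R c α β U| ≤ C1 * 2 ^ E)
    (hVJ : 1 / (Real.log z) ^ CV ≤ VJ z0 z a0 b0 a d) (hz : 1 < Real.log z)
    (hlog : (C1 * 2 ^ E) * (Real.log z) ^ CV ≤ z) (hz1 : 1 ≤ z) :
    |wt z R c α β U * nuJ z0 z a0 b0 a d U - wmean z R c| ≤ z * (wnorm z R c + 1) := by
  have hL : 0 < (Real.log z) ^ CV := pow_pos (by linarith) _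
  have hVJ0 : 0 < VJ z0 z a0 b0 a d := lt_of_lt_of_le (by positivity) hVJ
  have hV0 : 0 ≤ V1 z0 z := TwinAll.A81.VV_nonneg _ _ _ _
  have hV1 : V1 z0 z ≤ 1 := TwinAll.A81.VV_le_one _ _ _ _
  have hnu : |nuJ z0 z a0 b0 a d U| ≤ (Real.log z) ^ CV := by
    unfold nuJ
    split_ifs
    · rw [abs_of_nonneg (div_nonneg hV0 hVJ0.le)]
      calc V1 z0 z / VJ z0 z a0 b0 a d ≤ 1 / VJ z0 z a0 b0 a d :=
            div_le_div_of_nonneg_right hV1 hVJ0.le
        _ ≤ (Real.log z) ^ CV := by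
            rw [div_le_iff₀ hVJ0]
            rw [div_le_iff₀ hL] at hVJ
            linarith [mul_comm (VJ z0 z a0 b0 a d) ((Real.log z) ^ CV)]
    · rw [abs_zero]
      exact hL.le
  have hw := wnorm_nonneg z R c
  have hm := wmean_le z R c
  have h1 : |wt z R c α β U * nuJ z0 z a0 b0 a d U| ≤ z := by
    rw [abs_mul]
    refine le_trans (mul_le_mul hwt hnu (abs_nonneg _) ((abs_nonneg _).trans hwt)) hlog
  have h2 : (1 : ℝ) ≤ z := by exact_mod_cast hz1
  calc |wt z R c α β U * nuJ z0 z a0 b0 a d U - wmean z R c|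
      ≤ |wt z R c α β U * nuJ z0 z a0 b0 a d U| + |wmean z R c| := abs_sub _ _
    _ ≤ z + wnorm z R c := add_le_add h1 hm
    _ ≤ z * (wnorm z R c + 1) := by nlinarith

lemma exists_m0 {a0 b0 : ℤ} (ha0 : 0 < a0) (cl : ℕ) : ∃ m0 : ℤ, Nat.Coprime cl a0.toNat →
    a0 ∣ (cl : ℤ) * m0 - b0 := by
  by_cases h : Nat.Coprime cl a0.toNat
  · have h1 : IsCoprime ((cl : ℕ) : ℤ) ((a0.toNat : ℕ) : ℤ) := Nat.isCoprime_iff_coprime.2 h
    rw [Int.toNat_of_nonneg ha0.le] at h1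
    obtain ⟨u, v, huv⟩ := h1
    refine ⟨u * b0, fun _ => ⟨-v * b0, ?_⟩⟩
    linear_combination b0 * huv
  · exact ⟨0, fun h' => absurd h' h⟩

end Pool.Agent.Lib.MT2.Trans49
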