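import Mathlib
import Pool.Agent.Lib.MT2.Trans49

/-!
Module TRANS: assembly.
-/

set_option autoImplicit false

namespace Pool.Agent.Lib.MT2.Trans49

open Finset
open Pool.Agent.Lib.TwinAll (PP Rough om VV nu ee)

/-- sizes: the dyadic scale -/
lemma sizes {z B s5 H C0 : ℕ} {n1 a0 b0 : ℤ} (hz : 8 * C0 + 20 ≤ z) (ha0 : 0 < a0)
    (haC : a0 ≤ C0) (hb0 : |b0| ≤ C0) (hn1 : n1 = a0 * H + b0)
    (hH1 : z ^ B ≤ H) (hH2 : H ≤ z ^ (B + 1)) (hB : 2 * s5 + 7 ≤ B) :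
    ∃ n : ℕ, n1 ≤ ((2 ^ (n + 1) * z ^ s5 : ℕ) : ℤ) ^ 2 ∧ (2 ^ (n + 1) * z ^ s5) * z ^ 3 ≤ H ∧
      (((n + 1 : ℕ) : ℝ) ≤ 3 * ((B : ℝ) + 1) * Real.log z) ∧
      (n1 ≤ (z : ℤ) ^ (B + 2)) ∧ (0 < n1) ∧ (n1 ≤ 2 * a0 * H) ∧
      (∀ i e : ℕ, i ≤ n → 2 * e + 2 * s5 + 1 ≤ B → z ^ e ≤ n1.toNat / (2 ^ i * z ^ s5)) := by
  have hb := abs_le.1 hb0
  have hzZ : (8 * (C0 : ℤ) + 20 ≤ z) := by exact_mod_cast hz
  have hH1Z : (z : ℤ) ^ B ≤ H := by exact_mod_cast hH1
  have hH2Z : (H : ℤ) ≤ (z : ℤ) ^ (B + 1) := by exact_mod_cast hH2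
  have hz0 : (0 : ℤ) < z := by omega
  have hz1 : (1 : ℤ) ≤ z := by omega
  have hzB : (z : ℤ) ≤ (z : ℤ) ^ B := by
    calc (z : ℤ) = (z : ℤ) ^ 1 := (pow_one _).symm
      _ ≤ (z : ℤ) ^ B := pow_le_pow_right₀ hz1 (by omega)
  have hn1low : (z : ℤ) ^ B - C0 ≤ n1 := by
    rw [hn1]; nlinarith
  have hn1pos : 0 < n1 := by omega
  have hn1up : n1 ≤ 2 * a0 * H := by
    rw [hn1]
    nlinarith
  have hn1up2 : n1 ≤ (z : ℤ) ^ (B + 2) := by
    have h1 : 2 * a0 * (H : ℤ) ≤ z * H := by nlinarith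
    calc n1 ≤ 2 * a0 * H := hn1up
      _ ≤ z * H := h1
      _ ≤ z * (z : ℤ) ^ (B + 1) := by nlinarith
      _ = (z : ℤ) ^ (B + 2) := by ring
  have hn1low2 : (z : ℤ) ^ (B - 1) ≤ n1 := by
    have h1 : (z : ℤ) ^ B = z * (z : ℤ) ^ (B - 1) := by
      rw [← pow_succ']
      congr 1
      omega
    have h2 : (1 : ℤ) ≤ (z : ℤ) ^ (B - 1) := one_le_pow₀ hz1
    nlinarith
  set N := n1.toNat with hN
  have hNZ : ((N : ℕ) : ℤ) = n1 := Int.toNat_of_nonneg hn1pos.le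
  have hN1 : 1 ≤ N := by omega
  have hsq1 : (1 : ℝ) ≤ Real.sqrt N := by
    rw [Real.one_le_sqrt]
    exact_mod_cast hN1
  obtain ⟨n, hna, hnb⟩ := exists_nat_pow_near hsq1 (one_lt_two : (1 : ℝ) < 2)
  have hna' : (2 ^ n) ^ 2 ≤ N := by
    have h1 : ((2 : ℝ) ^ n) ^ 2 ≤ (Real.sqrt N) ^ 2 := pow_le_pow_left₀ (by positivity) hna 2
    rw [Real.sq_sqrt (by positivity)] at h1
    exact_mod_cast h1
  have hnb' : N < (2 ^ (n + 1)) ^ 2 := by
    have h1 : (Real.sqrt N) ^ 2 < ((2 : ℝ) ^ (n + 1)) ^ 2 :=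
      pow_lt_pow_left₀ hnb (Real.sqrt_nonneg _) (by norm_num)
    rw [Real.sq_sqrt (by positivity)] at h1
    exact_mod_cast h1
  refine ⟨n, ?_, ?_, ?_, hn1up2, hn1pos, hn1up, ?_⟩
  · have h1 : N ≤ (2 ^ (n + 1) * z ^ s5) ^ 2 := by
      have h2 : 2 ^ (n + 1) ≤ 2 ^ (n + 1) * z ^ s5 :=
        Nat.le_mul_of_pos_right _ (pow_pos (by omega) _)
      exact hnb'.le.trans (Nat.pow_le_pow_left h2 2)
    rw [← hNZ]
    exact_mod_cast h1
  · have h1 : ((2 ^ (n + 1) * z ^ s5) * z ^ 3) ^ 2 ≤ H ^ 2 := by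
      have h2 : ((2 ^ (n + 1) * z ^ s5) * z ^ 3) ^ 2 = 4 * (2 ^ n) ^ 2 * z ^ (2 * s5 + 6) := by
        ring
      have h3 : 4 * (2 ^ n) ^ 2 ≤ z * H := by
        have h4 : (N : ℤ) ≤ 2 * a0 * H := by rw [hNZ]; exact hn1up
        have h5 : (((4 * (2 ^ n) ^ 2 : ℕ)) : ℤ) ≤ z * H := by
          have h6 : (((2 ^ n) ^ 2 : ℕ) : ℤ) ≤ (N : ℤ) := by exact_mod_cast hna'
          push_cast at h6 ⊢
          nlinarith
        exact_mod_cast h5
      calc ((2 ^ (n + 1) * z ^ s5) * z ^ 3) ^ 2 = 4 * (2 ^ n) ^ 2 * z ^ (2 * s5 + 6) := h2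
        _ ≤ z * H * z ^ (2 * s5 + 6) := Nat.mul_le_mul_right _ h3
        _ = H * z ^ (2 * s5 + 7) := by ring
        _ ≤ H * z ^ B := Nat.mul_le_mul_left _ (Nat.pow_le_pow_right (by omega) hB)
        _ ≤ H * H := Nat.mul_le_mul_left _ hH1
        _ = H ^ 2 := by ring
    exact (Nat.pow_le_pow_iff_left (by norm_num)).1 h1
  · have hzR : (20 : ℝ) ≤ z := by
      have : 20 ≤ z := by omega
      exact_mod_cast this
    have hlog1 : 1 ≤ Real.log z := by
      rw [Real.le_log_iff_exp_le (by linarith)]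
      have := Real.exp_one_lt_d9
      linarith
    have h1 : ((2 : ℝ) ^ n) ^ 2 ≤ (z : ℝ) ^ (B + 2) := by
      have h2 : (((2 ^ n) ^ 2 : ℕ) : ℤ) ≤ (z : ℤ) ^ (B + 2) := by
        have h6 : (((2 ^ n) ^ 2 : ℕ) : ℤ) ≤ (N : ℤ) := by exact_mod_cast hna'
        rw [hNZ] at h6
        exact h6.trans hn1up2
      exact_mod_cast h2
    have h2 := Real.log_le_log (by positivity) h1
    rw [Real.log_pow, Real.log_pow, Real.log_pow] at h2
    have h3 : (0.69 : ℝ) ≤ Real.log 2 := by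
      have := Real.log_two_gt_d9
      linarith
    have h4 : (n : ℝ) ≤ ((B : ℝ) + 2) * Real.log z := by
      push_cast at h2
      have hn0 : (0 : ℝ) ≤ n := by positivity
      nlinarith
    push_cast
    have hB0 : (0 : ℝ) ≤ B := by positivity
    nlinarith
  · intro i e hi he
    have hpos : 0 < 2 ^ i * z ^ s5 := Nat.mul_pos (pow_pos (by norm_num) _) (pow_pos (by omega) _)
    rw [Nat.le_div_iff_mul_le hpos]
    have h0 : z ^ e * (2 ^ i * z ^ s5) ≤ z ^ e * (2 ^ n * z ^ s5) :=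
      Nat.mul_le_mul_left _ (Nat.mul_le_mul_right _ (Nat.pow_le_pow_right (by norm_num) hi))
    refine h0.trans ?_
    have h1 : (z ^ e * (2 ^ n * z ^ s5)) ^ 2 ≤ N ^ 2 := by
      calc (z ^ e * (2 ^ n * z ^ s5)) ^ 2 = (2 ^ n) ^ 2 * z ^ (2 * e + 2 * s5) := by ring
        _ ≤ N * z ^ (2 * e + 2 * s5) := Nat.mul_le_mul_right _ hna'
        _ ≤ N * z ^ (B - 1) := Nat.mul_le_mul_left _ (Nat.pow_le_pow_right (by omega) (by omega))
        _ ≤ N * N := by
            apply Nat.mul_le_mul_left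
            have h2 : ((z ^ (B - 1) : ℕ) : ℤ) ≤ (N : ℤ) := by
              rw [hNZ]
              push_cast
              exact hn1low2
            exact_mod_cast h2
        _ = N ^ 2 := by ring
    exact (Nat.pow_le_pow_iff_left (by norm_num)).1 h1

/-- final bookkeeping -/
lemma final_ineq {S Q P e W V H L I z' Y C0 z B t2 : ℝ} (he : e = t2 / 64) (ht2 : 0 < t2)
    (hW : 0 ≤ W) (hH : 0 ≤ H) (hL : 1 ≤ L) (hB : 0 ≤ B)
    (hz : 1 ≤ z) (hI : I ≤ 3 * (B + 1) * L) (hVz : 1 / z ≤ V)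
    (hzt : 20 ≤ t2 * z) (hY : Y * z ^ 3 ≤ H) (hC0 : 2 * C0 * z ^ 3 ≤ H)
    (hz' : z ^ 3 ≤ z') (hS : S ≤ Q + P + z * (W + 1) * (2 * (Y + C0) + (H * (1 / z') + Y)))
    (hQ : Q ≤ t2 / 4 * (W + 1) * (V * H))
    (hP : P ≤ I * (4 * e * (W + 1) ^ 2 * (V * H) * (1 / L))) :
    S ≤ t2 * (B + 1) * (W + 1) ^ 2 * (V * H) := by
  have hz0 : 0 < z := by linarith
  have hV0 : 0 < V := lt_of_lt_of_le (by positivity) hVz
  have hz'0 : 0 < z' := lt_of_lt_of_le (by positivity) hz'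
  have hVH : 0 ≤ V * H := by positivity
  have h1 : P ≤ 12 * e * (B + 1) * (W + 1) ^ 2 * (V * H) := by
    have h2 : I * (4 * e * (W + 1) ^ 2 * (V * H) * (1 / L)) ≤
        3 * (B + 1) * L * (4 * e * (W + 1) ^ 2 * (V * H) * (1 / L)) := by
      apply mul_le_mul_of_nonneg_right hI
      rw [he]
      positivity
    have h3 : 3 * (B + 1) * L * (4 * e * (W + 1) ^ 2 * (V * H) * (1 / L)) =
        12 * e * (B + 1) * (W + 1) ^ 2 * (V * H) := by
      have hL0 : L ≠ 0 := by linarith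
      field_simp
      ring
    linarith
  have h4 : z * (2 * (Y + C0) + (H * (1 / z') + Y)) ≤ t2 / 4 * (V * H) := by
    have h5 : H * (1 / z') ≤ H / z ^ 3 := by
      rw [mul_one_div]
      exact div_le_div_of_nonneg_left hH (by positivity) hz'
    have h6 : Y ≤ H / z ^ 3 := by
      rw [le_div_iff₀ (by positivity)]
      exact hY
    have h7 : 2 * C0 ≤ H / z ^ 3 := by
      rw [le_div_iff₀ (by positivity)]
      exact hC0
    have h8 : 2 * (Y + C0) + (H * (1 / z') + Y) ≤ 5 * (H / z ^ 3) := by linarith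
    calc z * (2 * (Y + C0) + (H * (1 / z') + Y)) ≤ z * (5 * (H / z ^ 3)) :=
          mul_le_mul_of_nonneg_left h8 hz0.le
      _ = 5 / z * (1 / z * H) := by field_simp
      _ ≤ t2 / 4 * (V * H) := by
          apply mul_le_mul
          · rw [div_le_iff₀ hz0]
            linarith
          · exact mul_le_mul_of_nonneg_right hVz hH
          · positivity
          · positivity
  have h9 : z * (W + 1) * (2 * (Y + C0) + (H * (1 / z') + Y)) ≤ t2 / 4 * (W + 1) * (V * H) := by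
    have h10 := mul_le_mul_of_nonneg_left h4 (by linarith : 0 ≤ W + 1)
    linarith
  have h11 : (W + 1) * (V * H) ≤ (B + 1) * (W + 1) ^ 2 * (V * H) := by
    apply mul_le_mul_of_nonneg_right _ hVH
    have : 1 ≤ (B + 1) * (W + 1) := by nlinarith
    nlinarith
  have h12 : 12 * e * (B + 1) * (W + 1) ^ 2 * (V * H) ≤
      t2 / 4 * ((B + 1) * (W + 1) ^ 2 * (V * H)) := by
    rw [he]
    have : 0 ≤ (B + 1) * (W + 1) ^ 2 * (V * H) := by positivity
    nlinarith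
  have h13 : t2 / 4 * (W + 1) * (V * H) ≤ t2 / 4 * ((B + 1) * (W + 1) ^ 2 * (V * H)) := by
    have h14 := mul_le_mul_of_nonneg_left h11 (by linarith : 0 ≤ t2 / 4)
    linarith
  have h15 : 0 ≤ (B + 1) * (W + 1) ^ 2 * (V * H) := by positivity
  nlinarith

theorem trans_49 (hD : DISPStmt) (hM : MIXStmt) (hS : S2rStmt) (hVl : VVlowStmt)
    (hMe : MERTStmt) (hW : WBStmt) : TRANSStmt := by
  classical
  intro k K
  obtain ⟨s0D, s5D, hD⟩ := hD k K
  obtain ⟨s0M, zsM, hM⟩ := hM k K (s5D + 4) (by omega)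
  obtain ⟨s0S, zsS, hS⟩ := hS 1
  obtain ⟨CV, zsV, hV⟩ := hVl (k + 1)
  obtain ⟨CW, zsW, hV1⟩ := hVl 1
  refine ⟨3 * s0M + 26 * s0D + 4 * s0S + 4 * s5D + 50, fun t => ?_⟩
  obtain ⟨zsD, hD⟩ := hD (2 * (t + 6))
  refine ⟨zsD + zsM + zsS + zsV + zsW + 2, fun z0 hz0 b B C0 C1 hB => ?_⟩
  obtain ⟨z1D, hD⟩ := hD z0 (by omega) b (B + 2) C0 C1
  obtain ⟨z1M, hM⟩ := hM (t + 2) z0 (by omega) b C0 C1
  obtain ⟨z1V, hV⟩ := hV z0 (by omega)
  obtain ⟨z1W, hV1⟩ := hV1 z0 (by omega)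
  obtain ⟨z1B, hWB⟩ := hW K (B + 1) C0
  obtain ⟨z1L, hL⟩ := log_small CV (C1 * 2 ^ (K * (B + 1 + 1)))
  obtain ⟨z1L', hL'⟩ := log_small CW 1
  refine ⟨z1D + z1M + z1V + z1W + z1B + z1L + z1L' + z0 + 8 * C0 + 20 * 2 ^ t + 20,
    fun z hz R X hR hX a0 b0 a d ha0 ha0C hb0 hcop hsm hlg hSF α β J c hMF hdet hWt H hH1 hH2 => ?_⟩
  have hBs : 3 * s0M + 26 * s0D + 4 * s0S + 4 * s5D + 50 ≤ B := by
    have : 3 * s0M + 26 * s0D + 4 * s0S + 4 * s5D + 50 ≤
        (3 * s0M + 26 * s0D + 4 * s0S + 4 * s5D + 50) * (t + 1) := Nat.le_mul_of_pos_right _ (by omega)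
    omega
  have hBt : 4 * b + (3 * s0M + 26 * s0D + 4 * s0S + 4 * s5D + 50) * (t + 1) ≤ B := hB
  have hzs : z0 ≤ z := by omega
  have hz20 : 20 ≤ z := by omega
  have hzR : (20 : ℝ) ≤ z := by exact_mod_cast hz20
  have hlog1 : 1 < Real.log z := by
    rw [Real.lt_log_iff_exp_lt (by linarith)]
    have := Real.exp_one_lt_d9
    linarith
  have hb := abs_le.1 hb0
  have hPPa : ∀ q ∈ PP z0 z, ¬ ((q : ℤ) ∣ a0) := fun q hq hd => by
    have h1 := mem_PP.1 hq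
    have := hlg q h1.2.2 hd
    omega
  -- densities
  have hVJ : 1 / (Real.log z) ^ CV ≤ VJ z0 z a0 b0 a d := by
    unfold VJ
    apply hV z (by omega)
    intro j q hq
    refine Fin.cases ?_ (fun i => ?_) j
    · simp only [Fin.cons_zero]
      intro h
      have h1 := mem_PP.1 hq
      have : q ∣ 1 := by exact_mod_cast h
      exact h1.2.2.one_lt.ne' (Nat.dvd_one.1 this)
    · simp only [Fin.cons_succ]
      intro h
      have h1 := mem_PP.1 hq
      have := hSF.large i q h1.2.2 h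
      omega
  have hV1low : 1 / (Real.log z) ^ CW ≤ V1 z0 z := by
    unfold V1
    apply hV1 z (by omega)
    intro j q hq h
    have h1 := mem_PP.1 hq
    fin_cases j
    have h2 : (q : ℤ) ∣ 1 := by simpa using h
    have : q ∣ 1 := by exact_mod_cast h2
    exact h1.2.2.one_lt.ne' (Nat.dvd_one.1 this)
  have hV1z : 1 / (z : ℝ) ≤ V1 z0 z := by
    refine le_trans ?_ hV1low
    apply one_div_le_one_div_of_le (pow_pos (by linarith) _)
    have := hL' z (by omega)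
    linarith
  have hV1pos : 0 < V1 z0 z := lt_of_lt_of_le (by positivity) hV1z
  set F : ℤ → ℝ := fun U => wt z R c α β U * nuJ z0 z a0 b0 a d U - wmean z R c with hF
  have hFb : ∀ U ∈ Ioc (0 : ℤ) H, |F U| ≤ z * (wnorm z R c + 1) := by
    intro U hU
    have hU1 := mem_Ioc.1 hU
    have h1 : U ≤ (z : ℤ) ^ (B + 1) := hU1.2.trans (by exact_mod_cast hH2)
    have h2 := hWB z (by omega) z0 R C1 c α β hMF hWt.bd U (by omega) h1
    exact F_bound h2 hVJ hlog1 (hL z (by omega)) (by omega)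
  -- sizes
  obtain ⟨n, hs1, hs2, hs3, hs4, hs5, hs6, hs7⟩ := sizes (z := z) (B := B) (s5 := s5D + 4)
    (H := H) (C0 := C0) (n1 := a0 * H + b0) (a0 := a0) (b0 := b0) (by omega) ha0 ha0C hb0 rfl
    hH1 hH2 (by omega)
  set z' := z ^ (s5D + 4) with hz'
  set Y := 2 ^ (n + 1) * z' with hY
  have hz'z : z ≤ z' := by
    calc z = z ^ 1 := (pow_one z).symm
      _ ≤ z ^ (s5D + 4) := Nat.pow_le_pow_right (by omega) (by omega)
  have hz'pos : 0 < z' := by omega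
  have hzY : z' ≤ Y := Nat.le_mul_of_pos_left _ (by positivity)
  have hps := prime_sum z0 z' Y H C0 a0 b0 F (z * (wnorm z R c + 1)) ha0 hb0 (by omega) hzY
    hz'pos hcop hsm hlg hs1 (mul_nonneg (by positivity) (by linarith [wnorm_nonneg z R c])) hFb
  -- MIX
  have hXpos : 0 < X ∨ X = 0 := by omega
  have hmix := hM z (by omega) R X hR hX a0 b0 a d ha0 ha0C hb0 hcop hlg hSF α β J c hMF hdet hWt H
    (by
      calc X * z ^ (s0M * (t + 2 + 1)) ≤ z ^ b * z ^ (s0M * (t + 2 + 1)) :=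
            Nat.mul_le_mul_right _ hX
        _ = z ^ (b + s0M * (t + 2 + 1)) := by rw [← pow_add]
        _ ≤ z ^ B := Nat.pow_le_pow_right (by omega) (by nlinarith)
        _ ≤ H := hH1)
  -- classes
  choose m0 hm0 using fun cl : ℕ => exists_m0 (b0 := b0) ha0 cl
  have hCY : |b0| < (Y : ℤ) := by
    have h1 : C0 < Y := by omega
    have h2 : (C0 : ℤ) < Y := by exact_mod_cast h1
    omega
  have hA : ((a0.toNat : ℕ) : ℤ) = a0 := Int.toNat_of_nonneg ha0.le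
  have hAR : ((a0.toNat : ℕ) : ℝ) = (a0 : ℝ) := by exact_mod_cast congrArg (Int.cast : ℤ → ℝ) hA
  have haR : (0 : ℝ) < a0 := by exact_mod_cast ha0
  have hN1 : (((a0 * H + b0).toNat : ℕ) : ℤ) = a0 * H + b0 := Int.toNat_of_nonneg hs5.le
  have hblock : ∀ i ∈ range (n + 1),
      |∑ p ∈ PP (2 ^ i * z') (2 * (2 ^ i * z')), ∑ U ∈ (Ioc (0 : ℤ) H).filter (fun U =>
        (Rough z0 z' (a0 * U + b0) ∧ (Y : ℤ) < a0 * U + b0) ∧ (p : ℤ) ∣ a0 * U + b0),
          cc z' Y ((a0 * U + b0) / p) * F U| ≤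
      4 * (1 / 2) ^ (t + 6) * (wnorm z R c + 1) ^ 2 * (V1 z0 z * H) * (1 / Real.log z) := by
    intro i hi
    rw [mem_range] at hi
    set Yi := 2 ^ i * z' with hYi
    set M := (a0 * H + b0).toNat / Yi with hMdef
    have hYipos : 0 < Yi := Nat.mul_pos (by positivity) hz'pos
    have hYiz : z' ≤ Yi := Nat.le_mul_of_pos_left _ (by positivity)
    have hYM : Yi * M ≤ (a0 * H + b0).toNat := Nat.mul_div_le _ _
    rw [block_eq z0 z' Y Yi H M a0 b0 F (cc z' Y) ha0 hlg (by omega) hYiz hCY m0 hm0 (by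
      intro m hm
      have h1 : m ≤ (a0 * H + b0) / (Yi : ℤ) :=
        Int.le_ediv_of_mul_le (by exact_mod_cast hYipos) (by rw [mul_comm]; exact hm)
      have h2 : ((M : ℕ) : ℤ) = (a0 * H + b0) / (Yi : ℤ) := by
        rw [hMdef]
        push_cast
        rw [hN1]
      rw [h2]
      exact h1)]
    refine (abs_sum_le_sum_abs _ _).trans ?_
    have hcl : ∀ cl ∈ (range a0.toNat).filter (fun cl => Nat.Coprime cl a0.toNat),
        |∑ m ∈ (Ioc (0 : ℤ) M).filter (fun m => a0 ∣ m - m0 cl),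
        (if Rough z0 z' m then cc z' Y m else 0) *
          ∑ p ∈ (PP Yi (2 * Yi)).filter (fun p : ℕ => a0 ∣ (p : ℤ) - cl ∧
            (Y : ℤ) < p * m ∧ p * m ≤ a0 * H + b0), F (((p : ℤ) * m - b0) / a0)| ≤
        V1 z0 z * (4 * (1 / 2) ^ (t + 6) * (wnorm z R c + 1) ^ 2 * (V1 z0 z * H / a0)) := by
      intro cl hcl
      rw [mem_filter] at hcl
      have hA2 : ∑ m ∈ (Ioc (0 : ℤ) M).filter (fun m => a0 ∣ m - m0 cl),
          nu z0 z (![1] : Fin 1 → ℤ) ![0] m ≤ 2 * ((M : ℝ) / a0) := by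
        have h1 := hS 1 z0 (by omega) z hzs (![1] : Fin 1 → ℤ) ![0] (by
          intro j q hq h
          have h1 := mem_PP.1 hq
          fin_cases j
          have h2 : (q : ℤ) ∣ 1 := by simpa using h
          have : q ∣ 1 := by exact_mod_cast h2
          exact h1.2.2.one_lt.ne' (Nat.dvd_one.1 this)) a0.toNat (by omega) (by
          intro q hq hd
          apply hPPa q hq
          rw [← hA]
          exact_mod_cast hd) (m0 cl) 0 M
        rw [hA, zero_add, hAR] at h1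
        have h2 := (abs_le.1 h1).2
        have h3 : z ^ (2 * s0S + 1) ≤ M := hs7 i (2 * s0S + 1) (by omega) (by omega)
        have h4 : (z : ℝ) ^ (s0S * (1 + 1)) ≤ 1 / 2 * ((M : ℝ) / a0) := by
          rw [div_mul_div_comm, one_mul, le_div_iff₀ (by positivity)]
          have h5 : (2 * (a0 : ℝ)) ≤ z := by
            have h6 : 2 * a0 ≤ z := by omega
            exact_mod_cast h6
          have h7 : (z : ℝ) ^ (2 * s0S + 1) ≤ M := by exact_mod_cast h3
          calc (z : ℝ) ^ (s0S * (1 + 1)) * (2 * a0) ≤ (z : ℝ) ^ (s0S * (1 + 1)) * z :=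
                mul_le_mul_of_nonneg_left h5 (by positivity)
            _ = (z : ℝ) ^ (2 * s0S + 1) := by rw [← pow_succ]; congr 1; ring
            _ ≤ M := h7
        have h8 : ((1 : ℝ) / 2) ^ 1 * ((M : ℝ) / a0) = 1 / 2 * ((M : ℝ) / a0) := by rw [pow_one]
        rw [h8] at h2
        linarith
      have hD2 := hD z (by omega) R X hR hX a0 b0 a d ha0 ha0C hb0 hcop hlg hSF α β J c hMF hdet hWt
        Yi M (by
          calc z ^ s5D ≤ z ^ (s5D + 4) := Nat.pow_le_pow_right (by omega) (by omega)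
            _ ≤ Yi := hYiz)
        (by
          refine hYM.trans ?_
          have h1 : (((a0 * H + b0).toNat : ℕ) : ℤ) ≤ ((z ^ (B + 2) : ℕ) : ℤ) := by
            rw [hN1]
            push_cast
            exact hs4
          exact_mod_cast h1)
        (by
          have h1 : z ^ (2 * b + s0D * (2 * (t + 6) + 1)) ≤ M :=
            hs7 i (2 * b + s0D * (2 * (t + 6) + 1)) (by omega) (by nlinarith)
          refine le_trans ?_ h1
          have h2 : z ^ (2 * b + s0D * (2 * (t + 6) + 1)) =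
              (z ^ b) ^ 2 * z ^ (s0D * (2 * (t + 6) + 1)) := by ring
          rw [h2]
          exact Nat.mul_le_mul_right _ (Nat.pow_le_pow_left hX 2))
        (cl : ℤ) (m0 cl) (Y : ℤ) (a0 * H + b0) (hm0 cl hcl.2) (by
          have h1 : 2 * C0 < Y := by omega
          exact_mod_cast h1)
      have h1 := cs_bound z0 z z' hz'z ((Ioc (0 : ℤ) M).filter (fun m => a0 ∣ m - m0 cl))
        (cc z' Y) (fun m => ∑ p ∈ (PP Yi (2 * Yi)).filter (fun p : ℕ => a0 ∣ (p : ℤ) - cl ∧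
            (Y : ℤ) < p * m ∧ p * m ≤ a0 * H + b0), F (((p : ℤ) * m - b0) / a0))
        (fun m => abs_le.2 ⟨by linarith [cc_nonneg z' Y m], cc_le_one z' Y m⟩) hV1pos _ _ hA2 hD2
      refine h1.trans (mul_le_mul_of_nonneg_left ?_ hV1pos.le)
      have h2 := sqrt_bd (e := (1 / 2) ^ (t + 6)) (W := wnorm z R c) (V := V1 z0 z) (Y := Yi)
        (M := M) (a := a0) (H := H) (by positivity) (wnorm_nonneg z R c) hV1pos.le
        (by positivity) (by positivity) haR (by positivity) (by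
          have h3 : ((Yi * M : ℕ) : ℤ) ≤ 2 * a0 * H := by
            have h4 : ((Yi * M : ℕ) : ℤ) ≤ (((a0 * H + b0).toNat : ℕ) : ℤ) := by exact_mod_cast hYM
            rw [hN1] at h4
            exact h4.trans hs6
          have h5 : (((Yi * M : ℕ) : ℤ) : ℝ) ≤ ((2 * a0 * H : ℤ) : ℝ) := by exact_mod_cast h3
          push_cast at h5
          exact h5)
      rw [← pow_mul, mul_comm (t + 6) 2] at h2
      exact h2
    refine (sum_le_sum hcl).trans ?_
    rw [sum_const, nsmul_eq_mul]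
    have hcard : ((range a0.toNat).filter (fun cl => Nat.Coprime cl a0.toNat)).card =
        a0.toNat.totient := by
      rw [Nat.totient_eq_card_coprime]
      congr 1
      apply filter_congr
      intro x _
      exact Nat.coprime_comm
    rw [hcard]
    have hmer := hMe z0 z a0.toNat (by omega) hzs (by omega) (by
      intro q hq hqz
      have h1 := hsm q hq hqz
      rw [← hA] at h1
      exact_mod_cast h1)
    rw [hAR] at hmer
    have h1 : ((a0.toNat.totient : ℕ) : ℝ) * (V1 z0 z * (4 * (1 / 2) ^ (t + 6) *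
        (wnorm z R c + 1) ^ 2 * (V1 z0 z * H / a0))) =
        (4 * (1 / 2) ^ (t + 6) * (wnorm z R c + 1) ^ 2 * (V1 z0 z * H)) *
          (V1 z0 z * (((a0.toNat.totient : ℕ) : ℝ) / a0)) := by
      field_simp
    rw [h1]
    apply mul_le_mul_of_nonneg_left hmer
    have := wnorm_nonneg z R c
    positivity
  have hP : |∑ p ∈ PP z' Y, ∑ U ∈ (Ioc (0 : ℤ) H).filter (fun U =>
        (Rough z0 z' (a0 * U + b0) ∧ (Y : ℤ) < a0 * U + b0) ∧ (p : ℤ) ∣ a0 * U + b0),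
          cc z' Y ((a0 * U + b0) / p) * F U| ≤ ((n + 1 : ℕ) : ℝ) *
      (4 * (1 / 2) ^ (t + 6) * (wnorm z R c + 1) ^ 2 * (V1 z0 z * H) * (1 / Real.log z)) := by
    rw [dyadic z' (n + 1)]
    refine (abs_sum_le_sum_abs _ _).trans ((sum_le_sum hblock).trans ?_)
    rw [sum_const, card_range, nsmul_eq_mul]
  have ht : (2 : ℝ) ^ t * (1 / 2) ^ t = 1 := by
    rw [← mul_pow]
    norm_num
  apply final_ineq (e := (1 / 2) ^ (t + 6)) (t2 := (1 / 2) ^ t) (L := Real.log z)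
    (I := ((n + 1 : ℕ) : ℝ)) (z' := (z' : ℝ)) (Y := (Y : ℝ)) (C0 := (C0 : ℝ)) (z := (z : ℝ))
    (B := (B : ℝ)) (W := wnorm z R c) (V := V1 z0 z) (H := (H : ℝ)) ?_ (by positivity)
    (wnorm_nonneg z R c) (by positivity) hlog1.le (by positivity) (by linarith)
    hs3 hV1z ?_ ?_ ?_ ?_ hps ?_ hP
  · rw [pow_add]
    norm_num
    ring
  · have h1 : 20 * 2 ^ t ≤ z := by omega
    have h2 : (20 : ℝ) * 2 ^ t ≤ z := by exact_mod_cast h1
    have h3 : (1 / 2 : ℝ) ^ t * (20 * 2 ^ t) ≤ (1 / 2 : ℝ) ^ t * z :=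
      mul_le_mul_of_nonneg_left h2 (by positivity)
    have h4 : (1 / 2 : ℝ) ^ t * (20 * 2 ^ t) = 20 * (2 ^ t * (1 / 2 : ℝ) ^ t) := by ring
    rw [h4, ht] at h3
    linarith
  · exact_mod_cast hs2
  · have h1 : 2 * C0 * z ^ 3 ≤ H := by
      calc 2 * C0 * z ^ 3 ≤ z * z ^ 3 := Nat.mul_le_mul_right _ (by omega)
        _ = z ^ 4 := by ring
        _ ≤ z ^ B := Nat.pow_le_pow_right (by omega) (by omega)
        _ ≤ H := hH1
    exact_mod_cast h1
  · have h1 : z ^ 3 ≤ z' := Nat.pow_le_pow_right (by omega) (by omega)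
    exact_mod_cast h1
  · refine hmix.trans (le_of_eq ?_)
    rw [pow_add]
    ring

end Pool.Agent.Lib.MT2.Trans49
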