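import Pool.Agent.Lib.MT2.Stmts
import Pool.Agent.Lib.MT2.StmtsE
import Pool.Agent.Lib.TwinAll.Mod69d
import Pool.Agent.Lib.MP_973905_nt.K5.Mertens

set_option autoImplicit false

/-!
WGT: the Maynard weights, from the finite Maynard model and the theorems of Mertens.
-/

namespace Pool.Agent.Lib.MT2.T69

open Finset Filter Topology
open Pool.Agent.Lib.TwinAll (PP)
open Pool.Agent.Lib.TwinAll.Mod69
open Pool.Agent.Lib.MP_973905_nt (PS)

/-- `1 / (q - 1)` -/
noncomputable def nuq (q : ℕ) : ℝ := 1 / ((q : ℝ) - 1)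

theorem PS_eq (z : ℕ) : PS 0 (z : ℝ) = PP 0 z := by
  unfold PS PP
  rw [Nat.floor_zero, Nat.floor_natCast]

/-- Mertens' product -/
noncomputable def MM (z : ℕ) : ℝ := ∏ p ∈ PP 0 z, (1 - 1 / (p : ℝ))⁻¹

theorem MM_lim : Tendsto (fun z : ℕ => MM z / Real.log z) atTop
    (𝓝 (Real.exp Real.eulerMascheroniConstant)) := by
  have h := (Pool.Agent.Lib.MP_973905_nt.K5.stMertens).comp tendsto_natCast_atTop_atTop
  refine h.congr fun z => ?_
  simp only [Function.comp_apply]
  rw [PS_eq]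
  rfl

theorem MM_pos (z : ℕ) : 0 < MM z := by
  unfold MM
  refine Finset.prod_pos fun p hp => ?_
  have hpp : p.Prime := (Finset.mem_filter.1 hp).2
  have h2 : (2 : ℝ) ≤ p := by exact_mod_cast hpp.two_le
  have h3 : 1 / (p : ℝ) ≤ 1 / 2 := one_div_le_one_div_of_le (by norm_num) h2
  have : 0 < 1 - 1 / (p : ℝ) := by linarith
  positivity

theorem mass_eq (z a : ℕ) (hz : 1 ≤ z) (ha : 1 ≤ a) :
    mass nuq (PP z (z ^ a)) = MM (z ^ a) / MM z := by
  rw [eq_div_iff (MM_pos z).ne']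
  have h1 : PP 0 (z ^ a) = PP z (z ^ a) ∪ PP 0 z := by
    have hza : z ≤ z ^ a := by
      calc z = z ^ 1 := (pow_one z).symm
        _ ≤ z ^ a := Nat.pow_le_pow_right hz ha
    ext q
    simp only [PP, Finset.mem_filter, Finset.mem_Ioc, Finset.mem_union]
    constructor
    · rintro ⟨⟨a1, a2⟩, a3⟩
      by_cases h : q ≤ z
      · right; exact ⟨⟨a1, h⟩, a3⟩
      · left; exact ⟨⟨by omega, a2⟩, a3⟩
    · rintro (⟨⟨a1, a2⟩, a3⟩ | ⟨⟨a1, a2⟩, a3⟩)
      · exact ⟨⟨by omega, a2⟩, a3⟩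
      · exact ⟨⟨a1, by omega⟩, a3⟩
  have h2 : Disjoint (PP z (z ^ a)) (PP 0 z) := by
    rw [Finset.disjoint_left]
    intro q hq hq'
    simp only [PP, Finset.mem_filter, Finset.mem_Ioc] at hq hq'
    omega
  unfold MM
  rw [h1, Finset.prod_union h2]
  congr 1
  unfold mass
  refine Finset.prod_congr rfl fun q hq => ?_
  have hqp : q.Prime := (Finset.mem_filter.1 hq).2
  have h3 : (2 : ℝ) ≤ q := by exact_mod_cast hqp.two_le
  unfold nuq
  have h4 : (q : ℝ) - 1 ≠ 0 := by linarith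
  have h5 : (q : ℝ) ≠ 0 := by linarith
  have h6 : 1 - 1 / (q : ℝ) ≠ 0 := by
    rw [one_sub_div h5]
    exact div_ne_zero h4 h5
  field_simp
  ring

theorem mass_lim (a : ℕ) (ha : 1 ≤ a) :
    Tendsto (fun z : ℕ => mass nuq (PP z (z ^ a))) atTop (𝓝 (a : ℝ)) := by
  have h1 := MM_lim
  have h2 : Tendsto (fun z : ℕ => MM (z ^ a) / Real.log ((z ^ a : ℕ) : ℝ)) atTop
      (𝓝 (Real.exp Real.eulerMascheroniConstant)) := by
    exact h1.comp (Filter.tendsto_pow_atTop (by omega : a ≠ 0))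
  have h3 := (h2.div h1 (Real.exp_pos _).ne').mul (tendsto_const_nhds (x := (a : ℝ)))
  rw [div_self (Real.exp_pos _).ne', one_mul] at h3
  refine h3.congr' ?_
  filter_upwards [eventually_ge_atTop 2] with z hz
  have hlz : 0 < Real.log z := Real.log_pos (by exact_mod_cast (by omega : 1 < z))
  rw [mass_eq z a (by omega) ha]
  change MM (z ^ a) / Real.log ((z ^ a : ℕ) : ℝ) / (MM z / Real.log z) * a = MM (z ^ a) / MM z
  push_cast
  rw [Real.log_pow]
  have ha0 : (a : ℝ) ≠ 0 := by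
    have : 0 < a := ha
    positivity
  have := (MM_pos z).ne'
  field_simp

theorem tau_le (z a : ℕ) (hz : 2 ≤ z) :
    ∑ q ∈ PP z (z ^ a), (1 / (q : ℝ)) * Real.log q ≤ a * Real.log z + 5 := by
  have h1 : (1 : ℝ) ≤ ((z ^ a : ℕ) : ℝ) := by
    exact_mod_cast Nat.one_le_pow _ _ (by omega)
  have h2 := Pool.Agent.Lib.MP_973905_nt.PrimeSum.A_bound _ h1
  unfold Pool.Agent.Lib.MP_973905_nt.PrimeSum.A at h2
  rw [Nat.floor_natCast] at h2
  have h3 := (abs_le.1 h2).2
  have h4 : ∑ q ∈ PP z (z ^ a), (1 / (q : ℝ)) * Real.log q ≤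
      ∑ p ∈ (Finset.Icc 1 (z ^ a)).filter Nat.Prime, Real.log p / p := by
    have h5 : ∑ q ∈ PP z (z ^ a), (1 / (q : ℝ)) * Real.log q =
        ∑ q ∈ PP z (z ^ a), Real.log q / q := by
      refine Finset.sum_congr rfl fun q _ => ?_
      ring
    rw [h5]
    refine Finset.sum_le_sum_of_subset_of_nonneg ?_ ?_
    · intro q hq
      simp only [PP, Finset.mem_filter, Finset.mem_Ioc, Finset.mem_Icc] at hq ⊢
      exact ⟨⟨by omega, hq.1.2⟩, hq.2⟩
    · intro q hq _
      have : 1 ≤ q := (Finset.mem_Icc.1 (Finset.mem_filter.1 hq).1).1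
      exact div_nonneg (Real.log_nonneg (by exact_mod_cast this)) (Nat.cast_nonneg q)
  push_cast at h3
  rw [Real.log_pow] at h3
  linarith

/-- transport of the quadratic form along a bijection -/
theorem bf_map {α β : Type*} [DecidableEq α] [DecidableEq β] (e : α ≃ β) (p : β → ℝ)
    (I : Finset α) (l m : Finset β → ℝ) :
    bf p (I.map e.toEmbedding) l m =
      bf (fun x => p (e x)) I (fun d => l (d.map e.toEmbedding))
        (fun d => m (d.map e.toEmbedding)) := by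
  have key : ∀ F : Finset β → ℝ, ∑ D ∈ (I.map e.toEmbedding).powerset, F D =
      ∑ D ∈ I.powerset, F (D.map e.toEmbedding) := by
    intro F
    symm
    refine Finset.sum_bij (fun D _ => D.map e.toEmbedding) ?_ ?_ ?_ ?_
    · intro D hD
      exact Finset.mem_powerset.2 (Finset.map_subset_map.2 (Finset.mem_powerset.1 hD))
    · intro D _ D' _ h
      exact Finset.map_injective _ h
    · intro D hD
      refine ⟨D.map e.symm.toEmbedding, ?_, ?_⟩
      · rw [Finset.mem_powerset]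
        intro x hx
        obtain ⟨y, hy, rfl⟩ := Finset.mem_map.1 hx
        obtain ⟨w, hw, hwy⟩ := Finset.mem_map.1 ((Finset.mem_powerset.1 hD) hy)
        have : e.symm.toEmbedding y = w := by
          rw [← hwy]
          exact e.symm_apply_apply w
        rw [this]
        exact hw
      · ext y
        simp
    · intro D _
      rfl
  unfold bf
  rw [key]
  refine Finset.sum_congr rfl fun D _ => ?_
  rw [key]
  refine Finset.sum_congr rfl fun D' _ => ?_
  rw [← Finset.map_union, Finset.prod_map]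
  rfl

theorem quad_eq {K : ℕ} (lam : Cond K → ℝ) (I : Cond K) :
    quad lam I = bf (fun x => 1 / (x.1 : ℝ)) I lam lam := by
  unfold quad bf
  refine Finset.sum_congr rfl fun D _ => Finset.sum_congr rfl fun D' _ => ?_
  unfold md
  push_cast
  rw [Finset.prod_div_distrib, Finset.prod_const_one, div_eq_mul_one_div]

theorem bf_one {α : Type*} [DecidableEq α] (p : α → ℝ) (I : Finset α) :
    bf p I (fun _ => 1) (fun _ => 1) = ∏ x ∈ I, (1 + 3 * p x) := by
  induction I using Finset.induction_on with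
  | empty => simp [bf]
  | insert a I ha ih =>
    rw [bf_insert p I a ha, Finset.prod_insert ha, ← ih]
    ring

theorem md_le_iff {K : ℕ} (z b : ℕ) (hz : 2 ≤ z) (hb : 1 ≤ b) (D : Cond K)
    (hD : ∀ x ∈ D, 0 < x.1) (h : ∑ x ∈ D, Real.log x.1 / (b * Real.log z) ≤ 1) :
    md D ≤ z ^ b := by
  have hlz : 0 < Real.log z := Real.log_pos (by exact_mod_cast (by omega : 1 < z))
  have hb0 : (0 : ℝ) < b := by exact_mod_cast hb
  rw [← Finset.sum_div, div_le_one (by positivity)] at h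
  have h1 : Real.log (md D : ℝ) = ∑ x ∈ D, Real.log x.1 := by
    unfold md
    push_cast
    rw [Real.log_prod]
    intro x hx
    have := hD x hx
    positivity
  have h2 : 0 < md D := Finset.prod_pos hD
  rw [← h1, ← Real.log_pow] at h
  have h3 := (Real.log_le_log_iff (by exact_mod_cast h2) (by positivity)).1 h
  exact_mod_cast h3

/-- WGT2. -/
theorem wgt2_69 : WGT2Stmt := by
  intro Λ
  set J : ℕ := max 1 ⌈22000 * Λ⌉₊ with hJdef
  have hJ1 : 1 ≤ J := le_max_left _ _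
  have hJΛ : 22000 * Λ ≤ J := by
    have a1 : 22000 * Λ ≤ (⌈22000 * Λ⌉₊ : ℝ) := Nat.le_ceil _
    have a2 : ((⌈22000 * Λ⌉₊ : ℕ) : ℝ) ≤ J := by exact_mod_cast le_max_right _ _
    linarith
  have hJ0 : (0 : ℝ) < J := by exact_mod_cast hJ1
  refine ⟨2 ^ J, fun K hK => ⟨288 ^ K + 5 * K, fun b1 => ?_⟩⟩
  have hK1 : 1 ≤ K := (Nat.one_le_two_pow).trans hK
  have hK0 : (0 : ℝ) < K := by exact_mod_cast hK1
  set a0 : ℕ := b1 + 1 with ha0def
  have ha01 : 1 ≤ a0 := by omega
  set b : ℕ := 150 * K * a0 with hbdef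
  have hb1 : b1 ≤ b := by
    have : a0 ≤ 150 * K * a0 := Nat.le_mul_of_pos_left a0 (by omega)
    omega
  have hb0 : 1 ≤ b := Nat.mul_pos (by omega) ha01
  have hbR : (0 : ℝ) < b := by exact_mod_cast hb0
  have hb1R : (1 : ℝ) ≤ b := by exact_mod_cast hb0
  have ha0R : (1 : ℝ) ≤ a0 := by exact_mod_cast ha01
  have hbeq : (b : ℝ) = 150 * K * a0 := by
    rw [hbdef]
    push_cast
    ring
  refine ⟨b, hb1, ?_⟩
  -- scales
  let aa : ℕ → ℕ := fun s => a0 * 2 ^ s
  have haa1 : ∀ s, 1 ≤ aa s := fun s => Nat.mul_pos ha01 (by positivity)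
  have haaR : ∀ s, (1 : ℝ) ≤ aa s := fun s => by exact_mod_cast haa1 s
  have haasucc : ∀ s, (aa (s + 1) : ℝ) = 2 * aa s := by
    intro s
    change ((a0 * 2 ^ (s + 1) : ℕ) : ℝ) = 2 * ((a0 * 2 ^ s : ℕ) : ℝ)
    push_cast
    ring
  have haaJ : ∀ s ≤ J, (150 : ℝ) * aa s ≤ b := by
    intro s hs
    have a1 : aa s ≤ a0 * K := Nat.mul_le_mul_left a0 ((Nat.pow_le_pow_right (by norm_num) hs).trans hK)
    have a2 : (aa s : ℝ) ≤ a0 * K := by exact_mod_cast a1
    rw [hbeq]
    nlinarith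
  have haab : ∀ s ≤ J, aa s ≤ b := by
    intro s hs
    have := haaJ s hs
    have h2 := haaR s
    have : (aa s : ℝ) ≤ b := by linarith
    exact_mod_cast this
  -- eventual bounds
  have hev : ∀ᶠ z : ℕ in atTop, (∀ s ∈ Finset.range (J + 1),
      |mass nuq (PP z (z ^ aa s)) - aa s| < 1 / 100) ∧
      |mass nuq (PP z (z ^ b)) - b| < 1 / 100 ∧ 500 ≤ Real.log z := by
    refine Filter.Eventually.and ?_ (Filter.Eventually.and ?_ ?_)
    · rw [Filter.eventually_all_finset]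
      intro s _
      have := (Metric.tendsto_nhds.1 (mass_lim (aa s) (haa1 s))) (1 / 100) (by norm_num)
      filter_upwards [this] with z hz
      rwa [Real.dist_eq] at hz
    · have := (Metric.tendsto_nhds.1 (mass_lim b hb0)) (1 / 100) (by norm_num)
      filter_upwards [this] with z hz
      rwa [Real.dist_eq] at hz
    · exact (Real.tendsto_log_atTop.comp tendsto_natCast_atTop_atTop).eventually_ge_atTop 500
  obtain ⟨z1, hz1⟩ := Filter.eventually_atTop.1 (hev.and (eventually_ge_atTop 2))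
  refine ⟨z1, fun z hz => ?_⟩
  obtain ⟨⟨hmass, hmassb, hlog⟩, hz2⟩ := hz1 z hz
  have hlz : 0 < Real.log z := by linarith
  have hM : ∀ s ≤ J, |mass nuq (PP z (z ^ aa s)) - aa s| < 1 / 100 :=
    fun s hs => hmass s (Finset.mem_range.2 (by omega))
  -- the model
  have hq2 : ∀ q ∈ PP z (z ^ b), (2 : ℝ) ≤ q := fun q hq => by
    exact_mod_cast (Finset.mem_filter.1 hq).2.two_le
  have hnu : ∀ q ∈ PP z (z ^ b), 0 ≤ nuq q := fun q hq => by
    have := hq2 q hq
    unfold nuq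
    apply div_nonneg (by norm_num)
    linarith
  have hp : ∀ q ∈ PP z (z ^ b), (fun q : ℕ => 1 / (q : ℝ)) q * (1 + nuq q) = nuq q := fun q hq => by
    have a1 := hq2 q hq
    have a2 : (q : ℝ) ≠ 0 := by linarith
    have a3 : (q : ℝ) - 1 ≠ 0 := by linarith
    unfold nuq
    field_simp
    ring
  have ht : ∀ q ∈ PP z (z ^ b), 0 ≤ (fun q : ℕ => Real.log q / (b * Real.log z)) q := fun q hq => by
    have a1 := hq2 q hq
    exact div_nonneg (Real.log_nonneg (by linarith)) (by positivity)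
  have hS : ∀ s ≤ J, PP z (z ^ aa s) ⊆ PP z (z ^ b) := by
    intro s hs q hq
    simp only [PP, Finset.mem_filter, Finset.mem_Ioc] at hq ⊢
    exact ⟨⟨hq.1.1, hq.1.2.trans (Nat.pow_le_pow_right (by omega) (haab s hs))⟩, hq.2⟩
  have htau : ∀ s ≤ J, ∑ q ∈ PP z (z ^ aa s), (fun q : ℕ => 1 / (q : ℝ)) q *
      (fun q : ℕ => Real.log q / (b * Real.log z)) q ≤ (aa s + 1 / 100) / b := by
    intro s _
    have a1 := tau_le z (aa s) hz2
    have a2 : ∑ q ∈ PP z (z ^ aa s), (fun q : ℕ => 1 / (q : ℝ)) q *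
        (fun q : ℕ => Real.log q / (b * Real.log z)) q =
        (∑ q ∈ PP z (z ^ aa s), (1 / (q : ℝ)) * Real.log q) / (b * Real.log z) := by
      rw [Finset.sum_div]
      refine Finset.sum_congr rfl fun q _ => ?_
      ring
    rw [a2, div_le_div_iff₀ (by positivity) hbR]
    nlinarith
  have h1 : ∀ s < J, 3 / 2 * mass nuq (PP z (z ^ aa s)) ≤ mass nuq (PP z (z ^ aa (s + 1))) := by
    intro s hs
    have a1 := (abs_lt.1 (hM s (by omega))).2
    have a2 := (abs_lt.1 (hM (s + 1) (by omega))).1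
    have a3 := haasucc s
    have a4 := haaR s
    linarith
  have h2 : ∀ s ≤ J, ∑ q ∈ PP z (z ^ aa s), (fun q : ℕ => 1 / (q : ℝ)) q *
      (fun q : ℕ => Real.log q / (b * Real.log z)) q ≤ 1 / 4 := by
    intro s hs
    refine (htau s hs).trans ?_
    rw [div_le_iff₀ hbR]
    have := haaJ s hs
    have := haaR s
    linarith
  have h3 : ∀ s ≤ J, 144 * K * mass nuq (PP z (z ^ aa 0)) *
      ∑ q ∈ PP z (z ^ aa s), (fun q : ℕ => 1 / (q : ℝ)) q *
      (fun q : ℕ => Real.log q / (b * Real.log z)) q ≤ mass nuq (PP z (z ^ aa s)) := by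
    intro s hs
    have a1 := (abs_lt.1 (hM 0 (by omega))).2
    have a1' := (abs_lt.1 (hM 0 (by omega))).1
    have a2 := (abs_lt.1 (hM s hs)).1
    have a3 := haaR s
    have a4 : (aa 0 : ℝ) = a0 := by
      change ((a0 * 2 ^ 0 : ℕ) : ℝ) = a0
      rw [pow_zero, mul_one]
    have a5 : mass nuq (PP z (z ^ aa 0)) ≤ 101 / 100 * a0 := by linarith
    have a6 : 0 ≤ mass nuq (PP z (z ^ aa 0)) := by linarith
    calc 144 * K * mass nuq (PP z (z ^ aa 0)) *
        ∑ q ∈ PP z (z ^ aa s), (fun q : ℕ => 1 / (q : ℝ)) q *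
          (fun q : ℕ => Real.log q / (b * Real.log z)) q ≤
        144 * K * mass nuq (PP z (z ^ aa 0)) * ((aa s + 1 / 100) / b) :=
          mul_le_mul_of_nonneg_left (htau s hs) (by positivity)
      _ ≤ 144 * K * (101 / 100 * a0) * ((aa s + 1 / 100) / b) := by
          refine mul_le_mul_of_nonneg_right ?_ (by positivity)
          exact mul_le_mul_of_nonneg_left a5 (by positivity)
      _ = 144 * 101 / 15000 * (aa s + 1 / 100) := by
          rw [hbeq]
          field_simp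
          ring
      _ ≤ mass nuq (PP z (z ^ aa s)) := by linarith
  obtain ⟨l, hl1, hl2, hl3, hl4⟩ := maynard_model J hJ1 K hK1 (PP z (z ^ b)) nuq
    (fun q => 1 / (q : ℝ)) (fun q => Real.log q / (b * Real.log z)) hnu hp ht
    (fun s => PP z (z ^ aa s)) hS h1 h2 h3
  -- swap
  let e : (ℕ × Fin K) ≃ (Fin K × ℕ) := Equiv.prodComm ℕ (Fin K)
  let I : Cond K := PI z (z ^ b) K
  have hI : I.map e.toEmbedding = (Finset.univ : Finset (Fin K)) ×ˢ PP z (z ^ b) := by
    ext x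
    simp only [Finset.mem_map, Finset.mem_product, Finset.mem_univ, true_and]
    constructor
    · rintro ⟨y, hy, rfl⟩
      exact (Finset.mem_product.1 hy).1
    · intro hx
      exact ⟨(x.2, x.1), Finset.mem_product.2 ⟨hx, Finset.mem_univ _⟩, rfl⟩
  have hIi : ∀ i : Fin K, (I.filter (fun x => x.2 ≠ i)).map e.toEmbedding =
      ((Finset.univ : Finset (Fin K)).erase i) ×ˢ PP z (z ^ b) := by
    intro i
    ext x
    simp only [Finset.mem_map, Finset.mem_product, Finset.mem_erase, Finset.mem_univ, and_true,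
      Finset.mem_filter]
    constructor
    · rintro ⟨y, ⟨hy, hyi⟩, rfl⟩
      exact ⟨hyi, (Finset.mem_product.1 hy).1⟩
    · rintro ⟨hxi, hx⟩
      exact ⟨(x.2, x.1), ⟨Finset.mem_product.2 ⟨hx, Finset.mem_univ _⟩, hxi⟩, rfl⟩
  let lam : Cond K → ℝ := fun D => if D ⊆ I then l (D.map e.toEmbedding) else 0
  have hsub : ∀ D : Cond K, D ⊆ I → D.map e.toEmbedding ⊆
      (Finset.univ : Finset (Fin K)) ×ˢ PP z (z ^ b) := by
    intro D hD
    rw [← hI]
    exact Finset.map_subset_map.2 hD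
  have hlam : ∀ D : Cond K, D ⊆ I → lam D = l (D.map e.toEmbedding) := fun D hD => if_pos hD
  have hquad : ∀ I' : Cond K, I' ⊆ I → quad lam I' =
      bf (fun x : Fin K × ℕ => 1 / (x.2 : ℝ)) (I'.map e.toEmbedding) l l := by
    intro I' hI'
    rw [quad_eq, bf_map]
    exact bf_congr _ _ _ _ _ _ (fun D hD => hlam D (hD.trans hI')) (fun D hD => hlam D (hD.trans hI'))
  have hmassb' : mass nuq (PP z (z ^ b)) ≤ 2 * b := by
    have := (abs_lt.1 hmassb).2
    linarith
  have hmassb0 : 0 ≤ mass nuq (PP z (z ^ b)) := by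
    have := (abs_lt.1 hmassb).1
    linarith
  have hbd : ∀ D : Cond K, |lam D| ≤ 6 ^ K * (b : ℝ) ^ K := by
    intro D
    by_cases hD : D ⊆ I
    · rw [hlam D hD]
      refine (hl1 _ (hsub D hD)).trans ?_
      calc (3 : ℝ) ^ K * mass nuq (PP z (z ^ b)) ^ K ≤ 3 ^ K * (2 * b) ^ K :=
            mul_le_mul_of_nonneg_left (pow_le_pow_left₀ hmassb0 hmassb' K) (by positivity)
        _ = 6 ^ K * (b : ℝ) ^ K := by
            rw [mul_pow, ← mul_assoc, ← mul_pow]
            norm_num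
    · change |if D ⊆ I then l (D.map e.toEmbedding) else 0| ≤ _
      rw [if_neg hD, abs_zero]
      positivity
  have hpow : ∀ c m : ℕ, c ≤ 288 ^ K → m ≤ 5 * K →
      (c : ℝ) * (b : ℝ) ^ m ≤ ((288 ^ K + 5 * K : ℕ) : ℝ) * (b : ℝ) ^ (288 ^ K + 5 * K) := by
    intro c m hc hm
    have a1 : (c : ℝ) ≤ ((288 ^ K + 5 * K : ℕ) : ℝ) := by exact_mod_cast (by omega)
    have a2 : (b : ℝ) ^ m ≤ (b : ℝ) ^ (288 ^ K + 5 * K) :=
      pow_le_pow_right₀ hb1R (by omega)
    exact mul_le_mul a1 a2 (by positivity) (by positivity)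
  refine ⟨lam, ?_, ?_, ?_, ?_, ?_⟩
  · intro D
    refine (hbd D).trans ?_
    have := hpow (6 ^ K) K (Nat.pow_le_pow_left (by norm_num) K) (by omega)
    push_cast at this ⊢
    exact this
  · intro D hD
    have hDI : D ⊆ I := by
      by_contra hcon
      exact hD (if_neg hcon)
    refine ⟨?_, hDI⟩
    rw [hlam D hDI] at hD
    have a1 := hl2 _ (hsub D hDI) hD
    rw [Finset.sum_map] at a1
    refine md_le_iff z b hz2 hb0 D ?_ a1
    intro x hx
    exact (Finset.mem_filter.1 (Finset.mem_product.1 (hDI hx)).1).2.pos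
  · have a1 : ∑ D ∈ I.powerset, ∑ D' ∈ I.powerset, |lam D * lam D'| / (md (D ∪ D') : ℝ) ≤
        (6 ^ K * (b : ℝ) ^ K) ^ 2 * bf (fun x : ℕ × Fin K => 1 / (x.1 : ℝ)) I (fun _ => 1)
          (fun _ => 1) := by
      unfold bf
      rw [Finset.mul_sum]
      refine Finset.sum_le_sum fun D _ => ?_
      rw [Finset.mul_sum]
      refine Finset.sum_le_sum fun D' _ => ?_
      have a2 : ∏ x ∈ D ∪ D', 1 / (x.1 : ℝ) = 1 / (md (D ∪ D') : ℝ) := by
        unfold md
        push_cast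
        rw [Finset.prod_div_distrib, Finset.prod_const_one]
      rw [a2, mul_one, one_mul, mul_one_div, abs_mul]
      refine div_le_div_of_nonneg_right ?_ (Nat.cast_nonneg _)
      rw [sq]
      exact mul_le_mul (hbd D) (hbd D') (abs_nonneg _) (by positivity)
    refine a1.trans ?_
    rw [bf_one]
    have a3 : ∏ x ∈ I, (1 + 3 * (1 / (x.1 : ℝ))) ≤ (2 * (b : ℝ)) ^ (3 * K) := by
      have a4 : ∏ x ∈ I, (1 + 3 * (1 / (x.1 : ℝ))) =
          (∏ q ∈ PP z (z ^ b), (1 + 3 * (1 / (q : ℝ)))) ^ K := by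
        change ∏ x ∈ PP z (z ^ b) ×ˢ (Finset.univ : Finset (Fin K)), (1 + 3 * (1 / (x.1 : ℝ))) = _
        rw [Finset.prod_product_right]
        change ∏ _i : Fin K, ∏ q ∈ PP z (z ^ b), (1 + 3 * (1 / (q : ℝ))) = _
        rw [Finset.prod_const, Finset.card_univ, Fintype.card_fin]
      have a5 : ∏ q ∈ PP z (z ^ b), (1 + 3 * (1 / (q : ℝ))) ≤ mass nuq (PP z (z ^ b)) ^ 3 := by
        unfold mass
        rw [← Finset.prod_pow]
        refine Finset.prod_le_prod (fun q _ => by positivity) (fun q hq => ?_)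
        have b1 := hq2 q hq
        have b2 : 1 / (q : ℝ) ≤ nuq q := by
          unfold nuq
          exact one_div_le_one_div_of_le (by linarith) (by linarith)
        have b3 : 0 ≤ 1 / (q : ℝ) := by positivity
        calc 1 + 3 * (1 / (q : ℝ)) ≤ (1 + 1 / (q : ℝ)) ^ 3 := by nlinarith [pow_nonneg b3 3, sq_nonneg (1 / (q : ℝ))]
          _ ≤ (1 + nuq q) ^ 3 := pow_le_pow_left₀ (by positivity) (by linarith) 3
      rw [a4]
      calc (∏ q ∈ PP z (z ^ b), (1 + 3 * (1 / (q : ℝ)))) ^ K ≤ (mass nuq (PP z (z ^ b)) ^ 3) ^ K :=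
            pow_le_pow_left₀ (Finset.prod_nonneg fun q _ => by positivity) a5 K
        _ ≤ ((2 * (b : ℝ)) ^ 3) ^ K := pow_le_pow_left₀ (by positivity)
            (pow_le_pow_left₀ hmassb0 hmassb' 3) K
        _ = _ := by rw [← pow_mul]
    calc (6 ^ K * (b : ℝ) ^ K) ^ 2 * ∏ x ∈ I, (1 + 3 * (1 / (x.1 : ℝ))) ≤
        (6 ^ K * (b : ℝ) ^ K) ^ 2 * (2 * (b : ℝ)) ^ (3 * K) :=
          mul_le_mul_of_nonneg_left a3 (by positivity)
      _ = 288 ^ K * (b : ℝ) ^ (5 * K) := by
          have c1 : (6 : ℝ) ^ K * 6 ^ K * (2 ^ 3) ^ K = 288 ^ K := by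
            rw [← mul_pow, ← mul_pow]
            norm_num
          rw [← c1, mul_pow, mul_pow, ← pow_mul (2 : ℝ) 3 K, pow_mul' (b : ℝ) 5 K]
          ring
      _ ≤ _ := by
          have := hpow (288 ^ K) (5 * K) le_rfl le_rfl
          push_cast at this ⊢
          exact this
  · rw [hquad I (Finset.Subset.refl _), hI]
    exact hl3
  · have c1 : ∀ i : Fin K, J * mass nuq (PP z (z ^ aa 0)) / 144 * quad lam I ≤
        quad lam (I.filter (fun x => x.2 ≠ i)) := by
      intro i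
      rw [hquad I (Finset.Subset.refl _), hI, hquad _ (Finset.filter_subset _ _), hIi i]
      exact hl4 i
    intro i
    refine le_trans ?_ (mul_le_mul_of_nonneg_left (c1 i) hK0.le)
    have hq0 : 0 ≤ quad lam I := by
      rw [hquad I (Finset.Subset.refl _), hI]
      linarith
    rw [← mul_assoc]
    refine mul_le_mul_of_nonneg_right ?_ hq0
    have d1 := (abs_lt.1 (hM 0 (by omega))).1
    have a4 : (aa 0 : ℝ) = a0 := by
      change ((a0 * 2 ^ 0 : ℕ) : ℝ) = a0
      rw [pow_zero, mul_one]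
    have d2 : 99 / 100 * (a0 : ℝ) ≤ mass nuq (PP z (z ^ aa 0)) := by linarith
    have d3 : (J : ℝ) / 22000 * b ≤ K * (J * mass nuq (PP z (z ^ aa 0)) / 144) := by
      have d4 : (J : ℝ) / 22000 * b = K * (J * (150 / 22000 * a0)) := by
        rw [hbeq]
        ring
      rw [d4]
      refine mul_le_mul_of_nonneg_left ?_ hK0.le
      rw [mul_div_assoc]
      refine mul_le_mul_of_nonneg_left ?_ hJ0.le
      linarith
    have d5 : Λ * b ≤ (J : ℝ) / 22000 * b := by
      refine mul_le_mul_of_nonneg_right ?_ hbR.le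
      linarith
    linarith

/-- WGT. -/
theorem wgt_69 : WGTStmt := by
  intro Λ
  obtain ⟨K0, h⟩ := wgt2_69 Λ
  refine ⟨max K0 1, fun K hK => ?_⟩
  obtain ⟨CK, h1⟩ := h K ((le_max_left _ _).trans hK)
  refine ⟨CK, fun b1 => ?_⟩
  obtain ⟨b, hb, z1, h2⟩ := h1 b1
  refine ⟨b, hb, z1, fun z hz => ?_⟩
  obtain ⟨lam, a1, a2, a3, a4, a5⟩ := h2 z hz
  refine ⟨lam, a1, a2, a3, a4, ?_⟩
  have hK1 : 1 ≤ K := (le_max_right _ _).trans hK
  have hK0 : (0 : ℝ) < K := by exact_mod_cast hK1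
  have h3 : ∑ _i : Fin K, Λ * b * quad lam (PI z (z ^ b) K) ≤
      ∑ i : Fin K, K * quad lam ((PI z (z ^ b) K).filter (fun x => x.2 ≠ i)) :=
    Finset.sum_le_sum fun i _ => a5 i
  rw [Finset.sum_const, Finset.card_univ, Fintype.card_fin, nsmul_eq_mul, ← Finset.mul_sum] at h3
  exact le_of_mul_le_mul_left h3 hK0

end Pool.Agent.Lib.MT2.T69
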