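import Mathlib
import Pool.Agent.Lib.MT2.MTb_2
import Pool.Agent.Lib.MT2.A_52
import Pool.Agent.Lib.MT2.B_19
import Pool.Agent.Lib.MT2.Disp42
import Pool.Agent.Lib.MT2.EVc62
import Pool.Agent.Lib.MT2.MIX62
import Pool.Agent.Lib.MT2.Trans49b
import Pool.Agent.Lib.MT2.Fix49
import Pool.Agent.Lib.MT2.Pnt33
import Pool.Agent.Lib.MT2.Ram33
import Pool.Agent.Lib.MT2.Rates82
import Pool.Agent.Lib.MT2.S5k_98
import Pool.Agent.Lib.MT2.SQR_95
import Pool.Agent.Lib.MT2.Small39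
import Pool.Agent.Lib.MT2.VV39
import Pool.Agent.Lib.MT2.Wgt69
import Pool.Agent.Lib.TwinAll.S3_49
import Pool.Agent.Lib.TwinAll.S2alt49

/-!
MAYNARD-TAO ON ROUGH FORMS: everything put together.
-/

set_option autoImplicit false

namespace Pool.Agent.Lib.MT2.All2

open Pool.Agent.Lib.MT2

theorem ev1_all : EV1Stmt := T62.ev1_62 R82.s2r_82

theorem ev2_all : EV2Stmt := T62.ev2_62 R82.s2r_82

theorem disp_all : DISPStmt :=
  disp_42 ev2_all ev1_all R82.s2r_82 (T98.s5k_98 R82.corer_82)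

theorem trans_all : TRANSStmt :=
  Trans49.trans_49 disp_all T62.mix_62 R82.s2r_82 vvlow_39 mert_39 wb_39

theorem mtc_all : MTCStmt :=
  T2.mtc_2 T69.wgt2_69 T95.sqr ev1_all trans_all T33.pnt_33 vva_39 wb_39

theorem mt_all : MTStmt := T2.mt_2 mtc_all wb_39

theorem a_all : AStmt := T52.a_52 mt_all Fix49.fix_49 ram_33 vvlow_39

theorem b_all : BStmt :=
  T19.b_19 mt_all Fix49.fix_49 ram_33 (Pool.Agent.Lib.TwinAll.S3 Pool.Agent.Lib.TwinAll.T49.S2alt)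

end Pool.Agent.Lib.MT2.All2
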