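import Pool.Agent.Lib.MT2.C40a

/-!
MT2, module C: two prescribed terms of a chain of almost primes (MP_39b545_nt).
-/

set_option autoImplicit false

namespace Pool.Agent.Lib.MT2

open Finset
open ArithmeticFunction (cardFactors)
open Pool.Agent.Lib.TwinAll (PP Rough om VV nu ee)

open T40

theorem c_40 (hMT : MTStmt) (hFIX : FIXStmt) (hRAM : RAMStmt) (hVV : VVlowStmt) : CStmt := by
  classical
  intro k j m r hm hj
  obtain ⟨K, hMT⟩ := hMT
  obtain ⟨κ, hκ⟩ : ∃ κ : ℕ, κ = 2 ^ j := ⟨_, rfl⟩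
  have hκ2 : 2 ≤ κ := by
    rw [hκ]
    calc 2 = 2 ^ 1 := by norm_num
      _ ≤ 2 ^ j := Nat.pow_le_pow_right (by norm_num) hj
  have hκ0 : 0 < κ := by omega
  obtain ⟨ρ, c, hρ0, hρ⟩ := hRAM K κ m hκ0 hm
  -- the modulus
  obtain ⟨L, hL⟩ : ∃ L : ℕ, L = κ * ∏ s : Fin K, ∏ t : Fin K, (if s < t then ρ t - ρ s else 1) :=
    ⟨_, rfl⟩
  have hL0 : 0 < L := by
    rw [hL]
    refine Nat.mul_pos hκ0 (prod_pos fun s _ => prod_pos fun t _ => ?_)
    split_ifs with h
    · have := (hρ s t h).1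
      omega
    · exact one_pos
  have hLd : ∀ s t : Fin K, s < t → κ * (ρ t - ρ s) ∣ L := by
    intro s t hst
    rw [hL]
    apply Nat.mul_dvd_mul_left
    have h1 : (∏ t' : Fin K, (if s < t' then ρ t' - ρ s else 1)) ∣
        ∏ s' : Fin K, ∏ t' : Fin K, (if s' < t' then ρ t' - ρ s' else 1) :=
      dvd_prod_of_mem (fun s' : Fin K => ∏ t' : Fin K, (if s' < t' then ρ t' - ρ s' else 1))
        (mem_univ s)
    have h2 : (if s < t then ρ t - ρ s else 1) ∣
        ∏ t' : Fin K, (if s < t' then ρ t' - ρ s else 1) :=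
      dvd_prod_of_mem (fun t' : Fin K => if s < t' then ρ t' - ρ s else 1) (mem_univ t)
    rw [if_pos hst] at h2
    exact h2.trans h1
  obtain ⟨T, hT⟩ : ∃ T : ℕ, T = 1 + ∑ s, κ * ρ s := ⟨_, rfl⟩
  have hT1 : 1 ≤ T := by omega
  have hTs : ∀ s, κ * ρ s < L * T := by
    intro s
    have h1 : κ * ρ s ≤ ∑ s, κ * ρ s := single_le_sum (f := fun s => κ * ρ s)
      (fun _ _ => Nat.zero_le _) (mem_univ s)
    have h2 : 1 * T ≤ L * T := Nat.mul_le_mul_right _ hL0
    omega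
  obtain ⟨Bn, hBn⟩ : ∃ Bn : Fin K → ℕ, ∀ s, Bn s = L * T - (κ - 1) * ρ s := ⟨_, fun _ => rfl⟩
  have hBs : ∀ s, Bn s + (κ - 1) * ρ s = L * T ∧ 0 < Bn s := by
    intro s
    have h1 := hTs s
    have h2 : (κ - 1) * ρ s ≤ κ * ρ s := Nat.mul_le_mul_right _ (by omega)
    rw [hBn s]
    omega
  have hBd : ∀ s t : Fin K, s < t → κ * (ρ t - ρ s) ∣ Bn s := by
    intro s t hst
    rw [hBn s]
    apply Nat.dvd_sub
    · exact Dvd.dvd.mul_right (hLd s t hst) _
    · exact Dvd.dvd.mul_left (hρ s t hst).2.1 _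
  have hBst : ∀ s t : Fin K, s < t → Bn s = Bn t + (κ - 1) * (ρ t - ρ s) := by
    intro s t hst
    have h1 := (hBs s).1
    have h2 := (hBs t).1
    have h3 := (hρ s t hst).1
    have h4 : (κ - 1) * (ρ t - ρ s) + (κ - 1) * ρ s = (κ - 1) * ρ t := by
      rw [← Nat.mul_add]; congr 1; omega
    omega
  -- extra forms
  obtain ⟨ae, hae⟩ : ∃ ae : Fin K × Fin K × Fin k → ℤ, ∀ x, ae x =
      if x.1 < x.2.1 then 2 ^ (x.2.2 : ℕ) * ((L / (κ * (ρ x.2.1 - ρ x.1)) : ℕ) : ℤ) else 1 :=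
    ⟨_, fun _ => rfl⟩
  obtain ⟨be, hbe⟩ : ∃ be : Fin K × Fin K × Fin k → ℤ, ∀ x, be x =
      if x.1 < x.2.1 then 2 ^ (x.2.2 : ℕ) * (((Bn x.1 / (κ * (ρ x.2.1 - ρ x.1)) : ℕ) : ℤ) - 1) + 1
      else 0 := ⟨_, fun _ => rfl⟩
  obtain ⟨ke, hke⟩ : ∃ ke, ke = Fintype.card (Fin K × Fin K × Fin k) := ⟨_, rfl⟩
  obtain ⟨eq⟩ : Nonempty (Fin K × Fin K × Fin k ≃ Fin ke) := by
    rw [hke]
    exact ⟨Fintype.equivFin _⟩
  obtain ⟨D, hD⟩ : ∃ D : ℕ, D = 2 ^ k * (L * T) := ⟨_, rfl⟩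
  have hLT : L ≤ L * T := Nat.le_mul_of_pos_right _ hT1
  have hLTD : L * T ≤ D := by
    rw [hD]
    exact Nat.le_mul_of_pos_left _ (by positivity)
  obtain ⟨G0, hG⟩ := hFIX K ke D
  obtain ⟨G, hG1⟩ : ∃ G : ℕ, G = r + j + c + m * (G0 + 1) - 1 := ⟨_, rfl⟩
  have hmG : G0 + 1 ≤ m * (G0 + 1) := Nat.le_mul_of_pos_left _ hm
  have hGG : G + 1 = r + j + c + m * (G0 + 1) := by omega
  obtain ⟨ws, hws⟩ := hG G (by omega)
  obtain ⟨B, zs, hB1, hMT2⟩ := hMT K ke 1 le_rfl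
  obtain ⟨Cv, zv, hVV2⟩ := hVV (K + ke)
  obtain ⟨w, hw⟩ : ∃ w : ℕ, w = max ws (max zs zv) := ⟨_, rfl⟩
  obtain ⟨Cw, hCw⟩ := hws w (by rw [hw]; exact le_max_left _ _)
  obtain ⟨U0, M, h, α, β, h', a', b', hM0, hMC, hU0, hmain, hMF, hext, hSF⟩ :=
    hCw (fun _ => (L : ℤ)) (fun s => (Bn s : ℤ)) (fun e => ae (eq.symm e))
    (fun e => be (eq.symm e)) (by
      intro s
      have h1 := (hBs s).2
      have h2 := (hBs s).1
      refine ⟨by exact_mod_cast hL0, by exact_mod_cast hLT.trans hLTD, by exact_mod_cast h1, ?_⟩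
      exact_mod_cast (show Bn s ≤ D by omega)) (by
      intro s t hst he
      have h0 : (L : ℤ) ≠ 0 := by exact_mod_cast hL0.ne'
      have h1 : (Bn t : ℤ) = Bn s := mul_left_cancel₀ h0 he
      have h2 : Bn t = Bn s := by exact_mod_cast h1
      rcases lt_or_gt_of_ne hst with h3 | h3
      · have h4 := hBst s t h3
        have h5 := (hρ s t h3).1
        have : 0 < (κ - 1) * (ρ t - ρ s) := Nat.mul_pos (by omega) (by omega)
        omega
      · have h4 := hBst t s h3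
        have h5 := (hρ t s h3).1
        have : 0 < (κ - 1) * (ρ s - ρ t) := Nat.mul_pos (by omega) (by omega)
        omega) (by
      intro e
      obtain ⟨⟨s, t, i⟩, hx⟩ : ∃ x, x = eq.symm e := ⟨_, rfl⟩
      rw [← hx, hae]
      simp only
      split_ifs with hst
      · have h1 : 0 < L / (κ * (ρ t - ρ s)) :=
          Nat.div_pos (Nat.le_of_dvd hL0 (hLd s t hst)) (Nat.mul_pos hκ0 (by
            have := (hρ s t hst).1
            omega))
        have h2 : L / (κ * (ρ t - ρ s)) ≤ L := Nat.div_le_self _ _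
        have h3 : 2 ^ (i : ℕ) ≤ 2 ^ k := Nat.pow_le_pow_right (by norm_num) i.isLt.le
        have h4 : 2 ^ (i : ℕ) * (L / (κ * (ρ t - ρ s))) ≤ D := by
          rw [hD]
          exact Nat.mul_le_mul h3 (h2.trans hLT)
        have h5 : 0 < 2 ^ (i : ℕ) * (L / (κ * (ρ t - ρ s))) := by positivity
        have e1 : (2 : ℤ) ^ (i : ℕ) * ((L / (κ * (ρ t - ρ s)) : ℕ) : ℤ) =
            ((2 ^ (i : ℕ) * (L / (κ * (ρ t - ρ s))) : ℕ) : ℤ) := by push_cast; ring
        rw [e1]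
        refine ⟨by exact_mod_cast h5.ne', ?_⟩
        rw [abs_of_nonneg (by positivity)]
        exact_mod_cast h4
      · refine ⟨one_ne_zero, ?_⟩
        rw [abs_one]
        exact_mod_cast (show 1 ≤ D by omega))

  obtain ⟨δ, z1, hδ, hMT3⟩ := hMT2 w (by rw [hw]; exact (le_max_left _ _).trans (le_max_right _ _)) Cw
  obtain ⟨z2, hVV3⟩ := hVV2 w (by rw [hw]; exact (le_max_right _ _).trans (le_max_right _ _))
  obtain ⟨Q, hQ⟩ : ∃ Q : ℕ, Q = L * (M + U0 + T) := ⟨_, rfl⟩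
  have hQ0 : 0 < Q := by rw [hQ]; exact Nat.mul_pos hL0 (by omega)
  obtain ⟨Z, hZ1, hZ2, hZB, hZL, hZQ, hZk, hZ3⟩ : ∃ Z : ℕ, z1 ≤ Z ∧ z2 ≤ Z ∧ 2 ^ B ≤ Z ∧ L ≤ Z ∧
      2 * Q ≤ Z ∧ 2 ^ k ≤ Z ∧ 3 ≤ Z := by
    generalize 2 ^ B = PB
    generalize 2 ^ k = Pk
    exact ⟨z1 + z2 + PB + L + 2 * Q + Pk + 3, by omega, by omega, by omega, by omega, by omega,
      by omega, by omega⟩
  obtain ⟨C1, hC1⟩ : ∃ C1 : ℕ, 2 * Q * (K ^ 2 + 1) / δ ≤ (C1 : ℝ) := exists_nat_ge _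
  obtain ⟨C, hC⟩ : ∃ C : ℕ, C = Q * (Z ^ B + 1) + Cw + (B + 10) + (Cv + 1) +
      ⌈Real.exp C1⌉₊ + 3 := ⟨_, rfl⟩
  refine ⟨C, fun N hN => ?_⟩
  have hNQ : Q * (Z ^ B + 1) ≤ N := by omega
  have hN3 : 3 ≤ N := by omega
  have hCwC : Cw ≤ C := by omega
  have hBC : B + 10 + Cw ≤ C := by omega
  have hCvC : Cv + 1 ≤ C := by omega
  have hNexp0 : ⌈Real.exp C1⌉₊ ≤ N := by omega
  clear hC
  obtain ⟨H, hH⟩ : ∃ H : ℕ, H = N / Q := ⟨_, rfl⟩
  have hHZ : Z ^ B + 1 ≤ H := by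
    rw [hH, Nat.le_div_iff_mul_le hQ0, mul_comm]
    exact hNQ
  have hHN : Q * H ≤ N := by rw [hH]; exact Nat.mul_div_le _ _
  have hNH : N < Q * (H + 1) := by
    rw [hH]
    exact Nat.lt_mul_div_succ N hQ0
  obtain ⟨z, hz1, hz2⟩ := exists_root B H hB1 (by omega)
  have hZz : Z ≤ z := by
    by_contra hcon
    push Not at hcon
    have : (z + 1) ^ B ≤ Z ^ B := Nat.pow_le_pow_left (by omega) _
    omega
  have hz3 : 3 ≤ z := by omega
  have hHz : H ≤ z ^ (B + 1) := H_le_pow (by omega) hz2 (hZB.trans hZz)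
  have hNz : N ≤ z ^ (B + 2) := N_le_pow (le_trans (Nat.le_add_left _ _) hHZ) hNH (hZQ.trans hZz) hHz
  -- the set
  have hcount := hMT3 z (by omega) α β a' b' hMF hSF H hz1 hHz
  have hVlow := hVV3 z (by omega) (Fin.append α a') (Fin.append β b') (by
    intro i q hq hd
    unfold PP at hq
    rw [mem_filter, mem_Ioc] at hq
    refine Fin.addCases (fun i => ?_) (fun i => ?_) i (motive := fun i =>
      (q : ℤ) ∣ (Fin.append α a') i → False) hd
    · intro hd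
      rw [Fin.append_left] at hd
      have := hMF.large i q hq.2 hd
      omega
    · intro hd
      rw [Fin.append_right] at hd
      have := hSF.large i q hq.2 hd
      omega)
  set Vs := (Ioc (0 : ℤ) H).filter (fun U =>
          (∀ j, Rough w z (α j * U + β j)) ∧ (∀ j, Rough w z (a' j * U + b' j)) ∧
          ∃ i j, i < j ∧ Prime (α i * U + β i) ∧ Prime (α j * U + β j)) with hVs
  have hVmem : ∀ V ∈ Vs, (0 < V ∧ V ≤ H) ∧ (∀ j, Rough w z (α j * V + β j)) ∧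
      (∀ j, Rough w z (a' j * V + b' j)) ∧
      ∃ i j, i < j ∧ Prime (α i * V + β i) ∧ Prime (α j * V + β j) := by
    intro V hV
    rw [hVs, mem_filter, mem_Ioc] at hV
    exact hV
  -- the main computation for one element
  have hone : ∀ V ∈ Vs, ∃ (n : ℕ) (s t : Fin K), s < t ∧
      κ * (ρ t - ρ s) * n = L * (U0 + M * V.toNat) + Bn s ∧ 1 ≤ n ∧ n ≤ N ∧
      PrimeMult C n ∧ PrimeMult C (2 ^ j * (n - 1) + 1) ∧
      cardFactors n ≡ r [MOD m] ∧
      cardFactors (2 ^ j * (n - 1) + 1) = cardFactors n + j ∧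
      ∀ i < k, AlmostPrime C N (2 ^ i * (n - 1) + 1) := by
    intro V hV
    obtain ⟨⟨hV0, hVH⟩, hR1, hR2, s, t, hst, hps, hpt⟩ := hVmem V hV
    obtain ⟨v, hv⟩ : ∃ v : ℕ, v = V.toNat := ⟨_, rfl⟩
    have hvV : (v : ℤ) = V := by rw [hv]; exact Int.toNat_of_nonneg hV0.le
    have hv0 : 1 ≤ v := by omega
    have hvH : v ≤ H := by omega
    have hρst := (hρ s t hst).1
    obtain ⟨d, hd⟩ : ∃ d : ℕ, d = ρ t - ρ s := ⟨_, rfl⟩
    have hd0 : 0 < d := by omega
    have hκd : κ * d ∣ L := by rw [hd]; exact hLd s t hst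
    have hκdB : κ * d ∣ Bn s := by rw [hd]; exact hBd s t hst
    have hκdz : κ * d ≤ z := by
      have := Nat.le_of_dvd hL0 hκd
      omega
    obtain ⟨x, hx⟩ : ∃ x : Fin K → ℕ, ∀ i, x i = L * (U0 + M * v) + Bn i := ⟨_, fun _ => rfl⟩
    have hxs : κ * d ∣ x s := by
      rw [hx]
      exact dvd_add (Dvd.dvd.mul_right hκd _) hκdB
    obtain ⟨n, hn⟩ := hxs
    have hxpos : ∀ i, 0 < x i := by
      intro i
      have := (hBs i).2
      rw [hx]
      omega
    have hn0 : 0 < n := by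
      have := hxpos s
      rw [hn] at this
      exact Nat.pos_of_mul_pos_left this |> fun _ => by
        rcases Nat.eq_zero_or_pos n with h0 | h0
        · rw [h0, mul_zero] at this; omega
        · exact h0
    have hxst : x s = x t + (κ - 1) * d := by
      rw [hx, hx, hBst s t hst, ← hd]
      ring
    -- prime values
    have hval : ∀ i, Prime (α i * V + β i) → ∃ p : ℕ, p.Prime ∧ z < p ∧
        x i = (h i).toNat * p := by
      intro i hp
      obtain ⟨m1, m2, m3, m4, m5⟩ := hmain i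
      refine val_prime ?_ (hxpos i) m3 (hMF.cop i) (hMF.small i) (hR1 i) hp
      rw [hx]
      push_cast
      rw [hvV]
      have : h i * (α i * V + β i) = h i * α i * V + h i * β i := by ring
      rw [this, ← m1, ← m2]
      ring
    obtain ⟨p, hp, hpz, hxp⟩ := hval s hps
    obtain ⟨p', hp', hpz', hxp'⟩ := hval t hpt
    have hbnd : ∀ i, (h i).toNat ≤ Cw ∧ cardFactors (h i).toNat = G := by
      intro i
      obtain ⟨m1, m2, m3, m4, m5⟩ := hmain i
      exact ⟨by omega, m5⟩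
    -- the two terms
    obtain ⟨a, ha⟩ : ∃ a : ℕ, a = 2 ^ j * (n - 1) + 1 := ⟨_, rfl⟩
    have hxa : x t = d * a := by
      rw [ha]
      exact two_terms hκ hκ0 hn0 hn hxst
    have hnd : ¬ p ∣ κ * d := by
      intro h1
      have := Nat.le_of_dvd (Nat.mul_pos hκ0 hd0) h1
      omega
    have hnd' : ¬ p' ∣ d := by
      intro h1
      have := Nat.le_of_dvd hd0 h1
      have h2 : d ≤ κ * d := Nat.le_mul_of_pos_left _ hκ0
      omega
    have ha0 : a ≠ 0 := by omega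
    obtain ⟨d1, e1, e2, e3, e4⟩ := extract (g := κ * d) (n := n) (h := (h s).toNat) (p := p)
      (by rw [← hn, hxp]) hp hnd hn0.ne' (Nat.mul_pos hκ0 hd0).ne'
    obtain ⟨d2, f1, f2, f3, f4⟩ := extract (g := d) (n := a) (h := (h t).toNat) (p := p')
      (by rw [← hxa, hxp']) hp' hnd' ha0 hd0.ne'
    rw [(hbnd s).2, ArithmeticFunction.cardFactors_mul hκ0.ne' hd0.ne', hκ,
      ArithmeticFunction.cardFactors_pow,
      ArithmeticFunction.cardFactors_apply_prime Nat.prime_two, mul_one] at e4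
    rw [(hbnd t).2] at f4
    have hΩ := (hρ s t hst).2.2
    rw [← hd] at hΩ
    have hsN : x s ≤ N :=
      size_le (hx s) (by rw [← (hBs s).1]; exact Nat.le_add_right _ _) hQ hv0 hvH hHN
    have hnN : n ≤ N := by
      have : n ≤ κ * d * n := Nat.le_mul_of_pos_left _ (Nat.mul_pos hκ0 hd0)
      omega
    refine ⟨n, s, t, hst, ?_, hn0, hnN, ⟨d1, p, e1, e2, ?_, hp⟩, ?_, ?_, ?_, ?_⟩
    · rw [← hd, ← hn, hx, ← hv]
    · have := (hbnd s).1
      omega
    · rw [← ha]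
      refine ⟨d2, p', f1, f2, ?_, hp'⟩
      have := (hbnd t).1
      omega
    · exact omega_mod e4 hGG hΩ
    · rw [← ha]
      omega
    · intro i hi
      obtain ⟨e, he⟩ : ∃ e, e = eq (s, t, ⟨i, hi⟩) := ⟨_, rfl⟩
      have hsym : eq.symm e = (s, t, ⟨i, hi⟩) := by rw [he, Equiv.symm_apply_apply]
      obtain ⟨g1, g2, g3, g4, g5, g6⟩ := hext e
      rw [hsym, hae] at g1
      rw [hsym, hae, hbe] at g2
      simp only [if_pos hst] at g1 g2
      rw [← hd] at g1 g2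
      obtain ⟨q1, hq1⟩ := hκd
      obtain ⟨q2, hq2⟩ := hκdB
      have hκd0 : 0 < κ * d := Nat.mul_pos hκ0 hd0
      have hL1 : L / (κ * d) = q1 := by rw [hq1]; exact Nat.mul_div_cancel_left _ hκd0
      have hL2 : Bn s / (κ * d) = q2 := by rw [hq2]; exact Nat.mul_div_cancel_left _ hκd0
      rw [hL1] at g1 g2
      rw [hL2] at g2
      have hnq : n = q1 * (U0 + M * v) + q2 := by
        have : κ * d * n = κ * d * (q1 * (U0 + M * v) + q2) := by
          rw [← hn, hx, hq2]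
          nth_rewrite 1 [hq1]
          ring
        exact Nat.eq_of_mul_eq_mul_left hκd0 this
      have hyZ := ext_eq hn0 hnq g1 g2
      rw [hvV] at hyZ
      exact ext_term hyZ (Nat.succ_pos _) g3 g4 g5 g6 (hR2 e) (le_trans (by norm_num) hz3)
        (y_lt hi hnN (le_trans (by norm_num) hN3) (hZk.trans hZz) (le_trans (by norm_num) hz3) hNz)
        hNz hBC
  choose nn ss tt g1 g2 g3 g4 g5 g6 g7 g8 g9 using hone
  refine ⟨Vs.attach.image (fun V => nn V.1 V.2), ?_, ?_⟩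
  · -- count
    have hcard : Vs.attach.card ≤ ((Vs.attach.image (fun V => nn V.1 V.2)) ×ˢ
        ((univ : Finset (Fin K)) ×ˢ (univ : Finset (Fin K)))).card := by
      apply Finset.card_le_card_of_injOn (fun V => (nn V.1 V.2, (ss V.1 V.2, tt V.1 V.2)))
      · intro V hV
        rw [Finset.mem_coe, mem_product, mem_product]
        exact ⟨mem_image_of_mem (fun V : {x // x ∈ Vs} => nn V.1 V.2) hV, mem_univ _, mem_univ _⟩
      · rintro ⟨V, hV⟩ _ ⟨V', hV'⟩ _ heq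
        simp only [Prod.mk.injEq] at heq
        obtain ⟨e1, e2, e3⟩ := heq
        have h1 := g2 V hV
        have h2 := g2 V' hV'
        rw [e1, e2, e3] at h1
        rw [h1] at h2
        have h3 : L * (U0 + M * V.toNat) = L * (U0 + M * V'.toNat) := by omega
        have h4 := Nat.eq_of_mul_eq_mul_left hL0 h3
        have h5 : M * V.toNat = M * V'.toNat := by omega
        have h6 := Nat.eq_of_mul_eq_mul_left hM0 h5
        have h7 := (hVmem V hV).1.1
        have h8 := (hVmem V' hV').1.1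
        rw [Subtype.mk.injEq]
        omega
    rw [card_attach] at hcard
    rw [card_product, card_product, card_univ, Fintype.card_fin] at hcard
    have hzN : z ≤ N := by
      have h1 : z ≤ z ^ B := Nat.le_self_pow (by omega) _
      have h2 : H ≤ Q * H := Nat.le_mul_of_pos_left _ hQ0
      exact h1.trans (hz1.trans (h2.trans hHN))
    exact count_real hδ hVlow hcount hcard hz3 hzN ((Nat.le_ceil _).trans (by exact_mod_cast hNexp0))
      hC1 hNH (le_trans (Nat.le_add_left _ _) hHZ) hCvC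
  · intro n hn
    obtain ⟨⟨V, hV⟩, -, rfl⟩ := Finset.mem_image.1 hn
    exact ⟨g3 V hV, g4 V hV, g5 V hV, g6 V hV, g7 V hV, g8 V hV, g9 V hV⟩

end Pool.Agent.Lib.MT2
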