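import Mathlib
import Pool.Agent.Lib.MT2.All2
import Pool.Agent.Lib.MT2.C40

/-!
MAYNARD-TAO ON ROUGH FORMS: (C) for MP_39b545_nt.
-/

set_option autoImplicit false

namespace Pool.Agent.Lib.MT2.All2c

open Pool.Agent.Lib.MT2

theorem c_all : CStmt := c_40 All2.mt_all Fix49.fix_49 ram_33 vvlow_39

end Pool.Agent.Lib.MT2.All2c
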