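import Mathlib
import Pool.Agent.Lib.MT2.Stmts2

/-!
MT2, module C, auxiliary lemmas.
-/

set_option autoImplicit false

namespace Pool.Agent.Lib.MT2

open Finset
open ArithmeticFunction (cardFactors)
open Pool.Agent.Lib.TwinAll (PP Rough om VV nu ee)

namespace T40

theorem pow_omega_le {z y : ℕ} (hy : y ≠ 0) (h : ∀ p : ℕ, p.Prime → p ∣ y → z ≤ p) :
    z ^ cardFactors y ≤ y := by
  rw [ArithmeticFunction.cardFactors_apply]
  calc z ^ y.primeFactorsList.length ≤ y.primeFactorsList.prod :=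
        List.pow_card_le_prod _ _ fun p hp =>
          h p (Nat.prime_of_mem_primeFactorsList hp) (Nat.dvd_of_mem_primeFactorsList hp)
    _ = y := Nat.prod_primeFactorsList hy

theorem omega_lt {z y E : ℕ} (hz : 2 ≤ z) (hy0 : y ≠ 0) (hy : y < z ^ E)
    (h : ∀ p : ℕ, p.Prime → p ∣ y → z ≤ p) : cardFactors y < E := by
  have h1 := lt_of_le_of_lt (pow_omega_le hy0 h) hy
  exact (Nat.pow_lt_pow_iff_right (by omega)).1 h1

theorem omega_le_self {y : ℕ} (hy : y ≠ 0) : cardFactors y ≤ y := by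
  have h1 := pow_omega_le (z := 2) hy (fun p hp _ => hp.two_le)
  have h2 : y < 2 ^ y := Nat.lt_two_pow_self
  have h3 := lt_of_le_of_lt h1 h2
  exact ((Nat.pow_lt_pow_iff_right (by norm_num)).1 h3).le

theorem extract {g n h p : ℕ} (he : g * n = h * p) (hp : p.Prime) (hg : ¬ p ∣ g) (hn : n ≠ 0)
    (hg0 : g ≠ 0) : ∃ d : ℕ, n = d * p ∧ 1 ≤ d ∧ d ≤ h ∧
      cardFactors g + cardFactors n = cardFactors h + 1 := by
  have hco : Nat.Coprime g p := ((Nat.Prime.coprime_iff_not_dvd hp).2 hg).symm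
  have h1 : g ∣ h := hco.dvd_of_dvd_mul_right (Dvd.intro _ he)
  obtain ⟨d, rfl⟩ := h1
  have h2 : n = d * p := by
    have : g * n = g * (d * p) := by rw [he]; ring
    exact Nat.eq_of_mul_eq_mul_left (Nat.pos_of_ne_zero hg0) this
  have hd0 : d ≠ 0 := by
    rintro rfl
    rw [zero_mul] at h2
    exact hn h2
  refine ⟨d, h2, Nat.pos_of_ne_zero hd0, Nat.le_mul_of_pos_left _ (Nat.pos_of_ne_zero hg0), ?_⟩
  rw [h2, ArithmeticFunction.cardFactors_mul hd0 hp.ne_zero,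
    ArithmeticFunction.cardFactors_mul hg0 hd0, ArithmeticFunction.cardFactors_apply_prime hp]
  ring

/-- prime factors of a rough value of an admissible form -/
theorem rough_prime {z0 z : ℕ} {a b V : ℤ} (hco : IsCoprime a b)
    (hs : ∀ q : ℕ, q.Prime → q ≤ z0 → (q : ℤ) ∣ a) (hr : Rough z0 z (a * V + b)) (p : ℕ)
    (hp : p.Prime) (hd : (p : ℤ) ∣ a * V + b) : z < p := by
  by_contra hcon
  push Not at hcon
  rcases le_or_gt p z0 with h | h
  · have h1 := hs p hp h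
    have h2 : (p : ℤ) ∣ b := by
      have := dvd_sub hd (Dvd.dvd.mul_right h1 V)
      simpa using this
    have h3 : IsUnit (p : ℤ) := hco.isUnit_of_dvd' h1 h2
    exact (Nat.prime_iff_prime_int.1 hp).not_isUnit h3
  · exact hr p (by
      unfold PP
      rw [mem_filter, mem_Ioc]
      exact ⟨⟨h, hcon⟩, hp⟩) hd

theorem exists_root (B H : ℕ) (hB : 1 ≤ B) (hH : 1 ≤ H) :
    ∃ z : ℕ, z ^ B ≤ H ∧ H < (z + 1) ^ B := by
  classical
  refine ⟨Nat.findGreatest (fun z => z ^ B ≤ H) H, ?_, ?_⟩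
  · exact Nat.findGreatest_spec (P := fun z => z ^ B ≤ H) (m := 0) (Nat.zero_le _) (by
      show 0 ^ B ≤ H
      rw [zero_pow (by omega)]; omega)
  · by_contra hcon
    push Not at hcon
    have h1 : Nat.findGreatest (fun z => z ^ B ≤ H) H + 1 ≤ H :=
      le_trans (Nat.le_self_pow (by omega) _) hcon
    exact Nat.findGreatest_is_greatest (Nat.lt_succ_self _) h1 hcon
/-- a main form with a prime value -/
theorem val_prime {w z x : ℕ} {h α β V : ℤ} (e1 : ((x : ℕ) : ℤ) = h * (α * V + β)) (hx : 0 < x)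
    (hh : 0 < h) (hco : IsCoprime α β) (hs : ∀ q : ℕ, q.Prime → q ≤ w → (q : ℤ) ∣ α)
    (hr : Rough w z (α * V + β)) (hp : Prime (α * V + β)) :
    ∃ p : ℕ, p.Prime ∧ z < p ∧ x = h.toNat * p := by
  have hpos : 0 < α * V + β := by
    have h1 : (0 : ℤ) < h * (α * V + β) := by
      rw [← e1]
      exact_mod_cast hx
    exact (pos_iff_pos_of_mul_pos h1).1 hh
  have hp' : ((α * V + β).toNat).Prime := by
    rw [Nat.prime_iff_prime_int, Int.toNat_of_nonneg hpos.le]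
    exact hp
  refine ⟨(α * V + β).toNat, hp', ?_, ?_⟩
  · apply rough_prime hco hs hr _ hp'
    rw [Int.toNat_of_nonneg hpos.le]
  · have h1 : ((x : ℕ) : ℤ) = ((h.toNat * (α * V + β).toNat : ℕ) : ℤ) := by
      rw [Nat.cast_mul, Int.toNat_of_nonneg hh.le, Int.toNat_of_nonneg hpos.le]
      exact e1
    exact_mod_cast h1

/-- an extra form gives an almost prime -/
theorem ext_term {w z y N B C Cw : ℕ} {h a b V : ℤ} (e : ((y : ℕ) : ℤ) = h * (a * V + b))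
    (hy : 0 < y) (hh : 0 < h) (hC : h ≤ Cw) (hco : IsCoprime a b)
    (hs : ∀ q : ℕ, q.Prime → q ≤ w → (q : ℤ) ∣ a) (hr : Rough w z (a * V + b)) (hz : 2 ≤ z)
    (hyz : y < z ^ (B + 4)) (hNz : N ≤ z ^ (B + 2)) (hBC : B + 10 + Cw ≤ C) :
    AlmostPrime C N y := by
  have hpos : 0 < a * V + b := by
    have h1 : (0 : ℤ) < h * (a * V + b) := by
      rw [← e]
      exact_mod_cast hy
    exact (pos_iff_pos_of_mul_pos h1).1 hh
  obtain ⟨u, hu⟩ : ∃ u : ℕ, u = (a * V + b).toNat := ⟨_, rfl⟩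
  have huZ : (u : ℤ) = a * V + b := by rw [hu]; exact Int.toNat_of_nonneg hpos.le
  obtain ⟨g, hg⟩ : ∃ g : ℕ, g = h.toNat := ⟨_, rfl⟩
  have hgZ : (g : ℤ) = h := by rw [hg]; exact Int.toNat_of_nonneg hh.le
  have hgC : g ≤ Cw := by omega
  have hygu : y = g * u := by
    have : ((y : ℕ) : ℤ) = ((g * u : ℕ) : ℤ) := by
      push_cast
      rw [hgZ, huZ]
      exact e
    exact_mod_cast this
  have hu0 : u ≠ 0 := by
    rintro rfl
    rw [mul_zero] at hygu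
    omega
  have hg0 : g ≠ 0 := by
    rintro rfl
    rw [zero_mul] at hygu
    omega
  have hup : ∀ p : ℕ, p.Prime → p ∣ u → z < p := by
    intro p hp hd
    apply rough_prime hco hs hr p hp
    rw [← huZ]
    exact_mod_cast hd
  have huz : u < z ^ (B + 4) := by
    have h1 : u ≤ y := by rw [hygu]; exact Nat.le_mul_of_pos_left _ (Nat.pos_of_ne_zero hg0)
    exact lt_of_le_of_lt h1 hyz
  constructor
  · rw [hygu, ArithmeticFunction.cardFactors_mul hg0 hu0]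
    have h1 := omega_le_self hg0
    have h2 := omega_lt hz hu0 huz (fun p hp hd => (hup p hp hd).le)
    omega
  · intro p hp hd
    rw [hygu] at hd
    rcases (Nat.Prime.dvd_mul hp).1 hd with h1 | h1
    · left
      have := Nat.le_of_dvd (Nat.pos_of_ne_zero hg0) h1
      omega
    · right
      have h2 := hup p hp h1
      calc N ≤ z ^ (B + 2) := hNz
        _ ≤ p ^ (B + 2) := Nat.pow_le_pow_left h2.le _
        _ ≤ p ^ C := Nat.pow_le_pow_right hp.pos (by omega)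

theorem ext_eq {i n q1 q2 U0 M v : ℕ} {h a b : ℤ} (hn0 : 0 < n) (hnq : n = q1 * (U0 + M * v) + q2)
    (g1 : (2 : ℤ) ^ i * (q1 : ℤ) * M = h * a)
    (g2 : (2 : ℤ) ^ i * (q1 : ℤ) * U0 + (2 ^ i * ((q2 : ℤ) - 1) + 1) = h * b) :
    ((2 ^ i * (n - 1) + 1 : ℕ) : ℤ) = h * (a * (v : ℤ) + b) := by
  have h1 : ((2 ^ i * (n - 1) + 1 : ℕ) : ℤ) = 2 ^ i * ((n : ℤ) - 1) + 1 := by
    push_cast [Nat.cast_sub hn0]
    ring
  have h2 : h * (a * (v : ℤ) + b) = h * a * v + h * b := by ring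
  rw [h1, h2, ← g1, ← g2, hnq]
  push_cast
  ring

theorem two_terms {κ d n xs xt j : ℕ} (hκ : κ = 2 ^ j) (hκ0 : 0 < κ) (hn0 : 0 < n)
    (hn : xs = κ * d * n) (h : xs = xt + (κ - 1) * d) : xt = d * (2 ^ j * (n - 1) + 1) := by
  obtain ⟨n', rfl⟩ : ∃ n', n = n' + 1 := ⟨n - 1, by omega⟩
  obtain ⟨κ', rfl⟩ : ∃ κ', κ = κ' + 1 := ⟨κ - 1, by omega⟩
  rw [← hκ]
  have h1 : xt + (κ' + 1 - 1) * d = (κ' + 1) * d * (n' + 1) := by rw [← h, hn]
  have h2 : κ' + 1 - 1 = κ' := by omega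
  have h3 : n' + 1 - 1 = n' := by omega
  rw [h2] at h1
  rw [h3]
  have h4 : (κ' + 1) * d * (n' + 1) = d * ((κ' + 1) * n' + 1) + κ' * d := by ring
  omega

theorem omega_mod {j D n G r c m G0 : ℕ} (e4 : j + D + n = G + 1)
    (hGG : G + 1 = r + j + c + m * (G0 + 1)) (hΩ : D ≡ c [MOD m]) : n ≡ r [MOD m] := by
  have h1 : j + D + n ≡ j + D + r [MOD m] := by
    rw [e4, hGG]
    have h2 : r + j + c + m * (G0 + 1) ≡ r + j + c [MOD m] := by
      have : r + j + c + m * (G0 + 1) ≡ r + j + c + 0 [MOD m] :=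
        Nat.ModEq.add_left _ ((Nat.modEq_zero_iff_dvd).2 (Dvd.intro _ rfl))
      rwa [add_zero] at this
    refine h2.trans ?_
    have h3 : r + j + c ≡ r + j + D [MOD m] := Nat.ModEq.add_left _ hΩ.symm
    refine h3.trans ?_
    have : r + j + D = j + D + r := by ring
    rw [this]
  exact Nat.ModEq.add_left_cancel' _ h1

theorem size_le {L T U0 M v Q H N Bn x : ℕ} (hx : x = L * (U0 + M * v) + Bn) (hB : Bn ≤ L * T)
    (hQ : Q = L * (M + U0 + T)) (hv0 : 1 ≤ v) (hvH : v ≤ H) (hHN : Q * H ≤ N) : x ≤ N := by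
  rw [hx]
  have h2 : L * (U0 + M * v) + L * T ≤ Q * v := by
    rw [hQ]
    have : U0 + M * v + T ≤ (M + U0 + T) * v := by
      have i1 : U0 ≤ U0 * v := Nat.le_mul_of_pos_right _ hv0
      have i2 : T ≤ T * v := Nat.le_mul_of_pos_right _ hv0
      have i3 : (M + U0 + T) * v = M * v + U0 * v + T * v := by ring
      omega
    calc L * (U0 + M * v) + L * T = L * (U0 + M * v + T) := by ring
      _ ≤ L * ((M + U0 + T) * v) := Nat.mul_le_mul_left _ this
      _ = _ := by ring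
  have h3 : Q * v ≤ Q * H := Nat.mul_le_mul_left _ hvH
  omega

theorem y_lt {k i n N z B : ℕ} (hi : i < k) (hnN : n ≤ N) (hN : 1 ≤ N) (hZk : 2 ^ k ≤ z)
    (hz : 2 ≤ z) (hNz : N ≤ z ^ (B + 2)) : 2 ^ i * (n - 1) + 1 < z ^ (B + 4) := by
  have hyN : 2 ^ i * (n - 1) + 1 ≤ 2 ^ k * N := by
    have h1 : 2 ^ i ≤ 2 ^ k := Nat.pow_le_pow_right (by norm_num) hi.le
    have h2 : 2 ^ i * (n - 1) ≤ 2 ^ k * (N - 1) := Nat.mul_le_mul h1 (by omega)
    have h3 : 2 ^ k * (N - 1) + 2 ^ k * 1 = 2 ^ k * N := by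
      rw [← Nat.mul_add]; congr 1; omega
    have h4 : 1 ≤ 2 ^ k := Nat.one_le_two_pow
    omega
  have h2 : 2 ^ k * N ≤ z * z ^ (B + 2) := Nat.mul_le_mul hZk hNz
  have h3 : z * z ^ (B + 2) = z ^ (B + 3) := by ring
  have h4 : z ^ (B + 3) < z ^ (B + 4) := Nat.pow_lt_pow_right (by omega) (by omega)
  omega

theorem N_le_pow {Q H B z N : ℕ} (hH1 : 1 ≤ H) (hNH : N < Q * (H + 1)) (hZQ : 2 * Q ≤ z)
    (hHz : H ≤ z ^ (B + 1)) : N ≤ z ^ (B + 2) := by
  have h1 : Q * (H + 1) ≤ (2 * Q) * H := by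
    have : Q * 1 ≤ Q * H := Nat.mul_le_mul_left _ hH1
    calc Q * (H + 1) = Q * H + Q * 1 := by ring
      _ ≤ Q * H + Q * H := by omega
      _ = _ := by ring
  have h2 : (2 * Q) * H ≤ z * z ^ (B + 1) := Nat.mul_le_mul hZQ hHz
  have h3 : z * z ^ (B + 1) = z ^ (B + 2) := by ring
  omega

theorem H_le_pow {H B z : ℕ} (hz1 : 1 ≤ z) (h : H < (z + 1) ^ B) (hZB : 2 ^ B ≤ z) :
    H ≤ z ^ (B + 1) := by
  have h1 : (z + 1) ^ B ≤ (2 * z) ^ B := Nat.pow_le_pow_left (by omega) _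
  have h2 : (2 * z) ^ B ≤ z ^ (B + 1) := by
    rw [mul_pow, pow_succ, mul_comm]
    exact Nat.mul_le_mul_left _ hZB
  omega

/-- the final inequality -/
theorem count_real {N K Q H A z Cv C1 C Vc : ℕ} {δ W : ℝ} (hδ : 0 < δ)
    (hV : 1 / Real.log z ^ Cv ≤ W) (hcount : δ * W * H ≤ (Vc : ℝ)) (hcard : Vc ≤ A * (K * K))
    (hz : 3 ≤ z) (hzN : z ≤ N) (hNexp : Real.exp C1 ≤ N)
    (hC1 : 2 * Q * ((K : ℝ) ^ 2 + 1) / δ ≤ (C1 : ℝ)) (hNH : N < Q * (H + 1))
    (hH : 1 ≤ H) (hCvC : Cv + 1 ≤ C) : (N : ℝ) / (Real.log N) ^ C ≤ (A : ℝ) := by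
  have hlogz : 0 < Real.log z := Real.log_pos (by exact_mod_cast (by omega : 1 < z))
  have hzN' : Real.log z ≤ Real.log N :=
    Real.log_le_log (by exact_mod_cast (by omega : 0 < z)) (by exact_mod_cast hzN)
  have hlogN : (C1 : ℝ) ≤ Real.log N := by
    rw [← Real.log_exp C1]
    exact Real.log_le_log (Real.exp_pos _) hNexp
  have hlogN1 : 1 ≤ Real.log N := by
    have h1 : (3 : ℝ) ≤ N := by exact_mod_cast (by omega : 3 ≤ N)
    rw [Real.le_log_iff_exp_le (by linarith)]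
    have := Real.exp_one_lt_d9
    linarith
  have hH2 : (N : ℝ) ≤ 2 * Q * H := by
    have : N ≤ 2 * Q * H := by
      have h1 : Q * 1 ≤ Q * H := Nat.mul_le_mul_left _ hH
      have h2 : Q * (H + 1) = Q * H + Q * 1 := by ring
      have h3 : 2 * Q * H = Q * H + Q * H := by ring
      omega
    exact_mod_cast this
  have hH0 : (0 : ℝ) ≤ H := Nat.cast_nonneg _
  have hA0 : (0 : ℝ) ≤ A := Nat.cast_nonneg _
  have hQ0' : (0 : ℝ) ≤ Q := Nat.cast_nonneg _
  have hlN : 0 < Real.log N := by linarith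
  have hc1 : δ * (1 / Real.log z ^ Cv) * H ≤ (A : ℝ) * ((K : ℝ) ^ 2 + 1) := by
    calc δ * (1 / Real.log z ^ Cv) * H ≤ δ * W * H :=
          mul_le_mul_of_nonneg_right (mul_le_mul_of_nonneg_left hV hδ.le) hH0
      _ ≤ ((Vc : ℕ) : ℝ) := hcount
      _ ≤ ((A * (K * K) : ℕ) : ℝ) := by exact_mod_cast hcard
      _ = (A : ℝ) * (K : ℝ) ^ 2 := by push_cast; ring
      _ ≤ _ := mul_le_mul_of_nonneg_left (by linarith) hA0
  have hc2 : δ * (1 / Real.log N ^ Cv) * H ≤ (A : ℝ) * ((K : ℝ) ^ 2 + 1) := by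
    refine le_trans ?_ hc1
    apply mul_le_mul_of_nonneg_right _ hH0
    apply mul_le_mul_of_nonneg_left _ hδ.le
    exact one_div_le_one_div_of_le (pow_pos hlogz _) (pow_le_pow_left₀ hlogz.le hzN' _)
  have hp : 0 < Real.log N ^ Cv := pow_pos hlN _
  have hc3 : (N : ℝ) * δ ≤ (A : ℝ) * (2 * Q * ((K : ℝ) ^ 2 + 1)) * Real.log N ^ Cv := by
    have h1 : δ * H ≤ (A : ℝ) * ((K : ℝ) ^ 2 + 1) * Real.log N ^ Cv := by
      have h2 := mul_le_mul_of_nonneg_right hc2 hp.le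
      have h3 : δ * (1 / Real.log N ^ Cv) * H * Real.log N ^ Cv = δ * H := by
        field_simp
      rw [h3] at h2
      exact h2
    calc (N : ℝ) * δ ≤ 2 * Q * H * δ := mul_le_mul_of_nonneg_right hH2 hδ.le
      _ = 2 * Q * (δ * H) := by ring
      _ ≤ 2 * Q * ((A : ℝ) * ((K : ℝ) ^ 2 + 1) * Real.log N ^ Cv) :=
          mul_le_mul_of_nonneg_left h1 (by linarith)
      _ = _ := by ring
  have hc4 : (N : ℝ) ≤ (A : ℝ) * Real.log N ^ (Cv + 1) := by
    have h1 : 2 * Q * ((K : ℝ) ^ 2 + 1) ≤ δ * Real.log N := by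
      have h2 := hC1.trans hlogN
      rw [div_le_iff₀ hδ] at h2
      linarith [mul_comm δ (Real.log N)]
    have h3 : (N : ℝ) * δ ≤ (A : ℝ) * (δ * Real.log N) * Real.log N ^ Cv :=
      hc3.trans (mul_le_mul_of_nonneg_right (mul_le_mul_of_nonneg_left h1 hA0) hp.le)
    have h4 : (N : ℝ) * δ ≤ ((A : ℝ) * Real.log N ^ (Cv + 1)) * δ := by
      refine h3.trans (le_of_eq ?_)
      rw [pow_succ]
      ring
    exact le_of_mul_le_mul_right h4 hδ
  rw [div_le_iff₀ (pow_pos hlN _)]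
  exact hc4.trans (mul_le_mul_of_nonneg_left (pow_le_pow_right₀ hlogN1 hCvC) hA0)

end T40

end Pool.Agent.Lib.MT2
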