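import Mathlib
import Pool.Agent.Lib.MT2.Stmts2
import Pool.Agent.Lib.MT2.StmtsE

/-!
THEOREM (D) (MP_c6d112_nt): almost all `n` are `a + b` with `a`, `a + 2`, `b` bounded multiples of
primes and `b + 2` almost prime. Statements of the modules (text: c6d112_D_82.md).
-/

set_option autoImplicit false

namespace Pool.Agent.Lib.MT2

open Finset
open Pool.Agent.Lib.TwinAll (PP Rough om VV nu ee)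

/-- base form `a0 U + b0`: bounded, coprime, the primes dividing `a0` are exactly the primes
`≤ z0` -/
structure BF (C0 z0 : ℕ) (a0 b0 : ℤ) : Prop where
  pos : 0 < a0
  bd : a0 ≤ C0 ∧ |b0| ≤ C0
  cop : IsCoprime a0 b0
  small : ∀ q : ℕ, q.Prime → q ≤ z0 → (q : ℤ) ∣ a0
  large : ∀ q : ℕ, q.Prime → (q : ℤ) ∣ a0 → q ≤ z0

/-- the weighted majorant `nu w / wmean` -/
noncomputable def nuw {k K : ℕ} (z0 z R : ℕ) (a b : Fin k → ℤ) (c : Cond K → ℝ)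
    (α β : Fin K → ℤ) (n : ℤ) : ℝ :=
  nu z0 z a b n * wt z R c α β n / wmean z R c

open Classical in
/-- normalised indicator function of the primes `a0 y + b0` for which the forms `a_j y + d_j` are
rough, on `(0, H]` -/
noncomputable def gg {k : ℕ} (z0 z H : ℕ) (a0 b0 : ℤ) (a d : Fin k → ℤ) (y : ℤ) : ℝ :=
  if Prime (a0 * y + b0) then
    ((a0.toNat.totient : ℝ) / a0 * Real.log H) * nuJ z0 z a0 b0 a d y else 0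

/-! ### Correlations with rate -/

/-- S3w: pair correlations of the weighted majorant (from EV2, VV-ratios as in S3x49). -/
def S3wStmt : Prop :=
  ∀ k K : ℕ, ∃ s0 : ℕ, ∀ t : ℕ, ∃ zs : ℕ, ∀ z0 : ℕ, zs ≤ z0 → ∀ (b B C0 : ℕ) (C1 : ℝ),
    ∃ z1 : ℕ, ∀ z : ℕ, z1 ≤ z → ∀ R X : ℕ, R ≤ z ^ b → X ≤ z ^ b →
    ∀ A B' : Fin k → ℤ, (∀ j, |A j| ≤ (z : ℤ) ^ B ∧ |B' j| ≤ (z : ℤ) ^ B ∧
      ∀ q ∈ PP z0 z, ¬ ((q : ℤ) ∣ A j)) →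
    ∀ α β : Fin K → ℤ, MF C0 z0 α β → ∀ c : Cond K → ℝ, Wt C1 X Finset.univ c →
    1 / 2 ≤ wmean z R c → ∀ (u : ℤ) (H : ℕ), 0 ≤ u → u ≤ (z : ℤ) ^ B →
    X ^ 2 * z ^ (s0 * (t + 1)) ≤ H → H ≤ z ^ B →
      ∑ τ ∈ Finset.Ioo (-(H : ℤ)) H,
        (∑ n ∈ (Finset.Ioc u (u + H)).filter (fun n => n + τ ∈ Finset.Ioc u (u + H)),
          (nuw z0 z R A B' c α β n - 1) * (nuw z0 z R A B' c α β (n + τ) - 1)) ^ 2 ≤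
      (1 / 2) ^ t * (wnorm z R c + 1) ^ 8 * (H : ℝ) ^ 3

/-- S4r: S4 with rate (from S3w with `K = 0`, weight 1, and Cauchy-Schwarz as in S4x69). -/
def S4rStmt : Prop :=
  ∀ k : ℕ, ∃ s0 : ℕ, ∀ t : ℕ, ∃ zs : ℕ, ∀ z0 : ℕ, zs ≤ z0 → ∀ B : ℕ, ∃ z1 : ℕ, ∀ z : ℕ, z1 ≤ z →
    ∀ a b : Fin k → ℤ, (∀ j, |a j| ≤ (z : ℤ) ^ B ∧ |b j| ≤ (z : ℤ) ^ B ∧
      ∀ q ∈ PP z0 z, ¬ ((q : ℤ) ∣ a j)) →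
    ∀ (u : ℤ) (H : ℕ), |u| ≤ (z : ℤ) ^ B → z ^ (s0 * (t + 1)) ≤ H → H ≤ z ^ B → ∀ θ : ℝ,
      ‖∑ n ∈ Finset.Ioc u (u + H), ((nu z0 z a b n - 1 : ℝ) : ℂ) * ee (θ * n)‖ ≤ (1 / 2) ^ t * H

/-! ### Sums over primes -/

open Classical in
/-- TRG: the skeleton of TRANS for an arbitrary function `Φ` (Ramaré identity, dyadic blocks,
classes, Cauchy-Schwarz). -/
def TRGStmt : Prop :=
  ∃ Cg sg zs : ℕ, ∀ (E s5 B C0 z0 : ℕ), sg ≤ B → E + 2 ≤ s5 → 4 * s5 ≤ B → zs ≤ z0 → ∃ z1 : ℕ,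
    ∀ z : ℕ, z1 ≤ z → ∀ a0 b0 : ℤ, BF C0 z0 a0 b0 → ∀ H : ℕ, z ^ B ≤ H → H ≤ z ^ (B + 1) →
    ∀ (Φ : ℤ → ℂ) (Δ Δ' : ℝ), 0 ≤ Δ → 0 ≤ Δ' → (∀ U ∈ Ioc (0 : ℤ) H, ‖Φ U‖ ≤ (z : ℝ) ^ E) →
    (∀ Y M : ℕ, z ^ s5 ≤ Y → Y * M ≤ z ^ (B + 2) → z ^ B ≤ 4 * M ^ 2 → Y ≤ 4 * M →
      a0 * H ≤ 4 * (Y * M : ℕ) → ∀ (cl m0 n0 n1 : ℤ), a0 ∣ cl * m0 - b0 → 2 * C0 < n0 →
      n1 ≤ a0 * H + b0 →
      ∑ m ∈ (Ioc (0 : ℤ) M).filter (fun m => a0 ∣ m - m0), nu z0 z (![1] : Fin 1 → ℤ) ![0] m *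
        ‖∑ p ∈ (PP Y (2 * Y)).filter (fun p : ℕ => a0 ∣ (p : ℤ) - cl ∧ n0 < p * m ∧ p * m ≤ n1),
          Φ (((p : ℤ) * m - b0) / a0)‖ ^ 2 ≤ Δ * (V1 z0 z * Y / a0) ^ 2 * (M / a0 : ℝ)) →
    (‖∑ U ∈ (Ioc (0 : ℤ) H).filter (fun U => Rough z0 (z ^ s5) (a0 * U + b0)), Φ U‖ ≤
      Δ' * (V1 z0 z * H)) →
      ‖∑ U ∈ (Ioc (0 : ℤ) H).filter (fun U => Prime (a0 * U + b0)), Φ U‖ ≤
        (Cg * (B + 1) * Real.sqrt Δ + Δ' + 1 / z) * (V1 z0 z * H)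

open Classical in
/-- DISPP: the dispersion with weight 1 and a phase (pairs of primes by S4r and S5k). -/
def DISPPStmt : Prop :=
  ∀ k : ℕ, ∃ s0 s5 : ℕ, ∀ t : ℕ, ∃ zs : ℕ, ∀ z0 : ℕ, zs ≤ z0 → ∀ B C0 : ℕ, ∃ z1 : ℕ,
    ∀ z : ℕ, z1 ≤ z → ∀ (a0 b0 : ℤ) (a d : Fin k → ℤ), BF C0 z0 a0 b0 → SF C0 z0 a →
    (∀ j, |d j| ≤ C0) → ∀ Y M : ℕ, z ^ s5 ≤ Y → Y * M ≤ z ^ B → z ^ (s0 * (t + 1)) ≤ M →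
    ∀ (cl m0 n0 n1 : ℤ), a0 ∣ cl * m0 - b0 → 2 * C0 < n0 → ∀ θ : ℝ,
      ∑ m ∈ (Ioc (0 : ℤ) M).filter (fun m => a0 ∣ m - m0), nu z0 z (![1] : Fin 1 → ℤ) ![0] m *
        ‖∑ p ∈ (PP Y (2 * Y)).filter (fun p : ℕ => a0 ∣ (p : ℤ) - cl ∧ n0 < p * m ∧ p * m ≤ n1),
          ((nuJ z0 z a0 b0 a d (((p : ℤ) * m - b0) / a0) - 1 : ℝ) : ℂ) *
            ee (θ * ((((p : ℤ) * m - b0) / a0 : ℤ) : ℝ))‖ ^ 2 ≤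
      (1 / 2) ^ t * (V1 z0 z * Y / a0) ^ 2 * (M / a0 : ℝ)

open Classical in
/-- MIXP: MIX with weight 1 and a phase (S1r weights for the primes in `(z, z ^ s5]`, S4r in the
classes). -/
def MIXPStmt : Prop :=
  ∀ k s5 : ℕ, 1 ≤ s5 → ∃ s0 : ℕ, ∀ t : ℕ, ∃ zs : ℕ, ∀ z0 : ℕ, zs ≤ z0 → ∀ B C0 : ℕ, ∃ z1 : ℕ,
    ∀ z : ℕ, z1 ≤ z → ∀ (a0 b0 : ℤ) (a d : Fin k → ℤ), BF C0 z0 a0 b0 → SF C0 z0 a →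
    (∀ j, |d j| ≤ C0) → ∀ H : ℕ, z ^ (s0 * (t + 1)) ≤ H → H ≤ z ^ B → ∀ θ : ℝ,
      ‖∑ U ∈ (Ioc (0 : ℤ) H).filter (fun U => Rough z0 (z ^ s5) (a0 * U + b0)),
        ((nuJ z0 z a0 b0 a d U - 1 : ℝ) : ℂ) * ee (θ * U)‖ ≤ (1 / 2) ^ t * (V1 z0 z * H)

open Classical in
/-- TRANSP: from TRG, DISPP, MIXP. -/
def TRANSPStmt : Prop :=
  ∀ k : ℕ, ∃ s0 : ℕ, ∀ t : ℕ, ∃ zs : ℕ, ∀ z0 : ℕ, zs ≤ z0 → ∀ B C0 : ℕ, s0 * (t + 1) ≤ B →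
    ∃ z1 : ℕ, ∀ z : ℕ, z1 ≤ z → ∀ (a0 b0 : ℤ) (a d : Fin k → ℤ), BF C0 z0 a0 b0 → SF C0 z0 a →
    (∀ j, |d j| ≤ C0) → ∀ H : ℕ, z ^ B ≤ H → H ≤ z ^ (B + 1) → ∀ θ : ℝ,
      ‖∑ U ∈ (Ioc (0 : ℤ) H).filter (fun U => Prime (a0 * U + b0)),
        ((nuJ z0 z a0 b0 a d U - 1 : ℝ) : ℂ) * ee (θ * U)‖ ≤
      (1 / 2) ^ t * (B + 1) * (V1 z0 z * H)

open Classical in
/-- MINB: the bilinear sum on the minor arcs (pairs of primes: `major_of_many` and `pair_count` of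
L3a88, L3b88 in the classes modulo `a0`); `L`, `T` depend only on `t`. -/
def MINBStmt : Prop :=
  ∃ s0 s5 : ℕ, ∀ t : ℕ, ∃ L T zs : ℕ, 1 ≤ L ∧ ∀ z0 : ℕ, zs ≤ z0 → ∀ B C0 : ℕ, ∃ z1 : ℕ,
    ∀ z : ℕ, z1 ≤ z → ∀ a0 b0 : ℤ, BF C0 z0 a0 b0 → ∀ Y M : ℕ, z ^ s5 ≤ Y → Y * M ≤ z ^ B →
    Y ≤ 4 * M → z ^ (s0 * (t + 1)) ≤ M → ∀ (cl m0 n0 n1 : ℤ), a0 ∣ cl * m0 - b0 → 2 * C0 < n0 →
    ∀ θ : ℝ, (∃ q : ℕ, 1 ≤ q ∧ q ≤ L ∧ ∃ a : ℤ, |θ * a0 - (a : ℝ) / q| ≤ T * (a0 : ℝ) ^ 2 / (Y * M)) ∨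
      ∑ m ∈ (Ioc (0 : ℤ) M).filter (fun m => a0 ∣ m - m0), nu z0 z (![1] : Fin 1 → ℤ) ![0] m *
        ‖∑ p ∈ (PP Y (2 * Y)).filter (fun p : ℕ => a0 ∣ (p : ℤ) - cl ∧ n0 < p * m ∧ p * m ≤ n1),
          ee (θ * ((((p : ℤ) * m - b0) / a0 : ℤ) : ℝ))‖ ^ 2 ≤
      (1 / 2) ^ t * (V1 z0 z * Y / a0) ^ 2 * (M / a0 : ℝ)

open Classical in
/-- MINP: primes in a progression on the minor arcs, from TRG, MINB, S4r (rough part). -/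
def MINPStmt : Prop :=
  ∃ s0 : ℕ, ∀ t : ℕ, ∃ L T zs : ℕ, 1 ≤ L ∧ ∀ z0 : ℕ, zs ≤ z0 → ∀ B C0 : ℕ, s0 * (t + 1) ≤ B →
    ∃ z1 : ℕ, ∀ z : ℕ, z1 ≤ z → ∀ a0 b0 : ℤ, BF C0 z0 a0 b0 → ∀ H : ℕ, z ^ B ≤ H →
    H ≤ z ^ (B + 1) → ∀ θ : ℝ,
      (∃ q : ℕ, 1 ≤ q ∧ q ≤ L ∧ ∃ a : ℤ, |θ * a0 - (a : ℝ) / q| ≤ T * (a0 : ℝ) / H) ∨
      ‖∑ U ∈ (Ioc (0 : ℤ) H).filter (fun U => Prime (a0 * U + b0)), ee (θ * U)‖ ≤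
        (1 / 2) ^ t * (B + 1) * (V1 z0 z * H)

open Classical in
/-- MAJP: primes in a progression on the major arcs (W2). -/
def MAJPStmt : Prop :=
  ∀ (z0 C0 L T : ℕ) (ε : ℝ), 0 < ε → L ≤ z0 → 2 ≤ z0 → ∃ H1 : ℕ, ∀ H : ℕ, H1 ≤ H → ∀ a0 b0 : ℤ,
    BF C0 z0 a0 b0 → ∀ θ : ℝ,
    (∃ q : ℕ, 1 ≤ q ∧ q ≤ L ∧ ∃ a : ℤ, |θ * a0 - (a : ℝ) / q| ≤ T * (a0 : ℝ) / H) →
      ‖∑ U ∈ Ioc (0 : ℤ) H, (((if Prime (a0 * U + b0) then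
        (a0.toNat.totient : ℝ) / a0 * Real.log H else 0) - 1 : ℝ) : ℂ) * ee (θ * U)‖ ≤ ε * H

/-- UNI: Fourier uniformity of `gg`. -/
def UNIStmt : Prop :=
  ∀ (k B1 : ℕ) (η : ℝ), 0 < η → ∃ Bg zs : ℕ, B1 ≤ Bg ∧ ∀ z0 : ℕ, zs ≤ z0 → ∀ C0 : ℕ, ∃ z1 : ℕ,
    ∀ z : ℕ, z1 ≤ z → ∀ (a0 b0 : ℤ) (a d : Fin k → ℤ), BF C0 z0 a0 b0 → SF C0 z0 a →
    (∀ j, |d j| ≤ C0) → ∀ H : ℕ, z ^ Bg ≤ H → H ≤ z ^ (Bg + 1) → ∀ θ : ℝ,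
      ‖∑ y ∈ Ioc (0 : ℤ) H, ((gg z0 z H a0 b0 a d y - 1 : ℝ) : ℂ) * ee (θ * y)‖ ≤ η * H

/-- GB: bounds for `gg` and the fourth moment of the correlations of `gg - 1`
(MERT, VVA, S3Stmt second part, S2r). -/
def GBStmt : Prop :=
  ∀ k : ℕ, ∃ s zs : ℕ, ∀ z0 : ℕ, zs ≤ z0 → ∀ B C0 : ℕ, s ≤ B → ∃ z1 : ℕ, ∀ z : ℕ, z1 ≤ z →
    ∀ (a0 b0 : ℤ) (a d : Fin k → ℤ), BF C0 z0 a0 b0 → SF C0 z0 a → (∀ j, |d j| ≤ C0) →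
    ∀ H : ℕ, z ^ B ≤ H → H ≤ z ^ (B + 1) →
      (∀ y ∈ Ioc (0 : ℤ) H, 0 ≤ gg z0 z H a0 b0 a d y ∧
        gg z0 z H a0 b0 a d y ≤
          (B + 1) / VV z0 z (Fin.cons a0 a : Fin (k + 1) → ℤ) (Fin.cons b0 d) ∧
        (z + C0 < y → gg z0 z H a0 b0 a d y ≤
          (B + 1) * nu z0 z (Fin.cons a0 a : Fin (k + 1) → ℤ) (Fin.cons b0 d) y)) ∧
      ∑ τ ∈ Finset.Ioo (-(H : ℤ)) H,
        (∑ y ∈ (Finset.Ioc (0 : ℤ) H).filter (fun y => y + τ ∈ Finset.Ioc (0 : ℤ) H),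
          (gg z0 z H a0 b0 a d y - 1) * (gg z0 z H a0 b0 a d (y + τ) - 1)) ^ 4 ≤
        10000 * ((B : ℝ) + 1) ^ 8 * (H : ℝ) ^ 5

/-! ### Transference -/

/-- VN: relative von Neumann inequality on the integers (from H1 on `ZMod p`, `p > 4 X` prime,
kernel 1, `ν` continued by 1). -/
def VNStmt : Prop :=
  ∀ (X H1 : ℕ) (f ν u : ℤ → ℝ) (w : ℤ → ℝ) (η A D : ℝ), 1 ≤ H1 → H1 ≤ X →
    0 ≤ η → 0 ≤ A → 0 ≤ D →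
    (∀ n ∈ Ioc (0 : ℤ) H1, 0 ≤ f n ∧ f n ≤ ν n) → ∑ n ∈ Ioc (0 : ℤ) H1, ν n ≤ 2 * X →
    (∀ n, |w n| ≤ 1) →
    (∑ τ ∈ Finset.Ioo (-(H1 : ℤ)) H1,
      (∑ n ∈ (Finset.Ioc (0 : ℤ) H1).filter (fun n => n + τ ∈ Finset.Ioc (0 : ℤ) H1),
        (ν n - 1) * (ν (n + τ) - 1)) ^ 2 ≤ A * (X : ℝ) ^ 3) →
    (∑ τ ∈ Finset.Ioo (-(X : ℤ)) X,
      (∑ n ∈ (Finset.Ioc (0 : ℤ) X).filter (fun n => n + τ ∈ Finset.Ioc (0 : ℤ) X),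
        u n * u (n + τ)) ^ 4 ≤ D * (X : ℝ) ^ 5) →
    (∀ θ : ℝ, ‖∑ n ∈ Ioc (0 : ℤ) X, ((u n : ℝ) : ℂ) * ee (θ * n)‖ ≤ η * X) →
      |∑ V ∈ Ioc (0 : ℤ) H1, ∑ y ∈ Ioc (0 : ℤ) X, f V * u y * w (V + y)| ≤
        100 * Real.sqrt (η ^ 2 + (A * D) ^ ((1 : ℝ) / 4)) * (X : ℝ) ^ 2

/-! ### One residue class, and the theorem -/

open Classical in
/-- the representations `x = V + y` -/
noncomputable def repD {K : ℕ} (C z0 X : ℕ) (α β : Fin K → ℤ) (i j : Fin K) (a0 b0 a1 b1 : ℤ)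
    (x : ℤ) : ℕ :=
  ((Ioo (0 : ℤ) x).filter (fun V => Prime (α i * V + β i) ∧ Prime (α j * V + β j) ∧
    0 < a0 * (x - V) + b0 ∧ Prime (a0 * (x - V) + b0) ∧ 0 < a1 * (x - V) + b1 ∧
    ∀ q : ℕ, q.Prime → (q : ℤ) ∣ a1 * (x - V) + b1 → X ≤ q ^ C)).card

open Classical in
/-- CLS: one residue class. -/
def CLSStmt : Prop :=
  ∃ K0 : ℕ, ∀ K : ℕ, K0 ≤ K → ∀ ε : ℝ, 0 < ε → ∃ zs : ℕ, ∀ z0 : ℕ, zs ≤ z0 → ∀ C0 : ℕ,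
    ∃ C : ℕ, ∀ X : ℕ, C ≤ X → ∀ α β : Fin K → ℤ, MF C0 z0 α β → ∃ i j : Fin K, i < j ∧
    ∀ a0 b0 a1 b1 : ℤ, BF C0 z0 a0 b0 → BF C0 z0 a1 b1 →
      ((((Ioc (0 : ℤ) X).filter (fun x =>
        (repD C z0 X α β i j a0 b0 a1 b1 x : ℝ) * (Real.log X) ^ C < X)).card : ℕ) : ℝ) ≤ ε * X

/-- FIX2: residue class for `K` prescribed forms `A_f U + B_f` (`B_f` arbitrary) and further forms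
`a_e U + b_e`: the number of prime factors `≤ w` of the prescribed forms is exactly `G f`, all
valuations are smaller than those of `M`. The auxiliary primes `π f` are given (generalisation of
`Fix49.core`). -/
def FIX2Stmt : Prop :=
  ∀ K k D : ℕ, ∃ q1 G0 : ℕ, ∀ (w : ℕ) (π G : Fin K → ℕ), (∀ f, (π f).Prime ∧ q1 < π f ∧ π f ≤ w) →
    Function.Injective π → (∀ f, G0 ≤ G f) → ∃ M : ℕ, 0 < M ∧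
    (∀ q : ℕ, q.Prime → (q ∣ M ↔ q ≤ w)) ∧
    ∀ (A B : Fin K → ℤ) (a b : Fin k → ℤ), (∀ f, A f ≠ 0 ∧ |A f| ≤ D) → (∀ e, a e ≠ 0 ∧ |a e| ≤ D) →
    (∀ f g, f ≠ g → ¬ ((π f : ℤ) ∣ A f * B g - A g * B f)) →
    ∃ U0 : ℕ, U0 ≤ M ∧
      (∀ f, A f * U0 + B f ≠ 0 ∧
        ∑ q ∈ (range (w + 1)).filter Nat.Prime, (A f * U0 + B f).natAbs.factorization q = G f) ∧
      ∀ q : ℕ, q.Prime → q ≤ w →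
        (∀ f, (A f * U0 + B f).natAbs.factorization q < M.factorization q) ∧
        ∀ e, ¬ ((q : ℤ) ^ M.factorization q ∣ a e * U0 + b e)

/-- FIXC: the class lemma. For all residue classes `ν` modulo `M` outside a small set there is `U0`
such that the main forms at `U0 + M V` are `h_j (α_j V + β_j)` with `Ω(h_j) = G`, and for
`n = a_e M x + ρ`, `ρ ≡ ν`, `n - a_e (U0 + M V) - c_e = h0 (a0 (x - V) + b0)` with `Ω(h0) = G'_e`,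
`n - a_e (U0 + M V) - c_e + δ' = h1 (a1 (x - V) + b1)`. -/
def FIXCStmt : Prop :=
  ∀ (K : ℕ) (ι : Type) [Fintype ι] (D : ℕ) (ε : ℝ), 0 < ε → ∃ G0 : ℕ, ∀ (G : ℕ) (G' : ι → ℕ),
    G0 ≤ G → (∀ e, G0 ≤ G' e) → ∃ ws : ℕ, ∀ w : ℕ, ws ≤ w → ∃ M Cw : ℕ, 0 < M ∧ M ≤ Cw ∧
    (∀ q : ℕ, q.Prime → (q ∣ M ↔ q ≤ w)) ∧
    ∀ (A B : Fin K → ℤ) (a c : ι → ℤ) (δ' : ℤ),
    (∀ j, 0 < A j ∧ A j ≤ D ∧ 0 < B j ∧ B j ≤ D) → (∀ i j, i ≠ j → A i * B j ≠ A j * B i) →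
    (∀ e, 0 < a e ∧ a e ≤ D ∧ |c e| ≤ D) → (∀ e e', e ≠ e' → ¬ (a e = a e' ∧ c e = c e')) →
    δ' ≠ 0 → |δ'| ≤ D →
    ∃ Bad : Finset ℕ, (Bad.card : ℝ) ≤ ε * M ∧ ∀ ν ∈ range M, ν ∉ Bad →
      ∃ (U0 : ℕ) (h α β : Fin K → ℤ), U0 ≤ Cw ∧
        (∀ j, A j * M = h j * α j ∧ A j * U0 + B j = h j * β j ∧ 0 < h j ∧ h j ≤ Cw ∧
          ArithmeticFunction.cardFactors (h j).toNat = G) ∧ MF Cw w α β ∧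
        ∀ (e : ι) (ρ : ℤ), 0 ≤ ρ → ρ < a e * M → (M : ℤ) ∣ ρ - ν →
          (∃ h0 a0 b0 : ℤ, a e * M = h0 * a0 ∧ ρ - a e * U0 - c e = h0 * b0 ∧ 0 < h0 ∧ h0 ≤ Cw ∧
            ArithmeticFunction.cardFactors h0.toNat = G' e ∧ BF Cw w a0 b0) ∧
          ∃ h1 a1 b1 : ℤ, a e * M = h1 * a1 ∧ ρ - a e * U0 - c e + δ' = h1 * b1 ∧ 0 < h1 ∧
            h1 ≤ Cw ∧ BF Cw w a1 b1

/-- `x = d y` with `1 ≤ d ≤ C`, `y` without prime factors `q` with `q ^ C < N`, and `x` has at most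
`C` prime factors -/
def NearPrime (C N x : ℕ) : Prop :=
  ArithmeticFunction.cardFactors x ≤ C ∧
    ∃ d y : ℕ, x = d * y ∧ 1 ≤ d ∧ d ≤ C ∧ ∀ q : ℕ, q.Prime → q ∣ y → N ≤ q ^ C

open Classical in
/-- (D): almost all `n` -/
def DStmt : Prop :=
  ∀ m r : ℕ, 0 < m → ∀ ε : ℝ, 0 < ε → ∃ C : ℕ, ∀ N : ℕ, C ≤ N → ∀ δ δ' : ℤ,
    (δ = 2 ∨ δ = -2) → (δ' = 2 ∨ δ' = -2) →
    ((((Icc 1 N).filter (fun n : ℕ =>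
      ((((Icc 1 n).filter (fun a : ℕ => ∃ a' b b' : ℕ, n = a + b ∧ (a' : ℤ) = a + δ ∧
        (b' : ℤ) = b + δ' ∧ PrimeMult C a ∧ PrimeMult C a' ∧ PrimeMult C b ∧ 0 < b' ∧
        NearPrime C N b' ∧
        ArithmeticFunction.cardFactors a' = ArithmeticFunction.cardFactors a ∧
        ArithmeticFunction.cardFactors b = ArithmeticFunction.cardFactors a ∧
        ArithmeticFunction.cardFactors a ≡ r [MOD m])).card : ℕ) : ℝ) * (Real.log N) ^ C <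
        N)).card : ℕ) : ℝ) ≤ ε * N

end Pool.Agent.Lib.MT2
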