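import Mathlib
import Pool.Agent.Lib.MT2.StmtsD
import Pool.Agent.Lib.MT2.A_52

/-!
MT2 (D), module CLS: one residue class.
-/

set_option autoImplicit false

namespace Pool.Agent.Lib.MT2.C82

open Finset Filter
open Pool.Agent.Lib.TwinAll (PP Rough om VV nu ee)

/-- polynomial times exponential decay along `b ↦ 5 b / s - 1` -/
theorem decay (s P : ℕ) (Cst : ℝ) (A0 : ℝ) (hs : 0 < s) (hA : 0 < A0) (hC : 0 ≤ Cst) :
    ∃ b1 : ℕ, ∀ b : ℕ, b1 ≤ b → ∃ t : ℕ, s * (t + 1) ≤ 5 * b ∧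
      (1 / 2 : ℝ) ^ t * (Cst * (b : ℝ) ^ P + 1) ^ 8 ≤ A0 := by
  -- with `b = s m + r`, `t = m`
  have h1 : Tendsto (fun m : ℕ => (m : ℝ) ^ (8 * P + 8) * (1 / 2 : ℝ) ^ m) atTop (nhds 0) :=
    tendsto_pow_const_mul_const_pow_of_abs_lt_one (8 * P + 8) (by rw [abs_of_pos] <;> norm_num)
  set Q : ℝ := ((Cst + 1) * (2 * (s : ℝ)) ^ P) ^ 8 with hQ
  have hsR : (1 : ℝ) ≤ s := by exact_mod_cast hs
  have hQ0 : 0 < Q := by positivity
  have h2 := (h1.eventually (gt_mem_nhds (div_pos hA hQ0)))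
  obtain ⟨m0, hm0⟩ := Filter.eventually_atTop.1 h2
  refine ⟨s * (m0 + 1), fun b hb => ⟨b / s, ?_, ?_⟩⟩
  · have e1 := Nat.div_mul_le_self b s
    have e2 : s ≤ b := le_trans (Nat.le_mul_of_pos_right s (by omega)) hb
    nlinarith
  · set m := b / s with hm
    have hmm : m0 + 1 ≤ m := (Nat.le_div_iff_mul_le hs).2 (by rw [mul_comm]; exact hb)
    have hm1 : (1 : ℝ) ≤ m := by exact_mod_cast (by omega : 1 ≤ m)
    have hbm : (b : ℝ) ≤ 2 * s * m := by
      have e1 : b < s * (m + 1) := by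
        rw [hm]
        exact Nat.lt_mul_div_succ b hs
      have e2 : (b : ℝ) ≤ s * (m + 1) := by exact_mod_cast e1.le
      nlinarith
    have h3 := hm0 m (by omega)
    have h4 : Cst * (b : ℝ) ^ P + 1 ≤ (Cst + 1) * (2 * (s : ℝ)) ^ P * (m : ℝ) ^ P * 1 := by
      have e1 : (b : ℝ) ^ P ≤ (2 * (s : ℝ)) ^ P * (m : ℝ) ^ P := by
        rw [← mul_pow]
        exact pow_le_pow_left₀ (Nat.cast_nonneg _) hbm _
      have e2 : (1 : ℝ) ≤ (2 * (s : ℝ)) ^ P * (m : ℝ) ^ P := by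
        rw [← mul_pow]
        exact one_le_pow₀ (by nlinarith)
      nlinarith [mul_le_mul_of_nonneg_left e1 hC]
    have h5 : (Cst * (b : ℝ) ^ P + 1) ^ 8 ≤ Q * (m : ℝ) ^ (8 * P + 8) := by
      calc (Cst * (b : ℝ) ^ P + 1) ^ 8 ≤ ((Cst + 1) * (2 * (s : ℝ)) ^ P * (m : ℝ) ^ P * 1) ^ 8 :=
            pow_le_pow_left₀ (by positivity) h4 _
        _ = Q * (m : ℝ) ^ (8 * P) := by rw [hQ]; ring
        _ ≤ Q * (m : ℝ) ^ (8 * P + 8) := by
            apply mul_le_mul_of_nonneg_left _ hQ0.le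
            exact pow_le_pow_right₀ hm1 (by omega)
    calc (1 / 2 : ℝ) ^ m * (Cst * (b : ℝ) ^ P + 1) ^ 8 ≤
        (1 / 2 : ℝ) ^ m * (Q * (m : ℝ) ^ (8 * P + 8)) :=
          mul_le_mul_of_nonneg_left h5 (by positivity)
      _ = Q * ((m : ℝ) ^ (8 * P + 8) * (1 / 2 : ℝ) ^ m) := by ring
      _ ≤ Q * (A0 / Q) := mul_le_mul_of_nonneg_left h3.le hQ0.le
      _ = A0 := by field_simp

/-- the sum over representations, reorganised -/
theorem conv_sum (X H1 : ℕ) (f u w : ℤ → ℝ) (hw : ∀ x, x ∉ Ioc (H1 : ℤ) X → w x = 0) :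
    ∑ V ∈ Ioc (0 : ℤ) H1, ∑ y ∈ Ioc (0 : ℤ) X, f V * u y * w (V + y) =
      ∑ x ∈ Ioc (H1 : ℤ) X, w x * ∑ V ∈ Ioc (0 : ℤ) H1, f V * u (x - V) := by
  have h1 : ∀ V ∈ Ioc (0 : ℤ) H1, ∑ y ∈ Ioc (0 : ℤ) X, f V * u y * w (V + y) =
      ∑ x ∈ Ioc (H1 : ℤ) X, w x * (f V * u (x - V)) := by
    intro V hV
    rw [mem_Ioc] at hV
    have e1 : ∑ y ∈ Ioc (0 : ℤ) X, f V * u y * w (V + y) =
        ∑ x ∈ Ioc (V : ℤ) (V + X), w x * (f V * u (x - V)) := by
      refine Finset.sum_bij (fun y _ => V + y) ?_ ?_ ?_ ?_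
      · intro y hy
        rw [mem_Ioc] at hy ⊢
        omega
      · intro y _ y' _ hyy
        omega
      · intro x hx
        rw [mem_Ioc] at hx
        exact ⟨x - V, by rw [mem_Ioc]; omega, by ring⟩
      · intro y _
        have : V + y - V = y := by ring
        rw [this]
        ring
    rw [e1]
    symm
    apply Finset.sum_subset
    · intro x hx
      rw [mem_Ioc] at hx ⊢
      omega
    · intro x _ hx
      rw [hw x hx, zero_mul]
  rw [Finset.sum_congr rfl h1, Finset.sum_comm]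
  apply Finset.sum_congr rfl
  intro x _
  rw [Finset.mul_sum]

/-- counting form of the von Neumann inequality -/
theorem count_bad (X H1 : ℕ) (f u : ℤ → ℝ) (E c : ℝ)
    (hVN : ∀ w : ℤ → ℝ, (∀ n, |w n| ≤ 1) →
      |∑ V ∈ Ioc (0 : ℤ) H1, ∑ y ∈ Ioc (0 : ℤ) X, f V * u y * w (V + y)| ≤ E)
    (Bad : Finset ℤ) (hBad : Bad ⊆ Ioc (H1 : ℤ) X)
    (hB : ∀ x ∈ Bad, ∑ V ∈ Ioc (0 : ℤ) H1, f V * u (x - V) ≤ -c) :
    (Bad.card : ℝ) * c ≤ E := by
  classical
  have h1 := hVN (fun x => if x ∈ Bad then -1 else 0) (fun x => by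
    split_ifs <;> norm_num)
  rw [conv_sum X H1 f u _ (fun x hx => if_neg (fun hx' => hx (hBad hx')))] at h1
  have h2 : ∑ x ∈ Ioc (H1 : ℤ) X, (if x ∈ Bad then (-1 : ℝ) else 0) *
      ∑ V ∈ Ioc (0 : ℤ) H1, f V * u (x - V) =
      ∑ x ∈ Bad, -(∑ V ∈ Ioc (0 : ℤ) H1, f V * u (x - V)) := by
    rw [← Finset.sum_subset hBad]
    · apply Finset.sum_congr rfl
      intro x hx
      rw [if_pos hx, neg_one_mul]
    · intro x _ hx
      rw [if_neg hx, zero_mul]
  rw [h2] at h1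
  calc (Bad.card : ℝ) * c = ∑ _x ∈ Bad, c := by rw [Finset.sum_const, nsmul_eq_mul]
    _ ≤ ∑ x ∈ Bad, -(∑ V ∈ Ioc (0 : ℤ) H1, f V * u (x - V)) := by
        apply Finset.sum_le_sum
        intro x hx
        have := hB x hx
        linarith
    _ ≤ E := (le_abs_self _).trans h1

/-- pigeonhole over the pairs `i < j` -/
theorem pigeon_pair {K : ℕ} (s : Finset ℤ) (F : ℤ → ℝ) (hF : ∀ V ∈ s, 0 ≤ F V) (Pr : Fin K → ℤ → Prop)
    [∀ i V, Decidable (Pr i V)] (c : ℝ)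
    [DecidablePred (fun V => ∃ i j, i < j ∧ Pr i V ∧ Pr j V)]
    (hc : 0 < c) (h : c ≤ ∑ V ∈ s.filter (fun V => ∃ i j, i < j ∧ Pr i V ∧ Pr j V), F V) :
    ∃ i j, i < j ∧ c / (K : ℝ) ^ 2 ≤ ∑ V ∈ s.filter (fun V => Pr i V ∧ Pr j V), F V := by
  classical
  by_contra hcon
  push Not at hcon
  have h1 : ∑ V ∈ s.filter (fun V => ∃ i j, i < j ∧ Pr i V ∧ Pr j V), F V ≤
      ∑ i : Fin K, ∑ j : Fin K, ∑ V ∈ s.filter (fun V => (i < j) ∧ Pr i V ∧ Pr j V), F V := by
    rw [Finset.sum_filter]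
    have e1 : ∀ i j : Fin K, ∑ V ∈ s.filter (fun V => (i < j) ∧ Pr i V ∧ Pr j V), F V =
        ∑ V ∈ s, if (i < j) ∧ Pr i V ∧ Pr j V then F V else 0 := fun i j => Finset.sum_filter _ _
    simp_rw [e1]
    rw [Finset.sum_congr rfl (fun i _ => Finset.sum_comm), Finset.sum_comm]
    apply Finset.sum_le_sum
    intro V hV
    split_ifs with hex
    · obtain ⟨i, j, hij⟩ := hex
      have h2 : (if (i < j) ∧ Pr i V ∧ Pr j V then F V else 0) ≤
          ∑ j : Fin K, if (i < j) ∧ Pr i V ∧ Pr j V then F V else 0 := by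
        apply Finset.single_le_sum (f := fun j => if (i < j) ∧ Pr i V ∧ Pr j V then F V else 0)
          (fun j _ => ?_) (Finset.mem_univ j)
        split_ifs
        · exact hF V hV
        · exact le_rfl
      have h3 : (∑ j : Fin K, if (i < j) ∧ Pr i V ∧ Pr j V then F V else 0) ≤
          ∑ i : Fin K, ∑ j : Fin K, if (i < j) ∧ Pr i V ∧ Pr j V then F V else 0 := by
        apply Finset.single_le_sum
          (f := fun i => ∑ j : Fin K, if (i < j) ∧ Pr i V ∧ Pr j V then F V else 0)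
          (fun i _ => ?_) (Finset.mem_univ i)
        apply Finset.sum_nonneg
        intro j _
        split_ifs
        · exact hF V hV
        · exact le_rfl
      rw [if_pos hij] at h2
      exact h2.trans h3
    · apply Finset.sum_nonneg
      intro i _
      apply Finset.sum_nonneg
      intro j _
      split_ifs
      · exact hF V hV
      · exact le_rfl
  rcases Nat.eq_zero_or_pos K with hK | hK
  · subst hK
    simp only [Finset.univ_eq_empty, Finset.sum_empty] at h1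
    linarith
  have hKR : (0 : ℝ) < K := by exact_mod_cast hK
  have h2 : ∑ i : Fin K, ∑ j : Fin K, ∑ V ∈ s.filter (fun V => (i < j) ∧ Pr i V ∧ Pr j V), F V <
      ∑ i : Fin K, ∑ j : Fin K, c / (K : ℝ) ^ 2 := by
    have : Nonempty (Fin K) := ⟨⟨0, hK⟩⟩
    apply Finset.sum_lt_sum_of_nonempty Finset.univ_nonempty
    intro i _
    apply Finset.sum_lt_sum_of_nonempty Finset.univ_nonempty
    intro j _
    by_cases hij : i < j
    · have := hcon i j hij
      refine lt_of_eq_of_lt ?_ this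
      apply Finset.sum_congr _ (fun _ _ => rfl)
      apply Finset.filter_congr
      intro V _
      simp [hij]
    · have e1 : s.filter (fun V => (i < j) ∧ Pr i V ∧ Pr j V) = ∅ := by
        apply Finset.filter_false_of_mem
        intro V _ h
        exact hij h.1
      rw [e1, Finset.sum_empty]
      positivity
  have h3 : ∑ i : Fin K, ∑ j : Fin K, c / (K : ℝ) ^ 2 = c := by
    simp only [Finset.sum_const, Finset.card_univ, Fintype.card_fin, nsmul_eq_mul]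
    field_simp
  linarith


theorem append_zero {K : ℕ} (α : Fin K → ℤ) (a : Fin 0 → ℤ) (P : ℤ → Prop) (h : ∀ j, P (α j)) :
    ∀ j : Fin (K + 0), P (Fin.append α a j) := by
  intro j
  refine Fin.addCases (fun i => ?_) (fun i => i.elim0) j
  rw [Fin.append_left]
  exact h i

theorem append_zero2 {K : ℕ} (α β : Fin K → ℤ) (a d : Fin 0 → ℤ) (P : ℤ → ℤ → Prop)
    (h : ∀ j, P (α j) (β j)) :
    ∀ j : Fin (K + 0), P (Fin.append α a j) (Fin.append β d j) := by
  intro j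
  refine Fin.addCases (fun i => ?_) (fun i => i.elim0) j
  rw [Fin.append_left, Fin.append_left]
  exact h i

theorem nu_nonneg' (z0 z : ℕ) {k : ℕ} (a b : Fin k → ℤ) (n : ℤ) (h : 0 < VV z0 z a b) :
    0 ≤ nu z0 z a b n ∧ nu z0 z a b n ≤ (VV z0 z a b)⁻¹ := by
  unfold nu
  split_ifs
  · exact ⟨(inv_pos.2 h).le, le_rfl⟩
  · exact ⟨le_rfl, (inv_pos.2 h).le⟩

/-- numerical choice of the final constant -/
theorem final_const (K2 M : ℝ) (n C0 : ℕ) (hM : 0 < M) (hK2 : 0 ≤ K2) :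
    ∃ X0 : ℕ, 3 ≤ X0 ∧ ∀ X : ℕ, X0 ≤ X → ∀ C : ℕ, n + 1 ≤ C →
      ((X : ℝ) / (Real.log X) ^ C + C0) * (K2 * (Real.log X) ^ n) ≤ X / M := by
  have h1 : ∀ᶠ X : ℕ in atTop, 2 * M * K2 ≤ Real.log X :=
    (Real.tendsto_log_atTop.comp tendsto_natCast_atTop_atTop).eventually_ge_atTop _
  have h2 : ∀ᶠ X : ℕ in atTop, 2 * M * (C0 * K2) * (Real.log X) ^ n ≤ X := by
    have h3 := (Real.isLittleO_pow_log_id_atTop (n := n)).const_mul_left (2 * M * (C0 * K2) + 1)
    have h4 := (h3.comp_tendsto tendsto_natCast_atTop_atTop).bound (zero_lt_one)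
    filter_upwards [h4, eventually_ge_atTop 1] with X hX hX1
    simp only [Function.comp_apply, id_eq, one_mul, Real.norm_eq_abs, Nat.abs_cast] at hX
    have h5 : 0 ≤ Real.log X := Real.log_natCast_nonneg X
    have h6 : (2 * M * (C0 * K2)) * Real.log X ^ n ≤ (2 * M * (C0 * K2) + 1) * Real.log X ^ n := by
      apply mul_le_mul_of_nonneg_right _ (by positivity)
      linarith
    exact h6.trans ((le_abs_self _).trans hX)
  obtain ⟨X0, hX0⟩ := Filter.eventually_atTop.1 (h1.and h2)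
  refine ⟨max X0 3, le_max_right _ _, fun X hX C hC => ?_⟩
  obtain ⟨h3, h4⟩ := hX0 X ((le_max_left _ _).trans hX)
  have hX3 : 3 ≤ X := (le_max_right _ _).trans hX
  have hXR : (0 : ℝ) < X := by exact_mod_cast (by omega : 0 < X)
  have hl1 : 1 ≤ Real.log X := by
    rw [Real.le_log_iff_exp_le hXR]
    have := Real.exp_one_lt_d9
    have h5 : (3 : ℝ) ≤ X := by exact_mod_cast hX3
    linarith
  have hl0 : 0 < Real.log X := by linarith
  have e1 : (X : ℝ) / (Real.log X) ^ C * (K2 * (Real.log X) ^ n) ≤ X / (2 * M) := by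
    have e2 : (Real.log X) ^ (n + 1) ≤ (Real.log X) ^ C := pow_le_pow_right₀ hl1 hC
    have e3 : (X : ℝ) / (Real.log X) ^ C ≤ X / (Real.log X) ^ (n + 1) :=
      div_le_div_of_nonneg_left hXR.le (by positivity) e2
    calc (X : ℝ) / (Real.log X) ^ C * (K2 * (Real.log X) ^ n) ≤
        X / (Real.log X) ^ (n + 1) * (K2 * (Real.log X) ^ n) :=
          mul_le_mul_of_nonneg_right e3 (by positivity)
      _ = X * K2 / Real.log X := by
          rw [pow_succ]
          field_simp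
      _ ≤ X / (2 * M) := by
          rw [div_le_div_iff₀ hl0 (by positivity)]
          nlinarith
  have e4 : (C0 : ℝ) * (K2 * (Real.log X) ^ n) ≤ X / (2 * M) := by
    rw [le_div_iff₀ (by positivity)]
    linarith
  have e5 : (X : ℝ) / M = X / (2 * M) + X / (2 * M) := by field_simp; ring
  rw [add_mul, e5]
  linarith

/-- the rough factor gives large prime factors -/
theorem rough_large {C0 z0 z : ℕ} {a1 b1 : ℤ} (hBF : BF C0 z0 a1 b1) {y : ℤ}
    (hR : Rough z0 z (a1 * y + b1)) {q : ℕ} (hq : q.Prime) (hd : (q : ℤ) ∣ a1 * y + b1) :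
    z < q := by
  by_contra hcon
  push Not at hcon
  by_cases hqz : q ≤ z0
  · have h1 := hBF.small q hq hqz
    have h2 : (q : ℤ) ∣ b1 := by
      have e : b1 = (a1 * y + b1) - a1 * y := by ring
      rw [e]
      exact dvd_sub hd (h1.mul_right y)
    have h3 := hBF.cop.isUnit_of_dvd' h1 h2
    rw [Int.isUnit_iff] at h3
    have := hq.two_le
    omega
  · refine hR q ?_ hd
    unfold PP
    rw [mem_filter, mem_Ioc]
    exact ⟨⟨by omega, hcon⟩, hq⟩

theorem form_pos {C0 z0 : ℕ} {a1 b1 : ℤ} (hBF : BF C0 z0 a1 b1) {y : ℤ} (hy : (C0 : ℤ) < y) :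
    0 < a1 * y + b1 := by
  have h1 := hBF.pos
  have h2 := abs_le.1 hBF.bd.2
  nlinarith

open Classical in
/-- upper bound for the weighted number of representations of `x` -/
theorem rep_upper {K C0 z0 zg X H1 C : ℕ} (α β : Fin K → ℤ) (i j : Fin K) (a0 b0 a1 b1 : ℤ)
    (h0 : BF C0 z0 a0 b0) (h1 : BF C0 z0 a1 b1) (nw : ℤ → ℝ) (F G : ℝ) (hF : 0 ≤ F) (hG : 0 ≤ G)
    (hnw : ∀ V ∈ Ioc (0 : ℤ) H1, 0 ≤ nw V ∧ nw V ≤ F)
    (hg : ∀ y ∈ Ioc (0 : ℤ) X, 0 ≤ gg z0 zg X a0 b0 ![a1] ![b1] y ∧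
      gg z0 zg X a0 b0 ![a1] ![b1] y ≤ G)
    (hz : ∀ q : ℕ, zg < q → X ≤ q ^ C) (x : ℤ) (hx : x ∈ Ioc (H1 : ℤ) X) :
    ∑ V ∈ Ioc (0 : ℤ) H1, (if Prime (α i * V + β i) ∧ Prime (α j * V + β j) then nw V else 0) *
      gg z0 zg X a0 b0 ![a1] ![b1] (x - V) ≤
      ((repD C z0 X α β i j a0 b0 a1 b1 x : ℝ) + C0) * (F * G) := by
  rw [mem_Ioc] at hx
  set T : Finset ℤ := ((Ioo (0 : ℤ) x).filter (fun V => Prime (α i * V + β i) ∧
    Prime (α j * V + β j) ∧ 0 < a0 * (x - V) + b0 ∧ Prime (a0 * (x - V) + b0) ∧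
    0 < a1 * (x - V) + b1 ∧ ∀ q : ℕ, q.Prime → (q : ℤ) ∣ a1 * (x - V) + b1 → X ≤ q ^ C)) ∪
    (Ico (x - C0) x) with hT
  have hTc : (T.card : ℝ) ≤ (repD C z0 X α β i j a0 b0 a1 b1 x : ℝ) + C0 := by
    have e1 : T.card ≤ repD C z0 X α β i j a0 b0 a1 b1 x + C0 := by
      refine (card_union_le _ _).trans (Nat.add_le_add (le_of_eq rfl) ?_)
      rw [Int.card_Ico]
      omega
    exact_mod_cast e1
  calc ∑ V ∈ Ioc (0 : ℤ) H1, (if Prime (α i * V + β i) ∧ Prime (α j * V + β j) then nw V else 0) *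
      gg z0 zg X a0 b0 ![a1] ![b1] (x - V)
      ≤ ∑ V ∈ Ioc (0 : ℤ) H1, if V ∈ T then F * G else 0 := by
        apply Finset.sum_le_sum
        intro V hV
        have hnV := hnw V hV
        rw [mem_Ioc] at hV
        have hgV := hg (x - V) (by rw [mem_Ioc]; omega)
        by_cases hVT : V ∈ T
        · rw [if_pos hVT]
          refine mul_le_mul ?_ hgV.2 hgV.1 hF
          split_ifs
          · exact hnV.2
          · exact hF
        · rw [if_neg hVT]
          apply le_of_eq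
          by_cases hP : Prime (α i * V + β i) ∧ Prime (α j * V + β j)
          · have hgz : gg z0 zg X a0 b0 ![a1] ![b1] (x - V) = 0 := by
              unfold gg
              split_ifs with hP0
              · have hnJ : nuJ z0 zg a0 b0 ![a1] ![b1] (x - V) = 0 := by
                  unfold nuJ
                  rw [if_neg]
                  intro hR
                  apply hVT
                  rw [hT, mem_union]
                  by_cases hC : x - C0 ≤ V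
                  · right
                    rw [mem_Ico]
                    omega
                  · left
                    rw [mem_filter, mem_Ioo]
                    have hy : (C0 : ℤ) < x - V := by omega
                    refine ⟨by omega, hP.1, hP.2, form_pos h0 hy, hP0, form_pos h1 hy, ?_⟩
                    intro q hq hd
                    apply hz
                    have hR0 := hR 0
                    simp only [Matrix.cons_val_zero] at hR0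
                    exact rough_large h1 hR0 hq hd
                rw [hnJ, mul_zero]
              · rfl
            rw [hgz, mul_zero]
          · rw [if_neg hP, zero_mul]
    _ = (((Ioc (0 : ℤ) H1).filter (fun V => V ∈ T)).card : ℝ) * (F * G) := by
        rw [← Finset.sum_filter, Finset.sum_const, nsmul_eq_mul]
    _ ≤ (T.card : ℝ) * (F * G) := by
        apply mul_le_mul_of_nonneg_right _ (mul_nonneg hF hG)
        have : ((Ioc (0 : ℤ) H1).filter (fun V => V ∈ T)) ⊆ T := by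
          intro V hV
          exact (mem_filter.1 hV).2
        exact_mod_cast card_le_card this
    _ ≤ _ := mul_le_mul_of_nonneg_right hTc (mul_nonneg hF hG)


open Classical in
/-- counting the exceptional `x` -/
theorem cls_core {K C0 z0 zg X H1 C : ℕ} (Q : ℕ) (ε : ℝ) (hε : 0 < ε) (hK : 1 ≤ K)
    (hQ : 1 ≤ Q) (hQε : (1 : ℝ) / Q ≤ ε / 4) (hX : 2 * Q ≤ X) (hH1 : H1 = X / Q)
    (α β : Fin K → ℤ) (i j : Fin K) (a0 b0 a1 b1 : ℤ)
    (h0 : BF C0 z0 a0 b0) (h1 : BF C0 z0 a1 b1) (nw : ℤ → ℝ) (F G : ℝ) (hF : 0 ≤ F) (hG : 0 ≤ G)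
    (hnw : ∀ V ∈ Ioc (0 : ℤ) H1, 0 ≤ nw V ∧ nw V ≤ F)
    (hg : ∀ y ∈ Ioc (0 : ℤ) X, 0 ≤ gg z0 zg X a0 b0 ![a1] ![b1] y ∧
      gg z0 zg X a0 b0 ![a1] ![b1] y ≤ G)
    (hz : ∀ q : ℕ, zg < q → X ≤ q ^ C)
    (hmass : (H1 : ℝ) / (K : ℝ) ^ 3 ≤ ∑ V ∈ Ioc (0 : ℤ) H1,
      if Prime (α i * V + β i) ∧ Prime (α j * V + β j) then nw V else 0)
    (hVN : ∀ w : ℤ → ℝ, (∀ n, |w n| ≤ 1) →
      |∑ V ∈ Ioc (0 : ℤ) H1, ∑ y ∈ Ioc (0 : ℤ) X,
        (if Prime (α i * V + β i) ∧ Prime (α j * V + β j) then nw V else 0) *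
          (gg z0 zg X a0 b0 ![a1] ![b1] y - 1) * w (V + y)| ≤
        ε / (16 * Q * (K : ℝ) ^ 3) * (X : ℝ) ^ 2)
    (hnum : ((X : ℝ) / (Real.log X) ^ C + C0) * (F * G) ≤ X / (4 * Q * (K : ℝ) ^ 3)) :
    ((((Ioc (0 : ℤ) X).filter (fun x =>
        (repD C z0 X α β i j a0 b0 a1 b1 x : ℝ) * (Real.log X) ^ C < X)).card : ℕ) : ℝ) ≤ ε * X := by
  have hKR : (0 : ℝ) < (K : ℝ) ^ 3 := by
    have : (0 : ℝ) < K := by exact_mod_cast hK
    positivity
  have hQR : (0 : ℝ) < Q := by exact_mod_cast hQ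
  have hXR : (0 : ℝ) < X := by exact_mod_cast (by omega : 0 < X)
  have hlog : 0 < Real.log X := Real.log_pos (by exact_mod_cast (by omega : 1 < X))
  have hH1X : H1 ≤ X := by rw [hH1]; exact Nat.div_le_self _ _
  have hH1up : (H1 : ℝ) ≤ ε / 4 * X := by
    have e1 : (H1 : ℝ) ≤ X / Q := by rw [hH1]; exact Nat.cast_div_le
    calc (H1 : ℝ) ≤ X / Q := e1
      _ = (1 / Q : ℝ) * X := by ring
      _ ≤ ε / 4 * X := mul_le_mul_of_nonneg_right hQε hXR.le
  have hH1lo : (X : ℝ) / (2 * Q) ≤ H1 := by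
    have e1 : X < Q * (H1 + 1) := by rw [hH1]; exact Nat.lt_mul_div_succ X (by omega)
    have e2 : (X : ℝ) < Q * ((H1 : ℝ) + 1) := by exact_mod_cast e1
    have e3 : (2 : ℝ) * Q ≤ X := by exact_mod_cast hX
    rw [div_le_iff₀ (by positivity)]
    nlinarith
  set f : ℤ → ℝ := fun V => if Prime (α i * V + β i) ∧ Prime (α j * V + β j) then nw V else 0
    with hf
  set u : ℤ → ℝ := fun y => gg z0 zg X a0 b0 ![a1] ![b1] y - 1 with hu
  set Bad : Finset ℤ := (Ioc (H1 : ℤ) X).filter (fun x =>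
        (repD C z0 X α β i j a0 b0 a1 b1 x : ℝ) * (Real.log X) ^ C < X) with hBad
  have hB : ∀ x ∈ Bad, ∑ V ∈ Ioc (0 : ℤ) H1, f V * u (x - V) ≤ -((H1 : ℝ) / (2 * (K : ℝ) ^ 3)) := by
    intro x hx
    rw [hBad, mem_filter] at hx
    have e1 := rep_upper (C := C) α β i j a0 b0 a1 b1 h0 h1 nw F G hF hG hnw hg hz x hx.1
    have e2 : (repD C z0 X α β i j a0 b0 a1 b1 x : ℝ) ≤ (X : ℝ) / (Real.log X) ^ C := by
      rw [le_div_iff₀ (by positivity)]
      exact hx.2.le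
    have e3 : ((repD C z0 X α β i j a0 b0 a1 b1 x : ℝ) + C0) * (F * G) ≤
        X / (4 * Q * (K : ℝ) ^ 3) := by
      refine le_trans ?_ hnum
      apply mul_le_mul_of_nonneg_right _ (mul_nonneg hF hG)
      linarith
    have e4 : (X : ℝ) / (4 * Q * (K : ℝ) ^ 3) ≤ (H1 : ℝ) / (2 * (K : ℝ) ^ 3) := by
      have e5 : (X : ℝ) / (4 * Q * (K : ℝ) ^ 3) = X / (2 * Q) / (2 * (K : ℝ) ^ 3) := by
        field_simp
        ring
      rw [e5]
      exact div_le_div_of_nonneg_right hH1lo (by positivity)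
    have e6 : ∑ V ∈ Ioc (0 : ℤ) H1, f V * u (x - V) =
        ∑ V ∈ Ioc (0 : ℤ) H1, f V * gg z0 zg X a0 b0 ![a1] ![b1] (x - V) -
          ∑ V ∈ Ioc (0 : ℤ) H1, f V := by
      rw [← Finset.sum_sub_distrib]
      apply Finset.sum_congr rfl
      intro V _
      simp only [hu]
      ring
    have e7 : (H1 : ℝ) / (K : ℝ) ^ 3 = H1 / (2 * (K : ℝ) ^ 3) + H1 / (2 * (K : ℝ) ^ 3) := by
      field_simp
      ring
    rw [e6]
    linarith
  have h2 := count_bad X H1 f u (ε / (16 * Q * (K : ℝ) ^ 3) * (X : ℝ) ^ 2)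
    ((H1 : ℝ) / (2 * (K : ℝ) ^ 3)) hVN Bad (filter_subset _ _) hB
  have h3 : (Bad.card : ℝ) ≤ ε / 4 * X := by
    have e1 : (X : ℝ) / (4 * Q * (K : ℝ) ^ 3) ≤ (H1 : ℝ) / (2 * (K : ℝ) ^ 3) := by
      have e5 : (X : ℝ) / (4 * Q * (K : ℝ) ^ 3) = X / (2 * Q) / (2 * (K : ℝ) ^ 3) := by
        field_simp
        ring
      rw [e5]
      exact div_le_div_of_nonneg_right hH1lo (by positivity)
    have e2 : (Bad.card : ℝ) * (X / (4 * Q * (K : ℝ) ^ 3)) ≤
        ε / (16 * Q * (K : ℝ) ^ 3) * (X : ℝ) ^ 2 :=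
      (mul_le_mul_of_nonneg_left e1 (Nat.cast_nonneg _)).trans h2
    have e3 : ε / (16 * Q * (K : ℝ) ^ 3) * (X : ℝ) ^ 2 =
        (ε / 4 * X) * (X / (4 * Q * (K : ℝ) ^ 3)) := by
      field_simp
      ring
    rw [e3] at e2
    exact le_of_mul_le_mul_right e2 (by positivity)
  have h4 : ((Ioc (0 : ℤ) X).filter (fun x =>
        (repD C z0 X α β i j a0 b0 a1 b1 x : ℝ) * (Real.log X) ^ C < X)).card ≤
      H1 + Bad.card := by
    have e1 : (Ioc (0 : ℤ) X).filter (fun x =>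
        (repD C z0 X α β i j a0 b0 a1 b1 x : ℝ) * (Real.log X) ^ C < X) ⊆
        Ioc (0 : ℤ) H1 ∪ Bad := by
      intro x hx
      rw [mem_filter, mem_Ioc] at hx
      rw [mem_union, hBad, mem_filter, mem_Ioc, mem_Ioc]
      by_cases hxH : x ≤ H1
      · left; exact ⟨hx.1.1, hxH⟩
      · right; exact ⟨⟨by omega, hx.1.2⟩, hx.2⟩
    refine (card_le_card e1).trans ((card_union_le _ _).trans ?_)
    rw [Int.card_Ioc]
    simp
  have h5 : ((((Ioc (0 : ℤ) X).filter (fun x =>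
        (repD C z0 X α β i j a0 b0 a1 b1 x : ℝ) * (Real.log X) ^ C < X)).card : ℕ) : ℝ) ≤
      (H1 : ℝ) + Bad.card := by exact_mod_cast h4
  have h6 : 0 < ε * X := by positivity
  linarith


theorem wnorm_nonneg' {K : ℕ} (z R : ℕ) (c : Cond K → ℝ) : 0 ≤ wnorm z R c := by
  unfold wnorm
  exact Finset.sum_nonneg (fun D _ => by positivity)

/-- the numerical part of the von Neumann bound -/
theorem vn_num (E D : ℝ) (hE : 0 < E) (hD : 0 < D) :
    100 * Real.sqrt ((E / 200) ^ 2 + ((E ^ 2 / 20000) ^ 4 / D * D) ^ ((1 : ℝ) / 4)) ≤ E := by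
  have h1 : (E ^ 2 / 20000) ^ 4 / D * D = (E ^ 2 / 20000) ^ 4 := div_mul_cancel₀ _ hD.ne'
  have h2 : ((E ^ 2 / 20000) ^ 4) ^ ((1 : ℝ) / 4) = E ^ 2 / 20000 := by
    rw [← Real.rpow_natCast, ← Real.rpow_mul (by positivity)]
    norm_num
  rw [h1, h2]
  have h3 : Real.sqrt ((E / 200) ^ 2 + E ^ 2 / 20000) ≤ E / 100 := by
    rw [Real.sqrt_le_left (by positivity)]
    nlinarith [sq_nonneg E]
  linarith

open Classical in
theorem cls_82 (hMTC : MTCStmt) (hS3w : S3wStmt) (hEV1 : EV1Stmt) (hUNI : UNIStmt) (hGB : GBStmt)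
    (hVN : VNStmt) (hVV : VVlowStmt) (hWB : WBStmt) : CLSStmt := by
  obtain ⟨K0, hMTC⟩ := hMTC
  refine ⟨max K0 1, fun K hK ε hε => ?_⟩
  have hK0 : K0 ≤ K := (le_max_left _ _).trans hK
  have hK1 : 1 ≤ K := (le_max_right _ _).trans hK
  have hKR : (0 : ℝ) < K := by exact_mod_cast hK1
  obtain ⟨CK, hMTC⟩ := hMTC K 0 hK0
  set Q : ℕ := ⌈4 / ε⌉₊ + 1 with hQd
  have hQ1 : 1 ≤ Q := by omega
  have hQR : (0 : ℝ) < Q := by exact_mod_cast hQ1
  have hQε : (1 : ℝ) / Q ≤ ε / 4 := by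
    rw [div_le_iff₀ hQR]
    have e1 : 4 / ε ≤ Q := (Nat.le_ceil _).trans (by rw [hQd]; push_cast; linarith)
    rw [div_le_iff₀ hε] at e1
    linarith
  set E : ℝ := ε / (16 * Q * (K : ℝ) ^ 3) with hEd
  have hE : 0 < E := by positivity
  obtain ⟨sG, zsG, hGB⟩ := hGB 1
  obtain ⟨Bg, zsU, hBg, hUNI⟩ := hUNI 1 (sG + 1) (E / 200) (by positivity)
  set D : ℝ := 10000 * ((Bg : ℝ) + 1) ^ 8 with hDd
  have hD : 0 < D := by positivity
  set A0 : ℝ := (E ^ 2 / 20000) ^ 4 / D with hA0d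
  have hA0 : 0 < A0 := by positivity
  obtain ⟨s3, hS3w⟩ := hS3w (K + 0) K
  obtain ⟨se, zse, hEV1⟩ := hEV1 (K + 0) K
  obtain ⟨b3, hb3⟩ := decay (s3 + 1) CK CK A0 (Nat.succ_pos _) hA0 (Nat.cast_nonneg _)
  obtain ⟨be, hbe⟩ := decay (se + 1) CK CK (1 / 8) (Nat.succ_pos _) (by norm_num)
    (Nat.cast_nonneg _)
  obtain ⟨b, zsM, hb, hMTC⟩ := hMTC (max (max b3 be) 1)
  have hb1 : 1 ≤ b := (le_max_right _ _).trans hb
  obtain ⟨t3, ht3, hA3⟩ := hb3 b (((le_max_left _ _).trans (le_max_left _ _)).trans hb)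
  obtain ⟨te, hte, hAe⟩ := hbe b (((le_max_right _ _).trans (le_max_left _ _)).trans hb)
  obtain ⟨zs3, hS3w⟩ := hS3w t3
  obtain ⟨CV, zsV, hVV1⟩ := hVV (K + 0)
  obtain ⟨CV2, zsV2, hVV2⟩ := hVV 2
  refine ⟨zsG + zsU + zse + zsM + zs3 + zsV + zsV2, fun z0 hz0 C0 => ?_⟩
  obtain ⟨C1, z1M, hC1, hMTC⟩ := hMTC z0 (by omega) C0
  obtain ⟨z13, hS3w⟩ := hS3w z0 (by omega) (2 * b) (9 * b + 1) C0 C1
  obtain ⟨z1e, hEV1⟩ := hEV1 te z0 (by omega) (2 * b) 0 C1
  obtain ⟨z1U, hUNI⟩ := hUNI z0 (by omega) C0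
  obtain ⟨z1G, hGB⟩ := hGB z0 (by omega) Bg C0 (by omega)
  obtain ⟨z1V, hVV1⟩ := hVV1 z0 (by omega)
  obtain ⟨z1V2, hVV2⟩ := hVV2 z0 (by omega)
  obtain ⟨z1W, hWB⟩ := hWB K (9 * b + 1) C0
  obtain ⟨HA, hHA⟩ := T52.exists_z (9 * b) (z1M + z13 + z1e + z1V + z1W + C0 + z0 + 8)
  obtain ⟨HB, hHB⟩ := T52.exists_z Bg (z1U + z1G + z1V2 + z0 + 3)
  set F0 : ℝ := C1 * 2 ^ (K * (9 * b + 2)) * 2 with hF0
  have hC10 : 0 < C1 := by linarith
  have hF00 : 0 < F0 := by positivity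
  set K2 : ℝ := F0 * ((Bg : ℝ) + 1) with hK2d
  have hK2 : 0 < K2 := by positivity
  obtain ⟨X0, hX03, hX0⟩ := final_const K2 (4 * Q * (K : ℝ) ^ 3) (CV + CV2) C0 (by positivity)
    hK2.le
  refine ⟨Q * (HA + 1) + HB + X0 + 2 * Q + (CV + CV2 + 1) + (Bg + 1), fun X hX α β hMF => ?_⟩
  set C : ℕ := Q * (HA + 1) + HB + X0 + 2 * Q + (CV + CV2 + 1) + (Bg + 1) with hCd
  have hXX0 : X0 ≤ X := by omega
  have hX1 : 3 ≤ X := hX03.trans hXX0
  have hXR : (0 : ℝ) < X := by exact_mod_cast (by omega : 0 < X)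
  set H1 : ℕ := X / Q with hH1
  have hH1X : H1 ≤ X := Nat.div_le_self _ _
  have hH1HA : HA + 1 ≤ H1 := (Nat.le_div_iff_mul_le (by omega)).2 (by
    rw [mul_comm]
    omega)
  have hH1pos : 1 ≤ H1 := by omega
  have hH1R : (0 : ℝ) < H1 := by exact_mod_cast hH1pos
  obtain ⟨z, hzZ, hzl, hzu⟩ := hHA H1 (by omega)
  obtain ⟨zg, hzgZ, hzgl, hzgu⟩ := hHB X (by omega)
  have hz8 : 8 ≤ z := by omega
  have hzR : (8 : ℝ) ≤ z := by exact_mod_cast hz8
  obtain ⟨c, hWt, hwn, hwm, hMTC⟩ := hMTC z (by omega)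
  obtain ⟨hw0, hMTC⟩ := hMTC α β (fun e => e.elim0) (fun e => e.elim0) hMF
    ⟨fun e => e.elim0, fun e => e.elim0⟩
  have hM := hMTC H1 hzl hzu
  have hwm0 : 0 < wmean z (z ^ b) c := by linarith
  -- sieve system
  set AA : Fin (K + 0) → ℤ := Fin.append α (fun e => e.elim0) with hAA
  set BB : Fin (K + 0) → ℤ := Fin.append β (fun e => e.elim0) with hBB
  have hPPα : ∀ j, ∀ q ∈ PP z0 z, ¬ ((q : ℤ) ∣ α j) := by
    intro j q hq hd
    unfold PP at hq
    rw [mem_filter, mem_Ioc] at hq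
    have := hMF.large j q hq.2 hd
    omega
  have hAAP : ∀ j, ∀ q ∈ PP z0 z, ¬ ((q : ℤ) ∣ AA j) :=
    append_zero α _ (fun x => ∀ q ∈ PP z0 z, ¬ ((q : ℤ) ∣ x)) hPPα
  have hVVpos : 0 < VV z0 z AA BB := by
    have h1 := hVV1 z (by omega) AA BB hAAP
    refine lt_of_lt_of_le ?_ h1
    have : 0 < Real.log z := Real.log_pos (by linarith)
    positivity
  have hzX : z ≤ X := by
    calc z = z ^ 1 := (pow_one z).symm
      _ ≤ z ^ (9 * b) := Nat.pow_le_pow_right (by omega) (by omega)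
      _ ≤ X := hzl.trans hH1X
  have hzgX : zg ≤ X := by
    calc zg = zg ^ 1 := (pow_one zg).symm
      _ ≤ zg ^ Bg := Nat.pow_le_pow_right (by omega) (by omega)
      _ ≤ X := hzgl
  have hlogX : 0 < Real.log X := Real.log_pos (by exact_mod_cast (by omega : 1 < X))
  have hlogz : 0 < Real.log z := Real.log_pos (by linarith)
  have hlogzg : 0 < Real.log zg := Real.log_pos (by exact_mod_cast (by omega : 1 < zg))
  have hlzX : Real.log z ≤ Real.log X :=
    Real.log_le_log (by linarith) (by exact_mod_cast hzX)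
  have hlzgX : Real.log zg ≤ Real.log X :=
    Real.log_le_log (by exact_mod_cast (by omega : 0 < zg)) (by exact_mod_cast hzgX)
  have hVVinv : (VV z0 z AA BB)⁻¹ ≤ (Real.log X) ^ CV := by
    have h1 := hVV1 z (by omega) AA BB hAAP
    rw [div_le_iff₀ (by positivity)] at h1
    rw [inv_le_iff_one_le_mul₀ hVVpos]
    calc (1 : ℝ) ≤ VV z0 z AA BB * (Real.log z) ^ CV := h1
      _ ≤ VV z0 z AA BB * (Real.log X) ^ CV := by
          apply mul_le_mul_of_nonneg_left _ hVVpos.le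
          exact pow_le_pow_left₀ hlogz.le hlzX _
      _ = (Real.log X) ^ CV * VV z0 z AA BB := mul_comm _ _
  -- the majorant
  set nw : ℤ → ℝ := fun V => nuw z0 z (z ^ b) AA BB c α β V with hnw
  have hnwb : ∀ V ∈ Ioc (0 : ℤ) H1, 0 ≤ nw V ∧ nw V ≤ F0 * (Real.log X) ^ CV := by
    intro V hV
    rw [mem_Ioc] at hV
    have h1 := nu_nonneg' z0 z AA BB V hVVpos
    have h2 := hw0 V
    have hVz : V ≤ (z : ℤ) ^ (9 * b + 1) := hV.2.trans (by exact_mod_cast hzu)
    have h3 := hWB z (by omega) z0 (z ^ b) C1 c α β hMF hWt.bd V (by omega) hVz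
    rw [abs_of_nonneg h2] at h3
    simp only [hnw, nuw]
    constructor
    · exact div_nonneg (mul_nonneg h1.1 h2) hwm0.le
    · rw [div_le_iff₀ hwm0]
      calc nu z0 z AA BB V * wt z (z ^ b) c α β V ≤
          (Real.log X) ^ CV * (C1 * 2 ^ (K * (9 * b + 1 + 1))) :=
            mul_le_mul (h1.2.trans hVVinv) h3 h2 (by positivity)
        _ = F0 * (Real.log X) ^ CV * (1 / 2) := by
            rw [hF0]
            ring
        _ ≤ F0 * (Real.log X) ^ CV * wmean z (z ^ b) c :=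
            mul_le_mul_of_nonneg_left hwm (by positivity)
  -- mass
  have hmass1 : (H1 : ℝ) / K ≤ ∑ V ∈ (Ioc (0 : ℤ) H1).filter (fun V =>
      ∃ i j, i < j ∧ Prime (α i * V + β i) ∧ Prime (α j * V + β j)), nw V := by
    rw [div_le_iff₀ hKR]
    have e1 : (∑ V ∈ (Ioc (0 : ℤ) H1).filter (fun V =>
        ∃ i j, i < j ∧ Prime (α i * V + β i) ∧ Prime (α j * V + β j)), nw V) * K =
        (∑ U ∈ (Ioc (0 : ℤ) H1).filter (fun U =>
          ∃ i j, i < j ∧ Prime (α i * U + β i) ∧ Prime (α j * U + β j)),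
          nu z0 z AA BB U * wt z (z ^ b) c α β U * K) / wmean z (z ^ b) c := by
      rw [Finset.sum_mul, Finset.sum_div]
      apply Finset.sum_congr rfl
      intro V _
      simp only [hnw, nuw]
      ring
    rw [e1, le_div_iff₀ hwm0]
    exact hM
  obtain ⟨i, j, hij, hmass2⟩ := pigeon_pair (Ioc (0 : ℤ) H1) nw (fun V hV => (hnwb V hV).1)
    (fun i V => Prime (α i * V + β i)) ((H1 : ℝ) / K) (by positivity) hmass1
  refine ⟨i, j, hij, fun a0 b0 a1 b1 h0 h1 => ?_⟩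
  -- the form `a1 y + b1`
  have hSF : SF C0 z0 (![a1] : Fin 1 → ℤ) := by
    constructor
    · intro e
      fin_cases e
      simp only [Fin.zero_eta, Matrix.cons_val_zero]
      rw [abs_of_pos h1.pos]
      exact h1.bd.1
    · intro e q hq hd
      fin_cases e
      exact h1.large q hq hd
  have hd1 : ∀ e : Fin 1, |(![b1] : Fin 1 → ℤ) e| ≤ C0 := by
    intro e
    fin_cases e
    exact h1.bd.2
  obtain ⟨hg1, hg2⟩ := hGB zg (by omega) a0 b0 ![a1] ![b1] h0 hSF hd1 X hzgl hzgu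
  have hU := hUNI zg (by omega) a0 b0 ![a1] ![b1] h0 hSF hd1 X hzgl hzgu
  -- bounds for `gg`
  have hPP2 : ∀ j, ∀ q ∈ PP z0 zg, ¬ ((q : ℤ) ∣ (Fin.cons a0 ![a1] : Fin (1 + 1) → ℤ) j) := by
    intro j q hq hd
    unfold PP at hq
    rw [mem_filter, mem_Ioc] at hq
    refine Fin.cases (motive := fun j => (q : ℤ) ∣ (Fin.cons a0 ![a1] : Fin (1 + 1) → ℤ) j → False)
      ?_ ?_ j hd
    · intro h
      have := h0.large q hq.2 h
      omega
    · intro e h
      rw [Fin.cons_succ] at h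
      fin_cases e
      have := h1.large q hq.2 h
      omega
  have hV2 := hVV2 zg (by omega) (Fin.cons a0 ![a1]) (Fin.cons b0 ![b1]) hPP2
  have hV2pos : 0 < VV z0 zg (Fin.cons a0 ![a1] : Fin (1 + 1) → ℤ) (Fin.cons b0 ![b1]) :=
    lt_of_lt_of_le (by positivity) hV2
  have hgb : ∀ y ∈ Ioc (0 : ℤ) X, 0 ≤ gg z0 zg X a0 b0 ![a1] ![b1] y ∧
      gg z0 zg X a0 b0 ![a1] ![b1] y ≤ ((Bg : ℝ) + 1) * (Real.log X) ^ CV2 := by
    intro y hy
    obtain ⟨e1, e2, -⟩ := hg1 y hy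
    refine ⟨e1, e2.trans ?_⟩
    rw [div_eq_mul_inv]
    apply mul_le_mul_of_nonneg_left _ (by positivity)
    rw [inv_le_iff_one_le_mul₀ hV2pos]
    rw [div_le_iff₀ (by positivity)] at hV2
    calc (1 : ℝ) ≤ VV z0 zg (Fin.cons a0 ![a1] : Fin (1 + 1) → ℤ) (Fin.cons b0 ![b1]) *
          (Real.log zg) ^ CV2 := hV2
      _ ≤ VV z0 zg (Fin.cons a0 ![a1] : Fin (1 + 1) → ℤ) (Fin.cons b0 ![b1]) *
          (Real.log X) ^ CV2 := by
          apply mul_le_mul_of_nonneg_left _ hV2pos.le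
          exact pow_le_pow_left₀ hlogzg.le hlzgX _
      _ = _ := mul_comm _ _
  refine cls_core (zg := zg) (X := X) (H1 := H1) Q ε hε hK1 hQ1 hQε (by omega) hH1 α β i j a0 b0
    a1 b1 h0 h1 nw (F0 * (Real.log X) ^ CV) (((Bg : ℝ) + 1) * (Real.log X) ^ CV2)
    (by positivity) (by positivity) hnwb hgb ?_ ?_ ?_ ?_
  · intro q hq
    calc X ≤ zg ^ (Bg + 1) := hzgu
      _ ≤ q ^ (Bg + 1) := Nat.pow_le_pow_left hq.le _
      _ ≤ q ^ C := Nat.pow_le_pow_right (by omega) (by omega)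
  · rw [← Finset.sum_filter]
    refine le_trans (le_of_eq ?_) hmass2
    field_simp
  · intro w hw
    have hf : ∀ n ∈ Ioc (0 : ℤ) H1, 0 ≤ (if Prime (α i * n + β i) ∧ Prime (α j * n + β j) then
        nw n else 0) ∧ (if Prime (α i * n + β i) ∧ Prime (α j * n + β j) then nw n else 0) ≤
        nw n := by
      intro n hn
      have := (hnwb n hn).1
      split_ifs
      · exact ⟨this, le_rfl⟩
      · exact ⟨le_rfl, this⟩
    -- first moment of the majorant
    have hz2b : (z ^ b : ℕ) ≤ z ^ (2 * b) := Nat.pow_le_pow_right (by omega) (by omega)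
    have hfirst : ∑ n ∈ Ioc (0 : ℤ) H1, nw n ≤ 2 * X := by
      have e1 := hEV1 z (by omega) (z ^ b) (z ^ (2 * b)) hz2b le_rfl AA BB hAAP α β
        Finset.univ c hWt 1 0 ∅ (by simp) (by
          intro q hq _ j _ hd
          rw [mul_one] at hd
          unfold PP at hq
          rw [mem_filter, mem_Ioc] at hq
          have := hMF.large j q hq.2 hd
          omega) (by
          intro q hq j _
          left
          intro hd
          rw [mul_one] at hd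
          unfold PP at hq
          rw [mem_filter, mem_Ioc] at hq
          have := hMF.large j q hq.2 hd
          omega) 0 H1
      have e2 : ∑ m ∈ Ioc (0 : ℤ) (0 + H1), nu z0 z AA BB m * wt z (z ^ b) c α β (1 * m + 0) =
          (∑ n ∈ Ioc (0 : ℤ) H1, nw n) * wmean z (z ^ b) c := by
        rw [Finset.sum_mul, zero_add]
        apply Finset.sum_congr rfl
        intro m _
        simp only [hnw, nuw, one_mul, add_zero]
        field_simp
      rw [e2] at e1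
      have e3 : (1 / 2 : ℝ) ^ te * (wnorm z (z ^ b) c + 1) * H1 ≤ 1 / 8 * H1 := by
        apply mul_le_mul_of_nonneg_right _ hH1R.le
        have e4 : wnorm z (z ^ b) c + 1 ≤ ((CK : ℝ) * (b : ℝ) ^ CK + 1) ^ 8 := by
          have e5 : wnorm z (z ^ b) c + 1 ≤ (CK : ℝ) * (b : ℝ) ^ CK + 1 := by linarith
          have e6 : (1 : ℝ) ≤ (CK : ℝ) * (b : ℝ) ^ CK + 1 := by
            have : (0 : ℝ) ≤ (CK : ℝ) * (b : ℝ) ^ CK := by positivity
            linarith
          exact e5.trans (le_self_pow₀ e6 (by norm_num))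
        exact (mul_le_mul_of_nonneg_left e4 (by positivity)).trans hAe
      have e7 : ((z ^ (2 * b) : ℕ) : ℝ) * (z : ℝ) ^ (se * (te + 1)) ≤ 1 / 8 * H1 := by
        have e8 : se * (te + 1) ≤ 5 * b := by
          have : se * (te + 1) ≤ (se + 1) * (te + 1) := Nat.mul_le_mul_right _ (by omega)
          omega
        have e9 : (z : ℝ) ^ (2 * b) * (z : ℝ) ^ (se * (te + 1)) * 8 ≤ (z : ℝ) ^ (9 * b) := by
          calc (z : ℝ) ^ (2 * b) * (z : ℝ) ^ (se * (te + 1)) * 8 ≤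
              (z : ℝ) ^ (2 * b) * (z : ℝ) ^ (5 * b) * (z : ℝ) ^ (2 * b) := by
                apply mul_le_mul _ _ (by norm_num) (by positivity)
                · apply mul_le_mul_of_nonneg_left _ (by positivity)
                  exact pow_le_pow_right₀ (by linarith) e8
                · exact hzR.trans (le_self_pow₀ (by linarith) (by omega))
            _ = (z : ℝ) ^ (9 * b) := by rw [← pow_add, ← pow_add]; congr 1; ring
        have e10 : (z : ℝ) ^ (9 * b) ≤ H1 := by exact_mod_cast hzl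
        push_cast
        linarith
      have e11 := (abs_le.1 e1).2
      have e12 : (∑ n ∈ Ioc (0 : ℤ) H1, nw n) * wmean z (z ^ b) c ≤
          2 * H1 * wmean z (z ^ b) c := by
        have : (1 / 2 : ℝ) * H1 ≤ wmean z (z ^ b) c * H1 :=
          mul_le_mul_of_nonneg_right hwm hH1R.le
        linarith
      have e13 := le_of_mul_le_mul_right e12 hwm0
      have e14 : (H1 : ℝ) ≤ X := by exact_mod_cast hH1X
      linarith
    -- pair correlations of the majorant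
    have hsecond := hS3w z (by omega) (z ^ b) (z ^ (2 * b)) hz2b le_rfl AA BB
      (append_zero2 α β _ _ (fun x y => |x| ≤ (z : ℤ) ^ (9 * b + 1) ∧ |y| ≤ (z : ℤ) ^ (9 * b + 1) ∧
        ∀ q ∈ PP z0 z, ¬ ((q : ℤ) ∣ x)) (fun j => by
          have e1 : (C0 : ℤ) ≤ (z : ℤ) ^ (9 * b + 1) := by
            have e2 : C0 ≤ z ^ (9 * b + 1) :=
              (by omega : C0 ≤ z).trans (Nat.le_self_pow (by omega) z)
            exact_mod_cast e2
          refine ⟨?_, (hMF.bd j).2.trans e1, hPPα j⟩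
          rw [abs_of_pos (hMF.pos j).1]
          exact (hMF.bd j).1.trans e1)) α β hMF c hWt hwm 0 H1 le_rfl (by positivity) (by
          have e8 : s3 * (t3 + 1) ≤ 5 * b := by
            have : s3 * (t3 + 1) ≤ (s3 + 1) * (t3 + 1) := Nat.mul_le_mul_right _ (by omega)
            omega
          calc (z ^ (2 * b)) ^ 2 * z ^ (s3 * (t3 + 1)) ≤ (z ^ (2 * b)) ^ 2 * z ^ (5 * b) :=
                Nat.mul_le_mul_left _ (Nat.pow_le_pow_right (by omega) e8)
            _ = z ^ (9 * b) := by rw [← pow_mul, ← pow_add]; congr 1; ring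
            _ ≤ H1 := hzl) hzu
    rw [zero_add] at hsecond
    have hVN' := hVN X H1 (fun V => if Prime (α i * V + β i) ∧ Prime (α j * V + β j) then nw V
      else 0) nw (fun y => gg z0 zg X a0 b0 ![a1] ![b1] y - 1) w (E / 200) A0 D hH1pos hH1X
      (by positivity) hA0.le hD.le hf hfirst hw ?_ ?_ hU
    · refine hVN'.trans ?_
      apply mul_le_mul_of_nonneg_right _ (by positivity)
      exact vn_num E D hE hD
    · refine hsecond.trans ?_
      have e1 : (wnorm z (z ^ b) c + 1) ^ 8 ≤ ((CK : ℝ) * (b : ℝ) ^ CK + 1) ^ 8 := by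
        apply pow_le_pow_left₀ _ (by linarith)
        have := wnorm_nonneg' z (z ^ b) c
        linarith
      have e2 : (H1 : ℝ) ^ 3 ≤ (X : ℝ) ^ 3 :=
        pow_le_pow_left₀ hH1R.le (by exact_mod_cast hH1X) 3
      calc (1 / 2 : ℝ) ^ t3 * (wnorm z (z ^ b) c + 1) ^ 8 * (H1 : ℝ) ^ 3 ≤
          (1 / 2 : ℝ) ^ t3 * ((CK : ℝ) * (b : ℝ) ^ CK + 1) ^ 8 * (X : ℝ) ^ 3 :=
            mul_le_mul (mul_le_mul_of_nonneg_left e1 (by positivity)) e2 (by positivity)
              (by positivity)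
        _ ≤ A0 * (X : ℝ) ^ 3 := mul_le_mul_of_nonneg_right hA3 (by positivity)
    · exact hg2
  · have e1 := hX0 X hXX0 C (by omega)
    refine le_trans (le_of_eq ?_) e1
    rw [hK2d, pow_add]
    ring

end Pool.Agent.Lib.MT2.C82
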