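import Mathlib
import Pool.Agent.Lib.MT2.StmtsD
import Pool.Agent.Lib.MT2.A_52

/-!
THEOREM (D), from CLS, FIXC and RAM.
-/

set_option autoImplicit false

namespace Pool.Agent.Lib.MT2.D52

open Finset
open Pool.Agent.Lib.TwinAll (PP Rough om VV nu ee)
open ArithmeticFunction (cardFactors)
open Pool.Agent.Lib.MT2.T52 (dd LL rho av dd_pos LL_pos dd_dvd_LL dd_dvd_rho dd_mul_av av_not av_inj
  omega_le omega_le_self primeMult)

/-- counting the exceptional numbers -/
lemma count52 {N M L X : ℕ} {ε ε' : ℝ} (hM : 0 < M) (hε' : 0 ≤ ε') (Bad : Finset ℕ)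
    (hBad : (Bad.card : ℝ) ≤ ε * M) (S : Finset ℕ) (hS : ∀ n ∈ S, n ≤ N)
    (hcl : ∀ ν ∈ range M, ν ∉ Bad → ∃ ae : ℕ, 0 < ae ∧ ae ≤ L ∧ ∀ t ∈ range ae,
      ∃ B : Finset ℤ, (B.card : ℝ) ≤ ε' * X ∧
        ∀ n ∈ S, n % (ae * M) = ν + M * t → (n / (ae * M) = 0 ∨ ((n / (ae * M) : ℕ) : ℤ) ∈ B)) :
    (S.card : ℝ) ≤ ε * M * (N / M + 1) + M * (L * (ε' * X + 1)) := by
  classical
  have h1 : ((S.filter (fun n => n % M ∈ Bad)).card : ℝ) ≤ ε * M * (N / M + 1) := by
    have h2 : (S.filter (fun n => n % M ∈ Bad)).card ≤ (Bad ×ˢ range (N / M + 1)).card := by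
      apply card_le_card_of_injOn (fun n => (n % M, n / M))
      · intro n hn
        rw [mem_coe, mem_filter] at hn
        rw [mem_coe, mem_product, mem_range]
        exact ⟨hn.2, Nat.lt_succ_of_le (Nat.div_le_div_right (hS n hn.1))⟩
      · intro n _ n' _ heq
        have h3 : n % M = n' % M := (Prod.ext_iff.1 heq).1
        have h4 : n / M = n' / M := (Prod.ext_iff.1 heq).2
        rw [← Nat.div_add_mod n M, ← Nat.div_add_mod n' M, h3, h4]
    rw [card_product, card_range] at h2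
    have h3 : ((N / M : ℕ) : ℝ) ≤ (N : ℝ) / M := Nat.cast_div_le
    have h4 : (0 : ℝ) ≤ Bad.card := by positivity
    calc ((S.filter (fun n => n % M ∈ Bad)).card : ℝ) ≤ ((Bad.card * (N / M + 1) : ℕ) : ℝ) := by
          exact_mod_cast h2
      _ = (Bad.card : ℝ) * (((N / M : ℕ) : ℝ) + 1) := by push_cast; ring
      _ ≤ Bad.card * (N / M + 1) := by
          apply mul_le_mul_of_nonneg_left _ h4
          linarith
      _ ≤ _ := by
          apply mul_le_mul_of_nonneg_right hBad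
          positivity
  have h2 : ∀ ν ∈ (range M).filter (fun ν => ν ∉ Bad),
      ((S.filter (fun n => n % M = ν)).card : ℝ) ≤ L * (ε' * X + 1) := by
    intro ν hν
    rw [mem_filter] at hν
    obtain ⟨ae, hae, haeL, hB⟩ := hcl ν hν.1 hν.2
    have h3 : S.filter (fun n => n % M = ν) ⊆ (range ae).biUnion (fun t =>
        S.filter (fun n => n % (ae * M) = ν + M * t)) := by
      intro n hn
      rw [mem_filter] at hn
      rw [mem_biUnion]
      refine ⟨n % (ae * M) / M, ?_, ?_⟩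
      · rw [mem_range, Nat.div_lt_iff_lt_mul hM]
        exact Nat.mod_lt _ (Nat.mul_pos hae hM)
      · rw [mem_filter]
        refine ⟨hn.1, ?_⟩
        have h4 : n % (ae * M) % M = ν := by
          rw [Nat.mod_mod_of_dvd _ (Dvd.intro_left _ rfl)]
          exact hn.2
        have h5 := Nat.mod_add_div (n % (ae * M)) M
        rw [h4] at h5
        exact h5.symm
    have h4 : ∀ t ∈ range ae,
        ((S.filter (fun n => n % (ae * M) = ν + M * t)).card : ℝ) ≤ ε' * X + 1 := by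
      intro t ht
      obtain ⟨B, hB1, hB2⟩ := hB t ht
      have h5 : (S.filter (fun n => n % (ae * M) = ν + M * t)).card ≤ (insert 0 B).card := by
        apply card_le_card_of_injOn (fun n => ((n / (ae * M) : ℕ) : ℤ))
        · intro n hn
          rw [mem_coe, mem_filter] at hn
          rw [mem_coe, mem_insert]
          rcases hB2 n hn.1 hn.2 with h6 | h6
          · left
            show ((n / (ae * M) : ℕ) : ℤ) = 0
            rw [h6]
            rfl
          · right
            exact h6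
        · intro n hn n' hn' heq
          rw [mem_coe, mem_filter] at hn hn'
          have heq' : ((n / (ae * M) : ℕ) : ℤ) = ((n' / (ae * M) : ℕ) : ℤ) := heq
          have h6 : n / (ae * M) = n' / (ae * M) := by exact_mod_cast heq'
          rw [← Nat.div_add_mod n (ae * M), ← Nat.div_add_mod n' (ae * M), h6, hn.2, hn'.2]
      have h6 : (insert 0 B).card ≤ B.card + 1 := card_insert_le _ _
      have h7 : ((S.filter (fun n => n % (ae * M) = ν + M * t)).card : ℝ) ≤ (B.card : ℝ) + 1 := by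
        exact_mod_cast h5.trans h6
      linarith
    have h5 : (0 : ℝ) ≤ ε' * X + 1 := by positivity
    calc ((S.filter (fun n => n % M = ν)).card : ℝ) ≤
          ((∑ t ∈ range ae, (S.filter (fun n => n % (ae * M) = ν + M * t)).card : ℕ) : ℝ) := by
          exact_mod_cast (card_le_card h3).trans card_biUnion_le
      _ ≤ ∑ t ∈ range ae, (ε' * X + 1) := by
          push_cast
          exact sum_le_sum h4
      _ = ae * (ε' * X + 1) := by rw [sum_const, card_range, nsmul_eq_mul]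
      _ ≤ L * (ε' * X + 1) := by
          apply mul_le_mul_of_nonneg_right _ h5
          exact_mod_cast haeL
  have h3 : ((S.filter (fun n => ¬ n % M ∈ Bad)).card : ℝ) ≤ M * (L * (ε' * X + 1)) := by
    have h4 : S.filter (fun n => ¬ n % M ∈ Bad) ⊆ ((range M).filter (fun ν => ν ∉ Bad)).biUnion
        (fun ν => S.filter (fun n => n % M = ν)) := by
      intro n hn
      rw [mem_filter] at hn
      rw [mem_biUnion]
      exact ⟨n % M, mem_filter.2 ⟨mem_range.2 (Nat.mod_lt _ hM), hn.2⟩, mem_filter.2 ⟨hn.1, rfl⟩⟩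
    have h5 : (0 : ℝ) ≤ L * (ε' * X + 1) := by positivity
    calc ((S.filter (fun n => ¬ n % M ∈ Bad)).card : ℝ) ≤
          ((∑ ν ∈ (range M).filter (fun ν => ν ∉ Bad), (S.filter (fun n => n % M = ν)).card : ℕ) :
            ℝ) := by
          exact_mod_cast (card_le_card h4).trans card_biUnion_le
      _ ≤ ∑ ν ∈ (range M).filter (fun ν => ν ∉ Bad), (L * (ε' * X + 1)) := by
          push_cast
          exact sum_le_sum h2
      _ = ((range M).filter (fun ν => ν ∉ Bad)).card * (L * (ε' * X + 1)) := by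
          rw [sum_const, nsmul_eq_mul]
      _ ≤ M * (L * (ε' * X + 1)) := by
          apply mul_le_mul_of_nonneg_right _ h5
          have := card_filter_le (range M) (fun ν => ν ∉ Bad)
          rw [card_range] at this
          exact_mod_cast this
  have h4 : S.card = (S.filter (fun n => n % M ∈ Bad)).card +
      (S.filter (fun n => ¬ n % M ∈ Bad)).card :=
    (card_filter_add_card_filter_not _).symm
  rw [h4]
  push_cast
  linarith

/-- almost primes: few prime factors -/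
lemma few52 {X C1 t : ℕ} (hX : 2 ≤ X) (ht : 0 < t) (htX : t ≤ X ^ 4)
    (h : ∀ q : ℕ, q.Prime → q ∣ t → X ≤ q ^ C1) : cardFactors t ≤ 4 * (C1 + 1) := by
  classical
  have hex : ∃ z : ℕ, X ≤ z ^ (C1 + 1) := ⟨X, Nat.le_self_pow (by omega) X⟩
  obtain ⟨z, hz⟩ : ∃ z, z = Nat.find hex := ⟨_, rfl⟩
  have h1 : X ≤ z ^ (C1 + 1) := by rw [hz]; exact Nat.find_spec hex
  have h2 : 2 ≤ z := by
    by_contra hcon
    push Not at hcon
    have h3 : z ^ (C1 + 1) ≤ 1 := by
      calc z ^ (C1 + 1) ≤ 1 ^ (C1 + 1) := Nat.pow_le_pow_left (by omega) _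
        _ = 1 := one_pow _
    omega
  refine omega_le h2 ht (fun q hq hqt => ?_) (htX.trans ?_)
  · rw [hz]
    apply Nat.find_min'
    calc X ≤ q ^ C1 := h q hq hqt
      _ ≤ q ^ (C1 + 1) := Nat.pow_le_pow_right hq.pos (by omega)
  · calc X ^ 4 ≤ (z ^ (C1 + 1)) ^ 4 := Nat.pow_le_pow_left h1 _
      _ = z ^ (4 * (C1 + 1)) := by rw [← pow_mul, mul_comm]

/-- the property of a summand in (D) -/
def PD (C N m r : ℕ) (δ δ' : ℤ) (n a : ℕ) : Prop :=
  ∃ a' b b' : ℕ, n = a + b ∧ (a' : ℤ) = a + δ ∧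
    (b' : ℤ) = b + δ' ∧ PrimeMult C a ∧ PrimeMult C a' ∧ PrimeMult C b ∧ 0 < b' ∧
    NearPrime C N b' ∧
    ArithmeticFunction.cardFactors a' = ArithmeticFunction.cardFactors a ∧
    ArithmeticFunction.cardFactors b = ArithmeticFunction.cardFactors a ∧
    ArithmeticFunction.cardFactors a ≡ r [MOD m]

lemma pm_pos {C x : ℕ} (h : PrimeMult C x) : 0 < x := by
  obtain ⟨d, p, rfl, h1, _, h3⟩ := h
  exact Nat.mul_pos (by omega) h3.pos

/-- one value -/
lemma point52 {K : ℕ} {r : Fin K → ℕ} (hr : ∀ i j, i < j → r i < r j ∧ (r j - r i) ∣ r i)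
    {C Cw G w N X C1 m c r0 M U0 n : ℕ}
    (hcm : ∀ i j, i < j → cardFactors (r j - r i) ≡ c [MOD m])
    (hG : G + 1 ≡ r0 + c [MOD m]) (hw : 1 ≤ w) (hLw : LL r ≤ w) (hX2 : 2 ≤ X)
    (hNX : N ≤ X ^ 2) (hN2 : N + 2 ≤ X ^ 4) (hC : Cw + 4 * (C1 + 1) ≤ C) (hnN : n ≤ N)
    {pos : Bool} {δ' : ℤ} (hδ' : δ' = 2 ∨ δ' = -2) {α β h : Fin K → ℤ}
    (hmain : ∀ j, (LL r : ℤ) * M = h j * α j ∧ (LL r : ℤ) * U0 + 2 * (r j : ℤ) = h j * β j ∧
      0 < h j ∧ h j ≤ Cw ∧ cardFactors (h j).toNat = G)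
    (hMF : MF Cw w α β) {i j : Fin K} (hij : i < j) {x ρ : ℤ}
    (hn : (n : ℤ) = ((LL r / dd r i j : ℕ) : ℤ) * M * x + ρ) {h0 a0 b0 h1 a1 b1 : ℤ}
    (hb : ((LL r / dd r i j : ℕ) : ℤ) * M = h0 * a0 ∧
      ρ - ((LL r / dd r i j : ℕ) : ℤ) * U0 - 2 * ((rho pos r i j / dd r i j : ℕ) : ℤ) = h0 * b0 ∧
      0 < h0 ∧ h0 ≤ Cw ∧ cardFactors h0.toNat = G - cardFactors (dd r i j) ∧ BF Cw w a0 b0)
    (hGd : cardFactors (dd r i j) ≤ G)
    (hb' : ((LL r / dd r i j : ℕ) : ℤ) * M = h1 * a1 ∧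
      ρ - ((LL r / dd r i j : ℕ) : ℤ) * U0 - 2 * ((rho pos r i j / dd r i j : ℕ) : ℤ) + δ' =
        h1 * b1 ∧ 0 < h1 ∧ h1 ≤ Cw ∧ BF Cw w a1 b1)
    {V : ℤ} (hV : 0 < V) (hpi : Prime (α i * V + β i)) (hpj : Prime (α j * V + β j))
    (h0V : 0 < a0 * (x - V) + b0) (hp0 : Prime (a0 * (x - V) + b0))
    (h1V : 0 < a1 * (x - V) + b1)
    (hro : ∀ q : ℕ, q.Prime → (q : ℤ) ∣ a1 * (x - V) + b1 → X ≤ q ^ C1) :
    1 ≤ av pos r i j (U0 + M * V.toNat) ∧ av pos r i j (U0 + M * V.toNat) ≤ n ∧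
      PD C N m r0 (if pos then 2 else -2) δ' n (av pos r i j (U0 + M * V.toNat)) := by
  set v := V.toNat with hv
  have hvV : (v : ℤ) = V := Int.toNat_of_nonneg hV.le
  set U := U0 + M * v with hU
  have hUc : (U : ℤ) = U0 + M * V := by rw [hU]; push_cast; rw [hvV]
  set a := av pos r i j U with ha
  have hd := dd_pos hr i j
  have hdL : dd r i j ≤ LL r := Nat.le_of_dvd (LL_pos hr) (dd_dvd_LL i j)
  have hdw : dd r i j ≤ w := hdL.trans hLw
  have hddeq : dd r i j = r j - r i := by unfold dd; rw [if_pos hij]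
  have hCw : Cw ≤ C := by omega
  have hRw : ∀ t : ℤ, Rough w w t := by
    intro t q hq
    unfold PP at hq
    rw [mem_filter, mem_Ioc] at hq
    omega
  -- values of the main forms
  have hval : ∀ j', (LL r : ℤ) * U + 2 * r j' = h j' * (α j' * V + β j') := by
    intro j'
    obtain ⟨e1, e2, _⟩ := hmain j'
    rw [hUc]
    linear_combination V * e1 + e2
  have hposV : ∀ j', 0 < α j' * V + β j' := by
    intro j'
    obtain ⟨h1, h2⟩ := hMF.pos j'
    nlinarith
  have hsmall := hMF.small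
  have hcop := hMF.cop
  -- general prime multiple
  have key : ∀ b : Bool, PrimeMult C (av b r i j U) ∧
      cardFactors (dd r i j) + cardFactors (av b r i j U) = G + 1 := by
    intro b
    have h1 := dd_mul_av hr b i j U
    cases b with
    | false =>
      obtain ⟨_, _, h3, h4, h5⟩ := hmain j
      refine primeMult (w := w) (z := w) hCw hd hdw (s := (LL r : ℤ) * U + 2 * r j)
        (α := α j) (β := β j) (V := V) (h := h j) ?_ (hval j) h3 h4 h5 (hcop j) ?_ (hposV j)
        (hRw _) hpj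
      · have : ((dd r i j : ℤ) * (av false r i j U : ℕ)) = ((LL r * U + 2 * rho false r i j : ℕ) : ℤ) := by
          rw [← h1]; push_cast; ring
        rw [this]
        simp [rho]
      · intro q hq hqw
        exact hsmall j q hq hqw
    | true =>
      obtain ⟨_, _, h3, h4, h5⟩ := hmain i
      refine primeMult (w := w) (z := w) hCw hd hdw (s := (LL r : ℤ) * U + 2 * r i)
        (α := α i) (β := β i) (V := V) (h := h i) ?_ (hval i) h3 h4 h5 (hcop i) ?_ (hposV i)
        (hRw _) hpi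
      · have : ((dd r i j : ℤ) * (av true r i j U : ℕ)) = ((LL r * U + 2 * rho true r i j : ℕ) : ℤ) := by
          rw [← h1]; push_cast; ring
        rw [this]
        simp [rho]
      · intro q hq hqw
        exact hsmall i q hq hqw
  have hk1 := key pos
  have hk2 := key (!pos)
  -- the second summand
  obtain ⟨e1, e2, e3, e4, e5, e6⟩ := hb
  obtain ⟨f1, f2, f3, f4, f5⟩ := hb'
  have hac : (a : ℤ) = ((LL r / dd r i j : ℕ) : ℤ) * U +
      2 * ((rho pos r i j / dd r i j : ℕ) : ℤ) := by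
    rw [ha]; unfold av; push_cast; ring
  have hbv : (n : ℤ) - a = h0 * (a0 * (x - V) + b0) := by
    rw [hn, hac, hUc]
    linear_combination (x - V) * e1 + e2
  have hbv' : (n : ℤ) - a + δ' = h1 * (a1 * (x - V) + b1) := by
    rw [hn, hac, hUc]
    linear_combination (x - V) * f1 + f2
  have hbpos : 0 < (n : ℤ) - a := by rw [hbv]; exact mul_pos e3 h0V
  have hbpos' : 0 < (n : ℤ) - a + δ' := by rw [hbv']; exact mul_pos f3 h1V
  have han : a < n := by omega
  set b := n - a with hb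
  have hba : n = a + b := by omega
  have hbz : (b : ℤ) = n - a := by omega
  have hkb := primeMult (C := C) (Cw := Cw) (G := G - cardFactors (dd r i j)) (w := w) (z := w)
    hCw (x := b) (d := 1) (s := b) (h := h0) (α := a0) (β := b0) (V := x - V) one_pos
    hw (by push_cast; ring) (by rw [hbz]; exact hbv) e3 e4 e5 e6.cop e6.small h0V (hRw _) hp0
  rw [ArithmeticFunction.cardFactors_one, zero_add] at hkb
  -- the fourth number
  set y := (a1 * (x - V) + b1).toNat with hy
  have hyz : (y : ℤ) = a1 * (x - V) + b1 := Int.toNat_of_nonneg h1V.le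
  have hy0 : 0 < y := by
    have : (0 : ℤ) < y := by rw [hyz]; exact h1V
    exact_mod_cast this
  set hn1 := h1.toNat with hhn1
  have hhz : (hn1 : ℤ) = h1 := Int.toNat_of_nonneg f3.le
  have hhn0 : 0 < hn1 := by
    have : (0 : ℤ) < hn1 := by rw [hhz]; exact f3
    exact_mod_cast this
  have hhnC : hn1 ≤ Cw := by
    have : (hn1 : ℤ) ≤ Cw := by rw [hhz]; exact f4
    exact_mod_cast this
  have hb'z : ((hn1 * y : ℕ) : ℤ) = b + δ' := by
    push_cast
    rw [hhz, hyz, ← hbv', hbz]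
  have hb'N : hn1 * y ≤ N + 2 := by
    have h2 : ((hn1 * y : ℕ) : ℤ) ≤ ((N + 2 : ℕ) : ℤ) := by
      rw [hb'z, hbz]
      push_cast
      rcases hδ' with h3 | h3 <;> omega
    exact_mod_cast h2
  have hyN : y ≤ X ^ 4 := by
    calc y ≤ hn1 * y := Nat.le_mul_of_pos_left _ hhn0
      _ ≤ N + 2 := hb'N
      _ ≤ X ^ 4 := hN2
  have hroy : ∀ q : ℕ, q.Prime → q ∣ y → X ≤ q ^ C1 := by
    intro q hq hqy
    apply hro q hq
    rw [← hyz]
    exact_mod_cast hqy
  have hNear : NearPrime C N (hn1 * y) := by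
    refine ⟨?_, hn1, y, rfl, hhn0, hhnC.trans hCw, ?_⟩
    · rw [ArithmeticFunction.cardFactors_mul hhn0.ne' hy0.ne']
      have h2 := omega_le_self hhn0
      have h3 := few52 hX2 hy0 hyN hroy
      omega
    · intro q hq hqy
      calc N ≤ X ^ 2 := hNX
        _ ≤ (q ^ C1) ^ 2 := Nat.pow_le_pow_left (hroy q hq hqy) _
        _ = q ^ (C1 * 2) := (pow_mul _ _ _).symm
        _ ≤ q ^ C := Nat.pow_le_pow_right hq.pos (by omega)
  have ha1 : 1 ≤ a := pm_pos hk1.1
  refine ⟨ha1, han.le, av (!pos) r i j U, b, hn1 * y, hba, av_not hr pos hij U, hb'z, hk1.1,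
    hk2.1, hkb.1, Nat.mul_pos hhn0 hy0, hNear, ?_, ?_, ?_⟩
  · have h2 : cardFactors (dd r i j) + cardFactors a = G + 1 := hk1.2
    have h3 := hk2.2
    omega
  · have h2 : cardFactors (dd r i j) + cardFactors a = G + 1 := hk1.2
    have h3 := hkb.2
    omega
  · have h1 := hcm i j hij
    rw [← hddeq] at h1
    have h2 : cardFactors a + c ≡ r0 + c [MOD m] := by
      calc cardFactors a + c ≡ cardFactors a + cardFactors (dd r i j) [MOD m] :=
            (Nat.ModEq.refl _).add h1.symm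
        _ = G + 1 := by rw [add_comm]; exact hk1.2
        _ ≡ r0 + c [MOD m] := hG
    exact Nat.ModEq.add_right_cancel' c h2

open Classical in
theorem d_52 (hCLS : CLSStmt) (hFIXC : FIXCStmt) (hRAM : RAMStmt) : DStmt := by
  intro m r0 hm ε hε
  obtain ⟨K, hCLS⟩ := hCLS
  have hCLS := hCLS K le_rfl
  obtain ⟨r, c, hr0, hrr⟩ := hRAM K 1 m one_pos hm
  have hr : ∀ i j, i < j → r i < r j ∧ (r j - r i) ∣ r i := by
    intro i j hij
    obtain ⟨h1, h2, _⟩ := hrr i j hij
    rw [one_mul] at h2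
    exact ⟨h1, h2⟩
  have hcm : ∀ i j, i < j → cardFactors (r j - r i) ≡ c [MOD m] := fun i j hij =>
    (hrr i j hij).2.2
  have hinj : ∀ i j, r i = r j → i = j := by
    intro i j h
    by_contra hne
    rcases lt_or_gt_of_ne hne with h3 | h3
    · have := (hr i j h3).1
      omega
    · have := (hr j i h3).1
      omega
  have hL0 := LL_pos hr
  obtain ⟨L, hLdef⟩ : ∃ L, L = LL r := ⟨_, rfl⟩
  rw [← hLdef] at hL0
  obtain ⟨Rs, hRs⟩ : ∃ Rs, Rs = ∑ i, r i := ⟨_, rfl⟩
  have hLr : (0 : ℝ) < L := by exact_mod_cast hL0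
  obtain ⟨ε', hε'd⟩ : ∃ ε', ε' = ε / (8 * L) := ⟨_, rfl⟩
  have hε' : 0 < ε' := by rw [hε'd]; positivity
  obtain ⟨zs, hCLS⟩ := hCLS ε' hε'
  obtain ⟨G0, hFIXC⟩ := hFIXC K {x : Fin K × Fin K // x.1 < x.2} (L + 2 * Rs + 2) (ε / 4)
    (by positivity)
  obtain ⟨Om, hOm⟩ : ∃ Om, Om = ∑ x : Fin K × Fin K, cardFactors (dd r x.1 x.2) := ⟨_, rfl⟩
  have hOmle : ∀ i j, cardFactors (dd r i j) ≤ Om := by
    intro i j
    rw [hOm]
    exact single_le_sum (f := fun x : Fin K × Fin K => cardFactors (dd r x.1 x.2))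
      (fun _ _ => Nat.zero_le _) (mem_univ (i, j))
  obtain ⟨G, hGdef⟩ : ∃ G, G = m * (G0 + Om) + (m - 1) + r0 + c := ⟨_, rfl⟩
  have hGG : G0 + Om ≤ G := by
    have : G0 + Om ≤ m * (G0 + Om) := Nat.le_mul_of_pos_left _ hm
    omega
  have hG1 : G + 1 ≡ r0 + c [MOD m] := by
    have h1 : G + 1 = m * (G0 + Om + 1) + (r0 + c) := by
      rw [hGdef]
      have : m - 1 + 1 = m := by omega
      ring_nf
      omega
    rw [h1]
    unfold Nat.ModEq
    rw [Nat.mul_add_mod]
  obtain ⟨ws, hFIXC⟩ := hFIXC G (fun e => G - cardFactors (dd r e.1.1 e.1.2)) (by omega)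
    (fun e => by
      have := hOmle e.1.1 e.1.2
      omega)
  obtain ⟨w, hw⟩ : ∃ w, w = max ws (max zs (L + 2)) := ⟨_, rfl⟩
  have hw1 : ws ≤ w := by rw [hw]; exact le_max_left _ _
  have hw2 : zs ≤ w := by rw [hw]; exact (le_max_left _ _).trans (le_max_right _ _)
  have hw3 : L + 2 ≤ w := by rw [hw]; exact (le_max_right _ _).trans (le_max_right _ _)
  obtain ⟨M, Cw, hM, hMCw, hMw, hFIXC⟩ := hFIXC w hw1
  obtain ⟨C1, hCLS⟩ := hCLS w hw2 Cw
  have hM2 : 2 ≤ M := Nat.le_of_dvd hM ((hMw 2 Nat.prime_two).2 (by omega))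
  obtain ⟨N2, hN2⟩ := exists_nat_ge (Real.exp (M + 1))
  obtain ⟨N3, hN3⟩ := exists_nat_ge (2 * (ε * M / 4 + M * (L * (ε' + 1))) / ε)
  refine ⟨Cw + 4 * (C1 + 1) + M * M + M * C1 + N2 + N3 + 10, fun N hN δ δ' hδ hδ' => ?_⟩
  obtain ⟨C, hC⟩ : ∃ C, C = Cw + 4 * (C1 + 1) + M * M + M * C1 + N2 + N3 + 10 := ⟨_, rfl⟩
  rw [← hC] at hN ⊢
  obtain ⟨pos, hpos⟩ : ∃ pos : Bool, δ = (if pos then 2 else -2) := by
    rcases hδ with h | h
    · exact ⟨true, by simp [h]⟩
    · exact ⟨false, by simp [h]⟩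
  -- scales
  obtain ⟨X, hX⟩ : ∃ X, X = N / M + 1 := ⟨_, rfl⟩
  have hNMX : N < M * X := by
    rw [hX]
    exact Nat.lt_mul_div_succ N hM
  have hNdiv : ∀ t : ℕ, M * t ≤ N → t < X := by
    intro t ht
    rw [hX]
    have h1 : t ≤ N / M := (Nat.le_div_iff_mul_le hM).2 (by rw [mul_comm]; exact ht)
    omega
  have hXC1 : C1 ≤ X := (hNdiv C1 (by omega)).le
  have hMX : M ≤ X := (hNdiv M (by omega)).le
  have hX2 : 2 ≤ X := by omega
  have hXN : X ≤ N := by
    have h1 : N / M ≤ N / 2 := Nat.div_le_div_left hM2 (by omega)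
    omega
  have hNX2 : N ≤ X ^ 2 := by
    calc N ≤ M * X := hNMX.le
      _ ≤ X * X := Nat.mul_le_mul_right _ hMX
      _ = X ^ 2 := by ring
  have hNX4 : N + 2 ≤ X ^ 4 := by
    calc N + 2 ≤ 2 * N := by omega
      _ ≤ N * N := Nat.mul_le_mul_right _ (by omega)
      _ ≤ X ^ 2 * X ^ 2 := Nat.mul_le_mul hNX2 hNX2
      _ = X ^ 4 := by ring
  -- logarithms
  have hN0 : (0 : ℝ) < N := by exact_mod_cast (by omega : 0 < N)
  have hlN : (M : ℝ) + 1 ≤ Real.log N := by
    rw [Real.le_log_iff_exp_le hN0]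
    refine hN2.trans ?_
    exact_mod_cast (by omega : N2 ≤ N)
  have hMr : (0 : ℝ) < M := by exact_mod_cast hM
  have hlN1 : 1 ≤ Real.log N := by linarith
  have hlX0 : 0 ≤ Real.log X := Real.log_natCast_nonneg X
  have hlXN : Real.log X ≤ Real.log N :=
    Real.log_le_log (by exact_mod_cast (by omega : 0 < X)) (by exact_mod_cast hXN)
  -- the class lemma
  obtain ⟨Bad, hBad, hFIXC⟩ := hFIXC (fun _ => (L : ℤ)) (fun j => 2 * (r j : ℤ))
    (fun e => ((L / dd r e.1.1 e.1.2 : ℕ) : ℤ))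
    (fun e => 2 * ((rho pos r e.1.1 e.1.2 / dd r e.1.1 e.1.2 : ℕ) : ℤ)) δ'
    (by
      intro j
      have h1 : r j ≤ Rs := by
        rw [hRs]
        exact Finset.single_le_sum (f := r) (fun _ _ => Nat.zero_le _) (mem_univ j)
      have h2 := hr0 j
      refine ⟨by exact_mod_cast hL0, ?_, by positivity, ?_⟩
      · push_cast; omega
      · push_cast; omega)
    (by
      intro i j hij heq
      have hL' : (L : ℤ) ≠ 0 := by exact_mod_cast hL0.ne'
      have h1 := mul_left_cancel₀ hL' heq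
      exact hij (hinj i j (by omega)))
    (by
      intro e
      have h1 : 0 < L / dd r e.1.1 e.1.2 := by
        rw [hLdef] at hL0 ⊢
        exact Nat.div_pos (Nat.le_of_dvd hL0 (dd_dvd_LL _ _)) (dd_pos hr _ _)
      have h2 : L / dd r e.1.1 e.1.2 ≤ L := Nat.div_le_self _ _
      have h3 : rho pos r e.1.1 e.1.2 / dd r e.1.1 e.1.2 ≤ Rs := by
        refine (Nat.div_le_self _ _).trans ?_
        rw [hRs]
        unfold rho
        split_ifs
        · exact Finset.single_le_sum (f := r) (fun _ _ => Nat.zero_le _) (mem_univ e.1.1)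
        · exact Finset.single_le_sum (f := r) (fun _ _ => Nat.zero_le _) (mem_univ e.1.2)
      refine ⟨by exact_mod_cast h1, ?_, ?_⟩
      · have : L / dd r e.1.1 e.1.2 ≤ L + 2 * Rs + 2 := by omega
        exact_mod_cast this
      · rw [abs_of_nonneg (by positivity)]
        have : 2 * (rho pos r e.1.1 e.1.2 / dd r e.1.1 e.1.2) ≤ L + 2 * Rs + 2 := by omega
        exact_mod_cast this)
    (by
      rintro ⟨⟨i, j⟩, hij⟩ ⟨⟨i', j'⟩, hij'⟩ hne ⟨h1, h2⟩
      apply hne
      simp only at h1 h2 hij hij'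
      have h1' : L / dd r i j = L / dd r i' j' := by exact_mod_cast h1
      have h2' : rho pos r i j / dd r i j = rho pos r i' j' / dd r i' j' := by
        have : (((rho pos r i j / dd r i j : ℕ) : ℤ)) = ((rho pos r i' j' / dd r i' j' : ℕ) : ℤ) :=
          by linarith
        exact_mod_cast this
      have hd : dd r i j ∣ L := by rw [hLdef]; exact dd_dvd_LL i j
      have hd' : dd r i' j' ∣ L := by rw [hLdef]; exact dd_dvd_LL i' j'
      have hq0 : 0 < L / dd r i j := Nat.div_pos (Nat.le_of_dvd hL0 hd) (dd_pos hr _ _)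
      have e1 : dd r i j * (L / dd r i j) = L := Nat.mul_div_cancel' hd
      have e2 : dd r i' j' * (L / dd r i' j') = L := Nat.mul_div_cancel' hd'
      rw [← h1'] at e2
      have e3 : dd r i j = dd r i' j' :=
        Nat.eq_of_mul_eq_mul_right hq0 (e1.trans e2.symm)
      have g1 : dd r i j * (rho pos r i j / dd r i j) = rho pos r i j :=
        Nat.mul_div_cancel' (dd_dvd_rho hr pos i j)
      have g2 : dd r i' j' * (rho pos r i' j' / dd r i' j') = rho pos r i' j' :=
        Nat.mul_div_cancel' (dd_dvd_rho hr pos i' j')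
      rw [← h2', ← e3] at g2
      have g3 : rho pos r i j = rho pos r i' j' := g1.symm.trans g2
      have f1 : dd r i j = r j - r i := by unfold dd; rw [if_pos hij]
      have f2 : dd r i' j' = r j' - r i' := by unfold dd; rw [if_pos hij']
      have f3 := (hr i j hij).1
      have f4 := (hr i' j' hij').1
      have f5 : i = i' ∧ j = j' := by
        unfold rho at g3
        cases pos
        · simp only [Bool.false_eq_true, if_false] at g3
          exact ⟨hinj _ _ (by omega), hinj _ _ g3⟩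
        · simp only [if_true] at g3
          exact ⟨hinj _ _ g3, hinj _ _ (by omega)⟩
      obtain ⟨rfl, rfl⟩ := f5
      rfl)
    (by rcases hδ' with h | h <;> omega)
    (by
      have h2 : |δ'| = 2 := by rcases hδ' with h | h <;> rw [h] <;> norm_num
      rw [h2]
      push_cast
      have : (0 : ℤ) ≤ L := by positivity
      have : (0 : ℤ) ≤ Rs := by positivity
      omega)
  refine (count52 (N := N) (M := M) (L := L) (X := X) (ε := ε / 4) (ε' := ε') hM hε'.le Bad hBad _
    (fun n hn => (mem_Icc.1 (mem_filter.1 hn).1).2) ?_).trans ?_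
  · intro ν hν hνB
    obtain ⟨U0, h, α, β, hU0, hmain, hMF, hext⟩ := hFIXC ν hν hνB
    obtain ⟨i, j, hij, hcls⟩ := hCLS X hXC1 α β hMF
    have hdL : dd r i j ∣ L := by rw [hLdef]; exact dd_dvd_LL i j
    have hae : 0 < L / dd r i j := Nat.div_pos (Nat.le_of_dvd hL0 hdL) (dd_pos hr _ _)
    refine ⟨L / dd r i j, hae, Nat.div_le_self _ _, fun t ht => ?_⟩
    rw [mem_range] at ht hν
    have hρlt : ν + M * t < L / dd r i j * M := by
      calc ν + M * t < M + M * t := by omega
        _ = (t + 1) * M := by ring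
        _ ≤ L / dd r i j * M := Nat.mul_le_mul_right _ ht
    obtain ⟨⟨h0, a0, b0, hb⟩, h1, a1, b1, hb'⟩ := hext ⟨(i, j), hij⟩ ((ν : ℤ) + M * t)
      (by positivity) (by
        simp only
        exact_mod_cast hρlt) ⟨(t : ℤ), by ring⟩
    simp only at hb hb'
    refine ⟨_, hcls a0 b0 a1 b1 hb.2.2.2.2.2 hb'.2.2.2.2, fun n hn hnm => ?_⟩
    rw [mem_filter, mem_Icc] at hn
    obtain ⟨⟨hn1, hnN⟩, hnbad⟩ := hn
    by_contra hcon
    push Not at hcon
    obtain ⟨hx0, hxB⟩ := hcon
    obtain ⟨x, hx⟩ : ∃ x : ℕ, x = n / (L / dd r i j * M) := ⟨_, rfl⟩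
    rw [← hx] at hx0 hxB
    have hxX : x ≤ X := by
      have h2 : x ≤ n / M := by
        rw [hx, ← Nat.div_div_eq_div_mul, Nat.div_div_eq_div_mul, mul_comm,
          ← Nat.div_div_eq_div_mul]
        exact Nat.div_le_self _ _
      have h3 : n / M ≤ N / M := Nat.div_le_div_right hnN
      omega
    rw [mem_filter, mem_Ioc] at hxB
    have hrep : (X : ℝ) ≤ (repD C1 w X α β i j a0 b0 a1 b1 x : ℝ) * (Real.log X) ^ C1 := by
      by_contra hlt
      push Not at hlt
      exact hxB ⟨⟨by omega, by omega⟩, hlt⟩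
    have hneq : (n : ℤ) = ((L / dd r i j : ℕ) : ℤ) * M * x + ((ν : ℤ) + M * t) := by
      have h2 := Nat.div_add_mod n (L / dd r i j * M)
      rw [← hx, hnm] at h2
      calc (n : ℤ) = ((L / dd r i j * M * x + (ν + M * t) : ℕ) : ℤ) := by rw [h2]
        _ = _ := by push_cast; ring
    -- comparison of the counts
    have hcnt : repD C1 w X α β i j a0 b0 a1 b1 x ≤ ((Icc 1 n).filter (fun a : ℕ =>
        ∃ a' b b' : ℕ, n = a + b ∧ (a' : ℤ) = a + δ ∧
        (b' : ℤ) = b + δ' ∧ PrimeMult C a ∧ PrimeMult C a' ∧ PrimeMult C b ∧ 0 < b' ∧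
        NearPrime C N b' ∧
        ArithmeticFunction.cardFactors a' = ArithmeticFunction.cardFactors a ∧
        ArithmeticFunction.cardFactors b = ArithmeticFunction.cardFactors a ∧
        ArithmeticFunction.cardFactors a ≡ r0 [MOD m])).card := by
      unfold repD
      apply card_le_card_of_injOn (fun V => av pos r i j (U0 + M * V.toNat))
      · intro V hV
        rw [mem_coe, mem_filter, mem_Ioo] at hV
        obtain ⟨⟨hV0, hVx⟩, hpi, hpj, hc1, hc2, hc3, hc4⟩ := hV
        have hpt := point52 (C := C) (Cw := Cw) (G := G) (w := w) (N := N) (X := X) (C1 := C1)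
          (M := M) (U0 := U0) (n := n) (pos := pos) (δ' := δ') (α := α) (β := β) (h := h)
          (i := i) (j := j) (x := (x : ℤ)) (ρ := (ν : ℤ) + M * t)
          (h0 := h0) (a0 := a0) (b0 := b0) (h1 := h1) (a1 := a1) (b1 := b1) (V := V)
          hr hcm hG1 (by omega) (by rw [← hLdef]; omega) hX2 hNX2 hNX4 (by omega) hnN hδ'
          (by rw [← hLdef]; exact hmain) hMF hij (by rw [← hLdef]; exact hneq)
          (by rw [← hLdef]; exact hb) (by have := hOmle i j; omega)
          (by rw [← hLdef]; exact hb') hV0 hpi hpj hc1 hc2 hc3 hc4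
        rw [mem_coe, mem_filter, mem_Icc]
        refine ⟨⟨hpt.1, hpt.2.1⟩, ?_⟩
        have h2 := hpt.2.2
        rw [← hpos] at h2
        exact h2
      · intro V hV V' hV' heq
        rw [mem_coe, mem_filter, mem_Ioo] at hV hV'
        have h1 := av_inj hr pos i j heq
        have h2 : M * V.toNat = M * V'.toNat := by omega
        have h3 := Nat.eq_of_mul_eq_mul_left hM h2
        have h4 := hV.1.1
        have h5 := hV'.1.1
        omega
    apply absurd hnbad
    push Not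
    have hcnt' : (repD C1 w X α β i j a0 b0 a1 b1 x : ℝ) ≤ (((Icc 1 n).filter (fun a : ℕ =>
        ∃ a' b b' : ℕ, n = a + b ∧ (a' : ℤ) = a + δ ∧
        (b' : ℤ) = b + δ' ∧ PrimeMult C a ∧ PrimeMult C a' ∧ PrimeMult C b ∧ 0 < b' ∧
        NearPrime C N b' ∧
        ArithmeticFunction.cardFactors a' = ArithmeticFunction.cardFactors a ∧
        ArithmeticFunction.cardFactors b = ArithmeticFunction.cardFactors a ∧
        ArithmeticFunction.cardFactors a ≡ r0 [MOD m])).card : ℝ) := by exact_mod_cast hcnt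
    generalize (((Icc 1 n).filter (fun a : ℕ =>
        ∃ a' b b' : ℕ, n = a + b ∧ (a' : ℤ) = a + δ ∧
        (b' : ℤ) = b + δ' ∧ PrimeMult C a ∧ PrimeMult C a' ∧ PrimeMult C b ∧ 0 < b' ∧
        NearPrime C N b' ∧
        ArithmeticFunction.cardFactors a' = ArithmeticFunction.cardFactors a ∧
        ArithmeticFunction.cardFactors b = ArithmeticFunction.cardFactors a ∧
        ArithmeticFunction.cardFactors a ≡ r0 [MOD m])).card : ℝ) = cnt at hcnt' ⊢
    have hrep0 : (0 : ℝ) ≤ (repD C1 w X α β i j a0 b0 a1 b1 x : ℝ) := by positivity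
    have hcnt0 : 0 ≤ cnt := hrep0.trans hcnt'
    have hlN0 : 0 ≤ Real.log N := by linarith
    calc (N : ℝ) ≤ M * X := by exact_mod_cast hNMX.le
      _ ≤ M * ((repD C1 w X α β i j a0 b0 a1 b1 x : ℝ) * (Real.log X) ^ C1) :=
          mul_le_mul_of_nonneg_left hrep hMr.le
      _ ≤ M * (cnt * (Real.log N) ^ C1) := by
          apply mul_le_mul_of_nonneg_left _ hMr.le
          exact mul_le_mul hcnt' (pow_le_pow_left₀ hlX0 hlXN _) (pow_nonneg hlX0 _) hcnt0
      _ ≤ Real.log N * (cnt * (Real.log N) ^ C1) := by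
          apply mul_le_mul_of_nonneg_right _ (mul_nonneg hcnt0 (pow_nonneg hlN0 _))
          linarith
      _ = cnt * (Real.log N) ^ (C1 + 1) := by ring
      _ ≤ cnt * (Real.log N) ^ C := by
          apply mul_le_mul_of_nonneg_left _ hcnt0
          exact pow_le_pow_right₀ hlN1 (by omega)
  · have hXr : (X : ℝ) ≤ N / M + 1 := by
      rw [hX]
      push_cast
      have : ((N / M : ℕ) : ℝ) ≤ (N : ℝ) / M := Nat.cast_div_le
      linarith
    have h1 : ε / 4 * M * ((N : ℝ) / M + 1) = ε / 4 * N + ε * M / 4 := by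
      field_simp
    have h2 : (M : ℝ) * (L * (ε' * X + 1)) ≤ ε / 8 * N + M * (L * (ε' + 1)) := by
      have h3 : (M : ℝ) * (L * (ε' * X + 1)) ≤ M * (L * (ε' * (N / M + 1) + 1)) := by
        apply mul_le_mul_of_nonneg_left _ hMr.le
        apply mul_le_mul_of_nonneg_left _ hLr.le
        have := mul_le_mul_of_nonneg_left hXr hε'.le
        linarith
      refine h3.trans (le_of_eq ?_)
      have h4 : (M : ℝ) * (L * (ε' * (N / M + 1) + 1)) = L * ε' * N + M * (L * (ε' + 1)) := by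
        field_simp
        ring
      rw [h4]
      have h5 : (L : ℝ) * ε' = ε / 8 := by
        rw [hε'd]
        field_simp
      rw [h5]
    have h3 : 2 * (ε * M / 4 + M * (L * (ε' + 1))) ≤ ε * N := by
      rw [div_le_iff₀ hε] at hN3
      have h4 : (N3 : ℝ) ≤ N := by exact_mod_cast (by omega : N3 ≤ N)
      nlinarith
    rw [h1]
    have h4 : 0 < ε * N := mul_pos hε hN0
    linarith

end Pool.Agent.Lib.MT2.D52
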