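import Pool.Agent.Lib.MT2.DispPA42

/-!
MT2, module DISPP (helper42): the dispersion with weight 1 and a phase.
-/

set_option autoImplicit false

namespace Pool.Agent.Lib.MT2

open Finset
open Pool.Agent.Lib.TwinAll

theorem dispp_42 (hS4 : S4rStmt) (hS5 : S5kStmt) : DISPPStmt := by
  classical
  intro k
  obtain ⟨s2, h2⟩ := hS4 (k + k + 1)
  obtain ⟨s1, h1⟩ := hS4 (k + 1)
  obtain ⟨s3, h3⟩ := hS4 1
  obtain ⟨s5, h5⟩ := hS5 k
  obtain ⟨s, hs⟩ : ∃ s, s = max s2 (max s1 s3) := ⟨_, rfl⟩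
  have hs2 : s2 ≤ s := by rw [hs]; exact le_max_left _ _
  have hs1 : s1 ≤ s := by rw [hs]; exact (le_max_left _ _).trans (le_max_right _ _)
  have hs3 : s3 ≤ s := by rw [hs]; exact (le_max_right _ _).trans (le_max_right _ _)
  refine ⟨12 * s + 2 * k + 3, max s5 (2 * k + 7), fun t => ?_⟩
  obtain ⟨zs5, h5⟩ := h5 ((1 / 2) ^ (t + 7)) (by positivity)
  obtain ⟨zs2, h2⟩ := h2 (t + 11)
  obtain ⟨zs1, h1⟩ := h1 (t + 11)
  obtain ⟨zs3, h3⟩ := h3 (t + 11)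
  refine ⟨max (max zs2 zs1) (max (max zs3 zs5) (2 * k + 1)), fun z0 hz0 B C0 => ?_⟩
  simp only [max_le_iff] at hz0
  obtain ⟨⟨hzs2, hzs1⟩, ⟨hzs3, hzs5⟩, hz0k⟩ := hz0
  obtain ⟨w2, hw2⟩ := h2 z0 hzs2 (B + 1)
  obtain ⟨w1, hw1⟩ := h1 z0 hzs1 (B + 1)
  obtain ⟨w3, hw3⟩ := h3 z0 hzs3 (B + 1)
  obtain ⟨w5, hw5⟩ := h5 z0 hzs5 (B + 1) C0
  refine ⟨max (max (max (max w2 w3) w1) (max w5 z0)) (max (8 * C0 ^ 3 + 4 * C0 ^ 2 + 4 * C0 + 2)
    (max (2 ^ (t + 1) * C0 ^ 3) (2 ^ (t + 11) * C0))), ?_⟩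
  intro z hz a0 b0 a d hBF hSF hdC Y M hY hYM hXM cl m1 n0 n1 hcl1 hn0 θ
  simp only [max_le_iff] at hz
  obtain ⟨⟨⟨⟨hzw2, hzw3⟩, hzw1⟩, hzw5, hzz0⟩, hzC, hzZ, hzt⟩ := hz
  have ha0 : 0 < a0 := hBF.pos
  have ha0C : a0 ≤ C0 := hBF.bd.1
  have hb0 : |b0| ≤ C0 := hBF.bd.2
  have hV := V1_pos' (z := z) (by omega : 1 ≤ z0)
  have ha0R : (0 : ℝ) < a0 := by exact_mod_cast ha0
  -- the representative of the class of `m`
  obtain ⟨m0, hm0, hm0', hm01⟩ : ∃ m0 : ℤ, 0 ≤ m0 ∧ m0 < a0 ∧ a0 ∣ m1 - m0 :=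
    ⟨m1 % a0, Int.emod_nonneg _ (ne_of_gt ha0), Int.emod_lt_of_pos _ ha0,
      Int.dvd_self_sub_emod⟩
  have hfm : (Ioc (0 : ℤ) M).filter (fun m => a0 ∣ m - m1) =
      (Ioc (0 : ℤ) M).filter (fun m => a0 ∣ m - m0) := by
    refine Finset.filter_congr (fun m _ => ?_)
    have e : m - m0 = (m - m1) + (m1 - m0) := by ring
    rw [e]
    exact ⟨fun h => dvd_add h hm01, fun h => (dvd_add_left hm01).1 h⟩
  have hcl : a0 ∣ cl * m0 - b0 := by
    have e : cl * m0 - b0 = (cl * m1 - b0) - cl * (m1 - m0) := by ring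
    rw [e]
    exact dvd_sub hcl1 (Dvd.dvd.mul_left hm01 _)
  rw [hfm]
  -- the context
  have hC : Ctx z0 z C0 a0 b0 a (Fin.elim0 : Fin 0 → ℤ) (Fin.elim0 : Fin 0 → ℤ) ∅ :=
    ⟨hz0k, hzz0, by omega, ha0, ha0C, hb0, hBF.large, hSF,
      ⟨fun j => j.elim0, fun j => j.elim0, fun j => j.elim0, fun j => j.elim0, fun j => j.elim0,
        fun j => j.elim0⟩, fun j => j.elim0⟩
  have hz2 : 2 ≤ z := by omega
  have hz1 : 1 ≤ z := by omega
  have hz0R : (0 : ℝ) < z := by exact_mod_cast (by omega : 0 < z)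
  have hz1R : (1 : ℝ) ≤ z := by exact_mod_cast hz1
  have hC0 : 1 ≤ C0 := by
    have : (1 : ℤ) ≤ C0 := by linarith
    exact_mod_cast this
  have g2 : S4At (k + k + 1) s2 (t + 11) z0 (B + 1) z := hw2 z hzw2
  have g1 : S4At (k + 1) s1 (t + 11) z0 (B + 1) z := hw1 z hzw1
  have g3 : S4At 1 s3 (t + 11) z0 (B + 1) z := hw3 z hzw3
  obtain ⟨N, hN⟩ : ∃ N, N = s * (t + 11 + 1) + (k + k + 1) + 1 := ⟨_, rfl⟩
  have hN2 : s2 * (t + 11 + 1) + (k + k + 1) + 1 ≤ N := by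
    rw [hN]
    have := Nat.mul_le_mul_right (t + 11 + 1) hs2
    omega
  have hN1 : s1 * (t + 11 + 1) + (k + 1) + 1 ≤ N := by
    rw [hN]
    have := Nat.mul_le_mul_right (t + 11 + 1) hs1
    omega
  have hN0 : s3 * (t + 11 + 1) + 1 + 1 ≤ N := by
    rw [hN]
    have := Nat.mul_le_mul_right (t + 11 + 1) hs3
    omega
  have hNM : N + 1 ≤ (12 * s + 2 * k + 3) * (t + 1) := by
    rw [hN]
    nlinarith [Nat.zero_le (s * t), Nat.zero_le (k * t)]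
  -- sizes
  have hzM : z ≤ M := by
    calc z = z ^ 1 := (pow_one z).symm
      _ ≤ z ^ ((12 * s + 2 * k + 3) * (t + 1)) := Nat.pow_le_pow_right hz1 (by omega)
      _ ≤ M := hXM
  have hM0 : 1 ≤ M := hz1.trans hzM
  have hYs5 : z ^ s5 ≤ Y := (Nat.pow_le_pow_right hz1 (le_max_left _ _)).trans hY
  have hYk : z ^ (2 * k + 7) ≤ Y := (Nat.pow_le_pow_right hz1 (le_max_right _ _)).trans hY
  have hzY : z ≤ Y := by
    calc z = z ^ 1 := (pow_one z).symm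
      _ ≤ z ^ (2 * k + 7) := Nat.pow_le_pow_right hz1 (by omega)
      _ ≤ Y := hYk
  have hY1 : 1 ≤ Y := hz1.trans hzY
  have hYB : Y ≤ z ^ B := by
    calc Y = Y * 1 := (mul_one _).symm
      _ ≤ Y * M := Nat.mul_le_mul_left _ hM0
      _ ≤ z ^ B := hYM
  have hMB : M ≤ z ^ B := by
    calc M = 1 * M := (one_mul _).symm
      _ ≤ Y * M := Nat.mul_le_mul_right _ hY1
      _ ≤ z ^ B := hYM
  have hY0 : (0 : ℝ) < Y := by exact_mod_cast (by omega : 0 < Y)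
  have hM0R : (0 : ℝ) < M := by exact_mod_cast (by omega : 0 < M)
  -- the primes
  obtain ⟨Ps, hPs⟩ : ∃ Ps : Finset ℕ,
      Ps = (PP Y (2 * Y)).filter (fun p : ℕ => a0 ∣ (p : ℤ) - cl) := ⟨_, rfl⟩
  obtain ⟨Ms, hMs⟩ : ∃ Ms : Finset ℤ,
      Ms = (Ioc (0 : ℤ) M).filter (fun m => a0 ∣ m - m0) := ⟨_, rfl⟩
  obtain ⟨F, hF⟩ : ∃ F : ℕ → ℤ → ℂ, F = fun (p : ℕ) (m : ℤ) =>
      ((nuJ z0 z a0 b0 a d (((p : ℤ) * m - b0) / a0) - 1 : ℝ) : ℂ) *
            ee (θ * ((((p : ℤ) * m - b0) / a0 : ℤ) : ℝ)) := ⟨_, rfl⟩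
  obtain ⟨n, hn⟩ : ∃ n : ℤ → ℝ, n = fun m => nu z0 z (![1] : Fin 1 → ℤ) ![0] m := ⟨_, rfl⟩
  have hLHS : ∑ m ∈ (Ioc (0 : ℤ) M).filter (fun m => a0 ∣ m - m0),
        nu z0 z (![1] : Fin 1 → ℤ) ![0] m *
        ‖∑ p ∈ (PP Y (2 * Y)).filter (fun p : ℕ => a0 ∣ (p : ℤ) - cl ∧ n0 < p * m ∧ p * m ≤ n1),
          ((nuJ z0 z a0 b0 a d (((p : ℤ) * m - b0) / a0) - 1 : ℝ) : ℂ) *
            ee (θ * ((((p : ℤ) * m - b0) / a0 : ℤ) : ℝ))‖ ^ 2 ≤
      ∑ p ∈ Ps, ∑ p' ∈ Ps, ‖∑ m ∈ Ms.filter (fun m => (n0 < p * m ∧ p * m ≤ n1) ∧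
        (n0 < p' * m ∧ p' * m ≤ n1)), (n m : ℂ) * F p m * (starRingEnd ℂ) (F p' m)‖ := by
    refine le_trans (le_of_eq ?_)
      (sq_expand_C Ms Ps n F (fun p m => n0 < p * m ∧ p * m ≤ n1))
    rw [hMs, hn, hF, hPs]
    refine Finset.sum_congr rfl (fun m _ => ?_)
    rw [Finset.filter_filter]
  refine hLHS.trans ?_
  have hPsP : ∀ p ∈ Ps, p.Prime ∧ z < p ∧ p ≤ 2 * Y ∧ a0 ∣ (p : ℤ) - cl := by
    intro p hp
    rw [hPs, Finset.mem_filter] at hp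
    have e1 := PP_lt hp.1
    exact ⟨PP_prime hp.1, by omega, PP_le hp.1, hp.2⟩
  have hdvd : ∀ p ∈ Ps, a0 ∣ p * m0 - b0 := by
    intro p hp
    have e : (p : ℤ) * m0 - b0 = ((p : ℤ) - cl) * m0 + (cl * m0 - b0) := by ring
    rw [e]
    exact dvd_add (Dvd.dvd.mul_right (hPsP p hp).2.2.2 _) hcl
  -- off-diagonal terms
  obtain ⟨L0, hL0⟩ : ∃ L0 : ℝ, L0 = (M : ℝ) / a0 + 1 := ⟨_, rfl⟩
  obtain ⟨E0, hE0⟩ : ∃ E0 : ℝ, E0 = (1 / 2) ^ (t + 11) * L0 + (z : ℝ) ^ N := ⟨_, rfl⟩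
  have hL00 : 0 ≤ L0 := by rw [hL0]; positivity
  have hE00 : 0 ≤ E0 := by rw [hE0]; positivity
  have off : ∀ p ∈ Ps, ∀ p' ∈ Ps, p ≠ p' →
      ‖∑ m ∈ Ms.filter (fun m => (n0 < p * m ∧ p * m ≤ n1) ∧
        (n0 < p' * m ∧ p' * m ≤ n1)), (n m : ℂ) * F p m * (starRingEnd ℂ) (F p' m)‖ ≤
      |SS2 z0 z a0 b0 a d p p' - 1| * (L0 + E0) + 4 * E0 := by
    intro p hp p' hp' hne
    obtain ⟨p1, p2, p3, -⟩ := hPsP p hp
    obtain ⟨p1', p2', p3', -⟩ := hPsP p' hp'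
    obtain ⟨u, hu⟩ := hdvd p hp
    obtain ⟨u', hu'⟩ := hdvd p' hp'
    obtain ⟨v, L, hL, hI⟩ := range_pair a0 m0 n0 n1 M p p' ha0 p1.pos p1'.pos
    have hvL : 0 < L → |v| ≤ (z : ℤ) ^ (B + 1) ∧ L ≤ z ^ (B + 1) := by
      intro hL1
      have e1 : m0 + a0 * (v + 1) ∈ (Ioc v (v + L)).image (fun x => m0 + a0 * x) := by
        rw [Finset.mem_image]
        exact ⟨v + 1, Finset.mem_Ioc.2 ⟨by linarith, by
          have : (1 : ℤ) ≤ L := by exact_mod_cast hL1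
          linarith⟩, rfl⟩
      rw [hI, Finset.mem_filter, Finset.mem_filter, Finset.mem_Ioc] at e1
      obtain ⟨⟨⟨e2, e3⟩, -⟩, -⟩ := e1
      have e4 : -1 < v + 1 := by
        by_contra h
        push Not at h
        have : a0 * (v + 1) ≤ a0 * (-1) := mul_le_mul_of_nonneg_left h ha0.le
        linarith
      have e5 : v + 1 ≤ M := by
        rcases le_or_gt (v + 1) 0 with h | h
        · exact h.trans (by positivity)
        · have : 1 * (v + 1) ≤ a0 * (v + 1) := mul_le_mul_of_nonneg_right (by linarith) h.le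
          linarith
      have e6 : (M : ℤ) ≤ (z : ℤ) ^ B := by exact_mod_cast hMB
      have e7 : (z : ℤ) ^ B ≤ (z : ℤ) ^ (B + 1) :=
        pow_le_pow_right₀ (by exact_mod_cast hz1) (by omega)
      have e8 : (1 : ℤ) ≤ M := by exact_mod_cast hM0
      refine ⟨?_, ?_⟩
      · rw [abs_le]; constructor <;> linarith
      · have e9 : (L : ℝ) ≤ 2 * M := by
          refine hL.trans ?_
          have e10 : (M : ℝ) / a0 ≤ M := div_le_self hM0R.le (by exact_mod_cast ha0)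
          have e11 : (1 : ℝ) ≤ M := by exact_mod_cast hM0
          linarith
        have e10 : L ≤ 2 * M := by exact_mod_cast e9
        calc L ≤ 2 * M := e10
          _ ≤ z * z ^ B := Nat.mul_le_mul hz2 hMB
          _ = z ^ (B + 1) := by ring
    rw [hMs, ← hI, sum_image_affC a0 m0 ha0]
    have hb : (4 * C0 ^ 2 + 4 * C0) * Y ≤ z ^ (B + 1) := by
      calc (4 * C0 ^ 2 + 4 * C0) * Y ≤ z * z ^ B := Nat.mul_le_mul (by omega) hYB
        _ = z ^ (B + 1) := by ring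
    have g := off_pairC (d := d) hC hdC g2 g1 g3 hN2 hN1 hN0 p1 p2 p1' p2' p3 p3' hY1 hb hm0 hm0'
      hu.symm hu'.symm v L hvL (θ * ((p : ℝ) - p'))
    have e : ∀ x : ℤ, (n (m0 + a0 * x) : ℂ) * F p (m0 + a0 * x) *
        (starRingEnd ℂ) (F p' (m0 + a0 * x)) =
        ee (θ * ((u : ℝ) - u')) * (((nu z0 z (![1] : Fin 1 → ℤ) ![0] (m0 + a0 * x) *
        (nuJ z0 z a0 b0 a d (p * x + u) - 1) *
        (nuJ z0 z a0 b0 a d (p' * x + u') - 1) : ℝ) : ℂ) * ee (θ * ((p : ℝ) - p') * x)) := by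
      intro x
      have e1 : ((p : ℤ) * (m0 + a0 * x) - b0) / a0 = p * x + u := by
        have : (p : ℤ) * (m0 + a0 * x) - b0 = a0 * (p * x + u) := by linear_combination hu
        rw [this, Int.mul_ediv_cancel_left _ (ne_of_gt ha0)]
      have e2 : ((p' : ℤ) * (m0 + a0 * x) - b0) / a0 = p' * x + u' := by
        have : (p' : ℤ) * (m0 + a0 * x) - b0 = a0 * (p' * x + u') := by linear_combination hu'
        rw [this, Int.mul_ediv_cancel_left _ (ne_of_gt ha0)]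
      rw [hn, hF]
      simp only [e1, e2]
      rw [map_mul, Complex.conj_ofReal, ← ee_neg]
      have e3 : ee (θ * ((p * x + u : ℤ) : ℝ)) * ee (-(θ * ((p' * x + u' : ℤ) : ℝ))) =
          ee (θ * ((u : ℝ) - u')) * ee (θ * ((p : ℝ) - p') * x) := by
        rw [← ee_add, ← ee_add]
        congr 1
        push_cast
        ring
      have e4 : ∀ A B' C' P Q : ℂ, A * (B' * P) * (C' * Q) = (A * B' * C') * (P * Q) := by
        intros; ring
      rw [e4, e3]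
      push_cast
      ring
    rw [Finset.sum_congr rfl (fun x _ => e x), ← Finset.mul_sum, norm_mul, norm_ee, one_mul]
    refine g.trans ?_
    have hLL : (L : ℝ) ≤ L0 := by rw [hL0]; exact hL
    have hEE : (1 / 2) ^ (t + 11) * (L : ℝ) + (z : ℝ) ^ N ≤ E0 := by
      rw [hE0]
      have := mul_le_mul_of_nonneg_left hLL (by positivity : (0 : ℝ) ≤ (1 / 2) ^ (t + 11))
      linarith
    have e3 := mul_le_mul_of_nonneg_left (add_le_add hLL hEE)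
      (abs_nonneg (SS2 z0 z a0 b0 a d p p' - 1))
    linarith
  -- diagonal terms
  have diag : ∀ p ∈ Ps,
      ‖∑ m ∈ Ms.filter (fun m => (n0 < p * m ∧ p * m ≤ n1) ∧
        (n0 < p * m ∧ p * m ≤ n1)), (n m : ℂ) * F p m * (starRingEnd ℂ) (F p m)‖ ≤
      M * (z : ℝ) ^ (2 * k + 3) := by
    intro p hp
    have hzk : (1 : ℝ) ≤ (z : ℝ) ^ (k + 1) := one_le_pow₀ hz1R
    have h6 : ∀ m ∈ Ms.filter (fun m => (n0 < p * m ∧ p * m ≤ n1) ∧
        (n0 < p * m ∧ p * m ≤ n1)), ‖(n m : ℂ) * F p m * (starRingEnd ℂ) (F p m)‖ ≤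
        (z : ℝ) ^ (2 * k + 3) := by
      intro m _
      have e10 : ‖F p m‖ ≤ (z : ℝ) ^ (k + 1) := by
        rw [hF]
        simp only
        rw [norm_mul, norm_ee, mul_one, Complex.norm_real, Real.norm_eq_abs]
        obtain ⟨f1, f2⟩ := hC.VJ_ok d
        have hV1 : V1 z0 z ≤ 1 := VV_le_one _ _ _ _
        have f3 : 0 ≤ nuJ z0 z a0 b0 a d (((p : ℤ) * m - b0) / a0) ∧
            nuJ z0 z a0 b0 a d (((p : ℤ) * m - b0) / a0) ≤ (z : ℝ) ^ (k + 1) := by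
          unfold nuJ
          split_ifs
          · refine ⟨by positivity, ?_⟩
            rw [div_eq_mul_inv]
            calc V1 z0 z * (VJ z0 z a0 b0 a d)⁻¹ ≤ 1 * (z : ℝ) ^ (k + 1) :=
                  mul_le_mul hV1 f2 (by positivity) (by norm_num)
              _ = _ := one_mul _
          · exact ⟨le_rfl, by positivity⟩
        rw [abs_le]
        constructor <;> linarith [f3.1, f3.2]
      have e11 : 0 ≤ n m ∧ n m ≤ z := by
        rw [hn]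
        have a1 : ∀ j : Fin 1, ∀ q ∈ PP z0 z, ¬ ((q : ℤ) ∣ (![1] : Fin 1 → ℤ) j) := by
          intro j q hq
          fin_cases j
          exact not_dvd_one q hq
        refine ⟨nu_nonneg (by omega) _ _ a1 m, ?_⟩
        have e12 := (nu_le (by omega) _ _ a1 m).trans
          (VV_inv_le (z0 := z0) (z := z) (k := 1) (by omega) hzz0 ![1] ![0] a1)
        simpa using e12
      rw [norm_mul, norm_mul, Complex.norm_real, Real.norm_eq_abs, abs_of_nonneg e11.1,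
        RCLike.norm_conj]
      calc n m * ‖F p m‖ * ‖F p m‖ = n m * (‖F p m‖ * ‖F p m‖) := by ring
        _ ≤ z * ((z : ℝ) ^ (k + 1) * (z : ℝ) ^ (k + 1)) :=
            mul_le_mul e11.2 (mul_le_mul e10 e10 (norm_nonneg _) (by positivity))
              (by positivity) hz0R.le
        _ = _ := by ring
    refine (norm_sum_le _ _).trans ((Finset.sum_le_sum h6).trans ?_)
    rw [Finset.sum_const, nsmul_eq_mul]
    have h7 : ((Ms.filter (fun m => (n0 < p * m ∧ p * m ≤ n1) ∧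
        (n0 < p * m ∧ p * m ≤ n1))).card : ℝ) ≤ M := by
      have h8 : (Ms.filter (fun m => (n0 < p * m ∧ p * m ≤ n1) ∧
        (n0 < p * m ∧ p * m ≤ n1))).card ≤ M := by
        refine (Finset.card_filter_le _ _).trans ?_
        rw [hMs]
        refine (Finset.card_filter_le _ _).trans ?_
        rw [Int.card_Ioc]; simp
      exact_mod_cast h8
    exact mul_le_mul_of_nonneg_right h7 (by positivity)
  -- S5
  lift a0 to ℕ using ha0.le with W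
  have hW0 : 0 < W := by exact_mod_cast ha0
  have hWC : W ≤ C0 := by exact_mod_cast ha0C
  have hWR : (0 : ℝ) < W := by exact_mod_cast hW0
  obtain ⟨s5a, s5b⟩ := hw5 z hzw5 a (fun j => (W : ℤ) * d j - a j * b0)
    (fun j => not_dvd_of_coprime (coprime_of_small (hSF.large j))) W hW0 hWC (by
      intro q hq hd
      have := not_dvd_of_coprime hC.copa0 q hq
      exact this (by exact_mod_cast hd)) cl (2 * Y) (hYs5.trans (by omega)) (by
      calc 2 * Y ≤ z * z ^ B := Nat.mul_le_mul hz2 hYB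
        _ = z ^ (B + 1) := by ring)
  obtain ⟨Qs, hQs⟩ : ∃ Qs : Finset ℕ,
      Qs = (PP z (2 * Y)).filter (fun p : ℕ => (W : ℤ) ∣ (p : ℤ) - cl) := ⟨_, rfl⟩
  rw [← hQs] at s5a s5b
  have hPQ : Ps ⊆ Qs := by
    rw [hPs, hQs]
    exact Finset.filter_subset_filter _ (PP_anti hzY)
  obtain ⟨A, hA⟩ : ∃ A : ℝ, A = V1 z0 z * Y / W := ⟨_, rfl⟩
  have hA0 : 0 ≤ A := by rw [hA]; positivity
  have hcard : (Ps.card : ℝ) ≤ 6 * A := by
    have e1 : (Ps.card : ℝ) ≤ Qs.card := by exact_mod_cast Finset.card_le_card hPQ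
    refine (e1.trans s5a).trans (le_of_eq ?_)
    rw [hA]; push_cast; ring
  obtain ⟨Sg, hSg⟩ : ∃ Sg : ℝ, Sg = ∑ p ∈ Ps, ∑ p' ∈ Ps.erase p,
    |SS2 z0 z (W : ℤ) b0 a d p p' - 1| := ⟨_, rfl⟩
  have hSgle : Sg ≤ (1 / 2) ^ (t + 7) * (2 * A) ^ 2 := by
    have e1 : Sg ≤ ∑ p ∈ Qs, ∑ p' ∈ Qs.erase p, |SS2 z0 z (W : ℤ) b0 a d p p' - 1| := by
      rw [hSg]
      calc ∑ p ∈ Ps, ∑ p' ∈ Ps.erase p, |SS2 z0 z (W : ℤ) b0 a d p p' - 1|
          ≤ ∑ p ∈ Ps, ∑ p' ∈ Qs.erase p, |SS2 z0 z (W : ℤ) b0 a d p p' - 1| :=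
            Finset.sum_le_sum (fun p _ => Finset.sum_le_sum_of_subset_of_nonneg
              (Finset.erase_subset_erase _ hPQ) (fun _ _ _ => abs_nonneg _))
        _ ≤ _ := Finset.sum_le_sum_of_subset_of_nonneg hPQ
            (fun _ _ _ => Finset.sum_nonneg (fun _ _ => abs_nonneg _))
    refine (e1.trans s5b).trans (le_of_eq ?_)
    rw [hA]; push_cast; ring
  -- summation
  have hsum : ∑ p ∈ Ps, ∑ p' ∈ Ps, ‖∑ m ∈ Ms.filter (fun m => (n0 < p * m ∧ p * m ≤ n1) ∧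
        (n0 < p' * m ∧ p' * m ≤ n1)), (n m : ℂ) * F p m * (starRingEnd ℂ) (F p' m)‖ ≤
      (Ps.card : ℝ) * (M * (z : ℝ) ^ (2 * k + 3)) +
      (Sg * (L0 + E0) + (Ps.card : ℝ) ^ 2 * (4 * E0)) := by
    have e1 : ∀ p ∈ Ps, ∑ p' ∈ Ps, ‖∑ m ∈ Ms.filter (fun m => (n0 < p * m ∧ p * m ≤ n1) ∧
        (n0 < p' * m ∧ p' * m ≤ n1)), (n m : ℂ) * F p m * (starRingEnd ℂ) (F p' m)‖ ≤
        M * (z : ℝ) ^ (2 * k + 3) +
        ((∑ p' ∈ Ps.erase p, |SS2 z0 z (W : ℤ) b0 a d p p' - 1|) *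
          (L0 + E0) + (Ps.card : ℝ) * (4 * E0)) := by
      intro p hp
      rw [← Finset.add_sum_erase _ _ hp]
      refine add_le_add (diag p hp) ?_
      have e2 : ∀ p' ∈ Ps.erase p, ‖∑ m ∈ Ms.filter (fun m => (n0 < p * m ∧ p * m ≤ n1) ∧
          (n0 < p' * m ∧ p' * m ≤ n1)), (n m : ℂ) * F p m * (starRingEnd ℂ) (F p' m)‖ ≤
          |SS2 z0 z (W : ℤ) b0 a d p p' - 1| * (L0 + E0) + 4 * E0 := by
        intro p' hp'
        rw [Finset.mem_erase] at hp'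
        exact off p hp p' hp'.2 (Ne.symm hp'.1)
      refine (Finset.sum_le_sum e2).trans ?_
      rw [Finset.sum_add_distrib, ← Finset.sum_mul, Finset.sum_const, nsmul_eq_mul]
      have e3 : ((Ps.erase p).card : ℝ) ≤ Ps.card := by
        exact_mod_cast Finset.card_le_card (Finset.erase_subset _ _)
      have e4 := mul_le_mul_of_nonneg_right e3 (by linarith : (0 : ℝ) ≤ 4 * E0)
      linarith
    refine (Finset.sum_le_sum e1).trans (le_of_eq ?_)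
    rw [Finset.sum_add_distrib, Finset.sum_const, nsmul_eq_mul,
      Finset.sum_add_distrib, ← Finset.sum_mul, ← hSg, Finset.sum_const, nsmul_eq_mul]
    ring
  refine hsum.trans ?_
  have hLle : L0 ≤ 2 * ((M : ℝ) / W) := by
    rw [hL0]
    have e1 : (1 : ℝ) ≤ (M : ℝ) / W := by
      rw [le_div_iff₀ hWR]
      have : W ≤ M := hWC.trans ((by
        have : C0 ≤ 8 * C0 ^ 3 + 4 * C0 ^ 2 + 4 * C0 + 2 := by nlinarith [Nat.zero_le (C0 ^ 3)]
        exact this.trans hzC : C0 ≤ z).trans hzM)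
      have : (W : ℝ) ≤ M := by exact_mod_cast this
      linarith
    push_cast
    linarith
  have hEle : E0 ≤ 3 * (1 / 2) ^ (t + 11) * ((M : ℝ) / W) := by
    have e1 : (z : ℝ) ^ N ≤ (1 / 2) ^ (t + 11) * ((M : ℝ) / W) := by
      have e2 : z ^ N * (2 ^ (t + 11) * C0) ≤ M := by
        calc z ^ N * (2 ^ (t + 11) * C0)
            ≤ z ^ N * z := Nat.mul_le_mul_left _ hzt
          _ = z ^ (N + 1) := by ring
          _ ≤ z ^ ((12 * s + 2 * k + 3) * (t + 1)) := Nat.pow_le_pow_right hz1 hNM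
          _ ≤ M := hXM
      have e3 : (z : ℝ) ^ N * (2 ^ (t + 11) * (W : ℝ)) ≤ M := by
        have e4 : (z : ℝ) ^ N * (2 ^ (t + 11) * (C0 : ℝ)) ≤ M := by
          exact_mod_cast e2
        refine le_trans ?_ e4
        have : (W : ℝ) ≤ C0 := by exact_mod_cast hWC
        gcongr
      have e5 : (1 / 2 : ℝ) ^ (t + 11) * ((M : ℝ) / W) = M / (2 ^ (t + 11) * W) := by
        rw [one_div, inv_pow]
        field_simp
      rw [e5, le_div_iff₀ (by positivity)]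
      exact e3
    rw [hE0]
    have e2 := mul_le_mul_of_nonneg_left hLle (by positivity : (0 : ℝ) ≤ (1 / 2) ^ (t + 11))
    linarith
  have hoff := final_ineq t A ((M : ℝ) / W) L0 E0 1 _ _ Sg
    ((Ps.card : ℝ) ^ 2) (by positivity) (by norm_num) rfl rfl hLle hL00 hEle hE00 hSgle
    (pow_le_pow_left₀ (by positivity) hcard 2)
  -- the diagonal
  have hdiag : (Ps.card : ℝ) * (M * (z : ℝ) ^ (2 * k + 3)) ≤
      (1 / 2) ^ (t + 1) * A ^ 2 * ((M : ℝ) / W) := by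
    have e1 : (Ps.card : ℝ) ≤ Y := by
      have : Ps.card ≤ Y := by
        rw [hPs]
        exact (Finset.card_filter_le _ _).trans (card_PP_dyadic Y)
      exact_mod_cast this
    have e2 : 1 ≤ V1 z0 z * (z : ℝ) := by
      have := VV_ge (z0 := z0) (z := z) (k := 1) (by omega) hzz0 ![1] ![0] (by
        intro j q hq
        fin_cases j
        exact not_dvd_one q hq)
      unfold V1
      simpa using this
    have e3 : (2 : ℝ) ^ (t + 1) * (C0 : ℝ) ^ 3 ≤ z := by exact_mod_cast hzZ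
    have e4 : (z : ℝ) ^ (2 * k + 7) ≤ Y := by exact_mod_cast hYk
    have hWC' : (W : ℝ) ≤ C0 := by exact_mod_cast hWC
    have hC0R : (1 : ℝ) ≤ C0 := by exact_mod_cast hC0
    have e5 : (Y : ℝ) * (z : ℝ) ^ (2 * k + 3) * (2 ^ (t + 1) * (W : ℝ) ^ 3) ≤
        (V1 z0 z * Y) ^ 2 := by
      have e6 : (W : ℝ) ^ 3 ≤ (C0 : ℝ) ^ 3 := pow_le_pow_left₀ hWR.le hWC' 3
      have e7 : 2 ^ (t + 1) * (W : ℝ) ^ 3 ≤ z := by
        refine le_trans ?_ e3
        gcongr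
      have e8 : (1 : ℝ) ≤ (V1 z0 z * z) ^ 2 := one_le_pow₀ e2
      calc (Y : ℝ) * (z : ℝ) ^ (2 * k + 3) * (2 ^ (t + 1) * (W : ℝ) ^ 3)
          ≤ (Y : ℝ) * (z : ℝ) ^ (2 * k + 3) * z :=
            mul_le_mul_of_nonneg_left e7 (by positivity)
        _ = (Y : ℝ) * (z : ℝ) ^ (2 * k + 4) * 1 := by ring
        _ ≤ (Y : ℝ) * (z : ℝ) ^ (2 * k + 4) * (V1 z0 z * z) ^ 2 :=
            mul_le_mul_of_nonneg_left e8 (by positivity)
        _ = (V1 z0 z ^ 2 * Y) * (z : ℝ) ^ (2 * k + 6) := by ring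
        _ ≤ (V1 z0 z ^ 2 * Y) * (z : ℝ) ^ (2 * k + 7) := by
            refine mul_le_mul_of_nonneg_left ?_ (by positivity)
            exact pow_le_pow_right₀ hz1R (by omega)
        _ ≤ (V1 z0 z ^ 2 * Y) * Y := mul_le_mul_of_nonneg_left e4 (by positivity)
        _ = _ := by ring
    have e6 : (Y : ℝ) * (z : ℝ) ^ (2 * k + 3) ≤ (1 / 2) ^ (t + 1) * A ^ 2 * (1 / W) := by
      have e7 : (1 / 2 : ℝ) ^ (t + 1) * A ^ 2 * (1 / W) =
          (V1 z0 z * Y) ^ 2 / (2 ^ (t + 1) * (W : ℝ) ^ 3) := by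
        rw [hA, one_div, inv_pow]
        field_simp
      rw [e7, le_div_iff₀ (by positivity)]
      exact e5
    calc (Ps.card : ℝ) * (M * (z : ℝ) ^ (2 * k + 3))
        ≤ (Y : ℝ) * (M * (z : ℝ) ^ (2 * k + 3)) :=
          mul_le_mul_of_nonneg_right e1 (by positivity)
      _ = M * ((Y : ℝ) * (z : ℝ) ^ (2 * k + 3)) := by ring
      _ ≤ M * ((1 / 2) ^ (t + 1) * A ^ 2 * (1 / W)) :=
          mul_le_mul_of_nonneg_left e6 (by positivity)
      _ = _ := by ring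
  have hfin : (1 / 2 : ℝ) ^ (t + 1) * A ^ 2 * ((M : ℝ) / W) +
      (1 / 2 : ℝ) ^ (t + 1) * A ^ 2 * ((M : ℝ) / W) =
      (1 / 2) ^ t * A ^ 2 * ((M : ℝ) / W) := by
    rw [pow_succ]; ring
  have e1 : (V1 z0 z * (Y : ℝ) / (((W : ℕ) : ℤ) : ℝ)) = A := by
    rw [hA]; push_cast; ring
  have e2 : ((M : ℝ) / (((W : ℕ) : ℤ) : ℝ)) = (M : ℝ) / W := by push_cast; ring
  rw [e1, e2]
  linarith

end Pool.Agent.Lib.MT2
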