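import Mathlib
import Pool.Agent.Lib.MT2.StmtsD
import Pool.Agent.Lib.MT2.Fix49

/-!
Module FIX2: residue class with prescribed numbers of small prime factors, for forms with
arbitrary constant terms and given auxiliary primes.
-/

set_option autoImplicit false

namespace Pool.Agent.Lib.MT2.F52

open Finset
open Pool.Agent.Lib.MT2.Fix49 (pigeon crt not_dvd_small fac_lt)

lemma conv52 (q n : ℕ) (t : ℤ) : ((q : ℤ) ^ n ∣ t ↔ q ^ n ∣ t.natAbs) := by
  rw [← Int.natCast_dvd]
  push_cast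
  rfl

lemma ne_zero52 {q E : ℕ} {x : ℤ} (hx : ¬ (q : ℤ) ^ E ∣ x) : x ≠ 0 := by
  rintro rfl
  exact hx (dvd_zero _)

lemma facz_lt {q E : ℕ} {x : ℤ} (hq : q.Prime) (hx : ¬ (q : ℤ) ^ E ∣ x) :
    x.natAbs.factorization q < E := by
  apply fac_lt hq
  rw [← conv52]
  exact hx

lemma facz_eq {q E : ℕ} {x y : ℤ} (hq : q.Prime) (hx : ¬ (q : ℤ) ^ E ∣ x)
    (hxy : (q : ℤ) ^ E ∣ x - y) : x.natAbs.factorization q = y.natAbs.factorization q := by
  have hy : ¬ (q : ℤ) ^ E ∣ y := fun h => hx (by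
    have := dvd_add hxy h
    rwa [sub_add_cancel] at this)
  have h1 : ∀ n, n ≤ E → ((q : ℤ) ^ n ∣ x ↔ (q : ℤ) ^ n ∣ y) := by
    intro n hn
    have h2 : (q : ℤ) ^ n ∣ x - y := (pow_dvd_pow _ hn).trans hxy
    constructor
    · intro h
      have := dvd_sub h h2
      rwa [sub_sub_cancel] at this
    · intro h
      have := dvd_add h2 h
      rwa [sub_add_cancel] at this
  have hx0 : x.natAbs ≠ 0 := Int.natAbs_ne_zero.2 (ne_zero52 hx)
  have hy0 : y.natAbs ≠ 0 := Int.natAbs_ne_zero.2 (ne_zero52 hy)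
  have hxE := facz_lt hq hx
  have hyE := facz_lt hq hy
  apply le_antisymm
  · refine (hq.pow_dvd_iff_le_factorization hy0).1 ?_
    rw [← conv52, ← h1 _ hxE.le, conv52]
    exact (hq.pow_dvd_iff_le_factorization hx0).2 le_rfl
  · refine (hq.pow_dvd_iff_le_factorization hx0).1 ?_
    rw [← conv52, h1 _ hyE.le, conv52]
    exact (hq.pow_dvd_iff_le_factorization hy0).2 le_rfl

lemma gen52 {ι : Type*} [Fintype ι] (c d : ι → ℤ) (D m : ℕ) (hc : ∀ i, c i ≠ 0 ∧ |c i| ≤ D)
    (hm : D * Fintype.card ι < m) :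
    ∃ r : ℕ, ∀ U : ℕ, U ≡ r [MOD m] → ∀ i, ¬ ((m : ℤ) ∣ c i * U + d i) := by
  obtain ⟨r, -, hr⟩ := pigeon c d (m : ℤ) (by
    intro f y hy hy2
    exact not_dvd_small (hc f).1 (hc f).2 hy hy2 (by exact_mod_cast hm))
  refine ⟨r, fun U hU f hd => hr f ?_⟩
  have h2 : (m : ℤ) ∣ (r : ℤ) - U := Nat.modEq_iff_dvd.1 hU
  have h3 : c f * (r : ℤ) + d f = (c f * U + d f) + c f * ((r : ℤ) - U) := by ring
  rw [h3]
  exact dvd_add hd (Dvd.dvd.mul_left h2 _)

/-- at an auxiliary prime: valuation exactly `e` for the form `j`, at most `e` for the others -/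
lemma aux52 {ι : Type*} [Fintype ι] (c d : ι → ℤ) (D : ℕ) (hc : ∀ i, c i ≠ 0 ∧ |c i| ≤ D)
    (p : ℕ) (hp : p.Prime) (hpD : D * (Fintype.card ι + 1) < p) (j : ι) (e : ℕ) :
    ∃ r : ℕ, ∀ U : ℕ, U ≡ r [MOD p ^ (e + 1)] →
      (p : ℤ) ^ e ∣ c j * U + d j ∧ ∀ f, ¬ ((p : ℤ) ^ (e + 1) ∣ c f * U + d f) := by
  have hDp : D < p := by nlinarith [Nat.zero_le (D * Fintype.card ι)]
  have hcop : IsCoprime (c j) ((p : ℤ) ^ e) := by
    apply IsCoprime.pow_right
    have h1 : IsCoprime ((p : ℤ)) (c j) := by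
      rw [(Nat.prime_iff_prime_int.1 hp).coprime_iff_not_dvd]
      intro hd
      have h2 := Int.le_of_dvd (abs_pos.2 (hc j).1) ((dvd_abs _ _).2 hd)
      have h3 := (hc j).2
      have h4 : (D : ℤ) < p := by exact_mod_cast hDp
      omega
    exact h1.symm
  obtain ⟨u, v, huv⟩ := hcop
  have hpe : (0 : ℤ) < (p : ℤ) ^ e := by
    have := hp.pos
    positivity
  obtain ⟨r0, hr0⟩ : ∃ r0 : ℕ, (p : ℤ) ^ e ∣ c j * r0 + d j := by
    refine ⟨((-u * d j) % ((p : ℤ) ^ e)).toNat, ?_⟩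
    rw [Int.toNat_of_nonneg (Int.emod_nonneg _ hpe.ne')]
    have h1 : (p : ℤ) ^ e ∣ (-u * d j) % ((p : ℤ) ^ e) - (-u * d j) :=
      Int.emod_emod_of_dvd _ dvd_rfl |> Int.ModEq.dvd |> fun h => by
        rw [dvd_sub_comm]; exact h
    have h2 : c j * ((-u * d j) % ((p : ℤ) ^ e)) + d j =
        c j * ((-u * d j) % ((p : ℤ) ^ e) - (-u * d j)) + d j * (v * (p : ℤ) ^ e) := by
      have h3 : (v * (p : ℤ) ^ e) = 1 - u * c j := by linarith
      rw [h3]; ring
    rw [h2]
    exact dvd_add (Dvd.dvd.mul_left h1 _) (Dvd.dvd.mul_left (Dvd.intro_left _ rfl) _)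
  have hsm : ((D : ℤ) * ((Fintype.card ι : ℕ) : ℤ)) < (p : ℤ) := by
    have : D * Fintype.card ι < p := by nlinarith [Nat.zero_le D]
    exact_mod_cast this
  obtain ⟨x, -, hx⟩ := pigeon (fun f => c f * (p : ℤ) ^ e) (fun f => c f * r0 + d f)
    ((p : ℤ) ^ (e + 1)) (by
      intro f y hy hy2 hd
      have h1 : c f * (p : ℤ) ^ e * y = (p : ℤ) ^ e * (c f * y) := by ring
      rw [h1, pow_succ] at hd
      exact not_dvd_small (hc f).1 (hc f).2 hy hy2 hsm ((mul_dvd_mul_iff_left hpe.ne').1 hd))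
  refine ⟨r0 + p ^ e * x, fun U hU => ?_⟩
  have hUz : (p : ℤ) ^ (e + 1) ∣ ((r0 : ℤ) + (p : ℤ) ^ e * x) - U := by
    have := Nat.modEq_iff_dvd.1 hU
    push_cast at this
    exact this
  have h3 : ∀ f, c f * U + d f = (c f * (p : ℤ) ^ e * x + (c f * r0 + d f)) -
      c f * (((r0 : ℤ) + (p : ℤ) ^ e * x) - U) := fun f => by ring
  constructor
  · rw [h3]
    refine dvd_sub (dvd_add ?_ hr0) (Dvd.dvd.mul_left ((pow_dvd_pow _ (by omega)).trans hUz) _)
    exact ⟨c j * x, by ring⟩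
  · intro f hd
    rw [h3] at hd
    exact hx f ((dvd_sub_left (Dvd.dvd.mul_left hUz _)).1 hd)

theorem fix2_52 : FIX2Stmt := by
  classical
  intro K k D
  obtain ⟨n, hn⟩ : ∃ n, n = K + k := ⟨_, rfl⟩
  obtain ⟨E, hE⟩ : ∃ E, E = D * n + 1 := ⟨_, rfl⟩
  obtain ⟨q1, hq1⟩ : ∃ q1, q1 = D * (n + 1) := ⟨_, rfl⟩
  refine ⟨q1, (q1 + 1) * E + 1, fun w π G hπ hinj hG => ?_⟩
  obtain ⟨T, hT⟩ : ∃ T, T = E + (∑ f, G f) + 1 := ⟨_, rfl⟩
  obtain ⟨M, hM⟩ : ∃ M, M = w.factorial ^ T := ⟨_, rfl⟩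
  have hMpos : 0 < M := by rw [hM]; exact pow_pos (Nat.factorial_pos _) _
  have hMw : ∀ q : ℕ, q.Prime → (q ∣ M ↔ q ≤ w) := by
    intro q hq
    rw [hM]
    constructor
    · intro h
      exact (hq.dvd_factorial).1 (hq.dvd_of_dvd_pow h)
    · intro h
      exact dvd_pow ((hq.dvd_factorial).2 h) (by omega)
  have hMT : ∀ q : ℕ, q.Prime → q ≤ w → T ≤ M.factorization q := by
    intro q hq hqw
    rw [← hq.pow_dvd_iff_le_factorization hMpos.ne', hM]
    exact pow_dvd_pow_of_dvd ((hq.dvd_factorial).2 hqw) _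
  refine ⟨M, hMpos, hMw, fun A B a b hA ha hdet => ?_⟩
  obtain ⟨c, hcd⟩ : ∃ c : Fin K ⊕ Fin k → ℤ, c = Sum.elim A a := ⟨_, rfl⟩
  obtain ⟨d, hdd⟩ : ∃ d : Fin K ⊕ Fin k → ℤ, d = Sum.elim B b := ⟨_, rfl⟩
  have hc : ∀ i, c i ≠ 0 ∧ |c i| ≤ D := by
    rw [hcd]
    rintro (i | i)
    · exact hA i
    · exact ha i
  have hcard : Fintype.card (Fin K ⊕ Fin k) = n := by
    rw [Fintype.card_sum, Fintype.card_fin, Fintype.card_fin, hn]
  -- small primes
  have hs : ∀ q : ℕ, ∃ r : ℕ, q.Prime → ∀ U : ℕ, U ≡ r [MOD q ^ E] →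
      ∀ i, ¬ ((q : ℤ) ^ E ∣ c i * U + d i) := by
    intro q
    by_cases hq : q.Prime
    · have hm : D * Fintype.card (Fin K ⊕ Fin k) < q ^ E := by
        rw [hcard]
        calc D * n < E := by omega
          _ < 2 ^ E := Nat.lt_two_pow_self
          _ ≤ q ^ E := Nat.pow_le_pow_left hq.two_le _
      obtain ⟨r, hr⟩ := gen52 c d D (q ^ E) hc hm
      refine ⟨r, fun _ U hU i => ?_⟩
      have := hr U hU i
      push_cast at this
      exact this
    · exact ⟨0, fun h => absurd h hq⟩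
  choose rs hrs using hs
  obtain ⟨U1, hU1⟩ := crt w rs (fun _ => E)
  have hU1' : ∀ q : ℕ, q.Prime → q ≤ w → ∀ i, ¬ ((q : ℤ) ^ E ∣ c i * U1 + d i) :=
    fun q hq hqw => hrs q hq U1 (hU1 q hq hqw)
  obtain ⟨g, hg⟩ : ∃ g : Fin K → ℕ, ∀ j, g j =
      ∑ q ∈ ((range (q1 + 1)).filter Nat.Prime).filter (fun q => q ≤ w),
        (A j * U1 + B j).natAbs.factorization q := ⟨_, fun _ => rfl⟩
  have hgle : ∀ j, g j + 1 ≤ G j := by
    intro j
    have h1 : g j ≤ ∑ q ∈ ((range (q1 + 1)).filter Nat.Prime).filter (fun q => q ≤ w), E := by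
      rw [hg]
      apply sum_le_sum
      intro q hq
      rw [mem_filter, mem_filter, mem_range] at hq
      have h2 := hU1' q hq.1.2 hq.2 (Sum.inl j)
      rw [hcd, hdd] at h2
      exact (facz_lt hq.1.2 h2).le
    rw [sum_const, smul_eq_mul] at h1
    have h2 : (((range (q1 + 1)).filter Nat.Prime).filter (fun q => q ≤ w)).card ≤ q1 + 1 :=
      (card_filter_le _ _).trans ((card_filter_le _ _).trans (by rw [card_range]))
    have h3 := Nat.mul_le_mul_right E h2
    have := hG j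
    omega
  -- prescribed valuations
  obtain ⟨v, hv⟩ : ∃ v : Fin K → ℕ → ℕ, ∀ j q, v j q =
      if q ≤ q1 then (A j * U1 + B j).natAbs.factorization q
      else if q = π j then G j - g j else 0 := ⟨_, fun _ _ => rfl⟩
  have hGT : ∀ j, G j + E + 1 ≤ T := by
    intro j
    have := single_le_sum (f := G) (fun i _ => Nat.zero_le _) (mem_univ j)
    omega
  have hstep : ∀ q : ℕ, ∃ r m : ℕ, m ≤ T ∧ (q.Prime → q ≤ w → ∀ U : ℕ,
      U ≡ r [MOD q ^ m] →
        (∀ i, ¬ ((q : ℤ) ^ T ∣ c i * U + d i)) ∧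
        ∀ i, (A i * U + B i).natAbs.factorization q = v i q) := by
    intro q
    by_cases hq : q.Prime
    swap
    · exact ⟨0, 0, Nat.zero_le _, fun h => absurd h hq⟩
    by_cases hqq : q ≤ q1
    · refine ⟨U1, E, by omega, fun _ hqw U hU => ⟨fun f hd => ?_, fun i => ?_⟩⟩
      · have h1 := hU1' q hq hqw f
        apply h1
        have h2 : (q : ℤ) ^ E ∣ c f * U + d f := (pow_dvd_pow _ (by omega)).trans hd
        have h3 : ((q ^ E : ℕ) : ℤ) ∣ (U1 : ℤ) - U := Nat.modEq_iff_dvd.1 hU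
        push_cast at h3
        have h4 : c f * (U1 : ℤ) + d f = (c f * U + d f) + c f * ((U1 : ℤ) - U) := by ring
        rw [h4]
        exact dvd_add h2 (Dvd.dvd.mul_left h3 _)
      · rw [hv, if_pos hqq]
        have h1 := hU1' q hq hqw (Sum.inl i)
        rw [hcd, hdd] at h1
        have h3 : ((q ^ E : ℕ) : ℤ) ∣ (U1 : ℤ) - U := Nat.modEq_iff_dvd.1 hU
        push_cast at h3
        refine (facz_eq hq h1 ?_).symm
        simp only [Sum.elim_inl]
        have h4 : A i * (U1 : ℤ) + B i - (A i * U + B i) = A i * ((U1 : ℤ) - U) := by ring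
        rw [h4]
        exact Dvd.dvd.mul_left h3 _
    · by_cases hex : ∃ j, q = π j
      · obtain ⟨j, hj⟩ := hex
        obtain ⟨r, hr⟩ := aux52 c d D hc q hq (by rw [hcard]; omega) (Sum.inl j) (G j - g j)
        have hgj := hgle j
        have hGTj := hGT j
        refine ⟨r, G j - g j + 1, by omega, fun _ hqw U hU => ⟨fun f hd => ?_, fun i => ?_⟩⟩
        · exact (hr U hU).2 f ((pow_dvd_pow _ (by omega)).trans hd)
        · rw [hv, if_neg hqq]
          have h1 := (hr U hU).1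
          have h2 := (hr U hU).2 (Sum.inl i)
          rw [hcd, hdd] at h1 h2
          simp only [Sum.elim_inl] at h1 h2
          by_cases hij : i = j
          · rw [hij, if_pos hj]
            rw [hij] at h2
            have h3 := facz_lt hq h2
            rw [conv52] at h1
            have h4 := (hq.pow_dvd_iff_le_factorization
              (Int.natAbs_ne_zero.2 (ne_zero52 h2))).1 h1
            omega
          · rw [if_neg (fun h => hij (hinj (h.symm.trans hj)))]
            apply Nat.factorization_eq_zero_of_not_dvd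
            intro hd
            have h3 : (q : ℤ) ∣ A i * U + B i := Int.natCast_dvd.2 hd
            have h4 : (q : ℤ) ∣ A j * U + B j :=
              (dvd_pow_self (q : ℤ) (by omega)).trans h1
            apply hdet j i (fun h => hij h.symm)
            rw [← hj]
            have h5 : A j * B i - A i * B j = A j * (A i * U + B i) - A i * (A j * U + B j) := by
              ring
            rw [h5]
            exact dvd_sub (Dvd.dvd.mul_left h3 _) (Dvd.dvd.mul_left h4 _)
      · push Not at hex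
        have hnq : D * n < q := by
          have : D * n ≤ D * (n + 1) := Nat.mul_le_mul_left _ (by omega)
          omega
        obtain ⟨r, hr⟩ := gen52 c d D q hc (by rw [hcard]; exact hnq)
        refine ⟨r, 1, by omega, fun _ hqw U hU => ⟨fun f hd => ?_, fun i => ?_⟩⟩
        · rw [pow_one] at hU
          exact hr U hU f ((dvd_pow_self _ (by omega)).trans hd)
        · rw [pow_one] at hU
          rw [hv, if_neg hqq, if_neg (hex i)]
          apply Nat.factorization_eq_zero_of_not_dvd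
          intro hd
          have h1 := hr U hU (Sum.inl i)
          rw [hcd, hdd] at h1
          exact h1 (Int.natCast_dvd.2 hd)
  choose r m hm hrm using hstep
  obtain ⟨U2, hU2⟩ := crt w r m
  have hU0 : ∀ q : ℕ, q.Prime → q ≤ w → (U2 % M) ≡ r q [MOD q ^ m q] := by
    intro q hq hqw
    have h1 : q ^ m q ∣ M := by
      rw [hM]
      exact (pow_dvd_pow q (hm q)).trans
        (pow_dvd_pow_of_dvd (Nat.dvd_factorial hq.pos hqw) _)
    exact ((Nat.mod_modEq U2 M).of_dvd h1).trans (hU2 q hq hqw)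
  have hval : ∀ q : ℕ, q.Prime → q ≤ w → (∀ i, ¬ ((q : ℤ) ^ T ∣ c i * (U2 % M : ℕ) + d i)) ∧
      ∀ i, (A i * (U2 % M : ℕ) + B i).natAbs.factorization q = v i q :=
    fun q hq hqw => hrm q hq hqw _ (hU0 q hq hqw)
  refine ⟨U2 % M, (Nat.mod_lt _ hMpos).le, ?_, ?_⟩
  · intro f
    have hπf := hπ f
    have h0 := (hval (π f) hπf.1 hπf.2.2).1 (Sum.inl f)
    rw [hcd, hdd] at h0
    refine ⟨ne_zero52 h0, ?_⟩
    have h1 : ∑ q ∈ (range (w + 1)).filter Nat.Prime,
        (A f * (U2 % M : ℕ) + B f).natAbs.factorization q =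
        ∑ q ∈ (range (w + 1)).filter Nat.Prime, v f q := by
      apply sum_congr rfl
      intro q hq
      rw [mem_filter, mem_range] at hq
      exact (hval q hq.2 (by omega)).2 f
    rw [h1]
    have hsplit := sum_filter_add_sum_filter_not ((range (w + 1)).filter Nat.Prime)
      (fun q => q ≤ q1) (v f)
    rw [← hsplit]
    have h3 : ∑ q ∈ ((range (w + 1)).filter Nat.Prime).filter (fun q => q ≤ q1), v f q = g f := by
      rw [hg]
      apply sum_congr
      · ext q
        simp only [mem_filter, mem_range]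
        constructor
        · rintro ⟨⟨h4, h5⟩, h6⟩
          exact ⟨⟨by omega, h5⟩, by omega⟩
        · rintro ⟨⟨h4, h5⟩, h6⟩
          exact ⟨⟨by omega, h5⟩, by omega⟩
      · intro q hq
        simp only [mem_filter, mem_range] at hq
        rw [hv, if_pos (by omega)]
    have h4 : ∑ q ∈ ((range (w + 1)).filter Nat.Prime).filter (fun q => ¬ q ≤ q1), v f q =
        G f - g f := by
      rw [sum_eq_single (π f)]
      · rw [hv, if_neg (by omega), if_pos rfl]
      · intro q hq hne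
        rw [mem_filter] at hq
        rw [hv, if_neg hq.2, if_neg hne]
      · intro hq
        exfalso
        apply hq
        rw [mem_filter, mem_filter, mem_range]
        exact ⟨⟨by omega, hπf.1⟩, by omega⟩
    rw [h3, h4]
    have := hgle f
    omega
  · intro q hq hqw
    have h1 := hval q hq hqw
    have h2 := hMT q hq hqw
    constructor
    · intro f
      have h3 := h1.1 (Sum.inl f)
      rw [hcd, hdd] at h3
      have h4 := facz_lt hq h3
      simp only [Sum.elim_inl] at h4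
      exact lt_of_lt_of_le h4 h2
    · intro e hd
      have h3 := h1.1 (Sum.inr e)
      rw [hcd, hdd] at h3
      exact h3 ((pow_dvd_pow _ h2).trans hd)

end Pool.Agent.Lib.MT2.F52
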