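import Mathlib
import Pool.Agent.Lib.MT2.Fix2_52

/-!
Module FIXC: the class lemma, from FIX2.
-/

set_option autoImplicit false

namespace Pool.Agent.Lib.MT2.F52

open Finset
open Pool.Agent.Lib.MT2.Fix49 (card_gcd)
open ArithmeticFunction (cardFactors)

/-- reduction of one form to a coprime one -/
lemma form52 {w M D : ℕ} (hM : 0 < M) (hMw : ∀ q : ℕ, q.Prime → (q ∣ M ↔ q ≤ w)) (hw : 2 ≤ w)
    (hDw : D ≤ w) {c x : ℤ} (hc : 0 < c) (hcD : c ≤ D)
    (hx : ∀ q : ℕ, q.Prime → q ≤ w → ¬ ((q : ℤ) ^ M.factorization q ∣ x)) :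
    ∃ h a0 b0 : ℤ, c * M = h * a0 ∧ x = h * b0 ∧ 0 < h ∧ h ≤ D * M ∧
      cardFactors h.toNat = ∑ q ∈ (range (w + 1)).filter Nat.Prime, x.natAbs.factorization q ∧
      0 < a0 ∧ a0 ≤ D * M ∧ |b0| ≤ |x| ∧ IsCoprime a0 b0 ∧
      (∀ q : ℕ, q.Prime → q ≤ w → (q : ℤ) ∣ a0) ∧
      (∀ q : ℕ, q.Prime → (q : ℤ) ∣ a0 → q ≤ w) := by
  have hx0 : x ≠ 0 := ne_zero52 (hx 2 Nat.prime_two hw)
  lift c to ℕ using hc.le
  have hc' : 0 < c := by exact_mod_cast hc
  have hcD' : c ≤ D := by exact_mod_cast hcD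
  have hcM : 0 < c * M := Nat.mul_pos hc' hM
  obtain ⟨h, hh⟩ : ∃ h : ℕ, h = Nat.gcd (c * M) x.natAbs := ⟨_, rfl⟩
  have hpos : 0 < h := by rw [hh]; exact Nat.gcd_pos_of_pos_left _ hcM
  obtain ⟨a0, ha0⟩ : h ∣ c * M := by rw [hh]; exact Nat.gcd_dvd_left _ _
  have hxd : (h : ℤ) ∣ x := Int.natCast_dvd.2 (by rw [hh]; exact Nat.gcd_dvd_right _ _)
  obtain ⟨b0, hb0⟩ := hxd
  have ha0pos : 0 < a0 := Nat.pos_of_ne_zero (fun h0 => by
    rw [h0, mul_zero] at ha0
    omega)
  have hcMD : c * M ≤ D * M := Nat.mul_le_mul_right _ hcD'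
  have hhle : h ≤ c * M := Nat.le_of_dvd hcM (Dvd.intro _ ha0.symm)
  have hale : a0 ≤ c * M := Nat.le_of_dvd hcM (Dvd.intro_left _ ha0.symm)
  have hbig : ∀ q : ℕ, q.Prime → q ∣ c * M → q ≤ w := by
    intro q hq hd
    rcases (hq.dvd_mul).1 hd with h3 | h3
    · exact ((Nat.le_of_dvd hc' h3).trans hcD').trans hDw
    · exact (hMw q hq).1 h3
  have hcop : IsCoprime (a0 : ℤ) b0 := by
    rw [Int.isCoprime_iff_gcd_eq_one]
    have h1 : Int.gcd ((c * M : ℕ) : ℤ) x = h := by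
      rw [hh, Int.gcd, Int.natAbs_natCast]
    have h2 : Int.gcd ((h : ℤ) * a0) (h * b0) = h * Int.gcd (a0 : ℤ) b0 := by
      rw [Int.gcd_mul_left, Int.natAbs_natCast]
    have h3 : ((c * M : ℕ) : ℤ) = (h : ℤ) * a0 := by rw [ha0]; push_cast; ring
    rw [h3, hb0] at h1
    rw [h2] at h1
    exact Nat.eq_of_mul_eq_mul_left hpos (by rw [h1, mul_one])
  have hb0le : |b0| ≤ |x| := by
    rw [hb0, abs_mul]
    have h1 : (1 : ℤ) ≤ |(h : ℤ)| := by
      rw [abs_of_nonneg (by positivity)]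
      exact_mod_cast hpos
    nlinarith [abs_nonneg b0]
  refine ⟨h, a0, b0, ?_, hb0, by exact_mod_cast hpos, ?_, ?_, by exact_mod_cast ha0pos, ?_, hb0le,
    hcop, ?_, ?_⟩
  · exact_mod_cast ha0
  · exact_mod_cast hhle.trans hcMD
  · rw [Int.toNat_natCast, hh]
    apply card_gcd w (c * M) x.natAbs hcM.ne' (Int.natAbs_ne_zero.2 hx0)
    · intro q hq hqw
      have h1 := facz_lt hq (hx q hq hqw)
      have h2 : M.factorization q ≤ (c * M).factorization q :=
        (Nat.factorization_le_iff_dvd hM.ne' hcM.ne').2 (Dvd.intro_left _ rfl) q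
      omega
    · intro q hq hqw hd
      have := hbig q hq hd
      omega
  · exact_mod_cast hale.trans hcMD
  · intro q hq hqw
    by_contra hcon
    have hcon' : ¬ q ∣ a0 := fun h1 => hcon (by exact_mod_cast h1)
    have h4 : Nat.Coprime (q ^ M.factorization q) a0 :=
      Nat.Coprime.pow_left _ ((Nat.Prime.coprime_iff_not_dvd hq).2 hcon')
    have h5 : q ^ M.factorization q ∣ h * a0 := by
      rw [← ha0]
      exact (Nat.ordProj_dvd M q).mul_left _
    have h6 : q ^ M.factorization q ∣ h := h4.dvd_of_dvd_mul_right h5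
    apply hx q hq hqw
    rw [conv52]
    exact h6.trans (by rw [hh]; exact Nat.gcd_dvd_right _ _)
  · intro q hq hd
    have h3 : q ∣ a0 := by exact_mod_cast hd
    exact hbig q hq (by rw [ha0]; exact h3.mul_left _)

/-- one residue class modulo `p` -/
lemma cnt52 {p M : ℕ} (hp : p.Prime) (hpM : p ∣ M) (s t : ℤ)
    (h : (s ≠ 0 ∧ |s| < p) ∨ (s = 0 ∧ t ≠ 0 ∧ |t| < p)) :
    ((range M).filter (fun ν : ℕ => (p : ℤ) ∣ s * ν + t)).card ≤ M / p := by
  rcases h with ⟨h1, h2⟩ | ⟨h1, h2, h3⟩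
  · have hps : ¬ (p : ℤ) ∣ s := by
      intro hd
      have := Int.le_of_dvd (abs_pos.2 h1) ((dvd_abs _ _).2 hd)
      omega
    have hpz := Nat.prime_iff_prime_int.1 hp
    rw [← card_range (M / p)]
    apply card_le_card_of_injOn (fun ν => ν / p)
    · intro ν hν
      rw [mem_coe, mem_filter, mem_range] at hν
      rw [mem_coe, mem_range]
      exact Nat.div_lt_div_of_lt_of_dvd hpM hν.1
    · intro ν hν ν' hν' heq
      rw [mem_coe, mem_filter, mem_range] at hν hν'
      have h4 : (p : ℤ) ∣ s * ((ν : ℤ) - ν') := by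
        have h5 := dvd_sub hν.2 hν'.2
        have h6 : s * (ν : ℤ) + t - (s * ν' + t) = s * ((ν : ℤ) - ν') := by ring
        rwa [h6] at h5
      have h5 : (p : ℤ) ∣ (ν : ℤ) - ν' := (hpz.dvd_or_dvd h4).resolve_left hps
      have h6 : ν' ≡ ν [MOD p] := Nat.modEq_iff_dvd.2 h5
      have h7 : ν' % p = ν % p := h6
      have heq' : ν / p = ν' / p := heq
      rw [← Nat.div_add_mod ν p, ← Nat.div_add_mod ν' p, heq', h7]
  · rw [filter_false_of_mem, card_empty]
    · exact Nat.zero_le _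
    · intro ν _ hd
      rw [h1, zero_mul, zero_add] at hd
      have := Int.le_of_dvd (abs_pos.2 h2) ((dvd_abs _ _).2 hd)
      omega

/-- FIX2 for arbitrary index types -/
lemma fix2T (hF : FIX2Stmt) (ι κ : Type) [Fintype ι] [Fintype κ] (D : ℕ) :
    ∃ q1 G0 : ℕ, ∀ (w : ℕ) (π G : ι → ℕ), (∀ f, (π f).Prime ∧ q1 < π f ∧ π f ≤ w) →
    Function.Injective π → (∀ f, G0 ≤ G f) → ∃ M : ℕ, 0 < M ∧
    (∀ q : ℕ, q.Prime → (q ∣ M ↔ q ≤ w)) ∧
    ∀ (A B : ι → ℤ) (a b : κ → ℤ), (∀ f, A f ≠ 0 ∧ |A f| ≤ D) → (∀ e, a e ≠ 0 ∧ |a e| ≤ D) →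
    (∀ f g, f ≠ g → ¬ ((π f : ℤ) ∣ A f * B g - A g * B f)) →
    ∃ U0 : ℕ, U0 ≤ M ∧
      (∀ f, A f * U0 + B f ≠ 0 ∧
        ∑ q ∈ (range (w + 1)).filter Nat.Prime, (A f * U0 + B f).natAbs.factorization q = G f) ∧
      ∀ q : ℕ, q.Prime → q ≤ w →
        (∀ f, (A f * U0 + B f).natAbs.factorization q < M.factorization q) ∧
        ∀ e, ¬ ((q : ℤ) ^ M.factorization q ∣ a e * U0 + b e) := by
  obtain ⟨q1, G0, h⟩ := hF (Fintype.card ι) (Fintype.card κ) D
  refine ⟨q1, G0, fun w π G hπ hinj hG => ?_⟩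
  let e1 : Fin (Fintype.card ι) ≃ ι := (Fintype.equivFin ι).symm
  let e2 : Fin (Fintype.card κ) ≃ κ := (Fintype.equivFin κ).symm
  obtain ⟨M, hM, hMw, h⟩ := h w (π ∘ e1) (G ∘ e1) (fun f => hπ _) (hinj.comp e1.injective)
    (fun f => hG _)
  refine ⟨M, hM, hMw, fun A B a b hA ha hdet => ?_⟩
  obtain ⟨U0, hU0, h1, h2⟩ := h (A ∘ e1) (B ∘ e1) (a ∘ e2) (b ∘ e2) (fun f => hA _)
    (fun f => ha _) (fun f g hfg => hdet _ _ (fun hh => hfg (e1.injective hh)))
  refine ⟨U0, hU0, fun f => ?_, fun q hq hqw => ⟨fun f => ?_, fun f => ?_⟩⟩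
  · have := h1 (e1.symm f)
    simpa only [Function.comp_apply, Equiv.apply_symm_apply] using this
  · have := (h2 q hq hqw).1 (e1.symm f)
    simpa only [Function.comp_apply, Equiv.apply_symm_apply] using this
  · have := (h2 q hq hqw).2 (e2.symm f)
    simpa only [Function.comp_apply, Equiv.apply_symm_apply] using this

theorem fixc_52 (hF : FIX2Stmt) : FIXCStmt := by
  classical
  intro K ι _ D ε hε
  obtain ⟨q1, G0, hF⟩ := fix2T hF (Fin K ⊕ ι) ι D
  refine ⟨G0, fun G G' hG hG' => ?_⟩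
  obtain ⟨n, hn⟩ : ∃ n, n = Fintype.card (Fin K ⊕ ι) := ⟨_, rfl⟩
  obtain ⟨P1, hP1⟩ := exists_nat_ge ((n : ℝ) * n / ε)
  obtain ⟨P, hP⟩ : ∃ P, P = q1 + 2 * D * D + 2 * D + P1 := ⟨_, rfl⟩
  have hπ0 : ∃ π : Fin K ⊕ ι → ℕ, (∀ j, (π j).Prime ∧ P < π j) ∧ Function.Injective π := by
    let e1 : Fin K ⊕ ι ≃ Fin (Fintype.card (Fin K ⊕ ι)) := Fintype.equivFin _
    refine ⟨fun j => Nat.nth Nat.Prime (P + (e1 j : ℕ)), fun j =>
      ⟨Nat.prime_nth_prime _, ?_⟩, fun i j h => e1.injective (Fin.ext ?_)⟩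
    · have := Nat.add_two_le_nth_prime (P + (e1 j : ℕ))
      beta_reduce
      omega
    · have := Nat.nth_injective Nat.infinite_setOfPred_prime h
      omega
  obtain ⟨π, hπ, hinj⟩ := hπ0
  refine ⟨2 + D + ∑ f, π f, fun w hw => ?_⟩
  have hπw : ∀ f, π f ≤ w := fun f => by
    have := single_le_sum (f := π) (fun i _ => Nat.zero_le _) (mem_univ f)
    omega
  have hw2 : 2 ≤ w := by omega
  have hDw : D ≤ w := by omega
  obtain ⟨M, hM, hMw, hF⟩ := hF w π (Sum.elim (fun _ => G) G')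
    (fun f => ⟨(hπ f).1, by have := (hπ f).2; omega, hπw f⟩) hinj (by
      rintro (f | f)
      · exact hG
      · exact hG' f)
  refine ⟨M, 4 * (D + 1) * (M + 1), hM, by nlinarith [Nat.zero_le (D * M)], hMw, ?_⟩
  intro A B a c δ' hAB hdet hac hdist hδ hδD
  obtain ⟨AA, hAA⟩ : ∃ AA : Fin K ⊕ ι → ℤ, AA = Sum.elim A (fun e => - a e) := ⟨_, rfl⟩
  obtain ⟨BB, hBB⟩ : ∃ BB : ℤ → Fin K ⊕ ι → ℤ,
      BB = fun ν => Sum.elim B (fun e => ν - c e) := ⟨_, rfl⟩
  obtain ⟨Bad, hBad⟩ : ∃ Bad : Finset ℕ, Bad = (range M).filter (fun ν : ℕ => ∃ f g, f ≠ g ∧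
      (π f : ℤ) ∣ AA f * BB ν g - AA g * BB ν f) := ⟨_, rfl⟩
  have hDD : (2 : ℤ) * D * D + 2 * D ≤ P := by
    have : 2 * D * D + 2 * D ≤ P := by omega
    exact_mod_cast this
  have hD0 : (0 : ℤ) ≤ D := by positivity
  have hpairs : ∀ f g, f ≠ g → ((range M).filter (fun ν : ℕ =>
      (π f : ℤ) ∣ AA f * BB ν g - AA g * BB ν f)).card ≤ M / π f := by
    intro f g hfg
    have hp := (hπ f).1
    have hPf : (P : ℤ) < π f := by exact_mod_cast (hπ f).2
    have hpM : π f ∣ M := (hMw _ hp).2 (hπw f)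
    obtain ⟨s, t, hst, hcase⟩ : ∃ s t : ℤ, (∀ ν : ℤ, AA f * BB ν g - AA g * BB ν f = s * ν + t) ∧
        ((s ≠ 0 ∧ |s| < π f) ∨ (s = 0 ∧ t ≠ 0 ∧ |t| < π f)) := by
      rcases f with i | e
      · rcases g with j | e'
        · have h1 := hAB i
          have h2 := hAB j
          refine ⟨0, A i * B j - A j * B i, fun ν => by rw [hAA, hBB]; simp, Or.inr ⟨rfl, ?_, ?_⟩⟩
          · intro h0
            exact hdet i j (fun h => hfg (by rw [h])) (sub_eq_zero.1 h0)
          · rw [abs_lt]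
            have e1 : A i * B j ≤ D * D := mul_le_mul h1.2.1 h2.2.2.2 h2.2.2.1.le hD0
            have e2 : A j * B i ≤ D * D := mul_le_mul h2.2.1 h1.2.2.2 h1.2.2.1.le hD0
            have e3 : 0 ≤ A i * B j := mul_nonneg h1.1.le h2.2.2.1.le
            have e4 : 0 ≤ A j * B i := mul_nonneg h2.1.le h1.2.2.1.le
            constructor <;> nlinarith
        · have h1 := hAB i
          refine ⟨A i, -A i * c e' + a e' * B i, fun ν => by rw [hAA, hBB]; simp; ring,
            Or.inl ⟨h1.1.ne', ?_⟩⟩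
          rw [abs_of_pos h1.1]
          nlinarith
      · rcases g with j | e'
        · have h1 := hAB j
          refine ⟨-A j, -a e * B j + A j * c e, fun ν => by rw [hAA, hBB]; simp; ring,
            Or.inl ⟨by have := h1.1; omega, ?_⟩⟩
          rw [abs_neg, abs_of_pos h1.1]
          nlinarith
        · have h1 := hac e
          have h2 := hac e'
          refine ⟨a e' - a e, a e * c e' - a e' * c e, fun ν => by rw [hAA, hBB]; simp; ring, ?_⟩
          by_cases hs : a e' - a e = 0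
          · right
            have h3 : a e' = a e := by omega
            have h4 : c e' ≠ c e := by
              intro h5
              exact hdist e e' (fun h => hfg (by rw [h])) ⟨h3.symm, h5.symm⟩
            refine ⟨hs, ?_, ?_⟩
            · rw [h3]
              intro h0
              have h5 : a e * (c e' - c e) = 0 := by linarith
              rcases mul_eq_zero.1 h5 with h6 | h6
              · omega
              · exact h4 (by omega)
            · rw [h3]
              have h5 : a e * c e' - a e * c e = a e * (c e' - c e) := by ring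
              rw [h5, abs_mul, abs_of_pos h1.1]
              have h6 : |c e' - c e| ≤ 2 * D := by
                have := abs_sub (c e') (c e)
                have := h1.2.2
                have := h2.2.2
                omega
              have h7 : a e * |c e' - c e| ≤ D * (2 * D) :=
                mul_le_mul h1.2.1 h6 (abs_nonneg _) hD0
              nlinarith
          · left
            refine ⟨hs, ?_⟩
            rw [abs_lt]
            constructor <;> nlinarith
    have h1 := cnt52 hp hpM s t hcase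
    simp only [hst]
    exact h1
  have hBadcard : (Bad.card : ℝ) ≤ ε * M := by
    have h1 : Bad ⊆ (univ : Finset ((Fin K ⊕ ι) × (Fin K ⊕ ι))).biUnion (fun x =>
        if x.1 ≠ x.2 then (range M).filter (fun ν : ℕ =>
          (π x.1 : ℤ) ∣ AA x.1 * BB ν x.2 - AA x.2 * BB ν x.1) else ∅) := by
      intro ν hν
      rw [hBad, mem_filter] at hν
      obtain ⟨hν1, f, g, hfg, hd⟩ := hν
      rw [mem_biUnion]
      refine ⟨(f, g), mem_univ _, ?_⟩
      rw [if_pos hfg, mem_filter]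
      exact ⟨hν1, hd⟩
    have h2 : ∀ x ∈ (univ : Finset ((Fin K ⊕ ι) × (Fin K ⊕ ι))),
        (((if x.1 ≠ x.2 then (range M).filter (fun ν : ℕ =>
          (π x.1 : ℤ) ∣ AA x.1 * BB ν x.2 - AA x.2 * BB ν x.1) else ∅).card : ℕ) : ℝ) ≤
          M / (P1 + 1) := by
      intro x _
      split_ifs with hx
      · have h3 := hpairs x.1 x.2 hx
        have h4 : ((M / π x.1 : ℕ) : ℝ) ≤ (M : ℝ) / π x.1 := Nat.cast_div_le
        have h5 : (P1 : ℝ) + 1 ≤ π x.1 := by
          have := (hπ x.1).2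
          exact_mod_cast (by omega : P1 + 1 ≤ π x.1)
        calc _ ≤ ((M / π x.1 : ℕ) : ℝ) := by exact_mod_cast h3
          _ ≤ (M : ℝ) / π x.1 := h4
          _ ≤ M / (P1 + 1) := by
              apply div_le_div_of_nonneg_left (by positivity) (by positivity) h5
      · rw [card_empty]
        push_cast
        positivity
    have h3 : (Bad.card : ℝ) ≤ ∑ x : (Fin K ⊕ ι) × (Fin K ⊕ ι), (M : ℝ) / (P1 + 1) := by
      calc (Bad.card : ℝ) ≤ ((∑ x : (Fin K ⊕ ι) × (Fin K ⊕ ι),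
            (if x.1 ≠ x.2 then (range M).filter (fun ν : ℕ =>
          (π x.1 : ℤ) ∣ AA x.1 * BB ν x.2 - AA x.2 * BB ν x.1) else ∅).card : ℕ) : ℝ) := by
            exact_mod_cast (card_le_card h1).trans card_biUnion_le
        _ ≤ _ := by
            push_cast
            exact sum_le_sum h2
    refine h3.trans ?_
    rw [sum_const, card_univ, Fintype.card_prod, ← hn, nsmul_eq_mul]
    push_cast
    have h4 : (n : ℝ) * n ≤ ε * (P1 + 1) := by
      rw [div_le_iff₀ hε] at hP1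
      nlinarith
    have h5 : (0 : ℝ) < (P1 : ℝ) + 1 := by positivity
    rw [mul_div_assoc', div_le_iff₀ h5]
    have h6 : (0 : ℝ) ≤ M := by positivity
    calc (n : ℝ) * n * M ≤ ε * (P1 + 1) * M := mul_le_mul_of_nonneg_right h4 h6
      _ = ε * M * (P1 + 1) := by ring
  refine ⟨Bad, hBadcard, fun ν hν hνB => ?_⟩
  have hdet' : ∀ f g, f ≠ g → ¬ ((π f : ℤ) ∣ AA f * BB ν g - AA g * BB ν f) := by
    intro f g hfg hd
    apply hνB
    rw [hBad, mem_filter]
    exact ⟨hν, f, g, hfg, hd⟩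
  obtain ⟨U0, hU0, hsum, hval⟩ := hF AA (BB ν) (fun e => - a e) (fun e => ν - c e + δ')
    (by
      rw [hAA]
      rintro (i | e)
      · have := hAB i
        exact ⟨this.1.ne', by rw [Sum.elim_inl, abs_of_pos this.1]; exact this.2.1⟩
      · have := hac e
        refine ⟨by rw [Sum.elim_inr]; omega, ?_⟩
        rw [Sum.elim_inr, abs_neg, abs_of_pos this.1]
        exact this.2.1)
    (by
      intro e
      have := hac e
      exact ⟨by omega, by rw [abs_neg, abs_of_pos this.1]; exact this.2.1⟩) hdet'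
  have hndvd : ∀ (f : Fin K ⊕ ι) (q : ℕ), q.Prime → q ≤ w →
      ¬ ((q : ℤ) ^ M.factorization q ∣ AA f * U0 + BB ν f) := by
    intro f q hq hqw hd
    rw [conv52] at hd
    have h1 := (hq.pow_dvd_iff_le_factorization (Int.natAbs_ne_zero.2 (hsum f).1)).1 hd
    have h2 := (hval q hq hqw).1 f
    omega
  have hMq : ∀ q : ℕ, (q : ℤ) ^ M.factorization q ∣ (M : ℤ) := by
    intro q
    have := Nat.ordProj_dvd M q
    exact_mod_cast this
  -- main forms
  have hmain : ∀ j : Fin K, ∃ h a0 b0 : ℤ, A j * M = h * a0 ∧ A j * U0 + B j = h * b0 ∧ 0 < h ∧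
      h ≤ D * M ∧ cardFactors h.toNat = G ∧
      0 < a0 ∧ a0 ≤ D * M ∧ |b0| ≤ |A j * U0 + B j| ∧ IsCoprime a0 b0 ∧
      (∀ q : ℕ, q.Prime → q ≤ w → (q : ℤ) ∣ a0) ∧
      (∀ q : ℕ, q.Prime → (q : ℤ) ∣ a0 → q ≤ w) := by
    intro j
    have h1 := hsum (Sum.inl j)
    have h2 := hndvd (Sum.inl j)
    rw [hAA, hBB] at h1 h2
    simp only [Sum.elim_inl] at h1 h2
    obtain ⟨h, a0, b0, e1, e2, e3, e4, e5, e6⟩ := form52 hM hMw hw2 hDw (hAB j).1 (hAB j).2.1 h2
    exact ⟨h, a0, b0, e1, e2, e3, e4, e5.trans h1.2, e6⟩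
  choose h α β hα hβ hh hhD hcf hαpos hαle hβle hcop hsm hlg using hmain
  have hU0z : (U0 : ℤ) ≤ M := by exact_mod_cast hU0
  have hM0 : (0 : ℤ) ≤ M := by positivity
  have hDM0 : (0 : ℤ) ≤ D * M := by positivity
  have hCw : ((4 * (D + 1) * (M + 1) : ℕ) : ℤ) = 4 * (D * M) + 4 * D + 4 * M + 4 := by
    push_cast
    ring
  have hAU : ∀ j, |A j * U0 + B j| ≤ D * M + D := by
    intro j
    have h1 := hAB j
    have h2 : A j * U0 ≤ D * M := mul_le_mul h1.2.1 hU0z (by positivity) hD0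
    have h3 : 0 ≤ A j * U0 := mul_nonneg h1.1.le (by positivity)
    rw [abs_of_nonneg (by omega)]
    omega
  refine ⟨U0, h, α, β, by nlinarith [Nat.zero_le (D * M)], fun j => ?_, ?_, ?_⟩
  · refine ⟨hα j, hβ j, hh j, ?_, hcf j⟩
    rw [hCw]
    have := hhD j
    omega
  · refine ⟨fun j => ⟨hαpos j, ?_⟩, fun j => ⟨?_, ?_⟩, hcop, hsm, hlg, ?_⟩
    · have h1 := hAB j
      have h2 : 0 ≤ A j * U0 := mul_nonneg h1.1.le (by positivity)
      have h3 : 0 < h j * β j := by rw [← hβ j]; omega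
      have h4 : 0 < β j := (mul_pos_iff_of_pos_left (hh j)).1 h3
      have := hαpos j
      omega
    · rw [hCw]
      have := hαle j
      omega
    · rw [hCw]
      have := hβle j
      have := hAU j
      omega
    · intro i j hij h0
      have h3 : h i * h j * (α i * β j - α j * β i) = M * (A i * B j - A j * B i) := by
        calc h i * h j * (α i * β j - α j * β i) =
            (h i * α i) * (h j * β j) - (h j * α j) * (h i * β i) := by ring
          _ = M * (A i * B j - A j * B i) := by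
              rw [← hα i, ← hα j, ← hβ i, ← hβ j]; ring
      have h4 : α i * β j - α j * β i = 0 := by linarith
      rw [h4, mul_zero] at h3
      rcases mul_eq_zero.1 h3.symm with h6 | h6
      · exact absurd h6 (by exact_mod_cast hM.ne')
      · exact hdet i j hij (sub_eq_zero.1 h6)
  · intro e ρ hρ0 hρ hρν
    have hae := hac e
    have hρD : ρ < D * M := lt_of_lt_of_le hρ (mul_le_mul_of_nonneg_right hae.2.1 hM0)
    have haU : a e * U0 ≤ D * M := mul_le_mul hae.2.1 hU0z (by positivity) hD0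
    have haU0 : 0 ≤ a e * U0 := mul_nonneg hae.1.le (by positivity)
    have hce := abs_le.1 hae.2.2
    have hδ2 := abs_le.1 hδD
    constructor
    · have h1 := hsum (Sum.inr e)
      have h2 := hndvd (Sum.inr e)
      rw [hAA, hBB] at h1 h2
      simp only [Sum.elim_inr] at h1 h2
      have hdiff : (M : ℤ) ∣ (-a e * U0 + ((ν : ℤ) - c e)) - (ρ - a e * U0 - c e) := by
        have h3 : (-a e * U0 + ((ν : ℤ) - c e)) - (ρ - a e * U0 - c e) = -(ρ - ν) := by ring
        rw [h3]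
        exact hρν.neg_right
      have hx : ∀ q : ℕ, q.Prime → q ≤ w →
          ¬ ((q : ℤ) ^ M.factorization q ∣ ρ - a e * U0 - c e) := by
        intro q hq hqw hd
        apply h2 q hq hqw
        have := dvd_add ((hMq q).trans hdiff) hd
        rwa [sub_add_cancel] at this
      obtain ⟨h0, a0, b0, e1, e2, e3, e4, e5, e6, e7, e8, e9, e10, e11⟩ :=
        form52 hM hMw hw2 hDw hae.1 hae.2.1 hx
      refine ⟨h0, a0, b0, e1, e2, e3, ?_, ?_, e6, ⟨?_, ?_⟩, e9, e10, e11⟩
      · rw [hCw]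
        omega
      · rw [e5, ← h1.2]
        apply sum_congr rfl
        intro q hq
        rw [mem_filter, mem_range] at hq
        exact (facz_eq hq.2 (h2 q hq.2 (by omega)) ((hMq q).trans hdiff)).symm
      · rw [hCw]
        omega
      · rw [hCw]
        have h3 : |ρ - a e * U0 - c e| ≤ 2 * (D * M) + D := by
          rw [abs_le]
          constructor <;> omega
        omega
    · have hx : ∀ q : ℕ, q.Prime → q ≤ w →
          ¬ ((q : ℤ) ^ M.factorization q ∣ ρ - a e * U0 - c e + δ') := by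
        intro q hq hqw hd
        apply (hval q hq hqw).2 e
        have h3 : -a e * U0 + ((ν : ℤ) - c e + δ') = (ρ - a e * U0 - c e + δ') - (ρ - ν) := by ring
        rw [h3]
        exact dvd_sub hd ((hMq q).trans hρν)
      obtain ⟨h0, a0, b0, e1, e2, e3, e4, e5, e6, e7, e8, e9, e10, e11⟩ :=
        form52 hM hMw hw2 hDw hae.1 hae.2.1 hx
      refine ⟨h0, a0, b0, e1, e2, e3, ?_, e6, ⟨?_, ?_⟩, e9, e10, e11⟩
      · rw [hCw]
        omega
      · rw [hCw]
        omega
      · rw [hCw]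
        have h3 : |ρ - a e * U0 - c e + δ'| ≤ 2 * (D * M) + 2 * D := by
          rw [abs_le]
          constructor <;> omega
        omega

end Pool.Agent.Lib.MT2.F52
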