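import Mathlib
import Pool.Agent.Lib.MT2.Stmts2
import Pool.Agent.Lib.TwinAll.Aff81
import Pool.Agent.Lib.TwinAll.Basic94

/-!
MT2, modules NPR, HC, WB, MERT.
-/

set_option autoImplicit false

namespace Pool.Agent.Lib.MT2

open Finset
open Pool.Agent.Lib.TwinAll (PP Rough om VV nu ee)

/-- NPR -/
theorem npr_39 : NPRStmt := by
  intro z E n hz hn hlt S hS
  have h1 : ∏ q ∈ S, q ∣ n.natAbs := by
    apply Finset.prod_primes_dvd
    · intro q hq; exact (hS q hq).1.prime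
    · intro q hq; exact Int.natCast_dvd.1 (hS q hq).2.2
  have h2 : z ^ S.card ≤ ∏ q ∈ S, q := by
    rw [← Finset.prod_const]
    exact Finset.prod_le_prod (fun _ _ => Nat.zero_le _) (fun q hq => (hS q hq).2.1.le)
  have h3 : ∏ q ∈ S, q ≤ n.natAbs := Nat.le_of_dvd (Int.natAbs_pos.2 hn) h1
  have h4 : n.natAbs < z ^ E := by
    have : ((n.natAbs : ℕ) : ℤ) < ((z ^ E : ℕ) : ℤ) := by
      rw [Int.natCast_natAbs]; push_cast; exact hlt
    exact_mod_cast this
  exact (Nat.pow_lt_pow_iff_right (by omega : 1 < z)).1 (lt_of_le_of_lt (h2.trans h3) h4)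

/-- HC -/
theorem hc_39 : HCStmt := by
  intro K C0 z0 z R α β hMF hz _ D U hD hH x hx y hy hxy
  have hx' : x ∈ D := hx
  have hy' : y ∈ D := hy
  by_contra hne
  have h2 : x.2 ≠ y.2 := fun h => hne (Prod.ext hxy h)
  have hxP := hD hx'
  unfold PI at hxP
  rw [Finset.mem_product, TwinAll.A81.mem_PP] at hxP
  have hd1 := hH x hx'
  have hd2 := hH y hy'
  rw [← hxy] at hd2
  have hd3 : (x.1 : ℤ) ∣ α y.2 * β x.2 - α x.2 * β y.2 := by
    have := (hd1.mul_left (α y.2)).sub (hd2.mul_left (α x.2))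
    have e : α y.2 * (α x.2 * U + β x.2) - α x.2 * (α y.2 * U + β y.2) =
      α y.2 * β x.2 - α x.2 * β y.2 := by ring
    rwa [e] at this
  have hne0 : α y.2 * β x.2 - α x.2 * β y.2 ≠ 0 := by
    intro h0
    exact hMF.det y.2 x.2 (Ne.symm h2) (by linarith)
  have hle := Int.le_of_dvd (abs_pos.2 hne0) ((dvd_abs _ _).2 hd3)
  have hb1 : |α y.2 * β x.2| ≤ C0 * C0 := by
    rw [abs_mul]
    exact mul_le_mul (by rw [abs_of_pos (hMF.pos _).1]; exact (hMF.bd _).1) (hMF.bd _).2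
      (abs_nonneg _) (by positivity)
  have hb2 : |α x.2 * β y.2| ≤ C0 * C0 := by
    rw [abs_mul]
    exact mul_le_mul (by rw [abs_of_pos (hMF.pos _).1]; exact (hMF.bd _).1) (hMF.bd _).2
      (abs_nonneg _) (by positivity)
  have hb3 : |α y.2 * β x.2 - α x.2 * β y.2| ≤ C0 * C0 + C0 * C0 :=
    (abs_sub _ _).trans (add_le_add hb1 hb2)
  have hz' : (2 : ℤ) * (C0 : ℤ) ^ 2 + 2 ≤ z := by exact_mod_cast hz
  have hq : (z : ℤ) < x.1 := by exact_mod_cast hxP.1.1
  nlinarith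

/-- WB -/
theorem wb_39 : WBStmt := by
  intro K B C0
  refine ⟨2 * C0 + 2, fun z hz z0 R C1 c α β hMF hc U hU1 hU2 => ?_⟩
  classical
  have hC1 : 0 ≤ C1 := (abs_nonneg _).trans (hc ∅)
  obtain ⟨T, hT⟩ : ∃ T : Cond K, T = (PI z R K).filter
    (fun x => (x.1 : ℤ) ∣ α x.2 * U + β x.2) := ⟨_, rfl⟩
  have hTmem : ∀ x, x ∈ T ↔ x ∈ PI z R K ∧ (x.1 : ℤ) ∣ α x.2 * U + β x.2 := by
    intro x; rw [hT]; simp [Finset.mem_filter]
  -- the number of conditions which hold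
  have hTj : ∀ j : Fin K, (T.filter (fun x => x.2 = j)).card < B + 1 := by
    intro j
    have hcard : (T.filter (fun x => x.2 = j)).card =
        ((T.filter (fun x => x.2 = j)).image Prod.fst).card := by
      rw [Finset.card_image_of_injOn]
      intro x hx y hy hxy
      have hx' := (Finset.mem_filter.1 (Finset.mem_coe.1 hx)).2
      have hy' := (Finset.mem_filter.1 (Finset.mem_coe.1 hy)).2
      exact Prod.ext hxy (hx'.trans hy'.symm)
    rw [hcard]
    have hpos : 0 < α j * U + β j := by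
      have h1 := (hMF.pos j).1
      have h2 := (hMF.pos j).2
      nlinarith
    refine npr_39 z (B + 1) (α j * U + β j) (by omega) hpos.ne' ?_ _ ?_
    · rw [abs_of_pos hpos]
      have h1 := (hMF.bd j).1
      have h2 := (abs_le.1 (hMF.bd j).2).2
      have h3 := (hMF.pos j).1
      have hzB : (1 : ℤ) ≤ (z : ℤ) ^ B := one_le_pow₀ (by exact_mod_cast (by omega : 1 ≤ z))
      have hz' : (2 : ℤ) * C0 + 2 ≤ z := by exact_mod_cast hz
      have hC0 : (0 : ℤ) ≤ C0 := by positivity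
      have h5 : α j * U ≤ C0 * (z : ℤ) ^ B := mul_le_mul h1 hU2 (by omega) hC0
      rw [pow_succ]
      nlinarith
    · intro q hq
      rw [Finset.mem_image] at hq
      obtain ⟨x, hx, rfl⟩ := hq
      rw [Finset.mem_filter, hTmem] at hx
      have hxP := hx.1.1
      unfold PI at hxP
      rw [Finset.mem_product, TwinAll.A81.mem_PP] at hxP
      have hx2 := hx.1.2
      rw [hx.2] at hx2
      exact ⟨hxP.1.2.2, hxP.1.1, hx2⟩
  have hTc : T.card ≤ K * (B + 1) := by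
    have h1 : T.card = ∑ j : Fin K, (T.filter (fun x => x.2 = j)).card :=
      Finset.card_eq_sum_card_fiberwise (fun x _ => Finset.mem_univ _)
    rw [h1]
    calc ∑ j : Fin K, (T.filter (fun x => x.2 = j)).card ≤ ∑ _j : Fin K, (B + 1) :=
          Finset.sum_le_sum (fun j _ => (hTj j).le)
      _ = K * (B + 1) := by simp
  -- the weight is a sum over the subsets of `T`
  have hsub : ∀ D ∈ (PI z R K).powerset, D ∉ T.powerset →
      c D * (if Holds α β D U then (1 : ℝ) else 0) = 0 := by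
    intro D hD hDT
    rw [if_neg, mul_zero]
    intro hH
    apply hDT
    rw [Finset.mem_powerset] at hD ⊢
    intro x hx
    exact (hTmem x).2 ⟨hD hx, hH x hx⟩
  have hTP : T.powerset ⊆ (PI z R K).powerset := by
    apply Finset.powerset_mono.2
    intro x hx
    exact ((hTmem x).1 hx).1
  have hw : wt z R c α β U = ∑ D ∈ T.powerset, c D * (if Holds α β D U then (1 : ℝ) else 0) := by
    unfold wt
    rw [← Finset.sum_subset hTP hsub]
  rw [hw]
  calc |∑ D ∈ T.powerset, c D * (if Holds α β D U then (1 : ℝ) else 0)|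
      ≤ ∑ D ∈ T.powerset, |c D * (if Holds α β D U then (1 : ℝ) else 0)| :=
        Finset.abs_sum_le_sum_abs _ _
    _ ≤ ∑ _D ∈ T.powerset, C1 := by
        refine Finset.sum_le_sum (fun D _ => ?_)
        rw [abs_mul]
        have h1 : |if Holds α β D U then (1 : ℝ) else 0| ≤ 1 := by
          split_ifs <;> simp
        calc |c D| * |if Holds α β D U then (1 : ℝ) else 0| ≤ C1 * 1 :=
              mul_le_mul (hc D) h1 (abs_nonneg _) hC1
          _ = C1 := mul_one _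
    _ = 2 ^ T.card * C1 := by
        rw [Finset.sum_const, Finset.card_powerset, nsmul_eq_mul]
        push_cast; rfl
    _ ≤ 2 ^ (K * (B + 1)) * C1 := by
        apply mul_le_mul_of_nonneg_right _ hC1
        exact pow_le_pow_right₀ (by norm_num) hTc
    _ = C1 * 2 ^ (K * (B + 1)) := mul_comm _ _

namespace S39

/-- `n ↦ 1 / n` -/
noncomputable def rec1 : ℕ →* ℝ where
  toFun n := (n : ℝ)⁻¹
  map_one' := by simp
  map_mul' m n := by
    push_cast
    exact mul_inv _ _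

/-- the Mertens product -/
theorem prod_le {z : ℕ} (hz : 2 ≤ z) :
    ∏ p ∈ PP 1 z, (1 - 1 / (p : ℝ)) ≤ 1 / Real.log z := by
  have hlog : 0 < Real.log z := Real.log_pos (by exact_mod_cast (by omega : 1 < z))
  have hE := EulerProduct.summable_and_hasSum_smoothNumbers_prod_primesBelow_geometric
    (f := rec1) (fun {p} hp => by
      change ‖((p : ℝ))⁻¹‖ < 1
      rw [norm_inv, Real.norm_natCast]
      exact inv_lt_one_of_one_lt₀ (by exact_mod_cast hp.one_lt)) (z + 1)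
  have hsub : ∀ n ∈ Icc 1 z, n ∈ Nat.smoothNumbers (z + 1) := by
    intro n hn
    rw [mem_Icc] at hn
    rw [Nat.mem_smoothNumbers]
    refine ⟨by omega, fun p hp => ?_⟩
    have := Nat.le_of_mem_primeFactorsList hp
    omega
  have hle : ∑ n ∈ Icc 1 z, (n : ℝ)⁻¹ ≤ ∏ p ∈ (z + 1).primesBelow, (1 - rec1 p)⁻¹ := by
    have h1 : ∑ n ∈ Icc 1 z, (n : ℝ)⁻¹ =
        ∑ n ∈ (Icc 1 z).attach.map ⟨fun n => (⟨n.1, hsub n.1 n.2⟩ : Nat.smoothNumbers (z + 1)),
          fun a b h => Subtype.ext (by simpa using h)⟩, rec1 (n : ℕ) := by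
      rw [Finset.sum_map]
      change _ = ∑ n ∈ (Icc 1 z).attach, ((n : ℕ) : ℝ)⁻¹
      exact (Finset.sum_attach (Icc 1 z) (fun n => ((n : ℕ) : ℝ)⁻¹)).symm
    rw [h1]
    refine sum_le_hasSum _ (fun n _ => ?_) hE.2
    change 0 ≤ ((n : ℕ) : ℝ)⁻¹
    positivity
  have hlogle : Real.log z ≤ ∑ n ∈ Icc 1 z, (n : ℝ)⁻¹ := by
    have h2 := log_le_harmonic_floor (z : ℝ) (by positivity)
    rw [Nat.floor_natCast, harmonic_eq_sum_Icc] at h2
    push_cast at h2
    exact h2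
  have hprod : ∏ p ∈ (z + 1).primesBelow, (1 - rec1 p)⁻¹ =
      (∏ p ∈ PP 1 z, (1 - 1 / (p : ℝ)))⁻¹ := by
    have hset : (z + 1).primesBelow = PP 1 z := by
      ext p
      rw [Nat.mem_primesBelow, TwinAll.A81.mem_PP]
      constructor
      · rintro ⟨h1, h2⟩
        exact ⟨h2.one_lt, by omega, h2⟩
      · rintro ⟨h1, h2, h3⟩
        exact ⟨by omega, h3⟩
    rw [hset, Finset.prod_inv_distrib]
    congr 1
    refine Finset.prod_congr rfl fun p _ => ?_
    rw [one_div]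
    rfl
  have hpos : 0 < ∏ p ∈ PP 1 z, (1 - 1 / (p : ℝ)) := by
    refine Finset.prod_pos fun p hp => ?_
    have h1 : (1 : ℝ) < p := by exact_mod_cast (TwinAll.A81.mem_PP.1 hp).1
    rw [sub_pos, div_lt_one (by linarith)]
    exact h1
  have h3 : Real.log z ≤ (∏ p ∈ PP 1 z, (1 - 1 / (p : ℝ)))⁻¹ := by
    rw [← hprod]
    exact hlogle.trans hle
  rw [le_div_iff₀ hlog]
  calc (∏ p ∈ PP 1 z, (1 - 1 / (p : ℝ))) * Real.log z
      ≤ (∏ p ∈ PP 1 z, (1 - 1 / (p : ℝ))) * (∏ p ∈ PP 1 z, (1 - 1 / (p : ℝ)))⁻¹ := by gcongr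
    _ = 1 := mul_inv_cancel₀ hpos.ne'

lemma V1_eq (z0 z : ℕ) : V1 z0 z = ∏ q ∈ PP z0 z, (1 - 1 / (q : ℝ)) := by
  unfold V1 VV
  refine Finset.prod_congr rfl (fun q hq => ?_)
  have hq' := (TwinAll.A81.mem_PP.1 hq).2.2
  have h1 : om (![1] : Fin 1 → ℤ) ![0] q = 1 := by
    apply TwinAll.A81.om_one hq'
    simp only [Matrix.cons_val_zero]
    intro h
    have := Int.natCast_dvd.1 h
    simp at this
    exact hq'.one_lt.ne' this
  rw [h1]; push_cast; rfl

lemma fac_mem {q : ℕ} (hq : q.Prime) : 0 ≤ 1 - 1 / (q : ℝ) ∧ 1 - 1 / (q : ℝ) ≤ 1 := by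
  have h1 : (1 : ℝ) < q := by exact_mod_cast hq.one_lt
  constructor
  · rw [sub_nonneg, div_le_one (by linarith)]; exact h1.le
  · have : 0 ≤ 1 / (q : ℝ) := by positivity
    linarith

end S39

open S39 in
/-- MERT -/
theorem mert_39 : MERTStmt := by
  intro z0 z a0 hz0 hz ha0 hdiv
  have h1 := prod_le (z := z) (by omega)
  have htot : (a0.totient / a0 : ℝ) = ∏ p ∈ a0.primeFactors, (1 - 1 / (p : ℝ)) := by
    have h := Nat.totient_eq_mul_prod_factors a0
    have h' : ((a0.totient : ℕ) : ℝ) = (a0 : ℝ) * ∏ p ∈ a0.primeFactors, (1 - ((p : ℕ) : ℝ)⁻¹) := by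
      have h2 := congrArg (fun x : ℚ => (x : ℝ)) h
      push_cast at h2
      exact h2
    have ha : (a0 : ℝ) ≠ 0 := by exact_mod_cast ha0.ne'
    rw [h', mul_div_cancel_left₀ _ ha]
    refine Finset.prod_congr rfl (fun p _ => by rw [one_div])
  have hsub : PP 1 z0 ⊆ a0.primeFactors := by
    intro q hq
    rw [TwinAll.A81.mem_PP] at hq
    rw [Nat.mem_primeFactors]
    exact ⟨hq.2.2, hdiv q hq.2.2 hq.2.1, ha0.ne'⟩
  have hprodle : ∏ p ∈ a0.primeFactors, (1 - 1 / (p : ℝ)) ≤ ∏ p ∈ PP 1 z0, (1 - 1 / (p : ℝ)) := by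
    rw [← Finset.prod_sdiff hsub]
    have hA : ∏ p ∈ a0.primeFactors \ PP 1 z0, (1 - 1 / (p : ℝ)) ≤ 1 :=
      Finset.prod_le_one (fun p hp => (fac_mem (Nat.prime_of_mem_primeFactors
        (Finset.mem_sdiff.1 hp).1)).1) (fun p hp => (fac_mem (Nat.prime_of_mem_primeFactors
        (Finset.mem_sdiff.1 hp).1)).2)
    have hB : 0 ≤ ∏ p ∈ PP 1 z0, (1 - 1 / (p : ℝ)) :=
      Finset.prod_nonneg (fun p hp => (fac_mem (TwinAll.A81.mem_PP.1 hp).2.2).1)
    calc _ ≤ 1 * ∏ p ∈ PP 1 z0, (1 - 1 / (p : ℝ)) := mul_le_mul_of_nonneg_right hA hB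
      _ = _ := one_mul _
  have hsplit : PP 1 z = PP 1 z0 ∪ PP z0 z := by
    ext q
    rw [Finset.mem_union, TwinAll.A81.mem_PP, TwinAll.A81.mem_PP, TwinAll.A81.mem_PP]
    constructor
    · rintro ⟨h1, h2, h3⟩
      rcases le_or_gt q z0 with h | h
      · exact Or.inl ⟨h1, h, h3⟩
      · exact Or.inr ⟨h, h2, h3⟩
    · rintro (⟨h1, h2, h3⟩ | ⟨h1, h2, h3⟩)
      · exact ⟨h1, h2.trans hz, h3⟩
      · exact ⟨by omega, h2, h3⟩
  have hdisj : Disjoint (PP 1 z0) (PP z0 z) := by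
    rw [Finset.disjoint_left]
    intro q hq hq'
    rw [TwinAll.A81.mem_PP] at hq hq'
    omega
  rw [htot, V1_eq]
  refine le_trans ?_ h1
  rw [hsplit, Finset.prod_union hdisj, mul_comm (∏ p ∈ PP 1 z0, (1 - 1 / (p : ℝ)))]
  exact mul_le_mul_of_nonneg_left hprodle
    (Finset.prod_nonneg (fun p hp => (fac_mem (TwinAll.A81.mem_PP.1 hp).2.2).1))

end Pool.Agent.Lib.MT2
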