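import Pool.Agent.Lib.MT2.StmtsD
import Pool.Agent.Lib.MT2.Small39
import Pool.Agent.Lib.MT2.VV39
import Pool.Agent.Lib.TwinAll.S2alt49
import Pool.Agent.Lib.TwinAll.S3_49
import Pool.Agent.Lib.TwinAll.Basic94

/-!
THEOREM (D) (MP_c6d112_nt), module GB: bounds for `gg` and the fourth moment of the correlations of
`gg - 1`.
-/

set_option autoImplicit false

namespace Pool.Agent.Lib.MT2.T90

open Finset
open Pool.Agent.Lib.TwinAll
open Pool.Agent.Lib.MT2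

variable {k : ℕ}

/-- GB in the repaired form: the bound by `nu` holds for `y > z + C0`. -/
def GB90Stmt : Prop :=
  ∀ k : ℕ, ∃ s zs : ℕ, ∀ z0 : ℕ, zs ≤ z0 → ∀ B C0 : ℕ, s ≤ B → ∃ z1 : ℕ, ∀ z : ℕ, z1 ≤ z →
    ∀ (a0 b0 : ℤ) (a d : Fin k → ℤ), BF C0 z0 a0 b0 → SF C0 z0 a → (∀ j, |d j| ≤ C0) →
    ∀ H : ℕ, z ^ B ≤ H → H ≤ z ^ (B + 1) →
      (∀ y ∈ Ioc (0 : ℤ) H, 0 ≤ gg z0 z H a0 b0 a d y ∧
        gg z0 z H a0 b0 a d y ≤
          (B + 1) / VV z0 z (Fin.cons a0 a : Fin (k + 1) → ℤ) (Fin.cons b0 d) ∧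
        ((z : ℤ) + C0 < y → gg z0 z H a0 b0 a d y ≤
          (B + 1) * nu z0 z (Fin.cons a0 a : Fin (k + 1) → ℤ) (Fin.cons b0 d) y)) ∧
      ∑ τ ∈ Finset.Ioo (-(H : ℤ)) H,
        (∑ y ∈ (Finset.Ioc (0 : ℤ) H).filter (fun y => y + τ ∈ Finset.Ioc (0 : ℤ) H),
          (gg z0 z H a0 b0 a d y - 1) * (gg z0 z H a0 b0 a d (y + τ) - 1)) ^ 4 ≤
        10000 * ((B : ℝ) + 1) ^ 8 * (H : ℝ) ^ 5

/-- the density in the variable `n = a0 U + b0` -/
theorem VJ_cons (z0 z : ℕ) (a0 b0 : ℤ) (a d : Fin k → ℤ) (h : ∀ q ∈ PP z0 z, ¬ ((q : ℤ) ∣ a0)) :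
    VJ z0 z a0 b0 a d = VV z0 z (Fin.cons a0 a : Fin (k + 1) → ℤ) (Fin.cons b0 d) := by
  unfold VJ
  symm
  apply vva_39
  intro q hq
  refine ⟨a0, b0, h q hq, fun n => ?_⟩
  have hqp : Prime (q : ℤ) := Nat.prime_iff_prime_int.1 (PP_prime hq)
  have key : ∀ j : Fin k, a j * (a0 * n + b0) + (a0 * d j - a j * b0) = a0 * (a j * n + d j) :=
    fun j => by ring
  constructor
  · rintro ⟨j, hj⟩
    induction j using Fin.cases with
    | zero =>
      refine ⟨0, ?_⟩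
      rw [Fin.cons_zero, Fin.cons_zero] at hj ⊢
      rw [one_mul, add_zero]
      exact hj
    | succ j =>
      refine ⟨j.succ, ?_⟩
      rw [Fin.cons_succ, Fin.cons_succ] at hj ⊢
      rw [key]
      exact dvd_mul_of_dvd_right hj _
  · rintro ⟨j, hj⟩
    induction j using Fin.cases with
    | zero =>
      refine ⟨0, ?_⟩
      rw [Fin.cons_zero, Fin.cons_zero] at hj ⊢
      rw [one_mul, add_zero] at hj
      exact hj
    | succ j =>
      refine ⟨j.succ, ?_⟩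
      rw [Fin.cons_succ, Fin.cons_succ] at hj ⊢
      rw [key] at hj
      exact (hqp.dvd_or_dvd hj).resolve_left (h q hq)

theorem V1_nonneg {z0 : ℕ} (hz0 : 1 ≤ z0) (z : ℕ) : 0 ≤ V1 z0 z := by
  refine (VV_pos hz0 _ _ ?_).le
  intro j q hq hd
  have h1 : (![1] : Fin 1 → ℤ) j = 1 := by fin_cases j; rfl
  rw [h1] at hd
  have := (PP_prime hq).one_lt
  have h2 := Int.le_of_dvd one_pos hd
  omega

/-- the constant in front of `nuJ`, times `V1` -/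
theorem kap_le {z0 z B H C0 : ℕ} {a0 b0 : ℤ} (hz0 : 2 ≤ z0) (hz : z0 ≤ z) (hF : BF C0 z0 a0 b0)
    (hH1 : 1 ≤ H) (hH : H ≤ z ^ (B + 1)) :
    0 ≤ ((a0.toNat.totient : ℝ) / a0 * Real.log H) ∧
    ((a0.toNat.totient : ℝ) / a0 * Real.log H) * V1 z0 z ≤ B + 1 := by
  have ha : ((a0.toNat : ℕ) : ℤ) = a0 := Int.toNat_of_nonneg hF.pos.le
  have haR : ((a0.toNat : ℕ) : ℝ) = (a0 : ℝ) := by exact_mod_cast congrArg (Int.cast : ℤ → ℝ) ha
  have hpos : 0 < a0.toNat := by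
    have := hF.pos
    omega
  have hm := mert_39 z0 z a0.toNat hz0 hz hpos (fun q hq hqz => by
    have := hF.small q hq hqz
    rw [← ha] at this
    exact_mod_cast this)
  rw [haR] at hm
  have hlz : 0 < Real.log z := Real.log_pos (by exact_mod_cast (by omega : 1 < z))
  have hlH : 0 ≤ Real.log H := Real.log_natCast_nonneg H
  have h1 : Real.log H ≤ (B + 1) * Real.log z := by
    have h2 : Real.log H ≤ Real.log ((z : ℝ) ^ (B + 1)) :=
      Real.log_le_log (by exact_mod_cast hH1) (by exact_mod_cast hH)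
    rw [Real.log_pow] at h2
    push_cast at h2
    exact h2
  have h3 : 0 ≤ (a0.toNat.totient : ℝ) / a0 :=
    div_nonneg (Nat.cast_nonneg _) (by exact_mod_cast hF.pos.le)
  refine ⟨mul_nonneg h3 hlH, ?_⟩
  calc ((a0.toNat.totient : ℝ) / a0 * Real.log H) * V1 z0 z
      = (V1 z0 z * ((a0.toNat.totient : ℝ) / a0)) * Real.log H := by ring
    _ ≤ (1 / Real.log z) * ((B + 1) * Real.log z) := by
        refine mul_le_mul hm h1 hlH ?_
        positivity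
    _ = B + 1 := by field_simp

theorem cons_not_dvd {z0 z C0 : ℕ} {a0 b0 : ℤ} {a : Fin k → ℤ} (hF : BF C0 z0 a0 b0)
    (hS : SF C0 z0 a) : ∀ j, ∀ q ∈ PP z0 z, ¬ ((q : ℤ) ∣ (Fin.cons a0 a : Fin (k + 1) → ℤ) j) := by
  intro j q hq hd
  have h1 := PP_lt hq
  induction j using Fin.cases with
  | zero =>
    rw [Fin.cons_zero] at hd
    have := hF.large q (PP_prime hq) hd
    omega
  | succ j =>
    rw [Fin.cons_succ] at hd
    have := hS.large j q (PP_prime hq) hd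
    omega

theorem gg_bounds {z0 z B H C0 : ℕ} {a0 b0 : ℤ} {a d : Fin k → ℤ} (hk : k + 1 ≤ z0)
    (hz0 : 2 ≤ z0) (hz : z0 ≤ z) (hF : BF C0 z0 a0 b0) (hS : SF C0 z0 a)
    (hH1 : 1 ≤ H) (hH : H ≤ z ^ (B + 1)) (y : ℤ) :
    0 ≤ gg z0 z H a0 b0 a d y ∧
        gg z0 z H a0 b0 a d y ≤
          (B + 1) / VV z0 z (Fin.cons a0 a : Fin (k + 1) → ℤ) (Fin.cons b0 d) ∧
        ((z : ℤ) + C0 < y → gg z0 z H a0 b0 a d y ≤
          (B + 1) * nu z0 z (Fin.cons a0 a : Fin (k + 1) → ℤ) (Fin.cons b0 d) y) := by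
  have hnd := cons_not_dvd (z := z) hF hS
  have hVV := VV_pos hk (Fin.cons a0 a : Fin (k + 1) → ℤ) (Fin.cons b0 d) hnd
  have hVJ := VJ_cons z0 z a0 b0 a d (fun q hq => by simpa using hnd 0 q hq)
  obtain ⟨hk0, hk1⟩ := kap_le hz0 hz hF hH1 hH
  have hV1 := V1_nonneg (by omega : 1 ≤ z0) z
  have hB : (0 : ℝ) ≤ (B : ℝ) + 1 := by positivity
  set κ : ℝ := (a0.toNat.totient : ℝ) / a0 * Real.log H with hκ
  have hq : κ * (V1 z0 z / VV z0 z (Fin.cons a0 a : Fin (k + 1) → ℤ) (Fin.cons b0 d)) ≤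
      (B + 1) / VV z0 z (Fin.cons a0 a : Fin (k + 1) → ℤ) (Fin.cons b0 d) := by
    rw [← mul_div_assoc]
    exact div_le_div_of_nonneg_right hk1 hVV.le
  have hq0 : 0 ≤ κ * (V1 z0 z / VV z0 z (Fin.cons a0 a : Fin (k + 1) → ℤ) (Fin.cons b0 d)) :=
    mul_nonneg hk0 (div_nonneg hV1 hVV.le)
  unfold gg
  by_cases hp : Prime (a0 * y + b0)
  · rw [if_pos hp]
    unfold nuJ
    rw [hVJ]
    by_cases hr : ∀ j, Rough z0 z (a j * y + d j)
    · rw [if_pos hr]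
      refine ⟨hq0, hq, fun hy => ?_⟩
      refine hq.trans (le_of_eq ?_)
      unfold nu
      rw [if_pos, div_eq_mul_inv]
      intro j
      induction j using Fin.cases with
      | zero =>
        rw [Fin.cons_zero, Fin.cons_zero]
        intro q hq' hd
        have h1 : (z : ℤ) < a0 * y + b0 := by
          have h2 := hF.pos
          have h3 := (abs_le.1 hF.bd.2).1
          nlinarith
        have h4 : (q : ℤ) ≤ z := by exact_mod_cast PP_le hq'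
        have h5 := (Nat.prime_iff_prime_int.1 (PP_prime hq'))
        have h6 := (h5.associated_of_dvd hp hd)
        rw [Int.associated_iff] at h6
        have h7 : (0 : ℤ) ≤ q := Int.natCast_nonneg q
        rcases h6 with h6 | h6 <;> omega
      | succ j =>
        rw [Fin.cons_succ, Fin.cons_succ]
        exact hr j
    · rw [if_neg hr, mul_zero]
      refine ⟨le_refl _, div_nonneg hB hVV.le, fun _ => mul_nonneg hB (nu_nonneg hk _ _ hnd y)⟩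
  · rw [if_neg hp]
    exact ⟨le_refl _, div_nonneg hB hVV.le, fun _ => mul_nonneg hB (nu_nonneg hk _ _ hnd y)⟩

/-! ### The fourth moment -/

theorem shift_le {H : ℕ} {f : ℤ → ℝ} (hf : ∀ y ∈ Ioc (0 : ℤ) H, 0 ≤ f y) (τ : ℤ) :
    ∑ y ∈ (Ioc (0 : ℤ) H).filter (fun y => y + τ ∈ Ioc (0 : ℤ) H), f (y + τ) ≤
      ∑ y ∈ Ioc (0 : ℤ) H, f y := by
  have h1 : ∑ y ∈ (Ioc (0 : ℤ) H).filter (fun y => y + τ ∈ Ioc (0 : ℤ) H), f (y + τ) =
      ∑ y ∈ ((Ioc (0 : ℤ) H).filter (fun y => y + τ ∈ Ioc (0 : ℤ) H)).image (fun y => y + τ),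
        f y := by
    rw [Finset.sum_image]
    intro x _ y _ h
    exact add_right_cancel h
  rw [h1]
  refine Finset.sum_le_sum_of_subset_of_nonneg ?_ fun y hy _ => hf y hy
  intro y hy
  obtain ⟨x, hx, rfl⟩ := Finset.mem_image.1 hy
  exact (Finset.mem_filter.1 hx).2

theorem corr_bound {H : ℕ} {g N e : ℤ → ℝ} {b G E : ℝ} (hb : 1 ≤ b) (hG : 1 ≤ G)
    (hg : ∀ y ∈ Ioc (0 : ℤ) H, 0 ≤ g y ∧ g y ≤ b * (N y + e y))
    (hN : ∀ y ∈ Ioc (0 : ℤ) H, 0 ≤ N y ∧ N y ≤ G) (he : ∀ y, 0 ≤ e y ∧ e y ≤ G)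
    (hsN : ∑ y ∈ Ioc (0 : ℤ) H, N y ≤ 5 / 4 * H) (hse : ∑ y ∈ Ioc (0 : ℤ) H, e y ≤ E)
    (hE : 5 * G * E ≤ H / 2) (τ : ℤ) :
    |∑ y ∈ (Ioc (0 : ℤ) H).filter (fun y => y + τ ∈ Ioc (0 : ℤ) H), (g y - 1) * (g (y + τ) - 1)| ≤
      b ^ 2 * (∑ y ∈ (Ioc (0 : ℤ) H).filter (fun y => y + τ ∈ Ioc (0 : ℤ) H), N y * N (y + τ) +
        4 * H) := by
  set F := (Ioc (0 : ℤ) H).filter (fun y => y + τ ∈ Ioc (0 : ℤ) H) with hF
  have hFs : F ⊆ Ioc (0 : ℤ) H := Finset.filter_subset _ _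
  have hmem : ∀ y ∈ F, y ∈ Ioc (0 : ℤ) H ∧ y + τ ∈ Ioc (0 : ℤ) H := fun y hy =>
    ⟨hFs hy, (Finset.mem_filter.1 hy).2⟩
  have hE0 : 0 ≤ E := (Finset.sum_nonneg fun y _ => (he y).1).trans hse
  have hcard : (F.card : ℝ) ≤ H := by
    have h1 := Finset.card_le_card hFs
    have h2 : (Ioc (0 : ℤ) H).card = H := by simp
    rw [h2] at h1
    exact_mod_cast h1
  have s1 : ∑ y ∈ F, N y ≤ 5 / 4 * H :=
    (Finset.sum_le_sum_of_subset_of_nonneg hFs fun y hy _ => (hN y hy).1).trans hsN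
  have s2 : ∑ y ∈ F, N (y + τ) ≤ 5 / 4 * H := (shift_le (fun y hy => (hN y hy).1) τ).trans hsN
  have s3 : ∑ y ∈ F, e y ≤ E :=
    (Finset.sum_le_sum_of_subset_of_nonneg hFs fun y _ _ => (he y).1).trans hse
  have s4 : ∑ y ∈ F, e (y + τ) ≤ E := (shift_le (fun y _ => (he y).1) τ).trans hse
  have hpt : ∀ y ∈ F, |(g y - 1) * (g (y + τ) - 1)| ≤ b ^ 2 * (N y * N (y + τ) +
      (G * e (y + τ) + 2 * (G * e y)) + (N y + N (y + τ)) + (e y + e (y + τ)) + 1) := by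
    intro y hy
    obtain ⟨h1, h2⟩ := hmem y hy
    obtain ⟨a1, a2⟩ := hg y h1
    obtain ⟨b1, b2⟩ := hg (y + τ) h2
    obtain ⟨c1, c2⟩ := hN y h1
    obtain ⟨d1, d2⟩ := hN (y + τ) h2
    obtain ⟨e1, e2⟩ := he y
    obtain ⟨f1, f2⟩ := he (y + τ)
    have hbb : b ≤ b ^ 2 := by nlinarith
    have hb2 : 1 ≤ b ^ 2 := by nlinarith
    have k0 : |(g y - 1) * (g (y + τ) - 1)| ≤ g y * g (y + τ) + g y + g (y + τ) + 1 := by
      rw [abs_le]
      have := mul_nonneg a1 b1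
      constructor <;> nlinarith
    have k1 : g y * g (y + τ) ≤ (b * (N y + e y)) * (b * (N (y + τ) + e (y + τ))) :=
      mul_le_mul a2 b2 b1 (a1.trans a2)
    have k2 : g y ≤ b ^ 2 * (N y + e y) :=
      a2.trans (mul_le_mul_of_nonneg_right hbb (by linarith))
    have k3 : g (y + τ) ≤ b ^ 2 * (N (y + τ) + e (y + τ)) :=
      b2.trans (mul_le_mul_of_nonneg_right hbb (by linarith))
    have k4 : N y * e (y + τ) ≤ G * e (y + τ) := mul_le_mul_of_nonneg_right c2 f1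
    have k5 : e y * N (y + τ) ≤ G * e y := by
      rw [mul_comm]
      exact mul_le_mul_of_nonneg_right d2 e1
    have k6 : e y * e (y + τ) ≤ G * e y := by
      rw [mul_comm]
      exact mul_le_mul_of_nonneg_right f2 e1
    calc |(g y - 1) * (g (y + τ) - 1)| ≤ g y * g (y + τ) + g y + g (y + τ) + 1 := k0
      _ ≤ (b * (N y + e y)) * (b * (N (y + τ) + e (y + τ))) + b ^ 2 * (N y + e y) +
          b ^ 2 * (N (y + τ) + e (y + τ)) + b ^ 2 * 1 := by linarith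
      _ = b ^ 2 * (N y * N (y + τ) + (N y * e (y + τ) + e y * N (y + τ) + e y * e (y + τ)) +
          (N y + N (y + τ)) + (e y + e (y + τ)) + 1) := by ring
      _ ≤ _ := by
          refine mul_le_mul_of_nonneg_left ?_ (by positivity)
          linarith
  refine (Finset.abs_sum_le_sum_abs _ _).trans ((Finset.sum_le_sum hpt).trans ?_)
  rw [← Finset.mul_sum]
  refine mul_le_mul_of_nonneg_left ?_ (by positivity)
  simp only [Finset.sum_add_distrib, ← Finset.mul_sum, Finset.sum_const, nsmul_eq_mul, mul_one]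
  have k1 : G * ∑ y ∈ F, e (y + τ) ≤ G * E := mul_le_mul_of_nonneg_left s4 (by linarith)
  have k2 : G * ∑ y ∈ F, e y ≤ G * E := mul_le_mul_of_nonneg_left s3 (by linarith)
  have k3 : E ≤ G * E := by nlinarith
  nlinarith

theorem gb90 : GB90Stmt := by
  intro k
  obtain ⟨s2, zs2, h2⟩ := T49.S2alt (k + 1) (1 / 4) (by norm_num)
  obtain ⟨s3, zs3, h3⟩ := (S3 T49.S2alt) (k + 1) 1 one_pos
  refine ⟨max (max s2 s3) (2 * k + 5), max (max zs2 zs3) (k + 2), ?_⟩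
  intro z0 hz0 B C0 hB
  have hzs2 : zs2 ≤ z0 := (le_max_left _ _).trans ((le_max_left _ _).trans hz0)
  have hzs3 : zs3 ≤ z0 := (le_max_right _ _).trans ((le_max_left _ _).trans hz0)
  have hk2 : k + 2 ≤ z0 := (le_max_right _ _).trans hz0
  have hBs2 : s2 ≤ B := (le_max_left _ _).trans ((le_max_left _ _).trans hB)
  have hBs3 : s3 ≤ B := (le_max_right _ _).trans ((le_max_left _ _).trans hB)
  have hBk : 2 * k + 5 ≤ B := (le_max_right _ _).trans hB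
  obtain ⟨z2, h2⟩ := h2 z0 hzs2
  obtain ⟨z3, h3⟩ := h3 z0 hzs3 (B + 1)
  refine ⟨max (max z2 z3) (max z0 (max C0 10)), ?_⟩
  intro z hz a0 b0 a d hF hS hd H hH1 hH2
  have hz2 : z2 ≤ z := (le_max_left _ _).trans ((le_max_left _ _).trans hz)
  have hz3 : z3 ≤ z := (le_max_right _ _).trans ((le_max_left _ _).trans hz)
  have hzz : z0 ≤ z := (le_max_left _ _).trans ((le_max_right _ _).trans hz)
  have hzC : C0 ≤ z := (le_max_left _ _).trans ((le_max_right _ _).trans ((le_max_right _ _).trans hz))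
  have hz10 : 10 ≤ z :=
    (le_max_right _ _).trans ((le_max_right _ _).trans ((le_max_right _ _).trans hz))
  have hHpos : 1 ≤ H := (Nat.one_le_pow _ _ (by omega)).trans hH1
  have hk : k + 1 ≤ z0 := by omega
  have hb := fun y => gg_bounds (z := z) (d := d) hk (by omega) hzz hF hS hHpos hH2 y
  refine ⟨fun y _ => hb y, ?_⟩
  have hnd := cons_not_dvd (z := z) hF hS
  have hVV := VV_pos hk (Fin.cons a0 a : Fin (k + 1) → ℤ) (Fin.cons b0 d) hnd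
  set g := gg z0 z H a0 b0 a d with hg
  set N := nu z0 z (Fin.cons a0 a : Fin (k + 1) → ℤ) (Fin.cons b0 d) with hN
  set G := (VV z0 z (Fin.cons a0 a : Fin (k + 1) → ℤ) (Fin.cons b0 d))⁻¹ with hG
  have hG1 : 1 ≤ G := (one_le_inv₀ hVV).2 (VV_le_one _ _ _ _)
  have hGz : G ≤ (z : ℝ) ^ (k + 1) := VV_inv_le hk hzz _ _ hnd
  set e : ℤ → ℝ := fun y => if y ≤ (z : ℤ) + C0 then G else 0 with he
  have hzR : (10 : ℝ) ≤ z := by exact_mod_cast hz10
  have hsmall : ∑ y ∈ Ioc (0 : ℤ) H, e y ≤ (z + C0 : ℝ) * G := by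
    rw [he]
    rw [← Finset.sum_filter, Finset.sum_const, nsmul_eq_mul]
    refine mul_le_mul_of_nonneg_right ?_ (by linarith)
    have h1 : ((Ioc (0 : ℤ) H).filter (fun y => y ≤ (z : ℤ) + C0)).card ≤ z + C0 := by
      have h2 : (Ioc (0 : ℤ) H).filter (fun y => y ≤ (z : ℤ) + C0) ⊆
          Ioc (0 : ℤ) ((z + C0 : ℕ) : ℤ) := by
        intro y hy
        rw [Finset.mem_filter, Finset.mem_Ioc] at hy
        rw [Finset.mem_Ioc]
        push_cast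
        exact ⟨hy.1.1, hy.2⟩
      refine (Finset.card_le_card h2).trans (le_of_eq ?_)
      rw [Int.card_Ioc, sub_zero, Int.toNat_natCast]
    exact_mod_cast h1
  have hHR : (z : ℝ) ^ (2 * k + 5) ≤ H := by
    have h1 : z ^ (2 * k + 5) ≤ H := (Nat.pow_le_pow_right (by omega) hBk).trans hH1
    exact_mod_cast h1
  have hE : 5 * G * ((z + C0 : ℝ) * G) ≤ H / 2 := by
    have hCR : (C0 : ℝ) ≤ z := by exact_mod_cast hzC
    have h1 : (z + C0 : ℝ) ≤ (1 / 5) * (z : ℝ) ^ 2 := by nlinarith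
    have h2 : G * G ≤ (z : ℝ) ^ (k + 1) * (z : ℝ) ^ (k + 1) :=
      mul_le_mul hGz hGz (by linarith) (by positivity)
    have h3 : 5 * G * ((z + C0 : ℝ) * G) ≤ (z : ℝ) ^ 2 * ((z : ℝ) ^ (k + 1) * (z : ℝ) ^ (k + 1)) := by
      have h4 : 5 * G * ((z + C0 : ℝ) * G) = 5 * (z + C0 : ℝ) * (G * G) := by ring
      rw [h4]
      refine mul_le_mul ?_ h2 (by positivity) (by positivity)
      linarith
    have h5 : (z : ℝ) ^ 2 * ((z : ℝ) ^ (k + 1) * (z : ℝ) ^ (k + 1)) * z = (z : ℝ) ^ (2 * k + 5) := by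
      rw [← pow_add, ← pow_add, ← pow_succ]
      congr 1
      ring
    have h6 : 2 * ((z : ℝ) ^ 2 * ((z : ℝ) ^ (k + 1) * (z : ℝ) ^ (k + 1))) ≤
        (z : ℝ) ^ 2 * ((z : ℝ) ^ (k + 1) * (z : ℝ) ^ (k + 1)) * z := by
      have h7 : 0 ≤ (z : ℝ) ^ 2 * ((z : ℝ) ^ (k + 1) * (z : ℝ) ^ (k + 1)) := by positivity
      nlinarith
    linarith
  have hS2 : ∑ y ∈ Ioc (0 : ℤ) H, N y ≤ 5 / 4 * H := by
    have h4 := h2 z hz2 (Fin.cons a0 a : Fin (k + 1) → ℤ) (Fin.cons b0 d) hnd 0 H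
      ((Nat.pow_le_pow_right (by omega) hBs2).trans hH1)
    rw [zero_add] at h4
    have h5 := (abs_le.1 h4).2
    rw [← hN] at h5
    linarith
  have hpowB : C0 ≤ z ^ (B + 1) := hzC.trans (Nat.le_self_pow (by omega) z)
  have hpowZ : (C0 : ℤ) ≤ (z : ℤ) ^ (B + 1) := by exact_mod_cast hpowB
  have hbd : ∀ j, |(Fin.cons a0 a : Fin (k + 1) → ℤ) j| ≤ (z : ℤ) ^ (B + 1) ∧
      |(Fin.cons b0 d : Fin (k + 1) → ℤ) j| ≤ (z : ℤ) ^ (B + 1) ∧
      ∀ q ∈ PP z0 z, ¬ ((q : ℤ) ∣ (Fin.cons a0 a : Fin (k + 1) → ℤ) j) := by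
    intro j
    refine ⟨?_, ?_, hnd j⟩
    · induction j using Fin.cases with
      | zero =>
        rw [Fin.cons_zero, abs_of_pos hF.pos]
        exact hF.bd.1.trans hpowZ
      | succ j =>
        rw [Fin.cons_succ]
        exact (hS.bd j).trans hpowZ
    · induction j using Fin.cases with
      | zero =>
        rw [Fin.cons_zero]
        exact hF.bd.2.trans hpowZ
      | succ j =>
        rw [Fin.cons_succ]
        exact (hd j).trans hpowZ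
  have h4m := (h3 z hz3 (Fin.cons a0 a : Fin (k + 1) → ℤ) (Fin.cons b0 d) hbd 0 H
    (by rw [abs_zero]; positivity)
    ((Nat.pow_le_pow_right (by omega) hBs3).trans hH1) hH2).2
  rw [zero_add] at h4m
  have hbB : (1 : ℝ) ≤ (B : ℝ) + 1 := by
    have : (0 : ℝ) ≤ B := Nat.cast_nonneg B
    linarith
  have hdom : ∀ y ∈ Ioc (0 : ℤ) H, 0 ≤ g y ∧ g y ≤ ((B : ℝ) + 1) * (N y + e y) := by
    intro y _
    obtain ⟨g1, g2, g3⟩ := hb y
    refine ⟨g1, ?_⟩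
    by_cases hy : y ≤ (z : ℤ) + C0
    · have h5 : e y = G := if_pos hy
      rw [h5]
      have h6 := nu_nonneg hk (Fin.cons a0 a : Fin (k + 1) → ℤ) (Fin.cons b0 d) hnd y
      rw [div_eq_mul_inv] at g2
      refine g2.trans (mul_le_mul_of_nonneg_left ?_ (by positivity))
      rw [← hN] at h6
      linarith
    · have h5 : e y = 0 := if_neg hy
      rw [h5, add_zero]
      exact g3 (by omega)
  have hNb : ∀ y ∈ Ioc (0 : ℤ) H, 0 ≤ N y ∧ N y ≤ G := fun y _ =>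
    ⟨nu_nonneg hk _ _ hnd y, nu_le hk _ _ hnd y⟩
  have heb : ∀ y, 0 ≤ e y ∧ e y ≤ G := by
    intro y
    rw [he]
    dsimp only
    split_ifs
    · exact ⟨by linarith, le_refl _⟩
    · exact ⟨le_refl _, by linarith⟩
  have hc := fun τ => corr_bound hbB hG1 hdom hNb heb hS2 hsmall hE τ
  have hHR0 : (0 : ℝ) ≤ H := Nat.cast_nonneg H
  have h4p : ∀ τ ∈ Finset.Ioo (-(H : ℤ)) H,
      (∑ y ∈ (Ioc (0 : ℤ) H).filter (fun y => y + τ ∈ Ioc (0 : ℤ) H),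
        (g y - 1) * (g (y + τ) - 1)) ^ 4 ≤
      ((B : ℝ) + 1) ^ 8 * (8 * (∑ y ∈ (Ioc (0 : ℤ) H).filter (fun y => y + τ ∈ Ioc (0 : ℤ) H),
        N y * N (y + τ)) ^ 4 + 2048 * (H : ℝ) ^ 4) := by
    intro τ _
    have h5 := hc τ
    set S := ∑ y ∈ (Ioc (0 : ℤ) H).filter (fun y => y + τ ∈ Ioc (0 : ℤ) H),
        (g y - 1) * (g (y + τ) - 1) with hSd
    set Cr := ∑ y ∈ (Ioc (0 : ℤ) H).filter (fun y => y + τ ∈ Ioc (0 : ℤ) H),
        N y * N (y + τ) with hCr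
    have hCr0 : 0 ≤ Cr := Finset.sum_nonneg fun y hy => mul_nonneg
      (hNb y (Finset.mem_filter.1 hy).1).1 (hNb (y + τ) (Finset.mem_filter.1 hy).2).1
    have h6 : S ^ 4 = |S| ^ 4 := by
      rw [← abs_pow, abs_of_nonneg (by positivity)]
    rw [h6]
    calc |S| ^ 4 ≤ (((B : ℝ) + 1) ^ 2 * (Cr + 4 * H)) ^ 4 := pow_le_pow_left₀ (abs_nonneg _) h5 4
      _ = ((B : ℝ) + 1) ^ 8 * (Cr + 4 * H) ^ 4 := by ring
      _ ≤ ((B : ℝ) + 1) ^ 8 * (8 * Cr ^ 4 + 2048 * (H : ℝ) ^ 4) := by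
          refine mul_le_mul_of_nonneg_left ?_ (by positivity)
          have h7 : ∀ x y : ℝ, (x + y) ^ 4 ≤ 8 * (x ^ 4 + y ^ 4) := by
            intro x y
            have h8 : (x + y) ^ 2 ≤ 2 * (x ^ 2 + y ^ 2) := by nlinarith [sq_nonneg (x - y)]
            have h9 : ((x + y) ^ 2) ^ 2 ≤ (2 * (x ^ 2 + y ^ 2)) ^ 2 :=
              pow_le_pow_left₀ (sq_nonneg _) h8 2
            nlinarith [sq_nonneg (x ^ 2 - y ^ 2)]
          have h8 := h7 Cr (4 * H)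
          nlinarith
  refine (Finset.sum_le_sum h4p).trans ?_
  rw [← Finset.mul_sum, Finset.sum_add_distrib, ← Finset.mul_sum, Finset.sum_const, nsmul_eq_mul]
  have hcardI : ((Finset.Ioo (-(H : ℤ)) H).card : ℝ) ≤ 2 * H := by
    rw [Int.card_Ioo]
    have h5 : ((H : ℤ) - -(H : ℤ) - 1).toNat ≤ 2 * H := by omega
    exact_mod_cast h5
  have h5 : ((Finset.Ioo (-(H : ℤ)) H).card : ℝ) * (2048 * (H : ℝ) ^ 4) ≤
      2 * H * (2048 * (H : ℝ) ^ 4) := mul_le_mul_of_nonneg_right hcardI (by positivity)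
  have h6 : 8 * ∑ τ ∈ Finset.Ioo (-(H : ℤ)) H,
      (∑ y ∈ (Ioc (0 : ℤ) H).filter (fun y => y + τ ∈ Ioc (0 : ℤ) H), N y * N (y + τ)) ^ 4 ≤
      8 * (4 * (H : ℝ) ^ 5) := mul_le_mul_of_nonneg_left h4m (by norm_num)
  calc ((B : ℝ) + 1) ^ 8 * (8 * ∑ τ ∈ Finset.Ioo (-(H : ℤ)) H,
      (∑ y ∈ (Ioc (0 : ℤ) H).filter (fun y => y + τ ∈ Ioc (0 : ℤ) H), N y * N (y + τ)) ^ 4 +
        ((Finset.Ioo (-(H : ℤ)) H).card : ℝ) * (2048 * (H : ℝ) ^ 4))
      ≤ ((B : ℝ) + 1) ^ 8 * (10000 * (H : ℝ) ^ 5) := by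
        refine mul_le_mul_of_nonneg_left ?_ (by positivity)
        have h7 : (0 : ℝ) ≤ (H : ℝ) ^ 5 := by positivity
        nlinarith
    _ = 10000 * ((B : ℝ) + 1) ^ 8 * (H : ℝ) ^ 5 := by ring

/-- module GB -/
theorem gb_90 : GBStmt := gb90

end Pool.Agent.Lib.MT2.T90
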