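import Pool.Agent.Lib.MT2.Stmts

set_option autoImplicit false

/-!
First half of S5k: the number of primes in a residue class modulo a bounded number.
-/

namespace Pool.Agent.Lib.MT2.T69

open Finset
open Pool.Agent.Lib.TwinAll (PP Rough om VV nu ee)

theorem om_one69 {q : ℕ} (hq : q.Prime) : om (![1] : Fin 1 → ℤ) ![0] q = 1 := by
  unfold om
  have h : (Finset.range q).filter (fun n : ℕ => ∃ j : Fin 1, (q : ℤ) ∣ (![1] : Fin 1 → ℤ) j * n +
      (![0] : Fin 1 → ℤ) j) = {0} := by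
    ext n
    simp only [Finset.mem_filter, Finset.mem_range, Finset.mem_singleton]
    constructor
    · rintro ⟨h1, j, hj⟩
      have hj0 : j = 0 := Subsingleton.elim _ _
      subst hj0
      simp only [Matrix.cons_val_zero, one_mul, add_zero] at hj
      have h2 : q ∣ n := by exact_mod_cast hj
      exact Nat.eq_zero_of_dvd_of_lt h2 h1
    · rintro rfl
      exact ⟨hq.pos, 0, by simp⟩
  rw [h, Finset.card_singleton]

theorem V1_pos69 (z0 z : ℕ) : 0 < V1 z0 z := by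
  unfold V1 VV
  refine Finset.prod_pos fun q hq => ?_
  have hqp : q.Prime := (Finset.mem_filter.1 hq).2
  rw [om_one69 hqp]
  have h2 : (2 : ℝ) ≤ q := by exact_mod_cast hqp.two_le
  have : (1 : ℝ) / q ≤ 1 / 2 := one_div_le_one_div_of_le (by norm_num) h2
  push_cast
  linarith

/-- Primes in a residue class. -/
theorem card_class_69 (hS : S2rStmt) : ∃ s5 zs : ℕ, ∀ z0 : ℕ, zs ≤ z0 → ∀ C0 : ℕ,
    ∃ z1 : ℕ, ∀ z : ℕ, z1 ≤ z → ∀ W : ℕ, 0 < W → W ≤ C0 → (∀ q ∈ PP z0 z, ¬ q ∣ W) → ∀ cl : ℤ,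
    ∀ y : ℕ, z ^ s5 ≤ y →
      ((((PP z y).filter (fun p : ℕ => (W : ℤ) ∣ (p : ℤ) - cl)).card : ℕ) : ℝ) ≤
        3 * (V1 z0 z * y / W) := by
  classical
  obtain ⟨s0, zs, h⟩ := hS 1
  refine ⟨s0 + 1, zs, fun z0 hz0 C0 => ⟨max z0 (max C0 1), fun z hz W hW hWC hWq cl y hy => ?_⟩⟩
  have hz0z : z0 ≤ z := (le_max_left _ _).trans hz
  have hC0z : C0 ≤ z := (le_max_left _ _).trans ((le_max_right _ _).trans hz)
  have h1z : 1 ≤ z := (le_max_right _ _).trans ((le_max_right _ _).trans hz)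
  have h1 := h 0 z0 hz0 z hz0z (![1] : Fin 1 → ℤ) ![0] (by
    intro j q hq
    have hj0 : j = 0 := Subsingleton.elim _ _
    subst hj0
    simp only [Matrix.cons_val_zero]
    intro hd
    have hqp : q.Prime := (Finset.mem_filter.1 hq).2
    have : (q : ℤ) = 1 := Int.eq_one_of_dvd_one (by positivity) hd
    have h3 : q = 1 := by exact_mod_cast this
    exact hqp.one_lt.ne' h3) W hW hWq cl 0 y
  have hV := V1_pos69 z0 z
  have h2 : ((((PP z y).filter (fun p : ℕ => (W : ℤ) ∣ (p : ℤ) - cl)).card : ℕ) : ℝ) *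
      (V1 z0 z)⁻¹ ≤ ∑ n ∈ (Ioc (0 : ℤ) (0 + y)).filter (fun n => (W : ℤ) ∣ n - cl),
        nu z0 z (![1] : Fin 1 → ℤ) ![0] n := by
    have h3 : ∑ n ∈ ((PP z y).filter (fun p : ℕ => (W : ℤ) ∣ (p : ℤ) - cl)).map
        (Nat.castEmbedding : ℕ ↪ ℤ),
        nu z0 z (![1] : Fin 1 → ℤ) ![0] n ≤
        ∑ n ∈ (Ioc (0 : ℤ) (0 + y)).filter (fun n => (W : ℤ) ∣ n - cl),
        nu z0 z (![1] : Fin 1 → ℤ) ![0] n := by
      refine Finset.sum_le_sum_of_subset_of_nonneg ?_ ?_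
      · intro n hn
        rw [Finset.mem_map] at hn
        obtain ⟨p, hp, rfl⟩ := hn
        rw [Finset.mem_filter] at hp
        simp only [PP, Finset.mem_filter, Finset.mem_Ioc] at hp
        rw [Finset.mem_filter, Finset.mem_Ioc]
        refine ⟨⟨?_, ?_⟩, hp.2⟩
        · change (0 : ℤ) < (p : ℤ)
          exact_mod_cast hp.1.2.pos
        · change (p : ℤ) ≤ 0 + y
          rw [zero_add]
          exact_mod_cast hp.1.1.2
      · intro n _ _
        unfold nu
        split_ifs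
        · exact inv_nonneg.2 hV.le
        · exact le_rfl
    refine le_trans (le_of_eq ?_) h3
    rw [Finset.sum_map, ← nsmul_eq_mul, ← Finset.sum_const]
    refine Finset.sum_congr rfl fun p hp => ?_
    rw [Finset.mem_filter] at hp
    simp only [PP, Finset.mem_filter, Finset.mem_Ioc] at hp
    change (V1 z0 z)⁻¹ = nu z0 z (![1] : Fin 1 → ℤ) ![0] (p : ℤ)
    unfold nu
    rw [if_pos]
    · rfl
    · intro j
      have hj0 : j = 0 := Subsingleton.elim _ _
      subst hj0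
      intro q hq hd
      simp only [Matrix.cons_val_zero, one_mul, add_zero] at hd
      have h4 : q ∣ p := by exact_mod_cast hd
      have hqp : q.Prime := (Finset.mem_filter.1 hq).2
      have h5 := (Nat.prime_dvd_prime_iff_eq hqp hp.1.2).1 h4
      have h6 := (Finset.mem_Ioc.1 (Finset.mem_filter.1 hq).1).2
      omega
  have h3 := (abs_le.1 h1).2
  have hWR : (0 : ℝ) < W := by exact_mod_cast hW
  have h4 : (z : ℝ) ^ (s0 * (0 + 1)) ≤ y / W := by
    rw [le_div_iff₀ hWR]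
    have h5 : (z : ℝ) ^ (s0 + 1) ≤ y := by exact_mod_cast hy
    have h6 : (W : ℝ) ≤ z := by exact_mod_cast hWC.trans hC0z
    calc (z : ℝ) ^ (s0 * (0 + 1)) * W ≤ (z : ℝ) ^ s0 * z := by
          rw [zero_add, mul_one]
          exact mul_le_mul_of_nonneg_left h6 (by positivity)
      _ = (z : ℝ) ^ (s0 + 1) := by rw [pow_succ]
      _ ≤ y := h5
  have h5 : ((((PP z y).filter (fun p : ℕ => (W : ℤ) ∣ (p : ℤ) - cl)).card : ℕ) : ℝ) *
      (V1 z0 z)⁻¹ ≤ 3 * (y / W) := by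
    have h6 : ((1 : ℝ) / 2) ^ 0 * ((y : ℕ) / W : ℝ) = y / W := by
      rw [pow_zero, one_mul]
    rw [h6] at h3
    linarith
  rw [← div_eq_mul_inv, div_le_iff₀ hV] at h5
  calc _ ≤ 3 * (y / W : ℝ) * V1 z0 z := h5
    _ = _ := by ring

end Pool.Agent.Lib.MT2.T69
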