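import Pool.Agent.Lib.MT2.Disp42
import Pool.Agent.Lib.MT2.S5a69
import Pool.Agent.Lib.MT2.StmtsD
import Pool.Agent.Lib.TwinAll.L3c88

/-!
THEOREM (D) (MP_c6d112_nt), module MINB (helper69): the bilinear sum over primes in a residue class
on the minor arcs. Expansion of the square, geometric sums over intervals, many small multiples, the
number of bad pairs (fourth moment), one block, the parameters.
-/

set_option autoImplicit false

namespace Pool.Agent.Lib.MT2.T69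

open Finset
open Pool.Agent.Lib.TwinAll (PP Rough om VV nu ee)
open Pool.Agent.Lib.TwinAll.M88 (geom_bound major_of_many pair_count sum_Icc_cast conj_ee)

/-- expansion of the square of a complex sum -/
theorem sq_expandC (Ms : Finset ℤ) (Ps : Finset ℕ) (w : ℤ → ℝ) (hw : ∀ m, 0 ≤ w m)
    (g : ℕ → ℤ → ℂ) (c : ℕ → ℤ → Prop) [∀ p m, Decidable (c p m)] :
    ∑ m ∈ Ms, w m * ‖∑ p ∈ Ps.filter (fun p => c p m), g p m‖ ^ 2 ≤
      ∑ p ∈ Ps, ∑ p' ∈ Ps, ‖∑ m ∈ Ms.filter (fun m => c p m ∧ c p' m),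
        (w m : ℂ) * (g p m * (starRingEnd ℂ) (g p' m))‖ := by
  have h1 : ∀ m ∈ Ms, ((w m * ‖∑ p ∈ Ps.filter (fun p => c p m), g p m‖ ^ 2 : ℝ) : ℂ) =
      ∑ p ∈ Ps, ∑ p' ∈ Ps, (if c p m ∧ c p' m then
        (w m : ℂ) * (g p m * (starRingEnd ℂ) (g p' m)) else 0) := by
    intro m _
    have h2 : ((w m * ‖∑ p ∈ Ps.filter (fun p => c p m), g p m‖ ^ 2 : ℝ) : ℂ) =
        (w m : ℂ) * ((∑ p ∈ Ps.filter (fun p => c p m), g p m) *
          (starRingEnd ℂ) (∑ p ∈ Ps.filter (fun p => c p m), g p m)) := by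
      rw [Complex.mul_conj, Complex.normSq_eq_norm_sq]
      push_cast
      ring
    rw [h2, Finset.sum_filter, map_sum, Finset.sum_mul_sum, Finset.mul_sum]
    refine Finset.sum_congr rfl (fun p _ => ?_)
    rw [Finset.mul_sum]
    refine Finset.sum_congr rfl (fun p' _ => ?_)
    by_cases h : c p m
    · by_cases h' : c p' m
      · simp only [h, h', and_self, if_true]
      · simp only [h, h', and_false, if_false, map_zero, mul_zero]
    · simp only [h, false_and, if_false, zero_mul, mul_zero]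
  have h3 : ((∑ m ∈ Ms, w m * ‖∑ p ∈ Ps.filter (fun p => c p m), g p m‖ ^ 2 : ℝ) : ℂ) =
      ∑ p ∈ Ps, ∑ p' ∈ Ps, ∑ m ∈ Ms.filter (fun m => c p m ∧ c p' m),
        (w m : ℂ) * (g p m * (starRingEnd ℂ) (g p' m)) := by
    rw [Complex.ofReal_sum, Finset.sum_congr rfl h1, Finset.sum_comm]
    refine Finset.sum_congr rfl (fun p _ => ?_)
    rw [Finset.sum_comm]
    refine Finset.sum_congr rfl (fun p' _ => ?_)
    rw [Finset.sum_filter]
  have h4 : 0 ≤ ∑ m ∈ Ms, w m * ‖∑ p ∈ Ps.filter (fun p => c p m), g p m‖ ^ 2 :=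
    Finset.sum_nonneg (fun m _ => mul_nonneg (hw m) (by positivity))
  calc ∑ m ∈ Ms, w m * ‖∑ p ∈ Ps.filter (fun p => c p m), g p m‖ ^ 2
      = ‖((∑ m ∈ Ms, w m * ‖∑ p ∈ Ps.filter (fun p => c p m), g p m‖ ^ 2 : ℝ) : ℂ)‖ := by
        rw [Complex.norm_real, Real.norm_eq_abs, abs_of_nonneg h4]
    _ ≤ _ := by
        rw [h3]
        refine (norm_sum_le _ _).trans (Finset.sum_le_sum fun p _ => ?_)
        exact norm_sum_le _ _

/-- geometric sums over an interval of integers -/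
theorem geom_Ioc (α d : ℝ) (v : ℤ) (H : ℕ) (hd : 0 < d) (h : ∀ k : ℤ, d < |α - k|) :
    ‖∑ x ∈ Finset.Ioc v (v + H), ee (α * x)‖ ≤ 1 / (2 * d) := by
  have h1 := geom_bound α d H hd h
  have h2 : ∑ x ∈ Finset.Ioc v (v + H), ee (α * x) =
      ee (α * v) * ∑ m ∈ Finset.Icc 1 H, ee (α * m) := by
    have h3 := sum_Icc_cast H (fun n : ℤ => ee (α * n))
    have h4 : ∑ m ∈ Finset.Icc 1 H, ee (α * m) = ∑ n ∈ Finset.Ioc (0 : ℤ) (0 + H), ee (α * n) := by
      rw [← h3]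
      refine Finset.sum_congr rfl (fun m _ => ?_)
      norm_num
    rw [h4, Finset.mul_sum]
    refine Finset.sum_nbij' (fun x => x - v) (fun x => x + v) ?_ ?_ ?_ ?_ ?_
    · intro x hx
      rw [Finset.mem_Ioc] at hx ⊢
      omega
    · intro x hx
      rw [Finset.mem_Ioc] at hx ⊢
      omega
    · intro x _; ring
    · intro x _; ring
    · intro x _
      rw [← Pool.Agent.Lib.TwinAll.ee_add]
      congr 1
      push_cast
      ring
  rw [h2, norm_mul, Pool.Agent.Lib.TwinAll.norm_ee, one_mul]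
  exact h1

/-- many small multiples in a long interval -/
theorem many_cut (α δ η : ℝ) (y L N0 : ℕ) (hδ : 0 < δ) (hL : 1 ≤ L) (hN0 : 1 ≤ N0)
    (A : Finset ℕ) (hA : ∀ h ∈ A, 1 ≤ h ∧ h ≤ y ∧ ∃ k : ℤ, |α * h - k| ≤ δ) (hη : 0 < η)
    (hη1 : η ≤ 1) (hcard : η * y < A.card) (hbig : 8 * (N0 : ℝ) ≤ η * y) (hL2 : 2 / η ≤ L)
    (hsmall : (2 * ((y : ℝ) / N0 + 1) + 1) * (2 * δ) * L < 1) :
    ∃ q : ℕ, 1 ≤ q ∧ q ≤ L ∧ ∃ a : ℤ, |α - (a : ℝ) / q| ≤ 4 * δ * N0 / (η * y) := by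
  classical
  have hN0R : (1 : ℝ) ≤ N0 := by exact_mod_cast hN0
  have hLR : (1 : ℝ) ≤ L := by exact_mod_cast hL
  have hηy : 0 < η * y := by linarith
  have hy0 : (0 : ℝ) < y := by
    rcases Nat.eq_zero_or_pos y with h | h
    · subst h
      simp at hηy
    · exact_mod_cast h
  obtain ⟨y1, hy1⟩ : ∃ y1 : ℕ, y1 = y / N0 + 1 := ⟨_, rfl⟩
  have hy1p : 0 < y1 := by
    rw [hy1]
    exact Nat.succ_pos _
  have hy1R : (y1 : ℝ) ≤ (y : ℝ) / N0 + 1 := by
    rw [hy1]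
    push_cast
    have := @Nat.cast_div_le ℝ _ _ _ y N0
    linarith
  have hmap : ∀ h ∈ A, h / y1 ∈ Finset.range N0 := by
    intro h hh
    rw [Finset.mem_range]
    have h1 := (hA h hh).2.1
    rw [Nat.div_lt_iff_lt_mul hy1p]
    have h2 := Nat.lt_div_mul_add (a := y) (b := N0) (by omega)
    have h3 : y < N0 * y1 := by
      rw [hy1, Nat.mul_add, Nat.mul_one, Nat.mul_comm]
      exact h2
    omega
  -- a class with many elements
  obtain ⟨c, hc, hcc⟩ : ∃ c ∈ Finset.range N0,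
      (A.card : ℝ) / N0 ≤ ((A.filter (fun h => h / y1 = c)).card : ℝ) := by
    have h1 : (A.card : ℝ) = ∑ c ∈ Finset.range N0, ((A.filter (fun h => h / y1 = c)).card : ℝ) := by
      rw [Finset.card_eq_sum_card_fiberwise hmap]
      push_cast
      rfl
    by_contra hcon
    push Not at hcon
    have h2 : ∑ c ∈ Finset.range N0, ((A.filter (fun h => h / y1 = c)).card : ℝ) <
        ∑ _c ∈ Finset.range N0, (A.card : ℝ) / N0 :=
      Finset.sum_lt_sum_of_nonempty (by rw [Finset.nonempty_range_iff]; omega)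
        (fun c hc => hcon c hc)
    rw [← h1, Finset.sum_const, Finset.card_range, nsmul_eq_mul] at h2
    rw [mul_div_cancel₀ _ (by linarith : (N0 : ℝ) ≠ 0)] at h2
    exact lt_irrefl _ h2
  obtain ⟨Ac, hAc⟩ : ∃ Ac, Ac = A.filter (fun h => h / y1 = c) := ⟨_, rfl⟩
  rw [← hAc] at hcc
  have hAcR : η * y / N0 < Ac.card := by
    refine lt_of_lt_of_le ?_ hcc
    exact div_lt_div_of_pos_right hcard (by linarith)
  have h8 : 8 ≤ η * y / N0 := by
    rw [le_div_iff₀ (by linarith)]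
    exact hbig
  have hne : Ac.Nonempty := by
    rw [← Finset.card_pos]
    have : (0 : ℝ) < Ac.card := by linarith
    exact_mod_cast this
  obtain ⟨h0, hh0⟩ : ∃ h0, h0 = Ac.min' hne := ⟨_, rfl⟩
  have hh0m : h0 ∈ Ac := by rw [hh0]; exact Finset.min'_mem _ _
  have hh0l : ∀ h ∈ Ac, h0 ≤ h := fun h hh => by rw [hh0]; exact Finset.min'_le _ _ hh
  obtain ⟨A', hA'⟩ : ∃ A', A' = (Ac.erase h0).image (fun h => h - h0) := ⟨_, rfl⟩
  have hA'card : A'.card = Ac.card - 1 := by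
    rw [hA', Finset.card_image_of_injOn, Finset.card_erase_of_mem hh0m]
    intro x hx x' hx' hxx
    rw [Finset.mem_coe, Finset.mem_erase] at hx hx'
    have h1 := hh0l x hx.2
    have h2 := hh0l x' hx'.2
    simp only at hxx
    omega
  have hA'R : (A'.card : ℝ) = Ac.card - 1 := by
    have h1 : 1 ≤ Ac.card := Finset.card_pos.2 hne
    rw [hA'card]
    push_cast [Nat.cast_sub h1]
    ring
  obtain ⟨k0, hk0⟩ : ∃ k : ℤ, |α * h0 - k| ≤ δ := by
    rw [hAc, Finset.mem_filter] at hh0m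
    exact (hA h0 hh0m.1).2.2
  have hA'p : ∀ h ∈ A', 1 ≤ h ∧ h ≤ y1 ∧ ∃ k : ℤ, |α * h - k| ≤ 2 * δ := by
    intro h hh
    rw [hA', Finset.mem_image] at hh
    obtain ⟨x, hx, rfl⟩ := hh
    rw [Finset.mem_erase] at hx
    have h1 := hh0l x hx.2
    have h2 : h0 < x := lt_of_le_of_ne h1 (Ne.symm hx.1)
    have hx2 := hx.2
    have hm := hh0m
    rw [hAc, Finset.mem_filter] at hx2 hm
    obtain ⟨k, hk⟩ := (hA x hx2.1).2.2
    refine ⟨by omega, ?_, k - k0, ?_⟩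
    · have h3 := Nat.div_add_mod x y1
      have h4 := Nat.div_add_mod h0 y1
      have h5 := Nat.mod_lt x hy1p
      have h6 : y1 * (x / y1) = y1 * (h0 / y1) := by rw [hx2.2, hm.2]
      omega
    · rw [Nat.cast_sub h1]
      push_cast
      have h3 : α * ((x : ℝ) - h0) - (k - k0) = (α * x - k) - (α * h0 - k0) := by ring
      rw [h3]
      have := abs_sub (α * x - k) (α * h0 - k0)
      linarith
  have hcard2 : y1 / L + 1 < A'.card := by
    have h1 : ((y1 / L : ℕ) : ℝ) ≤ (y1 : ℝ) / L := Nat.cast_div_le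
    have h2 : (y1 : ℝ) / L ≤ ((y : ℝ) / N0 + 1) * (η / 2) := by
      rw [div_le_iff₀ (by linarith)]
      rw [div_le_iff₀ hη] at hL2
      have h3 : 1 ≤ η / 2 * L := by linarith
      calc (y1 : ℝ) ≤ ((y : ℝ) / N0 + 1) * 1 := by rw [mul_one]; exact hy1R
        _ ≤ ((y : ℝ) / N0 + 1) * (η / 2 * L) := mul_le_mul_of_nonneg_left h3 (by positivity)
        _ = _ := by ring
    have h3 : ((y : ℝ) / N0 + 1) * (η / 2) = η * y / N0 / 2 + η / 2 := by ring
    have h4 : ((y1 / L + 1 : ℕ) : ℝ) < A'.card := by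
      push_cast
      rw [hA'R]
      linarith
    exact_mod_cast h4
  obtain ⟨q, hq1, hqL, a, ha⟩ := major_of_many α (2 * δ) y1 L (by linarith) hL A' hA'p hcard2 (by
    refine lt_of_le_of_lt ?_ hsmall
    have h1 : 2 * (y1 : ℝ) + 1 ≤ 2 * ((y : ℝ) / N0 + 1) + 1 := by linarith
    have h2 : 0 ≤ 2 * δ * L := by positivity
    calc (2 * (y1 : ℝ) + 1) * (2 * δ) * L = (2 * (y1 : ℝ) + 1) * (2 * δ * L) := by ring
      _ ≤ (2 * ((y : ℝ) / N0 + 1) + 1) * (2 * δ * L) := mul_le_mul_of_nonneg_right h1 h2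
      _ = _ := by ring)
  refine ⟨q, hq1, hqL, a, ha.trans ?_⟩
  have h1 : η * y / N0 / 2 ≤ A'.card := by
    rw [hA'R]; linarith
  have h2 : 0 < η * y / N0 / 2 := by linarith
  calc 2 * δ / A'.card ≤ 2 * δ / (η * y / N0 / 2) :=
        div_le_div_of_nonneg_left (by linarith) h2 h1
    _ = 4 * δ * N0 / (η * y) := by
        field_simp
        ring

/-- the weight of one form -/
theorem VV_one_form (z0 z : ℕ) (a b : ℤ) (ha : ∀ q ∈ PP z0 z, IsCoprime a (q : ℤ)) :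
    VV z0 z (![a] : Fin 1 → ℤ) ![b] = V1 z0 z := by
  unfold V1
  rw [← VV_aff z0 z (![1] : Fin 1 → ℤ) ![0] a b ha]
  congr 1
  · funext j
    have hj : j = 0 := Subsingleton.elim _ _
    subst hj
    simp
  · funext j
    have hj : j = 0 := Subsingleton.elim _ _
    subst hj
    simp

open Classical in
/-- number of pairs of primes of a residue class with a bad difference -/
theorem bad_pairs (z0 z Y y : ℕ) (a0 cl : ℤ) (l : ℝ) (Hs : Finset ℤ) (hz0 : 1 ≤ z0)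
    (ha0 : 0 < a0) (hcop : ∀ q ∈ PP z0 z, IsCoprime a0 (q : ℤ)) (hzY : z ≤ Y)
    (hy : (y : ℤ) = Y / a0 + 1) (hl : 0 < l) (hHs : Hs ⊆ Finset.Ioo (-(y : ℤ)) y)
    (h4 : ∀ b : ℤ, -(2 * a0) ≤ b → b ≤ 0 → ∑ t ∈ Finset.Ioo (-(y : ℤ)) y,
      (∑ n ∈ (Finset.Ioc (y : ℤ) (y + y)).filter (fun n => n + t ∈ Finset.Ioc (y : ℤ) (y + y)),
        nu z0 z (![a0] : Fin 1 → ℤ) ![b] n * nu z0 z (![a0] : Fin 1 → ℤ) ![b] (n + t)) ^ 4 ≤
      4 * (y : ℝ) ^ 5) :
    (((((PP Y (2 * Y)).filter (fun p : ℕ => a0 ∣ (p : ℤ) - cl)) ×ˢ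
      ((PP Y (2 * Y)).filter (fun p : ℕ => a0 ∣ (p : ℤ) - cl))).filter
        (fun x => ((x.1 : ℤ) - x.2) / a0 ∈ Hs)).card : ℝ) ≤
      V1 z0 z ^ 2 * (Hs.card * (l * y) + 4 * (y : ℝ) ^ 2 / l ^ 3) := by
  obtain ⟨Ps, hPs⟩ : ∃ Ps, Ps = (PP Y (2 * Y)).filter (fun p : ℕ => a0 ∣ (p : ℤ) - cl) := ⟨_, rfl⟩
  rw [← hPs]
  have hV : 0 < V1 z0 z := V1_pos' hz0
  have hY0 : (0 : ℤ) ≤ Y / a0 := Int.ediv_nonneg (by positivity) ha0.le
  have hy1 : 1 ≤ y := by omega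
  have hy0R : (0 : ℝ) < y := by exact_mod_cast hy1
  -- the offset
  obtain ⟨ρ, hρ⟩ : ∃ ρ : ℤ, ρ = -((Y - cl) % a0) := ⟨_, rfl⟩
  have hρ1 : -a0 < ρ := by
    have := Int.emod_lt_of_pos (Y - cl) ha0
    omega
  have hρ2 : ρ ≤ 0 := by
    have := Int.emod_nonneg ((Y : ℤ) - cl) (ne_of_gt ha0)
    omega
  obtain ⟨s, hs⟩ : ∃ s : ℤ, (Y : ℤ) + ρ = cl + a0 * s := by
    refine ⟨((Y : ℤ) - cl) / a0, ?_⟩
    have := Int.emod_add_mul_ediv ((Y : ℤ) - cl) a0
    linarith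
  have hYa : a0 * (Y / a0) ≤ (Y : ℤ) ∧ (Y : ℤ) < a0 * (Y / a0) + a0 := by
    have h1 := Int.emod_add_mul_ediv (Y : ℤ) a0
    have h2 := Int.emod_nonneg (Y : ℤ) (ne_of_gt ha0)
    have h3 := Int.emod_lt_of_pos (Y : ℤ) ha0
    constructor <;> linarith
  obtain ⟨b, hb⟩ : ∃ b : ℤ, b = Y + ρ - a0 * y := ⟨_, rfl⟩
  have hb1 : -(2 * a0) ≤ b ∧ b ≤ 0 := by
    rw [hb, hy]
    constructor <;> nlinarith [hYa.1, hYa.2]
  -- representation of the primes
  have hrep : ∀ p ∈ Ps, ∃ x : ℕ, (p : ℤ) = a0 * x + b ∧ y < x ∧ x ≤ 2 * y := by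
    intro p hp
    rw [hPs, Finset.mem_filter, Pool.Agent.Lib.TwinAll.mem_PP] at hp
    obtain ⟨⟨⟨p1, p2⟩, p3⟩, u, hu⟩ := hp
    have e1 : (p : ℤ) - (Y + ρ) = a0 * (u - s) := by linear_combination hu - hs
    have e2 : 0 < a0 * (u - s) := by
      rw [← e1]
      have : (Y : ℤ) < p := by exact_mod_cast p1
      linarith
    have e3 : 1 ≤ u - s := by
      have := pos_of_mul_pos_right e2 ha0.le
      omega
    have e4 : u - s ≤ y := by
      have h1 : a0 * (u - s) < a0 * (y + 1) := by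
        rw [← e1, hy]
        have : (p : ℤ) ≤ 2 * Y := by exact_mod_cast p2
        nlinarith [hYa.1, hYa.2]
      have := lt_of_mul_lt_mul_left h1 ha0.le
      omega
    refine ⟨(y + (u - s)).toNat, ?_, by omega, by omega⟩
    rw [Int.toNat_of_nonneg (by omega), hb]
    linear_combination e1
  choose! X hX using hrep
  obtain ⟨P', hP'⟩ : ∃ P', P' = Ps.image X := ⟨_, rfl⟩
  have hinj : ∀ p ∈ Ps, ∀ p' ∈ Ps, X p = X p' → p = p' := by
    intro p hp p' hp' h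
    have h1 := (hX p hp).1
    have h2 := (hX p' hp').1
    rw [h] at h1
    have : (p : ℤ) = p' := by rw [h1, h2]
    exact_mod_cast this
  have hVf : ∀ p ∈ Ps, V1 z0 z * nu z0 z (![a0] : Fin 1 → ℤ) ![b] (X p) = 1 := by
    intro p hp
    have hp1 := hp
    rw [hPs, Finset.mem_filter, Pool.Agent.Lib.TwinAll.mem_PP] at hp1
    obtain ⟨⟨⟨p1, p2⟩, p3⟩, -⟩ := hp1
    unfold nu
    rw [VV_one_form z0 z a0 b hcop, if_pos, mul_inv_cancel₀ hV.ne']
    intro j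
    have hj : j = 0 := Subsingleton.elim _ _
    subst hj
    simp only [Matrix.cons_val_zero]
    rw [← (hX p hp).1]
    intro q hq hd
    have h1 : q ∣ p := by exact_mod_cast hd
    rw [Pool.Agent.Lib.TwinAll.mem_PP] at hq
    rcases (Nat.dvd_prime p3).1 h1 with h2 | h2
    · exact hq.2.one_lt.ne' h2
    · omega
  have hfnn : ∀ n, 0 ≤ nu z0 z (![a0] : Fin 1 → ℤ) ![b] n := by
    intro n
    refine Pool.Agent.Lib.TwinAll.nu_nonneg (by omega) _ _ ?_ n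
    intro j q hq
    have hj : j = 0 := Subsingleton.elim _ _
    subst hj
    simp only [Matrix.cons_val_zero]
    exact Pool.Agent.Lib.TwinAll.not_dvd_of_coprime hcop q hq
  have hpc := pair_count P' y (V1 z0 z) (l * y) (nu z0 z (![a0] : Fin 1 → ℤ) ![b]) Hs hV
    (by positivity) hfnn (by
      intro x hx
      rw [hP', Finset.mem_image] at hx
      obtain ⟨p, hp, rfl⟩ := hx
      exact ⟨(hX p hp).2.1, (hX p hp).2.2, hVf p hp⟩) hHs (h4 b hb1.1 hb1.2)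
  have hcard : ((Ps ×ˢ Ps).filter (fun x => ((x.1 : ℤ) - x.2) / a0 ∈ Hs)).card ≤
      ((P' ×ˢ P').filter (fun x => ((x.1 : ℤ) - x.2) ∈ Hs)).card := by
    refine Finset.card_le_card_of_injOn (fun x => (X x.1, X x.2)) ?_ ?_
    · intro x hx
      rw [Finset.mem_coe, Finset.mem_filter, Finset.mem_product] at hx
      rw [Finset.mem_coe, Finset.mem_filter, Finset.mem_product]
      refine ⟨⟨?_, ?_⟩, ?_⟩
      · rw [hP']; exact Finset.mem_image_of_mem _ hx.1.1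
      · rw [hP']; exact Finset.mem_image_of_mem _ hx.1.2
      · have h1 := (hX _ hx.1.1).1
        have h2 := (hX _ hx.1.2).1
        have h3 : ((x.1 : ℤ) - x.2) / a0 = (X x.1 : ℤ) - X x.2 := by
          rw [h1, h2]
          have : a0 * (X x.1 : ℤ) + b - (a0 * (X x.2 : ℤ) + b) =
            a0 * ((X x.1 : ℤ) - X x.2) := by ring
          rw [this, Int.mul_ediv_cancel_left _ (ne_of_gt ha0)]
        show ((X x.1 : ℕ) : ℤ) - (X x.2 : ℕ) ∈ Hs
        rw [← h3]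
        exact hx.2
    · intro x hx x' hx' hxx
      rw [Finset.mem_coe, Finset.mem_filter, Finset.mem_product] at hx hx'
      simp only [Prod.mk.injEq] at hxx
      exact Prod.ext (hinj _ hx.1.1 _ hx'.1.1 hxx.1) (hinj _ hx.1.2 _ hx'.1.2 hxx.2)
  have hcardR : (((Ps ×ˢ Ps).filter (fun x => ((x.1 : ℤ) - x.2) / a0 ∈ Hs)).card : ℝ) ≤
      (((P' ×ˢ P').filter (fun x => ((x.1 : ℤ) - x.2) ∈ Hs)).card : ℝ) := by
    exact_mod_cast hcard
  refine hcardR.trans (le_trans (le_of_eq ?_) (hpc.trans (le_of_eq ?_)))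
  · congr 2
  · congr 2
    field_simp

theorem sum_image_affC (a0 m0 : ℤ) (ha0 : 0 < a0) (S : Finset ℤ) (g : ℤ → ℂ) :
    ∑ m ∈ S.image (fun x => m0 + a0 * x), g m = ∑ x ∈ S, g (m0 + a0 * x) := by
  rw [Finset.sum_image]
  intro x _ y _ h
  have h1 : a0 * x = a0 * y := by
    have : m0 + a0 * x = m0 + a0 * y := h
    linarith
  exact mul_left_cancel₀ (ne_of_gt ha0) h1

open Classical in
/-- few small multiples -/
theorem few_small (θ δ η : ℝ) (a0 : ℤ) (y : ℕ) (A : Finset ℕ) (Hs : Finset ℤ)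
    (hA : A = (Finset.Icc 1 y).filter (fun h : ℕ => ∃ k : ℤ, |θ * a0 * h - k| ≤ δ))
    (hHs : ∀ h ∈ Hs, -(y : ℤ) < h ∧ h < y ∧ h ≠ 0 ∧ ∃ k : ℤ, |θ * a0 * h - k| ≤ δ)
    (hAc : (A.card : ℝ) ≤ η * y) : (Hs.card : ℝ) ≤ 2 * η * y := by
  have h1 : Hs ⊆ A.image (fun n : ℕ => (n : ℤ)) ∪ A.image (fun n : ℕ => -(n : ℤ)) := by
    intro h hh
    obtain ⟨h2, h3, h5, k, hk⟩ := hHs h hh
    rw [Finset.mem_union, Finset.mem_image, Finset.mem_image]
    rcases lt_or_gt_of_ne h5 with h6 | h6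
    · right
      refine ⟨h.natAbs, ?_, by omega⟩
      rw [hA, Finset.mem_filter, Finset.mem_Icc]
      refine ⟨⟨by omega, by omega⟩, -k, ?_⟩
      have h7 : ((h.natAbs : ℕ) : ℝ) = -(h : ℝ) := by
        have : ((h.natAbs : ℕ) : ℤ) = -h := by omega
        have h8 : (((h.natAbs : ℕ) : ℤ) : ℝ) = ((-h : ℤ) : ℝ) := by rw [this]
        push_cast at h8
        simpa using h8
      rw [h7]
      push_cast
      rw [show θ * a0 * -(h : ℝ) - -(k : ℝ) = -(θ * a0 * h - k) by ring, abs_neg]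
      exact hk
    · left
      refine ⟨h.natAbs, ?_, by omega⟩
      rw [hA, Finset.mem_filter, Finset.mem_Icc]
      refine ⟨⟨by omega, by omega⟩, k, ?_⟩
      have h7 : ((h.natAbs : ℕ) : ℝ) = (h : ℝ) := by
        have : ((h.natAbs : ℕ) : ℤ) = h := by omega
        have h8 : (((h.natAbs : ℕ) : ℤ) : ℝ) = ((h : ℤ) : ℝ) := by rw [this]
        simpa using h8
      rw [h7]
      exact hk
  have h2 := (Finset.card_le_card h1).trans (Finset.card_union_le _ _)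
  have h3 := Finset.card_image_le (s := A) (f := fun n : ℕ => (n : ℤ))
  have h5 := Finset.card_image_le (s := A) (f := fun n : ℕ => -(n : ℤ))
  have h6 : (Hs.card : ℝ) ≤ 2 * A.card := by
    exact_mod_cast (by omega : Hs.card ≤ 2 * A.card)
  linarith

open Classical in
/-- one block -/
theorem block69 (z0 z Y M L N0 y : ℕ) (a0 b0 cl m0 n0 n1 : ℤ) (θ ε1 K0 η l : ℝ)
    (hz0 : 1 ≤ z0) (ha0 : 0 < a0) (hcop : ∀ q ∈ PP z0 z, IsCoprime a0 (q : ℤ)) (hzY : z ≤ Y)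
    (haY : a0 ≤ Y) (haM : a0 ≤ M) (hYM4 : Y ≤ 4 * M) (hε0 : 0 ≤ ε1) (hε1 : ε1 ≤ 1)
    (hK0 : 0 < K0) (hη : 0 < η) (hη1 : η ≤ 1) (hl : 0 < l) (hL1 : 1 ≤ L) (hL : 2 / η ≤ L)
    (hN0 : 1 ≤ N0) (hN1 : 64 * K0 * L ≤ N0) (hm0 : 0 ≤ m0) (hm0' : m0 < a0)
    (hdvd0 : a0 ∣ cl * m0 - b0) (hy : (y : ℤ) = Y / a0 + 1)
    (hexp : ∀ (v : ℤ) (H : ℕ), (H : ℝ) ≤ (M : ℝ) / a0 + 1 → -1 ≤ v → v ≤ M → ∀ α : ℝ,
      ‖∑ x ∈ Finset.Ioc v (v + H), ((nu z0 z (![1] : Fin 1 → ℤ) ![0] (m0 + a0 * x) - 1 : ℝ) : ℂ) *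
        ee (α * x)‖ ≤ ε1 * ((M : ℝ) / a0))
    (h4 : ∀ b : ℤ, -(2 * a0) ≤ b → b ≤ 0 → ∑ t ∈ Finset.Ioo (-(y : ℤ)) y,
      (∑ n ∈ (Finset.Ioc (y : ℤ) (y + y)).filter (fun n => n + t ∈ Finset.Ioc (y : ℤ) (y + y)),
        nu z0 z (![a0] : Fin 1 → ℤ) ![b] n * nu z0 z (![a0] : Fin 1 → ℤ) ![b] (n + t)) ^ 4 ≤
      4 * (y : ℝ) ^ 5) (hbig : 8 * (N0 : ℝ) ≤ η * (Y / a0)) :
    (∃ q : ℕ, 1 ≤ q ∧ q ≤ L ∧ ∃ a : ℤ,
      |θ * a0 - (a : ℝ) / q| ≤ 4 * K0 * N0 / η * (a0 : ℝ) ^ 2 / (Y * M)) ∨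
      ∑ m ∈ (Finset.Ioc (0 : ℤ) M).filter (fun m => a0 ∣ m - m0),
        nu z0 z (![1] : Fin 1 → ℤ) ![0] m *
        ‖∑ p ∈ (PP Y (2 * Y)).filter (fun p : ℕ => a0 ∣ (p : ℤ) - cl ∧ n0 < p * m ∧ p * m ≤ n1),
          ee (θ * ((((p : ℤ) * m - b0) / a0 : ℤ) : ℝ))‖ ^ 2 ≤
      ((M : ℝ) / a0) * ((ε1 + 1 / (2 * K0)) *
        (((PP Y (2 * Y)).filter (fun p : ℕ => a0 ∣ (p : ℤ) - cl)).card : ℝ) ^ 2 +
        3 * (((PP Y (2 * Y)).filter (fun p : ℕ => a0 ∣ (p : ℤ) - cl)).card : ℝ) +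
        3 * (V1 z0 z ^ 2 * (2 * η * l + 4 / l ^ 3) * (y : ℝ) ^ 2)) := by
  have ha0R : (0 : ℝ) < a0 := by exact_mod_cast ha0
  have haMR : (a0 : ℝ) ≤ M := by exact_mod_cast haM
  have haYR : (a0 : ℝ) ≤ Y := by exact_mod_cast haY
  have hM0 : (0 : ℝ) < M := by linarith
  have hY0 : (0 : ℝ) < Y := by linarith
  have hMa : 1 ≤ (M : ℝ) / a0 := by rw [le_div_iff₀ ha0R]; linarith
  have hYa0 : (0 : ℤ) ≤ Y / a0 := Int.ediv_nonneg (by positivity) ha0.le
  have hy1 : 1 ≤ y := by omega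
  have hyR0 : (0 : ℝ) < y := by exact_mod_cast hy1
  have hemod := Int.emod_add_mul_ediv (Y : ℤ) a0
  have hemod1 := Int.emod_nonneg (Y : ℤ) (ne_of_gt ha0)
  have hemod2 := Int.emod_lt_of_pos (Y : ℤ) ha0
  have hyY : (Y : ℝ) / a0 ≤ y := by
    rw [div_le_iff₀ ha0R]
    have h1 : (Y : ℤ) ≤ y * a0 := by rw [hy]; nlinarith
    exact_mod_cast h1
  have hyY2 : (y : ℝ) ≤ (Y : ℝ) / a0 + 1 := by
    have h1 : ((y : ℤ) - 1) * a0 ≤ Y := by rw [hy]; nlinarith
    have h2 : ((y : ℝ) - 1) * a0 ≤ Y := by exact_mod_cast h1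
    rw [← sub_le_iff_le_add, le_div_iff₀ ha0R]
    exact h2
  obtain ⟨δ, hδ⟩ : ∃ δ : ℝ, δ = K0 * a0 / M := ⟨_, rfl⟩
  have hδ0 : 0 < δ := by rw [hδ]; positivity
  obtain ⟨A, hA⟩ : ∃ A : Finset ℕ, A = (Finset.Icc 1 y).filter
    (fun h : ℕ => ∃ k : ℤ, |θ * a0 * h - k| ≤ δ) := ⟨_, rfl⟩
  by_cases hAcard : η * y < A.card
  · left
    have hN0R : (1 : ℝ) ≤ N0 := by exact_mod_cast hN0
    have hLR : (1 : ℝ) ≤ L := by exact_mod_cast hL1
    have h8 : 8 * (N0 : ℝ) ≤ η * y := hbig.trans (mul_le_mul_of_nonneg_left hyY hη.le)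
    have h9 : 8 ≤ (y : ℝ) / N0 := by
      rw [le_div_iff₀ (by linarith)]
      have : η * y ≤ 1 * y := mul_le_mul_of_nonneg_right hη1 hyR0.le
      linarith
    obtain ⟨q, hq1, hqL, a, ha⟩ := many_cut (θ * a0) δ η y L N0 hδ0 hL1 hN0 A (by
      intro h hh
      rw [hA, Finset.mem_filter, Finset.mem_Icc] at hh
      exact ⟨hh.1.1, hh.1.2, hh.2⟩) hη hη1 hAcard h8 hL (by
      have h10 : 2 * ((y : ℝ) / N0 + 1) + 1 ≤ 3 * ((y : ℝ) / N0) := by linarith
      have h11 : (y : ℝ) ≤ 8 * ((M : ℝ) / a0) := by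
        have h12 : (Y : ℝ) / a0 ≤ 4 * ((M : ℝ) / a0) := by
          have h13 : (Y : ℝ) ≤ 4 * M := by exact_mod_cast hYM4
          rw [← mul_div_assoc]
          exact div_le_div_of_nonneg_right h13 ha0R.le
        have h13 : 1 ≤ (Y : ℝ) / a0 := by rw [le_div_iff₀ ha0R]; linarith
        linarith
      have h12 : (3 * ((y : ℝ) / N0)) * (2 * δ) * L ≤ 48 * K0 * L / N0 := by
        have h13 : 3 * ((y : ℝ) / N0) ≤ 3 * (8 * ((M : ℝ) / a0) / N0) := by
          have := div_le_div_of_nonneg_right h11 (by linarith : (0 : ℝ) ≤ N0)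
          linarith
        have h14 : 0 ≤ 2 * δ * L := by positivity
        calc (3 * ((y : ℝ) / N0)) * (2 * δ) * L = (3 * ((y : ℝ) / N0)) * (2 * δ * L) := by ring
          _ ≤ (3 * (8 * ((M : ℝ) / a0) / N0)) * (2 * δ * L) := mul_le_mul_of_nonneg_right h13 h14
          _ = 48 * K0 * L / N0 := by
              rw [hδ]
              field_simp
              ring
      have h13 : 48 * K0 * L / N0 < 1 := by
        rw [div_lt_one (by linarith)]
        have : 0 < K0 * L := by positivity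
        linarith
      have h14 : 0 ≤ 2 * δ * L := by positivity
      calc (2 * ((y : ℝ) / N0 + 1) + 1) * (2 * δ) * L
          = (2 * ((y : ℝ) / N0 + 1) + 1) * (2 * δ * L) := by ring
        _ ≤ (3 * ((y : ℝ) / N0)) * (2 * δ * L) := mul_le_mul_of_nonneg_right h10 h14
        _ = (3 * ((y : ℝ) / N0)) * (2 * δ) * L := by ring
        _ < 1 := lt_of_le_of_lt h12 h13)
    refine ⟨q, hq1, hqL, a, ha.trans ?_⟩
    calc 4 * δ * N0 / (η * y) ≤ 4 * δ * N0 / (η * ((Y : ℝ) / a0)) := by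
          refine div_le_div_of_nonneg_left (by positivity) (by positivity) ?_
          exact mul_le_mul_of_nonneg_left hyY hη.le
      _ = 4 * K0 * N0 / η * (a0 : ℝ) ^ 2 / (Y * M) := by
          rw [hδ]
          field_simp
  right
  push Not at hAcard
  obtain ⟨Hs, hHs⟩ : ∃ Hs : Finset ℤ, Hs = (Finset.Ioo (-(y : ℤ)) y).filter
    (fun h : ℤ => h ≠ 0 ∧ ∃ k : ℤ, |θ * a0 * h - k| ≤ δ) := ⟨_, rfl⟩
  have hHscard : (Hs.card : ℝ) ≤ 2 * η * y := few_small θ δ η a0 y A Hs hA (by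
    intro h hh
    rw [hHs, Finset.mem_filter, Finset.mem_Ioo] at hh
    exact ⟨hh.1.1, hh.1.2, hh.2.1, hh.2.2⟩) hAcard
  have hpairs := bad_pairs z0 z Y y a0 cl l Hs hz0 ha0 hcop hzY hy hl (by
    rw [hHs]; exact Finset.filter_subset _ _) h4
  obtain ⟨Ps, hPs⟩ : ∃ Ps, Ps = (PP Y (2 * Y)).filter (fun p : ℕ => a0 ∣ (p : ℤ) - cl) := ⟨_, rfl⟩
  rw [← hPs] at hpairs ⊢
  have hpairs2 : (((Ps ×ˢ Ps).filter (fun x => ((x.1 : ℤ) - x.2) / a0 ∈ Hs)).card : ℝ) ≤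
      V1 z0 z ^ 2 * (2 * η * l + 4 / l ^ 3) * (y : ℝ) ^ 2 := by
    refine hpairs.trans ?_
    rw [mul_assoc (V1 z0 z ^ 2)]
    refine mul_le_mul_of_nonneg_left ?_ (by positivity)
    have h1 : (Hs.card : ℝ) * (l * y) ≤ 2 * η * y * (l * y) :=
      mul_le_mul_of_nonneg_right hHscard (by positivity)
    have h2 : 4 * (y : ℝ) ^ 2 / l ^ 3 = 4 / l ^ 3 * (y : ℝ) ^ 2 := by ring
    rw [h2]
    nlinarith
  obtain ⟨Ms, hMs⟩ : ∃ Ms, Ms = (Finset.Ioc (0 : ℤ) M).filter (fun m => a0 ∣ m - m0) := ⟨_, rfl⟩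
  rw [← hMs]
  obtain ⟨w, hw⟩ : ∃ w : ℤ → ℝ, w = fun m => nu z0 z (![1] : Fin 1 → ℤ) ![0] m := ⟨_, rfl⟩
  obtain ⟨g, hg⟩ : ∃ g : ℕ → ℤ → ℂ, g = fun (p : ℕ) (m : ℤ) =>
    ee (θ * ((((p : ℤ) * m - b0) / a0 : ℤ) : ℝ)) := ⟨_, rfl⟩
  have hw0 : ∀ m, 0 ≤ w m := by
    intro m
    rw [hw]
    refine Pool.Agent.Lib.TwinAll.nu_nonneg (by omega) _ _ ?_ m
    intro j q hq
    have hj : j = 0 := Subsingleton.elim _ _
    subst hj
    exact Pool.Agent.Lib.TwinAll.not_dvd_one q hq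
  have hexpand := sq_expandC Ms Ps w hw0 g (fun (p : ℕ) (m : ℤ) => n0 < (p : ℤ) * m ∧ (p : ℤ) * m ≤ n1)
  have hlhs : ∑ m ∈ Ms, nu z0 z (![1] : Fin 1 → ℤ) ![0] m *
        ‖∑ p ∈ (PP Y (2 * Y)).filter (fun p : ℕ => a0 ∣ (p : ℤ) - cl ∧ n0 < p * m ∧ p * m ≤ n1),
          ee (θ * ((((p : ℤ) * m - b0) / a0 : ℤ) : ℝ))‖ ^ 2 =
      ∑ m ∈ Ms, w m * ‖∑ p ∈ Ps.filter (fun p : ℕ => n0 < (p : ℤ) * m ∧ (p : ℤ) * m ≤ n1),
        g p m‖ ^ 2 := by
    refine Finset.sum_congr rfl (fun m _ => ?_)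
    rw [hw, hg, hPs, Finset.filter_filter]
  rw [hlhs]
  refine hexpand.trans ?_
  -- divisibility
  have hdvd : ∀ p ∈ Ps, a0 ∣ (p : ℤ) * m0 - b0 := by
    intro p hp
    rw [hPs, Finset.mem_filter] at hp
    have h1 : (p : ℤ) * m0 - b0 = ((p : ℤ) - cl) * m0 + (cl * m0 - b0) := by ring
    rw [h1]
    exact dvd_add (Dvd.dvd.mul_right hp.2 _) hdvd0
  have hPsP : ∀ p ∈ Ps, p.Prime ∧ Y < p ∧ p ≤ 2 * Y ∧ a0 ∣ (p : ℤ) - cl := by
    intro p hp
    rw [hPs, Finset.mem_filter, Pool.Agent.Lib.TwinAll.mem_PP] at hp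
    exact ⟨hp.1.2, hp.1.1.1, hp.1.1.2, hp.2⟩
  have hE : ∀ p ∈ Ps, ∀ p' ∈ Ps,
      ‖∑ m ∈ Ms.filter (fun m => (n0 < (p : ℤ) * m ∧ (p : ℤ) * m ≤ n1) ∧
        (n0 < (p' : ℤ) * m ∧ (p' : ℤ) * m ≤ n1)),
        (w m : ℂ) * (g p m * (starRingEnd ℂ) (g p' m))‖ ≤ (ε1 + 1 / (2 * K0)) * ((M : ℝ) / a0) +
        (if p = p' then 3 * ((M : ℝ) / a0) else 0) +
        (if ((p : ℤ) - p') / a0 ∈ Hs then 3 * ((M : ℝ) / a0) else 0) := by
    intro p hp p' hp'
    obtain ⟨p1, p2, p3, p4⟩ := hPsP p hp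
    obtain ⟨p1', p2', p3', p4'⟩ := hPsP p' hp'
    obtain ⟨u, hu⟩ := hdvd p hp
    obtain ⟨u', hu'⟩ := hdvd p' hp'
    obtain ⟨v, H, hH, hI⟩ := range_pair a0 m0 n0 n1 M p p' ha0 p1.pos p1'.pos
    have hpos1 : 0 ≤ (ε1 + 1 / (2 * K0)) * ((M : ℝ) / a0) := by positivity
    have hpos2 : 0 ≤ 3 * ((M : ℝ) / a0) := by positivity
    have hsum : ∑ m ∈ Ms.filter (fun m => (n0 < (p : ℤ) * m ∧ (p : ℤ) * m ≤ n1) ∧
        (n0 < (p' : ℤ) * m ∧ (p' : ℤ) * m ≤ n1)),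
        (w m : ℂ) * (g p m * (starRingEnd ℂ) (g p' m)) =
        ee (θ * (u - u')) * ∑ x ∈ Finset.Ioc v (v + H), (w (m0 + a0 * x) : ℂ) *
          ee (θ * ((p : ℝ) - p') * x) := by
      rw [hMs, ← hI, sum_image_affC a0 m0 ha0, Finset.mul_sum]
      refine Finset.sum_congr rfl (fun x _ => ?_)
      have e1 : ((p : ℤ) * (m0 + a0 * x) - b0) / a0 = p * x + u := by
        have : (p : ℤ) * (m0 + a0 * x) - b0 = a0 * (p * x + u) := by linear_combination hu
        rw [this, Int.mul_ediv_cancel_left _ (ne_of_gt ha0)]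
      have e2 : ((p' : ℤ) * (m0 + a0 * x) - b0) / a0 = p' * x + u' := by
        have : (p' : ℤ) * (m0 + a0 * x) - b0 = a0 * (p' * x + u') := by linear_combination hu'
        rw [this, Int.mul_ediv_cancel_left _ (ne_of_gt ha0)]
      rw [hg]
      simp only [e1, e2]
      rw [conj_ee, ← Pool.Agent.Lib.TwinAll.ee_add, mul_left_comm,
        ← Pool.Agent.Lib.TwinAll.ee_add]
      congr 2
      push_cast
      ring
    rw [hsum, norm_mul, Pool.Agent.Lib.TwinAll.norm_ee, one_mul]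
    rcases Nat.eq_zero_or_pos H with hH0 | hH0
    · subst hH0
      rw [Finset.Ioc_eq_empty (by simp), Finset.sum_empty, norm_zero]
      split_ifs <;> linarith
    have hv : -1 ≤ v ∧ v ≤ M := by
      have h1 : m0 + a0 * (v + 1) ∈ (Finset.Ioc v (v + H)).image (fun x => m0 + a0 * x) := by
        rw [Finset.mem_image]
        exact ⟨v + 1, by rw [Finset.mem_Ioc]; omega, rfl⟩
      rw [hI, Finset.mem_filter, Finset.mem_filter, Finset.mem_Ioc] at h1
      obtain ⟨⟨⟨h2, h3⟩, -⟩, -⟩ := h1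
      constructor
      · have h5 : 0 < a0 * (v + 1) + a0 := by linarith
        have h6 : 0 < a0 * (v + 2) := by linarith
        have h7 := pos_of_mul_pos_right h6 ha0.le
        omega
      · by_contra hcon
        push Not at hcon
        nlinarith
    have hsplit : ∑ x ∈ Finset.Ioc v (v + H), (w (m0 + a0 * x) : ℂ) *
          ee (θ * ((p : ℝ) - p') * x) =
        ∑ x ∈ Finset.Ioc v (v + H), ((w (m0 + a0 * x) - 1 : ℝ) : ℂ) *
          ee (θ * ((p : ℝ) - p') * x) +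
        ∑ x ∈ Finset.Ioc v (v + H), ee (θ * ((p : ℝ) - p') * x) := by
      rw [← Finset.sum_add_distrib]
      refine Finset.sum_congr rfl (fun x _ => ?_)
      push_cast
      ring
    have h1 : ‖∑ x ∈ Finset.Ioc v (v + H), ((w (m0 + a0 * x) - 1 : ℝ) : ℂ) *
          ee (θ * ((p : ℝ) - p') * x)‖ ≤ ε1 * ((M : ℝ) / a0) := by
      have := hexp v H hH hv.1 hv.2 (θ * ((p : ℝ) - p'))
      rw [hw]
      exact this
    have htriv : ‖∑ x ∈ Finset.Ioc v (v + H), (w (m0 + a0 * x) : ℂ) *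
          ee (θ * ((p : ℝ) - p') * x)‖ ≤ 3 * ((M : ℝ) / a0) := by
      rw [hsplit]
      refine (norm_add_le _ _).trans ?_
      have h2 : ‖∑ x ∈ Finset.Ioc v (v + H), ee (θ * ((p : ℝ) - p') * x)‖ ≤ H := by
        refine (norm_sum_le _ _).trans (le_of_eq ?_)
        rw [Finset.sum_congr rfl (fun x _ => Pool.Agent.Lib.TwinAll.norm_ee _)]
        rw [Finset.sum_const, Int.card_Ioc, nsmul_eq_mul, mul_one]
        simp
      have h3 : ε1 * ((M : ℝ) / a0) ≤ 1 * ((M : ℝ) / a0) :=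
        mul_le_mul_of_nonneg_right hε1 (by positivity)
      linarith
    by_cases hpp : p = p'
    · rw [if_pos hpp]
      split_ifs <;> linarith
    · by_cases hh : ((p : ℤ) - p') / a0 ∈ Hs
      · rw [if_pos hh, if_neg hpp]
        linarith
      · rw [if_neg hh, if_neg hpp, add_zero, add_zero]
        obtain ⟨h, hh1⟩ : a0 ∣ (p : ℤ) - p' := by
          have : (p : ℤ) - p' = (p - cl) - (p' - cl) := by ring
          rw [this]
          exact dvd_sub p4 p4'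
        have hh2 : ((p : ℤ) - p') / a0 = h := by
          rw [hh1, Int.mul_ediv_cancel_left _ (ne_of_gt ha0)]
        rw [hh2] at hh
        have hhR : (p : ℝ) - p' = a0 * h := by exact_mod_cast hh1
        have hfar : ∀ k : ℤ, δ < |θ * ((p : ℝ) - p') - k| := by
          intro k
          by_contra hcon
          push Not at hcon
          apply hh
          rw [hHs, Finset.mem_filter, Finset.mem_Ioo]
          have h5 : (y : ℤ) * a0 > Y := by rw [hy]; nlinarith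
          refine ⟨⟨?_, ?_⟩, ?_, k, ?_⟩
          · by_contra hc
            push Not at hc
            have h6 : a0 * h ≤ a0 * (-(y : ℤ)) := mul_le_mul_of_nonneg_left hc ha0.le
            rw [← hh1] at h6
            have h7 : (p' : ℤ) ≤ 2 * Y := by exact_mod_cast p3'
            have h8 : (Y : ℤ) < p := by exact_mod_cast p2
            linarith
          · by_contra hc
            push Not at hc
            have h6 : a0 * (y : ℤ) ≤ a0 * h := mul_le_mul_of_nonneg_left hc ha0.le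
            rw [← hh1] at h6
            have h7 : (p : ℤ) ≤ 2 * Y := by exact_mod_cast p3
            have h8 : (Y : ℤ) < p' := by exact_mod_cast p2'
            linarith
          · rintro rfl
            apply hpp
            have : (p : ℤ) = p' := by linarith
            exact_mod_cast this
          · rw [hhR] at hcon
            rw [show θ * (a0 : ℝ) * (h : ℝ) = θ * (a0 * h) by ring]
            exact hcon
        have h2 := geom_Ioc (θ * ((p : ℝ) - p')) δ v H hδ0 hfar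
        rw [hsplit]
        refine (norm_add_le _ _).trans ?_
        have h5 : 1 / (2 * δ) = 1 / (2 * K0) * ((M : ℝ) / a0) := by
          rw [hδ]; field_simp
        rw [h5] at h2
        calc _ ≤ ε1 * ((M : ℝ) / a0) + 1 / (2 * K0) * ((M : ℝ) / a0) := add_le_add h1 h2
          _ = _ := by ring
  refine (Finset.sum_le_sum (fun p hp => Finset.sum_le_sum (fun p' hp' => hE p hp p' hp'))).trans ?_
  have h1 : ∑ p ∈ Ps, ∑ p' ∈ Ps, ((ε1 + 1 / (2 * K0)) * ((M : ℝ) / a0) +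
        (if p = p' then 3 * ((M : ℝ) / a0) else 0) +
        (if ((p : ℤ) - p') / a0 ∈ Hs then 3 * ((M : ℝ) / a0) else 0)) =
        (Ps.card : ℝ) ^ 2 * ((ε1 + 1 / (2 * K0)) * ((M : ℝ) / a0)) +
        Ps.card * (3 * ((M : ℝ) / a0)) +
        (((Ps ×ˢ Ps).filter (fun x => ((x.1 : ℤ) - x.2) / a0 ∈ Hs)).card : ℝ) *
          (3 * ((M : ℝ) / a0)) := by
    simp only [Finset.sum_add_distrib]
    congr 1
    · congr 1
      · simp only [Finset.sum_const, nsmul_eq_mul]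
        ring
      · simp only [Finset.sum_ite_eq]
        rw [Finset.sum_congr rfl (fun p hp => if_pos hp), Finset.sum_const, nsmul_eq_mul]
    · rw [← Finset.sum_product', ← Finset.sum_filter, Finset.sum_const, nsmul_eq_mul]
  rw [h1]
  have h2 := mul_le_mul_of_nonneg_right hpairs2 (by positivity : 0 ≤ 3 * ((M : ℝ) / a0))
  refine (add_le_add_right h2 _).trans (le_of_eq ?_)
  ring

theorem nu_one_form (z0 z : ℕ) (a b : ℤ) (ha : ∀ q ∈ PP z0 z, IsCoprime a (q : ℤ)) (x : ℤ) :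
    nu z0 z (![1] : Fin 1 → ℤ) ![0] (b + a * x) = nu z0 z (![a] : Fin 1 → ℤ) ![b] x := by
  classical
  unfold nu
  rw [VV_one_form z0 z a b ha]
  unfold V1
  have h : (∀ j : Fin 1, Rough z0 z ((![1] : Fin 1 → ℤ) j * (b + a * x) + (![0] : Fin 1 → ℤ) j)) ↔
      ∀ j : Fin 1, Rough z0 z ((![a] : Fin 1 → ℤ) j * x + (![b] : Fin 1 → ℤ) j) := by
    refine forall_congr' (fun j => ?_)
    have hj : j = 0 := Subsingleton.elim _ _
    subst hj
    simp only [Matrix.cons_val_zero]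
    rw [show 1 * (b + a * x) + 0 = a * x + b by ring]
  by_cases h1 : ∀ j : Fin 1, Rough z0 z ((![a] : Fin 1 → ℤ) j * x + (![b] : Fin 1 → ℤ) j)
  · rw [if_pos (h.2 h1), if_pos h1]
  · rw [if_neg (fun h2 => h1 (h.1 h2)), if_neg h1]

/-- the final inequality -/
theorem minb_final (e A P Yr y V a m : ℝ) (he0 : 0 < e) (he1 : e ≤ 1) (hm : 0 ≤ m)
    (hA : A = V * Yr / a) (hP0 : 0 ≤ P) (hP : P ≤ 6 * A) (h3 : 3 * P ≤ e / 8 * A ^ 2) (hy0 : 0 ≤ y)
    (hy : y ≤ 2 * (Yr / a)) :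
    m * ((e / 512 + 1 / (2 * (256 / e))) * P ^ 2 + 3 * P +
      3 * (V ^ 2 * (2 * (e ^ 2 / 2048) * (8 / e) + 4 / (8 / e) ^ 3) * y ^ 2)) ≤
    e * A ^ 2 * m := by
  have h1 : 1 / (2 * (256 / e)) = e / 512 := by field_simp; norm_num
  have h2 : 2 * (e ^ 2 / 2048) * (8 / e) = e / 128 := by field_simp; norm_num
  have h5 : 4 / (8 / e) ^ 3 = e ^ 3 / 128 := by field_simp; norm_num
  have h6 : e ^ 3 / 128 ≤ e / 128 := by
    have : e ^ 3 ≤ e := by
      calc e ^ 3 = e * e ^ 2 := by ring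
        _ ≤ e * 1 := mul_le_mul_of_nonneg_left (pow_le_one₀ he0.le he1) he0.le
        _ = e := mul_one e
    linarith
  have h7 : P ^ 2 ≤ 36 * A ^ 2 := by
    have := pow_le_pow_left₀ hP0 hP 2
    calc P ^ 2 ≤ (6 * A) ^ 2 := this
      _ = _ := by ring
  have h8 : V ^ 2 * y ^ 2 ≤ 4 * A ^ 2 := by
    have h9 : y ^ 2 ≤ (2 * (Yr / a)) ^ 2 := pow_le_pow_left₀ hy0 hy 2
    calc V ^ 2 * y ^ 2 ≤ V ^ 2 * (2 * (Yr / a)) ^ 2 := mul_le_mul_of_nonneg_left h9 (sq_nonneg V)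
      _ = 4 * A ^ 2 := by rw [hA]; ring
  rw [h1, h2, h5]
  have h9 : V ^ 2 * (e / 128 + e ^ 3 / 128) * y ^ 2 ≤ e / 16 * A ^ 2 := by
    have h10 : e / 128 + e ^ 3 / 128 ≤ e / 64 := by linarith
    calc V ^ 2 * (e / 128 + e ^ 3 / 128) * y ^ 2 = (e / 128 + e ^ 3 / 128) * (V ^ 2 * y ^ 2) := by ring
      _ ≤ e / 64 * (4 * A ^ 2) := mul_le_mul h10 h8 (by positivity) (by positivity)
      _ = _ := by ring
  have h10 : (e / 512 + e / 512) * P ^ 2 ≤ 9 / 64 * (e * A ^ 2) := by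
    calc (e / 512 + e / 512) * P ^ 2 ≤ (e / 512 + e / 512) * (36 * A ^ 2) :=
          mul_le_mul_of_nonneg_left h7 (by positivity)
      _ = _ := by ring
  rw [mul_comm (e * A ^ 2) m]
  refine mul_le_mul_of_nonneg_left ?_ hm
  have h11 : 0 ≤ e * A ^ 2 := by positivity
  nlinarith

theorem minb_diag (e V Y a C z : ℝ) (he0 : 0 < e) (ha : 0 < a) (haC : a ≤ C) (hY : 0 ≤ Y)
    (e2 : 1 ≤ V * z) (e3 : 24 / e * C ^ 2 * z ^ 2 ≤ Y) : 3 * Y ≤ e / 8 * (V * Y / a) ^ 2 := by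
  have e4 : 1 ≤ (V * z) ^ 2 := one_le_pow₀ e2
  have e5 : a ^ 2 ≤ C ^ 2 := pow_le_pow_left₀ ha.le haC 2
  have e7 : e / 8 * (V * Y / a) ^ 2 = (V ^ 2 * Y ^ 2) / (8 / e * a ^ 2) := by
    field_simp
  rw [e7, le_div_iff₀ (by positivity)]
  calc 3 * Y * (8 / e * a ^ 2) = Y * (24 / e * a ^ 2 * 1) := by ring
    _ ≤ Y * (24 / e * C ^ 2 * (V * z) ^ 2) := by
        refine mul_le_mul_of_nonneg_left ?_ hY
        exact mul_le_mul (mul_le_mul_of_nonneg_left e5 (by positivity)) e4 (by norm_num)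
          (by positivity)
    _ = (V ^ 2 * Y) * (24 / e * C ^ 2 * z ^ 2) := by ring
    _ ≤ (V ^ 2 * Y) * Y := mul_le_mul_of_nonneg_left e3 (by positivity)
    _ = _ := by ring

open Classical in
/-- the bilinear sum on the minor arcs -/
theorem minb_69 (hS3 : Pool.Agent.Lib.TwinAll.S3Stmt) (hS4r : S4rStmt) (hS2 : S2rStmt) :
    MINBStmt := by
  obtain ⟨s3, zs3, h3⟩ := hS3 1 1 one_pos
  obtain ⟨s4, h4⟩ := hS4r 1
  obtain ⟨s5, zs5, h5⟩ := card_class_69 hS2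
  refine ⟨11 * s4 + 2, s3 + s5 + 4, fun t => ?_⟩
  obtain ⟨zs4, h4⟩ := h4 (t + 10)
  refine ⟨2 ^ (2 * t + 12), 2 ^ (6 * t + 47), max zs3 (max zs4 (max zs5 2)), Nat.one_le_two_pow,
    fun z0 hz0 B C0 => ?_⟩
  have hz03 : zs3 ≤ z0 := (le_max_left _ _).trans hz0
  have hz04 : zs4 ≤ z0 := (le_max_left _ _).trans ((le_max_right _ _).trans hz0)
  have hz05 : zs5 ≤ z0 :=
    (le_max_left _ _).trans ((le_max_right _ _).trans ((le_max_right _ _).trans hz0))
  have hz02 : 2 ≤ z0 :=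
    (le_max_right _ _).trans ((le_max_right _ _).trans ((le_max_right _ _).trans hz0))
  obtain ⟨z3, h3⟩ := h3 z0 hz03 (B + 2)
  obtain ⟨z4, h4⟩ := h4 z0 hz04 (B + 2)
  obtain ⟨z5, h5⟩ := h5 z0 hz05 C0
  refine ⟨max z0 (max z3 (max z4 (max z5 (2 ^ (5 * t + 40) * (C0 + 1) ^ 2)))),
    fun z hz a0 b0 hBF Y M hYs hYM hY4 hMs cl m0 n0 n1 hdv hn0 θ => ?_⟩
  have hz0z : z0 ≤ z := (le_max_left _ _).trans hz
  have hz3 : z3 ≤ z := (le_max_left _ _).trans ((le_max_right _ _).trans hz)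
  have hz4 : z4 ≤ z := (le_max_left _ _).trans
    ((le_max_right _ _).trans ((le_max_right _ _).trans hz))
  have hz5 : z5 ≤ z := (le_max_left _ _).trans ((le_max_right _ _).trans
    ((le_max_right _ _).trans ((le_max_right _ _).trans hz)))
  have hzC : 2 ^ (5 * t + 40) * (C0 + 1) ^ 2 ≤ z := (le_max_right _ _).trans
    ((le_max_right _ _).trans ((le_max_right _ _).trans ((le_max_right _ _).trans hz)))
  have hz1 : 1 ≤ z := by omega
  have hz1R : (1 : ℝ) ≤ z := by exact_mod_cast hz1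
  have h3 := h3 z hz3
  have h4 := h4 z hz4
  have h5 := h5 z hz5
  -- elementary bounds
  have hC0z : 2 * C0 + 2 ≤ z := by
    refine le_trans ?_ hzC
    have e1 : 2 * C0 + 2 ≤ 2 * (C0 + 1) ^ 2 := by nlinarith [Nat.zero_le C0]
    refine e1.trans (Nat.mul_le_mul_right _ ?_)
    calc 2 = 2 ^ 1 := rfl
      _ ≤ 2 ^ (5 * t + 40) := Nat.pow_le_pow_right (by norm_num) (by omega)
  have ha0 : 0 < a0 := hBF.pos
  have ha0C : a0 ≤ C0 := hBF.bd.1
  have ha0R : (0 : ℝ) < a0 := by exact_mod_cast ha0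
  have ha0CR : (a0 : ℝ) ≤ C0 := by exact_mod_cast ha0C
  have hcop : ∀ q ∈ PP z0 z, IsCoprime a0 (q : ℤ) := coprime_of_small hBF.large
  have hzpow : ∀ n : ℕ, 1 ≤ n → z ≤ z ^ n := fun n hn => Nat.le_self_pow (by omega) z
  have hzY : z ^ 4 ≤ Y := (Nat.pow_le_pow_right hz1 (by omega)).trans hYs
  have hzY1 : z ≤ Y := (hzpow 4 (by norm_num)).trans hzY
  have hY1 : 1 ≤ Y := hz1.trans hzY1
  have hzM : z ≤ M := by
    refine le_trans ?_ hMs
    refine hzpow _ ?_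
    have : 1 ≤ (11 * s4 + 2) * 1 := by omega
    exact this.trans (Nat.mul_le_mul_left _ (by omega))
  have hM1 : 1 ≤ M := hz1.trans hzM
  have hMB : M ≤ z ^ B := by
    calc M = 1 * M := (one_mul M).symm
      _ ≤ Y * M := Nat.mul_le_mul_right _ hY1
      _ ≤ z ^ B := hYM
  have hYB : Y ≤ z ^ B := by
    calc Y = Y * 1 := (mul_one Y).symm
      _ ≤ Y * M := Nat.mul_le_mul_left _ hM1
      _ ≤ z ^ B := hYM
  have hzB2 : ∀ n : ℕ, n ≤ z → n ≤ z ^ (B + 2) := fun n hn => hn.trans (hzpow _ (by omega))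
  have hzB1 : z ^ B + 1 ≤ z ^ (B + 2) := by
    calc z ^ B + 1 ≤ z ^ B + z ^ B := Nat.add_le_add_left (Nat.one_le_pow _ _ hz1) _
      _ = 2 * z ^ B := by ring
      _ ≤ z * z ^ B := Nat.mul_le_mul_right _ (by omega)
      _ ≤ z * (z * z ^ B) := Nat.le_mul_of_pos_left _ hz1
      _ = z ^ (B + 2) := by ring
  have haY : a0 ≤ Y := by
    have : (C0 : ℤ) ≤ Y := by exact_mod_cast (by omega : C0 ≤ Y)
    omega
  have haM : a0 ≤ M := by
    have : (C0 : ℤ) ≤ M := by exact_mod_cast (by omega : C0 ≤ M)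
    omega
  have haYR : (a0 : ℝ) ≤ Y := by exact_mod_cast haY
  have haMR : (a0 : ℝ) ≤ M := by exact_mod_cast haM
  -- residue
  obtain ⟨m0', hm0'⟩ : ∃ m0' : ℤ, m0' = m0 % a0 := ⟨_, rfl⟩
  have hm1 : 0 ≤ m0' := by rw [hm0']; exact Int.emod_nonneg _ (ne_of_gt ha0)
  have hm2 : m0' < a0 := by rw [hm0']; exact Int.emod_lt_of_pos _ ha0
  have hm3 : a0 ∣ m0 - m0' := by rw [hm0']; exact Int.dvd_self_sub_emod
  have hm4 : a0 ∣ cl * m0' - b0 := by
    have : cl * m0' - b0 = (cl * m0 - b0) - cl * (m0 - m0') := by ring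
    rw [this]
    exact dvd_sub hdv (Dvd.dvd.mul_left hm3 _)
  have hfil : (Ioc (0 : ℤ) M).filter (fun m => a0 ∣ m - m0) =
      (Ioc (0 : ℤ) M).filter (fun m => a0 ∣ m - m0') := by
    refine Finset.filter_congr (fun m _ => ?_)
    constructor
    · intro h
      have : m - m0' = (m - m0) + (m0 - m0') := by ring
      rw [this]; exact dvd_add h hm3
    · intro h
      have : m - m0 = (m - m0') - (m0 - m0') := by ring
      rw [this]; exact dvd_sub h hm3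
  rw [hfil]
  -- parameters
  obtain ⟨e, he⟩ : ∃ e : ℝ, e = (1 / 2) ^ t := ⟨_, rfl⟩
  have he0 : 0 < e := by rw [he]; positivity
  have he1 : e ≤ 1 := by rw [he]; exact pow_le_one₀ (by norm_num) (by norm_num)
  have he2 : (2 : ℝ) ^ t = 1 / e := by rw [he]; simp
  have hepow : ∀ n : ℕ, (2 : ℝ) ^ (n * t) = 1 / e ^ n := by
    intro n
    rw [mul_comm, pow_mul, he2]
    simp
  obtain ⟨y, hy⟩ : ∃ y : ℕ, (y : ℤ) = Y / a0 + 1 := by
    refine ⟨((Y : ℤ) / a0 + 1).toNat, ?_⟩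
    rw [Int.toNat_of_nonneg]
    have : (0 : ℤ) ≤ Y / a0 := Int.ediv_nonneg (by positivity) ha0.le
    omega
  have hemod := Int.emod_add_mul_ediv (Y : ℤ) a0
  have hemod1 := Int.emod_nonneg (Y : ℤ) (ne_of_gt ha0)
  have hemod2 := Int.emod_lt_of_pos (Y : ℤ) ha0
  have hyY : (Y : ℝ) / a0 ≤ y := by
    rw [div_le_iff₀ ha0R]
    have h1 : (Y : ℤ) ≤ y * a0 := by rw [hy]; nlinarith
    exact_mod_cast h1
  have hyY2 : (y : ℝ) ≤ (Y : ℝ) / a0 + 1 := by
    have h1 : ((y : ℤ) - 1) * a0 ≤ Y := by rw [hy]; nlinarith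
    have h2 : ((y : ℝ) - 1) * a0 ≤ Y := by exact_mod_cast h1
    rw [← sub_le_iff_le_add, le_div_iff₀ ha0R]
    exact h2
  have hyle : y ≤ Y + 1 := by
    have h1 : (Y : ℤ) / a0 ≤ Y := Int.ediv_le_self _ (by positivity)
    omega
  have hLval : ((2 ^ (2 * t + 12) : ℕ) : ℝ) = 4096 / e ^ 2 := by
    push_cast
    rw [pow_add, hepow 2]
    field_simp
    norm_num
  have hNval : ((2 ^ (3 * t + 26) : ℕ) : ℝ) = 2 ^ 26 / e ^ 3 := by
    push_cast
    rw [pow_add, hepow 3]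
    field_simp
  -- sums with phase over intervals
  have hexp : ∀ (v : ℤ) (H : ℕ), (H : ℝ) ≤ (M : ℝ) / a0 + 1 → -1 ≤ v → v ≤ M → ∀ α : ℝ,
      ‖∑ x ∈ Finset.Ioc v (v + H),
        ((nu z0 z (![1] : Fin 1 → ℤ) ![0] (m0' + a0 * x) - 1 : ℝ) : ℂ) * ee (α * x)‖ ≤
      e / 512 * ((M : ℝ) / a0) := by
    intro v H hH hv1 hv2 α
    have hMa : 1 ≤ (M : ℝ) / a0 := by rw [le_div_iff₀ ha0R]; linarith
    have hrw : ∑ x ∈ Finset.Ioc v (v + H),
        ((nu z0 z (![1] : Fin 1 → ℤ) ![0] (m0' + a0 * x) - 1 : ℝ) : ℂ) * ee (α * x) =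
        ∑ x ∈ Finset.Ioc v (v + H),
        ((nu z0 z (![a0] : Fin 1 → ℤ) ![m0'] x - 1 : ℝ) : ℂ) * ee (α * x) := by
      refine Finset.sum_congr rfl (fun x _ => ?_)
      rw [nu_one_form z0 z a0 m0' hcop x]
    rw [hrw]
    rcases le_or_gt (z ^ (s4 * (t + 10 + 1))) H with hHz | hHz
    · have g := h4 (![a0] : Fin 1 → ℤ) ![m0'] (by
        intro j
        have hj : j = 0 := Subsingleton.elim _ _
        subst hj
        simp only [Matrix.cons_val_zero]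
        have g1 : (C0 : ℤ) ≤ (z : ℤ) ^ (B + 2) := by
          exact_mod_cast hzB2 C0 (by omega)
        refine ⟨?_, ?_, fun q hq => Pool.Agent.Lib.TwinAll.not_dvd_of_coprime hcop q hq⟩
        · rw [abs_of_pos ha0]; linarith
        · rw [abs_of_nonneg hm1]; linarith) v H (by
        have g1 : (M : ℤ) ≤ (z : ℤ) ^ (B + 2) := by
          exact_mod_cast (hMB.trans ((Nat.le_succ _).trans hzB1))
        have g2 : (1 : ℤ) ≤ M := by exact_mod_cast hM1
        rw [abs_le]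
        constructor <;> linarith) hHz (by
        have g1 : (H : ℝ) ≤ M + 1 := by
          refine hH.trans ?_
          have : (M : ℝ) / a0 ≤ M := by
            refine div_le_self (by positivity) ?_
            exact_mod_cast (by omega : (1 : ℤ) ≤ a0)
          linarith
        have g2 : H ≤ M + 1 := by exact_mod_cast g1
        omega) α
      refine g.trans ?_
      have g1 : (1 / 2 : ℝ) ^ (t + 10) = e / 1024 := by
        rw [pow_add, ← he]
        norm_num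
        ring
      rw [g1]
      calc e / 1024 * (H : ℝ) ≤ e / 1024 * (2 * ((M : ℝ) / a0)) :=
            mul_le_mul_of_nonneg_left (by linarith) (by positivity)
        _ = _ := by ring
    · have g1 : ∀ x ∈ Finset.Ioc v (v + H),
          ‖((nu z0 z (![a0] : Fin 1 → ℤ) ![m0'] x - 1 : ℝ) : ℂ) * ee (α * x)‖ ≤ z := by
        intro x _
        rw [norm_mul, Pool.Agent.Lib.TwinAll.norm_ee, mul_one, Complex.norm_real, Real.norm_eq_abs]
        have a1 : ∀ j : Fin 1, ∀ q ∈ PP z0 z, ¬ ((q : ℤ) ∣ (![a0] : Fin 1 → ℤ) j) := by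
          intro j q hq
          have hj : j = 0 := Subsingleton.elim _ _
          subst hj
          simp only [Matrix.cons_val_zero]
          exact Pool.Agent.Lib.TwinAll.not_dvd_of_coprime hcop q hq
        have g2 := Pool.Agent.Lib.TwinAll.nu_nonneg (z0 := z0) (z := z) (k := 1) (by omega)
          (![a0] : Fin 1 → ℤ) ![m0'] a1 x
        have g3 := (Pool.Agent.Lib.TwinAll.nu_le (by omega) _ _ a1 x).trans
          (Pool.Agent.Lib.TwinAll.VV_inv_le (z0 := z0) (z := z) (k := 1) (by omega) hz0z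
            ![a0] ![m0'] a1)
        rw [pow_one] at g3
        rw [abs_le]
        constructor <;> linarith
      refine (norm_sum_le _ _).trans ((Finset.sum_le_sum g1).trans ?_)
      rw [Finset.sum_const, Int.card_Ioc, nsmul_eq_mul]
      have g2 : ((v + (H : ℤ) - v).toNat : ℝ) = H := by
        rw [show v + (H : ℤ) - v = H by ring, Int.toNat_natCast]
      rw [g2]
      have g3 : 2 ^ (t + 9) * C0 * (z ^ (s4 * (t + 10 + 1)) * z) ≤ M := by
        have g4 : 2 ^ (t + 9) * C0 ≤ z := by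
          refine le_trans ?_ hzC
          refine Nat.mul_le_mul (Nat.pow_le_pow_right (by norm_num) (by omega)) ?_
          nlinarith [Nat.zero_le C0]
        calc 2 ^ (t + 9) * C0 * (z ^ (s4 * (t + 10 + 1)) * z)
            ≤ z * (z ^ (s4 * (t + 10 + 1)) * z) := Nat.mul_le_mul_right _ g4
          _ = z ^ (s4 * (t + 10 + 1) + 2) := by ring
          _ ≤ z ^ ((11 * s4 + 2) * (t + 1)) := by
              refine Nat.pow_le_pow_right hz1 ?_
              nlinarith [Nat.zero_le (s4 * t)]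
          _ ≤ M := hMs
      have g5 : (2 : ℝ) ^ (t + 9) * C0 * ((z : ℝ) ^ (s4 * (t + 10 + 1)) * z) ≤ M := by
        exact_mod_cast g3
      have g6 : (H : ℝ) * z ≤ (z : ℝ) ^ (s4 * (t + 10 + 1)) * z := by
        refine mul_le_mul_of_nonneg_right ?_ (by positivity)
        exact_mod_cast hHz.le
      have g7 : (2 : ℝ) ^ (t + 9) = 512 / e := by
        rw [pow_add, he2]; norm_num; ring
      rw [g7] at g5
      have g8 : e / 512 * ((M : ℝ) / a0) = M / (512 / e * a0) := by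
        field_simp
      rw [g8, le_div_iff₀ (by positivity)]
      have g9 : (H : ℝ) * z * (512 / e * a0) ≤ (z : ℝ) ^ (s4 * (t + 10 + 1)) * z * (512 / e * C0) := by
        refine mul_le_mul g6 (mul_le_mul_of_nonneg_left ha0CR (by positivity)) (by positivity)
          (by positivity)
      linarith
  -- fourth moment
  have hzy : z ^ s3 ≤ y := by
    have g1 : z ^ s3 * C0 ≤ Y := by
      calc z ^ s3 * C0 ≤ z ^ s3 * z := Nat.mul_le_mul_left _ (by omega)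
        _ = z ^ (s3 + 1) := by ring
        _ ≤ z ^ (s3 + s5 + 4) := Nat.pow_le_pow_right hz1 (by omega)
        _ ≤ Y := hYs
    have g2 : (z : ℝ) ^ s3 * C0 ≤ Y := by exact_mod_cast g1
    have g3 : (z : ℝ) ^ s3 ≤ y := by
      refine le_trans ?_ hyY
      rw [le_div_iff₀ ha0R]
      refine le_trans ?_ g2
      exact mul_le_mul_of_nonneg_left ha0CR (by positivity)
    exact_mod_cast g3
  have hyB : y ≤ z ^ (B + 2) := hyle.trans ((Nat.add_le_add_right hYB 1).trans hzB1)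
  have h4m : ∀ b : ℤ, -(2 * a0) ≤ b → b ≤ 0 → ∑ t ∈ Finset.Ioo (-(y : ℤ)) y,
      (∑ n ∈ (Finset.Ioc (y : ℤ) (y + y)).filter (fun n => n + t ∈ Finset.Ioc (y : ℤ) (y + y)),
        nu z0 z (![a0] : Fin 1 → ℤ) ![b] n * nu z0 z (![a0] : Fin 1 → ℤ) ![b] (n + t)) ^ 4 ≤
      4 * (y : ℝ) ^ 5 := by
    intro b hb1 hb2
    have g := (h3 (![a0] : Fin 1 → ℤ) ![b] (by
      intro j
      have hj : j = 0 := Subsingleton.elim _ _
      subst hj
      simp only [Matrix.cons_val_zero]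
      have g1 : (2 * (C0 : ℤ)) ≤ (z : ℤ) ^ (B + 2) := by
        exact_mod_cast hzB2 (2 * C0) (by omega)
      have g2 : (0 : ℤ) ≤ C0 := by positivity
      refine ⟨?_, ?_, fun q hq => Pool.Agent.Lib.TwinAll.not_dvd_of_coprime hcop q hq⟩
      · rw [abs_of_pos ha0]; linarith
      · rw [abs_le]; constructor <;> linarith) (y : ℤ) y (by
      rw [abs_of_nonneg (by positivity)]
      exact_mod_cast hyB) hzy hyB).2
    exact g
  have hbig : 8 * (((2 ^ (3 * t + 26) : ℕ) : ℝ)) ≤ e ^ 2 / 2048 * ((Y : ℝ) / a0) := by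
    have g1 : 2 ^ (5 * t + 40) * C0 ≤ Y := by
      refine le_trans ?_ (hzC.trans hzY1)
      refine Nat.mul_le_mul_left _ ?_
      nlinarith [Nat.zero_le C0]
    have g2 : (2 : ℝ) ^ (5 * t + 40) * C0 ≤ Y := by exact_mod_cast g1
    have g3 : (2 : ℝ) ^ (5 * t + 40) * a0 ≤ Y :=
      (mul_le_mul_of_nonneg_left ha0CR (by positivity)).trans g2
    have g4 : (2 : ℝ) ^ (5 * t + 40) ≤ (Y : ℝ) / a0 := by
      rw [le_div_iff₀ ha0R]; exact g3
    rw [hNval]
    have g5 : (2 : ℝ) ^ (5 * t + 40) = 2 ^ 40 / e ^ 5 := by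
      rw [pow_add, hepow 5]; field_simp
    rw [g5] at g4
    calc 8 * ((2 : ℝ) ^ 26 / e ^ 3) = e ^ 2 / 2048 * (2 ^ 40 / e ^ 5) := by
          field_simp
          norm_num
      _ ≤ _ := mul_le_mul_of_nonneg_left g4 (by positivity)
  have hblock := block69 z0 z Y M (2 ^ (2 * t + 12)) (2 ^ (3 * t + 26)) y a0 b0 cl m0' n0 n1 θ
    (e / 512) (256 / e) (e ^ 2 / 2048) (8 / e) (by omega) ha0 hcop hzY1 haY haM hY4
    (by positivity) (by linarith) (by positivity) (by positivity)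
    (by have : e ^ 2 ≤ 1 := pow_le_one₀ he0.le he1
        linarith) (by positivity) Nat.one_le_two_pow
    (by rw [hLval]; refine le_of_eq ?_; field_simp; norm_num) Nat.one_le_two_pow
    (by rw [hLval, hNval]; refine le_of_eq ?_; field_simp; norm_num) hm1 hm2 hm4 hy hexp h4m hbig
  rcases hblock with hmaj | hmin
  · left
    obtain ⟨q, hq1, hq2, a, ha⟩ := hmaj
    refine ⟨q, hq1, hq2, a, ha.trans (le_of_eq ?_)⟩
    congr 2
    rw [hNval]
    push_cast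
    rw [pow_add (2 : ℝ) (6 * t) 47, hepow 6]
    field_simp
    norm_num
  · right
    refine hmin.trans ?_
    obtain ⟨Ps, hPs⟩ : ∃ Ps, Ps = (PP Y (2 * Y)).filter (fun p : ℕ => a0 ∣ (p : ℤ) - cl) :=
      ⟨_, rfl⟩
    rw [← hPs]
    have hV0 : 0 < V1 z0 z := V1_pos' (by omega)
    have hcardY : (Ps.card : ℝ) ≤ Y := by
      have : Ps.card ≤ Y := by
        rw [hPs]
        exact (Finset.card_filter_le _ _).trans (card_PP_dyadic Y)
      exact_mod_cast this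
    have hcard : (Ps.card : ℝ) ≤ 6 * (V1 z0 z * Y / a0) := by
      have g1 := h5 a0.toNat (by omega) (by omega) (by
        intro q hq hd
        have g2 := Pool.Agent.Lib.TwinAll.not_dvd_of_coprime hcop q hq
        apply g2
        have g3 : ((q : ℤ)) ∣ ((a0.toNat : ℕ) : ℤ) := by exact_mod_cast hd
        rwa [Int.toNat_of_nonneg ha0.le] at g3) cl (2 * Y) (by
        have g2 : z ^ s5 ≤ Y := (Nat.pow_le_pow_right hz1 (by omega)).trans hYs
        omega)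
      have g2 : ((a0.toNat : ℕ) : ℤ) = a0 := Int.toNat_of_nonneg ha0.le
      have g3 : ((a0.toNat : ℕ) : ℝ) = (a0 : ℝ) := by
        rw [← Int.cast_natCast, g2]
      rw [g2, g3] at g1
      have g4 : Ps ⊆ (PP z (2 * Y)).filter (fun p : ℕ => a0 ∣ (p : ℤ) - cl) := by
        rw [hPs]
        exact Finset.filter_subset_filter _ (Pool.Agent.Lib.TwinAll.PP_anti hzY1)
      have g5 : (Ps.card : ℝ) ≤
          (((PP z (2 * Y)).filter (fun p : ℕ => a0 ∣ (p : ℤ) - cl)).card : ℕ) := by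
        exact_mod_cast Finset.card_le_card g4
      refine (g5.trans g1).trans (le_of_eq ?_)
      push_cast
      ring
    have hdiag : 3 * (Ps.card : ℝ) ≤ e / 8 * (V1 z0 z * Y / a0) ^ 2 := by
      have e2 : 1 ≤ V1 z0 z * (z : ℝ) := by
        have := Pool.Agent.Lib.TwinAll.VV_ge (z0 := z0) (z := z) (k := 1) (by omega) hz0z
          ![1] ![0] (by
          intro j q hq
          have hj : j = 0 := Subsingleton.elim _ _
          subst hj
          exact Pool.Agent.Lib.TwinAll.not_dvd_one q hq)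
        unfold V1
        simpa using this
      have e3 : (24 : ℝ) / e * (C0 : ℝ) ^ 2 * (z : ℝ) ^ 2 ≤ Y := by
        have g1 : 24 * 2 ^ t * C0 ^ 2 * z ^ 2 ≤ Y := by
          have g2 : 24 * 2 ^ t * C0 ^ 2 ≤ z := by
            refine le_trans ?_ hzC
            have g3 : 24 * 2 ^ t ≤ 2 ^ (5 * t + 40) := by
              calc 24 * 2 ^ t ≤ 2 ^ 5 * 2 ^ t := Nat.mul_le_mul_right _ (by norm_num)
                _ = 2 ^ (5 + t) := by rw [pow_add]
                _ ≤ _ := Nat.pow_le_pow_right (by norm_num) (by omega)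
            exact Nat.mul_le_mul g3 (Nat.pow_le_pow_left (by omega) 2)
          calc 24 * 2 ^ t * C0 ^ 2 * z ^ 2 ≤ z * z ^ 2 := Nat.mul_le_mul_right _ g2
            _ = z ^ 3 := by ring
            _ ≤ z ^ 4 := Nat.pow_le_pow_right hz1 (by omega)
            _ ≤ Y := hzY
        have g4 : (24 : ℝ) * 2 ^ t * (C0 : ℝ) ^ 2 * (z : ℝ) ^ 2 ≤ Y := by exact_mod_cast g1
        rw [he2] at g4
        have g5 : (24 : ℝ) / e = 24 * (1 / e) := by ring
        rw [g5]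
        exact g4
      have e6 := minb_diag e (V1 z0 z) Y a0 C0 z he0 ha0R ha0CR (Nat.cast_nonneg _) e2 e3
      linarith
    have hm0R : (0 : ℝ) ≤ (M : ℝ) / a0 := div_nonneg (Nat.cast_nonneg _) ha0R.le
    have hy2 : (y : ℝ) ≤ 2 * ((Y : ℝ) / a0) := by
      have : 1 ≤ (Y : ℝ) / a0 := by rw [le_div_iff₀ ha0R]; linarith
      linarith
    have hfin := minb_final e (V1 z0 z * Y / a0) Ps.card Y y (V1 z0 z) a0 ((M : ℝ) / a0) he0 he1
      hm0R rfl (Nat.cast_nonneg _) hcard hdiag (Nat.cast_nonneg _) hy2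
    rw [← he]
    exact hfin

end Pool.Agent.Lib.MT2.T69
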