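import Pool.Agent.Lib.MT2.TransP90
import Pool.Agent.Lib.MT2.Minb69

/-!
THEOREM (D) (MP_c6d112_nt), module MINP (helper39): primes in a progression on the minor arcs, from
TRG (the skeleton), MINB (the bilinear sums) and S4r (the rough numbers, with `z ^ s5` for `z`).
-/

set_option autoImplicit false

namespace Pool.Agent.Lib.MT2.P39

open Finset
open Pool.Agent.Lib.TwinAll (PP Rough om VV nu ee)
open Pool.Agent.Lib.MT2

/-- the density decreases with the sieving limit -/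
theorem V1_anti {z0 z z' : ℕ} (h0 : 1 ≤ z0) (hz : z ≤ z') : V1 z0 z' ≤ V1 z0 z := by
  classical
  unfold V1 VV
  have hnd : ∀ Z : ℕ, ∀ j : Fin 1, ∀ q ∈ PP z0 Z, ¬ ((q : ℤ) ∣ (![1] : Fin 1 → ℤ) j) := by
    intro Z j q hq hd
    have h1 : (![1] : Fin 1 → ℤ) j = 1 := by fin_cases j; rfl
    rw [h1] at hd
    have h2 := Pool.Agent.Lib.TwinAll.PP_prime hq
    have h3 := Int.natAbs_dvd_natAbs.2 hd
    simp only [Int.natAbs_natCast, Int.natAbs_one, Nat.dvd_one] at h3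
    exact h2.one_lt.ne' h3
  apply Finset.prod_le_prod_of_subset_of_le_one
  · intro q hq
    unfold PP at hq ⊢
    rw [Finset.mem_filter, Finset.mem_Ioc] at hq ⊢
    exact ⟨⟨hq.1.1, hq.1.2.trans hz⟩, hq.2⟩
  · intro q hq
    have h := Pool.Agent.Lib.TwinAll.VV_factor_pos h0 (![1] : Fin 1 → ℤ) ![0] (hnd z') hq
    linarith [h.1, h.2]
  · intro q hq _
    have h1 : (0 : ℝ) ≤ (om (![1] : Fin 1 → ℤ) ![0] q : ℝ) / q := by positivity
    linarith

/-- the sum over rough numbers in terms of `nu` -/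
theorem rough_sum {z0 z : ℕ} (h0 : 1 ≤ z0) (a0 b0 : ℤ) (H : ℕ) (F : ℤ → ℂ)
    (hc : ∀ q ∈ PP z0 z, IsCoprime a0 (q : ℤ)) (hnd : ∀ q ∈ PP z0 z, ¬ ((q : ℤ) ∣ a0))
    [DecidablePred (fun U : ℤ => Rough z0 z (a0 * U + b0))] :
    ∑ U ∈ (Ioc (0 : ℤ) H).filter (fun U => Rough z0 z (a0 * U + b0)), F U =
      (V1 z0 z : ℂ) * (∑ U ∈ Ioc (0 : ℤ) H,
        ((nu z0 z (![a0] : Fin 1 → ℤ) ![b0] U - 1 : ℝ) : ℂ) * F U + ∑ U ∈ Ioc (0 : ℤ) H, F U) := by
  classical
  have hV : VV z0 z (![a0] : Fin 1 → ℤ) ![b0] = V1 z0 z := T69.VV_one_form z0 z a0 b0 hc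
  have hpos : 0 < V1 z0 z := by
    rw [← hV]
    apply Pool.Agent.Lib.TwinAll.VV_pos h0
    intro j q hq hd
    have h1 : (![a0] : Fin 1 → ℤ) j = a0 := by fin_cases j; rfl
    rw [h1] at hd
    exact hnd q hq hd
  have hne : (V1 z0 z : ℂ) ≠ 0 := by exact_mod_cast hpos.ne'
  rw [← Finset.sum_add_distrib, Finset.mul_sum, Finset.sum_filter]
  refine Finset.sum_congr rfl (fun U _ => ?_)
  have hiff : (∀ j : Fin 1, Rough z0 z ((![a0] : Fin 1 → ℤ) j * U + (![b0] : Fin 1 → ℤ) j)) ↔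
      Rough z0 z (a0 * U + b0) := by
    constructor
    · intro h
      exact h 0
    · intro h j
      have hj : j = 0 := Subsingleton.elim _ _
      subst hj
      exact h
  unfold nu
  rw [hV]
  by_cases h : Rough z0 z (a0 * U + b0)
  · rw [if_pos h, if_pos (hiff.2 h)]
    push_cast
    field_simp
    ring
  · rw [if_neg h, if_neg (fun h' => h (hiff.1 h'))]
    push_cast
    ring

/-- module MINP -/
theorem minp_39 (hT : TRGStmt) (hMB : MINBStmt) (hS4 : S4rStmt) : MINPStmt := by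
  classical
  obtain ⟨Cg, sg, zsG, hT⟩ := hT
  obtain ⟨sB, s5B, hMB⟩ := hMB
  obtain ⟨sR, hR⟩ := hS4 1
  obtain ⟨s5, hs5⟩ : ∃ s5 : ℕ, s5 = s5B + 2 := ⟨_, rfl⟩
  refine ⟨sg + 4 * s5 + 2 * sB * (2 * Cg + 5) + 1 + s5 * sR * 4, ?_⟩
  intro t
  obtain ⟨L, T', zsB, hL, hMB⟩ := hMB (2 * (t + Cg + 2))
  obtain ⟨zsR, hR⟩ := hR (t + 3)
  refine ⟨L, 4 * T' + 2 ^ (t + 3), max (max zsG zsB) (max zsR 1), hL, ?_⟩
  intro z0 hz0 B C0 hB
  have hzG : zsG ≤ z0 := (le_max_left _ _).trans ((le_max_left _ _).trans hz0)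
  have hzB : zsB ≤ z0 := (le_max_right _ _).trans ((le_max_left _ _).trans hz0)
  have hzR : zsR ≤ z0 := (le_max_left _ _).trans ((le_max_right _ _).trans hz0)
  have hz01 : 1 ≤ z0 := (le_max_right _ _).trans ((le_max_right _ _).trans hz0)
  have hB1 : sg + 4 * s5 + 2 * sB * (2 * Cg + 5) + 1 + s5 * sR * 4 ≤
      (sg + 4 * s5 + 2 * sB * (2 * Cg + 5) + 1 + s5 * sR * 4) * (t + 1) :=
    Nat.le_mul_of_pos_right _ (by omega)
  have hBg : sg ≤ B := by omega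
  have hB5 : 4 * s5 ≤ B := by omega
  have hBD : 2 * (sB * (2 * (t + Cg + 2) + 1)) + 1 ≤ B := by
    refine le_trans ?_ hB
    have e1 : 2 * (t + Cg + 2) + 1 ≤ (2 * Cg + 5) * (t + 1) := by nlinarith
    have e2 : sB * (2 * (t + Cg + 2) + 1) ≤ sB * ((2 * Cg + 5) * (t + 1)) :=
      Nat.mul_le_mul_left _ e1
    nlinarith [Nat.zero_le (sg * (t + 1)), Nat.zero_le (s5 * (t + 1)),
      Nat.zero_le (s5 * sR * 4 * (t + 1))]
  have hBR : s5 * (sR * (t + 3 + 1)) ≤ B := by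
    refine le_trans ?_ hB
    have e1 : t + 3 + 1 ≤ 4 * (t + 1) := by omega
    have e2 : s5 * (sR * (t + 3 + 1)) ≤ s5 * (sR * (4 * (t + 1))) :=
      Nat.mul_le_mul_left _ (Nat.mul_le_mul_left _ e1)
    nlinarith [Nat.zero_le (sg * (t + 1)), Nat.zero_le (s5 * (t + 1)),
      Nat.zero_le (sB * (2 * Cg + 5) * (t + 1))]
  obtain ⟨zG, hT⟩ := hT 0 s5 B C0 z0 hBg (by omega) hB5 hzG
  obtain ⟨zB, hMB⟩ := hMB z0 hzB (B + 2) C0
  obtain ⟨zR, hR⟩ := hR z0 hzR (B + 1)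
  refine ⟨max (max zG zB) (max (max zR C0) (max z0 (4 * 2 ^ t))), ?_⟩
  intro z hz a0 b0 hF H hH1 hH2 θ
  have hzG' : zG ≤ z := (le_max_left _ _).trans ((le_max_left _ _).trans hz)
  have hzB' : zB ≤ z := (le_max_right _ _).trans ((le_max_left _ _).trans hz)
  have hzR' : zR ≤ z :=
    (le_max_left _ _).trans ((le_max_left _ _).trans ((le_max_right _ _).trans hz))
  have hzC : C0 ≤ z :=
    (le_max_right _ _).trans ((le_max_left _ _).trans ((le_max_right _ _).trans hz))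
  have hzz : z0 ≤ z :=
    (le_max_left _ _).trans ((le_max_right _ _).trans ((le_max_right _ _).trans hz))
  have hz4 : 4 * 2 ^ t ≤ z :=
    (le_max_right _ _).trans ((le_max_right _ _).trans ((le_max_right _ _).trans hz))
  have h2t : 1 ≤ 2 ^ t := Nat.one_le_two_pow
  have hz44 : 4 ≤ z := by omega
  have hHpos : 1 ≤ H := (Nat.one_le_pow _ _ (by omega)).trans hH1
  have hHR : (0 : ℝ) < H := by exact_mod_cast hHpos
  have ha0 : 0 < a0 := hF.pos
  have ha0R : (0 : ℝ) < a0 := by exact_mod_cast ha0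
  have hb0 : (1 : ℤ) ≤ a0 := ha0
  have ha1R : (1 : ℝ) ≤ a0 := by exact_mod_cast hb0
  by_cases hmaj : ∃ q : ℕ, 1 ≤ q ∧ q ≤ L ∧ ∃ a : ℤ,
      |θ * a0 - (a : ℝ) / q| ≤ ((4 * T' + 2 ^ (t + 3) : ℕ) : ℝ) * (a0 : ℝ) / H
  · exact Or.inl hmaj
  right
  have hV1 := T90.V1_nonneg (z0 := z0) hz01 z
  -- the rough part
  obtain ⟨z', hz'⟩ : ∃ z' : ℕ, z' = z ^ s5 := ⟨_, rfl⟩
  have hzz' : z ≤ z' := by
    rw [hz']
    calc z = z ^ 1 := (pow_one z).symm
      _ ≤ z ^ s5 := Nat.pow_le_pow_right (by omega) (by omega)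
  have hnd : ∀ q ∈ PP z0 z', ¬ ((q : ℤ) ∣ a0) := by
    intro q hq hd
    have h1 := hF.large q (Pool.Agent.Lib.TwinAll.PP_prime hq) hd
    unfold PP at hq
    rw [Finset.mem_filter, Finset.mem_Ioc] at hq
    omega
  have hcop : ∀ q ∈ PP z0 z', IsCoprime a0 (q : ℤ) := by
    intro q hq
    have hqp : Prime (q : ℤ) := Nat.prime_iff_prime_int.1 (Pool.Agent.Lib.TwinAll.PP_prime hq)
    exact ((Prime.coprime_iff_not_dvd hqp).2 (hnd q hq)).symm
  have hrough : ‖∑ U ∈ (Ioc (0 : ℤ) H).filter (fun U => Rough z0 (z ^ s5) (a0 * U + b0)),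
      ee (θ * U)‖ ≤ (1 / 2) ^ (t + 2) * (V1 z0 z * H) := by
    rw [← hz']
    rw [rough_sum hz01 a0 b0 H (fun U => ee (θ * U)) hcop hnd]
    rw [norm_mul, Complex.norm_real, Real.norm_eq_abs]
    have hV' := T90.V1_nonneg (z0 := z0) hz01 z'
    rw [abs_of_nonneg hV']
    have h1 := hR z' (hzR'.trans hzz') (![a0] : Fin 1 → ℤ) ![b0] (by
      intro j
      have hj : j = 0 := Subsingleton.elim _ _
      subst hj
      simp only [Matrix.cons_val_zero]
      have hpw : (z' : ℤ) ≤ (z' : ℤ) ^ (B + 1) := by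
        have : z' ^ 1 ≤ z' ^ (B + 1) := Nat.pow_le_pow_right (by omega) (by omega)
        rw [pow_one] at this
        exact_mod_cast this
      have hCz : (C0 : ℤ) ≤ z' := by exact_mod_cast hzC.trans hzz'
      refine ⟨?_, ?_, hnd⟩
      · rw [abs_of_pos ha0]
        linarith [hF.bd.1]
      · linarith [hF.bd.2]) 0 H (by simp) (by
      rw [hz', ← pow_mul]
      exact (Nat.pow_le_pow_right (by omega) hBR).trans hH1) (by
      rw [hz', ← pow_mul]
      refine hH2.trans (Nat.pow_le_pow_right (by omega) ?_)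
      exact Nat.le_mul_of_pos_left _ (by omega)) θ
    rw [zero_add] at h1
    have h2 : ‖∑ U ∈ Ioc (0 : ℤ) H, ee (θ * U)‖ ≤ (1 / 2) ^ (t + 4) * H := by
      have hd : ∀ k : ℤ, (2 : ℝ) ^ (t + 3) / H < |θ - k| := by
        intro k
        by_contra hcon
        push Not at hcon
        apply hmaj
        refine ⟨1, le_refl _, hL, k * a0, ?_⟩
        have e1 : θ * a0 - ((k * a0 : ℤ) : ℝ) / ((1 : ℕ) : ℝ) = (θ - k) * a0 := by
          push_cast
          ring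
        rw [e1, abs_mul, abs_of_pos ha0R]
        calc |θ - k| * (a0 : ℝ) ≤ (2 : ℝ) ^ (t + 3) / H * a0 :=
              mul_le_mul_of_nonneg_right hcon ha0R.le
          _ = (2 : ℝ) ^ (t + 3) * a0 / H := by ring
          _ ≤ ((4 * T' + 2 ^ (t + 3) : ℕ) : ℝ) * (a0 : ℝ) / H := by
              apply div_le_div_of_nonneg_right _ hHR.le
              apply mul_le_mul_of_nonneg_right _ ha0R.le
              push_cast
              have : (0 : ℝ) ≤ T' := Nat.cast_nonneg _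
              linarith
      have h3 := T69.geom_Ioc θ ((2 : ℝ) ^ (t + 3) / H) 0 H (by positivity) hd
      rw [zero_add] at h3
      refine h3.trans (le_of_eq ?_)
      rw [one_div_pow]
      field_simp
      ring
    calc V1 z0 z' * ‖∑ U ∈ Ioc (0 : ℤ) H,
          ((nu z0 z' (![a0] : Fin 1 → ℤ) ![b0] U - 1 : ℝ) : ℂ) * ee (θ * U) +
          ∑ U ∈ Ioc (0 : ℤ) H, ee (θ * U)‖
        ≤ V1 z0 z' * ((1 / 2) ^ (t + 3) * H + (1 / 2) ^ (t + 4) * H) := by
          apply mul_le_mul_of_nonneg_left _ hV'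
          exact (norm_add_le _ _).trans (add_le_add h1 h2)
      _ ≤ V1 z0 z * ((1 / 2) ^ (t + 3) * H + (1 / 2) ^ (t + 4) * H) :=
          mul_le_mul_of_nonneg_right (V1_anti hz01 hzz') (by positivity)
      _ ≤ (1 / 2) ^ (t + 2) * (V1 z0 z * H) := by
          have e1 : ((1 : ℝ) / 2) ^ (t + 3) = (1 / 2) ^ (t + 2) * (1 / 2) := pow_succ _ _
          have e2 : ((1 : ℝ) / 2) ^ (t + 4) = (1 / 2) ^ (t + 2) * (1 / 4) := by
            rw [show t + 4 = t + 2 + 2 by omega, pow_add]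
            norm_num
          rw [e1, e2]
          have hp : 0 ≤ ((1 : ℝ) / 2) ^ (t + 2) * (V1 z0 z * H) := by positivity
          nlinarith
  have hmain := hT z hzG' a0 b0 hF H hH1 hH2 (fun U : ℤ => ee (θ * U))
    ((1 / 2) ^ (2 * (t + Cg + 2))) ((1 / 2) ^ (t + 2)) (by positivity) (by positivity)
    (by
      intro U _
      rw [T90.norm_ee90, pow_zero])
    (by
      intro Y M hY hYM hM4 hY4 haH cl m0 n0 n1 hcl hn0 _
      have hY' : z ^ s5B ≤ Y := (Nat.pow_le_pow_right (by omega) (by omega)).trans hY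
      have hM' : z ^ (sB * (2 * (t + Cg + 2) + 1)) ≤ M := by
        by_contra hcon
        push Not at hcon
        have e1 : z ^ (2 * (sB * (2 * (t + Cg + 2) + 1)) + 1) ≤ 4 * M ^ 2 :=
          (Nat.pow_le_pow_right (by omega) hBD).trans hM4
        rw [pow_succ, mul_comm 2, pow_mul] at e1
        obtain ⟨Z, hZ⟩ : ∃ Z : ℕ, Z = z ^ (sB * (2 * (t + Cg + 2) + 1)) := ⟨_, rfl⟩
        rw [← hZ] at e1 hcon
        have e2 : M ^ 2 < Z ^ 2 := Nat.pow_lt_pow_left hcon (by norm_num)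
        nlinarith
      rcases hMB z hzB' a0 b0 hF Y M hY' hYM hY4 hM' cl m0 n0 n1 hcl hn0 θ with h | h
      · exfalso
        apply hmaj
        obtain ⟨q, hq1, hq2, a, ha⟩ := h
        refine ⟨q, hq1, hq2, a, ha.trans ?_⟩
        have hY1 : 1 ≤ Y := (Nat.one_le_pow _ _ (by omega)).trans hY
        have hM1 : 1 ≤ M := (Nat.one_le_pow _ _ (by omega)).trans hM'
        have hYMR : (0 : ℝ) < (Y : ℝ) * M := by
          have h1 : (0 : ℝ) < Y := by exact_mod_cast hY1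
          have h2 : (0 : ℝ) < M := by exact_mod_cast hM1
          positivity
        have haHR : (a0 : ℝ) * H ≤ 4 * ((Y : ℝ) * M) := by exact_mod_cast haH
        rw [div_le_div_iff₀ hYMR hHR]
        push_cast
        have hT0 : (0 : ℝ) ≤ T' := Nat.cast_nonneg _
        have h3 : (T' : ℝ) * (a0 : ℝ) ^ 2 * H ≤ (4 * T' : ℝ) * a0 * (Y * M) := by
          have h4 := mul_le_mul_of_nonneg_left haHR (mul_nonneg hT0 ha0R.le)
          nlinarith
        have h5 : (0 : ℝ) ≤ (2 : ℝ) ^ (t + 3) * a0 * (Y * M) := by positivity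
        nlinarith
      · exact h)
    hrough
  refine hmain.trans ?_
  refine mul_le_mul_of_nonneg_right ?_ (mul_nonneg hV1 (Nat.cast_nonneg _))
  rw [T90.sqrt_half_pow]
  have hCg : (Cg : ℝ) * (1 / 2) ^ (t + Cg + 2) ≤ (1 / 4) * (1 / 2) ^ t := by
    have h1 : (Cg : ℝ) ≤ 2 ^ Cg := by exact_mod_cast (Nat.lt_two_pow_self).le
    have h2 : ((1 : ℝ) / 2) ^ (t + Cg + 2) = (1 / 4) * (1 / 2) ^ t * (1 / 2) ^ Cg := by
      rw [pow_add, pow_add]; ring
    have h3 : (2 : ℝ) ^ Cg * (1 / 2) ^ Cg = 1 := by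
      rw [← mul_pow]; norm_num
    rw [h2]
    calc (Cg : ℝ) * ((1 / 4) * (1 / 2) ^ t * (1 / 2) ^ Cg)
        = ((1 / 4) * (1 / 2) ^ t) * ((Cg : ℝ) * (1 / 2) ^ Cg) := by ring
      _ ≤ ((1 / 4) * (1 / 2) ^ t) * ((2 : ℝ) ^ Cg * (1 / 2) ^ Cg) := by
          refine mul_le_mul_of_nonneg_left ?_ (by positivity)
          exact mul_le_mul_of_nonneg_right h1 (by positivity)
      _ = _ := by rw [h3, mul_one]
  have hzinv : 1 / (z : ℝ) ≤ (1 / 4) * (1 / 2) ^ t := by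
    have h1 : (4 : ℝ) * 2 ^ t ≤ z := by exact_mod_cast hz4
    have h2 : (1 / 4 : ℝ) * (1 / 2) ^ t = 1 / (4 * 2 ^ t) := by
      rw [one_div_pow]
      field_simp
    rw [h2]
    exact one_div_le_one_div_of_le (by positivity) h1
  have ht2 : ((1 : ℝ) / 2) ^ (t + 2) = (1 / 4) * (1 / 2) ^ t := by
    rw [pow_add]; ring
  rw [ht2]
  have hB0 : (0 : ℝ) ≤ B := Nat.cast_nonneg B
  have hp : (0 : ℝ) < (1 / 2) ^ t := by positivity
  have h5 : (Cg : ℝ) * (B + 1) * (1 / 2) ^ (t + Cg + 2) ≤ (B + 1) * ((1 / 4) * (1 / 2) ^ t) := by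
    calc (Cg : ℝ) * (B + 1) * (1 / 2) ^ (t + Cg + 2)
        = (B + 1) * ((Cg : ℝ) * (1 / 2) ^ (t + Cg + 2)) := by ring
      _ ≤ _ := mul_le_mul_of_nonneg_left hCg (by linarith)
  nlinarith [mul_nonneg hB0 hp.le]

end Pool.Agent.Lib.MT2.P39
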