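import Mathlib
import Pool.Agent.Lib.MT2.StmtsD
import Pool.Agent.Lib.MT2.MIX62

/-!
MAYNARD-TAO ON ROUGH FORMS, helper62: MIXP.
-/

set_option autoImplicit false

namespace Pool.Agent.Lib.MT2.T62

open Finset
open Pool.Agent.Lib.TwinAll (PP Rough om VV nu SS ee mem_PP PP_prime PP_lt PP_le)

/-- substitution `n = c + Q m` for sums -/
theorem class_sum {M : Type*} [AddCommMonoid M] (F : ℤ → M) (Q : ℕ) (hQ : 0 < Q) (c : ℤ)
    (hc0 : 0 ≤ c) (hcQ : c < Q) (H : ℕ) :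
    ∃ (v : ℤ) (H' : ℕ), |v| ≤ 1 ∧ |(H' : ℝ) - (H / Q : ℝ)| ≤ 1 ∧
      ∑ n ∈ (Ioc (0 : ℤ) H).filter (fun n => (Q : ℤ) ∣ n - c), F n =
        ∑ m ∈ Ioc v (v + H'), F (c + Q * m) := by
  have hQ' : (0 : ℤ) < Q := by exact_mod_cast hQ
  have hQR : (0 : ℝ) < Q := by exact_mod_cast hQ
  obtain ⟨v, hv⟩ : ∃ v : ℤ, v = (0 - c) / Q := ⟨_, rfl⟩
  obtain ⟨w, hw⟩ : ∃ w : ℤ, w = (H - c) / Q := ⟨_, rfl⟩
  have hvw : v ≤ w := by
    rw [hv, hw]
    exact Int.ediv_le_ediv hQ' (by omega)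
  have hv1 : |v| ≤ 1 := by
    rw [abs_le]
    constructor
    · rw [hv, Int.le_ediv_iff_mul_le hQ']
      linarith
    · have : v < 1 := by
        rw [hv, Int.ediv_lt_iff_lt_mul hQ']
        linarith
      omega
  refine ⟨v, (w - v).toNat, hv1, ?_, ?_⟩
  · have e1 : (((w - v).toNat : ℕ) : ℝ) = (w : ℝ) - v := by
      have : (((w - v).toNat : ℕ) : ℤ) = w - v := Int.toNat_of_nonneg (by omega)
      have h2 : ((((w - v).toNat : ℕ) : ℤ) : ℝ) = ((w - v : ℤ) : ℝ) := by rw [this]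
      push_cast at h2
      exact h2
    rw [e1]
    have a1 := Int.emod_add_mul_ediv (0 - c) Q
    have a2 := Int.emod_add_mul_ediv (H - c) Q
    have b1 := Int.emod_nonneg (0 - c) hQ'.ne'
    have b2 := Int.emod_nonneg (H - c) hQ'.ne'
    have b3 := Int.emod_lt_of_pos (0 - c) hQ'
    have b4 := Int.emod_lt_of_pos (H - c) hQ'
    rw [← hv] at a1
    rw [← hw] at a2
    have c1 : (Q : ℤ) * (w - v) ≤ H + Q := by linarith
    have c2 : (H : ℤ) - Q ≤ Q * (w - v) := by linarith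
    have c1' : (Q : ℝ) * ((w : ℝ) - v) ≤ H + Q := by exact_mod_cast c1
    have c2' : (H : ℝ) - Q ≤ Q * ((w : ℝ) - v) := by exact_mod_cast c2
    rw [abs_le]
    constructor
    · have : (H : ℝ) / Q ≤ (w : ℝ) - v + 1 := by
        rw [div_le_iff₀ hQR]
        linarith
      linarith
    · have : (w : ℝ) - v - 1 ≤ (H : ℝ) / Q := by
        rw [le_div_iff₀ hQR]
        linarith
      linarith
  · have e1 : v + (((w - v).toNat : ℕ) : ℤ) = w := by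
      rw [Int.toNat_of_nonneg (by omega)]
      ring
    rw [e1]
    symm
    refine Finset.sum_bij (fun m _ => c + Q * m) ?_ ?_ ?_ ?_
    · intro m hm
      rw [mem_Ioc] at hm
      rw [mem_filter, mem_Ioc]
      obtain ⟨h1, h2⟩ := hm
      have h4 : 0 - c < Q * m := by
        rw [hv] at h1
        have := (Int.ediv_lt_iff_lt_mul hQ').1 h1
        linarith [mul_comm m (Q : ℤ)]
      have h5 : Q * m ≤ H - c := by
        rw [hw] at h2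
        have := (Int.le_ediv_iff_mul_le hQ').1 h2
        linarith [mul_comm m (Q : ℤ)]
      exact ⟨⟨by linarith, by linarith⟩, ⟨m, by ring⟩⟩
    · intro m _ m' _ h
      have h1 : (Q : ℤ) * m = Q * m' := by linarith
      exact mul_left_cancel₀ hQ'.ne' h1
    · intro n hn
      rw [mem_filter, mem_Ioc] at hn
      obtain ⟨⟨h1, h2⟩, ⟨m, hm⟩⟩ := hn
      have e2 : n = c + Q * m := by linarith
      refine ⟨m, ?_, e2.symm⟩
      rw [mem_Ioc]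
      constructor
      · rw [hv, Int.ediv_lt_iff_lt_mul hQ']
        linarith [mul_comm m (Q : ℤ)]
      · rw [hw, Int.le_ediv_iff_mul_le hQ']
        linarith [mul_comm m (Q : ℤ)]
    · intro m _
      rfl

/-- S4r at one level and one precision -/
def S4h (k z0 z B h t : ℕ) : Prop :=
  ∀ a b : Fin k → ℤ, (∀ j, |a j| ≤ (z : ℤ) ^ B ∧ |b j| ≤ (z : ℤ) ^ B ∧
      ∀ q ∈ PP z0 z, ¬ ((q : ℤ) ∣ a j)) →
    ∀ (u : ℤ) (H : ℕ), |u| ≤ (z : ℤ) ^ B → h ≤ H → H ≤ z ^ B → ∀ θ : ℝ,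
      ‖∑ n ∈ Finset.Ioc u (u + H), ((nu z0 z a b n - 1 : ℝ) : ℂ) * ee (θ * n)‖ ≤ (1 / 2) ^ t * H

theorem class_phase {k z0 z t B h A : ℕ} (h4 : S4h k z0 z B h t) (hz : 1 ≤ z)
    {a b : Fin k → ℤ} (ha : ∀ j, ∀ q ∈ PP z0 z, ¬ ((q : ℤ) ∣ a j))
    (hA : ∀ j, |a j| ≤ A ∧ |b j| ≤ A) {Q : ℕ} (hQ : 0 < Q) (hQz : ∀ q ∈ PP z0 z, ¬ q ∣ Q)
    (hsize : Q * A + A ≤ z ^ B) {c : ℤ} (hc0 : 0 ≤ c) (hcQ : c < Q) {H : ℕ}
    (hH : Q * (h + 1) ≤ H) (hH2 : H + 1 ≤ z ^ B) (θ : ℝ) :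
    ‖∑ n ∈ (Ioc (0 : ℤ) H).filter (fun n => (Q : ℤ) ∣ n - c),
      ((nu z0 z a b n - 1 : ℝ) : ℂ) * ee (θ * n)‖ ≤ (1 / 2) ^ t * (2 * (H / Q)) := by
  obtain ⟨v, H', hv, hH', hsum⟩ := class_sum (fun n : ℤ =>
    ((nu z0 z a b n - 1 : ℝ) : ℂ) * ee (θ * n)) Q hQ c hc0 hcQ H
  rw [hsum]
  have hQR : (0 : ℝ) < Q := by exact_mod_cast hQ
  have hQ1 : (1 : ℝ) ≤ Q := by exact_mod_cast hQ
  have h5 := abs_le.1 hH'
  have hHQ : ((h : ℝ) + 1) ≤ H / Q := by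
    rw [le_div_iff₀ hQR]
    have : ((Q * (h + 1) : ℕ) : ℝ) ≤ H := by exact_mod_cast hH
    push_cast at this
    linarith
  have hh0 : (0 : ℝ) ≤ h := Nat.cast_nonneg h
  have hHle : (H : ℝ) / Q ≤ H := div_le_self (Nat.cast_nonneg H) hQ1
  have g1 : h ≤ H' := by
    have : (h : ℝ) ≤ H' := by linarith
    exact_mod_cast this
  have g2 : H' ≤ z ^ B := by
    refine le_trans ?_ hH2
    have : (H' : ℝ) ≤ ((H + 1 : ℕ) : ℝ) := by push_cast; linarith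
    exact_mod_cast this
  have hsz : (Q : ℤ) * A + A ≤ (z : ℤ) ^ B := by exact_mod_cast hsize
  have hA0 : (0 : ℤ) ≤ A := Int.natCast_nonneg _
  have hz1 : (1 : ℤ) ≤ (z : ℤ) ^ B := by exact_mod_cast Nat.one_le_pow _ _ hz
  have h6 := h4 (fun j => a j * Q) (fun j => a j * c + b j) (fun j => by
    obtain ⟨hA1, hA2⟩ := hA j
    refine ⟨?_, ?_, fun q hq hd => ?_⟩
    · show |a j * Q| ≤ _
      rw [abs_mul, abs_of_nonneg (Int.natCast_nonneg Q)]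
      have : |a j| * Q ≤ A * Q := mul_le_mul_of_nonneg_right hA1 (Int.natCast_nonneg Q)
      nlinarith
    · show |a j * c + b j| ≤ _
      have g3 := abs_add_le (a j * c) (b j)
      rw [abs_mul, abs_of_nonneg hc0] at g3
      have g4 : |a j| * c ≤ A * Q := mul_le_mul hA1 hcQ.le hc0 hA0
      nlinarith
    · have hp := Nat.prime_iff_prime_int.1 (PP_prime hq)
      rcases hp.dvd_or_dvd hd with h7 | h7
      · exact ha j q hq h7
      · exact hQz q hq (by exact_mod_cast h7)) v H' (hv.trans hz1) g1 g2 (θ * Q)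
  have e : ∑ m ∈ Ioc v (v + H'), ((nu z0 z a b (c + Q * m) - 1 : ℝ) : ℂ) *
      ee (θ * ((c + Q * m : ℤ) : ℝ)) = ee (θ * c) * ∑ m ∈ Ioc v (v + H'),
      ((nu z0 z (fun j => a j * Q) (fun j => a j * c + b j) m - 1 : ℝ) : ℂ) *
        ee (θ * Q * m) := by
    rw [Finset.mul_sum]
    refine Finset.sum_congr rfl fun m _ => ?_
    have e1 := TwinAll.A81.nu_affine (z0 := z0) (z := z) a b (d := (Q : ℤ))
      (fun q hq hd => hQz q hq (by exact_mod_cast hd)) c m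
    rw [add_comm c, e1]
    have e2 : ee (θ * (((Q : ℤ) * m + c : ℤ) : ℝ)) = ee (θ * c) * ee (θ * Q * m) := by
      rw [← TwinAll.ee_add]
      congr 1
      push_cast
      ring
    rw [e2]
    ring
  rw [e, norm_mul, TwinAll.norm_ee, one_mul]
  refine h6.trans (mul_le_mul_of_nonneg_left ?_ (by positivity))
  linarith

/-- the `U` with `a0 U + b0` divisible by the primes of `D` form a residue class -/
theorem form_class {D : Finset ℕ} (hD : ∀ q ∈ D, q.Prime) {a0 : ℤ} (b0 : ℤ)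
    (ha : ∀ q ∈ D, ¬ ((q : ℤ) ∣ a0)) :
    ∃ ρ : ℤ, 0 ≤ ρ ∧ ρ < ((∏ q ∈ D, q : ℕ) : ℤ) ∧ ∀ U : ℤ,
      (∀ q ∈ D, (q : ℤ) ∣ a0 * U + b0) ↔ ((∏ q ∈ D, q : ℕ) : ℤ) ∣ U - ρ := by
  have h1 : ∀ q ∈ D, ∃ r : ℤ, (q : ℤ) ∣ a0 * r + b0 := fun q hq => solve (hD q hq) a0 b0 (ha q hq)
  choose! r hr using h1
  obtain ⟨m, hm⟩ := crt D hD r
  have hQ : (0 : ℤ) < ((∏ q ∈ D, q : ℕ) : ℤ) := by
    exact_mod_cast Finset.prod_pos fun q hq => (hD q hq).pos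
  have hdv : ∀ q ∈ D, (q : ℤ) ∣ ((∏ q ∈ D, q : ℕ) : ℤ) := fun q hq => by
    exact_mod_cast Finset.dvd_prod_of_mem (fun q : ℕ => q) hq
  obtain ⟨ρ, hρ⟩ : ∃ ρ : ℤ, ρ = m % ((∏ q ∈ D, q : ℕ) : ℤ) := ⟨_, rfl⟩
  have hρm : ((∏ q ∈ D, q : ℕ) : ℤ) ∣ ρ - m := by
    rw [hρ]
    exact ⟨-(m / ((∏ q ∈ D, q : ℕ) : ℤ)), by
      have := Int.emod_add_mul_ediv m ((∏ q ∈ D, q : ℕ) : ℤ)
      linarith⟩
  have hroot : ∀ q ∈ D, (q : ℤ) ∣ a0 * ρ + b0 := by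
    intro q hq
    have e : a0 * ρ + b0 = a0 * (ρ - m) + a0 * (m - r q) + (a0 * r q + b0) := by ring
    rw [e]
    exact dvd_add (dvd_add (Dvd.dvd.mul_left ((hdv q hq).trans hρm) _)
      (Dvd.dvd.mul_left (hm q hq) _)) (hr q hq)
  refine ⟨ρ, ?_, ?_, fun U => ?_⟩
  · rw [hρ]
    exact Int.emod_nonneg _ hQ.ne'
  · rw [hρ]
    exact Int.emod_lt_of_pos _ hQ
  · constructor
    · intro h
      push_cast
      refine Finset.prod_dvd_of_coprime (coprime_primes hD) fun q hq => ?_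
      have h2 := dvd_sub (h q hq) (hroot q hq)
      have e : a0 * U + b0 - (a0 * ρ + b0) = a0 * (U - ρ) := by ring
      rw [e] at h2
      exact ((Nat.prime_iff_prime_int.1 (hD q hq)).dvd_or_dvd h2).resolve_left (ha q hq)
    · intro h q hq
      have e : a0 * U + b0 = a0 * (U - ρ) + (a0 * ρ + b0) := by ring
      rw [e]
      exact dvd_add (Dvd.dvd.mul_left ((hdv q hq).trans h) _) (hroot q hq)

open Classical in
/-- indicator of `q ∣ a0 U + b0` -/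
noncomputable def hq (a0 b0 U : ℤ) (q : ℕ) : ℝ := if (q : ℤ) ∣ a0 * U + b0 then 1 else 0

/-- sieve weight -/
noncomputable def WW (P : Finset ℕ) (L : Finset ℕ → ℝ) (a0 b0 U : ℤ) : ℝ :=
  ∑ D ∈ P.powerset, L D * ∏ q ∈ D, hq a0 b0 U q

theorem hq_prod (D : Finset ℕ) (a0 b0 U : ℤ) : (∀ q ∈ D, (q : ℤ) ∣ a0 * U + b0) ∧
    ∏ q ∈ D, hq a0 b0 U q = 1 ∨ (¬ ∀ q ∈ D, (q : ℤ) ∣ a0 * U + b0) ∧
    ∏ q ∈ D, hq a0 b0 U q = 0 := by
  by_cases h : ∀ q ∈ D, (q : ℤ) ∣ a0 * U + b0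
  · left
    refine ⟨h, Finset.prod_eq_one fun q hqD => ?_⟩
    exact if_pos (h q hqD)
  · right
    refine ⟨h, ?_⟩
    push Not at h
    obtain ⟨q, hqD, hn⟩ := h
    exact Finset.prod_eq_zero hqD (if_neg hn)

/-- sums over the `U` with `D ∣ a0 U + b0` -/
theorem sum_hq {M : Type*} [AddCommMonoid M] [Module ℝ M] {D : Finset ℕ} {a0 b0 ρ : ℤ}
    (hρ : ∀ U : ℤ, (∀ q ∈ D, (q : ℤ) ∣ a0 * U + b0) ↔ ((∏ q ∈ D, q : ℕ) : ℤ) ∣ U - ρ)
    (F : ℤ → M) (H : ℕ) :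
    ∑ U ∈ Ioc (0 : ℤ) H, (∏ q ∈ D, hq a0 b0 U q) • F U =
      ∑ U ∈ (Ioc (0 : ℤ) H).filter (fun n => ((∏ q ∈ D, q : ℕ) : ℤ) ∣ n - ρ), F U := by
  rw [Finset.sum_filter]
  refine Finset.sum_congr rfl fun U _ => ?_
  rcases hq_prod D a0 b0 U with ⟨h1, h2⟩ | ⟨h1, h2⟩
  · rw [h2, if_pos ((hρ U).1 h1), one_smul]
  · rw [h2, if_neg fun h3 => h1 ((hρ U).2 h3), zero_smul]

/-- The basic estimate: the indicator function of `a0 U + b0` having no prime factor in `P`, times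
`nu`, is close to the lower sieve weight against `ee (θ U)`. -/
theorem lemA {k z0 z t t2 B h A X2 : ℕ} {E2 ES : ℝ} (P : Finset ℕ) (hP : ∀ q ∈ P, q.Prime)
    (hPz : ∀ q ∈ P, z < q) (h4 : S4h k z0 z B h t) (hz : 1 ≤ z)
    {a b : Fin k → ℤ} (ha : ∀ j, ∀ q ∈ PP z0 z, ¬ ((q : ℤ) ∣ a j))
    (hS2 : ∀ Q : ℕ, 0 < Q → (∀ q ∈ PP z0 z, ¬ q ∣ Q) → ∀ (c u : ℤ) (H : ℕ),
      |(∑ n ∈ (Ioc u (u + H)).filter (fun n => (Q : ℤ) ∣ n - c), nu z0 z a b n) - (H / Q : ℝ)| ≤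
        (1 / 2) ^ t * (H / Q : ℝ) + E2)
    (hE2 : 0 ≤ E2) (hES : ∑ D ∈ P.powerset, 1 / ((∏ q ∈ D, q : ℕ) : ℝ) ≤ ES)
    (hA : ∀ j, |a j| ≤ A ∧ |b j| ≤ A) (hsize : X2 * A + A ≤ z ^ B)
    {a0 b0 : ℤ} (ha0 : ∀ q ∈ P, ¬ ((q : ℤ) ∣ a0))
    {Up Lo : Finset ℕ → ℝ} (hUL : ∀ D, |Up D| ≤ 1 ∧ |Lo D| ≤ 1)
    (hlev : ∀ D ⊆ P, (Up D ≠ 0 ∨ Lo D ≠ 0) → ∏ q ∈ D, q ≤ X2)
    (hsand : ∀ h : ℕ → ℝ, (∀ q, 0 ≤ h q ∧ h q ≤ 1) →
      (∑ D ∈ P.powerset, Lo D * ∏ q ∈ D, h q) ≤ ∏ q ∈ P, (1 - h q) ∧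
        ∏ q ∈ P, (1 - h q) ≤ ∑ D ∈ P.powerset, Up D * ∏ q ∈ D, h q)
    (hprec : ∑ D ∈ P.powerset, (Up D - Lo D) * (1 / ((∏ q ∈ D, q : ℕ) : ℝ)) ≤ 2 * (1 / 2) ^ t2)
    {H : ℕ} (hH : X2 * (h + 1) ≤ H) (hH2 : H + 1 ≤ z ^ B) (θ : ℝ) :
    ‖∑ U ∈ Ioc (0 : ℤ) H, (((∏ q ∈ P, (1 - hq a0 b0 U q)) * nu z0 z a b U -
      WW P Lo a0 b0 U : ℝ) : ℂ) * ee (θ * U)‖ ≤
      (4 * (1 / 2) ^ t * ES + 2 * (1 / 2) ^ t2) * H + 2 * X2 * E2 := by
  classical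
  have hH0 : (0 : ℝ) ≤ H := Nat.cast_nonneg H
  have hQpos : ∀ D ⊆ P, 0 < ∏ q ∈ D, q := fun D hD =>
    Finset.prod_pos fun q hq' => (hP q (hD hq')).pos
  have hQz : ∀ D ⊆ P, ∀ q ∈ PP z0 z, ¬ q ∣ ∏ q ∈ D, q := by
    intro D hD q hq' hdv
    obtain ⟨x, hx, hqx⟩ := (Nat.prime_iff.1 (PP_prime hq')).exists_mem_finset_dvd hdv
    have h1 := (Nat.prime_dvd_prime_iff_eq (PP_prime hq') (hP x (hD hx))).1 hqx
    have h2 := PP_le hq'
    have h3 := hPz x (hD hx)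
    omega
  have h01 : ∀ U q, 0 ≤ hq a0 b0 U q ∧ hq a0 b0 U q ≤ 1 := by
    intro U q
    unfold hq
    split_ifs <;> norm_num
  have hnu : ∀ U, 0 ≤ nu z0 z a b U := fun U => TwinAll.A81.nu_nonneg _ _ _ _ _
  -- decomposition
  have hdec : ∑ U ∈ Ioc (0 : ℤ) H, (((∏ q ∈ P, (1 - hq a0 b0 U q)) * nu z0 z a b U -
      WW P Lo a0 b0 U : ℝ) : ℂ) * ee (θ * U) =
      ∑ D ∈ P.powerset, ((Lo D : ℝ) : ℂ) * ∑ U ∈ Ioc (0 : ℤ) H,
        (∏ q ∈ D, hq a0 b0 U q) • (((nu z0 z a b U - 1 : ℝ) : ℂ) * ee (θ * U)) +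
      ∑ U ∈ Ioc (0 : ℤ) H, ((((∏ q ∈ P, (1 - hq a0 b0 U q)) - WW P Lo a0 b0 U) *
        nu z0 z a b U : ℝ) : ℂ) * ee (θ * U) := by
    have e1 : ∑ D ∈ P.powerset, ((Lo D : ℝ) : ℂ) * ∑ U ∈ Ioc (0 : ℤ) H,
        (∏ q ∈ D, hq a0 b0 U q) • (((nu z0 z a b U - 1 : ℝ) : ℂ) * ee (θ * U)) =
        ∑ U ∈ Ioc (0 : ℤ) H, ((WW P Lo a0 b0 U * (nu z0 z a b U - 1) : ℝ) : ℂ) * ee (θ * U) := by
      simp only [Finset.mul_sum]
      rw [Finset.sum_comm]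
      refine Finset.sum_congr rfl fun U _ => ?_
      unfold WW
      push_cast
      rw [Finset.sum_mul, Finset.sum_mul]
      refine Finset.sum_congr rfl fun D _ => ?_
      rw [Complex.real_smul]
      push_cast
      ring
    rw [e1, ← Finset.sum_add_distrib]
    refine Finset.sum_congr rfl fun U _ => ?_
    push_cast
    ring
  rw [hdec]
  refine (norm_add_le _ _).trans ?_
  -- first part
  have hfirst : ‖∑ D ∈ P.powerset, ((Lo D : ℝ) : ℂ) * ∑ U ∈ Ioc (0 : ℤ) H,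
      (∏ q ∈ D, hq a0 b0 U q) • (((nu z0 z a b U - 1 : ℝ) : ℂ) * ee (θ * U))‖ ≤
      2 * (1 / 2) ^ t * ES * H := by
    have h1 : ∀ D ∈ P.powerset, ‖((Lo D : ℝ) : ℂ) * ∑ U ∈ Ioc (0 : ℤ) H,
        (∏ q ∈ D, hq a0 b0 U q) • (((nu z0 z a b U - 1 : ℝ) : ℂ) * ee (θ * U))‖ ≤
        2 * (1 / 2) ^ t * H * (1 / ((∏ q ∈ D, q : ℕ) : ℝ)) := by
      intro D hD
      rw [Finset.mem_powerset] at hD
      rw [norm_mul, Complex.norm_real, Real.norm_eq_abs]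
      by_cases hLo : Lo D = 0
      · rw [hLo, abs_zero, zero_mul]
        positivity
      have hl := hlev D hD (Or.inr hLo)
      obtain ⟨ρ, hρ0, hρ1, hρ⟩ := form_class (fun q hq' => hP q (hD hq')) b0
        (fun q hq' => ha0 q (hD hq'))
      rw [sum_hq hρ]
      have h2 := class_phase h4 hz ha hA (hQpos D hD) (hQz D hD)
        (le_trans (Nat.add_le_add_right (Nat.mul_le_mul_right _ hl) _) hsize) hρ0 hρ1
        (le_trans (Nat.mul_le_mul_right _ hl) hH) hH2 θ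
      calc |Lo D| * _ ≤ 1 * ((1 / 2) ^ t * (2 * (H / ((∏ q ∈ D, q : ℕ) : ℝ)))) :=
            mul_le_mul (hUL D).2 h2 (norm_nonneg _) zero_le_one
        _ = _ := by ring
    refine (norm_sum_le _ _).trans ((Finset.sum_le_sum h1).trans ?_)
    rw [← Finset.mul_sum]
    calc _ ≤ 2 * (1 / 2) ^ t * H * ES := mul_le_mul_of_nonneg_left hES (by positivity)
      _ = _ := by ring
  -- second part
  have hsecond : ‖∑ U ∈ Ioc (0 : ℤ) H, ((((∏ q ∈ P, (1 - hq a0 b0 U q)) - WW P Lo a0 b0 U) *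
      nu z0 z a b U : ℝ) : ℂ) * ee (θ * U)‖ ≤
      2 * (1 / 2) ^ t2 * H + 2 * (1 / 2) ^ t * ES * H + 2 * X2 * E2 := by
    have h1 : ‖∑ U ∈ Ioc (0 : ℤ) H, ((((∏ q ∈ P, (1 - hq a0 b0 U q)) - WW P Lo a0 b0 U) *
        nu z0 z a b U : ℝ) : ℂ) * ee (θ * U)‖ ≤
        ∑ U ∈ Ioc (0 : ℤ) H, (WW P Up a0 b0 U - WW P Lo a0 b0 U) * nu z0 z a b U := by
      refine (norm_sum_le _ _).trans (Finset.sum_le_sum fun U _ => ?_)
      rw [norm_mul, TwinAll.norm_ee, mul_one, Complex.norm_real, Real.norm_eq_abs]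
      have h2 : WW P Lo a0 b0 U ≤ ∏ q ∈ P, (1 - hq a0 b0 U q) ∧
        ∏ q ∈ P, (1 - hq a0 b0 U q) ≤ WW P Up a0 b0 U := hsand (hq a0 b0 U) (h01 U)
      rw [abs_of_nonneg (mul_nonneg (sub_nonneg.2 h2.1) (hnu U))]
      exact mul_le_mul_of_nonneg_right (sub_le_sub_right h2.2 _) (hnu U)
    refine h1.trans ?_
    have h2 : ∑ U ∈ Ioc (0 : ℤ) H, (WW P Up a0 b0 U - WW P Lo a0 b0 U) * nu z0 z a b U =
        ∑ D ∈ P.powerset, (Up D - Lo D) * ∑ U ∈ Ioc (0 : ℤ) H,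
          (∏ q ∈ D, hq a0 b0 U q) • nu z0 z a b U := by
      simp only [Finset.mul_sum]
      rw [Finset.sum_comm]
      refine Finset.sum_congr rfl fun U _ => ?_
      unfold WW
      rw [← Finset.sum_sub_distrib, Finset.sum_mul]
      refine Finset.sum_congr rfl fun D _ => ?_
      rw [smul_eq_mul]
      ring
    rw [h2]
    have h3 : ∀ D ∈ P.powerset, (Up D - Lo D) * ∑ U ∈ Ioc (0 : ℤ) H,
        (∏ q ∈ D, hq a0 b0 U q) • nu z0 z a b U ≤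
        H * ((Up D - Lo D) * (1 / ((∏ q ∈ D, q : ℕ) : ℝ))) +
        2 * (1 / 2) ^ t * H * (1 / ((∏ q ∈ D, q : ℕ) : ℝ)) +
        2 * (if ∏ q ∈ D, q ≤ X2 then E2 else 0) := by
      intro D hD
      rw [Finset.mem_powerset] at hD
      have hp : (0 : ℝ) < ((∏ q ∈ D, q : ℕ) : ℝ) := by exact_mod_cast hQpos D hD
      by_cases h0 : Up D - Lo D = 0
      · rw [h0, zero_mul, zero_mul, mul_zero, zero_add]
        have : 0 ≤ (if ∏ q ∈ D, q ≤ X2 then E2 else 0) := by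
          split_ifs
          · exact hE2
          · exact le_rfl
        positivity
      have hne : Up D ≠ 0 ∨ Lo D ≠ 0 := by
        by_contra hcon
        push Not at hcon
        exact h0 (by rw [hcon.1, hcon.2, sub_zero])
      rw [if_pos (hlev D hD hne)]
      obtain ⟨ρ, hρ0, hρ1, hρ⟩ := form_class (fun q hq' => hP q (hD hq')) b0
        (fun q hq' => ha0 q (hD hq'))
      rw [sum_hq hρ]
      have h4 := hS2 (∏ q ∈ D, q) (hQpos D hD) (hQz D hD) ρ 0 H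
      rw [zero_add] at h4
      obtain ⟨N, hN⟩ : ∃ N : ℝ, N = ∑ U ∈ (Ioc (0 : ℤ) H).filter
        (fun n => ((∏ q ∈ D, q : ℕ) : ℤ) ∣ n - ρ), nu z0 z a b U := ⟨_, rfl⟩
      rw [← hN] at h4 ⊢
      have h5 : |Up D - Lo D| ≤ 2 := by
        have g1 := abs_sub (Up D) (Lo D)
        have g2 := hUL D
        linarith [g2.1, g2.2]
      have h6 : (Up D - Lo D) * N = (Up D - Lo D) * (H / ((∏ q ∈ D, q : ℕ) : ℝ)) +
          (Up D - Lo D) * (N - H / ((∏ q ∈ D, q : ℕ) : ℝ)) := by ring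
      have h7 : (Up D - Lo D) * (N - H / ((∏ q ∈ D, q : ℕ) : ℝ)) ≤
          2 * ((1 / 2) ^ t * (H / ((∏ q ∈ D, q : ℕ) : ℝ)) + E2) := by
        refine (le_abs_self _).trans ?_
        rw [abs_mul]
        exact mul_le_mul h5 h4 (abs_nonneg _) (by norm_num)
      rw [h6]
      have e1 : (Up D - Lo D) * (H / ((∏ q ∈ D, q : ℕ) : ℝ)) =
        H * ((Up D - Lo D) * (1 / ((∏ q ∈ D, q : ℕ) : ℝ))) := by ring
      have e2 : 2 * ((1 / 2) ^ t * (H / ((∏ q ∈ D, q : ℕ) : ℝ)) + E2) =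
        2 * (1 / 2) ^ t * H * (1 / ((∏ q ∈ D, q : ℕ) : ℝ)) + 2 * E2 := by ring
      rw [e1]
      rw [e2] at h7
      linarith
    refine (Finset.sum_le_sum h3).trans ?_
    rw [Finset.sum_add_distrib, Finset.sum_add_distrib, ← Finset.mul_sum, ← Finset.mul_sum,
      ← Finset.mul_sum, ← Finset.sum_filter, Finset.sum_const, nsmul_eq_mul]
    have g1 := mul_le_mul_of_nonneg_left hprec hH0
    have g2 := mul_le_mul_of_nonneg_left hES (show (0 : ℝ) ≤ 2 * (1 / 2) ^ t * H by positivity)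
    have g3 : (((P.powerset.filter (fun D => ∏ q ∈ D, q ≤ X2)).card : ℕ) : ℝ) ≤ X2 := by
      exact_mod_cast TwinAll.T49.card_sets_le P hP X2
    have g4 := mul_le_mul_of_nonneg_right g3 hE2
    linarith
  linarith

theorem sum_inv_le {z s5 z' : ℕ} (hz : 2 ≤ z) (hz' : z' ≤ z ^ s5) :
    ∑ D ∈ (PP z z').powerset, 1 / ((∏ q ∈ D, q : ℕ) : ℝ) ≤ Real.exp (s5 + 20) := by
  have e : ∑ D ∈ (PP z z').powerset, 1 / ((∏ q ∈ D, q : ℕ) : ℝ) =
      ∏ q ∈ PP z z', (1 + 1 / (q : ℝ)) := by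
    rw [Finset.prod_one_add]
    refine Finset.sum_congr rfl fun D _ => ?_
    push_cast
    rw [Finset.prod_div_distrib, Finset.prod_const_one]
  rw [e]
  refine (prod_le_exp _ _ fun q _ => by positivity).trans (Real.exp_le_exp.2 ?_)
  exact SS_le hz hz'

theorem rough_split {z0 z z' : ℕ} (h1 : z0 ≤ z) (h2 : z ≤ z') (n : ℤ) :
    Rough z0 z' n ↔ Rough z0 z n ∧ Rough z z' n := by
  unfold Rough
  rw [TwinAll.PP_union h1 h2]
  constructor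
  · intro h
    exact ⟨fun q hq' => h q (Finset.mem_union_left _ hq'),
      fun q hq' => h q (Finset.mem_union_right _ hq')⟩
  · rintro ⟨h3, h4⟩ q hq'
    rcases Finset.mem_union.1 hq' with h5 | h5
    · exact h3 q h5
    · exact h4 q h5

theorem prod_hq {z z' : ℕ} (a0 b0 U : ℤ) : (Rough z z' (a0 * U + b0) ∧
    ∏ q ∈ PP z z', (1 - hq a0 b0 U q) = 1) ∨ (¬ Rough z z' (a0 * U + b0) ∧
    ∏ q ∈ PP z z', (1 - hq a0 b0 U q) = 0) := by
  by_cases h : Rough z z' (a0 * U + b0)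
  · left
    refine ⟨h, Finset.prod_eq_one fun q hq' => ?_⟩
    unfold hq
    rw [if_neg (h q hq'), sub_zero]
  · right
    refine ⟨h, ?_⟩
    unfold Rough at h
    push Not at h
    obtain ⟨q, hq', hd⟩ := h
    refine Finset.prod_eq_zero hq' ?_
    unfold hq
    rw [if_pos hd, sub_self]

open Classical in
theorem key_id {k z0 z z' : ℕ} (h1 : z0 ≤ z) (h2 : z ≤ z') {a0 b0 : ℤ} {a d : Fin k → ℤ}
    (ha0 : ∀ q ∈ PP z0 z, ¬ ((q : ℤ) ∣ a0)) (hV : 0 < V1 z0 z) (U : ℤ) :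
    (if Rough z0 z' (a0 * U + b0) then nuJ z0 z a0 b0 a d U - 1 else 0) =
      V1 z0 z * ((∏ q ∈ PP z z', (1 - hq a0 b0 U q)) *
        nu z0 z (Fin.cons a0 a : Fin (k + 1) → ℤ) (Fin.cons b0 d) U -
        (∏ q ∈ PP z z', (1 - hq a0 b0 U q)) * nu z0 z (![a0] : Fin 1 → ℤ) ![b0] U) := by
  rcases prod_hq (z := z) (z' := z') a0 b0 U with ⟨h3, h4⟩ | ⟨h3, h4⟩
  · rw [h4, one_mul, one_mul]
    have e0 : (∀ j : Fin 1, Rough z0 z ((![a0] : Fin 1 → ℤ) j * U + (![b0] : Fin 1 → ℤ) j)) ↔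
        Rough z0 z (a0 * U + b0) := by
      constructor
      · intro h
        exact h 0
      · intro h j
        rw [Fin.fin_one_eq_zero j]
        exact h
    have e1 : (∀ j : Fin (k + 1), Rough z0 z ((Fin.cons a0 a : Fin (k + 1) → ℤ) j * U +
        (Fin.cons b0 d : Fin (k + 1) → ℤ) j)) ↔
        Rough z0 z (a0 * U + b0) ∧ ∀ j, Rough z0 z (a j * U + d j) := by
      constructor
      · intro h
        exact ⟨h 0, fun j => h j.succ⟩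
      · rintro ⟨h5, h6⟩ j
        refine Fin.cases ?_ (fun j => ?_) j
        · exact h5
        · exact h6 j
    unfold nu nuJ
    rw [VV_cons b0 ha0, VV_one b0 ha0]
    by_cases h5 : Rough z0 z (a0 * U + b0)
    · rw [if_pos ((rough_split h1 h2 _).2 ⟨h5, h3⟩), if_pos (e0.2 h5)]
      by_cases h6 : ∀ j, Rough z0 z (a j * U + d j)
      · rw [if_pos h6, if_pos (e1.2 ⟨h5, h6⟩)]
        field_simp
      · rw [if_neg h6, if_neg fun h7 => h6 (e1.1 h7).2]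
        field_simp
        ring
    · rw [if_neg fun h7 => h5 ((rough_split h1 h2 _).1 h7).1, if_neg fun h7 => h5 (e0.1 h7),
        if_neg fun h7 => h5 (e1.1 h7).1]
      ring
  · rw [h4, if_neg fun h7 => h3 ((rough_split h1 h2 _).1 h7).2]
    ring

theorem mixp_62 (hS4r : S4rStmt) : MIXPStmt := by
  classical
  intro k s5 hs5
  obtain ⟨s1, zs1, hS1⟩ := R82.s1r_82 1
  obtain ⟨s2, zs2, hS2⟩ := R82.s2r_82 (k + 1)
  obtain ⟨s2', zs2', hS2'⟩ := R82.s2r_82 1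
  obtain ⟨s4, hS4⟩ := hS4r (k + 1)
  obtain ⟨s4', hS4'⟩ := hS4r 1
  obtain ⟨c, hc⟩ := pow_unbounded_of_one_lt (64 * Real.exp ((s5 : ℝ) + 20)) (one_lt_two (α := ℝ))
  refine ⟨1 + 5 * (s5 * s1) + (s4 + s4' + (s2 + s2')) * (c + 1), fun t => ?_⟩
  obtain ⟨zs4, hS4⟩ := hS4 (t + c)
  obtain ⟨zs4', hS4'⟩ := hS4' (t + c)
  refine ⟨zs1 + zs2 + zs2' + zs4 + zs4' + k + 3, fun z0 hz0 B C0 => ?_⟩
  obtain ⟨B', hB'⟩ : ∃ B', B' = B + 1 + s5 * (s1 * (t + 4 + 1)) := ⟨_, rfl⟩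
  obtain ⟨z14, hS4⟩ := hS4 z0 (by omega) B'
  obtain ⟨z14', hS4'⟩ := hS4' z0 (by omega) B'
  refine ⟨z14 + z14' + z0 + 2 + 2 * C0 + 16 * 2 ^ t, fun z hz a0 b0 a d hBF hSF hd H hH1 hH2 θ =>
    ?_⟩
  have hz0z : z0 ≤ z := by omega
  have hz2 : 2 ≤ z := by omega
  have hz1 : (1 : ℝ) ≤ z := by exact_mod_cast (by omega : 1 ≤ z)
  have hzz' : z ≤ z ^ s5 := by
    calc z = z ^ 1 := (pow_one z).symm
      _ ≤ z ^ s5 := Nat.pow_le_pow_right (by omega) hs5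
  -- the sieve weights
  obtain ⟨Up, Lo, hUL, hlev, hsand, hpr⟩ := hS1 (t + 4) z (by omega) (z ^ s5) hzz'
  obtain ⟨X2, hX2⟩ : ∃ X2 : ℕ, X2 = (z ^ s5) ^ (s1 * (t + 4 + 1)) := ⟨_, rfl⟩
  rw [← hX2] at hlev
  have hX2' : X2 = z ^ (s5 * (s1 * (t + 4 + 1))) := by rw [hX2, ← pow_mul]
  have hprec : ∑ D ∈ (PP z (z ^ s5)).powerset, (Up D - Lo D) * (1 / ((∏ q ∈ D, q : ℕ) : ℝ)) ≤
      2 * (1 / 2) ^ (t + 4) := by
    have h1 := hpr (fun q => 1 / (q : ℝ)) (fun q _ => ⟨by positivity, by norm_num⟩)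
    have e : ∀ D : Finset ℕ, ∏ q ∈ D, (1 / (q : ℝ)) = 1 / ((∏ q ∈ D, q : ℕ) : ℝ) := by
      intro D
      push_cast
      rw [Finset.prod_div_distrib, Finset.prod_const_one]
    simp only [e] at h1
    have h2 : ∏ q ∈ PP z (z ^ s5), (1 - 1 / (q : ℝ)) ≤ 1 := by
      refine Finset.prod_le_one (fun q hq' => ?_) fun q _ => ?_
      · have : (1 : ℝ) ≤ q := by exact_mod_cast (PP_prime hq').one_le
        have h3 : 1 / (q : ℝ) ≤ 1 := by
          rw [div_le_one (by linarith)]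
          exact this
        linarith
      · have : 0 ≤ 1 / (q : ℝ) := by positivity
        linarith
    have h3 : ∑ D ∈ (PP z (z ^ s5)).powerset, (Up D - Lo D) * (1 / ((∏ q ∈ D, q : ℕ) : ℝ)) =
        ∑ D ∈ (PP z (z ^ s5)).powerset, Up D * (1 / ((∏ q ∈ D, q : ℕ) : ℝ)) -
        ∑ D ∈ (PP z (z ^ s5)).powerset, Lo D * (1 / ((∏ q ∈ D, q : ℕ) : ℝ)) := by
      rw [← Finset.sum_sub_distrib]
      exact Finset.sum_congr rfl fun D _ => by ring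
    rw [h3]
    have h4 : (0 : ℝ) ≤ (1 / 2) ^ (t + 4) := by positivity
    have h5 := mul_le_mul_of_nonneg_left h2 h4
    linarith [h1.1, h1.2]
  have hES := sum_inv_le (z' := z ^ s5) hz2 le_rfl
  -- divisibility
  have ha0n : ∀ q ∈ PP z0 (z ^ s5), ¬ ((q : ℤ) ∣ a0) := by
    intro q hq' h
    have h1 := hBF.large q (PP_prime hq') h
    have h2 := PP_lt hq'
    omega
  have ha0z : ∀ q ∈ PP z0 z, ¬ ((q : ℤ) ∣ a0) := fun q hq' => ha0n q (TwinAll.PP_mono hzz' hq')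
  have hcons : ∀ j : Fin (k + 1), ∀ q ∈ PP z0 z,
      ¬ ((q : ℤ) ∣ (Fin.cons a0 a : Fin (k + 1) → ℤ) j) := by
    intro j q hq'
    refine Fin.cases ?_ (fun j => ?_) j
    · exact ha0z q hq'
    · intro h
      have h1 := hSF.large j q (PP_prime hq') h
      have h2 := PP_lt hq'
      omega
  have hone : ∀ j : Fin 1, ∀ q ∈ PP z0 z, ¬ ((q : ℤ) ∣ (![a0] : Fin 1 → ℤ) j) := by
    intro j q hq'
    rw [Fin.fin_one_eq_zero j]
    exact ha0z q hq'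
  have ha0C : |a0| ≤ C0 := by
    rw [abs_of_pos hBF.pos]
    exact hBF.bd.1
  have hAc : ∀ j : Fin (k + 1), |(Fin.cons a0 a : Fin (k + 1) → ℤ) j| ≤ C0 ∧
      |(Fin.cons b0 d : Fin (k + 1) → ℤ) j| ≤ C0 := by
    intro j
    refine Fin.cases ?_ (fun j => ?_) j
    · exact ⟨ha0C, hBF.bd.2⟩
    · exact ⟨hSF.bd j, hd j⟩
  have hA1 : ∀ j : Fin 1, |(![a0] : Fin 1 → ℤ) j| ≤ C0 ∧ |(![b0] : Fin 1 → ℤ) j| ≤ C0 := by
    intro j
    rw [Fin.fin_one_eq_zero j]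
    exact ⟨ha0C, hBF.bd.2⟩
  -- sizes
  have hX21 : 1 ≤ X2 := by
    rw [hX2']
    exact Nat.one_le_pow _ _ (by omega)
  have hsize : X2 * C0 + C0 ≤ z ^ B' := by
    calc X2 * C0 + C0 ≤ X2 * C0 + X2 * C0 := by
          exact Nat.add_le_add_left (Nat.le_mul_of_pos_left _ hX21) _
      _ = (2 * C0) * X2 := by ring
      _ ≤ z * X2 := Nat.mul_le_mul_right _ (by omega)
      _ = z ^ (1 + s5 * (s1 * (t + 4 + 1))) := by rw [hX2', pow_add, pow_one]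
      _ ≤ z ^ B' := Nat.pow_le_pow_right (by omega) (by omega)
  have hH2' : H + 1 ≤ z ^ B' := by
    have h1 : 1 ≤ z ^ B := Nat.one_le_pow _ _ (by omega)
    calc H + 1 ≤ z ^ B + z ^ B := by omega
      _ = 2 * z ^ B := by ring
      _ ≤ z * z ^ B := Nat.mul_le_mul_right _ hz2
      _ = z ^ (B + 1) := by rw [pow_succ]; ring
      _ ≤ z ^ B' := Nat.pow_le_pow_right (by omega) (by omega)
  obtain ⟨h, hh⟩ : ∃ h : ℕ, h = z ^ ((s4 + s4') * (t + c + 1)) := ⟨_, rfl⟩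
  have hh1 : 1 ≤ h := by
    rw [hh]
    exact Nat.one_le_pow _ _ (by omega)
  have hexp : 1 + s5 * (s1 * (t + 4 + 1)) + (s4 + s4' + (s2 + s2')) * (t + c + 1) ≤
      (1 + 5 * (s5 * s1) + (s4 + s4' + (s2 + s2')) * (c + 1)) * (t + 1) := by
    have e : (1 + 5 * (s5 * s1) + (s4 + s4' + (s2 + s2')) * (c + 1)) * (t + 1) =
        (1 + s5 * (s1 * (t + 4 + 1)) + (s4 + s4' + (s2 + s2')) * (t + c + 1)) +
        (t + 4 * (s5 * s1 * t) + (s4 + s4' + (s2 + s2')) * (c * t)) := by ring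
    rw [e]
    exact Nat.le_add_right _ _
  have hHX : X2 * (h + 1) ≤ H := by
    calc X2 * (h + 1) ≤ X2 * (h + h) := Nat.mul_le_mul_left _ (by omega)
      _ = 2 * (X2 * h) := by ring
      _ ≤ z * (X2 * h) := Nat.mul_le_mul_right _ hz2
      _ = z ^ (1 + s5 * (s1 * (t + 4 + 1)) + (s4 + s4') * (t + c + 1)) := by
          rw [hX2', hh, pow_add, pow_add, pow_one]
          ring
      _ ≤ z ^ ((1 + 5 * (s5 * s1) + (s4 + s4' + (s2 + s2')) * (c + 1)) * (t + 1)) := by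
          refine Nat.pow_le_pow_right (by omega) (le_trans ?_ hexp)
          nlinarith
      _ ≤ H := hH1
  obtain ⟨E2, hE2⟩ : ∃ E2 : ℝ, E2 = (z : ℝ) ^ ((s2 + s2') * (t + c + 1)) := ⟨_, rfl⟩
  have hE20 : 0 ≤ E2 := by rw [hE2]; positivity
  have hH0 : (0 : ℝ) ≤ H := Nat.cast_nonneg H
  have hrem : 4 * (X2 : ℝ) * E2 ≤ (1 / 2) ^ t / 4 * H := by
    have h1 : ((z ^ ((1 + 5 * (s5 * s1) + (s4 + s4' + (s2 + s2')) * (c + 1)) * (t + 1)) : ℕ) : ℝ) ≤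
      H := by exact_mod_cast hH1
    have h2 : (16 * 2 ^ t : ℝ) ≤ z := by exact_mod_cast (by omega : 16 * 2 ^ t ≤ z)
    have h3 : (16 * 2 ^ t : ℝ) * (X2 * E2) ≤ H := by
      calc (16 * 2 ^ t : ℝ) * (X2 * E2) ≤ z * (X2 * E2) :=
            mul_le_mul_of_nonneg_right h2 (by positivity)
        _ = (z : ℝ) ^ (1 + s5 * (s1 * (t + 4 + 1)) + (s2 + s2') * (t + c + 1)) := by
            rw [hX2', hE2, pow_add, pow_add, pow_one]
            push_cast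
            ring
        _ ≤ (z : ℝ) ^ ((1 + 5 * (s5 * s1) + (s4 + s4' + (s2 + s2')) * (c + 1)) * (t + 1)) := by
            refine pow_le_pow_right₀ hz1 (le_trans ?_ hexp)
            nlinarith
        _ ≤ H := by
            push_cast at h1
            exact h1
    have h4 : (1 / 2 : ℝ) ^ t * 2 ^ t = 1 := by
      rw [← mul_pow]; norm_num
    have h5 := mul_le_mul_of_nonneg_left h3 (show (0 : ℝ) ≤ (1 / 2) ^ t / 4 by positivity)
    calc 4 * (X2 : ℝ) * E2 = ((1 / 2 : ℝ) ^ t * 2 ^ t) * (4 * X2 * E2) := by rw [h4, one_mul]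
      _ = (1 / 2) ^ t / 4 * ((16 * 2 ^ t : ℝ) * (X2 * E2)) := by ring
      _ ≤ _ := h5
  have hS4A : S4h (k + 1) z0 z B' h (t + c) := by
    intro a' b' hab u H' hu hh' hH' θ'
    refine hS4 z (by omega) a' b' hab u H' hu (le_trans ?_ hh') hH' θ'
    rw [hh]
    refine Nat.pow_le_pow_right (by omega) ?_
    nlinarith
  have hS4B : S4h 1 z0 z B' h (t + c) := by
    intro a' b' hab u H' hu hh' hH' θ'
    refine hS4' z (by omega) a' b' hab u H' hu (le_trans ?_ hh') hH' θ'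
    rw [hh]
    refine Nat.pow_le_pow_right (by omega) ?_
    nlinarith
  have lA := lemA (t2 := t + 4) (E2 := E2) (PP z (z ^ s5)) (fun q hq' => PP_prime hq')
    (fun q hq' => PP_lt hq') hS4A (by omega) hcons
    (fun Q hQ hQ' c' u' H' => by
      refine (hS2 (t + c) z0 (by omega) z hz0z _ _ hcons Q hQ hQ' c' u' H').trans
        (add_le_add_right ?_ _)
      rw [hE2]
      refine pow_le_pow_right₀ hz1 ?_
      nlinarith)
    hE20 hES hAc hsize (fun q hq' => ha0n q (TwinAll.PP_anti hz0z hq')) hUL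
    (fun D hD hne => hlev D hD hne) hsand hprec hHX hH2' θ (b0 := b0)
  have lB := lemA (t2 := t + 4) (E2 := E2) (PP z (z ^ s5)) (fun q hq' => PP_prime hq')
    (fun q hq' => PP_lt hq') hS4B (by omega) hone
    (fun Q hQ hQ' c' u' H' => by
      refine (hS2' (t + c) z0 (by omega) z hz0z _ ![b0] hone Q hQ hQ' c' u' H').trans
        (add_le_add_right ?_ _)
      rw [hE2]
      refine pow_le_pow_right₀ hz1 ?_
      nlinarith)
    hE20 hES hA1 hsize (fun q hq' => ha0n q (TwinAll.PP_anti hz0z hq')) hUL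
    (fun D hD hne => hlev D hD hne) hsand hprec hHX hH2' θ (b0 := b0)
  have hV1pos : 0 < V1 z0 z := by
    unfold V1
    refine TwinAll.VV_pos (by omega) _ _ fun j q hq' => ?_
    rw [Fin.fin_one_eq_zero j]
    exact TwinAll.not_dvd_one q hq'
  -- the identity
  have hid : ∑ U ∈ (Ioc (0 : ℤ) H).filter (fun U => Rough z0 (z ^ s5) (a0 * U + b0)),
      ((nuJ z0 z a0 b0 a d U - 1 : ℝ) : ℂ) * ee (θ * U) =
      ((V1 z0 z : ℝ) : ℂ) * (∑ U ∈ Ioc (0 : ℤ) H,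
        (((∏ q ∈ PP z (z ^ s5), (1 - hq a0 b0 U q)) *
          nu z0 z (Fin.cons a0 a : Fin (k + 1) → ℤ) (Fin.cons b0 d) U -
          WW (PP z (z ^ s5)) Lo a0 b0 U : ℝ) : ℂ) * ee (θ * U) -
        ∑ U ∈ Ioc (0 : ℤ) H, (((∏ q ∈ PP z (z ^ s5), (1 - hq a0 b0 U q)) *
          nu z0 z (![a0] : Fin 1 → ℤ) ![b0] U - WW (PP z (z ^ s5)) Lo a0 b0 U : ℝ) : ℂ) *
            ee (θ * U)) := by
    rw [Finset.sum_filter, ← Finset.sum_sub_distrib, Finset.mul_sum]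
    refine Finset.sum_congr rfl fun U _ => ?_
    have e1 := key_id (a := a) (d := d) (b0 := b0) hz0z hzz' ha0z hV1pos U
    have e2 : (if Rough z0 (z ^ s5) (a0 * U + b0) then
        ((nuJ z0 z a0 b0 a d U - 1 : ℝ) : ℂ) * ee (θ * U) else 0) =
        (((if Rough z0 (z ^ s5) (a0 * U + b0) then nuJ z0 z a0 b0 a d U - 1 else 0 : ℝ)) : ℂ) *
          ee (θ * U) := by
      split_ifs
      · rfl
      · rw [Complex.ofReal_zero, zero_mul]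
    rw [e2, e1]
    push_cast
    ring
  rw [hid, norm_mul, Complex.norm_real, Real.norm_eq_abs, abs_of_pos hV1pos]
  have hnorm := (norm_sub_le _ _).trans (add_le_add lA lB)
  have hfin : (4 * (1 / 2) ^ (t + c) * Real.exp ((s5 : ℝ) + 20) + 2 * (1 / 2) ^ (t + 4)) * H +
      2 * X2 * E2 + ((4 * (1 / 2) ^ (t + c) * Real.exp ((s5 : ℝ) + 20) +
        2 * (1 / 2) ^ (t + 4)) * H + 2 * X2 * E2) ≤ (1 / 2) ^ t * H := by
    have h1 : (1 / 2 : ℝ) ^ (t + c) * Real.exp ((s5 : ℝ) + 20) ≤ (1 / 2) ^ t * (1 / 64) := by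
      rw [pow_add, mul_assoc]
      refine mul_le_mul_of_nonneg_left ?_ (by positivity)
      have h2 : (1 / 2 : ℝ) ^ c * 2 ^ c = 1 := by
        rw [← mul_pow]; norm_num
      have h3 : Real.exp ((s5 : ℝ) + 20) ≤ 2 ^ c * (1 / 64) := by linarith
      calc (1 / 2 : ℝ) ^ c * Real.exp ((s5 : ℝ) + 20) ≤ (1 / 2) ^ c * (2 ^ c * (1 / 64)) :=
            mul_le_mul_of_nonneg_left h3 (by positivity)
        _ = ((1 / 2 : ℝ) ^ c * 2 ^ c) * (1 / 64) := by ring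
        _ = 1 / 64 := by rw [h2, one_mul]
    have h4 : (1 / 2 : ℝ) ^ (t + 4) = (1 / 2) ^ t * (1 / 16) := by
      rw [pow_add]; norm_num
    have h5 := mul_le_mul_of_nonneg_right h1 hH0
    have h6 : (0 : ℝ) ≤ (1 / 2) ^ t * H := by positivity
    rw [h4]
    linarith
  calc V1 z0 z * _ ≤ V1 z0 z * ((1 / 2) ^ t * H) :=
        mul_le_mul_of_nonneg_left (hnorm.trans hfin) hV1pos.le
    _ = _ := by ring

end Pool.Agent.Lib.MT2.T62
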