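import Mathlib
import Pool.Agent.Lib.MT2.StmtsD
import Pool.Agent.Lib.MT2.Small39
import Pool.Agent.Lib.TwinAll.S3x49
import Pool.Agent.Lib.TwinAll.Avg24

/-!
MT2, module S3w: pair correlations of the weighted majorant.
-/

set_option autoImplicit false

namespace Pool.Agent.Lib.MT2

open Finset
open Pool.Agent.Lib.TwinAll (PP Rough om VV nu ee)
open Pool.Agent.Lib.TwinAll.T49 (da db da_forall nu_mul_nu ratio_le ratio_ge interval_eq sum_shift
  prod_pow_factor exc_card)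

namespace W39

/-- arithmetic of one non-exceptional difference -/
theorem arith {H m W Nn S G δ e r P a1 a2 : ℝ} (hH : 0 ≤ H) (hm : 0 ≤ m) (hmH : m ≤ H)
    (hW : 1 / 2 ≤ W) (hNn : 0 ≤ Nn) (hG : 1 ≤ G) (hSG : S ≤ G) (hS : 1 - δ ≤ S) (hS0 : 0 ≤ S)
    (hδ : 0 ≤ δ) (he : 0 ≤ e) (hr : 0 ≤ r) (her : e + r ≤ 1 / 8)
    (hP : |P - m * (W * W)| ≤ e * (Nn * Nn + 1) * H + r * H)
    (h1 : |a1 - m * W| ≤ e * (Nn + 1) * H + r * H)
    (h2 : |a2 - m * W| ≤ e * (Nn + 1) * H + r * H) :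
    (S * P / W ^ 2 - a1 / W - a2 / W + m) ^ 2 ≤
      H ^ 2 * (Nn + 1) ^ 4 * (8 * (G ^ 2 - 1) + 2 * (δ + 8 * (e + r)) ^ 2) := by
  have hW0 : 0 < W := by linarith
  have hWi : 1 / W ≤ 2 := by
    rw [div_le_iff₀ hW0]; linarith
  have hWi2 : 1 / W ^ 2 ≤ 4 := by
    rw [div_le_iff₀ (by positivity)]; nlinarith
  obtain ⟨Q, hQ⟩ : ∃ Q : ℝ, Q = (Nn + 1) ^ 2 := ⟨_, rfl⟩
  have hQ1 : 1 ≤ Q := by rw [hQ]; nlinarith
  have hQ2 : Nn * Nn + 1 ≤ Q := by rw [hQ]; nlinarith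
  have hQ3 : Nn + 1 ≤ Q := by rw [hQ]; nlinarith
  have heH : 0 ≤ e * H := mul_nonneg he hH
  have hrH : 0 ≤ r * H := mul_nonneg hr hH
  have hP' : |P - m * (W * W)| ≤ (e + r) * Q * H := by
    refine hP.trans ?_
    have e1 : e * (Nn * Nn + 1) * H ≤ e * H * Q := by
      calc e * (Nn * Nn + 1) * H = e * H * (Nn * Nn + 1) := by ring
        _ ≤ e * H * Q := mul_le_mul_of_nonneg_left hQ2 heH
    have e2 : r * H ≤ r * H * Q := by
      calc r * H = r * H * 1 := (mul_one _).symm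
        _ ≤ r * H * Q := mul_le_mul_of_nonneg_left hQ1 hrH
    calc _ ≤ e * H * Q + r * H * Q := add_le_add e1 e2
      _ = (e + r) * Q * H := by ring
  have hsm : e * (Nn + 1) * H + r * H ≤ (e + r) * Q * H := by
    have e1 : e * (Nn + 1) * H ≤ e * H * Q := by
      calc e * (Nn + 1) * H = e * H * (Nn + 1) := by ring
        _ ≤ e * H * Q := mul_le_mul_of_nonneg_left hQ3 heH
    have e2 : r * H ≤ r * H * Q := by
      calc r * H = r * H * 1 := (mul_one _).symm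
        _ ≤ r * H * Q := mul_le_mul_of_nonneg_left hQ1 hrH
    calc _ ≤ e * H * Q + r * H * Q := add_le_add e1 e2
      _ = (e + r) * Q * H := by ring
  have h1' := h1.trans hsm
  have h2' := h2.trans hsm
  have hE0 : 0 ≤ (e + r) * Q * H := (abs_nonneg _).trans h1'
  -- decomposition
  have hdec : S * P / W ^ 2 - a1 / W - a2 / W + m =
      (S - 1) * m + S * ((P - m * (W * W)) * (1 / W ^ 2)) - (a1 - m * W) * (1 / W) -
        (a2 - m * W) * (1 / W) := by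
    field_simp
    ring
  have hA : |(S - 1) * m| ≤ ((G - 1) + δ) * H := by
    rw [abs_mul, abs_of_nonneg hm]
    have : |S - 1| ≤ (G - 1) + δ := by
      rw [abs_le]; constructor <;> linarith
    exact mul_le_mul this hmH hm (by linarith)
  have hB : |S * ((P - m * (W * W)) * (1 / W ^ 2))| ≤ G * ((e + r) * Q * H * 4) := by
    rw [abs_mul, abs_mul, abs_of_nonneg hS0, abs_of_nonneg (by positivity : 0 ≤ 1 / W ^ 2)]
    exact mul_le_mul hSG (mul_le_mul hP' hWi2 (by positivity) hE0) (by positivity) (by linarith)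
  have hC : |(a1 - m * W) * (1 / W)| ≤ (e + r) * Q * H * 2 := by
    rw [abs_mul, abs_of_nonneg (by positivity : 0 ≤ 1 / W)]
    exact mul_le_mul h1' hWi (by positivity) hE0
  have hD : |(a2 - m * W) * (1 / W)| ≤ (e + r) * Q * H * 2 := by
    rw [abs_mul, abs_of_nonneg (by positivity : 0 ≤ 1 / W)]
    exact mul_le_mul h2' hWi (by positivity) hE0
  have hK : |S * P / W ^ 2 - a1 / W - a2 / W + m| ≤
      H * Q * (2 * (G - 1) + (δ + 8 * (e + r))) := by
    rw [hdec]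
    have t1 := abs_sub ((S - 1) * m + S * ((P - m * (W * W)) * (1 / W ^ 2)) -
      (a1 - m * W) * (1 / W)) ((a2 - m * W) * (1 / W))
    have t2 := abs_sub ((S - 1) * m + S * ((P - m * (W * W)) * (1 / W ^ 2)))
      ((a1 - m * W) * (1 / W))
    have t3 := abs_add_le ((S - 1) * m) (S * ((P - m * (W * W)) * (1 / W ^ 2)))
    have hg0 : 0 ≤ G - 1 := by linarith
    have u1 : ((G - 1) + δ) * H ≤ H * Q * ((G - 1) + δ) := by
      calc ((G - 1) + δ) * H = H * 1 * ((G - 1) + δ) := by ring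
        _ ≤ H * Q * ((G - 1) + δ) := by
          apply mul_le_mul_of_nonneg_right _ (by linarith)
          exact mul_le_mul_of_nonneg_left hQ1 hH
    have u2 : (G - 1) * ((e + r) * Q * H * 4) ≤ H * Q * (G - 1) := by
      have : (e + r) * Q * H * 4 ≤ H * Q := by
        have h0 : 0 ≤ H * Q := mul_nonneg hH (by linarith)
        nlinarith
      calc (G - 1) * ((e + r) * Q * H * 4) ≤ (G - 1) * (H * Q) :=
            mul_le_mul_of_nonneg_left this hg0
        _ = H * Q * (G - 1) := by ring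
    nlinarith
  have hK2 : (S * P / W ^ 2 - a1 / W - a2 / W + m) ^ 2 ≤
      (H * Q * (2 * (G - 1) + (δ + 8 * (e + r)))) ^ 2 := by
    rw [← sq_abs (S * P / W ^ 2 - a1 / W - a2 / W + m)]
    exact pow_le_pow_left₀ (abs_nonneg _) hK 2
  refine hK2.trans ?_
  have hQ4 : (Nn + 1) ^ 4 = Q ^ 2 := by rw [hQ]; ring
  rw [hQ4, mul_pow, mul_pow]
  apply mul_le_mul_of_nonneg_left _ (by positivity)
  have h3 : (2 * (G - 1) + (δ + 8 * (e + r))) ^ 2 ≤
      2 * (2 * (G - 1)) ^ 2 + 2 * (δ + 8 * (e + r)) ^ 2 := by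
    nlinarith [sq_nonneg (2 * (G - 1) - (δ + 8 * (e + r)))]
  have h4 : (G - 1) ^ 2 ≤ G ^ 2 - 1 := by nlinarith
  nlinarith

/-- the exceptional primes of one difference -/
theorem exc_primes {K C0 z0 z R B H : ℕ} {α β : Fin K → ℤ} (hMF : MF C0 z0 α β) (τ : ℤ)
    (hτ : |τ| ≤ H) (hH : H ≤ z ^ B) (hz : 3 * C0 ^ 2 + 2 ≤ z)
    (hne : ∀ i j, α i * α j * τ + α i * β j - α j * β i ≠ 0) :
    ((PP z R).filter (fun q : ℕ => ∃ i j, (q : ℤ) ∣ α i * α j * τ + α i * β j - α j * β i)).card ≤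
      K ^ 2 * (B + 2) := by
  classical
  have hsub : (PP z R).filter
      (fun q : ℕ => ∃ i j, (q : ℤ) ∣ α i * α j * τ + α i * β j - α j * β i) ⊆
      (univ : Finset (Fin K × Fin K)).biUnion (fun ij => (PP z R).filter
        (fun q : ℕ => (q : ℤ) ∣ α ij.1 * α ij.2 * τ + α ij.1 * β ij.2 - α ij.2 * β ij.1)) := by
    intro q hq
    rw [mem_filter] at hq
    obtain ⟨h1, i, j, hij⟩ := hq
    rw [mem_biUnion]
    exact ⟨(i, j), mem_univ _, mem_filter.2 ⟨h1, hij⟩⟩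
  refine (Finset.card_le_card hsub).trans (Finset.card_biUnion_le.trans ?_)
  have hC : (0 : ℤ) ≤ (C0 : ℤ) := by positivity
  have hz2 : 2 ≤ z := by omega
  have h3 : ∀ ij ∈ (univ : Finset (Fin K × Fin K)), ((PP z R).filter
      (fun q : ℕ => (q : ℤ) ∣ α ij.1 * α ij.2 * τ + α ij.1 * β ij.2 - α ij.2 * β ij.1)).card ≤
      B + 2 := by
    rintro ⟨i, j⟩ _
    refine (npr_39 z (B + 2) (α i * α j * τ + α i * β j - α j * β i) hz2 (hne i j) ?_ _ ?_).le
    · have a1 : |α i| ≤ C0 := by rw [abs_of_pos (hMF.pos i).1]; exact (hMF.bd i).1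
      have a2 : |α j| ≤ C0 := by rw [abs_of_pos (hMF.pos j).1]; exact (hMF.bd j).1
      have b1 := (hMF.bd i).2
      have b2 := (hMF.bd j).2
      have c1 : |α i * α j| ≤ C0 * C0 := by
        rw [abs_mul]; exact mul_le_mul a1 a2 (abs_nonneg _) hC
      have hHz : (H : ℤ) ≤ (z : ℤ) ^ B := by exact_mod_cast hH
      have c2 : |α i * α j * τ| ≤ C0 * C0 * (z : ℤ) ^ B := by
        rw [abs_mul]
        exact mul_le_mul c1 (hτ.trans hHz) (abs_nonneg _) (by positivity)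
      have c3 : |α i * β j| ≤ C0 * C0 := by
        rw [abs_mul]; exact mul_le_mul a1 b2 (abs_nonneg _) hC
      have c4 : |α j * β i| ≤ C0 * C0 := by
        rw [abs_mul]; exact mul_le_mul a2 b1 (abs_nonneg _) hC
      have t1 := abs_sub (α i * α j * τ + α i * β j) (α j * β i)
      have t2 := abs_add_le (α i * α j * τ) (α i * β j)
      have hzB : (1 : ℤ) ≤ (z : ℤ) ^ B := one_le_pow₀ (by exact_mod_cast (by omega : 1 ≤ z))
      have hz' : (3 : ℤ) * (C0 : ℤ) ^ 2 + 2 ≤ z := by exact_mod_cast hz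
      have hCC : (0 : ℤ) ≤ C0 * C0 := mul_nonneg hC hC
      have d1 : (C0 : ℤ) * C0 + C0 * C0 ≤ 2 * (C0 * C0) * (z : ℤ) ^ B := by nlinarith
      have d2 : 3 * ((C0 : ℤ) * C0) * (z : ℤ) ^ B < z * (z : ℤ) ^ B := by
        apply mul_lt_mul_of_pos_right _ (by positivity)
        nlinarith
      have d3 : z * (z : ℤ) ^ B ≤ (z : ℤ) ^ (B + 2) := by
        rw [← pow_succ']
        exact pow_le_pow_right₀ (by exact_mod_cast (by omega : 1 ≤ z)) (by omega)
      nlinarith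
    · intro q hq
      rw [mem_filter, TwinAll.A81.mem_PP] at hq
      exact ⟨hq.1.2.2, hq.1.1, hq.2⟩
  refine (Finset.sum_le_sum h3).trans ?_
  simp [sq, mul_comm]

/-- incompatible conditions -/
theorem incomp {K : ℕ} {α β : Fin K → ℤ} {τ m : ℤ} {q : ℕ} {i j : Fin K}
    (h1 : (q : ℤ) ∣ α i * m + β i) (h2 : (q : ℤ) ∣ α j * (m + τ) + β j) :
    (q : ℤ) ∣ α i * α j * τ + α i * β j - α j * β i := by
  have h3 := (h2.mul_left (α i)).sub (h1.mul_left (α j))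
  have e : α i * (α j * (m + τ) + β j) - α j * (α i * m + β i) =
      α i * α j * τ + α i * β j - α j * β i := by ring
  rwa [e] at h3

end W39

open W39 in
/-- S3w -/
theorem s3w_39 (hEV2 : EV2Stmt) (hEV1 : EV1Stmt) : S3wStmt := by
  classical
  intro k K
  obtain ⟨s2, zs2, h2⟩ := hEV2 (k + k) K
  obtain ⟨s1, zs1, h1⟩ := hEV1 k K
  refine ⟨9 * (s1 + s2) + (4 * k + 12), fun t => ?_⟩
  have ht0 : (0 : ℝ) < (1 / 2) ^ t := by positivity
  obtain ⟨zs3, h3⟩ := TwinAll.avg24 k ((1 + 2 * k) ^ 2) ((1 / 2) ^ t / 64) (by positivity)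
  obtain ⟨M1, hM1⟩ := exists_nat_gt (64 * (k : ℝ) ^ 2 * 2 ^ t)
  refine ⟨zs1 + zs2 + zs3 + 2 * k + M1 + 4 * k ^ 2 + 1, fun z0 hz0 b B C0 C1 => ?_⟩
  obtain ⟨za, hza⟩ := h2 (t + 8) z0 (by omega) b (K ^ 2 * (B + 2)) C1
  obtain ⟨zb, hzb⟩ := h1 (t + 8) z0 (by omega) b 0 C1
  obtain ⟨zc, hzc⟩ := h3 z0 (by omega) B
  obtain ⟨zd, hzd⟩ := wb_39 K (B + 1) C0
  obtain ⟨M4, hM4⟩ := exists_nat_gt (2 * C1 * 2 ^ (K * (B + 2)))
  obtain ⟨p0, hp0, hp0'⟩ := Nat.exists_infinite_primes (z0 + 1)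
  refine ⟨za + zb + zc + zd + p0 + M4 + 3 * C0 ^ 2 + 2 ^ (t + 8) + k ^ 2 + K ^ 2 + z0 + 4, ?_⟩
  intro z hz R X hR hX A B' hAB α β hMF c hc hW u H hu0 hu1 hH1 hH2
  have h28 : 256 * 2 ^ t = 2 ^ (t + 8) := by rw [pow_add]; ring
  have h2t : 1 ≤ 2 ^ t := Nat.one_le_two_pow
  have hA : ∀ j, ∀ q ∈ PP z0 z, ¬ ((q : ℤ) ∣ A j) := fun j => (hAB j).2.2
  have hA0 : ∀ j, A j ≠ 0 := by
    intro j h0
    have hp : p0 ∈ PP z0 z := TwinAll.A81.mem_PP.2 ⟨by omega, by omega, hp0'⟩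
    exact hA j p0 hp (by rw [h0]; exact dvd_zero _)
  have hα0 : ∀ j, α j ≠ 0 := fun j => (hMF.pos j).1.ne'
  have hk2 : 2 * k ≤ z0 := by omega
  have hk1 : k ≤ z0 := by omega
  have hz0z : z0 ≤ z := by omega
  have hz1 : 1 ≤ z := by omega
  have hzR : (1 : ℝ) ≤ z := by exact_mod_cast hz1
  have hz0pos : (0 : ℝ) < z := by linarith
  have hC1 : 0 ≤ C1 := (abs_nonneg _).trans (hc.bd ∅)
  -- X is positive
  have hX1 : 1 ≤ X := by
    by_contra hX0
    have : wmean z R c = 0 := by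
      unfold wmean
      apply Finset.sum_eq_zero
      intro D hD
      by_contra hne
      have hcD : c D ≠ 0 := by
        intro h; apply hne; rw [h, zero_div]
      have h5 := hc.lev D hcD
      have h6 : 0 < md D := by
        apply Finset.prod_pos
        intro x hx
        have := Finset.mem_powerset.1 hD hx
        unfold PI at this
        rw [Finset.mem_product, TwinAll.A81.mem_PP] at this
        exact this.1.2.2.pos
      omega
    rw [this] at hW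
    norm_num at hW
  -- sizes
  obtain ⟨W, hWdef⟩ : ∃ W : ℝ, W = wmean z R c := ⟨_, rfl⟩
  obtain ⟨Nn, hNdef⟩ : ∃ Nn : ℝ, Nn = wnorm z R c := ⟨_, rfl⟩
  have hNn : 0 ≤ Nn := by
    rw [hNdef]; unfold wnorm
    exact Finset.sum_nonneg (fun D _ => by positivity)
  rw [← hWdef] at hW
  have hH0 : (0 : ℝ) ≤ (H : ℝ) := Nat.cast_nonneg _
  have hs : ∀ s : ℕ, s * (t + 8 + 1) + (4 * k + 12) ≤ (9 * s + (4 * k + 12)) * (t + 1) := by
    intro s
    have e1 : (9 * s + (4 * k + 12)) * (t + 1) = 9 * (s * t) + 9 * s + (4 * k + 12) * t +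
      (4 * k + 12) := by ring
    have e2 : s * (t + 8 + 1) = s * t + 9 * s := by ring
    rw [e1, e2]
    have : 0 ≤ s * t := Nat.zero_le _
    nlinarith [Nat.zero_le ((4 * k + 12) * t)]
  have hpow : ∀ s, s ≤ s1 + s2 → X ^ 2 * (z ^ (s * (t + 8 + 1)) * z ^ (4 * k + 12)) ≤ H := by
    intro s hs'
    refine le_trans (Nat.mul_le_mul_left _ ?_) hH1
    rw [← pow_add]
    apply Nat.pow_le_pow_right hz1
    refine (hs s).trans (Nat.mul_le_mul_right _ ?_)
    omega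
  have hX2 : X ≤ X ^ 2 := by nlinarith
  have hXX : 1 ≤ X ^ 2 := Nat.one_le_pow _ _ hX1
  have hzpow : ∀ j, 1 ≤ z ^ j := fun j => Nat.one_le_pow _ _ hz1
  have hHz : z ^ (4 * k + 12) ≤ H := by
    have h5 := hpow 0 (Nat.zero_le _)
    have h6 : z ^ (4 * k + 12) ≤ X ^ 2 * (z ^ (0 * (t + 8 + 1)) * z ^ (4 * k + 12)) := by
      have : 1 * z ^ (4 * k + 12) ≤ X ^ 2 * z ^ (4 * k + 12) := Nat.mul_le_mul_right _ hXX
      simpa using this
    omega
  have hzH : z ≤ H := by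
    refine le_trans ?_ hHz
    calc z = z ^ 1 := (pow_one z).symm
      _ ≤ z ^ (4 * k + 12) := Nat.pow_le_pow_right hz1 (by omega)
  have hz12 : z ≤ z ^ (4 * k + 12) := by
    calc z = z ^ 1 := (pow_one z).symm
      _ ≤ z ^ (4 * k + 12) := Nat.pow_le_pow_right hz1 (by omega)
  obtain ⟨r, hrdef⟩ : ∃ r : ℝ, r = 1 / z := ⟨_, rfl⟩
  obtain ⟨e, hedef⟩ : ∃ e : ℝ, e = (1 / 2 : ℝ) ^ (t + 8) := ⟨_, rfl⟩
  have hr0 : 0 ≤ r := by rw [hrdef]; positivity
  have he0 : 0 ≤ e := by rw [hedef]; positivity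
  have heval : e = (1 / 2) ^ t / 256 := by rw [hedef, pow_add]; norm_num; ring
  have ht1 : (1 / 2 : ℝ) ^ t ≤ 1 := pow_le_one₀ (by norm_num) (by norm_num)
  have hrval : r ≤ (1 / 2) ^ t / 256 := by
    rw [hrdef]
    have h5 : ((2 ^ (t + 8) : ℕ) : ℝ) ≤ z := by exact_mod_cast (by omega : 2 ^ (t + 8) ≤ z)
    rw [← h28] at h5
    push_cast at h5
    have h6 : (1 / 2 : ℝ) ^ t = 1 / 2 ^ t := by rw [one_div_pow]
    rw [h6, div_div, one_div_le_one_div (by positivity) (by positivity)]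
    linarith
  have hlev : ∀ s, s ≤ s1 + s2 → (X : ℝ) ^ 2 * (z : ℝ) ^ (s * (t + 8 + 1)) ≤ r * H := by
    intro s hs'
    have h5 := hpow s hs'
    have h6 : X ^ 2 * z ^ (s * (t + 8 + 1)) * z ≤ H := by
      refine le_trans ?_ h5
      calc X ^ 2 * z ^ (s * (t + 8 + 1)) * z ≤ X ^ 2 * z ^ (s * (t + 8 + 1)) * z ^ (4 * k + 12) :=
            Nat.mul_le_mul_left _ hz12
        _ = _ := by ring
    have h7 : (X : ℝ) ^ 2 * (z : ℝ) ^ (s * (t + 8 + 1)) * z ≤ H := by exact_mod_cast h6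
    rw [hrdef, one_div, inv_mul_eq_div, le_div_iff₀ hz0pos]
    exact h7
  have hlev1 : (X : ℝ) * (z : ℝ) ^ (s1 * (t + 8 + 1)) ≤ r * H := by
    refine le_trans ?_ (hlev s1 (by omega))
    apply mul_le_mul_of_nonneg_right _ (by positivity)
    exact_mod_cast hX2
  -- conditions on the primes above z
  have hnd : ∀ q ∈ PP z R, ∀ j, ¬ ((q : ℤ) ∣ α j * 1) := by
    intro q hq j hd
    rw [mul_one] at hd
    have h5 := TwinAll.A81.mem_PP.1 hq
    have h6 := hMF.large j q h5.2.2 hd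
    omega
  -- first moments
  have hm1 : ∀ (v : ℤ) (m : ℕ), m ≤ H →
      |(∑ n ∈ Ioc v (v + m), nu z0 z A B' n * wt z R c α β n) - m * W| ≤
        e * (Nn + 1) * H + r * H := by
    intro v m hm
    have h5 := hzb z (by omega) R X hR hX A B' hA α β univ c hc 1 0 ∅ (by simp)
      (fun q hq _ j _ => hnd q hq j) (fun q hq j _ => Or.inl (hnd q hq j)) v m
    have h6 : ∀ n : ℤ, wt z R c α β (1 * n + 0) = wt z R c α β n := by
      intro n; rw [one_mul, add_zero]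
    simp only [h6] at h5
    rw [← hWdef, ← hNdef] at h5
    refine h5.trans (add_le_add ?_ hlev1)
    rw [← hedef]
    exact mul_le_mul_of_nonneg_left (by exact_mod_cast hm) (by positivity)
  -- second moments
  have hm2 : ∀ (τ : ℤ), |τ| ≤ H → (∀ i j, α i * α j * τ + α i * β j - α j * β i ≠ 0) →
      ∀ (v : ℤ) (m : ℕ), m ≤ H →
      |(∑ n ∈ Ioc v (v + m), nu z0 z (da A) (db A B' τ) n * wt z R c α β n *
        wt z R c α β (n + τ)) - m * (W * W)| ≤ e * (Nn * Nn + 1) * H + r * H := by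
    intro τ hτ hne v m hm
    have h5 := hza z (by omega) R X hR hX (da A) (db A B' τ)
      (da_forall A (fun x => ∀ q ∈ PP z0 z, ¬ ((q : ℤ) ∣ x)) hA) α β univ c c hc hc 1 0 1 τ
      ((PP z R).filter (fun q : ℕ => ∃ i j, (q : ℤ) ∣ α i * α j * τ + α i * β j - α j * β i))
      (exc_primes hMF τ hτ hH2 (by omega) hne)
      (fun q hq _ j _ => ⟨hnd q hq j, hnd q hq j⟩)
      (fun q hq j _ => ⟨Or.inl (hnd q hq j), Or.inl (hnd q hq j)⟩)
      (fun q hq hqE i _ j _ n hn => by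
        apply hqE
        rw [Finset.mem_filter]
        refine ⟨hq, i, j, ?_⟩
        obtain ⟨hn1, hn2⟩ := hn
        rw [one_mul, add_zero] at hn1
        rw [one_mul] at hn2
        exact incomp hn1 hn2) v m
    have h6 : ∀ n : ℤ, wt z R c α β (1 * n + 0) = wt z R c α β n := by
      intro n; rw [one_mul, add_zero]
    have h7 : ∀ n : ℤ, wt z R c α β (1 * n + τ) = wt z R c α β (n + τ) := by
      intro n; rw [one_mul]
    simp only [h6, h7] at h5
    rw [← hWdef, ← hNdef] at h5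
    refine h5.trans (add_le_add ?_ (hlev s2 (by omega)))
    rw [← hedef]
    exact mul_le_mul_of_nonneg_left (by exact_mod_cast hm) (by positivity)
  -- the ratio
  obtain ⟨G, hG⟩ : ∃ G : ℤ → ℝ, G = fun t => ∏ q ∈ (PP z0 z).filter
    (fun q : ℕ => ∃ i j, (q : ℤ) ∣ A i * A j * t + A i * B' j - A j * B' i),
    (1 + ((2 * k : ℕ) : ℝ) / q) := ⟨_, rfl⟩
  have hGone : ∀ t, 1 ≤ G t := by
    intro t
    rw [hG]
    have : (1 : ℝ) = ∏ q ∈ (PP z0 z).filter
      (fun q : ℕ => ∃ i j, (q : ℤ) ∣ A i * A j * t + A i * B' j - A j * B' i), (1 : ℝ) := by simp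
    rw [this]
    refine Finset.prod_le_prod (fun _ _ => zero_le_one) (fun q _ => ?_)
    have : (0 : ℝ) ≤ ((2 * k : ℕ) : ℝ) / q := by positivity
    linarith
  have hGpow : ∀ t, G t ^ 2 ≤ ∏ q ∈ (PP z0 z).filter
      (fun q : ℕ => ∃ i j, (q : ℤ) ∣ A i * A j * t + A i * B' j - A j * B' i),
      (1 + (((1 + 2 * k) ^ 2 : ℕ) : ℝ) / q) := by
    intro t
    rw [hG]
    exact prod_pow_factor (2 * k) 2 _ (fun q hq =>
      (TwinAll.A81.mem_PP.1 (Finset.mem_filter.1 hq).1).2.2.one_le)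
  obtain ⟨δ, hδdef⟩ : ∃ δ : ℝ, δ = 4 * (k : ℝ) ^ 2 / z0 := ⟨_, rfl⟩
  have hz0R : (0 : ℝ) < z0 := by exact_mod_cast (by omega : 0 < z0)
  have hδ0 : 0 ≤ δ := by rw [hδdef]; positivity
  have hδ1 : δ ≤ (1 / 2) ^ t / 16 := by
    rw [hδdef, div_le_iff₀ hz0R]
    have h5 : (M1 : ℝ) ≤ z0 := by exact_mod_cast (by omega : M1 ≤ z0)
    have h6 : (1 / 2 : ℝ) ^ t = 1 / 2 ^ t := by rw [one_div_pow]
    have h7 : (0 : ℝ) < 2 ^ t := by positivity
    rw [h6, div_div, one_div, inv_mul_eq_div, le_div_iff₀ (by positivity)]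
    nlinarith
  -- abbreviations
  obtain ⟨T, hT⟩ : ∃ T : Finset ℤ, T = Finset.Ioo (-(H : ℤ)) H := ⟨_, rfl⟩
  obtain ⟨Ne, hNe⟩ : ∃ Ne : ℤ → Prop, Ne = fun t : ℤ =>
    (∀ i j, A i * A j * t + A i * B' j - A j * B' i ≠ 0) ∧
    (∀ i j, α i * α j * t + α i * β j - α j * β i ≠ 0) := ⟨_, rfl⟩
  rw [← hT]
  have hcardT : (T.card : ℝ) ≤ 2 * H := by
    have h5 : T.card ≤ 2 * H := by
      rw [hT, Int.card_Ioo]
      omega
    have h6 : (T.card : ℝ) ≤ ((2 * H : ℕ) : ℝ) := by exact_mod_cast h5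
    push_cast at h6
    exact h6
  have hcardNe : ((T.filter Ne).card : ℝ) ≤ 2 * H :=
    le_trans (by exact_mod_cast Finset.card_filter_le _ _) hcardT
  have hcardExc : ((T.filter (fun t => ¬ Ne t)).card : ℝ) ≤ (k : ℝ) ^ 2 + (K : ℝ) ^ 2 := by
    have h5 := exc_card A B' hA0 H
    have h6 := exc_card α β hα0 H
    have h7 : T.filter (fun t => ¬ Ne t) ⊆
        (T.filter (fun t : ℤ => ¬ ∀ i j, A i * A j * t + A i * B' j - A j * B' i ≠ 0)) ∪
        (T.filter (fun t : ℤ => ¬ ∀ i j, α i * α j * t + α i * β j - α j * β i ≠ 0)) := by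
      intro τ hτ
      rw [Finset.mem_filter, hNe] at hτ
      rw [Finset.mem_union, Finset.mem_filter, Finset.mem_filter]
      by_cases h8 : ∀ i j, A i * A j * τ + A i * B' j - A j * B' i ≠ 0
      · exact Or.inr ⟨hτ.1, fun h9 => hτ.2 ⟨h8, h9⟩⟩
      · exact Or.inl ⟨hτ.1, h8⟩
    have h8 := (Finset.card_le_card h7).trans (Finset.card_union_le _ _)
    rw [← hT] at h5 h6
    have h9 : (T.filter (fun t => ¬ Ne t)).card ≤ k ^ 2 + K ^ 2 := by omega
    exact_mod_cast h9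
  have havg2 : ∑ τ ∈ T.filter Ne, (G τ ^ 2 - 1) ≤ (1 / 2 : ℝ) ^ t / 64 * (H : ℝ) := by
    have h5 := hzc z (by omega) A B' hAB H hzH hH2
    rw [← hT] at h5
    refine le_trans ?_ h5
    have h6 : T.filter Ne ⊆ T.filter
        (fun t : ℤ => ∀ i j, A i * A j * t + A i * B' j - A j * B' i ≠ 0) := by
      intro τ hτ
      rw [Finset.mem_filter, hNe] at hτ
      rw [Finset.mem_filter]
      exact ⟨hτ.1, hτ.2.1⟩
    refine le_trans (Finset.sum_le_sum (fun τ _ => ?_))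
      (Finset.sum_le_sum_of_subset_of_nonneg h6 (fun τ _ _ => ?_))
    · have := hGpow τ
      linarith
    · have h7 := hGpow τ
      have h8 := hGone τ
      nlinarith
  -- pointwise bound for nuw on the interval
  have hVinv : (VV z0 z A B')⁻¹ ≤ (z : ℝ) ^ k := TwinAll.VV_inv_le hk1 hz0z A B' hA
  have hnu_le : ∀ n, nu z0 z A B' n ≤ (z : ℝ) ^ k :=
    fun n => (TwinAll.nu_le hk1 A B' hA n).trans hVinv
  have hnu_nn : ∀ n, 0 ≤ nu z0 z A B' n := fun n => TwinAll.A81.nu_nonneg _ _ _ _ _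
  have hW0 : 0 < W := by linarith
  have hsup : ∀ n ∈ Ioc u (u + H), |nuw z0 z R A B' c α β n - 1| ≤ (z : ℝ) ^ (k + 2) := by
    intro n hn
    rw [Finset.mem_Ioc] at hn
    have hn2 : n ≤ (z : ℤ) ^ (B + 1) := by
      have h5 : (H : ℤ) ≤ (z : ℤ) ^ B := by exact_mod_cast hH2
      have h6 : (2 : ℤ) ≤ z := by exact_mod_cast (by omega : 2 ≤ z)
      have h7 : (0 : ℤ) ≤ (z : ℤ) ^ B := by positivity
      rw [pow_succ]
      nlinarith
    have h5 := hzd z (by omega) z0 R C1 c α β hMF hc.bd n (by omega) hn2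
    have h6 : |nuw z0 z R A B' c α β n| ≤ (z : ℝ) ^ k * z := by
      unfold nuw
      rw [abs_div, abs_mul, abs_of_nonneg (hnu_nn n), ← hWdef, abs_of_pos hW0,
        div_le_iff₀ hW0]
      have h7 : (M4 : ℝ) ≤ z := by exact_mod_cast (by omega : M4 ≤ z)
      have h8 : |wt z R c α β n| ≤ z / 2 := by
        have h9 : K * (B + 1 + 1) = K * (B + 2) := by ring
        rw [h9] at h5
        linarith
      calc nu z0 z A B' n * |wt z R c α β n| ≤ (z : ℝ) ^ k * (z / 2) :=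
            mul_le_mul (hnu_le n) h8 (abs_nonneg _) (by positivity)
        _ = (z : ℝ) ^ k * z * (1 / 2) := by ring
        _ ≤ (z : ℝ) ^ k * z * W := mul_le_mul_of_nonneg_left hW (by positivity)
    have h10 : (1 : ℝ) ≤ (z : ℝ) ^ k * z := by
      have := one_le_pow₀ hzR (n := k)
      nlinarith
    have h11 : (2 : ℝ) ≤ z := by exact_mod_cast (by omega : 2 ≤ z)
    have h12 := abs_sub (nuw z0 z R A B' c α β n) 1
    rw [abs_one] at h12
    calc |nuw z0 z R A B' c α β n - 1| ≤ (z : ℝ) ^ k * z + 1 := by linarith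
      _ ≤ (z : ℝ) ^ k * z * 2 := by linarith
      _ ≤ (z : ℝ) ^ k * z * z := mul_le_mul_of_nonneg_left h11 (by positivity)
      _ = (z : ℝ) ^ (k + 2) := by ring
  -- the sum
  rw [← Finset.sum_filter_add_sum_filter_not T Ne]
  have hpartA : ∑ τ ∈ T.filter Ne,
      (∑ n ∈ (Finset.Ioc u (u + H)).filter (fun n => n + τ ∈ Finset.Ioc u (u + H)),
        (nuw z0 z R A B' c α β n - 1) * (nuw z0 z R A B' c α β (n + τ) - 1)) ^ 2 ≤
      (1 / 2) ^ t / 2 * (Nn + 1) ^ 8 * (H : ℝ) ^ 3 := by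
    have h5 : ∀ τ ∈ T.filter Ne,
        (∑ n ∈ (Finset.Ioc u (u + H)).filter (fun n => n + τ ∈ Finset.Ioc u (u + H)),
          (nuw z0 z R A B' c α β n - 1) * (nuw z0 z R A B' c α β (n + τ) - 1)) ^ 2 ≤
        (H : ℝ) ^ 2 * (Nn + 1) ^ 4 * (8 * (G τ ^ 2 - 1) + 2 * (δ + 8 * (e + r)) ^ 2) := by
      intro τ hτ
      rw [Finset.mem_filter, hNe, hT] at hτ
      obtain ⟨hτT, hτ1, hτ2⟩ := hτ
      have hτabs : |τ| ≤ H := by
        rw [Finset.mem_Ioo] at hτT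
        rw [abs_le]; constructor <;> linarith [hτT.1, hτT.2]
      have hmH : H - τ.natAbs ≤ H := Nat.sub_le _ _
      rw [interval_eq u τ H hτT]
      obtain ⟨v, hv⟩ : ∃ v : ℤ, v = u + max 0 (-τ) := ⟨_, rfl⟩
      obtain ⟨m, hm⟩ : ∃ m : ℕ, m = H - τ.natAbs := ⟨_, rfl⟩
      rw [← hv, ← hm]
      rw [← hm] at hmH
      have hrep : ∑ n ∈ Ioc v (v + m),
          (nuw z0 z R A B' c α β n - 1) * (nuw z0 z R A B' c α β (n + τ) - 1) =
          VV z0 z (da A) (db A B' τ) / VV z0 z A B' ^ 2 *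
            (∑ n ∈ Ioc v (v + m), nu z0 z (da A) (db A B' τ) n * wt z R c α β n *
              wt z R c α β (n + τ)) / W ^ 2 -
          (∑ n ∈ Ioc v (v + m), nu z0 z A B' n * wt z R c α β n) / W -
          (∑ n ∈ Ioc (v + τ) (v + τ + m), nu z0 z A B' n * wt z R c α β n) / W + m := by
        rw [← sum_shift (fun n => nu z0 z A B' n * wt z R c α β n) v τ m]
        have h6 : ∀ n ∈ Ioc v (v + m),
            (nuw z0 z R A B' c α β n - 1) * (nuw z0 z R A B' c α β (n + τ) - 1) =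
            VV z0 z (da A) (db A B' τ) / VV z0 z A B' ^ 2 *
              (nu z0 z (da A) (db A B' τ) n * wt z R c α β n * wt z R c α β (n + τ)) / W ^ 2 -
            nu z0 z A B' n * wt z R c α β n / W -
            nu z0 z A B' (n + τ) * wt z R c α β (n + τ) / W + 1 := by
          intro n _
          have h7 := nu_mul_nu hk2 A B' hA n τ
          unfold nuw
          rw [← hWdef]
          have h8 : VV z0 z (da A) (db A B' τ) / VV z0 z A B' ^ 2 *
              (nu z0 z (da A) (db A B' τ) n * wt z R c α β n * wt z R c α β (n + τ)) / W ^ 2 =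
              (nu z0 z A B' n * nu z0 z A B' (n + τ)) * (wt z R c α β n * wt z R c α β (n + τ)) /
                W ^ 2 := by
            rw [h7]; ring
          rw [h8]
          field_simp
          ring
        rw [Finset.sum_congr rfl h6, Finset.sum_add_distrib, Finset.sum_sub_distrib,
          Finset.sum_sub_distrib, ← Finset.sum_div, ← Finset.sum_div, ← Finset.sum_div,
          ← Finset.mul_sum, Finset.sum_const, Int.card_Ioc, nsmul_eq_mul, mul_one]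
        congr 2
        simp
      rw [hrep]
      have hSpos : 0 ≤ VV z0 z (da A) (db A B' τ) / VV z0 z A B' ^ 2 :=
        div_nonneg (TwinAll.A81.VV_nonneg _ _ _ _) (sq_nonneg _)
      refine arith hH0 (Nat.cast_nonneg m) (by exact_mod_cast hmH) hW hNn (hGone τ) ?_ ?_ hSpos
        hδ0 he0 hr0 ?_ (hm2 τ hτabs hτ2 v m hmH) (hm1 v m hmH) (hm1 (v + τ) m hmH)
      · rw [hG]; exact ratio_le hk2 A B' hA τ
      · rw [hδdef]; exact ratio_ge hk2 (by omega) A B' hA τ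
      · rw [heval]; linarith
    refine (Finset.sum_le_sum h5).trans ?_
    rw [← Finset.mul_sum, Finset.sum_add_distrib, ← Finset.mul_sum, Finset.sum_const,
      nsmul_eq_mul]
    have hρ : (δ + 8 * (e + r)) ^ 2 ≤ (1 / 2) ^ t / 64 := by
      have h6 : δ + 8 * (e + r) ≤ (1 / 2) ^ t / 8 := by rw [heval]; linarith
      have h7 : 0 ≤ δ + 8 * (e + r) := by positivity
      calc (δ + 8 * (e + r)) ^ 2 ≤ ((1 / 2) ^ t / 8) ^ 2 := pow_le_pow_left₀ h7 h6 2
        _ = (1 / 2) ^ t * (1 / 2) ^ t / 64 := by ring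
        _ ≤ (1 / 2) ^ t * 1 / 64 := by
          apply div_le_div_of_nonneg_right _ (by norm_num)
          exact mul_le_mul_of_nonneg_left ht1 ht0.le
        _ = (1 / 2) ^ t / 64 := by ring
    have h8 : 8 * (∑ τ ∈ T.filter Ne, (G τ ^ 2 - 1)) +
        ((T.filter Ne).card : ℝ) * (2 * (δ + 8 * (e + r)) ^ 2) ≤
          (1 / 2 : ℝ) ^ t / 2 * (H : ℝ) := by
      have h9 : ((T.filter Ne).card : ℝ) * (2 * (δ + 8 * (e + r)) ^ 2) ≤
          (2 * H) * (2 * ((1 / 2) ^ t / 64)) :=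
        mul_le_mul hcardNe (by linarith) (by positivity) (by positivity)
      have h10 : 0 ≤ (1 / 2 : ℝ) ^ t * H := by positivity
      nlinarith
    have h11 : (Nn + 1) ^ 4 ≤ (Nn + 1) ^ 8 :=
      pow_le_pow_right₀ (by linarith) (by norm_num)
    calc (H : ℝ) ^ 2 * (Nn + 1) ^ 4 * (8 * (∑ τ ∈ T.filter Ne, (G τ ^ 2 - 1)) +
          ((T.filter Ne).card : ℝ) * (2 * (δ + 8 * (e + r)) ^ 2))
        ≤ (H : ℝ) ^ 2 * (Nn + 1) ^ 4 * ((1 / 2) ^ t / 2 * H) :=
          mul_le_mul_of_nonneg_left h8 (by positivity)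
      _ = (Nn + 1) ^ 4 * ((1 / 2) ^ t / 2 * (H : ℝ) ^ 3) := by ring
      _ ≤ (Nn + 1) ^ 8 * ((1 / 2) ^ t / 2 * (H : ℝ) ^ 3) :=
          mul_le_mul_of_nonneg_right h11 (by positivity)
      _ = _ := by ring
  have hpartB : ∑ τ ∈ T.filter (fun τ => ¬ Ne τ),
      (∑ n ∈ (Finset.Ioc u (u + H)).filter (fun n => n + τ ∈ Finset.Ioc u (u + H)),
        (nuw z0 z R A B' c α β n - 1) * (nuw z0 z R A B' c α β (n + τ) - 1)) ^ 2 ≤
      (1 / 2) ^ t / 2 * (Nn + 1) ^ 8 * (H : ℝ) ^ 3 := by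
    have h5 : ∀ τ ∈ T.filter (fun τ => ¬ Ne τ),
        (∑ n ∈ (Finset.Ioc u (u + H)).filter (fun n => n + τ ∈ Finset.Ioc u (u + H)),
          (nuw z0 z R A B' c α β n - 1) * (nuw z0 z R A B' c α β (n + τ) - 1)) ^ 2 ≤
        (H * (z : ℝ) ^ (2 * k + 4)) ^ 2 := by
      intro τ _
      rw [← sq_abs]
      apply pow_le_pow_left₀ (abs_nonneg _)
      refine (Finset.abs_sum_le_sum_abs _ _).trans ?_
      have h6 : ∀ n ∈ (Finset.Ioc u (u + H)).filter (fun n => n + τ ∈ Finset.Ioc u (u + H)),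
          |(nuw z0 z R A B' c α β n - 1) * (nuw z0 z R A B' c α β (n + τ) - 1)| ≤
          (z : ℝ) ^ (2 * k + 4) := by
        intro n hn
        rw [Finset.mem_filter] at hn
        rw [abs_mul, show 2 * k + 4 = (k + 2) + (k + 2) by ring, pow_add]
        exact mul_le_mul (hsup n hn.1) (hsup (n + τ) hn.2) (abs_nonneg _) (by positivity)
      refine (Finset.sum_le_card_nsmul _ _ _ h6).trans ?_
      rw [nsmul_eq_mul]
      apply mul_le_mul_of_nonneg_right _ (by positivity)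
      have h7 := Finset.card_filter_le (Finset.Ioc u (u + H))
        (fun n => n + τ ∈ Finset.Ioc u (u + H))
      rw [Int.card_Ioc] at h7
      have h8 : (u + H - u).toNat = H := by simp
      rw [h8] at h7
      exact_mod_cast h7
    refine (Finset.sum_le_card_nsmul _ _ _ h5).trans ?_
    rw [nsmul_eq_mul]
    refine (mul_le_mul_of_nonneg_right hcardExc (by positivity)).trans ?_
    have h7 : ((k : ℝ) ^ 2 + (K : ℝ) ^ 2) * (z : ℝ) ^ (4 * k + 8) ≤ (1 / 2) ^ t / 2 * H := by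
      have h8 : (k : ℝ) ^ 2 + (K : ℝ) ^ 2 ≤ z := by
        exact_mod_cast (by omega : k ^ 2 + K ^ 2 ≤ z)
      have h9 : ((z ^ (4 * k + 12) : ℕ) : ℝ) ≤ H := by exact_mod_cast hHz
      push_cast at h9
      have h10 : (2 : ℝ) * 2 ^ t ≤ z := by
        exact_mod_cast (by omega : 2 * 2 ^ t ≤ z)
      have h6 : (1 / 2 : ℝ) ^ t = 1 / 2 ^ t := by rw [one_div_pow]
      have h11 : (z : ℝ) * (z : ℝ) ^ (4 * k + 8) * (2 * 2 ^ t) ≤ H := by
        calc (z : ℝ) * (z : ℝ) ^ (4 * k + 8) * (2 * 2 ^ t) ≤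
              (z : ℝ) * (z : ℝ) ^ (4 * k + 8) * z := mul_le_mul_of_nonneg_left h10 (by positivity)
          _ = (z : ℝ) ^ (4 * k + 10) := by ring
          _ ≤ (z : ℝ) ^ (4 * k + 12) := pow_le_pow_right₀ hzR (by omega)
          _ ≤ H := h9
      have h12 : (1 / 2 : ℝ) ^ t / 2 * H = H / (2 * 2 ^ t) := by rw [h6]; field_simp
      rw [h12, le_div_iff₀ (by positivity)]
      refine le_trans ?_ h11
      apply mul_le_mul_of_nonneg_right _ (by positivity)
      exact mul_le_mul_of_nonneg_right h8 (by positivity)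
    have h13 : 1 ≤ (Nn + 1) ^ 8 := one_le_pow₀ (by linarith)
    calc ((k : ℝ) ^ 2 + (K : ℝ) ^ 2) * (H * (z : ℝ) ^ (2 * k + 4)) ^ 2
        = (H : ℝ) ^ 2 * (((k : ℝ) ^ 2 + (K : ℝ) ^ 2) * (z : ℝ) ^ (4 * k + 8)) := by
          rw [mul_pow, ← pow_mul]; ring
      _ ≤ (H : ℝ) ^ 2 * ((1 / 2) ^ t / 2 * H) := mul_le_mul_of_nonneg_left h7 (by positivity)
      _ = 1 * ((1 / 2) ^ t / 2 * (H : ℝ) ^ 3) := by ring
      _ ≤ (Nn + 1) ^ 8 * ((1 / 2) ^ t / 2 * (H : ℝ) ^ 3) :=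
          mul_le_mul_of_nonneg_right h13 (by positivity)
      _ = _ := by ring
  calc _ ≤ (1 / 2) ^ t / 2 * (Nn + 1) ^ 8 * (H : ℝ) ^ 3 +
        (1 / 2) ^ t / 2 * (Nn + 1) ^ 8 * (H : ℝ) ^ 3 := add_le_add hpartA hpartB
    _ = (1 / 2) ^ t * (wnorm z R c + 1) ^ 8 * (H : ℝ) ^ 3 := by rw [hNdef]; ring

end Pool.Agent.Lib.MT2
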