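import Pool.Agent.Lib.MT2.StmtsD
import Pool.Agent.Lib.TwinAll.S4x69

/-!
MT2 (D), module S4r: exponential sums of the normalised indicator of rough forms, with rate, from
the correlations S3w with weight one.
-/

set_option autoImplicit false

namespace Pool.Agent.Lib.MT2

open Finset
open Pool.Agent.Lib.TwinAll (PP Rough om VV nu ee)

namespace T95

lemma cond0 (D : Cond 0) : D = ∅ := by
  apply Finset.eq_empty_of_forall_notMem
  rintro ⟨_, i⟩ _
  exact i.elim0

lemma PI0 (z R : ℕ) : (PI z R 0) = ∅ := cond0 _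

lemma wmean0 (z R : ℕ) : wmean (K := 0) z R (fun _ => 1) = 1 := by
  unfold wmean
  rw [PI0]
  simp [md]

lemma wnorm0 (z R : ℕ) : wnorm (K := 0) z R (fun _ => 1) = 1 := by
  unfold wnorm
  rw [PI0]
  simp [md]

lemma wt0 (z R : ℕ) (α β : Fin 0 → ℤ) (U : ℤ) : wt z R (fun _ => 1) α β U = 1 := by
  unfold wt
  rw [PI0]
  have h : Holds α β (∅ : Cond 0) U := fun x hx => absurd hx (Finset.notMem_empty x)
  rw [Finset.powerset_empty, Finset.sum_singleton, if_pos h, mul_one]

lemma nuw0 {k : ℕ} (z0 z R : ℕ) (a b : Fin k → ℤ) (α β : Fin 0 → ℤ) (n : ℤ) :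
    nuw z0 z R a b (fun _ => 1) α β n = nu z0 z a b n := by
  unfold nuw
  rw [wt0, wmean0]
  simp

/-- shift of the variable -/
lemma nu_shift (hV : VVAStmt) {k : ℕ} (z0 z : ℕ) (a b : Fin k → ℤ) (u n : ℤ) :
    nu z0 z a (fun j => a j * u + b j) n = nu z0 z a b (n + u) := by
  have h1 : VV z0 z a (fun j => a j * u + b j) = VV z0 z a b := by
    apply hV
    intro q hq
    refine ⟨1, u, ?_, fun n => ?_⟩
    · intro hd
      have hqp : q.Prime := by
        unfold PP at hq
        exact (Finset.mem_filter.1 hq).2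
      have h2 := Int.eq_one_of_dvd_one (by positivity) hd
      have h3 : q = 1 := by exact_mod_cast h2
      exact hqp.one_lt.ne' h3
    · constructor
      · rintro ⟨j, hj⟩
        refine ⟨j, ?_⟩
        have e : a j * (1 * n + u) + b j = a j * n + (a j * u + b j) := by ring
        rwa [e]
      · rintro ⟨j, hj⟩
        refine ⟨j, ?_⟩
        have e : a j * (1 * n + u) + b j = a j * n + (a j * u + b j) := by ring
        rwa [e] at hj
  unfold nu
  rw [h1]
  have h2 : (∀ j, Rough z0 z (a j * n + (a j * u + b j))) ↔ ∀ j, Rough z0 z (a j * (n + u) + b j) := by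
    constructor
    · intro h j
      have e : a j * (n + u) + b j = a j * n + (a j * u + b j) := by ring
      rw [e]; exact h j
    · intro h j
      have e : a j * (n + u) + b j = a j * n + (a j * u + b j) := by ring
      rw [← e]; exact h j
  by_cases h3 : ∀ j, Rough z0 z (a j * (n + u) + b j)
  · rw [if_pos h3, if_pos (h2.2 h3)]
  · rw [if_neg h3, if_neg (fun h => h3 (h2.1 h))]

end T95

open T95 in
/-- Module S4r. -/
theorem s4r_95 (h3 : S3wStmt) (hV : VVAStmt) : S4rStmt := by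
  intro k
  obtain ⟨s0, h⟩ := h3 k 0
  refine ⟨10 * s0, fun t => ?_⟩
  obtain ⟨zs, hzs⟩ := h (4 * t + 9)
  refine ⟨zs, fun z0 hz0 B => ?_⟩
  obtain ⟨z1, hz1⟩ := hzs z0 hz0 0 (2 * B + 1) 0 1
  refine ⟨max z1 2, fun z hz a b hab u H hu hH1 hH2 θ => ?_⟩
  have hz2 : 2 ≤ z := (le_max_right _ _).trans hz
  have hz2' : (2 : ℤ) ≤ z := by exact_mod_cast hz2
  have hzB : (1 : ℤ) ≤ (z : ℤ) ^ B := one_le_pow₀ (by linarith)
  have key := hz1 z ((le_max_left _ _).trans hz) 1 1 (by simp) (by simp) a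
    (fun j => a j * u + b j)
    (by
      intro j
      obtain ⟨h1, h2, h3⟩ := hab j
      have hpow : (z : ℤ) ^ (2 * B + 1) = (z : ℤ) ^ B * (z : ℤ) ^ B * z := by
        rw [pow_succ, two_mul, pow_add]
      refine ⟨?_, ?_, h3⟩
      · rw [hpow]
        calc |a j| ≤ (z : ℤ) ^ B := h1
          _ = (z : ℤ) ^ B * 1 * 1 := by ring
          _ ≤ (z : ℤ) ^ B * (z : ℤ) ^ B * z := by gcongr; linarith
      · rw [hpow]
        calc |a j * u + b j| ≤ |a j * u| + |b j| := abs_add_le _ _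
          _ = |a j| * |u| + |b j| := by rw [abs_mul]
          _ ≤ (z : ℤ) ^ B * (z : ℤ) ^ B + (z : ℤ) ^ B := by gcongr
          _ ≤ (z : ℤ) ^ B * (z : ℤ) ^ B * 2 := by nlinarith
          _ ≤ (z : ℤ) ^ B * (z : ℤ) ^ B * z := by gcongr)
    (fun i => i.elim0) (fun i => i.elim0)
    ⟨fun i => i.elim0, fun i => i.elim0, fun i => i.elim0, fun i => i.elim0, fun i => i.elim0,
      fun i => i.elim0⟩
    (fun _ => 1)
    ⟨fun _ => by simp, fun D _ => by rw [cond0 D]; intro x hx; simp at hx,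
      fun D _ => by rw [cond0 D]; simp [md], fun D _ x _ => Finset.mem_univ _⟩
    (by rw [wmean0]; norm_num) 0 H le_rfl (by positivity)
    (by
      rw [one_pow, one_mul]
      refine le_trans (Nat.pow_le_pow_right (by omega) ?_) hH1
      nlinarith)
    (hH2.trans (Nat.pow_le_pow_right (by omega) (by omega)))
  rw [wnorm0] at key
  simp only [nuw0] at key
  have h5 := TwinAll.expsum_le69 (fun n => nu z0 z a (fun j => a j * u + b j) n - 1) 0 H θ
  have h6 : ‖∑ n ∈ Finset.Ioc (0 : ℤ) (0 + H),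
      ((nu z0 z a (fun j => a j * u + b j) n - 1 : ℝ) : ℂ) * ee (θ * n)‖ ^ 4 ≤
      ((1 / 2) ^ t * (H : ℝ)) ^ 4 := by
    refine le_trans h5 ?_
    calc 2 * (H : ℝ) * ∑ τ ∈ Finset.Ioo (-(H : ℤ)) H,
        (∑ n ∈ (Finset.Ioc (0 : ℤ) (0 + H)).filter (fun n => n + τ ∈ Finset.Ioc (0 : ℤ) (0 + H)),
          (nu z0 z a (fun j => a j * u + b j) n - 1) *
            (nu z0 z a (fun j => a j * u + b j) (n + τ) - 1)) ^ 2
        ≤ 2 * (H : ℝ) * ((1 / 2) ^ (4 * t + 9) * (1 + 1) ^ 8 * (H : ℝ) ^ 3) :=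
          mul_le_mul_of_nonneg_left key (by positivity)
      _ = ((1 / 2) ^ t * (H : ℝ)) ^ 4 := by
          rw [mul_pow, ← pow_mul, pow_add, mul_comm t 4]
          ring
  have h7 := le_of_pow_le_pow_left₀ (by norm_num) (by positivity) h6
  refine le_trans (le_of_eq ?_) h7
  have h8 : ∑ n ∈ Finset.Ioc u (u + H), ((nu z0 z a b n - 1 : ℝ) : ℂ) * ee (θ * n) =
      ee (θ * u) * ∑ n ∈ Finset.Ioc (0 : ℤ) (0 + H),
        ((nu z0 z a (fun j => a j * u + b j) n - 1 : ℝ) : ℂ) * ee (θ * n) := by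
    rw [Finset.mul_sum]
    refine Finset.sum_nbij' (fun n => n - u) (fun n => n + u) ?_ ?_ ?_ ?_ ?_
    · intro n hn
      rw [Finset.mem_Ioc] at hn ⊢
      omega
    · intro n hn
      rw [Finset.mem_Ioc] at hn ⊢
      omega
    · intro n _; ring
    · intro n _; ring
    · intro n _
      rw [nu_shift hV, sub_add_cancel]
      have h9 : ee (θ * n) = ee (θ * u) * ee (θ * ((n - u : ℤ) : ℝ)) := by
        rw [← TwinAll.ee_add69]
        congr 1
        push_cast; ring
      rw [h9]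
      ring
  rw [h8, norm_mul, TwinAll.ee_norm69, one_mul]

end Pool.Agent.Lib.MT2
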