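import Mathlib
import Pool.Agent.Lib.MT2.Trans49
import Pool.Agent.Lib.MT2.StmtsD
import Pool.Agent.Lib.MT2.Rates82
import Pool.Agent.Lib.MT2.VV39
import Pool.Agent.Lib.MT2.Small39

/-!
Module TRG: the skeleton of TRANS for an arbitrary complex function `Φ`.
-/

set_option autoImplicit false

namespace Pool.Agent.Lib.MT2.Trans49

open Finset
open Pool.Agent.Lib.TwinAll (PP Rough om VV nu ee)

/-- sizes: the dyadic scale, `Y_i ≤ √n1` -/
lemma sizes2 {z B s5 E H C0 : ℕ} {n1 a0 b0 : ℤ} (hz : 8 * C0 + 100 ≤ z) (ha0 : 0 < a0)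
    (haC : a0 ≤ C0) (hb0 : |b0| ≤ C0) (hn1 : n1 = a0 * H + b0)
    (hH1 : z ^ B ≤ H) (hH2 : H ≤ z ^ (B + 1)) (hB : 4 * s5 ≤ B) (hB2 : 16 ≤ B)
    (hE : E + 2 ≤ s5) :
    ∃ n : ℕ, n1 ≤ ((2 ^ (n + 1) * z ^ s5 : ℕ) : ℤ) ^ 2 ∧
      (2 ^ (n + 1) * z ^ s5) * z ^ (E + 3) ≤ H ∧
      (((n + 1 : ℕ) : ℝ) ≤ 3 * ((B : ℝ) + 1) * Real.log z) ∧
      (n1 ≤ (z : ℤ) ^ (B + 2)) ∧ (0 < n1) ∧ (n1 ≤ 2 * a0 * H) ∧
      (∀ i : ℕ, i ≤ n → z ^ B ≤ 4 * (n1.toNat / (2 ^ i * z ^ s5)) ^ 2 ∧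
        2 ^ i * z ^ s5 ≤ 4 * (n1.toNat / (2 ^ i * z ^ s5)) ∧
        a0 * H ≤ 4 * (((2 ^ i * z ^ s5) * (n1.toNat / (2 ^ i * z ^ s5)) : ℕ) : ℤ)) := by
  have hb := abs_le.1 hb0
  have hzZ : (8 * (C0 : ℤ) + 100 ≤ z) := by exact_mod_cast hz
  have hH1Z : (z : ℤ) ^ B ≤ H := by exact_mod_cast hH1
  have hH2Z : (H : ℤ) ≤ (z : ℤ) ^ (B + 1) := by exact_mod_cast hH2
  have hz0 : (0 : ℤ) < z := by omega
  have hz1 : (1 : ℤ) ≤ z := by omega
  have hzB : (z : ℤ) ≤ (z : ℤ) ^ B := by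
    calc (z : ℤ) = (z : ℤ) ^ 1 := (pow_one _).symm
      _ ≤ (z : ℤ) ^ B := pow_le_pow_right₀ hz1 (by omega)
  have haH : (z : ℤ) ^ B ≤ a0 * H := by nlinarith
  have hn1low0 : a0 * H - C0 ≤ n1 := by rw [hn1]; linarith
  have hn1low : (z : ℤ) ^ B - C0 ≤ n1 := by linarith
  have hn1pos : 0 < n1 := by omega
  have hn1up : n1 ≤ 2 * a0 * H := by
    rw [hn1]
    nlinarith
  have hn1up2 : n1 ≤ (z : ℤ) ^ (B + 2) := by
    have h1 : 2 * a0 * (H : ℤ) ≤ z * H := by nlinarith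
    calc n1 ≤ 2 * a0 * H := hn1up
      _ ≤ z * H := h1
      _ ≤ z * (z : ℤ) ^ (B + 1) := by nlinarith
      _ = (z : ℤ) ^ (B + 2) := by ring
  have hn1low2 : (z : ℤ) ^ (B - 1) ≤ n1 := by
    have h1 : (z : ℤ) ^ B = z * (z : ℤ) ^ (B - 1) := by
      rw [← pow_succ']
      congr 1
      omega
    have h2 : (1 : ℤ) ≤ (z : ℤ) ^ (B - 1) := one_le_pow₀ hz1
    nlinarith
  set N := n1.toNat with hN
  have hNZ : ((N : ℕ) : ℤ) = n1 := Int.toNat_of_nonneg hn1pos.le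
  have hN1 : 1 ≤ N := by omega
  set w := z ^ s5 with hw
  have hwpos : 0 < w := pow_pos (by omega) _
  have hww : w ^ 2 ≤ N := by
    have h1 : z ^ (B - 1) ≤ N := by
      have h2 : ((z ^ (B - 1) : ℕ) : ℤ) ≤ (N : ℤ) := by
        rw [hNZ]; push_cast; exact hn1low2
      exact_mod_cast h2
    calc w ^ 2 = z ^ (s5 * 2) := by rw [hw, ← pow_mul]
      _ ≤ z ^ (B - 1) := Nat.pow_le_pow_right (by omega) (by omega)
      _ ≤ N := h1
  have hsq1 : (1 : ℝ) ≤ Real.sqrt N / w := by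
    rw [le_div_iff₀ (by exact_mod_cast hwpos), one_mul]
    apply Real.le_sqrt_of_sq_le
    exact_mod_cast hww
  obtain ⟨n, hna, hnb⟩ := exists_nat_pow_near hsq1 (one_lt_two : (1 : ℝ) < 2)
  have hwR : (0 : ℝ) < w := by exact_mod_cast hwpos
  have hna' : (2 ^ n * w) ^ 2 ≤ N := by
    rw [le_div_iff₀ hwR] at hna
    have h1 : ((2 : ℝ) ^ n * w) ^ 2 ≤ (Real.sqrt N) ^ 2 := pow_le_pow_left₀ (by positivity) hna 2
    rw [Real.sq_sqrt (by positivity)] at h1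
    exact_mod_cast h1
  have hnb' : N < (2 ^ (n + 1) * w) ^ 2 := by
    rw [div_lt_iff₀ hwR] at hnb
    have h1 : (Real.sqrt N) ^ 2 < ((2 : ℝ) ^ (n + 1) * w) ^ 2 :=
      pow_lt_pow_left₀ hnb (Real.sqrt_nonneg _) (by norm_num)
    rw [Real.sq_sqrt (by positivity)] at h1
    exact_mod_cast h1
  refine ⟨n, ?_, ?_, ?_, hn1up2, hn1pos, hn1up, ?_⟩
  · rw [← hNZ]
    exact_mod_cast hnb'.le
  · have h1 : ((2 ^ (n + 1) * w) * z ^ (E + 3)) ^ 2 ≤ H ^ 2 := by
      have h2 : ((2 ^ (n + 1) * w) * z ^ (E + 3)) ^ 2 = 4 * (2 ^ n * w) ^ 2 * z ^ (2 * E + 6) := by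
        ring
      have h3 : 4 * (2 ^ n * w) ^ 2 ≤ z * H := by
        have h4 : (N : ℤ) ≤ 2 * a0 * H := by rw [hNZ]; exact hn1up
        have h5 : (((4 * (2 ^ n * w) ^ 2 : ℕ)) : ℤ) ≤ z * H := by
          have h6 : (((2 ^ n * w) ^ 2 : ℕ) : ℤ) ≤ (N : ℤ) := by exact_mod_cast hna'
          have h7 : (((4 * (2 ^ n * w) ^ 2 : ℕ)) : ℤ) = 4 * (((2 ^ n * w) ^ 2 : ℕ) : ℤ) := by
            push_cast; ring
          rw [h7]
          nlinarith
        exact_mod_cast h5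
      calc ((2 ^ (n + 1) * w) * z ^ (E + 3)) ^ 2 = 4 * (2 ^ n * w) ^ 2 * z ^ (2 * E + 6) := h2
        _ ≤ z * H * z ^ (2 * E + 6) := Nat.mul_le_mul_right _ h3
        _ = H * z ^ (2 * E + 7) := by ring
        _ ≤ H * z ^ B := Nat.mul_le_mul_left _ (Nat.pow_le_pow_right (by omega) (by omega))
        _ ≤ H * H := Nat.mul_le_mul_left _ hH1
        _ = H ^ 2 := by ring
    exact (Nat.pow_le_pow_iff_left (by norm_num)).1 h1
  · have hzR : (20 : ℝ) ≤ z := by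
      have : 20 ≤ z := by omega
      exact_mod_cast this
    have hlog1 : 1 ≤ Real.log z := by
      rw [Real.le_log_iff_exp_le (by linarith)]
      have := Real.exp_one_lt_d9
      linarith
    have h1 : ((2 : ℝ) ^ n) ^ 2 ≤ (z : ℝ) ^ (B + 2) := by
      have h2 : (((2 ^ n) ^ 2 : ℕ) : ℤ) ≤ (z : ℤ) ^ (B + 2) := by
        have h6 : (((2 ^ n * w) ^ 2 : ℕ) : ℤ) ≤ (N : ℤ) := by exact_mod_cast hna'
        rw [hNZ] at h6
        have h7 : ((2 ^ n) ^ 2 : ℕ) ≤ (2 ^ n * w) ^ 2 :=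
          Nat.pow_le_pow_left (Nat.le_mul_of_pos_right _ hwpos) 2
        have h8 : (((2 ^ n) ^ 2 : ℕ) : ℤ) ≤ (((2 ^ n * w) ^ 2 : ℕ) : ℤ) := by exact_mod_cast h7
        exact (h8.trans h6).trans hn1up2
      exact_mod_cast h2
    have h2 := Real.log_le_log (by positivity) h1
    rw [Real.log_pow, Real.log_pow, Real.log_pow] at h2
    have h3 : (0.69 : ℝ) ≤ Real.log 2 := by
      have := Real.log_two_gt_d9
      linarith
    have h4 : (n : ℝ) ≤ ((B : ℝ) + 2) * Real.log z := by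
      push_cast at h2
      have hn0 : (0 : ℝ) ≤ n := by positivity
      nlinarith
    push_cast
    have hB0 : (0 : ℝ) ≤ B := by positivity
    nlinarith
  · intro i hi
    set Y := 2 ^ i * w with hY
    have hYpos : 0 < Y := Nat.mul_pos (pow_pos (by norm_num) _) hwpos
    have hYN : Y ^ 2 ≤ N := by
      refine le_trans ?_ hna'
      exact Nat.pow_le_pow_left (Nat.mul_le_mul_right _ (Nat.pow_le_pow_right (by norm_num) hi)) 2
    set M := N / Y with hM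
    have hdiv : Y * M + N % Y = N := Nat.div_add_mod N Y
    have hmod : N % Y < Y := Nat.mod_lt _ hYpos
    have hYM : Y ≤ M := by
      rw [hM, Nat.le_div_iff_mul_le hYpos, ← sq]
      exact hYN
    have hNlt : N < Y * (M + 1) := by
      rw [Nat.mul_add, Nat.mul_one]
      omega
    have hzBN : z ^ B ≤ 2 * N := by
      have h2 : ((z ^ B : ℕ) : ℤ) ≤ 2 * (N : ℤ) := by
        rw [hNZ]
        push_cast
        linarith
      exact_mod_cast h2
    have hz100 : 100 ≤ z ^ B := by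
      have h1 : z ≤ z ^ B := by exact_mod_cast hzB
      omega
    have hM1 : 1 ≤ M := by omega
    have hN50 : 50 ≤ N := by omega
    have hM6 : 6 ≤ M := by
      by_contra hcon
      have h1 : M ≤ 5 := by omega
      have h2 : Y ≤ 5 := by omega
      have h3 : Y * (M + 1) ≤ 5 * 6 := Nat.mul_le_mul h2 (by omega)
      omega
    refine ⟨?_, by omega, ?_⟩
    · have h1 : N ≤ M * (M + 1) := hNlt.le.trans (Nat.mul_le_mul_right _ hYM)
      have h2 : M ≤ M * M := Nat.le_mul_self M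
      have h3 : M * (M + 1) = M * M + M := by ring
      rw [sq]
      omega
    · have h1 : (N : ℤ) ≤ (((Y * M : ℕ)) : ℤ) + Y := by
        have : N ≤ Y * M + Y := by omega
        exact_mod_cast this
      have h2 : (a0 * H : ℤ) ≤ (N : ℤ) + C0 := by rw [hNZ]; linarith
      have h3 : (C0 : ℤ) ≤ ((Y * M : ℕ) : ℤ) := by
        have h4 : C0 ≤ w := by
          calc C0 ≤ z := by omega
            _ = z ^ 1 := (pow_one z).symm
            _ ≤ z ^ s5 := Nat.pow_le_pow_right (by omega) (by omega)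
        have h5 : w ≤ Y := Nat.le_mul_of_pos_left _ (by positivity)
        have h6 : Y ≤ Y * M := Nat.le_mul_of_pos_right _ (by omega)
        have h7 : C0 ≤ Y * M := by omega
        exact_mod_cast h7
      have h4 : (Y : ℤ) ≤ ((Y * M : ℕ) : ℤ) := by
        have h6 : Y ≤ Y * M := Nat.le_mul_of_pos_right _ (by omega)
        exact_mod_cast h6
      linarith

/-- final bookkeeping -/
lemma final_ineq2 {S Q P e V H L I z' Y C0 z zE B Δ' : ℝ} (he : 0 ≤ e) (hH : 0 ≤ H) (hL : 1 ≤ L)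
    (hz : 4 ≤ z) (hzE : 1 ≤ zE) (hI : I ≤ 3 * (B + 1) * L) (hVz : 2 / z ≤ V)
    (hY : Y * (zE * z ^ 3) ≤ H) (hC0 : 2 * C0 * (zE * z ^ 3) ≤ H)
    (hz' : zE * z ^ 2 ≤ z') (hS : S ≤ Q + P + zE * (2 * (Y + C0) + (H * (1 / z') + Y)))
    (hQ : Q ≤ Δ' * (V * H)) (hP : P ≤ I * (4 * e * (V * H) * (1 / L))) :
    S ≤ (12 * (B + 1) * e + Δ' + 1 / z) * (V * H) := by
  have hz0 : 0 < z := by linarith
  have hV0 : 0 < V := lt_of_lt_of_le (by positivity) hVz
  have hzE0 : 0 < zE := by linarith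
  have hz'0 : 0 < z' := lt_of_lt_of_le (by positivity) hz'
  have hVH : 0 ≤ V * H := by positivity
  have h1 : P ≤ 12 * (B + 1) * e * (V * H) := by
    have h2 : I * (4 * e * (V * H) * (1 / L)) ≤ 3 * (B + 1) * L * (4 * e * (V * H) * (1 / L)) := by
      apply mul_le_mul_of_nonneg_right hI
      positivity
    have h3 : 3 * (B + 1) * L * (4 * e * (V * H) * (1 / L)) = 12 * (B + 1) * e * (V * H) := by
      have hL0 : L ≠ 0 := by linarith
      field_simp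
      ring
    linarith
  have h4 : zE * (2 * (Y + C0) + (H * (1 / z') + Y)) ≤ 1 / z * (V * H) := by
    have h5 : zE * (H * (1 / z')) ≤ H / z ^ 2 := by
      rw [mul_one_div, mul_div_assoc', div_le_div_iff₀ hz'0 (by positivity)]
      have := mul_le_mul_of_nonneg_left hz' hH
      linarith
    have h6 : zE * Y ≤ H / z ^ 3 := by
      rw [le_div_iff₀ (by positivity)]
      linarith
    have h7 : zE * (2 * C0) ≤ H / z ^ 3 := by
      rw [le_div_iff₀ (by positivity)]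
      linarith
    have h8 : H / z ^ 3 ≤ 1 / 4 * (H / z ^ 2) := by
      rw [div_mul_div_comm, one_mul, div_le_div_iff₀ (by positivity) (by positivity)]
      have h9 : 0 ≤ H * z ^ 2 := by positivity
      nlinarith
    have h10 : zE * (2 * (Y + C0) + (H * (1 / z') + Y)) =
        3 * (zE * Y) + zE * (2 * C0) + zE * (H * (1 / z')) := by ring
    rw [h10]
    calc 3 * (zE * Y) + zE * (2 * C0) + zE * (H * (1 / z')) ≤ 2 * (H / z ^ 2) := by linarith
      _ = 1 / z * (2 / z * H) := by field_simp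
      _ ≤ 1 / z * (V * H) := by
          apply mul_le_mul_of_nonneg_left _ (by positivity)
          exact mul_le_mul_of_nonneg_right hVz hH
  calc S ≤ Q + P + zE * (2 * (Y + C0) + (H * (1 / z') + Y)) := hS
    _ ≤ Δ' * (V * H) + 12 * (B + 1) * e * (V * H) + 1 / z * (V * H) := by linarith
    _ = (12 * (B + 1) * e + Δ' + 1 / z) * (V * H) := by ring

open Classical in
/-- the real case -/
theorem trg_real : ∃ sg zs : ℕ, ∀ (E s5 B C0 z0 : ℕ), sg ≤ B → E + 2 ≤ s5 → 4 * s5 ≤ B →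
    zs ≤ z0 → ∃ z1 : ℕ,
    ∀ z : ℕ, z1 ≤ z → ∀ a0 b0 : ℤ, BF C0 z0 a0 b0 → ∀ H : ℕ, z ^ B ≤ H → H ≤ z ^ (B + 1) →
    ∀ (F : ℤ → ℝ) (Δ Δ' : ℝ), 0 ≤ Δ → (∀ U ∈ Ioc (0 : ℤ) H, |F U| ≤ (z : ℝ) ^ E) →
    (∀ Y M : ℕ, z ^ s5 ≤ Y → Y * M ≤ z ^ (B + 2) → z ^ B ≤ 4 * M ^ 2 → Y ≤ 4 * M →
      a0 * H ≤ 4 * (Y * M : ℕ) → ∀ (cl m0 n0 n1 : ℤ), a0 ∣ cl * m0 - b0 → 2 * C0 < n0 →
      n1 ≤ a0 * H + b0 →
      ∑ m ∈ (Ioc (0 : ℤ) M).filter (fun m => a0 ∣ m - m0), nu z0 z (![1] : Fin 1 → ℤ) ![0] m *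
        (∑ p ∈ (PP Y (2 * Y)).filter (fun p : ℕ => a0 ∣ (p : ℤ) - cl ∧ n0 < p * m ∧ p * m ≤ n1),
          F (((p : ℤ) * m - b0) / a0)) ^ 2 ≤ Δ * (V1 z0 z * Y / a0) ^ 2 * (M / a0 : ℝ)) →
    (|∑ U ∈ (Ioc (0 : ℤ) H).filter (fun U => Rough z0 (z ^ s5) (a0 * U + b0)), F U| ≤
      Δ' * (V1 z0 z * H)) →
      |∑ U ∈ (Ioc (0 : ℤ) H).filter (fun U => Prime (a0 * U + b0)), F U| ≤
        (12 * (B + 1) * Real.sqrt Δ + Δ' + 1 / z) * (V1 z0 z * H) := by
  obtain ⟨s0S, zsS, hS⟩ := R82.s2r_82 1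
  obtain ⟨CW, zsW, hV1⟩ := vvlow_39 1
  refine ⟨4 * s0S + 16, zsS + zsW + 2, fun E s5 B C0 z0 hsg hE h4 hz0 => ?_⟩
  obtain ⟨z1W, hV1⟩ := hV1 z0 (by omega)
  obtain ⟨z1L', hL'⟩ := log_small CW 2
  refine ⟨z1W + z1L' + z0 + 8 * C0 + 100, fun z hz a0 b0 hBF H hH1 hH2 F Δ Δ' hΔ hFb hblk hmix => ?_⟩
  obtain ⟨ha0, ⟨ha0C, hb0⟩, hcop, hsm, hlg⟩ := hBF
  have hzs : z0 ≤ z := by omega
  have hz20 : 100 ≤ z := by omega
  have hzR : (100 : ℝ) ≤ z := by exact_mod_cast hz20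
  have hlog1 : 1 < Real.log z := by
    rw [Real.lt_log_iff_exp_lt (by linarith)]
    have := Real.exp_one_lt_d9
    linarith
  have hb := abs_le.1 hb0
  have hPPa : ∀ q ∈ PP z0 z, ¬ ((q : ℤ) ∣ a0) := fun q hq hd => by
    have h1 := mem_PP.1 hq
    have := hlg q h1.2.2 hd
    omega
  have hnd1 : ∀ q ∈ PP z0 z, ∀ j : Fin 1, ¬ ((q : ℤ) ∣ (![1] : Fin 1 → ℤ) j) := by
    intro q hq j h
    have h1 := mem_PP.1 hq
    fin_cases j
    have h2 : (q : ℤ) ∣ 1 := by simpa using h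
    have : q ∣ 1 := by exact_mod_cast h2
    exact h1.2.2.one_lt.ne' (Nat.dvd_one.1 this)
  have hV1low : 1 / (Real.log z) ^ CW ≤ V1 z0 z := by
    unfold V1
    exact hV1 z (by omega) _ _ (fun j q hq => hnd1 q hq j)
  have hV1z : 2 / (z : ℝ) ≤ V1 z0 z := by
    refine le_trans ?_ hV1low
    have h1 := hL' z (by omega)
    have h2 : 0 < Real.log z ^ CW := pow_pos (by linarith) _
    rw [div_le_div_iff₀ (by linarith) h2]
    linarith
  have hV1pos : 0 < V1 z0 z := lt_of_lt_of_le (by positivity) hV1z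
  -- sizes
  obtain ⟨n, hs1, hs2, hs3, hs4, hs5, hs6, hs7⟩ := sizes2 (z := z) (B := B) (s5 := s5) (E := E)
    (H := H) (C0 := C0) (n1 := a0 * H + b0) (a0 := a0) (b0 := b0) (by omega) ha0 ha0C hb0 rfl
    hH1 hH2 h4 (by omega) hE
  set z' := z ^ s5 with hz'
  set Y := 2 ^ (n + 1) * z' with hY
  have hz'z : z ≤ z' := by
    calc z = z ^ 1 := (pow_one z).symm
      _ ≤ z ^ s5 := Nat.pow_le_pow_right (by omega) (by omega)
  have hz'pos : 0 < z' := by omega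
  have hzY : z' ≤ Y := Nat.le_mul_of_pos_left _ (by positivity)
  have hps := prime_sum z0 z' Y H C0 a0 b0 F ((z : ℝ) ^ E) ha0 hb0 (by omega) hzY
    hz'pos hcop hsm hlg hs1 (by positivity) hFb
  -- classes
  choose m0 hm0 using fun cl : ℕ => exists_m0 (b0 := b0) ha0 cl
  have hCY : |b0| < (Y : ℤ) := by
    have h1 : C0 < Y := by omega
    have h2 : (C0 : ℤ) < Y := by exact_mod_cast h1
    omega
  have hA : ((a0.toNat : ℕ) : ℤ) = a0 := Int.toNat_of_nonneg ha0.le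
  have hAR : ((a0.toNat : ℕ) : ℝ) = (a0 : ℝ) := by exact_mod_cast congrArg (Int.cast : ℤ → ℝ) hA
  have haR : (0 : ℝ) < a0 := by exact_mod_cast ha0
  have hN1 : (((a0 * H + b0).toNat : ℕ) : ℤ) = a0 * H + b0 := Int.toNat_of_nonneg hs5.le
  have hblock : ∀ i ∈ range (n + 1),
      |∑ p ∈ PP (2 ^ i * z') (2 * (2 ^ i * z')), ∑ U ∈ (Ioc (0 : ℤ) H).filter (fun U =>
        (Rough z0 z' (a0 * U + b0) ∧ (Y : ℤ) < a0 * U + b0) ∧ (p : ℤ) ∣ a0 * U + b0),
          cc z' Y ((a0 * U + b0) / p) * F U| ≤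
      4 * Real.sqrt Δ * (V1 z0 z * H) * (1 / Real.log z) := by
    intro i hi
    rw [mem_range] at hi
    obtain ⟨hMa, hMb, hMc⟩ := hs7 i (by omega)
    set Yi := 2 ^ i * z' with hYi
    set M := (a0 * H + b0).toNat / Yi with hMdef
    have hYipos : 0 < Yi := Nat.mul_pos (by positivity) hz'pos
    have hYiz : z' ≤ Yi := Nat.le_mul_of_pos_left _ (by positivity)
    have hYM : Yi * M ≤ (a0 * H + b0).toNat := Nat.mul_div_le _ _
    rw [block_eq z0 z' Y Yi H M a0 b0 F (cc z' Y) ha0 hlg (by omega) hYiz hCY m0 hm0 (by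
      intro m hm
      have h1 : m ≤ (a0 * H + b0) / (Yi : ℤ) :=
        Int.le_ediv_of_mul_le (by exact_mod_cast hYipos) (by rw [mul_comm]; exact hm)
      have h2 : ((M : ℕ) : ℤ) = (a0 * H + b0) / (Yi : ℤ) := by
        rw [hMdef]
        push_cast
        rw [hN1]
      rw [h2]
      exact h1)]
    refine (abs_sum_le_sum_abs _ _).trans ?_
    have hcl : ∀ cl ∈ (range a0.toNat).filter (fun cl => Nat.Coprime cl a0.toNat),
        |∑ m ∈ (Ioc (0 : ℤ) M).filter (fun m => a0 ∣ m - m0 cl),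
        (if Rough z0 z' m then cc z' Y m else 0) *
          ∑ p ∈ (PP Yi (2 * Yi)).filter (fun p : ℕ => a0 ∣ (p : ℤ) - cl ∧
            (Y : ℤ) < p * m ∧ p * m ≤ a0 * H + b0), F (((p : ℤ) * m - b0) / a0)| ≤
        V1 z0 z * (4 * Real.sqrt Δ * (V1 z0 z * H / a0)) := by
      intro cl hcl
      rw [mem_filter] at hcl
      have hA2 : ∑ m ∈ (Ioc (0 : ℤ) M).filter (fun m => a0 ∣ m - m0 cl),
          nu z0 z (![1] : Fin 1 → ℤ) ![0] m ≤ 2 * ((M : ℝ) / a0) := by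
        have h1 := hS 1 z0 (by omega) z hzs (![1] : Fin 1 → ℤ) ![0] (fun j q hq => hnd1 q hq j)
          a0.toNat (by omega) (by
          intro q hq hd
          apply hPPa q hq
          rw [← hA]
          exact_mod_cast hd) (m0 cl) 0 M
        rw [hA, zero_add, hAR] at h1
        have h2 := (abs_le.1 h1).2
        have h3 : z ^ (2 * s0S + 1) ≤ M := by
          have h4 : (z ^ (2 * s0S + 1)) ^ 2 ≤ M ^ 2 := by
            have h5 : z * (z ^ (2 * s0S + 1)) ^ 2 ≤ 4 * M ^ 2 := by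
              refine le_trans ?_ hMa
              have h6 : z * (z ^ (2 * s0S + 1)) ^ 2 = z ^ (4 * s0S + 3) := by ring
              rw [h6]
              exact Nat.pow_le_pow_right (by omega) (by omega)
            have h6 : 4 * (z ^ (2 * s0S + 1)) ^ 2 ≤ z * (z ^ (2 * s0S + 1)) ^ 2 :=
              Nat.mul_le_mul_right _ (by omega)
            omega
          exact (Nat.pow_le_pow_iff_left (by norm_num)).1 h4
        have h4 : (z : ℝ) ^ (s0S * (1 + 1)) ≤ 1 / 2 * ((M : ℝ) / a0) := by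
          rw [div_mul_div_comm, one_mul, le_div_iff₀ (by positivity)]
          have h5 : (2 * (a0 : ℝ)) ≤ z := by
            have h6 : 2 * a0 ≤ z := by omega
            exact_mod_cast h6
          have h7 : (z : ℝ) ^ (2 * s0S + 1) ≤ M := by exact_mod_cast h3
          calc (z : ℝ) ^ (s0S * (1 + 1)) * (2 * a0) ≤ (z : ℝ) ^ (s0S * (1 + 1)) * z :=
                mul_le_mul_of_nonneg_left h5 (by positivity)
            _ = (z : ℝ) ^ (2 * s0S + 1) := by rw [← pow_succ]; congr 1; ring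
            _ ≤ M := h7
        have h8 : ((1 : ℝ) / 2) ^ 1 * ((M : ℝ) / a0) = 1 / 2 * ((M : ℝ) / a0) := by rw [pow_one]
        rw [h8] at h2
        linarith
      have hD2 := hblk Yi M hYiz (by
          refine hYM.trans ?_
          have h1 : (((a0 * H + b0).toNat : ℕ) : ℤ) ≤ ((z ^ (B + 2) : ℕ) : ℤ) := by
            rw [hN1]
            push_cast
            exact hs4
          exact_mod_cast h1) hMa hMb hMc (cl : ℤ) (m0 cl) (Y : ℤ) (a0 * H + b0) (hm0 cl hcl.2) (by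
          have h1 : 2 * C0 < Y := by omega
          exact_mod_cast h1) le_rfl
      have h1 := cs_bound z0 z z' hz'z ((Ioc (0 : ℤ) M).filter (fun m => a0 ∣ m - m0 cl))
        (cc z' Y) (fun m => ∑ p ∈ (PP Yi (2 * Yi)).filter (fun p : ℕ => a0 ∣ (p : ℤ) - cl ∧
            (Y : ℤ) < p * m ∧ p * m ≤ a0 * H + b0), F (((p : ℤ) * m - b0) / a0))
        (fun m => abs_le.2 ⟨by linarith [cc_nonneg z' Y m], cc_le_one z' Y m⟩) hV1pos _ _ hA2 hD2
      refine h1.trans (mul_le_mul_of_nonneg_left ?_ hV1pos.le)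
      have h2 := sqrt_bd (e := Real.sqrt Δ) (W := 0) (V := V1 z0 z) (Y := Yi)
        (M := M) (a := a0) (H := H) (Real.sqrt_nonneg _) le_rfl hV1pos.le
        (by positivity) (by positivity) haR (by positivity) (by
          have h3 : ((Yi * M : ℕ) : ℤ) ≤ 2 * a0 * H := by
            have h4 : ((Yi * M : ℕ) : ℤ) ≤ (((a0 * H + b0).toNat : ℕ) : ℤ) := by exact_mod_cast hYM
            rw [hN1] at h4
            exact h4.trans hs6
          have h5 : (((Yi * M : ℕ) : ℤ) : ℝ) ≤ ((2 * a0 * H : ℤ) : ℝ) := by exact_mod_cast h3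
          push_cast at h5
          exact h5)
      rw [Real.sq_sqrt hΔ, zero_add, one_pow, one_pow, mul_one, mul_one] at h2
      exact h2
    refine (sum_le_sum hcl).trans ?_
    rw [sum_const, nsmul_eq_mul]
    have hcard : ((range a0.toNat).filter (fun cl => Nat.Coprime cl a0.toNat)).card =
        a0.toNat.totient := by
      rw [Nat.totient_eq_card_coprime]
      congr 1
      apply filter_congr
      intro x _
      exact Nat.coprime_comm
    rw [hcard]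
    have hmer := mert_39 z0 z a0.toNat (by omega) hzs (by omega) (by
      intro q hq hqz
      have h1 := hsm q hq hqz
      rw [← hA] at h1
      exact_mod_cast h1)
    rw [hAR] at hmer
    have h1 : ((a0.toNat.totient : ℕ) : ℝ) * (V1 z0 z * (4 * Real.sqrt Δ * (V1 z0 z * H / a0))) =
        (4 * Real.sqrt Δ * (V1 z0 z * H)) *
          (V1 z0 z * (((a0.toNat.totient : ℕ) : ℝ) / a0)) := by
      field_simp
    rw [h1]
    apply mul_le_mul_of_nonneg_left hmer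
    positivity
  have hP : |∑ p ∈ PP z' Y, ∑ U ∈ (Ioc (0 : ℤ) H).filter (fun U =>
        (Rough z0 z' (a0 * U + b0) ∧ (Y : ℤ) < a0 * U + b0) ∧ (p : ℤ) ∣ a0 * U + b0),
          cc z' Y ((a0 * U + b0) / p) * F U| ≤ ((n + 1 : ℕ) : ℝ) *
      (4 * Real.sqrt Δ * (V1 z0 z * H) * (1 / Real.log z)) := by
    rw [dyadic z' (n + 1)]
    refine (abs_sum_le_sum_abs _ _).trans ((sum_le_sum hblock).trans ?_)
    rw [sum_const, card_range, nsmul_eq_mul]
  have hsmall : (2 * C0) * (z ^ E * z ^ 3) ≤ H := by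
    calc (2 * C0) * (z ^ E * z ^ 3) ≤ z * (z ^ E * z ^ 3) := Nat.mul_le_mul_right _ (by omega)
      _ = z ^ (E + 4) := by ring
      _ ≤ z ^ B := Nat.pow_le_pow_right (by omega) (by omega)
      _ ≤ H := hH1
  have hs2' : Y * (z ^ E * z ^ 3) ≤ H := by
    rw [← pow_add]
    exact hs2
  have hz'' : z ^ E * z ^ 2 ≤ z' := by
    rw [← pow_add]
    exact Nat.pow_le_pow_right (by omega) hE
  exact final_ineq2 (e := Real.sqrt Δ) (L := Real.log z) (I := ((n + 1 : ℕ) : ℝ)) (z' := (z' : ℝ))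
    (Y := (Y : ℝ)) (C0 := (C0 : ℝ)) (z := (z : ℝ)) (zE := (z : ℝ) ^ E) (B := (B : ℝ))
    (V := V1 z0 z) (H := (H : ℝ)) (Real.sqrt_nonneg _) (by positivity) hlog1.le (by linarith)
    (one_le_pow₀ (by linarith)) hs3 hV1z (by exact_mod_cast hs2') (by exact_mod_cast hsmall)
    (by exact_mod_cast hz'') hps hmix hP

/-- TRG -/
theorem trg_49 : TRGStmt := by
  classical
  obtain ⟨sg, zs, h⟩ := trg_real
  refine ⟨12, sg, zs, fun E s5 B C0 z0 h1 h2 h3 h4 => ?_⟩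
  obtain ⟨z1, hz1⟩ := h E s5 B C0 z0 h1 h2 h3 h4
  refine ⟨z1, fun z hz a0 b0 hBF H hH1 hH2 Φ Δ Δ' hΔ _ hΦ hblk hmix => ?_⟩
  -- rotation
  obtain ⟨ω, hω, hrot⟩ : ∃ ω : ℂ, ‖ω‖ = 1 ∧ (ω * ∑ U ∈ (Ioc (0 : ℤ) H).filter
      (fun U => Prime (a0 * U + b0)), Φ U).re =
      ‖∑ U ∈ (Ioc (0 : ℤ) H).filter (fun U => Prime (a0 * U + b0)), Φ U‖ := by
    set S := ∑ U ∈ (Ioc (0 : ℤ) H).filter (fun U => Prime (a0 * U + b0)), Φ U with hS
    by_cases hS0 : S = 0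
    · exact ⟨1, by simp, by rw [hS0]; simp⟩
    · refine ⟨(starRingEnd ℂ) S / ‖S‖, ?_, ?_⟩
      · rw [norm_div, RCLike.norm_conj, Complex.norm_real, norm_norm]
        exact div_self (norm_ne_zero_iff.2 hS0)
      · rw [div_mul_eq_mul_div, mul_comm, Complex.mul_conj, Complex.normSq_eq_norm_sq]
        have h5 : (((‖S‖ ^ 2 : ℝ) : ℂ) / ((‖S‖ : ℝ) : ℂ)) = ((‖S‖ : ℝ) : ℂ) := by
          rw [← Complex.ofReal_div]
          congr 1
          have : ‖S‖ ≠ 0 := norm_ne_zero_iff.2 hS0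
          field_simp
        rw [h5, Complex.ofReal_re]
  set F : ℤ → ℝ := fun U => (ω * Φ U).re with hF
  have hre : ∀ s : Finset ℤ, ∑ U ∈ s, F U = (ω * ∑ U ∈ s, Φ U).re := by
    intro s
    rw [mul_sum, Complex.re_sum]
  have habs : ∀ w : ℂ, |(ω * w).re| ≤ ‖w‖ := by
    intro w
    refine (Complex.abs_re_le_norm _).trans ?_
    rw [norm_mul, hω, one_mul]
  have hmain := hz1 z hz a0 b0 hBF H hH1 hH2 F Δ Δ' hΔ
    (fun U hU => (habs _).trans (hΦ U hU))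
    (by
      intro Y M g1 g2 g3 g4 g5 cl m0 n0 n1 g6 g7 g8
      refine le_trans (sum_le_sum ?_) (hblk Y M g1 g2 g3 g4 g5 cl m0 n0 n1 g6 g7 g8)
      intro m _
      have hnu : 0 ≤ nu z0 z (![1] : Fin 1 → ℤ) ![0] m := by
        unfold nu
        split_ifs
        · exact inv_nonneg.2 (TwinAll.A81.VV_nonneg _ _ _ _)
        · exact le_rfl
      apply mul_le_mul_of_nonneg_left _ hnu
      have h5 : ∑ p ∈ (PP Y (2 * Y)).filter (fun p : ℕ => a0 ∣ (p : ℤ) - cl ∧ n0 < p * m ∧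
          p * m ≤ n1), F (((p : ℤ) * m - b0) / a0) =
          (ω * ∑ p ∈ (PP Y (2 * Y)).filter (fun p : ℕ => a0 ∣ (p : ℤ) - cl ∧ n0 < p * m ∧
          p * m ≤ n1), Φ (((p : ℤ) * m - b0) / a0)).re := by
        rw [mul_sum, Complex.re_sum]
      rw [h5, ← sq_abs]
      exact pow_le_pow_left₀ (abs_nonneg _) (habs _) 2)
    (by
      rw [hre]
      exact (habs _).trans hmix)
  rw [hre, hrot, abs_of_nonneg (norm_nonneg _)] at hmain
  refine hmain.trans (le_of_eq ?_)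
  push_cast
  ring

end Pool.Agent.Lib.MT2.Trans49
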