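import Pool.Agent.Lib.MT2.GB90

/-!
THEOREM (D) (MP_c6d112_nt), module TRANSP: primes in a progression are independent of the roughness
of the other forms, with a phase. From TRG, DISPP, MIXP.
-/

set_option autoImplicit false

namespace Pool.Agent.Lib.MT2.T90

open Finset
open Pool.Agent.Lib.TwinAll
open Pool.Agent.Lib.MT2

variable {k : ℕ}

theorem norm_ee90 (x : ℝ) : ‖ee x‖ = 1 := by
  unfold ee
  rw [show (2 * Real.pi * x * Complex.I : ℂ) = ((2 * Real.pi * x : ℝ) : ℂ) * Complex.I by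
    push_cast; ring]
  exact Complex.norm_exp_ofReal_mul_I _

theorem V1_le_one (z0 z : ℕ) : V1 z0 z ≤ 1 := VV_le_one _ _ _ _

theorem nuJ_bounds {z0 z C0 : ℕ} {a0 b0 : ℤ} {a d : Fin k → ℤ} (hk : k + 1 ≤ z0)
    (hz : z0 ≤ z) (hF : BF C0 z0 a0 b0) (hS : SF C0 z0 a) (U : ℤ) :
    0 ≤ nuJ z0 z a0 b0 a d U ∧ nuJ z0 z a0 b0 a d U ≤ (z : ℝ) ^ (k + 1) := by
  have hnd := cons_not_dvd (z := z) hF hS
  have hVV := VV_pos hk (Fin.cons a0 a : Fin (k + 1) → ℤ) (Fin.cons b0 d) hnd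
  have hinv := VV_inv_le hk hz (Fin.cons a0 a : Fin (k + 1) → ℤ) (Fin.cons b0 d) hnd
  have hVJ := VJ_cons z0 z a0 b0 a d (fun q hq => by simpa using hnd 0 q hq)
  have hV1 := V1_nonneg (by omega : 1 ≤ z0) z
  have hV11 := V1_le_one z0 z
  unfold nuJ
  rw [hVJ]
  split_ifs
  · refine ⟨div_nonneg hV1 hVV.le, ?_⟩
    rw [div_eq_mul_inv]
    calc V1 z0 z * (VV z0 z (Fin.cons a0 a : Fin (k + 1) → ℤ) (Fin.cons b0 d))⁻¹
        ≤ 1 * (z : ℝ) ^ (k + 1) := mul_le_mul hV11 hinv (inv_nonneg.2 hVV.le) zero_le_one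
      _ = _ := one_mul _
  · exact ⟨le_refl _, by positivity⟩

theorem sqrt_half_pow (n : ℕ) : Real.sqrt ((1 / 2 : ℝ) ^ (2 * n)) = (1 / 2) ^ n := by
  rw [pow_mul, ← Real.sqrt_sq (by positivity : (0 : ℝ) ≤ (1 / 2) ^ n)]
  congr 1
  rw [← pow_mul, ← pow_mul, mul_comm]

/-- module TRANSP -/
theorem transp_90 (hT : TRGStmt) (hD : DISPPStmt) (hM : MIXPStmt) : TRANSPStmt := by
  intro k
  obtain ⟨Cg, sg, zsG, hT⟩ := hT
  obtain ⟨sD, s5D, hD⟩ := hD k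
  set s5 := s5D + k + 4 with hs5
  obtain ⟨sM, hM⟩ := hM k s5 (by omega)
  refine ⟨sg + 4 * s5 + 2 * sD * (2 * Cg + 5) + 1 + 3 * sM, ?_⟩
  intro t
  obtain ⟨zsD, hD⟩ := hD (2 * (t + Cg + 2))
  obtain ⟨zsM, hM⟩ := hM (t + 2)
  refine ⟨max (max zsG zsD) (max zsM (k + 2)), ?_⟩
  intro z0 hz0 B C0 hB
  have hzG : zsG ≤ z0 := (le_max_left _ _).trans ((le_max_left _ _).trans hz0)
  have hzD : zsD ≤ z0 := (le_max_right _ _).trans ((le_max_left _ _).trans hz0)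
  have hzM : zsM ≤ z0 := (le_max_left _ _).trans ((le_max_right _ _).trans hz0)
  have hk2 : k + 2 ≤ z0 := (le_max_right _ _).trans ((le_max_right _ _).trans hz0)
  have hB1 : sg + 4 * s5 + 2 * sD * (2 * Cg + 5) + 1 + 3 * sM ≤
      (sg + 4 * s5 + 2 * sD * (2 * Cg + 5) + 1 + 3 * sM) * (t + 1) := Nat.le_mul_of_pos_right _ (by omega)
  have hBg : sg ≤ B := by omega
  have hB5 : 4 * s5 ≤ B := by omega
  have hBD : 2 * (sD * (2 * (t + Cg + 2) + 1)) + 1 ≤ B := by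
    refine le_trans ?_ hB
    have e1 : 2 * (t + Cg + 2) + 1 ≤ (2 * Cg + 5) * (t + 1) := by nlinarith
    have e2 : sD * (2 * (t + Cg + 2) + 1) ≤ sD * ((2 * Cg + 5) * (t + 1)) :=
      Nat.mul_le_mul_left _ e1
    nlinarith [Nat.zero_le (sg * (t + 1)), Nat.zero_le (s5 * (t + 1)), Nat.zero_le (sM * (t + 1))]
  have hBM : sM * (t + 2 + 1) ≤ B := by
    refine le_trans ?_ hB
    have e1 : t + 2 + 1 ≤ 3 * (t + 1) := by omega
    have e2 : sM * (t + 2 + 1) ≤ sM * (3 * (t + 1)) := Nat.mul_le_mul_left _ e1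
    nlinarith [Nat.zero_le (sg * (t + 1)), Nat.zero_le (s5 * (t + 1)),
      Nat.zero_le (sD * (2 * Cg + 5) * (t + 1))]
  obtain ⟨zG, hT⟩ := hT (k + 2) s5 B C0 z0 hBg (by omega) hB5 hzG
  obtain ⟨zD, hD⟩ := hD z0 hzD (B + 2) C0
  obtain ⟨zM, hM⟩ := hM z0 hzM (B + 1) C0
  refine ⟨max (max zG zD) (max zM (max z0 (4 * 2 ^ t))), ?_⟩
  intro z hz a0 b0 a d hF hS hd H hH1 hH2 θ
  have hzG' : zG ≤ z := (le_max_left _ _).trans ((le_max_left _ _).trans hz)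
  have hzD' : zD ≤ z := (le_max_right _ _).trans ((le_max_left _ _).trans hz)
  have hzM' : zM ≤ z := (le_max_left _ _).trans ((le_max_right _ _).trans hz)
  have hzz : z0 ≤ z := (le_max_left _ _).trans ((le_max_right _ _).trans ((le_max_right _ _).trans hz))
  have hz4 : 4 * 2 ^ t ≤ z :=
    (le_max_right _ _).trans ((le_max_right _ _).trans ((le_max_right _ _).trans hz))
  have h2t : 1 ≤ 2 ^ t := Nat.one_le_two_pow
  have hz44 : 4 ≤ z := by omega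
  have hk : k + 1 ≤ z0 := by omega
  have hb := fun U => nuJ_bounds (z := z) (d := d) hk hzz hF hS U
  have hmain := hT z hzG' a0 b0 hF H hH1 hH2
    (fun U : ℤ => ((nuJ z0 z a0 b0 a d U - 1 : ℝ) : ℂ) * ee (θ * U))
    ((1 / 2) ^ (2 * (t + Cg + 2))) ((1 / 2) ^ (t + 2)) (by positivity) (by positivity)
    (by
      intro U _
      rw [norm_mul, norm_ee90, mul_one, Complex.norm_real, Real.norm_eq_abs]
      obtain ⟨h1, h2⟩ := hb U
      have hzR : (4 : ℝ) ≤ z := by exact_mod_cast hz44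
      have h3 : (1 : ℝ) ≤ (z : ℝ) ^ (k + 1) := one_le_pow₀ (by linarith)
      have h4 : (z : ℝ) ^ (k + 1) * z = (z : ℝ) ^ (k + 2) := (pow_succ _ _).symm
      rw [abs_le]
      constructor <;> nlinarith)
    (by
      intro Y M hY hYM hM4 _ _ cl m0 n0 n1 hcl hn0 _
      refine hD z hzD' a0 b0 a d hF hS hd Y M ?_ hYM ?_ cl m0 n0 n1 hcl hn0 θ
      · exact (Nat.pow_le_pow_right (by omega) (by omega)).trans hY
      · by_contra hcon
        push Not at hcon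
        have e1 : z ^ (2 * (sD * (2 * (t + Cg + 2) + 1)) + 1) ≤ 4 * M ^ 2 :=
          (Nat.pow_le_pow_right (by omega) hBD).trans hM4
        rw [pow_succ, mul_comm 2, pow_mul] at e1
        set Z := z ^ (sD * (2 * (t + Cg + 2) + 1)) with hZ
        have e2 : M ^ 2 < Z ^ 2 := Nat.pow_lt_pow_left hcon (by norm_num)
        nlinarith)
    (hM z hzM' a0 b0 a d hF hS hd H
      ((Nat.pow_le_pow_right (by omega) hBM).trans hH1) hH2 θ)
  refine hmain.trans ?_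
  have hV1 := V1_nonneg (by omega : 1 ≤ z0) z
  refine mul_le_mul_of_nonneg_right ?_ (mul_nonneg hV1 (Nat.cast_nonneg _))
  rw [sqrt_half_pow]
  have hCg : (Cg : ℝ) * (1 / 2) ^ (t + Cg + 2) ≤ (1 / 4) * (1 / 2) ^ t := by
    have h1 : (Cg : ℝ) ≤ 2 ^ Cg := by exact_mod_cast (Nat.lt_two_pow_self).le
    have h2 : ((1 : ℝ) / 2) ^ (t + Cg + 2) = (1 / 4) * (1 / 2) ^ t * (1 / 2) ^ Cg := by
      rw [pow_add, pow_add]; ring
    have h3 : (2 : ℝ) ^ Cg * (1 / 2) ^ Cg = 1 := by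
      rw [← mul_pow]; norm_num
    rw [h2]
    calc (Cg : ℝ) * ((1 / 4) * (1 / 2) ^ t * (1 / 2) ^ Cg)
        = ((1 / 4) * (1 / 2) ^ t) * ((Cg : ℝ) * (1 / 2) ^ Cg) := by ring
      _ ≤ ((1 / 4) * (1 / 2) ^ t) * ((2 : ℝ) ^ Cg * (1 / 2) ^ Cg) := by
          refine mul_le_mul_of_nonneg_left ?_ (by positivity)
          exact mul_le_mul_of_nonneg_right h1 (by positivity)
      _ = _ := by rw [h3, mul_one]
  have hzinv : 1 / (z : ℝ) ≤ (1 / 4) * (1 / 2) ^ t := by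
    have h1 : (4 : ℝ) * 2 ^ t ≤ z := by exact_mod_cast hz4
    have h2 : (1 / 4 : ℝ) * (1 / 2) ^ t = 1 / (4 * 2 ^ t) := by
      rw [one_div_pow]
      field_simp
    rw [h2]
    exact one_div_le_one_div_of_le (by positivity) h1
  have ht2 : ((1 : ℝ) / 2) ^ (t + 2) = (1 / 4) * (1 / 2) ^ t := by
    rw [pow_add]; ring
  rw [ht2]
  have hB0 : (0 : ℝ) ≤ B := Nat.cast_nonneg B
  have hp : (0 : ℝ) < (1 / 2) ^ t := by positivity
  have h5 : (Cg : ℝ) * (B + 1) * (1 / 2) ^ (t + Cg + 2) ≤ (B + 1) * ((1 / 4) * (1 / 2) ^ t) := by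
    calc (Cg : ℝ) * (B + 1) * (1 / 2) ^ (t + Cg + 2)
        = (B + 1) * ((Cg : ℝ) * (1 / 2) ^ (t + Cg + 2)) := by ring
      _ ≤ _ := mul_le_mul_of_nonneg_left hCg (by linarith)
  nlinarith [mul_nonneg hB0 hp.le]

end Pool.Agent.Lib.MT2.T90
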