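import Pool.Agent.Lib.MT2.StmtsD
import Pool.Agent.Lib.TwinAll.L3a88

/-!
MT2 (D), module UNI: Fourier uniformity of `gg`, from TRANSP, MINP, MAJP and MERT.
-/

set_option autoImplicit false

namespace Pool.Agent.Lib.MT2

open Finset
open Pool.Agent.Lib.TwinAll (PP Rough om VV nu ee)

namespace T95

lemma exists_t (c : ℝ) (η : ℝ) (hη : 0 < η) :
    ∃ t : ℕ, c ^ 2 * ((t : ℝ) + 1) ^ 2 * (1 / 2) ^ t ≤ η := by
  have h1 := tendsto_pow_const_mul_const_pow_of_abs_lt_one 2 (r := (1 / 2 : ℝ))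
    (by rw [abs_of_pos (by norm_num)]; norm_num)
  have h2 : Filter.Tendsto (fun n : ℕ => 2 * c ^ 2 * ((n : ℝ) ^ 2 * (1 / 2) ^ n)) Filter.atTop
      (nhds (2 * c ^ 2 * 0)) := h1.const_mul _
  rw [mul_zero] at h2
  obtain ⟨n, hn, hn1⟩ := ((h2.eventually_lt_const hη).and
    (Filter.eventually_ge_atTop 1)).exists
  obtain ⟨t, rfl⟩ : ∃ t, n = t + 1 := ⟨n - 1, by omega⟩
  refine ⟨t, le_trans (le_of_eq ?_) hn.le⟩
  push_cast
  rw [pow_succ (1 / 2 : ℝ) t]
  ring

lemma sum_Ioc_int (f : ℤ → ℂ) (H : ℕ) :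
    ∑ y ∈ Ioc (0 : ℤ) H, f y = ∑ m ∈ Finset.Icc 1 H, f (m : ℤ) := by
  refine Finset.sum_nbij' (fun y => y.toNat) (fun m => (m : ℤ)) ?_ ?_ ?_ ?_ ?_
  · intro y hy
    rw [Finset.mem_Ioc] at hy
    rw [Finset.mem_Icc]
    omega
  · intro m hm
    rw [Finset.mem_Icc] at hm
    rw [Finset.mem_Ioc]
    omega
  · intro y hy
    rw [Finset.mem_Ioc] at hy
    exact Int.toNat_of_nonneg (by omega)
  · intro m _
    simp
  · intro y hy
    rw [Finset.mem_Ioc] at hy
    rw [Int.toNat_of_nonneg (by omega)]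

lemma V1_nonneg (z0 z : ℕ) : 0 ≤ V1 z0 z := by
  unfold V1 VV
  apply Finset.prod_nonneg
  intro q hq
  have hqp : q.Prime := by
    unfold PP at hq
    exact (Finset.mem_filter.1 hq).2
  have h1 : (om (![1] : Fin 1 → ℤ) ![0] q : ℝ) ≤ q := by
    have : om (![1] : Fin 1 → ℤ) ![0] q ≤ q := by
      unfold om
      refine (Finset.card_filter_le _ _).trans ?_
      rw [Finset.card_range]
    exact_mod_cast this
  have hq0 : (0 : ℝ) < q := by exact_mod_cast hqp.pos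
  rw [sub_nonneg, div_le_one hq0]
  exact h1

end T95

open T95 Classical in
/-- Module UNI. -/
theorem uni_95 (hT : TRANSPStmt) (hM : MINPStmt) (hJ : MAJPStmt) (hMert : MERTStmt) :
    UNIStmt := by
  intro k B1 η hη
  obtain ⟨sT, hT⟩ := hT k
  obtain ⟨sM, hM⟩ := hM
  set s0 := max sT sM with hs0
  obtain ⟨t, ht⟩ := exists_t ((B1 : ℝ) + s0 + 2) (η / 4) (by positivity)
  obtain ⟨zsT, hT⟩ := hT t
  obtain ⟨L, T, zsM, hL1, hM⟩ := hM t
  obtain ⟨T2, hT2⟩ := exists_nat_ge (4 / η)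
  set T' := max (max T T2) 1 with hT'
  set Bg := B1 + s0 * (t + 1) + 1 with hBg
  have hBg2 : (1 / 2 : ℝ) ^ t * ((Bg : ℝ) + 1) ^ 2 ≤ η / 4 := by
    have h1 : ((Bg : ℝ) + 1) ≤ ((B1 : ℝ) + s0 + 2) * ((t : ℝ) + 1) := by
      have e : (Bg : ℝ) = B1 + s0 * (t + 1) + 1 := by rw [hBg]; push_cast; ring
      rw [e]
      have b0 : (0 : ℝ) ≤ B1 := Nat.cast_nonneg _
      have t0 : (0 : ℝ) ≤ t := Nat.cast_nonneg _
      have s00 : (0 : ℝ) ≤ s0 := Nat.cast_nonneg _
      nlinarith [mul_nonneg b0 t0]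
    calc (1 / 2 : ℝ) ^ t * ((Bg : ℝ) + 1) ^ 2
        ≤ (1 / 2 : ℝ) ^ t * (((B1 : ℝ) + s0 + 2) * ((t : ℝ) + 1)) ^ 2 := by
          refine mul_le_mul_of_nonneg_left ?_ (by positivity)
          exact pow_le_pow_left₀ (by positivity) h1 2
      _ = ((B1 : ℝ) + s0 + 2) ^ 2 * ((t : ℝ) + 1) ^ 2 * (1 / 2) ^ t := by ring
      _ ≤ η / 4 := ht
  refine ⟨Bg, max (max zsT zsM) (max L 2), by omega, fun z0 hz0 C0 => ?_⟩
  have hz0T : zsT ≤ z0 := by
    have := le_max_left (max zsT zsM) (max L 2); have := le_max_left zsT zsM; omega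
  have hz0M : zsM ≤ z0 := by
    have := le_max_left (max zsT zsM) (max L 2); have := le_max_right zsT zsM; omega
  have hz0L : L ≤ z0 := by
    have := le_max_right (max zsT zsM) (max L 2); have := le_max_left L 2; omega
  have hz02 : 2 ≤ z0 := by
    have := le_max_right (max zsT zsM) (max L 2); have := le_max_right L 2; omega
  have hsT : sT * (t + 1) ≤ Bg := by
    have : sT * (t + 1) ≤ s0 * (t + 1) := Nat.mul_le_mul_right _ (le_max_left _ _)
    omega
  have hsM : sM * (t + 1) ≤ Bg := by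
    have : sM * (t + 1) ≤ s0 * (t + 1) := Nat.mul_le_mul_right _ (le_max_right _ _)
    omega
  obtain ⟨z1T, hT⟩ := hT z0 hz0T Bg C0 hsT
  obtain ⟨z1M, hM⟩ := hM z0 hz0M Bg C0 hsM
  obtain ⟨H1, hJ⟩ := hJ z0 C0 L T' (η / 4) (by positivity) hz0L hz02
  refine ⟨max (max z1T z1M) (max H1 (max z0 3)), fun z hz a0 b0 a d hBF hSF hd H hH1 hH2 θ => ?_⟩
  have hzT : z1T ≤ z := by
    have := le_max_left (max z1T z1M) (max H1 (max z0 3)); have := le_max_left z1T z1M; omega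
  have hzM : z1M ≤ z := by
    have := le_max_left (max z1T z1M) (max H1 (max z0 3)); have := le_max_right z1T z1M; omega
  have hzH : H1 ≤ z := by
    have := le_max_right (max z1T z1M) (max H1 (max z0 3)); have := le_max_left H1 (max z0 3)
    omega
  have hzz : max z0 3 ≤ z := by
    have := le_max_right (max z1T z1M) (max H1 (max z0 3)); have := le_max_right H1 (max z0 3)
    omega
  have hz0z : z0 ≤ z := (le_max_left _ _).trans hzz
  have hz3 : 3 ≤ z := (le_max_right _ _).trans hzz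
  have hzH' : z ≤ H := (Nat.le_self_pow (by omega) z).trans hH1
  have hH0 : (0 : ℝ) < H := by exact_mod_cast (by omega : 0 < H)
  have hz1 : (1 : ℝ) < z := by exact_mod_cast (by omega : 1 < z)
  have hlz : 0 < Real.log z := Real.log_pos hz1
  have hlH : 0 ≤ Real.log H := Real.log_nonneg (by exact_mod_cast (by omega : 1 ≤ H))
  have hlH2 : Real.log H ≤ ((Bg : ℝ) + 1) * Real.log z := by
    have h1 : (H : ℝ) ≤ (z : ℝ) ^ (Bg + 1) := by exact_mod_cast hH2
    have h2 := Real.log_le_log hH0 h1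
    rw [Real.log_pow] at h2
    push_cast at h2
    exact h2
  have ha0 := hBF.pos
  have ha0r : (0 : ℝ) < a0 := by exact_mod_cast ha0
  have hcast : ((a0.toNat : ℕ) : ℝ) = (a0 : ℝ) := by
    have : ((a0.toNat : ℕ) : ℤ) = a0 := Int.toNat_of_nonneg ha0.le
    exact_mod_cast congrArg (fun x : ℤ => (x : ℝ)) this
  set κ : ℝ := (a0.toNat.totient : ℝ) / a0 * Real.log H with hκ
  have hκ0 : 0 ≤ κ := by positivity
  have hV := V1_nonneg z0 z
  have hκV : κ * V1 z0 z ≤ (Bg : ℝ) + 1 := by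
    have h1 := hMert z0 z a0.toNat hz02 hz0z (by omega) (by
      intro q hq hqz
      have h2 := hBF.small q hq hqz
      have h3 : (q : ℤ) ∣ ((a0.toNat : ℕ) : ℤ) := by
        rw [Int.toNat_of_nonneg ha0.le]; exact h2
      exact_mod_cast h3)
    rw [hcast] at h1
    calc κ * V1 z0 z = (V1 z0 z * ((a0.toNat.totient : ℝ) / a0)) * Real.log H := by
          rw [hκ]; ring
      _ ≤ (1 / Real.log z) * Real.log H := mul_le_mul_of_nonneg_right h1 hlH
      _ ≤ (1 / Real.log z) * (((Bg : ℝ) + 1) * Real.log z) :=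
          mul_le_mul_of_nonneg_left hlH2 (by positivity)
      _ = (Bg : ℝ) + 1 := by field_simp
  have hκS : ∀ x : ℝ, x ≤ (1 / 2 : ℝ) ^ t * (Bg + 1) * (V1 z0 z * H) → κ * x ≤ η / 4 * H := by
    intro x hx
    calc κ * x ≤ κ * ((1 / 2 : ℝ) ^ t * (Bg + 1) * (V1 z0 z * H)) :=
          mul_le_mul_of_nonneg_left hx hκ0
      _ = (κ * V1 z0 z) * ((1 / 2 : ℝ) ^ t * (Bg + 1) * H) := by ring
      _ ≤ ((Bg : ℝ) + 1) * ((1 / 2 : ℝ) ^ t * (Bg + 1) * H) :=
          mul_le_mul_of_nonneg_right hκV (by positivity)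
      _ = ((1 / 2 : ℝ) ^ t * ((Bg : ℝ) + 1) ^ 2) * H := by ring
      _ ≤ η / 4 * H := mul_le_mul_of_nonneg_right hBg2 hH0.le
  -- decomposition
  have hdec : ∑ y ∈ Ioc (0 : ℤ) H, ((gg z0 z H a0 b0 a d y - 1 : ℝ) : ℂ) * ee (θ * y) =
      (κ : ℂ) * ∑ U ∈ (Ioc (0 : ℤ) H).filter (fun U => Prime (a0 * U + b0)),
        ((nuJ z0 z a0 b0 a d U - 1 : ℝ) : ℂ) * ee (θ * U) +
      ∑ U ∈ Ioc (0 : ℤ) H, (((if Prime (a0 * U + b0) then κ else 0) - 1 : ℝ) : ℂ) *
        ee (θ * U) := by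
    rw [Finset.sum_filter, Finset.mul_sum, ← Finset.sum_add_distrib]
    refine Finset.sum_congr rfl (fun y _ => ?_)
    unfold gg
    by_cases hp : Prime (a0 * y + b0)
    · rw [if_pos hp, if_pos hp, if_pos hp, ← hκ]
      push_cast
      ring
    · rw [if_neg hp, if_neg hp, if_neg hp]
      push_cast
      ring
  have hfirst : ‖(κ : ℂ) * ∑ U ∈ (Ioc (0 : ℤ) H).filter (fun U => Prime (a0 * U + b0)),
        ((nuJ z0 z a0 b0 a d U - 1 : ℝ) : ℂ) * ee (θ * U)‖ ≤ η / 4 * H := by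
    rw [norm_mul, Complex.norm_real, Real.norm_eq_abs, abs_of_nonneg hκ0]
    exact hκS _ (hT z hzT a0 b0 a d hBF hSF hd H hH1 hH2 θ)
  have hsecond : ‖∑ U ∈ Ioc (0 : ℤ) H,
      (((if Prime (a0 * U + b0) then κ else 0) - 1 : ℝ) : ℂ) * ee (θ * U)‖ ≤ 3 * (η / 4) * H := by
    by_cases hmaj : ∃ q : ℕ, 1 ≤ q ∧ q ≤ L ∧ ∃ a : ℤ,
        |θ * a0 - (a : ℝ) / q| ≤ (T' : ℝ) * (a0 : ℝ) / H
    · have h1 := hJ H (hzH.trans hzH') a0 b0 hBF θ hmaj
      refine h1.trans ?_
      nlinarith [mul_pos hη hH0]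
    · have hTT : (T : ℝ) ≤ T' := by
        exact_mod_cast (le_max_left T T2).trans (le_max_left (max T T2) 1)
      have h1 : ‖∑ U ∈ (Ioc (0 : ℤ) H).filter (fun U => Prime (a0 * U + b0)), ee (θ * U)‖ ≤
          (1 / 2) ^ t * (Bg + 1) * (V1 z0 z * H) := by
        rcases hM z hzM a0 b0 hBF H hH1 hH2 θ with h | h
        · exfalso
          obtain ⟨q, hq1, hq2, a', ha'⟩ := h
          refine hmaj ⟨q, hq1, hq2, a', ha'.trans ?_⟩
          exact div_le_div_of_nonneg_right (mul_le_mul_of_nonneg_right hTT ha0r.le) hH0.le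
        · exact h
      have hT1 : (1 : ℝ) ≤ T' := by exact_mod_cast le_max_right (max T T2) 1
      have hT2' : 4 / η ≤ (T' : ℝ) := by
        refine hT2.trans ?_
        exact_mod_cast (le_max_right T T2).trans (le_max_left (max T T2) 1)
      have h2 : ‖∑ U ∈ Ioc (0 : ℤ) H, ee (θ * U)‖ ≤ 1 / (2 * ((T' : ℝ) / H)) := by
        rw [sum_Ioc_int]
        have e : ∀ m ∈ Finset.Icc 1 H, ee (θ * (((m : ℕ) : ℤ) : ℝ)) = ee (θ * (m : ℝ)) := by
          intro m _
          push_cast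
          rfl
        rw [Finset.sum_congr rfl e]
        apply TwinAll.M88.geom_bound
        · positivity
        · intro n
          by_contra hcon
          push Not at hcon
          refine hmaj ⟨1, le_rfl, hL1, n * a0, ?_⟩
          have e2 : θ * a0 - ((n * a0 : ℤ) : ℝ) / ((1 : ℕ) : ℝ) = (θ - n) * a0 := by
            push_cast
            ring
          rw [e2, abs_mul, abs_of_pos ha0r]
          calc |θ - n| * a0 ≤ (T' : ℝ) / H * a0 := mul_le_mul_of_nonneg_right hcon ha0r.le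
            _ = (T' : ℝ) * a0 / H := by ring
      have h3 : 1 / (2 * ((T' : ℝ) / H)) ≤ η / 4 * H := by
        rw [div_le_iff₀ (by positivity)]
        have h4 : 4 ≤ T' * η := by
          rw [div_le_iff₀ hη] at hT2'
          exact hT2'
        calc (1 : ℝ) ≤ (T' * η) / 2 := by linarith
          _ = η / 4 * H * (2 * ((T' : ℝ) / H)) := by field_simp; ring
      have h5 : ∑ U ∈ Ioc (0 : ℤ) H,
          (((if Prime (a0 * U + b0) then κ else 0) - 1 : ℝ) : ℂ) * ee (θ * U) =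
          (κ : ℂ) * ∑ U ∈ (Ioc (0 : ℤ) H).filter (fun U => Prime (a0 * U + b0)), ee (θ * U) -
          ∑ U ∈ Ioc (0 : ℤ) H, ee (θ * U) := by
        rw [Finset.sum_filter, Finset.mul_sum, ← Finset.sum_sub_distrib]
        refine Finset.sum_congr rfl (fun y _ => ?_)
        by_cases hp : Prime (a0 * y + b0)
        · rw [if_pos hp, if_pos hp]
          push_cast
          ring
        · rw [if_neg hp, if_neg hp]
          push_cast
          ring
      rw [h5]
      refine (norm_sub_le _ _).trans ?_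
      rw [norm_mul, Complex.norm_real, Real.norm_eq_abs, abs_of_nonneg hκ0]
      have h6 := hκS _ h1
      nlinarith [mul_pos hη hH0]
  rw [hdec]
  refine (norm_add_le _ _).trans ?_
  calc _ ≤ η / 4 * H + 3 * (η / 4) * H := add_le_add hfirst hsecond
    _ = η * H := by ring

end Pool.Agent.Lib.MT2
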