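import Pool.Agent.Lib.MT2.StmtsD
import Pool.Agent.Lib.TwinAll.H1_8
import Pool.Agent.Lib.TwinAll.Trans81

/-!
THEOREM (D) (MP_c6d112_nt), module VN: the relative von Neumann inequality on the integers.
-/

set_option autoImplicit false

namespace Pool.Agent.Lib.MT2.VN90

open Finset
open Pool.Agent.Lib.TwinAll
open Pool.Agent.Lib.TwinAll.A81 (Kc sum_zmod_Icc sum_zmod_val ch_mul_eq corr_sq_le corr_four_le)

theorem sum_Icc_Ioc {M : Type*} [AddCommMonoid M] (F : ℤ → M) (H : ℕ) :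
    ∑ n ∈ Finset.Icc 1 H, F (n : ℤ) = ∑ n ∈ Ioc (0 : ℤ) H, F n := by
  refine Finset.sum_bij (fun n _ => (n : ℤ)) ?_ ?_ ?_ ?_
  · intro n hn
    rw [Finset.mem_Icc] at hn
    rw [Finset.mem_Ioc]
    omega
  · intro n _ m _ h
    exact_mod_cast h
  · intro n hn
    rw [Finset.mem_Ioc] at hn
    exact ⟨n.toNat, Finset.mem_Icc.2 (by omega), by omega⟩
  · intro n _
    rfl

/-- the function restricted to an interval -/
noncomputable def cut (H : ℕ) (G : ℤ → ℝ) (n : ℤ) : ℝ := if n ∈ Ioc (0 : ℤ) H then G n else 0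

theorem Kc_cut {p H : ℕ} (hH : H < p) (G : ℤ → ℝ) (t : ℤ) :
    Kc p (cut H G) t =
      ∑ n ∈ (Ioc (0 : ℤ) H).filter (fun n => n + t ∈ Ioc (0 : ℤ) H), G n * G (n + t) := by
  unfold Kc
  symm
  have h1 : (Ioc (0 : ℤ) H).filter (fun n => n + t ∈ Ioc (0 : ℤ) H) ⊆
      (Finset.Ioc (-1 : ℤ) (-1 + p)).filter (fun n => n + t ∈ Finset.Ioc (-1 : ℤ) (-1 + p)) := by
    intro n hn
    simp only [Finset.mem_filter, Finset.mem_Ioc] at hn ⊢
    omega
  rw [← Finset.sum_subset h1]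
  · refine Finset.sum_congr rfl fun n hn => ?_
    rw [Finset.mem_filter] at hn
    unfold cut
    rw [if_pos hn.1, if_pos hn.2]
  · intro n _ hn
    rw [Finset.mem_filter, not_and_or] at hn
    unfold cut
    rcases hn with hn | hn
    · rw [if_neg hn, zero_mul]
    · rw [if_neg hn, mul_zero]

theorem sum_Kc_cut {p H : ℕ} (hH : H < p) (G : ℤ → ℝ) (m : ℕ) (hm : m ≠ 0) :
    ∑ t ∈ Finset.Ioo (-(p : ℤ)) p, Kc p (cut H G) t ^ m =
      ∑ t ∈ Finset.Ioo (-(H : ℤ)) H,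
        (∑ n ∈ (Ioc (0 : ℤ) H).filter (fun n => n + t ∈ Ioc (0 : ℤ) H), G n * G (n + t)) ^ m := by
  symm
  have h1 : Finset.Ioo (-(H : ℤ)) H ⊆ Finset.Ioo (-(p : ℤ)) p := by
    intro t ht
    rw [Finset.mem_Ioo] at ht ⊢
    omega
  rw [← Finset.sum_subset h1]
  · exact Finset.sum_congr rfl fun t _ => by rw [Kc_cut hH]
  · intro t _ ht
    rw [Kc_cut hH, Finset.sum_eq_zero, zero_pow hm]
    intro n hn
    exfalso
    rw [Finset.mem_filter, Finset.mem_Ioc, Finset.mem_Ioc] at hn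
    rw [Finset.mem_Ioo] at ht
    omega

section zmod

variable {p : ℕ} [NeZero p]

omit [NeZero p] in
theorem cut_val (H : ℕ) (G : ℤ → ℝ) (x : ZMod p) :
    cut H G (x.val : ℤ) = if 1 ≤ x.val ∧ x.val ≤ H then G (x.val : ℤ) else 0 := by
  unfold cut
  have : ((x.val : ℤ) ∈ Ioc (0 : ℤ) H) ↔ (1 ≤ x.val ∧ x.val ≤ H) := by
    rw [Finset.mem_Ioc]
    omega
  by_cases h : 1 ≤ x.val ∧ x.val ≤ H
  · rw [if_pos (this.2 h), if_pos h]
  · rw [if_neg (fun h' => h (this.1 h')), if_neg h]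

theorem sum_cut {M : Type*} [AddCommMonoid M] {H : ℕ} (hH : H < p) (F : ℤ → M) :
    ∑ x : ZMod p, (if 1 ≤ x.val ∧ x.val ≤ H then F (x.val : ℤ) else 0) =
      ∑ n ∈ Ioc (0 : ℤ) H, F n := by
  rw [← sum_Icc_Ioc]
  exact sum_zmod_Icc (fun n => F (n : ℤ)) hH

/-- moments of the cyclic correlations -/
theorem mom_sq {H : ℕ} (hH : H < p) (G : ℤ → ℝ) {A : ℝ} {X : ℕ}
    (hA : ∑ t ∈ Finset.Ioo (-(H : ℤ)) H,
      (∑ n ∈ (Ioc (0 : ℤ) H).filter (fun n => n + t ∈ Ioc (0 : ℤ) H), G n * G (n + t)) ^ 2 ≤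
      A * (X : ℝ) ^ 3) :
    meanR (fun t : ZMod p => ‖mean (fun x : ZMod p => ((cut H G (x.val : ℤ) : ℝ) : ℂ) *
      ((cut H G ((x + t).val : ℤ) : ℝ) : ℂ))‖ ^ 2) ≤ 2 * (A * (X : ℝ) ^ 3) / (p : ℝ) ^ 3 := by
  have hp : (0 : ℝ) < p := Nat.cast_pos.2 (Nat.pos_of_ne_zero (NeZero.ne p))
  have h1 : ∀ t : ZMod p, ‖mean (fun x : ZMod p => ((cut H G (x.val : ℤ) : ℝ) : ℂ) *
      ((cut H G ((x + t).val : ℤ) : ℝ) : ℂ))‖ ^ 2 =
      (∑ x : ZMod p, cut H G (x.val : ℤ) * cut H G ((x + t).val : ℤ)) ^ 2 / (p : ℝ) ^ 2 := by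
    intro t
    unfold mean
    have h2 : (∑ x : ZMod p, ((cut H G (x.val : ℤ) : ℝ) : ℂ) *
        ((cut H G ((x + t).val : ℤ) : ℝ) : ℂ)) =
        ((∑ x : ZMod p, cut H G (x.val : ℤ) * cut H G ((x + t).val : ℤ) : ℝ) : ℂ) := by
      push_cast
      rfl
    rw [h2, norm_div, Complex.norm_real, Complex.norm_natCast, div_pow, Real.norm_eq_abs, sq_abs]
  unfold meanR
  rw [Finset.sum_congr rfl fun t _ => h1 t, ← Finset.sum_div, div_div, ← pow_succ]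
  refine div_le_div_of_nonneg_right ?_ (by positivity)
  refine (corr_sq_le (cut H G)).trans ?_
  rw [sum_Kc_cut hH G 2 two_ne_zero]
  exact mul_le_mul_of_nonneg_left hA zero_le_two

theorem mom_four {H : ℕ} (hH : H < p) (G : ℤ → ℝ) {D : ℝ} {X : ℕ}
    (hD : ∑ t ∈ Finset.Ioo (-(H : ℤ)) H,
      (∑ n ∈ (Ioc (0 : ℤ) H).filter (fun n => n + t ∈ Ioc (0 : ℤ) H), G n * G (n + t)) ^ 4 ≤
      D * (X : ℝ) ^ 5) :
    meanR (fun t : ZMod p => ‖mean (fun x : ZMod p => ((cut H G (x.val : ℤ) : ℝ) : ℂ) *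
      (starRingEnd ℂ) ((cut H G ((x + t).val : ℤ) : ℝ) : ℂ))‖ ^ 4) ≤
      8 * (D * (X : ℝ) ^ 5) / (p : ℝ) ^ 5 := by
  have hp : (0 : ℝ) < p := Nat.cast_pos.2 (Nat.pos_of_ne_zero (NeZero.ne p))
  have h1 : ∀ t : ZMod p, ‖mean (fun x : ZMod p => ((cut H G (x.val : ℤ) : ℝ) : ℂ) *
      (starRingEnd ℂ) ((cut H G ((x + t).val : ℤ) : ℝ) : ℂ))‖ ^ 4 =
      (∑ x : ZMod p, cut H G (x.val : ℤ) * cut H G ((x + t).val : ℤ)) ^ 4 / (p : ℝ) ^ 4 := by
    intro t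
    unfold mean
    have h2 : (∑ x : ZMod p, ((cut H G (x.val : ℤ) : ℝ) : ℂ) *
        (starRingEnd ℂ) ((cut H G ((x + t).val : ℤ) : ℝ) : ℂ)) =
        ((∑ x : ZMod p, cut H G (x.val : ℤ) * cut H G ((x + t).val : ℤ) : ℝ) : ℂ) := by
      push_cast
      refine Finset.sum_congr rfl fun x _ => ?_
      rw [Complex.conj_ofReal]
    rw [h2, norm_div, Complex.norm_real, Complex.norm_natCast, div_pow, Real.norm_eq_abs]
    congr 1
    rw [← abs_pow, abs_of_nonneg (by positivity)]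
  unfold meanR
  rw [Finset.sum_congr rfl fun t _ => h1 t, ← Finset.sum_div, div_div, ← pow_succ]
  refine div_le_div_of_nonneg_right ?_ (by positivity)
  refine (corr_four_le (cut H G)).trans ?_
  rw [sum_Kc_cut hH G 4 (by norm_num)]
  exact mul_le_mul_of_nonneg_left hD (by norm_num)

/-- Fourier coefficients of a restricted function -/
theorem ft_cut {H : ℕ} (hH : H < p) (G : ℤ → ℝ) {B : ℝ}
    (hB : ∀ θ : ℝ, ‖∑ n ∈ Ioc (0 : ℤ) H, ((G n : ℝ) : ℂ) * ee (θ * n)‖ ≤ B) (ξ : ZMod p) :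
    ‖ft (fun x : ZMod p => ((cut H G (x.val : ℤ) : ℝ) : ℂ)) ξ‖ ≤ B / p := by
  have hp : (0 : ℝ) < p := Nat.cast_pos.2 (Nat.pos_of_ne_zero (NeZero.ne p))
  unfold ft mean
  rw [norm_div, Complex.norm_natCast]
  refine div_le_div_of_nonneg_right ?_ hp.le
  have h1 : ∑ x : ZMod p, ((cut H G (x.val : ℤ) : ℝ) : ℂ) * ch (-(ξ * x)) =
      ∑ n ∈ Ioc (0 : ℤ) H, ((G n : ℝ) : ℂ) * ee ((((-ξ).val : ℝ) / p) * n) := by
    rw [← sum_cut hH (fun n => ((G n : ℝ) : ℂ) * ee ((((-ξ).val : ℝ) / p) * n))]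
    refine Finset.sum_congr rfl fun x _ => ?_
    rw [cut_val, ← neg_mul, ch_mul_eq]
    split_ifs
    · push_cast
      rfl
    · push_cast
      rw [zero_mul]
  rw [h1]
  exact hB _

end zmod

/-- module VN -/
theorem vn_90 (h : H1Stmt) : VNStmt := by
  intro X H f ν u w η A D hH1 hHX hη hA0 hD0 hf hν hw hA hD hF
  have hX : 1 ≤ X := hH1.trans hHX
  obtain ⟨p, hpp, hp1, hp2⟩ := Nat.exists_prime_lt_and_le_two_mul (4 * X) (by omega)
  have hfact : Fact p.Prime := ⟨hpp⟩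
  have hHp : H < p := by omega
  have hXp : X < p := by omega
  have hpR : (0 : ℝ) < p := Nat.cast_pos.2 hpp.pos
  have hXR : (1 : ℝ) ≤ X := by exact_mod_cast hX
  have hp1R : 4 * (X : ℝ) ≤ p := by exact_mod_cast hp1.le
  have hp2R : (p : ℝ) ≤ 8 * X := by
    have : p ≤ 8 * X := by omega
    exact_mod_cast this
  have hνt : ∀ x : ZMod p, 1 + cut H (fun n => ν n - 1) (x.val : ℤ) =
      if 1 ≤ x.val ∧ x.val ≤ H then ν (x.val : ℤ) else 1 := by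
    intro x
    rw [cut_val]
    split_ifs <;> ring
  have hmem : ∀ x : ZMod p, 1 ≤ x.val ∧ x.val ≤ H → (x.val : ℤ) ∈ Ioc (0 : ℤ) H := by
    intro x hx
    rw [Finset.mem_Ioc]
    omega
  have key := h p (fun x => ((cut H f (x.val : ℤ) : ℝ) : ℂ))
    (fun x => ((cut X u (x.val : ℤ) : ℝ) : ℂ)) (fun x => ((w (x.val : ℤ) : ℝ) : ℂ))
    (fun x => 1 + cut H (fun n => ν n - 1) (x.val : ℤ)) (fun _ => 1)
    (fun ζ => if ζ = 0 then 1 else 0) 1 1 0 (η * X / p) (2 * (A * (X : ℝ) ^ 3) / (p : ℝ) ^ 3)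
    (8 * (D * (X : ℝ) ^ 5) / (p : ℝ) ^ 5) one_ne_zero one_ne_zero (fun _ => zero_le_one)
    (by
      intro x
      rw [Finset.sum_eq_single (0 : ZMod p)]
      · rw [if_pos rfl, zero_mul]
        unfold ch
        rw [AddChar.map_zero_eq_one]
        push_cast
        ring
      · intro ζ _ hζ
        rw [if_neg hζ]
        push_cast
        rw [zero_mul]
      · intro h0
        exact absurd (Finset.mem_univ _) h0)
    (by
      intro ζ
      split_ifs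
      · exact zero_le_one
      · exact le_refl _)
    (by
      intro x
      rw [hνt]
      split_ifs with hx
      · obtain ⟨h1, h2⟩ := hf _ (hmem x hx)
        exact h1.trans h2
      · exact zero_le_one)
    (by
      intro x
      rw [hνt, Complex.norm_real, Real.norm_eq_abs, cut_val, mul_one]
      split_ifs with hx
      · obtain ⟨h1, h2⟩ := hf _ (hmem x hx)
        rw [abs_of_nonneg h1]
        exact h2
      · rw [abs_zero]
        exact zero_le_one)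
    (by
      intro x
      rw [Complex.norm_real, Real.norm_eq_abs]
      exact hw _)
    (fun ξ => ft_cut hXp u hF ξ)
    (by
      have h1 := mom_sq (p := p) hHp (fun n => ν n - 1) hA
      simp only [add_sub_cancel_left]
      exact h1)
    (mom_four (p := p) hXp u hD)
  -- the left side
  set S := ∑ V ∈ Ioc (0 : ℤ) H, ∑ y ∈ Ioc (0 : ℤ) X, f V * u y * w (V + y) with hS
  have hL : mean (fun x : ZMod p => mean (fun y : ZMod p => ((cut H f (x.val : ℤ) : ℝ) : ℂ) *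
      ((cut X u (y.val : ℤ) : ℝ) : ℂ) * ((w (((1 * x + 1 * y + 0 : ZMod p).val : ℕ) : ℤ) : ℝ) : ℂ))) =
      ((S : ℝ) : ℂ) / (p : ℂ) ^ 2 := by
    unfold mean
    rw [← Finset.sum_div, div_div, ← pow_two]
    congr 1
    have h1 : ∀ x : ZMod p, ∑ y : ZMod p, ((cut H f (x.val : ℤ) : ℝ) : ℂ) *
        ((cut X u (y.val : ℤ) : ℝ) : ℂ) *
        ((w (((1 * x + 1 * y + 0 : ZMod p).val : ℕ) : ℤ) : ℝ) : ℂ) =
        if 1 ≤ x.val ∧ x.val ≤ H then (fun V : ℤ => ∑ y ∈ Ioc (0 : ℤ) X,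
          ((f V * u y * w (V + y) : ℝ) : ℂ)) (x.val : ℤ) else 0 := by
      intro x
      split_ifs with hx
      · show _ = ∑ y ∈ Ioc (0 : ℤ) X, ((f x.val * u y * w (x.val + y) : ℝ) : ℂ)
        rw [← sum_cut hXp (fun y : ℤ => ((f x.val * u y * w (x.val + y) : ℝ) : ℂ))]
        refine Finset.sum_congr rfl fun y _ => ?_
        rw [cut_val, cut_val, if_pos hx]
        split_ifs with hy
        · have h2 : ((1 * x + 1 * y + 0 : ZMod p).val : ℤ) = (x.val : ℤ) + (y.val : ℤ) := by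
            rw [one_mul, one_mul, add_zero, ZMod.val_add_of_lt (by omega)]
            push_cast
            rfl
          rw [h2]
          push_cast
          rfl
        · push_cast
          ring
      · refine Finset.sum_eq_zero fun y _ => ?_
        rw [cut_val, if_neg hx]
        push_cast
        ring
    rw [Finset.sum_congr rfl fun x _ => h1 x]
    refine (sum_cut hHp (fun V : ℤ => ∑ y ∈ Ioc (0 : ℤ) X,
      ((f V * u y * w (V + y) : ℝ) : ℂ))).trans ?_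
    rw [hS]
    push_cast
    rfl
  have hL2 : ‖mean (fun x : ZMod p => mean (fun y : ZMod p => ((cut H f (x.val : ℤ) : ℝ) : ℂ) *
      ((cut X u (y.val : ℤ) : ℝ) : ℂ) *
      ((w (((1 * x + 1 * y + 0 : ZMod p).val : ℕ) : ℤ) : ℝ) : ℂ)))‖ = |S| / (p : ℝ) ^ 2 := by
    rw [hL, norm_div, Complex.norm_real, norm_pow, Complex.norm_natCast, Real.norm_eq_abs]
  rw [hL2] at key
  -- the mean of the majorant
  have hM : meanR (fun x : ZMod p => (1 + cut H (fun n => ν n - 1) (x.val : ℤ)) * 1) ≤ 2 := by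
    unfold meanR
    rw [div_le_iff₀ hpR]
    have h1 : ∀ x : ZMod p, (1 + cut H (fun n => ν n - 1) (x.val : ℤ)) * 1 ≤
        (if 1 ≤ x.val ∧ x.val ≤ H then ν (x.val : ℤ) else 0) + 1 := by
      intro x
      rw [mul_one, hνt]
      split_ifs with hx
      · linarith
      · linarith
    refine (Finset.sum_le_sum fun x _ => h1 x).trans ?_
    rw [Finset.sum_add_distrib, sum_cut hHp ν, Finset.sum_const, Finset.card_univ, ZMod.card,
      nsmul_eq_mul, mul_one]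
    linarith
  have hr : (X : ℝ) / p ≤ 1 / 4 := by
    rw [div_le_div_iff₀ hpR (by norm_num)]
    linarith
  have hr0 : 0 ≤ (X : ℝ) / p := by positivity
  have hη2 : (η * X / p) ^ 2 ≤ (1 / 8) * η ^ 2 := by
    have h1 : η * X / p = η * ((X : ℝ) / p) := by ring
    rw [h1, mul_pow]
    have h2 : ((X : ℝ) / p) ^ 2 ≤ (1 / 4) ^ 2 := pow_le_pow_left₀ hr0 hr 2
    nlinarith [sq_nonneg η]
  have hAD : (2 * (A * (X : ℝ) ^ 3) / (p : ℝ) ^ 3 * (8 * (D * (X : ℝ) ^ 5) / (p : ℝ) ^ 5)) ^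
      ((1 : ℝ) / 4) ≤ (1 / 8) * (A * D) ^ ((1 : ℝ) / 4) := by
    have h1 : 2 * (A * (X : ℝ) ^ 3) / (p : ℝ) ^ 3 * (8 * (D * (X : ℝ) ^ 5) / (p : ℝ) ^ 5) =
        16 * (A * D) * ((X : ℝ) / p) ^ 8 := by
      field_simp
      ring
    have h2 : ((X : ℝ) / p) ^ 8 ≤ (1 / 4) ^ 8 := pow_le_pow_left₀ hr0 hr 8
    have hAD0 : 0 ≤ A * D := mul_nonneg hA0 hD0
    have h3 : 16 * (A * D) * ((X : ℝ) / p) ^ 8 ≤ (1 / 8) ^ (4 : ℕ) * (A * D) := by
      have h4 : (0 : ℝ) ≤ ((X : ℝ) / p) ^ 8 := by positivity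
      nlinarith
    rw [h1]
    refine (Real.rpow_le_rpow (by positivity) h3 (by norm_num)).trans (le_of_eq ?_)
    rw [Real.mul_rpow (by positivity) hAD0, ← Real.rpow_natCast (1 / 8 : ℝ) 4,
      ← Real.rpow_mul (by norm_num)]
    norm_num
  have hQ0 : 0 ≤ η ^ 2 + (A * D) ^ ((1 : ℝ) / 4) := by positivity
  have hfin : (|S| / (p : ℝ) ^ 2) ^ 2 ≤ (1 / 4) * (η ^ 2 + (A * D) ^ ((1 : ℝ) / 4)) := by
    have h5 : 0 ≤ (η * X / p) ^ 2 +
        (2 * (A * (X : ℝ) ^ 3) / (p : ℝ) ^ 3 * (8 * (D * (X : ℝ) ^ 5) / (p : ℝ) ^ 5)) ^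
          ((1 : ℝ) / 4) := by positivity
    calc (|S| / (p : ℝ) ^ 2) ^ 2 ≤ _ := key
      _ ≤ 2 * 1 * ((η * X / p) ^ 2 +
        (2 * (A * (X : ℝ) ^ 3) / (p : ℝ) ^ 3 * (8 * (D * (X : ℝ) ^ 5) / (p : ℝ) ^ 5)) ^
          ((1 : ℝ) / 4)) := by
          refine mul_le_mul_of_nonneg_right ?_ h5
          linarith
      _ ≤ _ := by linarith
  rw [div_pow, div_le_iff₀ (by positivity)] at hfin
  have hp4 : ((p : ℝ) ^ 2) ^ 2 ≤ 4096 * (X : ℝ) ^ 4 := by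
    calc ((p : ℝ) ^ 2) ^ 2 = (p : ℝ) ^ 4 := by ring
      _ ≤ (8 * (X : ℝ)) ^ 4 := pow_le_pow_left₀ hpR.le hp2R 4
      _ = 4096 * (X : ℝ) ^ 4 := by ring
  have hfin2 : |S| ^ 2 ≤ (100 * Real.sqrt (η ^ 2 + (A * D) ^ ((1 : ℝ) / 4)) * (X : ℝ) ^ 2) ^ 2 := by
    have e1 : (100 * Real.sqrt (η ^ 2 + (A * D) ^ ((1 : ℝ) / 4)) * (X : ℝ) ^ 2) ^ 2 =
        10000 * (η ^ 2 + (A * D) ^ ((1 : ℝ) / 4)) * (X : ℝ) ^ 4 := by
      rw [mul_pow, mul_pow, Real.sq_sqrt hQ0]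
      ring
    rw [e1]
    calc |S| ^ 2 ≤ (1 / 4) * (η ^ 2 + (A * D) ^ ((1 : ℝ) / 4)) * ((p : ℝ) ^ 2) ^ 2 := hfin
      _ ≤ (1 / 4) * (η ^ 2 + (A * D) ^ ((1 : ℝ) / 4)) * (4096 * (X : ℝ) ^ 4) :=
          mul_le_mul_of_nonneg_left hp4 (by positivity)
      _ ≤ _ := by
          have : 0 ≤ (η ^ 2 + (A * D) ^ ((1 : ℝ) / 4)) * (X : ℝ) ^ 4 := by positivity
          nlinarith
  exact (pow_le_pow_iff_left₀ (abs_nonneg _) (by positivity) two_ne_zero).1 hfin2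

end Pool.Agent.Lib.MT2.VN90
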