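import Mathlib
import Pool.Agent.Lib.MT2.StmtsD
import Pool.Agent.Lib.MT2.MT_2
import Pool.Agent.Lib.MT2.MTb_2
import Pool.Agent.Lib.MT2.Rates82
import Pool.Agent.Lib.MT2.EVc62
import Pool.Agent.Lib.MT2.S5k_98
import Pool.Agent.Lib.MT2.Disp42
import Pool.Agent.Lib.MT2.MIX62
import Pool.Agent.Lib.MT2.Trans49b
import Pool.Agent.Lib.MT2.Wgt69
import Pool.Agent.Lib.MT2.SQR_95
import Pool.Agent.Lib.MT2.Pnt33
import Pool.Agent.Lib.MT2.VV39
import Pool.Agent.Lib.MT2.Small39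
import Pool.Agent.Lib.MT2.Ram33
import Pool.Agent.Lib.MT2.S3w39
import Pool.Agent.Lib.MT2.S4r95
import Pool.Agent.Lib.MT2.Uni95
import Pool.Agent.Lib.MT2.GB90
import Pool.Agent.Lib.MT2.TransP90
import Pool.Agent.Lib.MT2.FixC_52
import Pool.Agent.Lib.MT2.Cls82
import Pool.Agent.Lib.MT2.TRG49
import Pool.Agent.Lib.MT2.Minb69
import Pool.Agent.Lib.MT2.MINP39
import Pool.Agent.Lib.MT2.DispP42
import Pool.Agent.Lib.MT2.MIXP62
import Pool.Agent.Lib.MT2.Majp95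
import Pool.Agent.Lib.MT2.VN90
import Pool.Agent.Lib.MT2.D_52
import Pool.Agent.Lib.TwinAll.H1_8
import Pool.Agent.Lib.TwinAll.S3_49
import Pool.Agent.Lib.TwinAll.S2alt49

/-!
THEOREM (D): assembly from the modules.
-/

set_option autoImplicit false

namespace Pool.Agent.Lib.MT2.Main82

open Pool.Agent.Lib.MT2

theorem ev2 : EV2Stmt := T62.ev2_62 R82.s2r_82

theorem ev1 : EV1Stmt := T62.ev1_62 R82.s2r_82

theorem s5k : S5kStmt := T98.s5k_98 R82.corer_82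

theorem disp : DISPStmt := disp_42 ev2 ev1 R82.s2r_82 s5k

theorem trans : TRANSStmt :=
  Trans49.trans_49 disp T62.mix_62 R82.s2r_82 vvlow_39 mert_39 wb_39

theorem mtc : MTCStmt :=
  T2.mtc_2 T69.wgt2_69 T95.sqr ev1 trans T33.pnt_33 vva_39 wb_39

theorem s3w : S3wStmt := s3w_39 ev2 ev1

theorem s4r : S4rStmt := s4r_95 s3w vva_39

theorem dispp : DISPPStmt := dispp_42 s4r s5k

theorem mixp : MIXPStmt := T62.mixp_62 s4r

theorem transp : TRANSPStmt := T90.transp_90 Trans49.trg_49 dispp mixp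

theorem minb : MINBStmt := T69.minb_69 (TwinAll.S3 TwinAll.T49.S2alt) s4r R82.s2r_82

theorem minp : MINPStmt := P39.minp_39 Trans49.trg_49 minb s4r

theorem uni : UNIStmt := uni_95 transp minp majp_95 mert_39

theorem cls : CLSStmt :=
  C82.cls_82 mtc s3w ev1 uni T90.gb_90 (VN90.vn_90 TwinAll.H1) vvlow_39 wb_39

/-- THEOREM (D) -/
theorem dstmt : DStmt := D52.d_52 cls (F52.fixc_52 F52.fix2_52) ram_33

end Pool.Agent.Lib.MT2.Main82
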