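import Pool.Agent.Lib.MT2.Stmts
import Pool.Agent.Lib.TwinAll.Basic94

/-!
MT2, module DISP (helper42), part A: affine invariance of the sieve densities and the pointwise
identities for the systems of one and of two primes.
-/

set_option autoImplicit false

namespace Pool.Agent.Lib.MT2

open Finset
open Pool.Agent.Lib.TwinAll

/-! ### affine invariance -/

open Classical in
theorem card_aff_le {q : ℕ} (hq : 0 < q) (P : ℤ → Prop)
    (hP : ∀ n m : ℤ, (q : ℤ) ∣ n - m → P n → P m) (p u : ℤ) (hp : IsCoprime p (q : ℤ)) :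
    ((range q).filter (fun n : ℕ => P (p * n + u))).card ≤
      ((range q).filter (fun n : ℕ => P n)).card := by
  have hq' : (0 : ℤ) < q := by exact_mod_cast hq
  refine Finset.card_le_card_of_injOn (fun n => ((p * n + u) % (q : ℤ)).toNat) ?_ ?_
  · intro n hn
    rw [Finset.coe_filter, Set.mem_ofPred_eq, Finset.mem_range] at hn
    rw [Finset.coe_filter, Set.mem_ofPred_eq, Finset.mem_range]
    have h0 : 0 ≤ (p * n + u) % (q : ℤ) := Int.emod_nonneg _ hq'.ne'
    have h1 : (p * n + u) % (q : ℤ) < q := Int.emod_lt_of_pos _ hq'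
    refine ⟨by show ((p * n + u) % (q : ℤ)).toNat < q; omega, ?_⟩
    show P ((((p * n + u) % (q : ℤ)).toNat : ℕ) : ℤ)
    rw [Int.toNat_of_nonneg h0]
    exact hP _ _ Int.dvd_self_sub_emod hn.2
  · intro n hn n' hn' h
    rw [Finset.coe_filter, Set.mem_ofPred_eq, Finset.mem_range] at hn hn'
    have h0 : 0 ≤ (p * n + u) % (q : ℤ) := Int.emod_nonneg _ hq'.ne'
    have h0' : 0 ≤ (p * n' + u) % (q : ℤ) := Int.emod_nonneg _ hq'.ne'
    have h1 : (p * n + u) % (q : ℤ) = (p * n' + u) % (q : ℤ) := by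
      have := congrArg (fun t : ℕ => (t : ℤ)) h
      simpa [Int.toNat_of_nonneg h0, Int.toNat_of_nonneg h0'] using this
    have h2 : (q : ℤ) ∣ (p * n + u) - (p * n' + u) := Int.ModEq.dvd (Int.ModEq.symm h1)
    have h3 : (q : ℤ) ∣ p * ((n : ℤ) - n') := by
      have h4 : (p * (n : ℤ) + u) - (p * n' + u) = p * ((n : ℤ) - n') := by ring
      rwa [h4] at h2
    have h5 : (q : ℤ) ∣ ((n : ℤ) - n') := (hp.symm).dvd_of_dvd_mul_left h3
    have h6 : |(n : ℤ) - n'| < q := by
      rw [abs_lt]; constructor <;> omega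
    have h7 := Int.eq_zero_of_abs_lt_dvd h5 h6
    omega

theorem om_aff_le {k : ℕ} (a b : Fin k → ℤ) {q : ℕ} (hq : 0 < q) (p u : ℤ)
    (hp : IsCoprime p (q : ℤ)) :
    om (fun j => a j * p) (fun j => a j * u + b j) q ≤ om a b q := by
  classical
  have h := card_aff_le hq (fun n => ∃ j, (q : ℤ) ∣ a j * n + b j) (by
    rintro n m hnm ⟨j, hj⟩
    refine ⟨j, ?_⟩
    have h1 : a j * m + b j = (a j * n + b j) - a j * (n - m) := by ring
    rw [h1]
    exact dvd_sub hj (Dvd.dvd.mul_left hnm _)) p u hp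
  unfold om
  refine le_trans (le_of_eq ?_) (h.trans (le_of_eq ?_))
  · congr 1
    ext n
    simp only [Finset.mem_filter]
    refine and_congr_right (fun _ => exists_congr (fun j => ?_))
    have h1 : a j * p * (n : ℤ) + (a j * u + b j) = a j * (p * n + u) + b j := by ring
    rw [h1]
  · congr 1
    ext n
    simp only [Finset.mem_filter]

/-- `om` is invariant under the affine substitution `n ↦ p n + u` -/
theorem om_aff {k : ℕ} (a b : Fin k → ℤ) {q : ℕ} (hq : 0 < q) (p u : ℤ)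
    (hp : IsCoprime p (q : ℤ)) :
    om (fun j => a j * p) (fun j => a j * u + b j) q = om a b q := by
  refine le_antisymm (om_aff_le a b hq p u hp) ?_
  obtain ⟨s, v, hsv⟩ := hp
  have hs : IsCoprime s (q : ℤ) := ⟨p, v, by linarith⟩
  have h1 := om_aff_le (fun j => a j * p) (fun j => a j * u + b j) hq s (-s * u) hs
  refine le_trans (le_of_eq ?_) h1
  refine om_congr (fun j => ?_) (fun j => ?_)
  · have h2 : a j - a j * p * s = (q : ℤ) * (v * a j) := by
      have h3 : s * p = 1 - v * q := by linarith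
      have h4 : a j * p * s = (s * p) * a j := by ring
      rw [h4, h3]; ring
    rw [h2]
    exact Dvd.intro _ rfl
  · have h2 : b j - (a j * p * (-s * u) + (a j * u + b j)) = (q : ℤ) * (-(v * (a j * u))) := by
      have h3 : s * p = 1 - v * q := by linarith
      have h4 : a j * p * (-s * u) = -((s * p) * (a j * u)) := by ring
      rw [h4, h3]; ring
    rw [h2]
    exact Dvd.intro _ rfl

/-- `om` does not change when the forms are multiplied by numbers prime to `q` -/
theorem om_unit {k : ℕ} (a b c : Fin k → ℤ) {q : ℕ}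
    (hc : ∀ j, IsCoprime (c j) (q : ℤ)) :
    om (fun j => c j * a j) (fun j => c j * b j) q = om a b q := by
  unfold om
  congr 1
  apply Finset.filter_congr
  intro n _
  refine exists_congr (fun j => ?_)
  have h1 : c j * a j * (n : ℤ) + c j * b j = c j * (a j * n + b j) := by ring
  rw [h1]
  constructor
  · intro h; exact ((hc j).symm).dvd_of_dvd_mul_left h
  · intro h; exact Dvd.dvd.mul_left h _

theorem VV_aff (z0 z : ℕ) {k : ℕ} (a b : Fin k → ℤ) (p u : ℤ)
    (hp : ∀ q ∈ PP z0 z, IsCoprime p (q : ℤ)) :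
    VV z0 z (fun j => a j * p) (fun j => a j * u + b j) = VV z0 z a b := by
  unfold VV
  refine Finset.prod_congr rfl (fun q hq => ?_)
  rw [om_aff a b (PP_prime hq).pos p u (hp q hq)]

theorem VV_unit (z0 z : ℕ) {k : ℕ} (a b c : Fin k → ℤ)
    (hc : ∀ j, ∀ q ∈ PP z0 z, IsCoprime (c j) (q : ℤ)) :
    VV z0 z (fun j => c j * a j) (fun j => c j * b j) = VV z0 z a b := by
  unfold VV
  refine Finset.prod_congr rfl (fun q hq => ?_)
  rw [om_unit a b c (fun j => hc j q hq)]

/-! ### the systems of one and of two primes -/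

/-- coefficients of the system of one prime in the variable `x`, `m = m0 + a0 x` -/
def A1 {k : ℕ} (a0 : ℤ) (a : Fin k → ℤ) (p : ℤ) : Fin (k + 1) → ℤ :=
  Fin.cons a0 (fun j => a j * p)

def B1 {k : ℕ} (m0 : ℤ) (a d : Fin k → ℤ) (u : ℤ) : Fin (k + 1) → ℤ :=
  Fin.cons m0 (fun j => a j * u + d j)

/-- coefficients of the system of two primes -/
def A2 {k : ℕ} (a0 : ℤ) (a : Fin k → ℤ) (p p' : ℤ) : Fin (k + k + 1) → ℤ :=
  Fin.cons a0 (Fin.append (fun j => a j * p) (fun j => a j * p'))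

def B2 {k : ℕ} (m0 : ℤ) (a d : Fin k → ℤ) (u u' : ℤ) : Fin (k + k + 1) → ℤ :=
  Fin.cons m0 (Fin.append (fun j => a j * u + d j) (fun j => a j * u' + d j))

/-- density of the system of two primes -/
noncomputable def V2 {k : ℕ} (z0 z : ℕ) (a Δ : Fin k → ℤ) (p p' : ℤ) : ℝ :=
  VV z0 z (Fin.cons 1 (Fin.append (fun j => a j * p) (fun j => a j * p')) :
    Fin (k + k + 1) → ℤ) (Fin.cons 0 (Fin.append Δ Δ))

theorem VV_A1 {k : ℕ} (z0 z : ℕ) (a0 b0 m0 p u : ℤ) (a d : Fin k → ℤ)
    (ha0 : ∀ q ∈ PP z0 z, IsCoprime a0 (q : ℤ)) (hp : ∀ q ∈ PP z0 z, IsCoprime p (q : ℤ))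
    (hu : a0 * u = p * m0 - b0) :
    VV z0 z (A1 a0 a p) (B1 m0 a d u) = VJ z0 z a0 b0 a d := by
  unfold VJ
  rw [← VV_unit z0 z (A1 a0 a p) (B1 m0 a d u) (Fin.cons p (fun _ => a0)) (by
    intro j
    refine Fin.cases ?_ (fun j => ?_) j
    · rw [Fin.cons_zero]; exact hp
    · rw [Fin.cons_succ]; exact ha0)]
  rw [← VV_aff z0 z (Fin.cons 1 a : Fin (k + 1) → ℤ) (Fin.cons 0 (fun j => a0 * d j - a j * b0))
    (p * a0) (p * m0) (fun q hq => (hp q hq).mul_left (ha0 q hq))]
  congr 1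
  · funext j
    refine Fin.cases ?_ (fun j => ?_) j
    · simp only [A1, Fin.cons_zero]; ring
    · simp only [A1, Fin.cons_succ]; ring
  · funext j
    refine Fin.cases ?_ (fun j => ?_) j
    · simp only [B1, Fin.cons_zero]; ring
    · simp only [B1, Fin.cons_succ]
      linear_combination a j * hu

theorem VV_A2 {k : ℕ} (z0 z : ℕ) (a0 b0 m0 p p' u u' : ℤ) (a d : Fin k → ℤ)
    (ha0 : ∀ q ∈ PP z0 z, IsCoprime a0 (q : ℤ))
    (hu : a0 * u = p * m0 - b0) (hu' : a0 * u' = p' * m0 - b0) :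
    VV z0 z (A2 a0 a p p') (B2 m0 a d u u') =
      V2 z0 z a (fun j => a0 * d j - a j * b0) p p' := by
  unfold V2
  rw [← VV_unit z0 z (A2 a0 a p p') (B2 m0 a d u u') (Fin.cons 1 (fun _ => a0)) (by
    intro j
    refine Fin.cases ?_ (fun j => ?_) j
    · rw [Fin.cons_zero]; exact fun q _ => isCoprime_one_left
    · rw [Fin.cons_succ]; exact ha0)]
  rw [← VV_aff z0 z (Fin.cons 1 (Fin.append (fun j => a j * p) (fun j => a j * p')) :
    Fin (k + k + 1) → ℤ) (Fin.cons 0 (Fin.append (fun j => a0 * d j - a j * b0)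
      (fun j => a0 * d j - a j * b0))) a0 m0 ha0]
  congr 1
  · funext j
    refine Fin.cases ?_ (fun j => ?_) j
    · simp only [A2, Fin.cons_zero]
    · simp only [A2, Fin.cons_succ]
      refine Fin.addCases (fun j => ?_) (fun j => ?_) j
      · simp only [Fin.append_left]; ring
      · simp only [Fin.append_right]; ring
  · funext j
    refine Fin.cases ?_ (fun j => ?_) j
    · simp only [B2, Fin.cons_zero]; ring
    · simp only [B2, Fin.cons_succ]
      refine Fin.addCases (fun j => ?_) (fun j => ?_) j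
      · simp only [Fin.append_left]
        linear_combination a j * hu
      · simp only [Fin.append_right]
        linear_combination a j * hu'

open Classical in
/-- the weight of the cofactor -/
theorem nu1_eq (z0 z : ℕ) (m : ℤ) :
    nu z0 z (![1] : Fin 1 → ℤ) ![0] m = if Rough z0 z m then (V1 z0 z)⁻¹ else 0 := by
  unfold nu V1
  have h : (∀ j : Fin 1, Rough z0 z ((![1] : Fin 1 → ℤ) j * m + (![0] : Fin 1 → ℤ) j)) ↔
      Rough z0 z m := by
    simp
  by_cases hr : Rough z0 z m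
  · rw [if_pos (h.2 hr), if_pos hr]
  · rw [if_neg (fun h3 => hr (h.1 h3)), if_neg hr]

theorem V1_pos' {z0 z : ℕ} (h : 1 ≤ z0) : 0 < V1 z0 z :=
  VV_pos h _ _ (by
    intro j q hq
    fin_cases j
    exact not_dvd_one q hq)

open Classical in
theorem nu_A1 {k : ℕ} {z0 z : ℕ} (hz0 : 1 ≤ z0) (a0 b0 m0 p u : ℤ) (a d : Fin k → ℤ)
    (ha0 : ∀ q ∈ PP z0 z, IsCoprime a0 (q : ℤ)) (hp : ∀ q ∈ PP z0 z, IsCoprime p (q : ℤ))
    (hu : a0 * u = p * m0 - b0) (x : ℤ) :
    nu z0 z (![1] : Fin 1 → ℤ) ![0] (m0 + a0 * x) * nuJ z0 z a0 b0 a d (p * x + u) =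
      nu z0 z (A1 a0 a p) (B1 m0 a d u) x := by
  have hV := V1_pos' (z := z) hz0
  rw [nu1_eq]
  unfold nuJ nu
  rw [VV_A1 z0 z a0 b0 m0 p u a d ha0 hp hu]
  have h : (∀ j, Rough z0 z (A1 a0 a p j * x + B1 m0 a d u j)) ↔
      (Rough z0 z (m0 + a0 * x) ∧ ∀ j, Rough z0 z (a j * (p * x + u) + d j)) := by
    rw [Fin.forall_fin_succ]
    refine and_congr ?_ (forall_congr' (fun j => ?_))
    · simp only [A1, B1, Fin.cons_zero]
      rw [show a0 * x + m0 = m0 + a0 * x by ring]
    · simp only [A1, B1, Fin.cons_succ]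
      rw [show a j * p * x + (a j * u + d j) = a j * (p * x + u) + d j by ring]
  by_cases h1 : Rough z0 z (m0 + a0 * x)
  · by_cases h2 : ∀ j, Rough z0 z (a j * (p * x + u) + d j)
    · rw [if_pos h1, if_pos h2, if_pos (h.2 ⟨h1, h2⟩)]
      field_simp
    · rw [if_neg h2, if_neg (fun t => h2 (h.1 t).2), mul_zero]
  · rw [if_neg h1, if_neg (fun t => h1 (h.1 t).1), zero_mul]

/-- the correlation constant -/
noncomputable def SS2 {k : ℕ} (z0 z : ℕ) (a0 b0 : ℤ) (a d : Fin k → ℤ) (p p' : ℤ) : ℝ :=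
  V1 z0 z * V2 z0 z a (fun j => a0 * d j - a j * b0) p p' / VJ z0 z a0 b0 a d ^ 2

open Classical in
theorem nu_A2 {k : ℕ} {z0 z : ℕ} (hz0 : 1 ≤ z0) (a0 b0 m0 p p' u u' : ℤ) (a d : Fin k → ℤ)
    (ha0 : ∀ q ∈ PP z0 z, IsCoprime a0 (q : ℤ))
    (hu : a0 * u = p * m0 - b0) (hu' : a0 * u' = p' * m0 - b0)
    (hV2 : 0 < V2 z0 z a (fun j => a0 * d j - a j * b0) p p') (x : ℤ) :
    nu z0 z (![1] : Fin 1 → ℤ) ![0] (m0 + a0 * x) * nuJ z0 z a0 b0 a d (p * x + u) *
      nuJ z0 z a0 b0 a d (p' * x + u') =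
      SS2 z0 z a0 b0 a d p p' * nu z0 z (A2 a0 a p p') (B2 m0 a d u u') x := by
  have hV := V1_pos' (z := z) hz0
  rw [nu1_eq]
  unfold nuJ nu SS2
  rw [VV_A2 z0 z a0 b0 m0 p p' u u' a d ha0 hu hu']
  have h : (∀ j, Rough z0 z (A2 a0 a p p' j * x + B2 m0 a d u u' j)) ↔
      (Rough z0 z (m0 + a0 * x) ∧ (∀ j, Rough z0 z (a j * (p * x + u) + d j)) ∧
        ∀ j, Rough z0 z (a j * (p' * x + u') + d j)) := by
    rw [Fin.forall_fin_succ]
    refine and_congr ?_ ?_
    · simp only [A2, B2, Fin.cons_zero]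
      rw [show a0 * x + m0 = m0 + a0 * x by ring]
    · constructor
      · intro t
        refine ⟨fun j => ?_, fun j => ?_⟩
        · have := t (Fin.castAdd k j)
          simp only [A2, B2, Fin.cons_succ, Fin.append_left] at this
          rwa [show a j * p * x + (a j * u + d j) = a j * (p * x + u) + d j by ring] at this
        · have := t (Fin.natAdd k j)
          simp only [A2, B2, Fin.cons_succ, Fin.append_right] at this
          rwa [show a j * p' * x + (a j * u' + d j) = a j * (p' * x + u') + d j by ring] at this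
      · rintro ⟨t, t'⟩ j
        refine Fin.addCases (fun j => ?_) (fun j => ?_) j
        · simp only [A2, B2, Fin.cons_succ, Fin.append_left]
          rw [show a j * p * x + (a j * u + d j) = a j * (p * x + u) + d j by ring]
          exact t j
        · simp only [A2, B2, Fin.cons_succ, Fin.append_right]
          rw [show a j * p' * x + (a j * u' + d j) = a j * (p' * x + u') + d j by ring]
          exact t' j
  by_cases h1 : Rough z0 z (m0 + a0 * x)
  · by_cases h2 : ∀ j, Rough z0 z (a j * (p * x + u) + d j)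
    · by_cases h3 : ∀ j, Rough z0 z (a j * (p' * x + u') + d j)
      · rw [if_pos h1, if_pos h2, if_pos h3, if_pos (h.2 ⟨h1, h2, h3⟩)]
        field_simp
      · rw [if_neg h3, if_neg (fun t => h3 (h.1 t).2.2), mul_zero, mul_zero]
    · rw [if_neg h2, if_neg (fun t => h2 (h.1 t).2.1)]
      ring
  · rw [if_neg h1, if_neg (fun t => h1 (h.1 t).1)]
    ring

end Pool.Agent.Lib.MT2
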