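import Pool.Agent.Lib.MT2.DispA42

/-!
MT2, module DISP (helper42), part B: expansion of the square, ranges, exceptional primes, the
sup norm of the weight, the estimate of one pair.
-/

set_option autoImplicit false

namespace Pool.Agent.Lib.MT2

open Finset
open Pool.Agent.Lib.TwinAll

/-! ### expansion of the square -/

theorem sq_expand (Ms : Finset ℤ) (Ps : Finset ℕ) (w : ℤ → ℝ) (f : ℕ → ℤ → ℝ)
    (c : ℕ → ℤ → Prop) [∀ p m, Decidable (c p m)] :
    ∑ m ∈ Ms, w m * (∑ p ∈ Ps.filter (fun p => c p m), f p m) ^ 2 =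
      ∑ p ∈ Ps, ∑ p' ∈ Ps, ∑ m ∈ Ms.filter (fun m => c p m ∧ c p' m), w m * f p m * f p' m := by
  have h1 : ∀ m ∈ Ms, w m * (∑ p ∈ Ps.filter (fun p => c p m), f p m) ^ 2 =
      ∑ p ∈ Ps, ∑ p' ∈ Ps, (if c p m ∧ c p' m then w m * f p m * f p' m else 0) := by
    intro m _
    rw [Finset.sum_filter, pow_two, Finset.sum_mul_sum, Finset.mul_sum]
    refine Finset.sum_congr rfl (fun p _ => ?_)
    rw [Finset.mul_sum]
    refine Finset.sum_congr rfl (fun p' _ => ?_)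
    by_cases h : c p m
    · by_cases h' : c p' m
      · simp only [h, h', and_self, if_true]; ring
      · simp only [h, h', and_false, if_false, mul_zero]
    · simp only [h, false_and, if_false, zero_mul, mul_zero]
  rw [Finset.sum_congr rfl h1, Finset.sum_comm]
  refine Finset.sum_congr rfl (fun p _ => ?_)
  rw [Finset.sum_comm]
  refine Finset.sum_congr rfl (fun p' _ => ?_)
  rw [Finset.sum_filter]

/-! ### the range of the cofactor -/

/-- the integers `m ≡ m0 mod a0` of an interval -/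
theorem range_class (a0 m0 lo hi : ℤ) (ha0 : 0 < a0) (hlh : lo ≤ hi) :
    ∃ (v : ℤ) (L : ℕ), ((L : ℝ) ≤ ((hi : ℝ) - lo) / a0 + 1) ∧
      (Ioc v (v + L)).image (fun x => m0 + a0 * x) =
        (Ioc lo hi).filter (fun m => a0 ∣ m - m0) := by
  refine ⟨(lo - m0) / a0, ((hi - m0) / a0 - (lo - m0) / a0).toNat, ?_, ?_⟩
  · have h1 : (lo - m0) / a0 ≤ (hi - m0) / a0 := Int.ediv_le_ediv ha0 (by linarith)
    have h2 : ((((hi - m0) / a0 - (lo - m0) / a0).toNat : ℕ) : ℤ) =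
        (hi - m0) / a0 - (lo - m0) / a0 := Int.toNat_of_nonneg (by linarith)
    have h3 : ((((hi - m0) / a0 - (lo - m0) / a0).toNat : ℕ) : ℝ) =
        (((hi - m0) / a0 : ℤ) : ℝ) - (((lo - m0) / a0 : ℤ) : ℝ) := by
      have := congrArg (fun t : ℤ => (t : ℝ)) h2
      push_cast at this
      simpa using this
    rw [h3]
    have ha : (0 : ℝ) < a0 := by exact_mod_cast ha0
    have h4 : (((hi - m0) / a0 : ℤ) : ℝ) ≤ ((hi : ℝ) - m0) / a0 := by
      rw [le_div_iff₀ ha]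
      have := Int.ediv_mul_le (hi - m0) (ne_of_gt ha0)
      exact_mod_cast this
    have h5 : ((lo : ℝ) - m0) / a0 - 1 ≤ (((lo - m0) / a0 : ℤ) : ℝ) := by
      rw [sub_le_iff_le_add, div_le_iff₀ ha]
      have := Int.lt_ediv_add_one_mul_self (lo - m0) ha0
      have h6 : ((lo - m0 : ℤ) : ℝ) < (((lo - m0) / a0 + 1 : ℤ) : ℝ) * a0 := by
        exact_mod_cast this
      push_cast at h6
      linarith
    have h6 : ((hi : ℝ) - m0) / a0 - ((lo : ℝ) - m0) / a0 = ((hi : ℝ) - lo) / a0 := by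
      rw [← sub_div]; ring
    linarith
  · have h1 : (lo - m0) / a0 ≤ (hi - m0) / a0 := Int.ediv_le_ediv ha0 (by linarith)
    have h2 : (lo - m0) / a0 + ((((hi - m0) / a0 - (lo - m0) / a0).toNat : ℕ) : ℤ) =
        (hi - m0) / a0 := by
      rw [Int.toNat_of_nonneg (by linarith)]; ring
    rw [h2]
    ext m
    simp only [Finset.mem_image, Finset.mem_Ioc, Finset.mem_filter]
    constructor
    · rintro ⟨x, ⟨hx1, hx2⟩, rfl⟩
      rw [Int.ediv_lt_iff_lt_mul ha0] at hx1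
      rw [Int.le_ediv_iff_mul_le ha0] at hx2
      exact ⟨⟨by linarith [mul_comm x a0], by linarith [mul_comm x a0]⟩,
        ⟨x, by ring⟩⟩
    · rintro ⟨⟨h3, h4⟩, x, hx⟩
      refine ⟨x, ⟨?_, ?_⟩, by linarith⟩
      · rw [Int.ediv_lt_iff_lt_mul ha0]
        linarith [mul_comm x a0]
      · rw [Int.le_ediv_iff_mul_le ha0]
        linarith [mul_comm x a0]

/-- the range of `m` for a pair of primes -/
theorem range_pair (a0 m0 n0 n1 : ℤ) (M : ℕ) (p p' : ℕ) (ha0 : 0 < a0) (hp : 0 < p)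
    (hp' : 0 < p') :
    ∃ (v : ℤ) (L : ℕ), ((L : ℝ) ≤ (M : ℝ) / a0 + 1) ∧
      (Ioc v (v + L)).image (fun x => m0 + a0 * x) =
        ((Ioc (0 : ℤ) M).filter (fun m => a0 ∣ m - m0)).filter
          (fun m => (n0 < p * m ∧ p * m ≤ n1) ∧ (n0 < p' * m ∧ p' * m ≤ n1)) := by
  have hpz : (0 : ℤ) < p := by exact_mod_cast hp
  have hpz' : (0 : ℤ) < p' := by exact_mod_cast hp'
  have ha : (0 : ℝ) < a0 := by exact_mod_cast ha0
  obtain ⟨lo, hlo⟩ : ∃ lo : ℤ, lo = max 0 (max (n0 / p) (n0 / p')) := ⟨_, rfl⟩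
  obtain ⟨hi, hhi⟩ : ∃ hi : ℤ, hi = min (M : ℤ) (min (n1 / p) (n1 / p')) := ⟨_, rfl⟩
  have hset : ((Ioc (0 : ℤ) M).filter (fun m => a0 ∣ m - m0)).filter
          (fun m => (n0 < p * m ∧ p * m ≤ n1) ∧ (n0 < p' * m ∧ p' * m ≤ n1)) =
      (Ioc lo hi).filter (fun m => a0 ∣ m - m0) := by
    ext m
    simp only [Finset.mem_filter, Finset.mem_Ioc, hlo, hhi, max_lt_iff, le_min_iff]
    rw [Int.ediv_lt_iff_lt_mul hpz, Int.ediv_lt_iff_lt_mul hpz', Int.le_ediv_iff_mul_le hpz,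
      Int.le_ediv_iff_mul_le hpz', mul_comm m (p : ℤ), mul_comm m (p' : ℤ)]
    tauto
  rw [hset]
  rcases le_total lo hi with h | h
  · obtain ⟨v, L, h1, h2⟩ := range_class a0 m0 lo hi ha0 h
    refine ⟨v, L, h1.trans ?_, h2⟩
    have h3 : (hi : ℝ) - lo ≤ M := by
      have h4 : hi ≤ M := by rw [hhi]; exact min_le_left _ _
      have h5 : 0 ≤ lo := by rw [hlo]; exact le_max_left _ _
      have h4' : (hi : ℝ) ≤ M := by exact_mod_cast h4
      have h5' : (0 : ℝ) ≤ lo := by exact_mod_cast h5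
      linarith
    have := div_le_div_of_nonneg_right h3 ha.le
    linarith
  · refine ⟨0, 0, ?_, ?_⟩
    · have : (0 : ℝ) ≤ (M : ℝ) / a0 := by positivity
      push_cast; linarith
    · rw [Finset.Ioc_eq_empty (by simp), Finset.image_empty]
      rw [Finset.Ioc_eq_empty (by omega), Finset.filter_empty]

/-- sums over an image of an interval -/
theorem sum_image_aff (a0 m0 : ℤ) (ha0 : 0 < a0) (S : Finset ℤ) (g : ℤ → ℝ) :
    ∑ m ∈ S.image (fun x => m0 + a0 * x), g m = ∑ x ∈ S, g (m0 + a0 * x) := by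
  rw [Finset.sum_image]
  intro x _ y _ h
  have h1 : a0 * x = a0 * y := by
    have : m0 + a0 * x = m0 + a0 * y := h
    linarith
  exact mul_left_cancel₀ (ne_of_gt ha0) h1

/-! ### few large primes divide an integer -/

theorem card_large_primes {z n : ℕ} (hz : 2 ≤ z) (S : Finset ℕ) (N : ℤ) (hN : N ≠ 0)
    (hNb : |N| ≤ (z : ℤ) ^ n) (hS : ∀ q ∈ S, q.Prime ∧ z < q ∧ (q : ℤ) ∣ N) : S.card ≤ n := by
  have h1 : ∏ q ∈ S, q ∣ N.natAbs := by
    refine Finset.prod_primes_dvd _ (fun q hq => (hS q hq).1.prime) (fun q hq => ?_)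
    exact Int.natCast_dvd.1 (hS q hq).2.2
  have h2 : ∏ q ∈ S, q ≤ N.natAbs := Nat.le_of_dvd (Int.natAbs_pos.2 hN) h1
  have h3 : z ^ S.card ≤ ∏ q ∈ S, q :=
    Finset.pow_card_le_prod _ _ _ (fun q hq => (hS q hq).2.1.le)
  have h4 : N.natAbs ≤ z ^ n := by
    have : ((N.natAbs : ℕ) : ℤ) ≤ ((z ^ n : ℕ) : ℤ) := by
      rw [Int.natCast_natAbs]; push_cast; exact hNb
    exact_mod_cast this
  exact (Nat.pow_le_pow_iff_right (by omega)).1 (h3.trans (h2.trans h4))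

/-! ### the sup norm of the weight -/

theorem wmean_le {K : ℕ} (z R : ℕ) (c : Cond K → ℝ) : |wmean z R c| ≤ wnorm z R c := by
  unfold wmean wnorm
  refine (Finset.abs_sum_le_sum_abs _ _).trans (Finset.sum_le_sum (fun D _ => ?_))
  rw [abs_div]
  have h : |((md D : ℕ) : ℝ)| = (md D : ℝ) := abs_of_nonneg (Nat.cast_nonneg _)
  rw [h]

theorem wnorm_nonneg {K : ℕ} (z R : ℕ) (c : Cond K → ℝ) : 0 ≤ wnorm z R c :=
  Finset.sum_nonneg (fun D _ => by positivity)

open Classical in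
theorem wt_sup {K : ℕ} {z R n : ℕ} (hz : 2 ≤ z) (C1 : ℝ) (hC1 : 0 ≤ C1) (c : Cond K → ℝ)
    (hc : ∀ D, |c D| ≤ C1) (α β : Fin K → ℤ) (U : ℤ)
    (hU : ∀ j, α j * U + β j ≠ 0 ∧ |α j * U + β j| ≤ (z : ℤ) ^ n) :
    |wt z R c α β U| ≤ C1 * 2 ^ (K * n) := by
  have h1 : ∀ D ∈ (PI z R K).powerset, |c D * (if Holds α β D U then (1 : ℝ) else 0)| ≤
      C1 * (if Holds α β D U then (1 : ℝ) else 0) := by
    intro D _
    rw [abs_mul]
    by_cases h : Holds α β D U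
    · rw [if_pos h]; simpa using hc D
    · rw [if_neg h]; simp
  unfold wt
  refine (Finset.abs_sum_le_sum_abs _ _).trans ((Finset.sum_le_sum h1).trans ?_)
  rw [← Finset.mul_sum]
  refine mul_le_mul_of_nonneg_left ?_ hC1
  rw [← Finset.sum_filter, Finset.sum_const, nsmul_eq_mul, mul_one]
  obtain ⟨T, hT⟩ : ∃ T : Cond K, T = (PI z R K).filter (fun x => (x.1 : ℤ) ∣ α x.2 * U + β x.2) :=
    ⟨_, rfl⟩
  have h2 : (PI z R K).powerset.filter (fun D => Holds α β D U) ⊆ T.powerset := by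
    intro D hD
    rw [Finset.mem_filter, Finset.mem_powerset] at hD
    rw [Finset.mem_powerset, hT]
    intro x hx
    rw [Finset.mem_filter]
    exact ⟨hD.1 hx, hD.2 x hx⟩
  have h3 : T.card ≤ K * n := by
    have h4 : T ⊆ (Finset.univ : Finset (Fin K)).biUnion (fun j =>
        ((PP z R).filter (fun q : ℕ => (q : ℤ) ∣ α j * U + β j)).image (fun q : ℕ => (q, j))) := by
      intro x hx
      rw [hT, Finset.mem_filter] at hx
      unfold PI at hx
      rw [Finset.mem_product] at hx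
      rw [Finset.mem_biUnion]
      refine ⟨x.2, Finset.mem_univ _, ?_⟩
      rw [Finset.mem_image]
      exact ⟨x.1, Finset.mem_filter.2 ⟨hx.1.1, hx.2⟩, rfl⟩
    refine (Finset.card_le_card h4).trans (Finset.card_biUnion_le.trans ?_)
    calc ∑ j : Fin K, (((PP z R).filter (fun q : ℕ => (q : ℤ) ∣ α j * U + β j)).image
          (fun q : ℕ => (q, j))).card ≤ ∑ _j : Fin K, n := by
          refine Finset.sum_le_sum (fun j _ => ?_)
          refine Finset.card_image_le.trans ?_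
          refine card_large_primes hz _ (α j * U + β j) (hU j).1 (hU j).2 (fun q hq => ?_)
          rw [Finset.mem_filter] at hq
          exact ⟨PP_prime hq.1, PP_lt hq.1, hq.2⟩
      _ = K * n := by simp
  have h5 := Finset.card_le_card h2
  rw [Finset.card_powerset] at h5
  have h6 : 2 ^ T.card ≤ 2 ^ (K * n) := Nat.pow_le_pow_right (by norm_num) h3
  exact_mod_cast h5.trans h6

/-! ### one pair -/

/-- the estimate of one pair from the mean values -/
theorem pair_bound (I : Finset ℤ) (n f f' : ℤ → ℝ) (S G L wn E : ℝ)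
    (hL : 0 ≤ L) (hwn : 0 ≤ wn) (hG : |G| ≤ wn)
    (h2 : |(∑ x ∈ I, n x * f x * f' x) - S * (L * G ^ 2)| ≤ |S| * ((wn + 1) ^ 2 * E))
    (h1 : |(∑ x ∈ I, n x * f x) - L * G| ≤ (wn + 1) * E)
    (h1' : |(∑ x ∈ I, n x * f' x) - L * G| ≤ (wn + 1) * E)
    (h0 : |(∑ x ∈ I, n x) - L| ≤ E) :
    |∑ x ∈ I, n x * (f x - G) * (f' x - G)| ≤
      (wn + 1) ^ 2 * (|S - 1| * (L + E) + 4 * E) := by
  have hE : 0 ≤ E := (abs_nonneg _).trans h0
  have key : ∑ x ∈ I, n x * (f x - G) * (f' x - G) =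
      (S - 1) * (L * G ^ 2) + ((∑ x ∈ I, n x * f x * f' x) - S * (L * G ^ 2)) -
      G * ((∑ x ∈ I, n x * f x) - L * G) - G * ((∑ x ∈ I, n x * f' x) - L * G) +
      G ^ 2 * ((∑ x ∈ I, n x) - L) := by
    have h3 : ∑ x ∈ I, n x * (f x - G) * (f' x - G) =
        (∑ x ∈ I, n x * f x * f' x) - G * (∑ x ∈ I, n x * f x) - G * (∑ x ∈ I, n x * f' x) +
        G ^ 2 * (∑ x ∈ I, n x) := by
      rw [Finset.mul_sum, Finset.mul_sum, Finset.mul_sum, ← Finset.sum_sub_distrib,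
        ← Finset.sum_sub_distrib, ← Finset.sum_add_distrib]
      refine Finset.sum_congr rfl (fun x _ => ?_)
      ring
    rw [h3]; ring
  rw [key]
  have hG2 : G ^ 2 ≤ (wn + 1) ^ 2 := by
    rw [← sq_abs G]
    exact pow_le_pow_left₀ (abs_nonneg _) (hG.trans (by linarith)) 2
  have a1 : |(S - 1) * (L * G ^ 2)| ≤ |S - 1| * (L * (wn + 1) ^ 2) := by
    rw [abs_mul, abs_of_nonneg (by positivity : 0 ≤ L * G ^ 2)]
    exact mul_le_mul_of_nonneg_left (mul_le_mul_of_nonneg_left hG2 hL) (abs_nonneg _)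
  have a2 : |S| ≤ |S - 1| + 1 := by
    have := abs_add_le (S - 1) 1
    simpa using this
  have a2' : |S| * ((wn + 1) ^ 2 * E) ≤ (|S - 1| + 1) * ((wn + 1) ^ 2 * E) :=
    mul_le_mul_of_nonneg_right a2 (by positivity)
  have a3 : ∀ t : ℝ, |t| ≤ (wn + 1) * E → |G * t| ≤ (wn + 1) ^ 2 * E := by
    intro t ht
    rw [abs_mul]
    calc |G| * |t| ≤ (wn + 1) * ((wn + 1) * E) :=
          mul_le_mul (hG.trans (by linarith)) ht (abs_nonneg _) (by linarith)
      _ = _ := by ring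
  have a4 : |G ^ 2 * ((∑ x ∈ I, n x) - L)| ≤ (wn + 1) ^ 2 * E := by
    rw [abs_mul, abs_of_nonneg (sq_nonneg G)]
    exact mul_le_mul hG2 h0 (abs_nonneg _) (by positivity)
  have b1 := a3 _ h1
  have b2 := a3 _ h1'
  refine (abs_add_le _ _).trans ?_
  have t1 := abs_sub ((S - 1) * (L * G ^ 2) + ((∑ x ∈ I, n x * f x * f' x) - S * (L * G ^ 2)) -
      G * ((∑ x ∈ I, n x * f x) - L * G)) (G * ((∑ x ∈ I, n x * f' x) - L * G))
  have t2 := abs_sub ((S - 1) * (L * G ^ 2) + ((∑ x ∈ I, n x * f x * f' x) - S * (L * G ^ 2)))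
      (G * ((∑ x ∈ I, n x * f x) - L * G))
  have t3 := abs_add_le ((S - 1) * (L * G ^ 2)) ((∑ x ∈ I, n x * f x * f' x) - S * (L * G ^ 2))
  calc _ ≤ (((|S - 1| * (L * (wn + 1) ^ 2) + (|S - 1| + 1) * ((wn + 1) ^ 2 * E)) +
        (wn + 1) ^ 2 * E) + (wn + 1) ^ 2 * E) + (wn + 1) ^ 2 * E := by linarith
    _ = _ := by ring

end Pool.Agent.Lib.MT2
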