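import Pool.Agent.Lib.MT2.DispB42

/-!
MT2, module DISP (helper42), part C: the estimate of a pair of distinct primes and of the diagonal
terms.
-/

set_option autoImplicit false

namespace Pool.Agent.Lib.MT2

open Finset
open Pool.Agent.Lib.TwinAll

/-- EV2 at a fixed `z` -/
def Ev2At (k K s t z0 b E0 : ℕ) (C1 : ℝ) (z : ℕ) : Prop :=
    ∀ R X : ℕ, R ≤ z ^ b → X ≤ z ^ b →
    ∀ A B : Fin k → ℤ, (∀ j, ∀ q ∈ PP z0 z, ¬ ((q : ℤ) ∣ A j)) →
    ∀ (α β : Fin K → ℤ) (J : Finset (Fin K)) (c c' : Cond K → ℝ),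
    Wt C1 X J c → Wt C1 X J c' →
    ∀ (μ ν μ' ν' : ℤ) (Exc : Finset ℕ), Exc.card ≤ E0 →
    (∀ q ∈ PP z R, q ∉ Exc → ∀ j ∈ J, ¬ ((q : ℤ) ∣ α j * μ) ∧ ¬ ((q : ℤ) ∣ α j * μ')) →
    (∀ q ∈ PP z R, ∀ j ∈ J, (¬ ((q : ℤ) ∣ α j * μ) ∨ ∀ m : ℤ, ¬ ((q : ℤ) ∣ α j * (μ * m + ν) + β j)) ∧
      (¬ ((q : ℤ) ∣ α j * μ') ∨ ∀ m : ℤ, ¬ ((q : ℤ) ∣ α j * (μ' * m + ν') + β j))) →
    (∀ q ∈ PP z R, q ∉ Exc → ∀ i ∈ J, ∀ j ∈ J, ∀ m : ℤ,
      ¬ ((q : ℤ) ∣ α i * (μ * m + ν) + β i ∧ (q : ℤ) ∣ α j * (μ' * m + ν') + β j)) →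
    ∀ (u : ℤ) (H : ℕ),
      |(∑ m ∈ Ioc u (u + H), nu z0 z A B m * wt z R c α β (μ * m + ν) *
          wt z R c' α β (μ' * m + ν')) - H * (wmean z R c * wmean z R c')| ≤
        (1 / 2) ^ t * (wnorm z R c * wnorm z R c' + 1) * H + (X : ℝ) ^ 2 * (z : ℝ) ^ (s * (t + 1))

/-- EV1 at a fixed `z` -/
def Ev1At (k K s t z0 b E0 : ℕ) (C1 : ℝ) (z : ℕ) : Prop :=
    ∀ R X : ℕ, R ≤ z ^ b → X ≤ z ^ b →
    ∀ A B : Fin k → ℤ, (∀ j, ∀ q ∈ PP z0 z, ¬ ((q : ℤ) ∣ A j)) →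
    ∀ (α β : Fin K → ℤ) (J : Finset (Fin K)) (c : Cond K → ℝ), Wt C1 X J c →
    ∀ (μ ν : ℤ) (Exc : Finset ℕ), Exc.card ≤ E0 →
    (∀ q ∈ PP z R, q ∉ Exc → ∀ j ∈ J, ¬ ((q : ℤ) ∣ α j * μ)) →
    (∀ q ∈ PP z R, ∀ j ∈ J, ¬ ((q : ℤ) ∣ α j * μ) ∨
      ∀ m : ℤ, ¬ ((q : ℤ) ∣ α j * (μ * m + ν) + β j)) →
    ∀ (u : ℤ) (H : ℕ),
      |(∑ m ∈ Ioc u (u + H), nu z0 z A B m * wt z R c α β (μ * m + ν)) - H * wmean z R c| ≤
        (1 / 2) ^ t * (wnorm z R c + 1) * H + (X : ℝ) * (z : ℝ) ^ (s * (t + 1))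

/-- S2 for one form at a fixed `z` -/
def S2At (s t z0 z : ℕ) : Prop :=
    ∀ a b : Fin 1 → ℤ, (∀ j, ∀ q ∈ PP z0 z, ¬ ((q : ℤ) ∣ a j)) → ∀ (u : ℤ) (H : ℕ),
      |(∑ n ∈ Ioc u (u + H), nu z0 z a b n) - (H : ℝ)| ≤
        (1 / 2) ^ t * (H : ℝ) + (z : ℝ) ^ (s * (t + 1))

/-- the data of DISP -/
structure Ctx {k K : ℕ} (z0 z C0 : ℕ) (a0 b0 : ℤ) (a : Fin k → ℤ) (α β : Fin K → ℤ)
    (J : Finset (Fin K)) : Prop where
  z0k : 2 * k + 1 ≤ z0
  z0z : z0 ≤ z
  zbig : 8 * C0 ^ 3 + 2 ≤ z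
  a0pos : 0 < a0
  a0C : a0 ≤ C0
  b0C : |b0| ≤ C0
  a0small : ∀ q : ℕ, q.Prime → (q : ℤ) ∣ a0 → q ≤ z0
  sf : SF C0 z0 a
  mf : MF C0 z0 α β
  det : ∀ j ∈ J, a0 * β j ≠ α j * b0

theorem coprime_of_small {z0 z : ℕ} {x : ℤ} (h : ∀ q : ℕ, q.Prime → (q : ℤ) ∣ x → q ≤ z0) :
    ∀ q ∈ PP z0 z, IsCoprime x (q : ℤ) := by
  intro q hq
  have h1 : ¬ ((q : ℤ) ∣ x) := fun h2 => by
    have := h q (PP_prime hq) h2
    have := PP_lt hq
    omega
  exact ((Prime.coprime_iff_not_dvd (Nat.prime_iff_prime_int.1 (PP_prime hq))).2 h1).symm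

section ctx

variable {k K : ℕ} {z0 z C0 : ℕ} {a0 b0 : ℤ} {a : Fin k → ℤ} {α β : Fin K → ℤ}
  {J : Finset (Fin K)}

theorem Ctx.copa0 (hC : Ctx z0 z C0 a0 b0 a α β J) : ∀ q ∈ PP z0 z, IsCoprime a0 (q : ℤ) :=
  coprime_of_small hC.a0small

theorem Ctx.cons_ok (hC : Ctx z0 z C0 a0 b0 a α β J) :
    ∀ j, ∀ q ∈ PP z0 z, ¬ ((q : ℤ) ∣ (Fin.cons 1 a : Fin (k + 1) → ℤ) j) := by
  intro j
  refine Fin.cases ?_ (fun j => ?_) j
  · rw [Fin.cons_zero]; exact not_dvd_one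
  · rw [Fin.cons_succ]
    exact not_dvd_of_coprime (coprime_of_small (hC.sf.large j))

theorem Ctx.A1_ok (hC : Ctx z0 z C0 a0 b0 a α β J) {p : ℕ} (hp : p.Prime) (hzp : z < p) :
    ∀ j, ∀ q ∈ PP z0 z, ¬ ((q : ℤ) ∣ A1 a0 a (p : ℤ) j) := by
  intro j
  unfold A1
  refine Fin.cases ?_ (fun j => ?_) j
  · rw [Fin.cons_zero]; exact not_dvd_of_coprime hC.copa0
  · rw [Fin.cons_succ]
    exact not_dvd_of_coprime (fun q hq =>
      (coprime_of_small (hC.sf.large j) q hq).mul_left (coprime_of_gt hp hzp q hq))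

theorem Ctx.A2_ok (hC : Ctx z0 z C0 a0 b0 a α β J) {p p' : ℕ} (hp : p.Prime) (hzp : z < p)
    (hp' : p'.Prime) (hzp' : z < p') :
    ∀ j, ∀ q ∈ PP z0 z, ¬ ((q : ℤ) ∣ A2 a0 a (p : ℤ) p' j) := by
  intro j
  unfold A2
  refine Fin.cases ?_ (fun j => ?_) j
  · rw [Fin.cons_zero]; exact not_dvd_of_coprime hC.copa0
  · rw [Fin.cons_succ]
    refine Fin.addCases (fun j => ?_) (fun j => ?_) j
    · rw [Fin.append_left]
      exact not_dvd_of_coprime (fun q hq =>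
        (coprime_of_small (hC.sf.large j) q hq).mul_left (coprime_of_gt hp hzp q hq))
    · rw [Fin.append_right]
      exact not_dvd_of_coprime (fun q hq =>
        (coprime_of_small (hC.sf.large j) q hq).mul_left (coprime_of_gt hp' hzp' q hq))

theorem Ctx.V2_ok (hC : Ctx z0 z C0 a0 b0 a α β J) (Δ : Fin k → ℤ) {p p' : ℕ} (hp : p.Prime)
    (hzp : z < p) (hp' : p'.Prime) (hzp' : z < p') : 0 < V2 z0 z a Δ (p : ℤ) p' := by
  unfold V2
  refine VV_pos (by have := hC.z0k; omega) _ _ (fun j => ?_)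
  refine Fin.cases ?_ (fun j => ?_) j
  · rw [Fin.cons_zero]; exact not_dvd_one
  · rw [Fin.cons_succ]
    refine Fin.addCases (fun j => ?_) (fun j => ?_) j
    · rw [Fin.append_left]
      exact not_dvd_of_coprime (fun q hq =>
        (coprime_of_small (hC.sf.large j) q hq).mul_left (coprime_of_gt hp hzp q hq))
    · rw [Fin.append_right]
      exact not_dvd_of_coprime (fun q hq =>
        (coprime_of_small (hC.sf.large j) q hq).mul_left (coprime_of_gt hp' hzp' q hq))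

theorem Ctx.VJ_ok (hC : Ctx z0 z C0 a0 b0 a α β J) (d : Fin k → ℤ) :
    0 < VJ z0 z a0 b0 a d ∧ (VJ z0 z a0 b0 a d)⁻¹ ≤ (z : ℝ) ^ (k + 1) := by
  have := hC.z0k
  exact ⟨VV_pos (by omega) _ _ hC.cons_ok, VV_inv_le (by omega) hC.z0z _ _ hC.cons_ok⟩

/-- the numbers `D_j` -/
theorem Ctx.D_ok (hC : Ctx z0 z C0 a0 b0 a α β J) :
    (∀ j ∈ J, a0 * β j - α j * b0 ≠ 0) ∧ ∀ j, |a0 * β j - α j * b0| ≤ 2 * (C0 : ℤ) ^ 2 := by
  refine ⟨fun j hj => sub_ne_zero.2 (hC.det j hj), fun j => ?_⟩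
  have h1 : |a0 * β j| ≤ (C0 : ℤ) * C0 := by
    rw [abs_mul, abs_of_pos hC.a0pos]
    exact mul_le_mul hC.a0C (hC.mf.bd j).2 (abs_nonneg _) (by exact_mod_cast Nat.zero_le _)
  have h2 : |α j * b0| ≤ (C0 : ℤ) * C0 := by
    rw [abs_mul, abs_of_pos (hC.mf.pos j).1]
    exact mul_le_mul (hC.mf.bd j).1 hC.b0C (abs_nonneg _) (by exact_mod_cast Nat.zero_le _)
  have h3 := abs_sub (a0 * β j) (α j * b0)
  nlinarith

/-- no root at the prime itself -/
theorem Ctx.noroot (hC : Ctx z0 z C0 a0 b0 a α β J) {p : ℕ} (hzp : z < p)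
    {m0 u : ℤ} (hu : a0 * u = p * m0 - b0) {j : Fin K} (hj : j ∈ J) (m : ℤ) :
    ¬ ((p : ℤ) ∣ α j * (p * m + u) + β j) := by
  intro h
  have h1 : (p : ℤ) ∣ a0 * β j - α j * b0 := by
    have h2 : a0 * β j - α j * b0 =
        a0 * (α j * (p * m + u) + β j) - p * (α j * (a0 * m + m0)) := by
      linear_combination (-α j) * hu
    rw [h2]
    exact dvd_sub (Dvd.dvd.mul_left h _) (Dvd.intro _ rfl)
  have h3 := Int.eq_zero_of_abs_lt_dvd h1 (by
    refine lt_of_le_of_lt (hC.D_ok.2 j) ?_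
    have h4 := hC.zbig
    have h5 : C0 ^ 2 ≤ C0 ^ 3 + 1 := by
      rcases Nat.eq_zero_or_pos C0 with h | h
      · subst h; simp
      · have h7 : C0 ^ 2 ≤ C0 ^ 3 := Nat.pow_le_pow_right h (by norm_num)
        omega
    have h6 : 2 * C0 ^ 2 < p := by omega
    exact_mod_cast h6)
  exact hC.D_ok.1 j hj h3

open Classical in
/-- exceptional primes of a pair -/
noncomputable def Exc2 (z R : ℕ) (a0 b0 : ℤ) (α β : Fin K → ℤ) (J : Finset (Fin K)) (p p' : ℕ) :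
    Finset ℕ :=
  insert p (insert p' ((J ×ˢ J).biUnion (fun x => (PP z R).filter (fun q : ℕ =>
    (q : ℤ) ∣ α x.2 * p' * (a0 * β x.1 - α x.1 * b0) - α x.1 * p * (a0 * β x.2 - α x.2 * b0)))))

theorem Ctx.exc_card (hC : Ctx z0 z C0 a0 b0 a α β J) {R B p p' : ℕ} (hp : p.Prime)
    (hzp : z < p) (hp' : p'.Prime) (hne : p ≠ p')
    (hb : 2 * C0 ^ 3 * (p + p') ≤ z ^ (B + 1)) :
    (Exc2 z R a0 b0 α β J p p').card ≤ 2 + K * K * (B + 1) := by
  classical
  unfold Exc2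
  refine (Finset.card_insert_le _ _).trans ?_
  have h1 := Finset.card_insert_le p' ((J ×ˢ J).biUnion (fun x => (PP z R).filter (fun q : ℕ =>
    (q : ℤ) ∣ α x.2 * p' * (a0 * β x.1 - α x.1 * b0) - α x.1 * p * (a0 * β x.2 - α x.2 * b0))))
  have h2 : ((J ×ˢ J).biUnion (fun x => (PP z R).filter (fun q : ℕ =>
    (q : ℤ) ∣ α x.2 * p' * (a0 * β x.1 - α x.1 * b0) -
      α x.1 * p * (a0 * β x.2 - α x.2 * b0)))).card ≤ K * K * (B + 1) := by
    refine Finset.card_biUnion_le.trans ?_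
    have h3 : ∀ x ∈ J ×ˢ J, ((PP z R).filter (fun q : ℕ =>
      (q : ℤ) ∣ α x.2 * p' * (a0 * β x.1 - α x.1 * b0) -
        α x.1 * p * (a0 * β x.2 - α x.2 * b0))).card ≤ B + 1 := by
      intro x hx
      rw [Finset.mem_product] at hx
      have hD1 := hC.D_ok.2 x.1
      have hD2 := hC.D_ok.2 x.2
      have hz2 : 2 ≤ z := by have := hC.zbig; omega
      refine card_large_primes hz2 _ (α x.2 * p' * (a0 * β x.1 - α x.1 * b0) -
        α x.1 * p * (a0 * β x.2 - α x.2 * b0)) ?_ ?_ (fun q hq => ?_)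
      · intro h0
        have h4 : (p : ℤ) ∣ α x.2 * (a0 * β x.1 - α x.1 * b0) := by
          have h5 : (p : ℤ) ∣ (p' : ℤ) * (α x.2 * (a0 * β x.1 - α x.1 * b0)) := by
            have h6 : (p' : ℤ) * (α x.2 * (a0 * β x.1 - α x.1 * b0)) =
                p * (α x.1 * (a0 * β x.2 - α x.2 * b0)) := by linear_combination h0
            rw [h6]
            exact Dvd.intro _ rfl
          have h7 : IsCoprime (p : ℤ) (p' : ℤ) := by
            rw [Nat.isCoprime_iff_coprime, Nat.coprime_primes hp hp']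
            exact hne
          exact h7.dvd_of_dvd_mul_left h5
        have h8 := Int.eq_zero_of_abs_lt_dvd h4 (by
          rw [abs_mul, abs_of_pos (hC.mf.pos x.2).1]
          have h9 : α x.2 * |a0 * β x.1 - α x.1 * b0| ≤ (C0 : ℤ) * (2 * (C0 : ℤ) ^ 2) :=
            mul_le_mul (hC.mf.bd x.2).1 hD1 (abs_nonneg _) (by exact_mod_cast Nat.zero_le _)
          refine lt_of_le_of_lt h9 ?_
          have h10 : 2 * C0 ^ 3 < p := by have := hC.zbig; omega
          have h11 : (2 * (C0 : ℤ) ^ 3) < p := by exact_mod_cast h10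
          refine lt_of_eq_of_lt ?_ h11
          ring)
        rcases mul_eq_zero.1 h8 with h9 | h9
        · have := (hC.mf.pos x.2).1; omega
        · exact hC.D_ok.1 x.1 hx.1 h9
      · have h4 : |α x.2 * p' * (a0 * β x.1 - α x.1 * b0)| ≤ 2 * (C0 : ℤ) ^ 3 * p' := by
          rw [abs_mul, abs_mul, abs_of_pos (hC.mf.pos x.2).1, abs_of_nonneg (by positivity : (0:ℤ) ≤ p')]
          calc α x.2 * p' * |a0 * β x.1 - α x.1 * b0| ≤ ((C0 : ℤ) * p') * (2 * (C0 : ℤ) ^ 2) :=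
                mul_le_mul (mul_le_mul_of_nonneg_right (hC.mf.bd x.2).1 (by positivity)) hD1
                  (abs_nonneg _) (by positivity)
            _ = _ := by ring
        have h5 : |α x.1 * p * (a0 * β x.2 - α x.2 * b0)| ≤ 2 * (C0 : ℤ) ^ 3 * p := by
          rw [abs_mul, abs_mul, abs_of_pos (hC.mf.pos x.1).1, abs_of_nonneg (by positivity : (0:ℤ) ≤ p)]
          calc α x.1 * p * |a0 * β x.2 - α x.2 * b0| ≤ ((C0 : ℤ) * p) * (2 * (C0 : ℤ) ^ 2) :=
                mul_le_mul (mul_le_mul_of_nonneg_right (hC.mf.bd x.1).1 (by positivity)) hD2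
                  (abs_nonneg _) (by positivity)
            _ = _ := by ring
        have h6 := abs_sub (α x.2 * p' * (a0 * β x.1 - α x.1 * b0))
          (α x.1 * p * (a0 * β x.2 - α x.2 * b0))
        have h7 : (2 * (C0 : ℤ) ^ 3 * (p + p')) ≤ (z : ℤ) ^ (B + 1) := by exact_mod_cast hb
        linarith
      · rw [Finset.mem_filter] at hq
        exact ⟨PP_prime hq.1, PP_lt hq.1, hq.2⟩
    refine (Finset.sum_le_sum h3).trans ?_
    rw [Finset.sum_const, smul_eq_mul, Finset.card_product]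
    have h4 : J.card ≤ K := by simpa using Finset.card_le_univ J
    exact Nat.mul_le_mul_right _ (Nat.mul_le_mul h4 h4)
  omega

open Classical in
/-- the estimate of the sum over `m` for a pair of distinct primes -/
theorem off_pair {R X b B s t : ℕ} {C1 : ℝ} {c : Cond K → ℝ} {d : Fin k → ℤ}
    (hC : Ctx z0 z C0 a0 b0 a α β J) (hR : R ≤ z ^ b) (hX : X ≤ z ^ b) (hX1 : 1 ≤ X)
    (hW : Wt C1 X J c) (h2 : Ev2At (k + k + 1) K s t z0 b (2 + K * K * (B + 1)) C1 z)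
    (h1 : Ev1At (k + 1) K s t z0 b 1 C1 z) (h3 : S2At s t z0 z)
    {p p' : ℕ} (hp : p.Prime) (hzp : z < p) (hp' : p'.Prime) (hzp' : z < p') (hne : p ≠ p')
    (hb : 2 * C0 ^ 3 * (p + p') ≤ z ^ (B + 1)) {m0 u u' : ℤ}
    (hu : a0 * u = p * m0 - b0) (hu' : a0 * u' = p' * m0 - b0) (v : ℤ) (L : ℕ) :
    |∑ x ∈ Ioc v (v + L), nu z0 z (![1] : Fin 1 → ℤ) ![0] (m0 + a0 * x) *
        (wt z R c α β (p * x + u) * nuJ z0 z a0 b0 a d (p * x + u) - wmean z R c) *
        (wt z R c α β (p' * x + u') * nuJ z0 z a0 b0 a d (p' * x + u') - wmean z R c)| ≤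
      (wnorm z R c + 1) ^ 2 * (|SS2 z0 z a0 b0 a d p p' - 1| *
        (L + ((1 / 2) ^ t * L + (X : ℝ) ^ 2 * (z : ℝ) ^ (s * (t + 1)))) +
        4 * ((1 / 2) ^ t * L + (X : ℝ) ^ 2 * (z : ℝ) ^ (s * (t + 1)))) := by
  have hz01 : 1 ≤ z0 := by have := hC.z0k; omega
  have hwn := wnorm_nonneg z R c
  have hzs : (0 : ℝ) ≤ (z : ℝ) ^ (s * (t + 1)) := by positivity
  have hX1' : (1 : ℝ) ≤ X := by exact_mod_cast hX1
  have hXX : (X : ℝ) ≤ (X : ℝ) ^ 2 := by nlinarith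
  have hX2 : (1 : ℝ) ≤ (X : ℝ) ^ 2 := hX1'.trans hXX
  have hL : (0 : ℝ) ≤ L := Nat.cast_nonneg L
  have hη : (0 : ℝ) ≤ (1 / 2) ^ t * (L : ℝ) := by positivity
  -- one prime
  have one : ∀ (r : ℕ) (w : ℤ), r.Prime → z < r → a0 * w = r * m0 - b0 →
      |(∑ x ∈ Ioc v (v + L), nu z0 z (![1] : Fin 1 → ℤ) ![0] (m0 + a0 * x) *
        (wt z R c α β (r * x + w) * nuJ z0 z a0 b0 a d (r * x + w))) - L * wmean z R c| ≤
      (wnorm z R c + 1) * ((1 / 2) ^ t * L + (X : ℝ) ^ 2 * (z : ℝ) ^ (s * (t + 1))) := by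
    intro r w hr hzr hw
    have g := h1 R X hR hX (A1 a0 a r) (B1 m0 a d w) (hC.A1_ok hr hzr) α β J c hW r w {r}
      (by simp) (by
        intro q hq hqr j _ hd
        rcases (Nat.prime_iff_prime_int.1 (PP_prime hq)).dvd_or_dvd hd with h | h
        · have e1 := hC.mf.large j q (PP_prime hq) h
          have e2 := PP_lt hq
          have e3 := hC.z0z
          omega
        · have := (Nat.prime_dvd_prime_iff_eq (PP_prime hq) hr).1 (by exact_mod_cast h)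
          exact hqr (by simp [this])) (by
        intro q hq j hj
        by_cases hqr : q = r
        · right
          intro m
          rw [hqr]
          exact hC.noroot hzr hw hj m
        · left
          intro hd
          rcases (Nat.prime_iff_prime_int.1 (PP_prime hq)).dvd_or_dvd hd with h | h
          · have e1 := hC.mf.large j q (PP_prime hq) h
            have e2 := PP_lt hq
            have e3 := hC.z0z
            omega
          · exact hqr ((Nat.prime_dvd_prime_iff_eq (PP_prime hq) hr).1 (by exact_mod_cast h)))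
      v L
    have e : ∑ x ∈ Ioc v (v + L), nu z0 z (![1] : Fin 1 → ℤ) ![0] (m0 + a0 * x) *
        (wt z R c α β (r * x + w) * nuJ z0 z a0 b0 a d (r * x + w)) =
        ∑ m ∈ Ioc v (v + L), nu z0 z (A1 a0 a r) (B1 m0 a d w) m * wt z R c α β (r * m + w) := by
      refine Finset.sum_congr rfl (fun x _ => ?_)
      rw [← nu_A1 hz01 a0 b0 m0 r w a d hC.copa0 (coprime_of_gt hr hzr) hw x]
      ring
    rw [e]
    refine g.trans ?_
    have e1 : (1 / 2 : ℝ) ^ t * (wnorm z R c + 1) * L + X * (z : ℝ) ^ (s * (t + 1)) ≤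
        (wnorm z R c + 1) * ((1 / 2) ^ t * L) + 1 * ((X : ℝ) ^ 2 * (z : ℝ) ^ (s * (t + 1))) := by
      have := mul_le_mul_of_nonneg_right hXX hzs
      linarith
    have e2 : 1 * ((X : ℝ) ^ 2 * (z : ℝ) ^ (s * (t + 1))) ≤
        (wnorm z R c + 1) * ((X : ℝ) ^ 2 * (z : ℝ) ^ (s * (t + 1))) :=
      mul_le_mul_of_nonneg_right (by linarith) (by positivity)
    linarith
  -- the pair
  have two : |(∑ x ∈ Ioc v (v + L), nu z0 z (![1] : Fin 1 → ℤ) ![0] (m0 + a0 * x) *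
        (wt z R c α β (p * x + u) * nuJ z0 z a0 b0 a d (p * x + u)) *
        (wt z R c α β (p' * x + u') * nuJ z0 z a0 b0 a d (p' * x + u'))) -
        SS2 z0 z a0 b0 a d p p' * (L * wmean z R c ^ 2)| ≤
      |SS2 z0 z a0 b0 a d p p'| * ((wnorm z R c + 1) ^ 2 *
        ((1 / 2) ^ t * L + (X : ℝ) ^ 2 * (z : ℝ) ^ (s * (t + 1)))) := by
    have pr : ∀ q ∈ PP z R, ∀ r : ℕ, r.Prime → q ≠ r → ∀ j, ¬ ((q : ℤ) ∣ α j * r) := by
      intro q hq r hr hqr j hd
      rcases (Nat.prime_iff_prime_int.1 (PP_prime hq)).dvd_or_dvd hd with h | h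
      · have e1 := hC.mf.large j q (PP_prime hq) h
        have e2 := PP_lt hq
        have e3 := hC.z0z
        omega
      · exact hqr ((Nat.prime_dvd_prime_iff_eq (PP_prime hq) hr).1 (by exact_mod_cast h))
    have g := h2 R X hR hX (A2 a0 a p p') (B2 m0 a d u u') (hC.A2_ok hp hzp hp' hzp') α β J c c
      hW hW p u p' u' (Exc2 z R a0 b0 α β J p p') (hC.exc_card hp hzp hp' hne hb) (by
        intro q hq hqE j _
        unfold Exc2 at hqE
        rw [Finset.mem_insert, Finset.mem_insert, not_or, not_or] at hqE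
        exact ⟨pr q hq p hp hqE.1 j, pr q hq p' hp' hqE.2.1 j⟩) (by
        intro q hq j hj
        constructor
        · by_cases hqr : q = p
          · right
            intro m
            rw [hqr]
            exact hC.noroot hzp hu hj m
          · left; exact pr q hq p hp hqr j
        · by_cases hqr : q = p'
          · right
            intro m
            rw [hqr]
            exact hC.noroot hzp' hu' hj m
          · left; exact pr q hq p' hp' hqr j) (by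
        intro q hq hqE i hi j hj m hd
        apply hqE
        unfold Exc2
        rw [Finset.mem_insert, Finset.mem_insert, Finset.mem_biUnion]
        right; right
        refine ⟨(i, j), Finset.mem_product.2 ⟨hi, hj⟩, ?_⟩
        rw [Finset.mem_filter]
        refine ⟨hq, ?_⟩
        show (q : ℤ) ∣ α j * p' * (a0 * β i - α i * b0) - α i * p * (a0 * β j - α j * b0)
        have e : α j * p' * (a0 * β i - α i * b0) - α i * p * (a0 * β j - α j * b0) =
            (α j * p' * a0) * (α i * (p * m + u) + β i) -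
            (α i * p * a0) * (α j * (p' * m + u') + β j) := by
          linear_combination (-(α i * α j * p')) * hu + (α i * α j * p) * hu'
        rw [e]
        exact dvd_sub (Dvd.dvd.mul_left hd.1 _) (Dvd.dvd.mul_left hd.2 _))
      v L
    have e : ∑ x ∈ Ioc v (v + L), nu z0 z (![1] : Fin 1 → ℤ) ![0] (m0 + a0 * x) *
        (wt z R c α β (p * x + u) * nuJ z0 z a0 b0 a d (p * x + u)) *
        (wt z R c α β (p' * x + u') * nuJ z0 z a0 b0 a d (p' * x + u')) =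
        SS2 z0 z a0 b0 a d p p' * ∑ m ∈ Ioc v (v + L), nu z0 z (A2 a0 a p p') (B2 m0 a d u u') m *
          wt z R c α β (p * m + u) * wt z R c α β (p' * m + u') := by
      rw [Finset.mul_sum]
      refine Finset.sum_congr rfl (fun x _ => ?_)
      have e1 := nu_A2 hz01 a0 b0 m0 p p' u u' a d hC.copa0 hu hu'
        (hC.V2_ok _ hp hzp hp' hzp') x
      linear_combination (wt z R c α β (p * x + u) * wt z R c α β (p' * x + u')) * e1
    rw [e]
    have e2 : SS2 z0 z a0 b0 a d p p' * ∑ m ∈ Ioc v (v + L), nu z0 z (A2 a0 a p p')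
          (B2 m0 a d u u') m * wt z R c α β (p * m + u) * wt z R c α β (p' * m + u') -
        SS2 z0 z a0 b0 a d p p' * (L * wmean z R c ^ 2) =
        SS2 z0 z a0 b0 a d p p' * ((∑ m ∈ Ioc v (v + L), nu z0 z (A2 a0 a p p')
          (B2 m0 a d u u') m * wt z R c α β (p * m + u) * wt z R c α β (p' * m + u')) -
          L * (wmean z R c * wmean z R c)) := by ring
    rw [e2, abs_mul]
    refine mul_le_mul_of_nonneg_left (g.trans ?_) (abs_nonneg _)
    have e3 : wnorm z R c * wnorm z R c + 1 ≤ (wnorm z R c + 1) ^ 2 := by nlinarith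
    have e4 := mul_le_mul_of_nonneg_right e3 hη
    have e5 : 1 * ((X : ℝ) ^ 2 * (z : ℝ) ^ (s * (t + 1))) ≤
        (wnorm z R c + 1) ^ 2 * ((X : ℝ) ^ 2 * (z : ℝ) ^ (s * (t + 1))) :=
      mul_le_mul_of_nonneg_right (by nlinarith) (by positivity)
    nlinarith
  -- no prime
  have zero : |(∑ x ∈ Ioc v (v + L), nu z0 z (![1] : Fin 1 → ℤ) ![0] (m0 + a0 * x)) - L| ≤
      (1 / 2) ^ t * L + (X : ℝ) ^ 2 * (z : ℝ) ^ (s * (t + 1)) := by
    have g := h3 (fun _ => a0) (fun _ => m0) (fun _ => not_dvd_of_coprime hC.copa0) v L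
    have e : ∀ x : ℤ, nu z0 z (![1] : Fin 1 → ℤ) ![0] (m0 + a0 * x) =
        nu z0 z (fun _ : Fin 1 => a0) (fun _ => m0) x := by
      intro x
      unfold nu
      have e1 : VV z0 z (fun _ : Fin 1 => a0) (fun _ => m0) =
          VV z0 z (![1] : Fin 1 → ℤ) ![0] := by
        rw [← VV_aff z0 z (![1] : Fin 1 → ℤ) ![0] a0 m0 hC.copa0]
        congr 1
        · funext j; fin_cases j; simp
        · funext j; fin_cases j; simp
      rw [e1]
      have e2 : (∀ j : Fin 1, Rough z0 z ((![1] : Fin 1 → ℤ) j * (m0 + a0 * x) +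
          (![0] : Fin 1 → ℤ) j)) ↔ ∀ _j : Fin 1, Rough z0 z (a0 * x + m0) := by
        simp [add_comm]
      by_cases hr : ∀ _j : Fin 1, Rough z0 z (a0 * x + m0)
      · rw [if_pos (e2.2 hr), if_pos hr]
      · rw [if_neg (fun h3 => hr (e2.1 h3)), if_neg hr]
    rw [Finset.sum_congr rfl (fun x _ => e x)]
    refine g.trans ?_
    have := mul_le_mul_of_nonneg_right hX2 hzs
    linarith
  exact pair_bound _ _ _ _ _ _ _ _ _ hL hwn (wmean_le z R c) two (one p u hp hzp hu)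
    (one p' u' hp' hzp' hu') zero

end ctx

end Pool.Agent.Lib.MT2
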