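import Pool.Agent.Lib.MT2.Disp42
import Pool.Agent.Lib.MT2.StmtsD

/-!
MT2, module DISPP (helper42), part A: dispersion with weight 1 and a phase, the estimates of the
pairs.
-/

set_option autoImplicit false

namespace Pool.Agent.Lib.MT2

open Finset
open Pool.Agent.Lib.TwinAll

/-! ### expansion of the square -/

theorem sq_expand_C (Ms : Finset ℤ) (Ps : Finset ℕ) (w : ℤ → ℝ) (f : ℕ → ℤ → ℂ)
    (c : ℕ → ℤ → Prop) [∀ p m, Decidable (c p m)] :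
    ∑ m ∈ Ms, w m * ‖∑ p ∈ Ps.filter (fun p => c p m), f p m‖ ^ 2 ≤
      ∑ p ∈ Ps, ∑ p' ∈ Ps, ‖∑ m ∈ Ms.filter (fun m => c p m ∧ c p' m),
        (w m : ℂ) * f p m * (starRingEnd ℂ) (f p' m)‖ := by
  have h1 : ∀ m ∈ Ms, ((w m * ‖∑ p ∈ Ps.filter (fun p => c p m), f p m‖ ^ 2 : ℝ) : ℂ) =
      ∑ p ∈ Ps, ∑ p' ∈ Ps, (if c p m ∧ c p' m then
        (w m : ℂ) * f p m * (starRingEnd ℂ) (f p' m) else 0) := by
    intro m _
    have h2 : ((‖∑ p ∈ Ps.filter (fun p => c p m), f p m‖ ^ 2 : ℝ) : ℂ) =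
        (∑ p ∈ Ps.filter (fun p => c p m), f p m) *
          (starRingEnd ℂ) (∑ p ∈ Ps.filter (fun p => c p m), f p m) := by
      rw [Complex.mul_conj, Complex.normSq_eq_norm_sq]
    rw [Complex.ofReal_mul, h2, map_sum, Finset.sum_mul_sum, Finset.mul_sum, Finset.sum_filter]
    refine Finset.sum_congr rfl (fun p _ => ?_)
    by_cases h : c p m
    · rw [if_pos h, Finset.mul_sum, Finset.sum_filter]
      refine Finset.sum_congr rfl (fun p' _ => ?_)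
      by_cases h' : c p' m
      · simp only [h, h', and_self, if_true]; ring
      · simp only [h, h', and_false, if_false]
    · rw [if_neg h]
      symm
      refine Finset.sum_eq_zero (fun p' _ => ?_)
      simp only [h, false_and, if_false]
  have h2 : ((∑ m ∈ Ms, w m * ‖∑ p ∈ Ps.filter (fun p => c p m), f p m‖ ^ 2 : ℝ) : ℂ) =
      ∑ p ∈ Ps, ∑ p' ∈ Ps, ∑ m ∈ Ms.filter (fun m => c p m ∧ c p' m),
        (w m : ℂ) * f p m * (starRingEnd ℂ) (f p' m) := by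
    rw [Complex.ofReal_sum, Finset.sum_congr rfl h1, Finset.sum_comm]
    refine Finset.sum_congr rfl (fun p _ => ?_)
    rw [Finset.sum_comm]
    refine Finset.sum_congr rfl (fun p' _ => ?_)
    rw [Finset.sum_filter]
  calc ∑ m ∈ Ms, w m * ‖∑ p ∈ Ps.filter (fun p => c p m), f p m‖ ^ 2
      ≤ |∑ m ∈ Ms, w m * ‖∑ p ∈ Ps.filter (fun p => c p m), f p m‖ ^ 2| := le_abs_self _
    _ = ‖((∑ m ∈ Ms, w m * ‖∑ p ∈ Ps.filter (fun p => c p m), f p m‖ ^ 2 : ℝ) : ℂ)‖ := by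
        rw [Complex.norm_real, Real.norm_eq_abs]
    _ ≤ _ := by
        rw [h2]
        exact (norm_sum_le _ _).trans (Finset.sum_le_sum (fun p _ => norm_sum_le _ _))

theorem sum_image_affC (a0 m0 : ℤ) (ha0 : 0 < a0) (S : Finset ℤ) (g : ℤ → ℂ) :
    ∑ m ∈ S.image (fun x => m0 + a0 * x), g m = ∑ x ∈ S, g (m0 + a0 * x) := by
  rw [Finset.sum_image]
  intro x _ y _ h
  have h1 : a0 * x = a0 * y := by
    have : m0 + a0 * x = m0 + a0 * y := h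
    linarith
  exact mul_left_cancel₀ (ne_of_gt ha0) h1

/-! ### one pair -/

/-- the estimate of one pair from the four sums -/
theorem pair_boundC (I : Finset ℤ) (n f f' : ℤ → ℝ) (e : ℤ → ℂ) (S L E : ℝ)
    (he : ‖∑ x ∈ I, e x‖ ≤ L)
    (h2 : ‖(∑ x ∈ I, ((n x * f x * f' x : ℝ) : ℂ) * e x) - S * ∑ x ∈ I, e x‖ ≤ |S| * E)
    (h1 : ‖(∑ x ∈ I, ((n x * f x : ℝ) : ℂ) * e x) - ∑ x ∈ I, e x‖ ≤ E)
    (h1' : ‖(∑ x ∈ I, ((n x * f' x : ℝ) : ℂ) * e x) - ∑ x ∈ I, e x‖ ≤ E)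
    (h0 : ‖(∑ x ∈ I, ((n x : ℝ) : ℂ) * e x) - ∑ x ∈ I, e x‖ ≤ E) :
    ‖∑ x ∈ I, ((n x * (f x - 1) * (f' x - 1) : ℝ) : ℂ) * e x‖ ≤
      |S - 1| * (L + E) + 4 * E := by
  have hE : 0 ≤ E := (norm_nonneg _).trans h0
  obtain ⟨T, hT⟩ : ∃ T : ℂ, T = ∑ x ∈ I, e x := ⟨_, rfl⟩
  have key : ∑ x ∈ I, ((n x * (f x - 1) * (f' x - 1) : ℝ) : ℂ) * e x =
      ((S : ℂ) - 1) * T + ((∑ x ∈ I, ((n x * f x * f' x : ℝ) : ℂ) * e x) - S * T) -
      ((∑ x ∈ I, ((n x * f x : ℝ) : ℂ) * e x) - T) -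
      ((∑ x ∈ I, ((n x * f' x : ℝ) : ℂ) * e x) - T) +
      ((∑ x ∈ I, ((n x : ℝ) : ℂ) * e x) - T) := by
    have h3 : ∑ x ∈ I, ((n x * (f x - 1) * (f' x - 1) : ℝ) : ℂ) * e x =
        (∑ x ∈ I, ((n x * f x * f' x : ℝ) : ℂ) * e x) -
        (∑ x ∈ I, ((n x * f x : ℝ) : ℂ) * e x) - (∑ x ∈ I, ((n x * f' x : ℝ) : ℂ) * e x) +
        (∑ x ∈ I, ((n x : ℝ) : ℂ) * e x) := by
      rw [← Finset.sum_sub_distrib, ← Finset.sum_sub_distrib, ← Finset.sum_add_distrib]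
      refine Finset.sum_congr rfl (fun x _ => ?_)
      push_cast
      ring
    rw [h3]; ring
  rw [key]
  rw [← hT] at he h2 h1 h1' h0
  have a1 : ‖((S : ℂ) - 1) * T‖ ≤ |S - 1| * L := by
    rw [norm_mul]
    have : ‖(S : ℂ) - 1‖ = |S - 1| := by
      rw [← Complex.ofReal_one, ← Complex.ofReal_sub, Complex.norm_real, Real.norm_eq_abs]
    rw [this]
    exact mul_le_mul_of_nonneg_left he (abs_nonneg _)
  have a2 : |S| ≤ |S - 1| + 1 := by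
    have := abs_add_le (S - 1) 1
    simpa using this
  have a2' : |S| * E ≤ (|S - 1| + 1) * E := mul_le_mul_of_nonneg_right a2 hE
  refine (norm_add_le _ _).trans ?_
  have t1 := norm_sub_le (((S : ℂ) - 1) * T +
      ((∑ x ∈ I, ((n x * f x * f' x : ℝ) : ℂ) * e x) - S * T) -
      ((∑ x ∈ I, ((n x * f x : ℝ) : ℂ) * e x) - T))
      ((∑ x ∈ I, ((n x * f' x : ℝ) : ℂ) * e x) - T)
  have t2 := norm_sub_le (((S : ℂ) - 1) * T +
      ((∑ x ∈ I, ((n x * f x * f' x : ℝ) : ℂ) * e x) - S * T))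
      ((∑ x ∈ I, ((n x * f x : ℝ) : ℂ) * e x) - T)
  have t3 := norm_add_le (((S : ℂ) - 1) * T)
      ((∑ x ∈ I, ((n x * f x * f' x : ℝ) : ℂ) * e x) - S * T)
  calc _ ≤ (((|S - 1| * L + (|S - 1| + 1) * E) + E) + E) + E := by linarith
    _ = _ := by ring

/-! ### S4 for all lengths -/

/-- S4r at a fixed `z` -/
def S4At (k s t z0 B z : ℕ) : Prop :=
    ∀ a b : Fin k → ℤ, (∀ j, |a j| ≤ (z : ℤ) ^ B ∧ |b j| ≤ (z : ℤ) ^ B ∧
      ∀ q ∈ PP z0 z, ¬ ((q : ℤ) ∣ a j)) →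
    ∀ (u : ℤ) (H : ℕ), |u| ≤ (z : ℤ) ^ B → z ^ (s * (t + 1)) ≤ H → H ≤ z ^ B → ∀ θ : ℝ,
      ‖∑ n ∈ Ioc u (u + H), ((nu z0 z a b n - 1 : ℝ) : ℂ) * ee (θ * n)‖ ≤ (1 / 2) ^ t * H

theorem s4_all {k s t z0 B z N : ℕ} (h : S4At k s t z0 B z) (hk : k ≤ z0) (hz0 : z0 ≤ z)
    (hz : 2 ≤ z) (hN : s * (t + 1) + k + 1 ≤ N)
    (a b : Fin k → ℤ) (hab : ∀ j, |a j| ≤ (z : ℤ) ^ B ∧ |b j| ≤ (z : ℤ) ^ B ∧
      ∀ q ∈ PP z0 z, ¬ ((q : ℤ) ∣ a j)) (u : ℤ) (L : ℕ)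
    (hu : 0 < L → |u| ≤ (z : ℤ) ^ B ∧ L ≤ z ^ B) (θ : ℝ) :
    ‖(∑ n ∈ Ioc u (u + L), ((nu z0 z a b n : ℝ) : ℂ) * ee (θ * n)) -
      ∑ n ∈ Ioc u (u + L), ee (θ * n)‖ ≤ (1 / 2) ^ t * L + (z : ℝ) ^ N := by
  have hz1 : (1 : ℝ) ≤ z := by exact_mod_cast (by omega : 1 ≤ z)
  have e : (∑ n ∈ Ioc u (u + L), ((nu z0 z a b n : ℝ) : ℂ) * ee (θ * n)) -
      ∑ n ∈ Ioc u (u + L), ee (θ * n) =
      ∑ n ∈ Ioc u (u + L), ((nu z0 z a b n - 1 : ℝ) : ℂ) * ee (θ * n) := by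
    rw [← Finset.sum_sub_distrib]
    refine Finset.sum_congr rfl (fun n _ => ?_)
    push_cast; ring
  rw [e]
  rcases Nat.eq_zero_or_pos L with hL | hL
  · subst hL
    simp only [Nat.cast_zero, add_zero, Finset.Ioc_self, Finset.sum_empty, norm_zero, mul_zero,
      zero_add]
    positivity
  obtain ⟨hu1, hu2⟩ := hu hL
  by_cases hs : z ^ (s * (t + 1)) ≤ L
  · refine (h a b hab u L hu1 hs hu2 θ).trans ?_
    have : (0 : ℝ) ≤ (z : ℝ) ^ N := by positivity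
    linarith
  · push Not at hs
    have hk1 : (1 : ℝ) ≤ (z : ℝ) ^ k := one_le_pow₀ hz1
    have h1 : ∀ n ∈ Ioc u (u + (L : ℤ)), ‖((nu z0 z a b n - 1 : ℝ) : ℂ) * ee (θ * n)‖ ≤
        (z : ℝ) ^ k := by
      intro n _
      rw [norm_mul, norm_ee, mul_one, Complex.norm_real, Real.norm_eq_abs, abs_le]
      have a1 := nu_nonneg hk a b (fun j => (hab j).2.2) n
      have a2 := (nu_le hk a b (fun j => (hab j).2.2) n).trans
        (VV_inv_le hk hz0 a b (fun j => (hab j).2.2))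
      constructor <;> linarith
    refine (norm_sum_le _ _).trans ((Finset.sum_le_sum h1).trans ?_)
    rw [Finset.sum_const, Int.card_Ioc, nsmul_eq_mul]
    have h2 : ((u + (L : ℤ) - u).toNat : ℝ) ≤ (z : ℝ) ^ (s * (t + 1)) := by
      have : (u + (L : ℤ) - u).toNat = L := by simp
      rw [this]
      exact_mod_cast hs.le
    calc ((u + (L : ℤ) - u).toNat : ℝ) * (z : ℝ) ^ k
        ≤ (z : ℝ) ^ (s * (t + 1)) * (z : ℝ) ^ k := mul_le_mul_of_nonneg_right h2 (by positivity)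
      _ = (z : ℝ) ^ (s * (t + 1) + k) := by rw [pow_add]
      _ ≤ (z : ℝ) ^ N := pow_le_pow_right₀ hz1 (by omega)
      _ ≤ _ := by
          have : (0 : ℝ) ≤ (1 / 2) ^ t * L := by positivity
          linarith

theorem norm_sum_ee (u : ℤ) (L : ℕ) (θ : ℝ) : ‖∑ n ∈ Ioc u (u + (L : ℤ)), ee (θ * n)‖ ≤ L := by
  refine (norm_sum_le _ _).trans ?_
  simp only [norm_ee, Finset.sum_const, Int.card_Ioc, nsmul_eq_mul, mul_one]
  have : (u + (L : ℤ) - u).toNat = L := by simp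
  rw [this]

section ctx

variable {k K : ℕ} {z0 z C0 : ℕ} {a0 b0 : ℤ} {a : Fin k → ℤ} {α β : Fin K → ℤ}
  {J : Finset (Fin K)}

/-- the estimate of the sum over `m` for a pair of distinct primes, with a phase -/
theorem off_pairC {s s' s'' t B N : ℕ} {d : Fin k → ℤ}
    (hC : Ctx z0 z C0 a0 b0 a α β J) (hd : ∀ j, |d j| ≤ C0)
    (h2 : S4At (k + k + 1) s t z0 B z) (h1 : S4At (k + 1) s' t z0 B z) (h0 : S4At 1 s'' t z0 B z)
    (hN2 : s * (t + 1) + (k + k + 1) + 1 ≤ N) (hN1 : s' * (t + 1) + (k + 1) + 1 ≤ N)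
    (hN0 : s'' * (t + 1) + 1 + 1 ≤ N)
    {p p' Y : ℕ} (hp : p.Prime) (hzp : z < p) (hp' : p'.Prime) (hzp' : z < p')
    (hpY : p ≤ 2 * Y) (hpY' : p' ≤ 2 * Y) (hY : 1 ≤ Y)
    (hb : (4 * C0 ^ 2 + 4 * C0) * Y ≤ z ^ B) {m0 u u' : ℤ} (hm0 : 0 ≤ m0) (hm0' : m0 < a0)
    (hu : a0 * u = p * m0 - b0) (hu' : a0 * u' = p' * m0 - b0) (v : ℤ) (L : ℕ)
    (hv : 0 < L → |v| ≤ (z : ℤ) ^ B ∧ L ≤ z ^ B) (θ : ℝ) :
    ‖∑ x ∈ Ioc v (v + L), ((nu z0 z (![1] : Fin 1 → ℤ) ![0] (m0 + a0 * x) *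
        (nuJ z0 z a0 b0 a d (p * x + u) - 1) *
        (nuJ z0 z a0 b0 a d (p' * x + u') - 1) : ℝ) : ℂ) * ee (θ * x)‖ ≤
      |SS2 z0 z a0 b0 a d p p' - 1| * (L + ((1 / 2) ^ t * L + (z : ℝ) ^ N)) +
        4 * ((1 / 2) ^ t * L + (z : ℝ) ^ N) := by
  have hz0k := hC.z0k
  have hz01 : 1 ≤ z0 := by omega
  have hz2 : 2 ≤ z := by have := hC.zbig; omega
  have ha0 := hC.a0pos
  have ha0C := hC.a0C
  have hC0 : (0 : ℤ) ≤ C0 := by positivity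
  -- sizes
  have hbZ : (4 * (C0 : ℤ) ^ 2 + 4 * C0) * Y ≤ (z : ℤ) ^ B := by exact_mod_cast hb
  have hYZ : (1 : ℤ) ≤ Y := by exact_mod_cast hY
  have szr : ∀ (r : ℕ), r ≤ 2 * Y → ∀ j, |a j * r| ≤ (z : ℤ) ^ B := by
    intro r hr j
    have e1 := hC.sf.bd j
    rw [abs_mul, abs_of_nonneg (by positivity : (0 : ℤ) ≤ r)]
    have e2 : (r : ℤ) ≤ 2 * Y := by exact_mod_cast hr
    have e3 : |a j| * (r : ℤ) ≤ C0 * (2 * Y) := mul_le_mul e1 e2 (by positivity) hC0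
    nlinarith
  have szu : ∀ (r : ℕ) (w : ℤ), r ≤ 2 * Y → a0 * w = r * m0 - b0 → |w| ≤ 2 * Y * C0 + C0 := by
    intro r w hr hw
    have e1 := hC.b0C
    have e2 : (r : ℤ) ≤ 2 * Y := by exact_mod_cast hr
    have e3 : |a0 * w| ≤ 2 * Y * C0 + C0 := by
      rw [hw]
      refine (abs_sub _ _).trans (add_le_add ?_ e1)
      rw [abs_of_nonneg (by positivity)]
      exact mul_le_mul e2 (by linarith) hm0 (by positivity)
    rw [abs_mul, abs_of_pos ha0] at e3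
    have e4 : 1 * |w| ≤ a0 * |w| := mul_le_mul_of_nonneg_right (by linarith) (abs_nonneg _)
    linarith
  have szb : ∀ (r : ℕ) (w : ℤ), r ≤ 2 * Y → a0 * w = r * m0 - b0 → ∀ j,
      |a j * w + d j| ≤ (z : ℤ) ^ B := by
    intro r w hr hw j
    have e1 := szu r w hr hw
    have e2 := hC.sf.bd j
    have e3 := hd j
    have e4 : |a j * w| ≤ C0 * (2 * Y * C0 + C0) := by
      rw [abs_mul]
      exact mul_le_mul e2 e1 (abs_nonneg _) hC0
    have e5 := abs_add_le (a j * w) (d j)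
    nlinarith
  have sz0 : |a0| ≤ (z : ℤ) ^ B ∧ |m0| ≤ (z : ℤ) ^ B := by
    rw [abs_of_pos ha0, abs_of_nonneg hm0]
    constructor <;> nlinarith
  -- one prime
  have one : ∀ (r : ℕ) (w : ℤ), r.Prime → z < r → r ≤ 2 * Y → a0 * w = r * m0 - b0 →
      ‖(∑ x ∈ Ioc v (v + L), ((nu z0 z (![1] : Fin 1 → ℤ) ![0] (m0 + a0 * x) *
        nuJ z0 z a0 b0 a d (r * x + w) : ℝ) : ℂ) * ee (θ * x)) -
        ∑ x ∈ Ioc v (v + L), ee (θ * x)‖ ≤ (1 / 2) ^ t * L + (z : ℝ) ^ N := by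
    intro r w hr hzr hrY hw
    have g := s4_all h1 (by omega) hC.z0z hz2 hN1 (A1 a0 a r) (B1 m0 a d w) (by
      intro j
      refine ⟨?_, ?_, hC.A1_ok hr hzr j⟩
      · unfold A1
        refine Fin.cases ?_ (fun j => ?_) j
        · rw [Fin.cons_zero]; exact sz0.1
        · rw [Fin.cons_succ]; exact szr r hrY j
      · unfold B1
        refine Fin.cases ?_ (fun j => ?_) j
        · rw [Fin.cons_zero]; exact sz0.2
        · rw [Fin.cons_succ]; exact szb r w hrY hw j) v L hv θ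
    refine le_trans (le_of_eq ?_) g
    congr 2
    refine Finset.sum_congr rfl (fun x _ => ?_)
    rw [nu_A1 hz01 a0 b0 m0 r w a d hC.copa0 (coprime_of_gt hr hzr) hw x]
  -- the pair
  have two : ‖(∑ x ∈ Ioc v (v + L), ((nu z0 z (![1] : Fin 1 → ℤ) ![0] (m0 + a0 * x) *
        nuJ z0 z a0 b0 a d (p * x + u) * nuJ z0 z a0 b0 a d (p' * x + u') : ℝ) : ℂ) *
          ee (θ * x)) -
        (SS2 z0 z a0 b0 a d p p' : ℂ) * ∑ x ∈ Ioc v (v + L), ee (θ * x)‖ ≤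
      |SS2 z0 z a0 b0 a d p p'| * ((1 / 2) ^ t * L + (z : ℝ) ^ N) := by
    have g := s4_all h2 (by omega) hC.z0z hz2 hN2 (A2 a0 a p p') (B2 m0 a d u u') (by
      intro j
      refine ⟨?_, ?_, hC.A2_ok hp hzp hp' hzp' j⟩
      · unfold A2
        refine Fin.cases ?_ (fun j => ?_) j
        · rw [Fin.cons_zero]; exact sz0.1
        · rw [Fin.cons_succ]
          refine Fin.addCases (fun j => ?_) (fun j => ?_) j
          · rw [Fin.append_left]; exact szr p hpY j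
          · rw [Fin.append_right]; exact szr p' hpY' j
      · unfold B2
        refine Fin.cases ?_ (fun j => ?_) j
        · rw [Fin.cons_zero]; exact sz0.2
        · rw [Fin.cons_succ]
          refine Fin.addCases (fun j => ?_) (fun j => ?_) j
          · rw [Fin.append_left]; exact szb p u hpY hu j
          · rw [Fin.append_right]; exact szb p' u' hpY' hu' j) v L hv θ
    have e : (∑ x ∈ Ioc v (v + L), ((nu z0 z (![1] : Fin 1 → ℤ) ![0] (m0 + a0 * x) *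
        nuJ z0 z a0 b0 a d (p * x + u) * nuJ z0 z a0 b0 a d (p' * x + u') : ℝ) : ℂ) *
          ee (θ * x)) -
        (SS2 z0 z a0 b0 a d p p' : ℂ) * ∑ x ∈ Ioc v (v + L), ee (θ * x) =
        (SS2 z0 z a0 b0 a d p p' : ℂ) * ((∑ x ∈ Ioc v (v + L), ((nu z0 z (A2 a0 a p p')
          (B2 m0 a d u u') x : ℝ) : ℂ) * ee (θ * x)) - ∑ x ∈ Ioc v (v + L), ee (θ * x)) := by
      rw [mul_sub]
      congr 1
      rw [Finset.mul_sum]
      refine Finset.sum_congr rfl (fun x _ => ?_)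
      rw [nu_A2 hz01 a0 b0 m0 p p' u u' a d hC.copa0 hu hu' (hC.V2_ok _ hp hzp hp' hzp') x]
      push_cast
      ring
    rw [e, norm_mul, Complex.norm_real, Real.norm_eq_abs]
    exact mul_le_mul_of_nonneg_left g (abs_nonneg _)
  -- no prime
  have zero : ‖(∑ x ∈ Ioc v (v + L), ((nu z0 z (![1] : Fin 1 → ℤ) ![0] (m0 + a0 * x) : ℝ) : ℂ) *
        ee (θ * x)) - ∑ x ∈ Ioc v (v + L), ee (θ * x)‖ ≤ (1 / 2) ^ t * L + (z : ℝ) ^ N := by
    have g := s4_all h0 (by omega) hC.z0z hz2 hN0 (fun _ => a0) (fun _ => m0)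
      (fun _ => ⟨sz0.1, sz0.2, not_dvd_of_coprime hC.copa0⟩) v L hv θ
    have e : ∀ x : ℤ, nu z0 z (![1] : Fin 1 → ℤ) ![0] (m0 + a0 * x) =
        nu z0 z (fun _ : Fin 1 => a0) (fun _ => m0) x := by
      intro x
      unfold nu
      have e1 : VV z0 z (fun _ : Fin 1 => a0) (fun _ => m0) =
          VV z0 z (![1] : Fin 1 → ℤ) ![0] := by
        rw [← VV_aff z0 z (![1] : Fin 1 → ℤ) ![0] a0 m0 hC.copa0]
        congr 1
        · funext j; fin_cases j; simp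
        · funext j; fin_cases j; simp
      rw [e1]
      have e2 : (∀ j : Fin 1, Rough z0 z ((![1] : Fin 1 → ℤ) j * (m0 + a0 * x) +
          (![0] : Fin 1 → ℤ) j)) ↔ ∀ _j : Fin 1, Rough z0 z (a0 * x + m0) := by
        simp [add_comm]
      by_cases hr : ∀ _j : Fin 1, Rough z0 z (a0 * x + m0)
      · rw [if_pos (e2.2 hr), if_pos hr]
      · rw [if_neg (fun h3 => hr (e2.1 h3)), if_neg hr]
    have e' : ∑ x ∈ Ioc v (v + (L : ℤ)),
        ((nu z0 z (![1] : Fin 1 → ℤ) ![0] (m0 + a0 * x) : ℝ) : ℂ) * ee (θ * x) =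
        ∑ x ∈ Ioc v (v + (L : ℤ)), ((nu z0 z (fun _ : Fin 1 => a0) (fun _ => m0) x : ℝ) : ℂ) *
          ee (θ * x) := Finset.sum_congr rfl (fun x _ => by rw [e x])
    rw [e']
    exact g
  exact pair_boundC _ _ _ _ _ _ _ _ (norm_sum_ee v L θ) two (one p u hp hzp hpY hu)
    (one p' u' hp' hzp' hpY' hu') zero

end ctx

end Pool.Agent.Lib.MT2
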