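import Pool.Agent.Lib.MT2.StmtsD
import Pool.Agent.Lib.TwinAll.W2_64

/-!
MT2 (D), module MAJP: primes in a progression on the major arcs.
-/

set_option autoImplicit false

namespace Pool.Agent.Lib.MT2

open Finset Filter Topology
open Pool.Agent.Lib.TwinAll (PP Rough om VV nu ee w2f w2_tendsto w2_ee_lip)

namespace J95

/-! ### Classes -/

open Classical in
/-- points of a class -/
noncomputable def cl (Q c x : ℕ) : Finset ℤ :=
  (Ioc (0 : ℤ) x).filter (fun U => (Q : ℤ) ∣ U - c)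

lemma mem_cl {Q c x : ℕ} {U : ℤ} : U ∈ cl Q c x ↔ (0 < U ∧ U ≤ x) ∧ (Q : ℤ) ∣ U - c := by
  unfold cl
  rw [Finset.mem_filter, Finset.mem_Ioc]

lemma cl_zero (Q c : ℕ) : cl Q c 0 = ∅ := by
  apply Finset.eq_empty_of_forall_notMem
  intro U hU
  rw [mem_cl] at hU
  push_cast at hU
  omega

lemma cl_mono {Q c x y : ℕ} (h : x ≤ y) : cl Q c x ⊆ cl Q c y := by
  intro U hU
  rw [mem_cl] at hU ⊢
  have : (x : ℤ) ≤ y := by exact_mod_cast h
  exact ⟨⟨hU.1.1, by linarith [hU.1.2]⟩, hU.2⟩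

lemma card_cl (Q : ℕ) (hQ : 0 < Q) (c x : ℕ) : |((cl Q c x).card : ℝ) - (x : ℝ) / Q| ≤ 1 := by
  have hQz : (0 : ℤ) < Q := by exact_mod_cast hQ
  have h1 : cl Q c x = (Ioc (0 : ℤ) x).filter (fun U => U ≡ (c : ℤ) [ZMOD Q]) := by
    ext U
    rw [mem_cl, Finset.mem_filter, Finset.mem_Ioc, Int.modEq_comm, Int.modEq_iff_dvd]
  have h2 := Int.Ioc_filter_modEq_card (0 : ℤ) (x : ℤ) hQz (c : ℤ)
  rw [← h1] at h2
  have hQq : (0 : ℚ) < Q := by exact_mod_cast hQ
  have hle : ⌊(((0 : ℤ) : ℚ) - ((c : ℤ) : ℚ)) / ((Q : ℤ) : ℚ)⌋ ≤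
      ⌊(((x : ℤ) : ℚ) - ((c : ℤ) : ℚ)) / ((Q : ℤ) : ℚ)⌋ := by
    apply Int.floor_le_floor
    push_cast
    apply div_le_div_of_nonneg_right _ hQq.le
    have : (0 : ℚ) ≤ x := Nat.cast_nonneg x
    linarith
  rw [max_eq_left (by linarith)] at h2
  have h3 := Int.floor_le ((((x : ℤ) : ℚ) - ((c : ℤ) : ℚ)) / ((Q : ℤ) : ℚ))
  have h4 := Int.lt_floor_add_one ((((x : ℤ) : ℚ) - ((c : ℤ) : ℚ)) / ((Q : ℤ) : ℚ))
  have h5 := Int.floor_le ((((0 : ℤ) : ℚ) - ((c : ℤ) : ℚ)) / ((Q : ℤ) : ℚ))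
  have h6 := Int.lt_floor_add_one ((((0 : ℤ) : ℚ) - ((c : ℤ) : ℚ)) / ((Q : ℤ) : ℚ))
  have h7 : (((x : ℤ) : ℚ) - ((c : ℤ) : ℚ)) / ((Q : ℤ) : ℚ) -
      ((((0 : ℤ) : ℚ) - ((c : ℤ) : ℚ)) / ((Q : ℤ) : ℚ)) = (x : ℚ) / Q := by
    push_cast
    ring
  have h8 : (((cl Q c x).card : ℤ) : ℚ) =
      (⌊(((x : ℤ) : ℚ) - ((c : ℤ) : ℚ)) / ((Q : ℤ) : ℚ)⌋ : ℚ) -
      (⌊(((0 : ℤ) : ℚ) - ((c : ℤ) : ℚ)) / ((Q : ℤ) : ℚ)⌋ : ℚ) := by
    rw [h2]
    push_cast
    ring
  have h9 : |(((cl Q c x).card : ℕ) : ℚ) - (x : ℚ) / Q| ≤ 1 := by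
    have e : (((cl Q c x).card : ℤ) : ℚ) = (((cl Q c x).card : ℕ) : ℚ) := by push_cast; rfl
    rw [← e, h8, ← h7, abs_le]
    constructor <;> linarith
  have h10 : ((|(((cl Q c x).card : ℕ) : ℚ) - (x : ℚ) / Q| : ℚ) : ℝ) ≤ ((1 : ℚ) : ℝ) := by
    exact_mod_cast h9
  push_cast at h10
  exact h10

/-! ### Counting primes in a class -/

open Classical in
/-- the points of a class which give a prime -/
noncomputable def pc (A : ℕ) (b0 : ℤ) (Q c x : ℕ) : Finset ℤ :=
  (cl Q c x).filter (fun U => Prime ((A : ℤ) * U + b0))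

lemma prime_toNat {n : ℤ} (h : 0 < n) : Prime n ↔ n.toNat.Prime := by
  rw [Int.prime_iff_natAbs_prime]
  have : n.natAbs = n.toNat := by omega
  rw [this]

lemma count (A : ℕ) (hA : 0 < A) (b0 : ℤ) (C : ℕ) (hb : |b0| ≤ C) (Q : ℕ)
    (c c' : ℕ) (hc' : ((A * Q : ℕ) : ℤ) ∣ (c' : ℤ) - (A * c + b0)) (x : ℕ) :
    w2f (A * Q) c' (A * x) ≤ (pc A b0 Q c x).card + 2 * C ∧
      (pc A b0 Q c x).card ≤ w2f (A * Q) c' (A * x) + 2 * C := by
  have hAz : (0 : ℤ) < A := by exact_mod_cast hA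
  have hAz1 : (1 : ℤ) ≤ A := by exact_mod_cast hA
  have hab := abs_le.1 hb
  constructor
  · have hsub : (Finset.Ioc 0 (A * x)).filter (fun p : ℕ => p.Prime ∧ p ≡ c' [MOD (A * Q)]) ⊆
        ((pc A b0 Q c x).image (fun U : ℤ => ((A : ℤ) * U + b0).toNat) ∪ Finset.Ioc 0 C) ∪
          Finset.Ioc (A * x - C) (A * x) := by
      intro p hp
      rw [Finset.mem_filter, Finset.mem_Ioc] at hp
      obtain ⟨⟨hp0, hp1⟩, hpp, hpc⟩ := hp
      rw [Finset.mem_union, Finset.mem_union, Finset.mem_Ioc, Finset.mem_Ioc]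
      rcases le_or_gt p C with h1 | h1
      · exact Or.inl (Or.inr ⟨hp0, h1⟩)
      rcases le_or_gt p (A * x - C) with h2 | h2
      · refine Or.inl (Or.inl ?_)
        rw [Finset.mem_image]
        have h4 : ((A * Q : ℕ) : ℤ) ∣ p - c' := by
          have h5 : (c' : ℤ) ≡ p [ZMOD ((A * Q : ℕ) : ℤ)] := by
            rw [← Int.natCast_modEq_iff] at hpc
            exact hpc.symm
          exact h5.dvd
        obtain ⟨k, hk⟩ : ((A * Q : ℕ) : ℤ) ∣ p - (A * c + b0) := by
          have h6 : (p : ℤ) - (A * c + b0) = (p - c') + (c' - (A * c + b0)) := by ring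
          rw [h6]
          exact dvd_add h4 hc'
        push_cast at hk
        have hU : (A : ℤ) * (c + Q * k) = p - b0 := by linarith
        have h1z : (C : ℤ) < p := by exact_mod_cast h1
        have h2z : (p : ℤ) + C ≤ (A : ℤ) * x := by
          have h7 : p + C ≤ A * x := by omega
          exact_mod_cast h7
        refine ⟨c + Q * k, ?_, ?_⟩
        · unfold pc
          rw [Finset.mem_filter, mem_cl]
          refine ⟨⟨⟨?_, ?_⟩, ?_⟩, ?_⟩
          · have h7 : 0 < (A : ℤ) * (c + Q * k) := by rw [hU]; linarith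
            exact (mul_pos_iff_of_pos_left hAz).1 h7
          · have h7 : (A : ℤ) * (c + Q * k) ≤ A * x := by rw [hU]; linarith
            exact le_of_mul_le_mul_left h7 hAz
          · exact ⟨k, by ring⟩
          · rw [hU, sub_add_cancel]
            exact Nat.prime_iff_prime_int.1 hpp
        · rw [hU, sub_add_cancel]
          exact Int.toNat_natCast p
      · exact Or.inr ⟨by omega, hp1⟩
    have h1 := Finset.card_le_card hsub
    have h2 : (Finset.Ioc 0 C).card = C := by rw [Nat.card_Ioc]; omega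
    have h3 : (Finset.Ioc (A * x - C) (A * x)).card ≤ C := by rw [Nat.card_Ioc]; omega
    have h4 := Finset.card_union_le ((pc A b0 Q c x).image
      (fun U : ℤ => ((A : ℤ) * U + b0).toNat) ∪ Finset.Ioc 0 C) (Finset.Ioc (A * x - C) (A * x))
    have h5 := Finset.card_union_le ((pc A b0 Q c x).image
      (fun U : ℤ => ((A : ℤ) * U + b0).toNat)) (Finset.Ioc 0 C)
    have h6 := Finset.card_image_le (s := pc A b0 Q c x)
      (f := fun U : ℤ => ((A : ℤ) * U + b0).toNat)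
    unfold w2f
    omega
  · classical
    set good := (pc A b0 Q c x).filter (fun U => 0 < (A : ℤ) * U + b0 ∧ (A : ℤ) * U + b0 ≤ A * x)
      with hgood
    have hsub : pc A b0 Q c x ⊆ (good ∪ Finset.Ioc (0 : ℤ) C) ∪ Finset.Ioc ((x : ℤ) - C) x := by
      intro U hU
      have hU' := hU
      unfold pc at hU'
      rw [Finset.mem_filter, mem_cl] at hU'
      obtain ⟨⟨⟨h0, h1⟩, h2⟩, h3⟩ := hU'
      rw [Finset.mem_union, Finset.mem_union, Finset.mem_Ioc, Finset.mem_Ioc]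
      by_cases hg : 0 < (A : ℤ) * U + b0
      · by_cases hg2 : (A : ℤ) * U + b0 ≤ A * x
        · exact Or.inl (Or.inl (by rw [hgood, Finset.mem_filter]; exact ⟨hU, hg, hg2⟩))
        · right
          refine ⟨?_, h1⟩
          by_contra hcon
          push Not at hcon hg2
          nlinarith
      · refine Or.inl (Or.inr ⟨h0, ?_⟩)
        push Not at hg
        nlinarith
    have h1 := Finset.card_le_card hsub
    have h2 : (Finset.Ioc (0 : ℤ) C).card = C := by rw [Int.card_Ioc]; omega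
    have h3 : (Finset.Ioc ((x : ℤ) - C) x).card = C := by rw [Int.card_Ioc]; omega
    have h4 := Finset.card_union_le (good ∪ Finset.Ioc (0 : ℤ) C) (Finset.Ioc ((x : ℤ) - C) x)
    have h5 := Finset.card_union_le good (Finset.Ioc (0 : ℤ) C)
    have h6 : good.card ≤ w2f (A * Q) c' (A * x) := by
      unfold w2f
      apply Finset.card_le_card_of_injOn (fun U : ℤ => ((A : ℤ) * U + b0).toNat)
      · intro U hU
        rw [Finset.mem_coe, hgood, Finset.mem_filter] at hU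
        obtain ⟨hU, hg1, hg2⟩ := hU
        unfold pc at hU
        rw [Finset.mem_filter, mem_cl] at hU
        obtain ⟨⟨⟨h0, h1⟩, h2⟩, h3⟩ := hU
        rw [Finset.mem_coe, Finset.mem_filter, Finset.mem_Ioc]
        have e : ((((A : ℤ) * U + b0).toNat : ℕ) : ℤ) = A * U + b0 := Int.toNat_of_nonneg hg1.le
        refine ⟨⟨by rw [← Nat.cast_pos (α := ℤ), e]; exact hg1, ?_⟩, (prime_toNat hg1).1 h3, ?_⟩
        · have : ((((A : ℤ) * U + b0).toNat : ℕ) : ℤ) ≤ ((A * x : ℕ) : ℤ) := by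
            rw [e]; push_cast; exact hg2
          exact_mod_cast this
        · rw [← Int.natCast_modEq_iff, e]
          apply Int.ModEq.symm
          rw [Int.modEq_iff_dvd]
          obtain ⟨k, hk⟩ := h2
          have e2 : (A : ℤ) * U + b0 - c' = ((A * Q : ℕ) : ℤ) * k - (c' - (A * c + b0)) := by
            have : U = c + Q * k := by linarith
            rw [this]
            push_cast
            ring
          rw [e2]
          exact dvd_sub (dvd_mul_right _ _) hc'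
      · intro U hU U' hU' h
        rw [Finset.mem_coe, hgood, Finset.mem_filter] at hU hU'
        have e : ((((A : ℤ) * U + b0).toNat : ℕ) : ℤ) = A * U + b0 :=
          Int.toNat_of_nonneg hU.2.1.le
        have e' : ((((A : ℤ) * U' + b0).toNat : ℕ) : ℤ) = A * U' + b0 :=
          Int.toNat_of_nonneg hU'.2.1.le
        have h7 : ((A : ℤ) * U + b0).toNat = ((A : ℤ) * U' + b0).toNat := h
        rw [h7, e'] at e
        have h8 : (A : ℤ) * U' = A * U := by linarith
        exact (mul_left_cancel₀ hAz.ne' h8).symm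
    omega

lemma totient_mul_of_dvd (A Q : ℕ) (hA : 0 < A) (hQ : 0 < Q)
    (h : ∀ p : ℕ, p.Prime → p ∣ Q → p ∣ A) : ((A * Q).totient : ℝ) = A.totient * Q := by
  have h1 := Nat.totient_mul_prod_primeFactors A
  have h2 := Nat.totient_mul_prod_primeFactors (A * Q)
  have h3 : (A * Q).primeFactors = A.primeFactors := by
    rw [Nat.primeFactors_mul hA.ne' hQ.ne']
    apply Finset.union_eq_left.2
    intro p hp
    rw [Nat.mem_primeFactors] at hp ⊢
    exact ⟨hp.1, h p hp.1 hp.2.1, hA.ne'⟩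
  rw [h3] at h2
  have h4 : 0 < ∏ p ∈ A.primeFactors, p :=
    Finset.prod_pos (fun p hp => (Nat.prime_of_mem_primeFactors hp).pos)
  have h5 : (A * Q).totient = A.totient * Q := by
    apply Nat.eq_of_mul_eq_mul_right h4
    rw [h2]
    calc A * Q * ∏ p ∈ A.primeFactors, (p - 1) = (A * ∏ p ∈ A.primeFactors, (p - 1)) * Q := by ring
      _ = (A.totient * ∏ p ∈ A.primeFactors, p) * Q := by rw [h1]
      _ = A.totient * Q * ∏ p ∈ A.primeFactors, p := by ring
  rw [h5]
  push_cast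
  rfl

/-! ### The limit -/

lemma w2f_mono (q c : ℕ) {x y : ℕ} (h : x ≤ y) : w2f q c x ≤ w2f q c y := by
  unfold w2f
  apply Finset.card_le_card
  intro p hp
  rw [Finset.mem_filter, Finset.mem_Ioc] at hp ⊢
  exact ⟨⟨hp.1.1, hp.1.2.trans h⟩, hp.2⟩

lemma w2f_diff (q c : ℕ) (x d : ℕ) : w2f q c (x + d) ≤ w2f q c x + d := by
  induction d with
  | zero => rfl
  | succ d ih =>
    have h1 : w2f q c (x + (d + 1)) ≤ w2f q c (x + d) + 1 := by
      unfold w2f
      have hsub : (Finset.Ioc 0 (x + (d + 1))).filter (fun p : ℕ => p.Prime ∧ p ≡ c [MOD q]) ⊆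
          insert (x + (d + 1)) ((Finset.Ioc 0 (x + d)).filter
            (fun p : ℕ => p.Prime ∧ p ≡ c [MOD q])) := by
        intro p hp
        rw [Finset.mem_filter, Finset.mem_Ioc] at hp
        rw [Finset.mem_insert, Finset.mem_filter, Finset.mem_Ioc]
        by_cases h : p = x + (d + 1)
        · exact Or.inl h
        · exact Or.inr ⟨⟨hp.1.1, by omega⟩, hp.2⟩
      exact (Finset.card_le_card hsub).trans (Finset.card_insert_le _ _)
    omega

open Classical in
/-- the normalised sum over a class -/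
noncomputable def Dc (κ : ℝ) (A : ℕ) (b0 : ℤ) (Q c x : ℕ) : ℝ :=
  ∑ U ∈ cl Q c x, ((if Prime ((A : ℤ) * U + b0) then κ else 0) - 1)

lemma Dc_eq (κ : ℝ) (A : ℕ) (b0 : ℤ) (Q c x : ℕ) :
    Dc κ A b0 Q c x = κ * (pc A b0 Q c x).card - (cl Q c x).card := by
  classical
  unfold Dc pc
  rw [Finset.sum_sub_distrib, ← Finset.sum_filter, Finset.sum_const, Finset.sum_const,
    nsmul_eq_mul, nsmul_eq_mul, mul_one, mul_comm]

lemma tend_log : Tendsto (fun H : ℕ => Real.log H / H) atTop (𝓝 0) :=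
  (Real.isLittleO_log_id_atTop.tendsto_div_nhds_zero).comp tendsto_natCast_atTop_atTop

lemma tend_ratio (A : ℕ) (hA : 0 < A) :
    Tendsto (fun H : ℕ => Real.log H / Real.log ((A * H : ℕ) : ℝ)) atTop (𝓝 1) := by
  have hAr : (0 : ℝ) < A := by exact_mod_cast hA
  have h5 : Tendsto (fun H : ℕ => Real.log ((A * H : ℕ) : ℝ)) atTop atTop := by
    refine Real.tendsto_log_atTop.comp (tendsto_natCast_atTop_atTop.comp ?_)
    exact Filter.tendsto_id.const_mul_atTop' hA
  have h6 := (tendsto_const_nhds (x := Real.log A)).div_atTop h5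
  have h7 : Tendsto (fun H : ℕ => 1 - Real.log A / Real.log ((A * H : ℕ) : ℝ)) atTop
      (𝓝 (1 - 0)) := tendsto_const_nhds.sub h6
  rw [sub_zero] at h7
  refine h7.congr' ?_
  filter_upwards [eventually_gt_atTop 0, h5.eventually_gt_atTop 0] with H hH hlog
  have hHr : (H : ℝ) ≠ 0 := by exact_mod_cast hH.ne'
  have e : Real.log ((A * H : ℕ) : ℝ) = Real.log A + Real.log H := by
    push_cast
    exact Real.log_mul hAr.ne' hHr
  rw [e] at hlog ⊢
  field_simp
  ring

lemma tend_cl (Q : ℕ) (hQ : 0 < Q) (c J j : ℕ) (hJ : 0 < J) :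
    Tendsto (fun H : ℕ => ((cl Q c (j * H / J)).card : ℝ) / H) atTop
      (𝓝 ((j : ℝ) / J / Q)) := by
  have hQr : (0 : ℝ) < Q := by exact_mod_cast hQ
  have hJr : (0 : ℝ) < J := by exact_mod_cast hJ
  have h1 : Tendsto (fun H : ℕ => (2 : ℝ) * (1 / (H : ℝ))) atTop (𝓝 (2 * 0)) :=
    tendsto_one_div_atTop_nhds_zero_nat.const_mul _
  rw [mul_zero] at h1
  rw [tendsto_iff_norm_sub_tendsto_zero]
  refine squeeze_zero' (Filter.Eventually.of_forall (fun _ => norm_nonneg _)) ?_ h1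
  filter_upwards [eventually_gt_atTop 0] with H hH
  have hHr : (0 : ℝ) < H := by exact_mod_cast hH
  have h2 := card_cl Q hQ c (j * H / J)
  have h3 : |((j * H / J : ℕ) : ℝ) - (j : ℝ) * H / J| ≤ 1 := by
    have h4 : (((j * H / J : ℕ) : ℝ)) ≤ (j : ℝ) * H / J := by
      rw [le_div_iff₀ hJr]
      have : j * H / J * J ≤ j * H := Nat.div_mul_le_self _ _
      exact_mod_cast this
    have h5 : (j : ℝ) * H / J ≤ ((j * H / J : ℕ) : ℝ) + 1 := by
      rw [div_le_iff₀ hJr]
      have : j * H ≤ (j * H / J + 1) * J := by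
        have := Nat.div_add_mod (j * H) J
        have := Nat.mod_lt (j * H) hJ
        nlinarith
      exact_mod_cast this
    rw [abs_le]
    constructor <;> linarith
  have h6 : ((cl Q c (j * H / J)).card : ℝ) / H - (j : ℝ) / J / Q =
      ((((cl Q c (j * H / J)).card : ℝ) - ((j * H / J : ℕ) : ℝ) / Q) +
        (((j * H / J : ℕ) : ℝ) - (j : ℝ) * H / J) / Q) / H := by
    field_simp
    ring
  rw [Real.norm_eq_abs, h6, abs_div, abs_of_pos hHr, mul_one_div]
  apply div_le_div_of_nonneg_right _ hHr.le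
  refine (abs_add_le _ _).trans ?_
  have h7 : |(((j * H / J : ℕ) : ℝ) - (j : ℝ) * H / J) / Q| ≤ 1 := by
    rw [abs_div, abs_of_pos hQr, div_le_one hQr]
    refine h3.trans ?_
    exact_mod_cast hQ
  linarith

lemma coprime_class (A : ℕ) (b0 : ℤ) (hcop : IsCoprime (A : ℤ) b0) (Q : ℕ)
    (hdiv : ∀ p : ℕ, p.Prime → p ∣ Q → p ∣ A) (c c' : ℕ)
    (hc' : ((A * Q : ℕ) : ℤ) ∣ (c' : ℤ) - (A * c + b0)) : Nat.Coprime c' (A * Q) := by
  rw [Nat.coprime_iff_gcd_eq_one]
  by_contra hne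
  obtain ⟨p, hp, hpd⟩ := Nat.exists_prime_and_dvd hne
  have h1 : p ∣ c' := hpd.trans (Nat.gcd_dvd_left _ _)
  have h2 : p ∣ A * Q := hpd.trans (Nat.gcd_dvd_right _ _)
  have h3 : p ∣ A := by
    rcases (Nat.Prime.dvd_mul hp).1 h2 with h | h
    · exact h
    · exact hdiv p hp h
  have h4 : (p : ℤ) ∣ b0 := by
    have h5 : (p : ℤ) ∣ (c' : ℤ) - (A * c + b0) := by
      refine dvd_trans ?_ hc'
      exact_mod_cast h2
    have h6 : (p : ℤ) ∣ (c' : ℤ) := by exact_mod_cast h1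
    have h7 : (p : ℤ) ∣ (A : ℤ) * c := Dvd.dvd.mul_right (by exact_mod_cast h3) _
    have h8 : b0 = c' - ((c' : ℤ) - (A * c + b0)) - A * c := by ring
    rw [h8]
    exact dvd_sub (dvd_sub h6 h5) h7
  have h9 : (p : ℤ) ∣ A := by exact_mod_cast h3
  have h10 := hcop.isUnit_of_dvd' h9 h4
  have h11 := Int.isUnit_iff.1 h10
  have h12 := hp.two_le
  omega

lemma tend (A : ℕ) (hA : 0 < A) (b0 : ℤ) (hcop : IsCoprime (A : ℤ) b0) (Q : ℕ) (hQ : 0 < Q)
    (hdiv : ∀ p : ℕ, p.Prime → p ∣ Q → p ∣ A) (c J j : ℕ) (hJ : 0 < J) :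
    Tendsto (fun H : ℕ => Dc ((A.totient : ℝ) / A * Real.log H) A b0 Q c (j * H / J) / H) atTop
      (𝓝 0) := by
  have hAr : (0 : ℝ) < A := by exact_mod_cast hA
  have hQr : (0 : ℝ) < Q := by exact_mod_cast hQ
  have hφ : (0 : ℝ) < A.totient := by exact_mod_cast Nat.totient_pos.2 hA
  -- the class
  set M : ℕ := A * Q with hM
  have hM0 : 0 < M := Nat.mul_pos hA hQ
  set c' : ℕ := ((((A : ℤ) * c + b0) % (M : ℤ))).toNat with hc'def
  have hc'e : ((c' : ℕ) : ℤ) = ((A : ℤ) * c + b0) % (M : ℤ) :=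
    Int.toNat_of_nonneg (Int.emod_nonneg _ (by exact_mod_cast hM0.ne'))
  have hc' : ((A * Q : ℕ) : ℤ) ∣ (c' : ℤ) - (A * c + b0) := by
    rw [hc'e, ← hM]
    have := Int.emod_emod_of_dvd ((A : ℤ) * c + b0) (dvd_refl (M : ℤ))
    exact (Int.modEq_iff_dvd.1 (Int.mod_modEq ((A : ℤ) * c + b0) (M : ℤ)).symm)
  have hcp := coprime_class A b0 hcop Q hdiv c c' hc'
  have hw := w2_tendsto (A * Q) c' hM0 hcp j J hJ
  have htot := totient_mul_of_dvd A Q hA hQ hdiv
  have hmul : Tendsto (fun H : ℕ => A * H) atTop atTop :=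
    Filter.tendsto_id.const_mul_atTop' hA
  have hw2 := hw.comp hmul
  have h1 := ((tend_ratio A hA).mul hw2).const_mul (A.totient : ℝ)
  have e1 : (A.totient : ℝ) * (1 * ((j : ℝ) / J / ((A * Q).totient : ℕ))) = (j : ℝ) / J / Q := by
    rw [htot]
    field_simp
  rw [e1] at h1
  -- the error
  obtain ⟨C, hC⟩ : ∃ C : ℕ, |b0| ≤ (C : ℤ) := ⟨b0.natAbs, by rw [Int.abs_eq_natAbs]⟩
  have herr : Tendsto (fun H : ℕ => (A.totient : ℝ) / A * (Real.log H / H) *
      (((pc A b0 Q c (j * H / J)).card : ℝ) - (w2f (A * Q) c' (j * (A * H) / J) : ℝ)))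
      atTop (𝓝 0) := by
    have h2 : Tendsto (fun H : ℕ => ((A.totient : ℝ) / A * (2 * C + A)) * (Real.log H / H)) atTop
        (𝓝 (((A.totient : ℝ) / A * (2 * C + A)) * 0)) := tend_log.const_mul _
    rw [mul_zero] at h2
    refine squeeze_zero_norm' ?_ h2
    filter_upwards [eventually_gt_atTop 0] with H hH
    have hHr : (0 : ℝ) < H := by exact_mod_cast hH
    have hlog : 0 ≤ Real.log H / H :=
      div_nonneg (Real.log_nonneg (by exact_mod_cast hH)) hHr.le
    have h3 := count A hA b0 C hC Q c c' hc' (j * H / J)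
    have h4 : A * (j * H / J) ≤ j * (A * H) / J := by
      rw [Nat.le_div_iff_mul_le hJ]
      calc A * (j * H / J) * J = A * (j * H / J * J) := by ring
        _ ≤ A * (j * H) := Nat.mul_le_mul_left _ (Nat.div_mul_le_self _ _)
        _ = j * (A * H) := by ring
    have h5 : j * (A * H) / J ≤ A * (j * H / J) + A := by
      rw [Nat.div_le_iff_le_mul_add_pred hJ]
      have h6 : j * H < (j * H / J + 1) * J := by
        have := Nat.div_add_mod (j * H) J
        have := Nat.mod_lt (j * H) hJ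
        nlinarith
      have h7 : A * (j * H) ≤ A * ((j * H / J + 1) * J) := Nat.mul_le_mul_left _ h6.le
      calc j * (A * H) = A * (j * H) := by ring
        _ ≤ A * ((j * H / J + 1) * J) := h7
        _ = J * (A * (j * H / J) + A) := by ring
        _ ≤ J * (A * (j * H / J) + A) + (J - 1) := Nat.le_add_right _ _
    have h8 := w2f_mono (A * Q) c' h4
    have h9 : w2f (A * Q) c' (j * (A * H) / J) ≤ w2f (A * Q) c' (A * (j * H / J)) + A := by
      exact (w2f_mono (A * Q) c' h5).trans (w2f_diff _ _ _ _)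
    have h10 : |((pc A b0 Q c (j * H / J)).card : ℝ) -
        (w2f (A * Q) c' (j * (A * H) / J) : ℝ)| ≤ 2 * C + A := by
      have a1 : ((pc A b0 Q c (j * H / J)).card : ℝ) ≤
          (w2f (A * Q) c' (j * (A * H) / J) : ℝ) + 2 * C := by
        exact_mod_cast h3.2.trans (Nat.add_le_add_right h8 _)
      have a2 : (w2f (A * Q) c' (j * (A * H) / J) : ℝ) ≤
          ((pc A b0 Q c (j * H / J)).card : ℝ) + 2 * C + A := by
        have : w2f (A * Q) c' (j * (A * H) / J) ≤ (pc A b0 Q c (j * H / J)).card + 2 * C + A :=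
          h9.trans (Nat.add_le_add_right h3.1 _)
        exact_mod_cast this
      rw [abs_le]
      constructor <;> linarith
    rw [norm_mul, Real.norm_eq_abs, Real.norm_eq_abs, abs_of_nonneg (by positivity)]
    calc (A.totient : ℝ) / A * (Real.log H / H) * _ ≤
          (A.totient : ℝ) / A * (Real.log H / H) * (2 * C + A) :=
          mul_le_mul_of_nonneg_left h10 (by positivity)
      _ = _ := by ring
  have h2 := (h1.add herr).sub (tend_cl Q hQ c J j hJ)
  rw [add_zero, sub_self] at h2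
  refine h2.congr' ?_
  filter_upwards [eventually_gt_atTop 1] with H hH
  have hHr : (0 : ℝ) < H := by exact_mod_cast (by omega : 0 < H)
  have hAH : (1 : ℝ) < ((A * H : ℕ) : ℝ) := by
    have : 1 < A * H := by nlinarith
    exact_mod_cast this
  have hl : Real.log ((A * H : ℕ) : ℝ) ≠ 0 := (Real.log_pos hAH).ne'
  rw [Dc_eq]
  simp only [Function.comp]
  have e2 : Real.log H / Real.log ((A * H : ℕ) : ℝ) *
      (Real.log ((A * H : ℕ) : ℝ) / ((A * H : ℕ) : ℝ) * (w2f (A * Q) c' (j * (A * H) / J) : ℝ)) =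
      (1 / A) * (Real.log H / H) * (w2f (A * Q) c' (j * (A * H) / J) : ℝ) := by
    push_cast at hl ⊢
    field_simp
  rw [e2]
  field_simp
  ring

/-! ### The sum -/

lemma sum_classes {M : Type*} [AddCommMonoid M] (Q : ℕ) (hQ : 0 < Q) (H : ℕ) (G : ℤ → M) :
    ∑ U ∈ Ioc (0 : ℤ) H, G U = ∑ c ∈ range Q, ∑ U ∈ cl Q c H, G U := by
  classical
  have hQz : (0 : ℤ) < Q := by exact_mod_cast hQ
  have hmaps : ∀ U ∈ Ioc (0 : ℤ) H, (U % (Q : ℤ)).toNat ∈ range Q := by
    intro U _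
    rw [Finset.mem_range]
    have h1 := Int.emod_nonneg U hQz.ne'
    have h2 := Int.emod_lt_of_pos U hQz
    omega
  rw [← Finset.sum_fiberwise_of_maps_to hmaps]
  refine Finset.sum_congr rfl (fun c hc => Finset.sum_congr ?_ (fun _ _ => rfl))
  rw [Finset.mem_range] at hc
  ext U
  rw [Finset.mem_filter, mem_cl, Finset.mem_Ioc]
  refine and_congr_right (fun _ => ?_)
  have h1 := Int.emod_nonneg U hQz.ne'
  have h2 := Int.emod_lt_of_pos U hQz
  have hcz : (c : ℤ) < Q := by exact_mod_cast hc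
  constructor
  · intro h
    have h3 : U % (Q : ℤ) = c := by omega
    rw [← h3]
    exact Int.dvd_self_sub_emod
  · intro h
    have h3 : U % (Q : ℤ) = (c : ℤ) % (Q : ℤ) := by
      exact (Int.emod_emod_of_dvd _ (dvd_refl _)).symm.trans
        ((Int.ModEq.symm (Int.modEq_iff_dvd.2 h) : U ≡ c [ZMOD Q]) ▸ by simp)
    rw [Int.emod_eq_of_lt (by omega) hcz] at h3
    omega

lemma sum_blocks {M : Type*} [AddCommGroup M] (Q c J H : ℕ) (hJ : 0 < J) (G : ℤ → M) :
    ∑ U ∈ cl Q c H, G U = ∑ j ∈ range J,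
      ∑ U ∈ cl Q c ((j + 1) * H / J) \ cl Q c (j * H / J), G U := by
  classical
  have h1 : ∀ j ∈ range J, ∑ U ∈ cl Q c ((j + 1) * H / J) \ cl Q c (j * H / J), G U =
      ∑ U ∈ cl Q c ((j + 1) * H / J), G U - ∑ U ∈ cl Q c (j * H / J), G U := by
    intro j _
    rw [Finset.sum_sdiff_eq_sub]
    apply cl_mono
    exact Nat.div_le_div_right (Nat.mul_le_mul_right _ (Nat.le_succ _))
  rw [Finset.sum_congr rfl h1, Finset.sum_range_sub (fun j => ∑ U ∈ cl Q c (j * H / J), G U)]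
  rw [Nat.mul_div_cancel_left _ hJ, Nat.zero_mul, Nat.zero_div, cl_zero, Finset.sum_empty, sub_zero]

lemma ee_int (k : ℤ) : ee (k : ℝ) = 1 := by
  unfold TwinAll.ee
  have h : (2 * Real.pi * ((k : ℤ) : ℝ) * Complex.I : ℂ) =
      (k : ℂ) * (2 * Real.pi * Complex.I) := by
    push_cast; ring
  rw [h, Complex.exp_int_mul_two_pi_mul_I]

lemma ee_add (x y : ℝ) : ee (x + y) = ee x * ee y := by
  unfold TwinAll.ee
  rw [← Complex.exp_add]
  congr 1
  push_cast
  ring

lemma norm_ee (x : ℝ) : ‖ee x‖ = 1 := by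
  unfold TwinAll.ee
  have h : (2 * Real.pi * x * Complex.I : ℂ) = ((2 * Real.pi * x : ℝ) : ℂ) * Complex.I := by
    push_cast; ring
  rw [h, Complex.norm_exp_ofReal_mul_I]

lemma main_sum (H J Q : ℕ) (hJ : 0 < J) (hJH : J ≤ H) (hQ : 0 < Q) (F : ℤ → ℝ) (η T : ℝ) (a : ℤ)
    (β θ : ℝ) (hθ : θ = (a : ℝ) / Q + β) (hβ : |β| ≤ T / H) (hT : 0 ≤ T)
    (hF : ∀ U, |F U| ≤ F U + 2)
    (h1 : ∀ c < Q, ∀ j ≤ J, |∑ U ∈ cl Q c (j * H / J), F U| ≤ η * H) (hη : Q * η ≤ 1) :
    ‖∑ U ∈ Ioc (0 : ℤ) H, ((F U : ℝ) : ℂ) * ee (θ * U)‖ ≤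
      2 * J * (Q * η) * H + 12 * Real.pi * T / J * H := by
  classical
  have hHr : (0 : ℝ) < H := by exact_mod_cast (by omega : 0 < H)
  have hJr : (0 : ℝ) < J := by exact_mod_cast hJ
  have hQr : (0 : ℝ) < Q := by exact_mod_cast hQ
  have hJH' : (J : ℝ) ≤ H := by exact_mod_cast hJH
  -- the total mass
  have habs : ∑ U ∈ Ioc (0 : ℤ) H, |F U| ≤ 3 * H := by
    have h2 : ∑ U ∈ Ioc (0 : ℤ) H, F U ≤ H := by
      rw [sum_classes Q hQ]
      calc ∑ c ∈ range Q, ∑ U ∈ cl Q c H, F U ≤ ∑ c ∈ range Q, η * H := by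
            refine Finset.sum_le_sum (fun c hc => ?_)
            have h3 := h1 c (Finset.mem_range.1 hc) J le_rfl
            rw [Nat.mul_div_cancel_left _ hJ] at h3
            exact (le_abs_self _).trans h3
        _ = (Q * η) * H := by
            rw [Finset.sum_const, Finset.card_range, nsmul_eq_mul]
            ring
        _ ≤ 1 * H := mul_le_mul_of_nonneg_right hη hHr.le
        _ = H := one_mul _
    calc ∑ U ∈ Ioc (0 : ℤ) H, |F U| ≤ ∑ U ∈ Ioc (0 : ℤ) H, (F U + 2) :=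
          Finset.sum_le_sum (fun U _ => hF U)
      _ = ∑ U ∈ Ioc (0 : ℤ) H, F U + 2 * H := by
          rw [Finset.sum_add_distrib, Finset.sum_const, Int.card_Ioc, nsmul_eq_mul]
          simp
          ring
      _ ≤ 3 * H := by linarith
  -- one block
  have hblock : ∀ c ∈ range Q, ∀ j ∈ range J,
      ‖∑ U ∈ cl Q c ((j + 1) * H / J) \ cl Q c (j * H / J), ((F U : ℝ) : ℂ) * ee (θ * U)‖ ≤
        2 * η * H + 4 * Real.pi * T / J *
          ∑ U ∈ cl Q c ((j + 1) * H / J) \ cl Q c (j * H / J), |F U| := by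
    intro c hc j hj
    rw [Finset.mem_range] at hc hj
    set S := cl Q c ((j + 1) * H / J) \ cl Q c (j * H / J) with hS
    set x1 : ℕ := (j + 1) * H / J with hx1
    set x0 : ℕ := j * H / J with hx0
    have hx01 : x0 ≤ x1 := Nat.div_le_div_right (Nat.mul_le_mul_right _ (Nat.le_succ _))
    have hd : (x1 : ℝ) - x0 ≤ 2 * H / J := by
      have h4 : (x1 : ℝ) ≤ ((j : ℝ) + 1) * H / J := by
        rw [le_div_iff₀ hJr]
        have : x1 * J ≤ (j + 1) * H := Nat.div_mul_le_self _ _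
        exact_mod_cast this
      have h5 : (j : ℝ) * H / J ≤ (x0 : ℝ) + 1 := by
        rw [div_le_iff₀ hJr]
        have : j * H ≤ (x0 + 1) * J := by
          have := Nat.div_add_mod (j * H) J
          have := Nat.mod_lt (j * H) hJ
          rw [hx0]
          nlinarith
        exact_mod_cast this
      have h6 : ((j : ℝ) + 1) * H / J = (j : ℝ) * H / J + H / J := by ring
      have h7 : (1 : ℝ) ≤ H / J := by rw [le_div_iff₀ hJr]; linarith
      have h8 : 2 * (H : ℝ) / J = H / J + H / J := by ring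
      linarith
    set e : ℂ := ee ((a : ℝ) / Q * c) * ee (β * x1) with he
    have hen : ‖e‖ = 1 := by rw [he, norm_mul, norm_ee, norm_ee, one_mul]
    have hU : ∀ U ∈ S, ‖ee (θ * U) - e‖ ≤ 4 * Real.pi * T / J := by
      intro U hU
      rw [hS, Finset.mem_sdiff, mem_cl, mem_cl] at hU
      obtain ⟨⟨⟨h2, h3⟩, k, hk⟩, h4⟩ := hU
      have h5 : (x0 : ℤ) < U := by
        by_contra hcon
        exact h4 ⟨⟨h2, by omega⟩, k, hk⟩
      have e1 : ee (θ * U) = ee ((a : ℝ) / Q * c) * ee (β * U) := by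
        have h6 : (U : ℝ) = c + Q * k := by
          have : U = c + Q * k := by linarith
          exact_mod_cast congrArg (fun x : ℤ => (x : ℝ)) this
        have h7 : θ * U = (a : ℝ) / Q * c + β * U + ((a * k : ℤ) : ℝ) := by
          rw [hθ]
          have h8 : (a : ℝ) / Q * U = (a : ℝ) / Q * c + a * k := by
            rw [h6]
            field_simp
          push_cast
          rw [add_mul, h8]
          ring
        rw [h7, ee_add, ee_int, mul_one, ee_add]
      rw [e1, he, ← mul_sub, norm_mul, norm_ee, one_mul]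
      refine (w2_ee_lip _ _).trans ?_
      rw [← mul_sub, abs_mul]
      have h6 : |(U : ℝ) - x1| ≤ 2 * H / J := by
        have h7 : (U : ℝ) ≤ x1 := by exact_mod_cast h3
        have h8 : (x0 : ℝ) ≤ U := by exact_mod_cast h5.le
        rw [abs_le]
        constructor <;> linarith
      calc 2 * Real.pi * (|β| * |(U : ℝ) - x1|) ≤ 2 * Real.pi * (T / H * (2 * H / J)) := by
            refine mul_le_mul_of_nonneg_left ?_ (by positivity)
            exact mul_le_mul hβ h6 (abs_nonneg _) (by positivity)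
        _ = 4 * Real.pi * T / J := by field_simp; ring
    have hdec : ∑ U ∈ S, ((F U : ℝ) : ℂ) * ee (θ * U) =
        e * ((∑ U ∈ S, F U : ℝ) : ℂ) + ∑ U ∈ S, ((F U : ℝ) : ℂ) * (ee (θ * U) - e) := by
      push_cast
      rw [Finset.mul_sum, ← Finset.sum_add_distrib]
      refine Finset.sum_congr rfl (fun U _ => ?_)
      ring
    rw [hdec]
    refine (norm_add_le _ _).trans (add_le_add ?_ ?_)
    · rw [norm_mul, hen, one_mul, Complex.norm_real, Real.norm_eq_abs, hS,
        Finset.sum_sdiff_eq_sub (cl_mono hx01)]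
      have h2 := h1 c hc (j + 1) hj
      have h3 := h1 c hc j hj.le
      refine (abs_sub _ _).trans ?_
      linarith
    · refine (norm_sum_le _ _).trans ?_
      rw [Finset.mul_sum]
      refine Finset.sum_le_sum (fun U hUS => ?_)
      rw [norm_mul, Complex.norm_real, Real.norm_eq_abs, mul_comm]
      exact mul_le_mul_of_nonneg_right (hU U hUS) (abs_nonneg _)
  -- all blocks
  have hall : ∑ U ∈ Ioc (0 : ℤ) H, ((F U : ℝ) : ℂ) * ee (θ * U) = ∑ c ∈ range Q, ∑ j ∈ range J,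
      ∑ U ∈ cl Q c ((j + 1) * H / J) \ cl Q c (j * H / J), ((F U : ℝ) : ℂ) * ee (θ * U) := by
    rw [sum_classes Q hQ]
    exact Finset.sum_congr rfl (fun c _ => sum_blocks Q c J H hJ _)
  have hallF : ∑ U ∈ Ioc (0 : ℤ) H, |F U| = ∑ c ∈ range Q, ∑ j ∈ range J,
      ∑ U ∈ cl Q c ((j + 1) * H / J) \ cl Q c (j * H / J), |F U| := by
    rw [sum_classes Q hQ]
    exact Finset.sum_congr rfl (fun c _ => sum_blocks Q c J H hJ _)
  rw [hall]
  calc ‖∑ c ∈ range Q, ∑ j ∈ range J,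
        ∑ U ∈ cl Q c ((j + 1) * H / J) \ cl Q c (j * H / J), ((F U : ℝ) : ℂ) * ee (θ * U)‖
      ≤ ∑ c ∈ range Q, ∑ j ∈ range J, (2 * η * H + 4 * Real.pi * T / J *
          ∑ U ∈ cl Q c ((j + 1) * H / J) \ cl Q c (j * H / J), |F U|) := by
        refine (norm_sum_le _ _).trans (Finset.sum_le_sum (fun c hc => ?_))
        exact (norm_sum_le _ _).trans (Finset.sum_le_sum (fun j hj => hblock c hc j hj))
    _ = 2 * J * (Q * η) * H + 4 * Real.pi * T / J * ∑ U ∈ Ioc (0 : ℤ) H, |F U| := by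
        rw [hallF, Finset.mul_sum]
        simp only [Finset.sum_add_distrib, Finset.sum_const, Finset.card_range, nsmul_eq_mul,
          Finset.mul_sum]
        ring
    _ ≤ 2 * J * (Q * η) * H + 4 * Real.pi * T / J * (3 * H) := by
        have : 4 * Real.pi * T / J * ∑ U ∈ Ioc (0 : ℤ) H, |F U| ≤
            4 * Real.pi * T / J * (3 * H) :=
          mul_le_mul_of_nonneg_left habs (by positivity)
        linarith
    _ = 2 * J * (Q * η) * H + 12 * Real.pi * T / J * H := by ring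

end J95

open J95 Classical in
/-- Module MAJP. -/
theorem majp_95 : MAJPStmt := by
  intro z0 C0 L T ε hε hL hz0
  -- number of blocks and precision
  obtain ⟨J0, hJ0⟩ := exists_nat_ge (24 * Real.pi * T / ε)
  set J : ℕ := J0 + 1 with hJdef
  have hJ : 0 < J := Nat.succ_pos _
  have hJr : (0 : ℝ) < J := by exact_mod_cast hJ
  set Qm : ℕ := L * C0 + 1 with hQm
  have hQmr : (1 : ℝ) ≤ Qm := by rw [hQm]; push_cast; linarith [mul_nonneg (Nat.cast_nonneg (α := ℝ) L) (Nat.cast_nonneg (α := ℝ) C0)]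
  set η : ℝ := min (1 / Qm) (ε / (4 * J * Qm)) with hη
  have hη0 : 0 < η := lt_min (by positivity) (by positivity)
  -- all progressions
  have hev : ∀ᶠ H : ℕ in atTop, ∀ A ∈ Finset.Icc 1 C0, ∀ b0 ∈ Finset.Icc (-(C0 : ℤ)) C0,
      ∀ q ∈ Finset.Icc 1 L, ∀ c ∈ range (q * A), ∀ j ∈ range (J + 1),
      IsCoprime (A : ℤ) b0 → (∀ p : ℕ, p.Prime → p ∣ q * A → p ∣ A) →
      |Dc ((A.totient : ℝ) / A * Real.log H) A b0 (q * A) c (j * H / J) / H| ≤ η := by
    rw [Filter.eventually_all_finset]; intro A hA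
    rw [Filter.eventually_all_finset]; intro b0 _
    rw [Filter.eventually_all_finset]; intro q hq
    rw [Filter.eventually_all_finset]; intro c _
    rw [Filter.eventually_all_finset]; intro j _
    rw [Finset.mem_Icc] at hA hq
    by_cases h : IsCoprime (A : ℤ) b0 ∧ ∀ p : ℕ, p.Prime → p ∣ q * A → p ∣ A
    · have h1 := (tend A hA.1 b0 h.1 (q * A) (Nat.mul_pos hq.1 hA.1) h.2 c J j hJ).abs
      rw [abs_zero] at h1
      filter_upwards [h1.eventually (gt_mem_nhds hη0)] with H hH _ _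
      exact hH.le
    · exact Filter.Eventually.of_forall fun H h1 h2 => absurd ⟨h1, h2⟩ h
  obtain ⟨H0, hH0⟩ := Filter.eventually_atTop.1 hev
  refine ⟨max H0 J, fun H hH a0 b0 hBF θ hmaj => ?_⟩
  obtain ⟨q, hq1, hqL, a, ha⟩ := hmaj
  have hHH : H0 ≤ H := (le_max_left _ _).trans hH
  have hJH : J ≤ H := (le_max_right _ _).trans hH
  have hHr : (0 : ℝ) < H := by exact_mod_cast (by omega : 0 < H)
  have ha0 := hBF.pos
  obtain ⟨A, rfl⟩ : ∃ A : ℕ, a0 = (A : ℤ) := ⟨a0.toNat, (Int.toNat_of_nonneg ha0.le).symm⟩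
  have hA1 : 1 ≤ A := by exact_mod_cast ha0
  have hAC : A ≤ C0 := by exact_mod_cast hBF.bd.1
  have hAr : (0 : ℝ) < A := by exact_mod_cast hA1
  have hqr : (0 : ℝ) < q := by exact_mod_cast hq1
  have hdiv : ∀ p : ℕ, p.Prime → p ∣ q * A → p ∣ A := by
    intro p hp hpd
    rcases (Nat.Prime.dvd_mul hp).1 hpd with h | h
    · have h1 : p ≤ z0 := ((Nat.le_of_dvd (by omega) h).trans hqL).trans hL
      have h2 := hBF.small p hp h1
      exact_mod_cast h2
    · exact h
  have hb0 : b0 ∈ Finset.Icc (-(C0 : ℤ)) C0 := by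
    rw [Finset.mem_Icc]
    exact abs_le.1 hBF.bd.2
  set κ : ℝ := (A.totient : ℝ) / A * Real.log H with hκ
  have hκ0 : 0 ≤ κ := by
    have := Real.log_nonneg (show (1 : ℝ) ≤ H by exact_mod_cast (by omega : 1 ≤ H))
    positivity
  set F : ℤ → ℝ := fun U => (if Prime ((A : ℤ) * U + b0) then κ else 0) - 1 with hFdef
  set Q : ℕ := q * A with hQdef
  have hQ0 : 0 < Q := Nat.mul_pos hq1 hA1
  have hQQ : (Q : ℝ) ≤ Qm := by
    have : Q ≤ Qm := by
      rw [hQdef, hQm]
      exact (Nat.mul_le_mul hqL hAC).trans (Nat.le_succ _)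
    exact_mod_cast this
  have hA2 : |θ - (a : ℝ) / Q| ≤ (T : ℝ) / H := by
    have h1 : θ * ((A : ℤ) : ℝ) - (a : ℝ) / q = (θ - (a : ℝ) / Q) * A := by
      rw [hQdef]
      push_cast
      field_simp
    rw [h1, abs_mul, abs_of_pos hAr] at ha
    push_cast at ha
    have h2 : |θ - (a : ℝ) / Q| * A ≤ (T : ℝ) / H * A := by
      refine ha.trans (le_of_eq ?_)
      ring
    exact le_of_mul_le_mul_right h2 hAr
  have hmain := main_sum H J Q hJ hJH hQ0 F η T a (θ - (a : ℝ) / Q) θ (by ring) hA2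
    (Nat.cast_nonneg _)
    (by
      intro U
      simp only [hFdef]
      split_ifs
      · rw [abs_le]; constructor <;> linarith
      · norm_num)
    (by
      intro c hc j hj
      have h1 := hH0 H hHH A (Finset.mem_Icc.2 ⟨hA1, hAC⟩) b0 hb0 q
        (Finset.mem_Icc.2 ⟨hq1, hqL⟩) c (Finset.mem_range.2 hc) j
        (Finset.mem_range.2 (by omega)) hBF.cop hdiv
      rw [abs_div, abs_of_pos hHr, div_le_iff₀ hHr] at h1
      exact h1)
    (by
      calc (Q : ℝ) * η ≤ Qm * (1 / Qm) :=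
            mul_le_mul hQQ (min_le_left _ _) hη0.le (by linarith)
        _ = 1 := by field_simp)
  have e1 : ∀ U : ℤ, (((if Prime ((A : ℤ) * U + b0) then
        ((((A : ℤ).toNat.totient : ℕ) : ℝ)) / ((A : ℤ) : ℝ) * Real.log H else 0) - 1 : ℝ)) = F U := by
    intro U
    simp only [hFdef, hκ, Int.toNat_natCast, Int.cast_natCast]
  rw [Finset.sum_congr rfl (fun U _ => by rw [e1 U])]
  refine hmain.trans ?_
  have h1 : 2 * (J : ℝ) * (Q * η) ≤ ε / 2 := by
    have h2 : (Q : ℝ) * η ≤ Qm * (ε / (4 * J * Qm)) :=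
      mul_le_mul hQQ (min_le_right _ _) hη0.le (by linarith)
    calc 2 * (J : ℝ) * (Q * η) ≤ 2 * J * (Qm * (ε / (4 * J * Qm))) :=
          mul_le_mul_of_nonneg_left h2 (by positivity)
      _ = ε / 2 := by field_simp; ring
  have h2 : 12 * Real.pi * T / J ≤ ε / 2 := by
    rw [div_le_iff₀ hJr]
    have h3 : 24 * Real.pi * T / ε ≤ J := by
      refine hJ0.trans ?_
      rw [hJdef]; push_cast; linarith
    rw [div_le_iff₀ hε] at h3
    linarith
  calc 2 * (J : ℝ) * (Q * η) * H + 12 * Real.pi * T / J * H ≤ ε / 2 * H + ε / 2 * H :=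
        add_le_add (mul_le_mul_of_nonneg_right h1 hHr.le) (mul_le_mul_of_nonneg_right h2 hHr.le)
    _ = ε * H := by ring

end Pool.Agent.Lib.MT2
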